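import Pool.Agent.Lib.MP_04ca4f_co.MarkOut

/-!
# Finite prime orders with a chain of five points and a further middle point
-/

set_option autoImplicit false

namespace Pool.Agent.Lib.MP_04ca4f_co

variable {X : Type*} {r : X → X → Prop}

theorem exists_frame_sel [DecidableEq X] {l l' u u' b a v w : X}
    (hd : [l, l', u, u', b, a].Nodup) {R S : Finset X}
    (hR : ∀ z, z ∈ R ↔ z ∉ [l, l', u, u', b, a]) (hS : Sel r R S w) (hv : v ∈ S)
    (key : X → ℕ) : ∃ t : X → ℤ, Frame l l' u u' b a v t ∧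
      (∀ y, 0 ≤ t y → y = a ∨ y = v ∨ t y = 0 ∨ y ∈ S.erase v) ∧
      (∀ x ∈ S.erase v, ∀ y ∈ S.erase v, key x < key y →
        ¬ (t x % 2 = 0 ∧ t y % 2 = 1) ∧ t x + 1 ≠ t a) ∧
      ∀ w e, t w = 0 → t e = 1 ∨ t e = 2 → ¬ Dom r w e := by
  obtain ⟨s1, s2, s3, s4⟩ := hS
  have hvR := (hR v).mp (s2 v hv)
  obtain ⟨w', w1, w2, w3⟩ : ∃ w', (w' = v ∨ (w' = w ∧ w ∈ R)) ∧ (w' ≠ v → w' ∉ S) ∧
      ∀ z ∈ R, z ∈ S ∨ z = w' := by
    by_cases e : w ∈ R
    · exact ⟨w, Or.inr ⟨rfl, e⟩, fun _ => (s4 e).1, s3⟩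
    · exact ⟨v, Or.inl rfl, fun e' => absurd rfl e', fun z hz =>
        Or.inl ((s3 z hz).resolve_right fun e' => e (e' ▸ hz))⟩
  have hF : ∀ z, z ∈ S.erase v ↔ z ∉ [l, l', u, u', b, a, v, w'] := by
    intro y
    have e1 := hR y
    simp only [Finset.mem_erase, List.mem_cons, List.not_mem_nil, or_false, not_or] at e1 ⊢
    constructor
    · rintro ⟨e2, e3⟩
      obtain ⟨a1, a2, a3, a4, a5, a6⟩ := e1.mp (s2 y e3)
      exact ⟨a1, a2, a3, a4, a5, a6, e2, fun e => w2 (e ▸ e2) (e ▸ e3)⟩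
    · rintro ⟨a1, a2, a3, a4, a5, a6, a7, a8⟩
      exact ⟨a7, (w3 y (e1.mpr ⟨a1, a2, a3, a4, a5, a6⟩)).resolve_right a8⟩
  obtain ⟨t, ht, t1, t2, t3⟩ := exists_frame_key (l := l) (l' := l') (u := u) (u' := u') (b := b)
    (a := a) (v := v) (w := w')
    (List.nodup_append.mpr ⟨hd, List.nodup_singleton v, fun p hp q hq e =>
      hvR (List.mem_singleton.mp hq ▸ e ▸ hp)⟩ : ([l, l', u, u', b, a] ++ [v]).Nodup)
    (by
      by_cases e : w' = v
      · exact Or.inl e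
      · have e1 := w1.resolve_left e
        have e2 := (hR w').mp (e1.1 ▸ e1.2)
        simp only [List.mem_cons, List.not_mem_nil, or_false, not_or] at e2 ⊢
        exact Or.inr ⟨e2.1, e2.2.1, e2.2.2.1, e2.2.2.2.1, e2.2.2.2.2.1, e2.2.2.2.2.2, e⟩)
    (S.erase v) hF key 0 (Or.inl ⟨Or.inr rfl, by
      have := Finset.card_pos.mpr ⟨v, hv⟩
      rw [Finset.card_erase_of_mem hv]
      omega⟩)
  have hcase : ∀ y, 0 ≤ t y → y = a ∨ y = v ∨ (y = w' ∧ t y = 0) ∨ y ∈ S.erase v := by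
    intro y hy
    by_cases e : y ∈ S.erase v
    · exact Or.inr (Or.inr (Or.inr e))
    · have e0 := ht.not_mem hy
      rw [hF, not_not] at e
      simp only [List.mem_cons, List.not_mem_nil, or_false, not_or] at e e0
      rcases e with e | e | e | e | e | e | e | e
      · exact absurd e e0.1
      · exact absurd e e0.2.1
      · exact absurd e e0.2.2.1
      · exact absurd e e0.2.2.2.1
      · exact absurd e e0.2.2.2.2
      · exact Or.inl e
      · exact Or.inr (Or.inl e)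
      · by_cases e' : w' = v
        · exact Or.inr (Or.inl (e.trans e'))
        · exact Or.inr (Or.inr (Or.inl ⟨e, e ▸ t1 e'⟩))
  have a1 := ht.hv
  have a3 := ht.big
  refine ⟨t, ht, fun y hy => (hcase y hy).imp_right (Or.imp_right (Or.imp_left And.right)), t3,
    fun x e x0 e0 => ?_⟩
  have hx : x = w' ∧ w' ≠ v := by
    rcases hcase x (by omega) with e | e | e | e
    · rw [e] at x0
      omega
    · rw [e] at x0
      omega
    · refine ⟨e.1, fun e' => ?_⟩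
      rw [e.1, e'] at x0
      omega
    · have := t2 x e
      omega
  have e1 := w1.resolve_left hx.2
  rw [hx.1, e1.1]
  refine (s4 e1.2).2 e ?_ fun e' => ?_
  · rcases hcase e (by omega) with e' | e' | e' | e'
    · rw [e'] at e0
      omega
    · exact e' ▸ s2 v hv
    · omega
    · exact s2 e (Finset.mem_of_mem_erase e')
  · rw [e', ← e1.1, ← hx.1] at e0
    omega

/-- Selection of the point at place 0 away from two end points with hereditary properties. -/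
theorem Prime.exists_sel [Finite X] (hP : Prime r) (h3 : ∀ x y : X, ∃ z, z ≠ x ∧ z ≠ y)
    (asymm : ∀ x y, r x y → ¬ r y x) (R : Finset X) {a : X} (ha : a ∉ R) (Y Z : X → Prop)
    (hY : ∀ w ∈ R, ∀ e ∈ R, Dom r w e → Y e → Y w) (hZ : ∀ w ∈ R, ∀ e ∈ R, Dom r w e → Z e → Z w)
    (h : ∃ v ∈ R, ∃ y ∈ R, y ≠ v ∧ Y v ∧ Z y) :
    ∃ S w, Sel r R S w ∧ ∃ v ∈ S, ∃ y ∈ S, y ≠ v ∧ Y v ∧ Z y := by
  classical
  by_cases e : R.card % 2 = 0
  · exact ⟨R, a, ⟨e, fun _ h => h, fun _ h => Or.inl h, fun h => absurd h ha⟩, h⟩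
  obtain ⟨c, hc⟩ := hP.exists_pot h3 asymm
  obtain ⟨⟨v, y⟩, h1, h2⟩ := ((R ×ˢ R).filter fun q => q.2 ≠ q.1 ∧ Y q.1 ∧ Z q.2).exists_min_image
    (fun q => c q.1 + c q.2) (by
      obtain ⟨v, hv, y, hy, h⟩ := h
      exact ⟨(v, y), Finset.mem_filter.mpr ⟨Finset.mem_product.mpr ⟨hv, hy⟩, h⟩⟩)
  obtain ⟨h4, hne, hv, hy⟩ := Finset.mem_filter.mp h1
  obtain ⟨hvR, hyR⟩ := Finset.mem_product.mp h4
  dsimp only at hne hv hy hvR hyR h2
  have hy' : y ∈ R.erase v := Finset.mem_erase.mpr ⟨hne, hyR⟩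
  obtain ⟨w, hw, hmax⟩ := ((R.erase v).erase y).exists_max_image c (Finset.card_pos.mp (by
    have := Finset.card_pos.mpr ⟨y, hy'⟩
    rw [Finset.card_erase_of_mem hy']
    rw [Finset.card_erase_of_mem hvR] at this ⊢
    omega))
  obtain ⟨w1, w2⟩ := Finset.mem_erase.mp hw
  obtain ⟨w2, w3⟩ := Finset.mem_erase.mp w2
  refine ⟨R.erase w, w, ⟨?_, fun _ h => Finset.mem_of_mem_erase h, fun z hz => ?_,
    fun _ => ⟨Finset.notMem_erase w R, fun g hg hgw hd => ?_⟩⟩, v,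
    Finset.mem_erase.mpr ⟨w2.symm, hvR⟩, y, Finset.mem_erase.mpr ⟨w1.symm, hyR⟩, hne, hv, hy⟩
  · rw [Finset.card_erase_of_mem w3]
    omega
  · exact (em (z = w)).symm.imp_left fun e' => Finset.mem_erase.mpr ⟨e', hz⟩
  · have h5 := hc w g hgw hd
    by_cases e1 : g = v
    · have := h2 (w, y) (Finset.mem_filter.mpr ⟨Finset.mem_product.mpr ⟨w3, hyR⟩, w1.symm,
        hY w w3 g hg hd (e1 ▸ hv), hy⟩)
      rw [e1] at h5
      dsimp only at this
      omega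
    by_cases e2 : g = y
    · have := h2 (v, w) (Finset.mem_filter.mpr ⟨Finset.mem_product.mpr ⟨hvR, w3⟩, w2, hv,
        hZ w w3 g hg hd (e2 ▸ hy)⟩)
      rw [e2] at h5
      dsimp only at this
      omega
    · have := hmax g (Finset.mem_erase.mpr ⟨e2, Finset.mem_erase.mpr ⟨e1, hg⟩⟩)
      omega

theorem Prime.not_top (hP : Prime r) (h3 : ∀ x y : X, ∃ z, z ≠ x ∧ z ≠ y)
    (asymm : ∀ x y, r x y → ¬ r y x) (b : X) : ∃ y, y ≠ b ∧ ¬ r y b := by
  by_contra hcon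
  have key : ∀ y, y ≠ b → r y b := fun y hy => not_not.mp fun e => hcon ⟨y, hy, e⟩
  obtain ⟨x, hx, -⟩ := h3 b b
  obtain ⟨y, hy1, hy2⟩ := h3 b x
  refine hP {z | z ≠ b} (fun e => ?_) ⟨x, hx, y, hy1, hy2.symm⟩ fun z hz => ?_
  · exact (show b ∈ {z | z ≠ b} from e ▸ Set.mem_univ b) rfl
  · rw [show z = b from not_not.mp hz]
    exact ⟨fun ⟨a, ha, h⟩ => absurd h (asymm _ _ (key a ha)), fun _ => key⟩

theorem perpR_five [Finite X] (hP : Prime r) (trans : ∀ x y z, r x y → r y z → r x z)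
    (asymm : ∀ x y, r x y → ¬ r y x) {x s z t b p : X} (c1 : r x s) (c2 : r s z) (c3 : r z t)
    (c4 : r t b) (d1 : r p t) (d2 : ¬ r p z) (d0 : p ≠ z) (d3 : ∃ a, r a p)
    (cov : ∀ y, r z y → ¬ r y t) : PerpR r := by
  classical
  cases nonempty_fintype X
  have h3 := three_of_chain trans asymm c1 c2
  have irr : ∀ x, ¬ r x x := fun x hx => asymm _ _ hx hx
  have ne : ∀ x y, r x y → x ≠ y := fun x y h e => irr _ (e ▸ h)
  have c13 := trans _ _ _ c1 c2
  have c14 := trans _ _ _ c13 c3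
  have c15 := trans _ _ _ c14 c4
  have c24 := trans _ _ _ c2 c3
  have c35 := trans _ _ _ c3 c4
  have c25 := trans _ _ _ c2 c35
  have d4 := trans _ _ _ d1 c4
  let R : Finset X := Finset.univ.filter fun y => y ∉ [p, s, z, t, b, x]
  have hR : ∀ y, y ∈ R ↔ y ∉ [p, s, z, t, b, x] := fun y => by
    simp only [R, Finset.mem_filter, Finset.mem_univ, true_and]
  have hR' : ∀ y, y ∈ R ↔ y ≠ p ∧ y ≠ s ∧ y ≠ z ∧ y ≠ t ∧ y ≠ b ∧ y ≠ x := fun y => by
    simp only [hR, List.mem_cons, List.not_mem_nil, or_false, not_or, ne_eq]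
  have up : ∀ y, y ≠ b → ¬ r y b → y ∈ R := fun y h1 h2 => (hR' y).mpr
    ⟨fun e => h2 (e ▸ d4), fun e => h2 (e ▸ c25), fun e => h2 (e ▸ c35), fun e => h2 (e ▸ c4), h1,
      fun e => h2 (e ▸ c15)⟩
  have dn : ∀ y, y ≠ p → y ≠ x → ¬ r x y → y ∈ R := fun y h0 h1 h2 => (hR' y).mpr
    ⟨h0, fun e => h2 (e ▸ c1), fun e => h2 (e ▸ c13), fun e => h2 (e ▸ c14), fun e => h2 (e ▸ c15),
      h1⟩
  obtain ⟨a, ha⟩ := d3
  have dn' : ¬ r x p → a ∈ R ∧ ¬ r x a := fun h =>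
    ⟨dn a (ne _ _ ha) (fun e => h (e ▸ ha)) fun e => h (trans _ _ _ e ha),
      fun e => h (trans _ _ _ e ha)⟩
  obtain ⟨S, w, hS, v, hv, y, hy, hne, hY, hZ⟩ := hP.exists_sel h3 asymm R (a := x)
    (fun h => ((hR' x).mp h).2.2.2.2.2 rfl)
    (fun v => ¬ r v t ∧ ¬ (r z v ∧ r v b ∧ r p v)) (fun y => ¬ r z y ∧ ¬ (r x y ∧ r y z))
    (fun w hw e he hd hY => by
      obtain ⟨a1, -, a3, a4, a5, -⟩ := (hR' w).mp hw
      obtain ⟨b1, -, b3, b4, b5, -⟩ := (hR' e).mp he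
      exact ⟨fun h => hY.1 (((hd t a4.symm).1 h).resolve_left b4), fun h => hY.2
        ⟨((hd z a3.symm).2 h.1).resolve_left b3.symm, ((hd b a5.symm).1 h.2.1).resolve_left b5,
          ((hd p a1.symm).2 h.2.2).resolve_left b1.symm⟩⟩)
    (fun w hw e he hd hZ => by
      obtain ⟨-, -, a3, -, -, a6⟩ := (hR' w).mp hw
      obtain ⟨-, -, b3, -, -, b6⟩ := (hR' e).mp he
      exact ⟨fun h => hZ.1 (((hd z a3.symm).2 h).resolve_left b3.symm), fun h => hZ.2
        ⟨((hd x a6.symm).2 h.1).resolve_left b6.symm, ((hd z a3.symm).1 h.2).resolve_left b3⟩⟩)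
    (by
      obtain ⟨v, v1, v2⟩ := hP.not_top h3 asymm b
      obtain ⟨y, y1, y2⟩ : ∃ y ∈ R, ¬ r x y := by
        obtain ⟨y, y1, y2⟩ := hP.flip.not_top h3 (fun p q => asymm q p) x
        by_cases e : y = p
        · exact ⟨a, dn' (e ▸ y2)⟩
        · exact ⟨y, dn y e y1 y2, y2⟩
      have hv : ¬ r v t ∧ ¬ (r z v ∧ r v b ∧ r p v) :=
        ⟨fun e => v2 (trans _ _ _ e c4), fun e => v2 e.2.1⟩
      have hy : ¬ r z y ∧ ¬ (r x y ∧ r y z) :=
        ⟨fun e => y2 (trans _ _ _ c13 e), fun e => y2 e.1⟩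
      by_contra hcon
      have e0 : y = v := not_not.mp fun e => hcon ⟨v, up v v1 v2, y, y1, e, hv, hy⟩
      rw [e0] at y1 y2 hy
      have k1 : ∀ g, g ≠ v → g = b ∨ r g b := fun g hg => by
        by_contra h
        have h1 : ¬ r g b := fun e => h (Or.inr e)
        exact hcon ⟨g, up g (fun e => h (Or.inl e)) h1, v, y1, hg.symm,
          ⟨fun e => h1 (trans _ _ _ e c4), fun e => h1 e.2.1⟩, hy⟩
      have k2 : ∀ g ∈ R, g ≠ v → r x g := fun g hg hgv => by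
        by_contra h
        exact hcon ⟨v, y1, g, hg, hgv, hv, fun e => h (trans _ _ _ c13 e), fun e => h e.1⟩
      have k3 := hP.conn h3 {v} ⟨v, rfl⟩ (by
        rintro _ rfl g (h | h)
        · exact absurd ((k1 g (ne _ _ h).symm).elim (fun e => e ▸ h) (trans _ _ _ h)) v2
        · have h1 : ¬ r x g := fun e => y2 (trans _ _ _ e h)
          by_cases e : g = p
          · have h2 := dn' (e ▸ h1)
            exact absurd (k2 a h2.1 (ne _ _ (trans _ _ _ ha (e ▸ h)))) h2.2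
          · exact absurd (k2 g (dn g e (fun e' => y2 (e' ▸ h)) h1) (ne _ _ h)) h1)
      exact v1 (show b ∈ ({v} : Set X) from k3 ▸ Set.mem_univ b).symm)
  obtain ⟨τ, hτ, t1, t2, t3⟩ := exists_frame_sel (by
      simp only [List.nodup_cons, List.mem_cons, List.not_mem_nil, or_false, not_or,
        List.nodup_nil, not_false_eq_true, and_true]
      exact ⟨⟨fun e => d2 (e ▸ c2), d0, ne _ _ d1, ne _ _ d4, fun e => d2 (e ▸ c13)⟩,
        ⟨ne _ _ c2, ne _ _ c24, ne _ _ c25, (ne _ _ c1).symm⟩,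
        ⟨ne _ _ c3, ne _ _ c35, (ne _ _ c13).symm⟩, ⟨ne _ _ c4, (ne _ _ c14).symm⟩,
        (ne _ _ c15).symm⟩) hR hS hv
    (fun q => if r z q then 0 else if r x q ∧ r q z then 1 else 2)
  have hy' : y ∈ S.erase v := Finset.mem_erase.mpr ⟨hne, hy⟩
  have a1 := hτ.hv
  have a2 := hτ.odd
  have a3 := hτ.big
  refine hτ.five trans asymm c1 c2 c3 c4 d1 d2 ⟨a, ha⟩ hY.1 hY.2
    (fun q g q0 g0 q1 q2 q3 q4 => ?_) (fun q q1 q2 q3 => ?_) t3
  · have a4 := hτ.hi q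
    have hg : τ g ≠ 1 := fun e => hY.1 (hτ.inj _ _ (e.trans a1.symm) ▸ q4)
    rcases t1 q q0 with e | e | e | e
    · rw [e] at q1
      omega
    · rw [e] at q1
      omega
    · omega
    · rcases t1 g g0 with e' | e' | e' | e'
      · have := (t2 q e y hy' (by simp only [if_pos q3, if_neg hZ.1, if_neg hZ.2]; omega)).2
        rw [e'] at q2
        omega
      · exact hY.1 (e' ▸ q4)
      · omega
      · refine (t2 q e g e' ?_).1 ⟨q1, by omega⟩
        rw [if_pos q3, if_neg fun h => cov g h q4]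
        split_ifs <;> omega
  · rcases t1 q (by omega) with e | e | e | e
    · rw [e] at q1
      omega
    · rw [e] at q1
      omega
    · omega
    · refine (t2 q e y hy' ?_).2 q1
      rw [if_neg (asymm _ _ q3), if_pos ⟨q2, q3⟩, if_neg hZ.1, if_neg hZ.2]
      omega

end Pool.Agent.Lib.MP_04ca4f_co
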