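import Pool.Agent.Lib.MP_04ca4f_co.Three

/-!
# Height three: existence of the path, the exceptional order, the final statement
-/

set_option autoImplicit false

namespace Pool.Agent.Lib.MP_04ca4f_co

open Three

variable {X : Type*} {r : X → X → Prop}

/-- A strict order on at least three points without four element chain and without nontrivial
autonomous set. -/
structure Base (r : X → X → Prop) : Prop where
  irrefl : ∀ x, ¬ r x x
  trans : ∀ x y z, r x y → r y z → r x z
  no4 : ∀ x y z w, r x y → r y z → r z w → False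
  prime : Prime r
  three : ∀ x y : X, ∃ z, z ≠ x ∧ z ≠ y

/-- Some minimal point not below m has a common upper bound with m. -/
def UpGood (r : X → X → Prop) (m : X) : Prop := ∃ a b, Lo r a ∧ ¬ r a m ∧ r a b ∧ r m b

namespace Base

theorem dual (B : Base r) : Base fun x y => r y x where
  irrefl := B.irrefl
  trans := fun x y z h1 h2 => B.trans z y x h2 h1
  no4 := fun x y z w h1 h2 h3 => B.no4 w z y x h3 h2 h1
  prime := B.prime.flip
  three := B.three

theorem conn (B : Base r) : Conn r := B.prime.conn B.three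

theorem lo_of_mid (B : Base r) {x m : X} (hm : Mid r m) (h : r x m) : Lo r x :=
  fun _ hy => hm.2.elim fun _ hz => B.no4 _ _ _ _ hy h hz

theorem hi_of_mid (B : Base r) {x m : X} (hm : Mid r m) (h : r m x) : Hi r x :=
  fun _ hy => hm.1.elim fun _ hz => B.no4 _ _ _ _ hz h hy

theorem mid_anti (B : Base r) {x y : X} (hx : Mid r x) (hy : Mid r y) : ¬ r x y :=
  fun h => mid_not_lo hx (B.lo_of_mid hy h)

theorem lo_not_hi (B : Base r) {x : X} (h1 : Lo r x) : ¬ Hi r x := by
  intro h2
  obtain ⟨y, hy, -⟩ := B.three x x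
  have := B.conn {x} ⟨x, rfl⟩ fun u hu v huv => by
    rw [show u = x from hu] at huv
    exact huv.elim (fun h => absurd h (h2 v)) fun h => absurd h (h1 v)
  exact hy (show y ∈ ({x} : Set X) from this ▸ Set.mem_univ y)

theorem exists_up (B : Base r) {m : X} (hm : Mid r m) : ∃ p, Mid r p ∧ UpGood r p := by
  by_contra hcon
  have key : ∀ u v, r u v → ¬ Lo r u → ∀ a, Lo r a → (r a u ↔ r a v) := fun u v h hu a ha =>
    ⟨fun h1 => B.trans _ _ _ h1 h, fun h1 => by
      by_contra h2
      exact hcon ⟨u, mid_of hu (not_hi h), a, v, ha, h2, h1, h⟩⟩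
  obtain ⟨a, ha⟩ := hm.1
  obtain ⟨b, hb⟩ := hm.2
  refine B.prime {z | ¬ Lo r z ∧ ∀ a, Lo r a → (r a z ↔ r a m)} (fun h => ?_)
    ⟨m, ⟨mid_not_lo hm, fun _ _ => Iff.rfl⟩, b,
      ⟨not_lo hb, fun a' ha' => (key m b hb (mid_not_lo hm) a' ha').symm⟩,
      fun h => B.irrefl b (h ▸ hb)⟩ fun z hz => ⟨?_, ?_⟩
  · exact (show a ∈ {z | ¬ Lo r z ∧ ∀ a, Lo r a → (r a z ↔ r a m)} from
      h ▸ Set.mem_univ a).1 (B.lo_of_mid hm ha)
  · rintro ⟨c, hc, h⟩ c' hc'
    by_cases h1 : Lo r z
    · exact (hc'.2 z h1).mpr ((hc.2 z h1).mp h)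
    · exact absurd ⟨h1, fun a' ha' => (key z c h h1 a' ha').trans (hc.2 a' ha')⟩ hz
  · rintro ⟨c, hc, h⟩
    exact absurd ⟨not_lo h, fun a' ha' => (key c z h hc.1 a' ha').symm.trans (hc.2 a' ha')⟩ hz

/-- A middle point that is good on neither side is comparable to all extremal points. -/
theorem full (B : Base r) {m : X} (hm : Mid r m) (h1 : ¬ UpGood r m)
    (h2 : ¬ UpGood (fun x y => r y x) m) (z : X) : (Lo r z → r z m) ∧ (Hi r z → r m z) := by
  have k1 : ∀ a b, Lo r a → r a b → r m b → r a m := fun a b ha h h' => by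
    by_contra h3
    exact h1 ⟨a, b, ha, h3, h, h'⟩
  have k2 : ∀ a b, Hi r b → r a b → r a m → r m b := fun a b hb h h' => by
    by_contra h3
    exact h2 ⟨b, a, hb, h3, h, h'⟩
  have := B.conn {z | (Lo r z → r z m) ∧ (Hi r z → r m z) ∧ (Mid r z → ∃ a, r a z ∧ r a m)}
    ⟨m, fun h => absurd h (mid_not_lo hm), fun h => absurd h (mid_not_hi hm),
      fun h => h.1.imp fun _ h' => ⟨h', h'⟩⟩ (by
      rintro x ⟨a1, a2, a3⟩ y (h | h)
      · obtain ⟨a, b1, b2⟩ : ∃ a, r a y ∧ r a m := by
          by_cases h3 : Lo r x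
          · exact ⟨x, h, a1 h3⟩
          · obtain ⟨a, b1, b2⟩ := a3 (mid_of h3 (not_hi h))
            exact ⟨a, B.trans _ _ _ b1 h, b2⟩
        exact ⟨fun h3 => absurd h (h3 x), fun h3 => k2 a y h3 b1 b2, fun _ => ⟨a, b1, b2⟩⟩
      · obtain ⟨b, b1, b2⟩ : ∃ b, r y b ∧ r m b := by
          by_cases h3 : Hi r x
          · exact ⟨x, h, a2 h3⟩
          · have h4 := mid_of (not_lo h) h3
            obtain ⟨a, b1, b2⟩ := a3 h4
            obtain ⟨b, hb⟩ := h4.2
            exact ⟨b, B.trans _ _ _ h hb, k2 a b (B.hi_of_mid h4 hb) (B.trans _ _ _ b1 hb) b2⟩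
        refine ⟨fun h3 => k1 y b h3 b1 b2, fun h3 => absurd h (h3 x), fun h3 => ?_⟩
        obtain ⟨a, ha⟩ := h3.1
        exact ⟨a, ha, k1 a b (B.lo_of_mid h3 ha) (B.trans _ _ _ ha b1) b2⟩)
  have h3 : z ∈ {z | (Lo r z → r z m) ∧ (Hi r z → r m z) ∧ (Mid r z → ∃ a, r a z ∧ r a m)} :=
    this ▸ Set.mem_univ z
  exact ⟨h3.1, h3.2.1⟩

end Base

open Classical in
theorem half_of_key {t : X → ℤ} {e : X → ℕ} {p q : X} (key : X → ℕ)
    (hkey : ∀ x, Lo r x → key x = 2 * (if r x p then 1 else 0) + if r x q then 1 else 0)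
    (hp : Mid r p) (hq : Mid r q) (hup : UpGood r p)
    (h1 : ∀ x y, Lo r x → Lo r y → key y < key x → e y < e x)
    (h2 : ∀ x y, Lo r x → Lo r y → key x = key y → e y < e x →
      ∃ z, Wit r x y z ∧ ∀ z', e z' < e z → Same r x y z')
    (hM : ∀ m z, Mid r m → ¬ Mid r z → e m < e z)
    (low : ∀ x, Lo r x → t x < t p) (le : ∀ x, ¬ Lo r x → t p ≤ t x)
    (te : ∀ x y, Lo r x → Lo r y → (t x < t y ↔ e y < e x)) : Half r t e p q := by
  have hk : ∀ x y, Lo r x → Lo r y → e y < e x → key y ≤ key x := fun x y hx hy h => by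
    by_contra h'
    have := h1 y x hy hx (by omega)
    omega
  refine ⟨hp, low, le, te, fun x y hx hy h h' => ?_, fun x y hx hy h h' h'' => ?_,
    fun x y hx hy h => ?_, hup⟩
  · have a1 := hk x y hx hy h
    rw [hkey x hx, hkey y hy, if_pos h'] at a1
    by_contra a2
    rw [if_neg a2] at a1
    split_ifs at a1 <;> omega
  · have a1 := hk x y hx hy h
    rw [hkey x hx, hkey y hy, if_pos h'', if_congr h' rfl rfl] at a1
    by_contra a2
    rw [if_neg a2] at a1
    omega
  · rcases (hk x y hx hy h).eq_or_lt with a1 | a1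
    · obtain ⟨z, a2, a3⟩ := h2 x y hx hy a1.symm h
      have a4 := a2.resolve_right fun a5 => hx z a5.1
      refine ⟨z, a4.1, a4.2, or_iff_not_imp_left.mpr fun a5 =>
        ⟨fun m hm => (a3 m (hM m z hm a5)).1.mpr, fun z' hz' => (a3 z' hz').1⟩⟩
    · rw [hkey x hx, hkey y hy] at a1
      by_cases a2 : r x p ∧ ¬ r y p
      · exact ⟨p, a2.1, a2.2, Or.inl hp⟩
      · refine ⟨q, ?_, ?_, Or.inl hq⟩
        · by_contra a3
          split_ifs at a1 <;> first | omega | tauto
        · intro a3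
          split_ifs at a1 <;> first | omega | tauto

theorem Base.exists_three [Finite X] (B : Base r) {p q : X} (hp : Mid r p) (hq : Mid r q)
    (hup : UpGood r p) (hdn : UpGood (fun x y => r y x) q) (hpq : p = q → ∀ m, Mid r m → m = p) :
    ∃ t e, Three r t e p q := by
  classical
  cases nonempty_fintype X
  obtain ⟨N, e1, e1inj, e1lt⟩ : ∃ (N : ℕ) (e1 : X → ℕ), (∀ x y, e1 x = e1 y → x = y) ∧
      ∀ x, e1 x < N := ⟨Fintype.card X, fun x => Fintype.equivFin X x,
    fun x y h => (Fintype.equivFin X).injective (Fin.ext h), fun x => (Fintype.equivFin X x).2⟩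
  let β : X → ℕ := fun x => if Lo r x then 0 else if Hi r x then 1 else 2 + e1 x
  have hβ : ∀ x y, β x = β y → (Lo r x ∧ Lo r y) ∨ (Hi r x ∧ Hi r y) ∨ x = y := by
    intro x y h
    simp only [β] at h
    split_ifs at h <;> first | omega | tauto | exact Or.inr (Or.inr (e1inj x y (by omega)))
  have hβL : ∀ x y, Lo r x → Lo r y → β x = β y := fun x y hx hy => by
    simp only [β, hx, hy, if_true]
  have hβH : ∀ x y, Hi r x → Hi r y → β x = β y := fun x y hx hy => by
    simp only [β, hx, hy, if_true, if_neg fun h => B.lo_not_hi h hx,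
      if_neg fun h => B.lo_not_hi h hy]
  let key : X → ℕ := fun x =>
    if Lo r x then 2 * (if r x p then 1 else 0) + if r x q then 1 else 0
    else 2 * (if r q x then 1 else 0) + if r p x then 1 else 0
  let e0 : X → ℕ := fun x => if Mid r x then e1 x else N + e1 x
  have he0 : ∀ x y, e0 x = e0 y → x = y := by
    intro x y h
    have a1 := e1lt x
    have a2 := e1lt y
    simp only [e0] at h
    split_ifs at h <;> first | omega | exact e1inj x y (by omega)
  obtain ⟨σ, s1, s2, s3⟩ := exists_orderLex (r := r) β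
    (fun x y h h' => B.irrefl x (B.trans _ _ _ h h'))
    (fun x y h h' => by
      rcases hβ x y h' with h1 | h1 | rfl
      exacts [h1.2 x h, h1.1 y h, B.irrefl x h])
    (fun x y _ h => B.prime.not_twin B.three fun z _ _ => h z) key e0 he0
  have hσ : ∀ x, Mid r (σ x) ↔ Mid r x := fun x => by
    rcases hβ _ _ (s1 x) with h1 | h1 | h1
    · exact iff_of_false (fun h => mid_not_lo h h1.1) fun h => mid_not_lo h h1.2
    · exact iff_of_false (fun h => mid_not_hi h h1.1) fun h => mid_not_hi h h1.2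
    · rw [h1]
  have hM : ∀ m z, Mid r m → ¬ Mid r z → e0 (σ m) < e0 (σ z) := fun m z hm hz => by
    have a1 := e1lt (σ m)
    simp only [e0, hσ, hm, hz, if_true, if_false]
    omega
  have einj : ∀ x y, e0 (σ x) = e0 (σ y) → x = y := fun x y h => σ.injective (he0 _ _ h)
  obtain ⟨ρ, ρL, ρH, ρp, ρq, ρM⟩ : ∃ ρ : X → ℤ, (∀ x, Lo r x → ρ x = -1 - e0 (σ x)) ∧
      (∀ x, Hi r x → ρ x = N + 2 + e0 (σ x)) ∧ ρ p = 0 ∧ (p ≠ q → ρ q = N + 1) ∧
      ∀ x, Mid r x → x ≠ p → x ≠ q → ρ x = 1 + e1 x := by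
    refine ⟨fun x => if Lo r x then -1 - e0 (σ x) else if Hi r x then N + 2 + e0 (σ x)
      else if x = p then 0 else if x = q then N + 1 else 1 + e1 x, fun x h => if_pos h,
      fun x h => ?_, ?_, fun h => ?_, fun x h h1 h2 => ?_⟩
    · simp only [if_neg fun h' => B.lo_not_hi h' h, if_pos h]
    · simp only [if_neg (mid_not_lo hp), if_neg (mid_not_hi hp), if_true]
    · simp only [if_neg (mid_not_lo hq), if_neg (mid_not_hi hq), if_neg h.symm, if_true]
    · simp only [if_neg (mid_not_lo h), if_neg (mid_not_hi h), if_neg h1, if_neg h2]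
  have ρmid : ∀ x, Mid r x → 0 ≤ ρ x ∧ ρ x ≤ ρ q ∧ ρ x ≤ N + 1 := fun x hx => by
    by_cases h : p = q
    · rw [hpq h x hx, ← h, ρp]
      omega
    · have a1 := ρq h
      by_cases h1 : x = p
      · rw [h1]
        omega
      · by_cases h2 : x = q
        · rw [h2]
          omega
        · have a2 := ρM x hx h1 h2
          have a3 := e1lt x
          omega
  have tri : ∀ x, Lo r x ∨ Hi r x ∨ Mid r x := fun x => by
    by_contra h
    push Not at h
    exact h.2.2 (mid_of h.1 h.2.1)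
  obtain ⟨t, ht, htρ⟩ := exists_path ρ (by
    intro x y h
    rcases tri x with hx | hx | hx <;> rcases tri y with hy | hy | hy
    · exact einj x y (by have := ρL x hx; have := ρL y hy; omega)
    · have := ρL x hx; have := ρH y hy; omega
    · have := ρL x hx; have := ρmid y hy; omega
    · have := ρH x hx; have := ρL y hy; omega
    · exact einj x y (by have := ρH x hx; have := ρH y hy; omega)
    · have := ρH x hx; have := ρmid y hy; omega
    · have := ρmid x hx; have := ρL y hy; omega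
    · have := ρmid x hx; have := ρH y hy; omega
    · have half : ∀ x y, Mid r x → Mid r y → ρ x = ρ y → x = p ∨ x = q → x = y := by
        intro x y hx hy h h1
        by_cases a0 : p = q
        · rw [hpq a0 x hx, hpq a0 y hy]
        have a1 := ρq a0
        by_contra a2
        by_cases a3 : y = p ∨ y = q
        · rcases h1 with rfl | rfl <;> rcases a3 with rfl | rfl <;>
            first | exact a2 rfl | omega
        · rw [not_or] at a3
          have a4 := ρM y hy a3.1 a3.2
          have a5 := e1lt y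
          rcases h1 with rfl | rfl <;> omega
      by_cases a1 : x = p ∨ x = q
      · exact half x y hx hy h a1
      · by_cases a2 : y = p ∨ y = q
        · exact (half y x hy hx h.symm a2).symm
        · rw [not_or] at a1 a2
          exact e1inj x y (by have := ρM x hx a1.1 a1.2; have := ρM y hy a2.1 a2.2; omega))
  have hq0 := ρmid q hq
  refine ⟨t, fun x => e0 (σ x), B.irrefl, B.trans, B.no4, B.prime, B.conn, ht, einj,
    half_of_key key (fun x hx => if_pos hx) hp hq hup
      (fun x y hx hy => s2 x y (hβL x y hx hy)) (fun x y hx hy => s3 x y (hβL x y hx hy)) hM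
      (fun x hx => ?_) (fun x hx => ?_) (fun x y hx hy => ?_),
    half_of_key (r := fun x y => r y x) key (fun x hx => if_neg fun h => B.lo_not_hi h hx)
      hq.symm hp.symm hdn (fun x y hx hy => s2 x y (hβH x y hx hy))
      (fun x y hx hy h1 h2 => (s3 x y (hβH x y hx hy) h1 h2).imp fun z hz =>
        ⟨hz.1.symm, fun z' hz' => (hz.2 z' hz').symm⟩)
      (fun m z hm hz => hM m z hm.symm fun h => hz h.symm)
      (fun x hx => ?_) (fun x hx => ?_) (fun x y hx hy => ?_)⟩
  · rw [htρ, ρL x hx]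
    omega
  · rw [← not_lt, htρ]
    rcases (tri x).resolve_left hx with h | h
    · have := ρH x h
      omega
    · have := ρmid x h
      omega
  · rw [htρ, ρL x hx, ρL y hy]
    omega
  · rw [neg_lt_neg_iff, htρ, ρH x hx]
    omega
  · rw [neg_le_neg_iff, ← not_lt, htρ]
    rcases tri x with h | h | h
    · have := ρL x h
      omega
    · exact absurd h hx
    · have := ρmid x h
      omega
  · rw [neg_lt_neg_iff, htρ, ρH x hx, ρH y hy]
    omega

/-- An order of height two given by its strict part. -/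
@[reducible] def flatOrder (q : X → X → Prop) (hq : ∀ a b c, q a b → ¬ q b c) : PartialOrder X where
  le x y := x = y ∨ q x y
  le_refl _ := Or.inl rfl
  le_trans := by
    rintro x y z (rfl | h1) h2
    · exact h2
    · rcases h2 with rfl | h2
      · exact Or.inr h1
      · exact absurd h2 (hq _ _ _ h1)
  le_antisymm := by
    rintro x y (rfl | h1) h2
    · rfl
    · rcases h2 with rfl | h2
      · rfl
      · exact absurd h2 (hq _ _ _ h1)

/-- Transport of a perpendicular of height two along a bijection. -/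
theorem perp_of_equiv {Y : Type*} (P : PartialOrder X) (φ : Y ≃ X) (r0 q0 : Y → Y → Prop)
    (hr : ∀ i j, P.lt (φ i) (φ j) ↔ r0 i j) (hq : ∀ a b c, q0 a b → ¬ q0 b c)
    (h : ∀ F : Y → Y, Mono r0 F → Mono q0 F → F = id ∨ ∃ c, ∀ y, F y = c) :
    ∃ Q : PartialOrder X, ∀ f : X → X, (∀ x y, P.le x y → P.le (f x) (f y)) →
      (∀ x y, Q.le x y → Q.le (f x) (f y)) → f = id ∨ ∃ c, ∀ x, f x = c := by
  refine ⟨flatOrder (fun x y => q0 (φ.symm x) (φ.symm y)) fun _ _ _ => hq _ _ _, fun f hP hQ => ?_⟩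
  have k1 : Mono r0 fun y => φ.symm (f (φ y)) := fun i j hij => by
    rcases mono_of_le P hP _ _ ((hr i j).mpr hij) with h1 | h1
    · exact Or.inl (by simp only [h1])
    · exact Or.inr ((hr _ _).mp (by simpa using h1))
  have k2 : Mono q0 fun y => φ.symm (f (φ y)) := fun i j hij => by
    rcases hQ (φ i) (φ j) (Or.inr (by simpa using hij)) with h1 | h1
    · exact Or.inl (by simp only [h1])
    · exact Or.inr h1
  rcases h _ k1 k2 with h1 | ⟨c, h1⟩
  · refine Or.inl (funext fun x => ?_)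
    have := congrArg φ (congrFun h1 (φ.symm x))
    simpa using this
  · refine Or.inr ⟨φ c, fun x => ?_⟩
    have := congrArg φ (h1 (φ.symm x))
    simpa using this

/-- The exceptional order on six points. -/
def six (i j : Fin 6) : Prop := (i, j) ∈ [((0 : Fin 6), (2 : Fin 6)), (0, 3), (1, 3), (2, 4), (3, 4),
  (3, 5), (0, 4), (0, 5), (1, 4), (1, 5)]

/-- Its conjugate. -/
def six' (i j : Fin 6) : Prop := (i, j) ∈ [((1 : Fin 6), (0 : Fin 6)), (1, 2), (3, 2), (5, 2), (5, 4)]

instance : DecidableRel six := fun _ _ => by unfold six; infer_instance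

instance : DecidableRel six' := fun _ _ => by unfold six'; infer_instance

/-- The reflexive closure as a Boolean test. -/
def le6 (i j : Fin 6) : Bool := decide (i = j ∨ six i j)

/-- The reflexive closure of the conjugate as a Boolean test. -/
def le6' (i j : Fin 6) : Bool := decide (i = j ∨ six' i j)

theorem six_key : ∀ y0 y1 : Fin 6, le6' y1 y0 → ∀ y2, (le6 y0 y2 && le6' y1 y2) →
    ∀ y3, (le6 y0 y3 && le6 y1 y3 && le6' y3 y2) → ∀ y4, (le6 y2 y4 && le6 y3 y4) →
    ∀ y5, (le6 y3 y5 && le6' y5 y2 && le6' y5 y4) →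
    [y0, y1, y2, y3, y4, y5] = [0, 1, 2, 3, 4, 5] ∨ [y1, y2, y3, y4, y5] = [y0, y0, y0, y0, y0] := by
  decide

theorem six_perp (F : Fin 6 → Fin 6) (h1 : Mono six F) (h2 : Mono six' F) :
    F = id ∨ ∃ c, ∀ y, F y = c := by
  have k1 : ∀ i j, six i j → le6 (F i) (F j) = true := fun i j h => decide_eq_true (h1 i j h)
  have k2 : ∀ i j, six' i j → le6' (F i) (F j) = true := fun i j h => decide_eq_true (h2 i j h)
  rcases six_key (F 0) (F 1) (k2 1 0 (by decide)) (F 2)
    (by rw [k1 0 2 (by decide), k2 1 2 (by decide)]; rfl) (F 3)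
    (by rw [k1 0 3 (by decide), k1 1 3 (by decide), k2 3 2 (by decide)]; rfl) (F 4)
    (by rw [k1 2 4 (by decide), k1 3 4 (by decide)]; rfl) (F 5)
    (by rw [k1 3 5 (by decide), k2 5 2 (by decide), k2 5 4 (by decide)]; rfl) with h | h
  · simp only [List.cons.injEq, and_true] at h
    obtain ⟨a0, a1, a2, a3, a4, a5⟩ := h
    refine Or.inl (funext fun y => ?_)
    fin_cases y <;> assumption
  · simp only [List.cons.injEq, and_true] at h
    obtain ⟨a1, a2, a3, a4, a5⟩ := h
    refine Or.inr ⟨F 0, fun y => ?_⟩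
    fin_cases y <;> first | rfl | assumption

theorem Base.exceptional (B : Base r) {m m' : X} (hm : Mid r m) (hm' : Mid r m') (hne : m' ≠ m)
    (hup : UpGood r m) (hdn : UpGood (fun x y => r y x) m)
    (hall : ∀ u, Mid r u → u ≠ m → ¬ UpGood r u ∧ ¬ UpGood (fun x y => r y x) u) :
    ∃ φ : Fin 6 ≃ X, ∀ i j, r (φ i) (φ j) ↔ six i j := by
  have tri : ∀ x, Lo r x ∨ Hi r x ∨ Mid r x := fun x => by
    by_contra h
    push Not at h
    exact h.2.2 (mid_of h.1 h.2.1)
  have hf : ∀ u, Mid r u → u ≠ m → ∀ z, (Lo r z → r z u) ∧ (Hi r z → r u z) := fun u hu h =>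
    B.full hu (hall u hu h).1 (hall u hu h).2
  have hf' := hf m' hm' hne
  have hmid : ∀ u, Mid r u → u = m ∨ u = m' := fun u hu => or_iff_not_imp_left.mpr fun h =>
    B.prime.not_twin B.three fun z _ _ => by
      rcases tri z with hz | hz | hz
      · exact ⟨iff_of_false (hz u) (hz m'), iff_of_true ((hf u hu h z).1 hz) ((hf' z).1 hz)⟩
      · exact ⟨iff_of_true ((hf u hu h z).2 hz) ((hf' z).2 hz), iff_of_false (hz u) (hz m')⟩
      · exact ⟨iff_of_false (B.mid_anti hu hz) (B.mid_anti hm' hz),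
          iff_of_false (B.mid_anti hz hu) (B.mid_anti hz hm')⟩
  have hLH : ∀ a b, Lo r a → Hi r b → r a b := fun a b ha hb =>
    B.trans _ _ _ ((hf' a).1 ha) ((hf' b).2 hb)
  have hrow : ∀ x y, Lo r x → Lo r y → (r x m ↔ r y m) → x = y := fun x y hx hy h =>
    B.prime.not_twin B.three fun z _ _ => ⟨by
      rcases tri z with hz | hz | hz
      · exact iff_of_false (hz x) (hz y)
      · exact iff_of_true (hLH x z hx hz) (hLH y z hy hz)
      · rcases hmid z hz with rfl | rfl
        · exact h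
        · exact iff_of_true ((hf' x).1 hx) ((hf' y).1 hy), iff_of_false (hx z) (hy z)⟩
  have hcol : ∀ x y, Hi r x → Hi r y → (r m x ↔ r m y) → x = y := fun x y hx hy h =>
    B.prime.not_twin B.three fun z _ _ => ⟨iff_of_false (hx z) (hy z), by
      rcases tri z with hz | hz | hz
      · exact iff_of_true (hLH z x hz hx) (hLH z y hz hy)
      · exact iff_of_false (hz x) (hz y)
      · rcases hmid z hz with rfl | rfl
        · exact h
        · exact iff_of_true ((hf' x).2 hx) ((hf' y).2 hy)⟩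
  obtain ⟨a1, ha1⟩ := hm.1
  obtain ⟨b1, hb1⟩ := hm.2
  obtain ⟨a2, -, la2, ha2, -⟩ := hup
  obtain ⟨b2, -, lb2, hb2, -⟩ := hdn
  have la1 := B.lo_of_mid hm ha1
  have lb1 := B.hi_of_mid hm hb1
  replace lb2 : Hi r b2 := lb2
  have c1 := (hf' a1).1 la1
  have c2 := (hf' a2).1 la2
  have c3 := (hf' b1).2 lb1
  have c4 := (hf' b2).2 lb2
  have c5 := hLH a1 b1 la1 lb1
  have c6 := hLH a1 b2 la1 lb2
  have c7 := hLH a2 b1 la2 lb1
  have c8 := hLH a2 b2 la2 lb2
  have c9 := B.mid_anti hm hm'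
  have c10 := B.mid_anti hm' hm
  have c11 := B.irrefl m
  have c12 := B.irrefl m'
  have key : ∀ i j, r (![a1, a2, m, m', b1, b2] i) (![a1, a2, m, m', b1, b2] j) ↔ six i j := by
    intro i j
    fin_cases i <;> fin_cases j <;>
      first
        | exact iff_of_true (by assumption) (by decide)
        | exact iff_of_false (by assumption) (by decide)
        | exact iff_of_false (la1 _) (by decide)
        | exact iff_of_false (la2 _) (by decide)
        | exact iff_of_false (lb1 _) (by decide)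
        | exact iff_of_false (lb2 _) (by decide)
  refine ⟨Equiv.ofBijective ![a1, a2, m, m', b1, b2] ⟨fun i j h => ?_, fun x => ?_⟩, key⟩
  · have h1 : ∀ k, (six i k ↔ six j k) ∧ (six k i ↔ six k j) := fun k => by
      simp only [← key, h, and_self]
    revert i j
    suffices ∀ i j : Fin 6, (∀ k, (six i k ↔ six j k) ∧ (six k i ↔ six k j)) → i = j from
      fun i j _ h => this i j h
    decide
  · rcases tri x with hx | hx | hx
    · by_cases h : r x m
      · exact ⟨0, hrow a1 x la1 hx (iff_of_true ha1 h)⟩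
      · exact ⟨1, hrow a2 x la2 hx (iff_of_false ha2 h)⟩
    · by_cases h : r m x
      · exact ⟨4, hcol b1 x lb1 hx (iff_of_true hb1 h)⟩
      · exact ⟨5, hcol b2 x lb2 hx (iff_of_false hb2 h)⟩
    · rcases hmid x hx with rfl | rfl
      · exact ⟨2, rfl⟩
      · exact ⟨3, rfl⟩

theorem height_three [Finite X] (P : PartialOrder X)
    (hprime : ¬ ∃ A : Set X, A ≠ Set.univ ∧ A.Nontrivial ∧ ∀ x ∉ A,
      ((∃ a ∈ A, P.lt x a) → ∀ a ∈ A, P.lt x a) ∧ ((∃ a ∈ A, P.lt a x) → ∀ a ∈ A, P.lt a x))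
    (h4 : ¬ ∃ x y z w, P.lt x y ∧ P.lt y z ∧ P.lt z w) :
    ∃ Q : PartialOrder X, ∀ f : X → X, (∀ x y, P.le x y → P.le (f x) (f y)) →
      (∀ x y, Q.le x y → Q.le (f x) (f y)) → f = id ∨ ∃ c, ∀ x, f x = c := by
  by_cases h2 : ∃ x y z, P.lt x y ∧ P.lt y z
  swap
  · exact height_two P hprime h2
  obtain ⟨a, m, b, ham, hmb⟩ := h2
  have hP : Prime P.lt := fun D h1 h2 h3 => hprime ⟨D, h1, h2, h3⟩
  have B : Base P.lt := ⟨fun x => lt_irrefl x, fun _ _ _ => lt_trans,
    fun x y z w h1 h2 h3 => h4 ⟨x, y, z, w, h1, h2, h3⟩, hP, fun x y => by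
      by_contra h
      push Not at h
      have h1 := h a
      have h2 := h m
      have h3 := h b
      have h4 := ham.ne
      have h5 := hmb.ne
      have h6 := (ham.trans hmb).ne
      by_cases a1 : a = x <;> by_cases a2 : m = x <;> by_cases a3 : b = x <;> grind⟩
  have hm : Mid P.lt m := ⟨⟨a, ham⟩, b, hmb⟩
  by_cases hc : ∃ p q, Mid P.lt p ∧ Mid P.lt q ∧ UpGood P.lt p ∧
      UpGood (fun x y => P.lt y x) q ∧ (p = q → ∀ m, Mid P.lt m → m = p)
  · obtain ⟨p, q, h1, h2, h3, h5, h6⟩ := hc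
    obtain ⟨t, e, T⟩ := B.exists_three h1 h2 h3 h5 h6
    exact perp_of_good P T.path fun f hf => T.trivial hf
  · obtain ⟨p, h1, h2⟩ := B.exists_up hm
    obtain ⟨q, h3, h5⟩ := B.dual.exists_up hm.symm
    have hk : ∀ p q, Mid P.lt p → Mid P.lt q → UpGood P.lt p → UpGood (fun x y => P.lt y x) q →
        p = q ∧ ∃ m, Mid P.lt m ∧ m ≠ p := fun p q a1 a2 a3 a4 => by
      by_contra h
      refine hc ⟨p, q, a1, a2, a3, a4, fun a5 m hm => ?_⟩
      by_contra a6
      exact h ⟨a5, m, hm, a6⟩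
    obtain ⟨rfl, m', h6, h7⟩ := hk p q h1 h3.symm h2 h5
    obtain ⟨φ, hφ⟩ := B.exceptional h1 h6 h7 h2 h5 fun u hu hne =>
      ⟨fun h => hne (hk u p hu h1 h h5).1, fun h => hne (hk p u h1 hu h2 h).1.symm⟩
    exact perp_of_equiv P φ six six' hφ (by decide) six_perp

end Pool.Agent.Lib.MP_04ca4f_co
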