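import Pool.Agent.Lib.MP_04ca4f_co.PureShared
import Pool.Agent.Lib.MP_04ca4f_co.MarkFive
import Pool.Agent.Lib.MP_04ca4f_co.ThreeEx

/-!
# Classification of the finite case
-/

set_option autoImplicit false

namespace Pool.Agent.Lib.MP_04ca4f_co

variable {X : Type*} {r : X → X → Prop}

/-- Neither minimal nor maximal. -/
def Middle (r : X → X → Prop) (x : X) : Prop := (∃ a, r a x) ∧ ∃ b, r x b

theorem Middle.flip {x : X} (h : Middle r x) : Middle (fun x y => r y x) x := ⟨h.2, h.1⟩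

/-- The point z is the centre of a chain of five points, there is no chain of six points, every
non-minimal point below a middle point above z is at most z, dually, and there are no two
chains as in the two chain lemma. -/
structure Centre (r : X → X → Prop) (z : X) : Prop where
  five : ∃ a s t b, r a s ∧ r s z ∧ r z t ∧ r t b
  six : ∀ x₁ x₂ x₃ x₄ x₅ x₆, r x₁ x₂ → r x₂ x₃ → r x₃ x₄ → r x₄ x₅ → ¬ r x₅ x₆
  up : ∀ q p t b, r q p → r p t → r z t → r t b → p = z ∨ r p z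
  dn : ∀ q p s a, r p q → r s p → r s z → r a s → p = z ∨ r z p
  two : ∀ a s t b x s' t' y, ¬ TwoCh r a s t b x s' t' y

theorem Centre.flip {z : X} (h : Centre r z) : Centre (fun x y => r y x) z := by
  obtain ⟨a, s, t, b, h1, h2, h3, h4⟩ := h.five
  exact ⟨⟨b, t, s, a, h4, h3, h2, h1⟩, fun _ _ _ _ _ _ a b c d e => h.six _ _ _ _ _ _ e d c b a,
    h.dn, h.up, fun _ _ _ _ _ _ _ _ a => h.two _ _ _ _ _ _ _ _ a.flip⟩

/-- The finite case from the remaining classes. -/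
theorem perpR_of_classes [Finite X] (hP : Prime r) (trans : ∀ x y z, r x y → r y z → r x z)
    (asymm : ∀ x y, r x y → ¬ r y x)
    (h3 : (∀ x₁ x₂ x₃ x₄, r x₁ x₂ → r x₂ x₃ → ¬ r x₃ x₄) → PerpR r)
    (hZ : (∀ x₁ x₂ x₃ x₄ x₅, r x₁ x₂ → r x₂ x₃ → r x₃ x₄ → ¬ r x₄ x₅) →
      ∀ s t, Middle r s → Middle r t → r s t →
        (∀ x y, Middle r x → Middle r y → r x y → x = s) → PerpR r)
    (hZ' : (∀ x₁ x₂ x₃ x₄ x₅, r x₁ x₂ → r x₂ x₃ → r x₃ x₄ → ¬ r x₄ x₅) →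
      ∀ s t, Middle r s → Middle r t → r s t →
        (∀ x y, Middle r x → Middle r y → r x y → y = t) → PerpR r)
    (hC : ∀ z, Centre r z → PerpR r) : PerpR r := by
  by_cases c6 : ∀ x₁ x₂ x₃ x₄ x₅ x₆, r x₁ x₂ → r x₂ x₃ → r x₃ x₄ → r x₄ x₅ → ¬ r x₅ x₆
  swap
  · push Not at c6
    obtain ⟨_, _, _, _, _, _, a, b, c, d, e⟩ := c6
    exact perpR_six hP trans asymm a b c d e
  by_cases c5 : ∀ x₁ x₂ x₃ x₄ x₅, r x₁ x₂ → r x₂ x₃ → r x₃ x₄ → ¬ r x₄ x₅
  swap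
  · push Not at c5
    obtain ⟨a, s, z, t, b, c1, c2, c3, c4⟩ := c5
    by_contra hn
    refine hn (hC z ⟨⟨a, s, t, b, c1, c2, c3, c4⟩, c6, fun q p t b h1 h2 h3 h4 => ?_,
      fun q p s a h1 h2 h3 h4 => ?_, fun _ _ _ _ _ _ _ _ h => hn (perpR_two hP trans asymm h)⟩)
    · by_contra hc
      push Not at hc
      exact hn (perpR_five hP trans asymm c1 c2 h3 h4 h2 hc.2 hc.1 ⟨q, h1⟩
        fun y a b => c6 _ _ _ _ _ _ c1 c2 a b h4)
    · by_contra hc
      push Not at hc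
      exact hn (PerpR.of_flip (perpR_five (r := fun x y => r y x) hP.flip
        (fun x y z h1 h2 => trans _ _ _ h2 h1) (fun x y => asymm y x) c4 c3 h3 h4 h2 hc.2 hc.1
        ⟨q, h1⟩ fun y a b => c6 _ _ _ _ _ _ h4 b a c3 c4))
  by_cases c4 : ∀ x₁ x₂ x₃ x₄, r x₁ x₂ → r x₂ x₃ → ¬ r x₃ x₄
  · exact h3 c4
  push Not at c4
  obtain ⟨a, s, t, b, c1, c2, c3⟩ := c4
  by_cases hm : ∀ s t s' t', Middle r s → Middle r t → r s t → Middle r s' → Middle r t' →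
      r s' t' → s = s' ∨ t = t'
  swap
  · push Not at hm
    obtain ⟨s, t, s', t', ⟨⟨a, c1⟩, -⟩, ⟨-, b, c3⟩, c2, ⟨⟨a', d1⟩, -⟩, ⟨-, b', d3⟩, d2, hs, ht⟩ := hm
    exact perpR_four_matching hP trans asymm c5 c1 c2 c3 d1 d2 d3 hs ht
  have ms : Middle r s := ⟨⟨a, c1⟩, t, c2⟩
  have mt : Middle r t := ⟨⟨s, c2⟩, b, c3⟩
  by_cases hs : ∀ x y, Middle r x → Middle r y → r x y → x = s
  · exact hZ c5 s t ms mt c2 hs
  push Not at hs
  obtain ⟨s', t', ms', mt', d2, hs⟩ := hs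
  refine hZ' c5 s t ms mt c2 fun x y mx my hxy => ?_
  by_contra hy
  have e1 := (hm x y s t mx my hxy ms mt c2).resolve_right hy
  have e2 := (hm s' t' s t ms' mt' d2 ms mt c2).resolve_left hs
  have e3 := (hm x y s' t' mx my hxy ms' mt' d2).resolve_right fun e => hy (e.trans e2)
  exact hs (e3.symm.trans e1)

variable {z : X}

/-- In the centre class, a comparable pair of middle points lies in the three levels around z or
is incomparable to z. -/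
theorem Centre.pair (h : Centre r z) (trans : ∀ x y z, r x y → r y z → r x z) {x y : X}
    (mx : Middle r x) (my : Middle r y) (hxy : r x y) :
    ((x = z ∨ r x z) ∧ (y = z ∨ r z y)) ∨
      (x ≠ z ∧ y ≠ z ∧ ¬ r x z ∧ ¬ r z x ∧ ¬ r y z ∧ ¬ r z y) := by
  obtain ⟨a, s, t, b, c1, c2, c3, c4⟩ := h.five
  obtain ⟨⟨q, hq⟩, -⟩ := mx
  obtain ⟨-, q', hq'⟩ := my
  by_cases h1 : x = z ∨ r x z
  · refine Or.inl ⟨h1, ?_⟩
    rcases h1 with rfl | h1
    · exact Or.inr hxy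
    · exact h.dn _ _ _ _ hq' hxy h1 hq
  by_cases h2 : y = z ∨ r z y
  · refine absurd ?_ h1
    rcases h2 with rfl | h2
    · exact Or.inr hxy
    · exact h.up _ _ _ _ hq hxy h2 hq'
  push Not at h1 h2
  exact Or.inr ⟨h1.1, h2.1, h1.2, fun e => h2.2 (trans _ _ _ e hxy),
    fun e => h1.2 (trans _ _ _ hxy e), h2.2⟩

/-- The centre class splits into the delta class, two middle points below z, two middle points
above z, and a comparable pair of middle points apart from z. -/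
theorem Centre.split (h : Centre r z) (trans : ∀ x y z, r x y → r y z → r x z) :
    (∃ s t, Middle r s ∧ Middle r t ∧ r s z ∧ r z t ∧ ∀ x y, Middle r x → Middle r y → r x y →
      (x = s ∨ x = z) ∧ (y = z ∨ y = t)) ∨
    (∃ s s', s ≠ s' ∧ Middle r s ∧ Middle r s' ∧ r s z ∧ r s' z) ∨
    (∃ t t', t ≠ t' ∧ Middle r t ∧ Middle r t' ∧ r z t ∧ r z t') ∨
    ∃ x y, Middle r x ∧ Middle r y ∧ r x y ∧ x ≠ z ∧ y ≠ z ∧ ¬ r x z ∧ ¬ r z x ∧ ¬ r y z ∧
      ¬ r z y := by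
  obtain ⟨a, s, t, b, c1, c2, c3, c4⟩ := h.five
  have ms : Middle r s := ⟨⟨a, c1⟩, z, c2⟩
  have mt : Middle r t := ⟨⟨z, c3⟩, b, c4⟩
  by_contra hc
  simp only [not_or] at hc
  obtain ⟨h1, h2, h3, h4⟩ := hc
  refine h1 ⟨s, t, ms, mt, c2, c3, fun x y mx my hxy => ?_⟩
  rcases h.pair trans mx my hxy with ⟨e1, e2⟩ | e
  · refine ⟨e1.symm.imp_left fun e => ?_, e2.imp_right fun e => ?_⟩
    · by_contra hne
      exact h2 ⟨x, s, hne, mx, ms, e, c2⟩
    · by_contra hne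
      exact h3 ⟨y, t, hne, my, mt, e, c3⟩
  · exact absurd ⟨x, y, mx, my, hxy, e⟩ h4

/-- A comparable pair of middle points apart from z has a single point below and above, shared
with all middle points below and above z. -/
theorem Centre.apart (h : Centre r z) (trans : ∀ x y z, r x y → r y z → r x z)
    (asymm : ∀ x y, r x y → ¬ r y x) {x y : X} (hxy : r x y) (n1 : x ≠ z) (n2 : y ≠ z)
    (n3 : ¬ r x z) (n6 : ¬ r z y) {a s t b a' b' : X} (c1 : r a s) (c2 : r s z) (c3 : r z t)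
    (c4 : r t b) (d1 : r a' x) (d3 : r y b') : a = a' ∧ b = b' := by
  have irr : ∀ x, ¬ r x x := fun x hx => asymm _ _ hx hx
  have n4 : ¬ r z x := fun e => n6 (trans _ _ _ e hxy)
  have n5 : ¬ r y z := fun e => n3 (trans _ _ _ hxy e)
  have u1 : ¬ r x t := fun e => (h.up _ _ _ _ d1 e c3 c4).elim n1 n3
  have u2 : ¬ r y t := fun e => u1 (trans _ _ _ hxy e)
  have u3 : ¬ r s y := fun e => (h.dn _ _ _ _ d3 e c2 c1).elim n2 n6
  have u4 : ¬ r s x := fun e => u3 (trans _ _ _ e hxy)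
  constructor
  · by_contra hne
    refine h.two a s z t a' x y b' ⟨c1, c2, c3, d1, hxy, d3, u4, fun e => n3 (trans _ _ _ e c2),
      n6, n5, ?_⟩
    simp only [List.mem_cons, List.not_mem_nil, or_false, not_or]
    rintro p (rfl | rfl | rfl | rfl)
    · refine ⟨hne, ?_, ?_, ?_⟩ <;> rintro rfl
      exacts [n3 (trans _ _ _ c1 c2), n5 (trans _ _ _ c1 c2),
        n5 (trans _ _ _ d3 (trans _ _ _ c1 c2))]
    · refine ⟨?_, ?_, ?_, ?_⟩ <;> rintro rfl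
      exacts [u4 d1, n3 c2, n5 c2, n5 (trans _ _ _ d3 c2)]
    · refine ⟨?_, n1.symm, n2.symm, ?_⟩ <;> rintro rfl
      exacts [n4 d1, n5 d3]
    · refine ⟨?_, ?_, ?_, ?_⟩ <;> rintro rfl
      exacts [n4 (trans _ _ _ c3 d1), n4 c3, n6 c3, u2 d3]
  · by_contra hne
    refine h.two s z t b a' x y b' ⟨c2, c3, c4, d1, hxy, d3, n4, n3,
      fun e => n6 (trans _ _ _ c3 e), u2, ?_⟩
    simp only [List.mem_cons, List.not_mem_nil, or_false, not_or]
    rintro p (rfl | rfl | rfl | rfl)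
    · refine ⟨?_, ?_, ?_, ?_⟩ <;> rintro rfl
      exacts [u4 d1, n3 c2, n5 c2, n5 (trans _ _ _ d3 c2)]
    · refine ⟨?_, n1.symm, n2.symm, ?_⟩ <;> rintro rfl
      exacts [n4 d1, n5 d3]
    · refine ⟨?_, ?_, ?_, ?_⟩ <;> rintro rfl
      exacts [n4 (trans _ _ _ c3 d1), n4 c3, n6 c3, u2 d3]
    · refine ⟨?_, ?_, ?_, hne⟩ <;> rintro rfl
      exacts [n4 (trans _ _ _ c3 (trans _ _ _ c4 d1)), n4 (trans _ _ _ c3 c4),
        n6 (trans _ _ _ c3 c4)]

/-- The centre class with a comparable pair of middle points apart from z. -/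
theorem Centre.perpR_apart [Finite X] (h : Centre r z) (hP : Prime r)
    (trans : ∀ x y z, r x y → r y z → r x z) (asymm : ∀ x y, r x y → ¬ r y x) {x y : X}
    (mx : Middle r x) (my : Middle r y) (hxy : r x y) (n1 : x ≠ z) (n2 : y ≠ z) (n3 : ¬ r x z)
    (n6 : ¬ r z y) : PerpR r := by
  obtain ⟨a, s, t, b, c1, c2, c3, c4⟩ := h.five
  obtain ⟨⟨a', d1⟩, -⟩ := mx
  obtain ⟨-, b', d3⟩ := my
  obtain ⟨rfl, rfl⟩ := h.apart trans asymm hxy n1 n2 n3 n6 c1 c2 c3 c4 d1 d3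
  refine perpR_shared hP trans asymm d1 c1 hxy c2 (fun e => n3 (e ▸ c2)) n2
    (fun e => n3 (trans _ _ _ e c2))
    (fun e => (h.dn _ _ _ _ d3 (trans _ _ _ e hxy) c2 c1).elim n2 n6)
    (fun e => n3 (trans _ _ _ hxy e)) n6 ?_ ⟨b, d3⟩ ⟨t, c3⟩ fun p q e e' => ?_
  · rintro w m h1 (h2 | h2)
    · exact (h.apart trans asymm h2 (fun e => n6 (e ▸ h2)) n2
        (fun e => (h.dn _ _ _ _ d3 h2 e h1).elim n2 n6) n6 c1 c2 c3 c4 h1 d3).1.symm
    · exact (h.apart trans asymm hxy n1 n2 n3 n6 h1 h2 c3 c4 d1 d3).1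
  · have e1 := (h.apart trans asymm hxy n1 n2 n3 n6 c1 c2 c3 c4 d1 e).2
    have e2 := (h.apart trans asymm hxy n1 n2 n3 n6 c1 c2 c3 c4 d1 (trans _ _ _ e e')).2
    rw [← e1, ← e2] at e'
    exact asymm _ _ e' e'

/-- The centre class from the delta class and the class with two middle points below z. -/
theorem Centre.perpR [Finite X] (h : Centre r z) (hP : Prime r)
    (trans : ∀ x y z, r x y → r y z → r x z) (asymm : ∀ x y, r x y → ¬ r y x)
    (hD : ∀ s t, Middle r s → Middle r t → r s z → r z t →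
      (∀ x y, Middle r x → Middle r y → r x y → (x = s ∨ x = z) ∧ (y = z ∨ y = t)) → PerpR r)
    (hF : ∀ a s t b x m, r a s → r s z → r z t → r t b → r x m → r m z → m ≠ s →
      (∀ p, r p t → p ≠ z → (∃ y, r y p) → r p z) → PerpR r)
    (hF' : ∀ a s t b x m, r a s → r s z → r z t → r t b → r m x → r z m → m ≠ t →
      (∀ p, r s p → p ≠ z → (∃ y, r p y) → r z p) → PerpR r) : PerpR r := by
  obtain ⟨a, s, t, b, c1, c2, c3, c4⟩ := h.five
  rcases h.split trans with ⟨s, t, h1, h2, h3, h4, h5⟩ | ⟨s, m, hne, ⟨⟨a, h1⟩, -⟩, ⟨⟨x, h2⟩, -⟩, h3, h4⟩ |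
    ⟨t, m, hne, ⟨-, b, h1⟩, ⟨-, x, h2⟩, h3, h4⟩ | ⟨x, y, mx, my, hxy, n1, n2, n3, -, -, n6⟩
  · exact hD s t h1 h2 h3 h4 h5
  · exact hF a s t b x m h1 h3 c3 c4 h2 h4 hne.symm
      fun p e1 e2 ⟨y, e3⟩ => (h.up _ _ _ _ e3 e1 c3 c4).resolve_left e2
  · exact hF' a s t b x m c1 c2 h3 h1 h2 h4 hne.symm
      fun p e1 e2 ⟨y, e3⟩ => (h.dn _ _ _ _ e3 e1 c2 c1).resolve_left e2
  · exact h.perpR_apart hP trans asymm mx my hxy n1 n2 n3 n6

theorem perpR_of_perp {P : PartialOrder X}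
    (h : ∃ Q : PartialOrder X, ∀ f : X → X, (∀ x y, P.le x y → P.le (f x) (f y)) →
      (∀ x y, Q.le x y → Q.le (f x) (f y)) → f = id ∨ ∃ c, ∀ x, f x = c) : PerpR P.lt := by
  obtain ⟨Q, hQ⟩ := h
  refine ⟨Q, fun f hf => hQ f fun x y hxy => ?_⟩
  rcases @LE.le.eq_or_lt X P _ _ hxy with rfl | h1
  · exact P.le_refl _
  · exact (hf x y h1).elim (fun e => e ▸ P.le_refl _) fun e => @le_of_lt X P.toPreorder _ _ e

theorem perpR_three [Finite X] (P : PartialOrder X) (hP : Prime P.lt)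
    (h4 : ∀ x₁ x₂ x₃ x₄, P.lt x₁ x₂ → P.lt x₂ x₃ → ¬ P.lt x₃ x₄) : PerpR P.lt :=
  perpR_of_perp (height_three P (fun ⟨A, h1, h2, h3⟩ => hP A h1 h2 h3)
    fun ⟨_, _, _, _, a, b, c⟩ => h4 _ _ _ _ a b c)

end Pool.Agent.Lib.MP_04ca4f_co
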