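import Pool.Agent.Lib.MP_04ca4f_co.PathLem

/-!
# Lexical rankings for a partition into antichains
-/

set_option autoImplicit false

namespace Pool.Agent.Lib.MP_04ca4f_co

open Finset

variable {X : Type*}

theorem sum_swap_aux [Fintype X] [DecidableEq X] (h w : X → ℚ) {x y : X} (hne : x ≠ y) :
    ∑ u, h u * w (Equiv.swap x y u) = ∑ u, h u * w u + (h x - h y) * (w y - w x) := by
  have e1 : ∀ u, h u * w (Equiv.swap x y u) = h u * w u +
      ((if u = x then h x * (w y - w x) else 0) - if u = y then h y * (w y - w x) else 0) := by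
    intro u
    by_cases h1 : u = x
    · subst h1
      simp only [Equiv.swap_apply_left, if_true, if_neg hne]
      ring
    · by_cases h2 : u = y
      · subst h2
        simp only [Equiv.swap_apply_right, if_true, if_neg h1]
        ring
      · simp [h1, h2, Equiv.swap_apply_of_ne_of_ne h1 h2]
  simp only [e1, sum_add_distrib, sum_sub_distrib, sum_ite_eq', mem_univ, if_true]
  ring

/-- A symmetric table vanishing inside the blocks admits a ranking, obtained from a given one by a
permutation inside the blocks, that refines the keys and is lexical on ties. -/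
theorem exists_blockLex [Finite X] {ι : Type*} (β : X → ι) (val : X → X → ℕ)
    (symm : ∀ u v, val u v = val v u) (hzero : ∀ u v, β u = β v → val u v = 0)
    (key : X → ℕ) (e0 : X → ℕ) (he0 : ∀ x y, e0 x = e0 y → x = y) :
    ∃ σ : Equiv.Perm X, (∀ x, β (σ x) = β x) ∧
      (∀ x y, β x = β y → key y < key x → e0 (σ y) < e0 (σ x)) ∧
      ∀ x y, β x = β y → key x = key y → e0 (σ y) < e0 (σ x) → (∀ z, val x z = val y z) ∨
        ∃ z, val y z < val x z ∧ ∀ z', e0 (σ z') < e0 (σ z) → val x z' = val y z' := by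
  classical
  cases nonempty_fintype X
  obtain ⟨D, hD⟩ : ∃ D : ℕ, ∀ u v, val u v ≤ D := by
    obtain ⟨D, hD⟩ := (Set.finite_range fun p : X × X => val p.1 p.2).bddAbove
    exact ⟨D, fun u v => hD ⟨(u, v), rfl⟩⟩
  set n := Fintype.card X
  set c : ℚ := 1 / (D * n + 1) with hc
  have hc0 : 0 < c := by positivity
  have hc1 : c ≤ 1 := by
    rw [hc, div_le_one (by positivity)]
    have : (0 : ℚ) ≤ D * n := by positivity
    linarith
  let w : Equiv.Perm X → X → ℚ := fun τ x => c ^ e0 (τ x)
  let Ψ : Equiv.Perm X → ℚ := fun τ => ∑ u, (-(key u : ℚ)) * (e0 (τ u) : ℚ)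
  let Φ : Equiv.Perm X → ℚ := fun τ => ∑ u, (∑ v, (val u v : ℚ) * w τ v) * w τ u
  obtain ⟨τ, hτ, hmin⟩ := exists_min_image
    (univ.filter fun τ : Equiv.Perm X => ∀ x, β (τ x) = β x) (fun τ => toLex (Ψ τ, Φ τ))
    ⟨1, by simp⟩
  have hs : ∀ x, β (τ x) = β x := (mem_filter.mp hτ).2
  have q1 : ∀ x y, e0 (τ x) = e0 (τ y) → x = y := fun x y h => τ.injective (he0 _ _ h)
  have hsw : ∀ x y, β x = β y → x ≠ y → Ψ τ < Ψ (τ * Equiv.swap x y) ∨
      (Ψ τ = Ψ (τ * Equiv.swap x y) ∧ Φ τ ≤ Φ (τ * Equiv.swap x y)) := by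
    intro x y hxy _
    refine Prod.Lex.toLex_le_toLex.mp (hmin (τ * Equiv.swap x y) (mem_filter.mpr
      ⟨mem_univ _, fun u => ?_⟩))
    rw [Equiv.Perm.mul_apply, hs, Equiv.swap_apply_def]
    split_ifs with h1 h2
    · rw [h1, hxy]
    · rw [h2, hxy]
    · rfl
  have hΨ : ∀ x y, x ≠ y → Ψ (τ * Equiv.swap x y) =
      Ψ τ + (-(key x : ℚ) - -(key y : ℚ)) * ((e0 (τ y) : ℚ) - e0 (τ x)) := fun x y hne =>
    sum_swap_aux (fun u => -(key u : ℚ)) (fun u => (e0 (τ u) : ℚ)) hne
  refine ⟨τ, hs, fun x y hxy hk => ?_, fun x y hxy hk hlt => ?_⟩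
  · have hne : x ≠ y := fun h => by
      rw [h] at hk
      exact lt_irrefl _ hk
    by_contra hcon
    have h1 : e0 (τ x) < e0 (τ y) := lt_of_le_of_ne (not_lt.mp hcon) fun h => hne (q1 _ _ h)
    have h2 : (0 : ℚ) < (e0 (τ y) : ℚ) - e0 (τ x) := sub_pos.mpr (by exact_mod_cast h1)
    have h3 : (0 : ℚ) < (key x : ℚ) - key y := sub_pos.mpr (by exact_mod_cast hk)
    have h4 := hΨ x y hne
    have h5 := mul_pos h2 h3
    rcases hsw x y hxy hne with h | h
    · nlinarith
    · nlinarith [h.1]
  have hne : x ≠ y := fun h => by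
    rw [h] at hlt
    exact lt_irrefl _ hlt
  by_cases hall : ∀ z, val x z = val y z
  · exact Or.inl hall
  right
  obtain ⟨z, hz, hzmin⟩ := exists_min_image (univ.filter fun z => val x z ≠ val y z)
    (fun z => e0 (τ z)) (by
      push Not at hall
      obtain ⟨z, hz⟩ := hall
      exact ⟨z, mem_filter.mpr ⟨mem_univ _, hz⟩⟩)
  have hagree : ∀ z', e0 (τ z') < e0 (τ z) → val x z' = val y z' := fun z' h => by
    by_contra hh
    exact absurd (hzmin z' (mem_filter.mpr ⟨mem_univ _, hh⟩)) (not_le.mpr h)
  refine ⟨z, ?_, hagree⟩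
  by_contra hcon
  have hz' : val x z < val y z := lt_of_le_of_ne (not_lt.mp hcon) (mem_filter.mp hz).2
  let V : X → ℚ := fun u => ∑ v, (val u v : ℚ) * w τ v
  have hw0 : ∀ v, 0 < w τ v := fun v => pow_pos hc0 _
  have hV : V x < V y := by
    have h1 : ∀ v, (val x v : ℚ) * w τ v - val y v * w τ v ≤
        D * (c * w τ z) - if v = z then w τ z else 0 := by
      intro v
      have h0 : 0 ≤ (D : ℚ) * (c * w τ z) := by
        have := hw0 z
        positivity
      by_cases hv : v = z
      · subst hv
        have h2 : (val x v : ℚ) + 1 ≤ val y v := by exact_mod_cast hz'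
        have := hw0 v
        simp only [if_true]
        nlinarith
      · rw [if_neg hv, sub_zero]
        rcases lt_trichotomy (e0 (τ v)) (e0 (τ z)) with h2 | h2 | h2
        · rw [hagree v h2, sub_self]
          exact h0
        · exact absurd (q1 _ _ h2) hv
        · have h3 : w τ v ≤ c * w τ z := by
            simp only [w]
            rw [← pow_succ']
            exact pow_le_pow_of_le_one hc0.le hc1 h2
          have h4 : (val x v : ℚ) ≤ D := by exact_mod_cast hD x v
          have h5 : (0 : ℚ) ≤ val y v * w τ v := by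
            have := hw0 v
            positivity
          have h6 : (val x v : ℚ) * w τ v ≤ D * (c * w τ z) :=
            mul_le_mul h4 h3 (hw0 v).le (by positivity)
          linarith
    have h2 := sum_le_sum fun v (_ : v ∈ univ) => h1 v
    rw [sum_sub_distrib, sum_sub_distrib, sum_ite_eq', sum_const, card_univ] at h2
    simp only [mem_univ, if_true, nsmul_eq_mul] at h2
    have h3 : (n : ℚ) * (D * c) < 1 := by
      rw [hc, mul_one_div, ← mul_div_assoc, div_lt_one (by positivity)]
      linarith
    have h4 := mul_lt_mul_of_pos_right h3 (hw0 z)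
    simp only [V]
    nlinarith
  have hd : w τ x < w τ y ∨ D * n = 0 := by
    by_cases h0 : D * n = 0
    · exact Or.inr h0
    · left
      refine pow_lt_pow_right_of_lt_one₀ hc0 ?_ hlt
      rw [hc, div_lt_one (by positivity)]
      have : (0 : ℚ) < ((D * n : ℕ) : ℚ) := by exact_mod_cast Nat.pos_of_ne_zero h0
      push_cast at this
      linarith
  have hd' : w τ x < w τ y := by
    refine hd.resolve_right fun h0 => ?_
    rcases Nat.mul_eq_zero.mp h0 with h0 | h0
    · have := hD y z
      omega
    · exact absurd h0 (Fintype.card_pos_iff.mpr ⟨x⟩).ne'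
  have hw' : ∀ u, w (τ * Equiv.swap x y) u = w τ (Equiv.swap x y u) := fun _ => rfl
  have hV' : ∀ u, ∑ v, (val u v : ℚ) * w τ (Equiv.swap x y v) =
      V u + ((val u x : ℚ) - val u y) * (w τ y - w τ x) := fun u =>
    sum_swap_aux (fun v => (val u v : ℚ)) (w τ) hne
  have e1 : Φ (τ * Equiv.swap x y) = Φ τ + 2 * ((V x - V y) * (w τ y - w τ x)) := by
    have e2 : Φ (τ * Equiv.swap x y) = ∑ u, (V u + ((val u x : ℚ) - val u y) * (w τ y - w τ x)) *
        w τ (Equiv.swap x y u) := sum_congr rfl fun u _ => by rw [← hV' u]; rfl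
    rw [e2, sum_swap_aux (fun u => V u + ((val u x : ℚ) - val u y) * (w τ y - w τ x)) (w τ) hne]
    have e3 : ∑ u, (V u + ((val u x : ℚ) - val u y) * (w τ y - w τ x)) * w τ u =
        Φ τ + (V x - V y) * (w τ y - w τ x) := by
      simp only [Φ, V, add_mul, sum_add_distrib, ← sum_sub_distrib, sum_mul]
      congr 1
      refine sum_congr rfl fun u _ => ?_
      rw [symm u x, symm u y]
      ring
    rw [e3, hzero x x rfl, hzero x y hxy, hzero y x hxy.symm, hzero y y rfl]
    push_cast
    ring
  have e4 := hΨ x y hne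
  rw [hk, sub_self, zero_mul, add_zero] at e4
  rcases hsw x y hxy hne with h | h
  · exact absurd h (by rw [e4]; exact lt_irrefl _)
  · have h1 := h.2
    have h2 := mul_pos (sub_pos.mpr hV) (sub_pos.mpr hd')
    nlinarith

variable {r : X → X → Prop}

/-- The point z is comparable to x and is not related to y in the same way. -/
def Wit (r : X → X → Prop) (x y z : X) : Prop := (r x z ∧ ¬ r y z) ∨ (r z x ∧ ¬ r z y)

/-- The point z is related to x and to y in the same way. -/
def Same (r : X → X → Prop) (x y z : X) : Prop := (r x z ↔ r y z) ∧ (r z x ↔ r z y)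

/-- The lexical ranking for a partition of an order into antichains without twins. -/
theorem exists_orderLex [Finite X] {ι : Type*} [LinearOrder ι] (β : X → ι)
    (asymm : ∀ x y, r x y → ¬ r y x) (anti : ∀ x y, r x y → β x ≠ β y)
    (twin : ∀ x y, β x = β y → (∀ z, Same r x y z) → x = y)
    (key : X → ℕ) (e0 : X → ℕ) (he0 : ∀ x y, e0 x = e0 y → x = y) :
    ∃ σ : Equiv.Perm X, (∀ x, β (σ x) = β x) ∧
      (∀ x y, β x = β y → key y < key x → e0 (σ y) < e0 (σ x)) ∧
      ∀ x y, β x = β y → key x = key y → e0 (σ y) < e0 (σ x) →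
        ∃ z, Wit r x y z ∧ ∀ z', e0 (σ z') < e0 (σ z) → Same r x y z' := by
  classical
  let val : X → X → ℕ := fun u v => if r u v then (if β u < β v then 1 else 2)
    else if r v u then (if β v < β u then 1 else 2) else 0
  have hsame : ∀ x y z, β x = β y → val x z = val y z → Same r x y z := by
    have half : ∀ x y z, β x = β y → val x z = val y z → (r x z → r y z) ∧ (r z x → r z y) := by
      intro x y z hxy h
      simp only [val, ← hxy] at h
      constructor
      · intro h1
        by_contra h2
        have h3 := anti _ _ h1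
        rw [if_pos h1, if_neg h2] at h
        rcases lt_or_gt_of_ne h3 with h4 | h4
        · simp only [h4, h4.not_gt, if_true, if_false] at h
          split_ifs at h
          omega
        · simp only [h4, h4.not_gt, if_true, if_false] at h
          split_ifs at h
          omega
      · intro h1
        by_contra h2
        have h3 := anti _ _ h1
        rw [if_neg (asymm _ _ h1), if_pos h1, if_neg h2] at h
        rcases lt_or_gt_of_ne h3 with h4 | h4
        · simp only [h4, h4.not_gt, if_true, if_false] at h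
          split_ifs at h
          omega
        · simp only [h4, h4.not_gt, if_true, if_false] at h
          split_ifs at h
          omega
    intro x y z hxy h
    have h1 := half x y z hxy h
    have h2 := half y x z hxy.symm h.symm
    exact ⟨⟨h1.1, h2.1⟩, h1.2, h2.2⟩
  obtain ⟨σ, h1, h2, h3⟩ := exists_blockLex β val (fun u v => by
      by_cases a1 : r u v
      · simp only [val, a1, asymm _ _ a1, if_true, if_false]
      · by_cases a2 : r v u <;> simp only [val, a1, a2, if_true, if_false])
    (fun u v h => by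
      simp only [val, if_neg fun a => anti u v a h, if_neg fun a => anti v u a h.symm])
    key e0 he0
  refine ⟨σ, h1, h2, fun x y hxy hk hlt => ?_⟩
  rcases h3 x y hxy hk hlt with h | ⟨z, h4, h5⟩
  · rw [twin x y hxy fun z => hsame x y z hxy (h z)] at hlt
    exact absurd hlt (lt_irrefl _)
  · refine ⟨z, ?_, fun z' hz' => hsame x y z' hxy (h5 z' hz')⟩
    by_cases a1 : r x z
    · refine Or.inl ⟨a1, fun a2 => ?_⟩
      simp only [val, a1, a2, if_true, hxy, lt_self_iff_false] at h4
    · by_cases a2 : r z x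
      · refine Or.inr ⟨a2, fun a3 => ?_⟩
        simp only [val, a1, a2, a3, asymm _ _ a3, if_true, if_false, hxy, lt_self_iff_false] at h4
      · simp only [val, a1, a2, if_false] at h4
        omega

/-- Descent: a regressive order preserving map inside the blocks that fixes F is the identity. -/
theorem eq_of_lex {ι : Type*} (β : X → ι) (anti : ∀ x y, r x y → β x ≠ β y) (e : X → ℕ)
    (he : ∀ x y, e x = e y → x = y) (F : Set X)
    (lex : ∀ x y, β x = β y → e y < e x →
      ∃ z, Wit r x y z ∧ (z ∈ F ∨ ∀ z', e z' < e z → Same r x y z'))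
    {f : X → X} (hf : Mono r f) (hF : ∀ x ∈ F, f x = x) (hβ : ∀ x, β (f x) = β x)
    (hreg : ∀ x, e (f x) ≤ e x) (x : X) : f x = x := by
  have hr : ∀ x y, r x y → r (f x) (f y) := fun x y h =>
    (hf x y h).resolve_left fun h1 => anti x y h (by rw [← hβ x, ← hβ y, h1])
  have hlt : ∀ x, f x ≠ x → e (f x) < e x := fun x hx =>
    lt_of_le_of_ne (hreg x) fun h => hx (he _ _ h)
  have hW : ∀ x z, Wit r x (f x) z → ¬ Same r z (f z) (f x) := by
    rintro x z (h | h) hs
    · exact h.2 (hs.2.mpr (hr _ _ h.1))
    · exact h.2 (hs.1.mpr (hr _ _ h.1))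
  have hmove : ∀ x z, Wit r x (f x) z → f z ≠ z := fun x z h hz =>
    hW x z h (by rw [hz]; exact ⟨Iff.rfl, Iff.rfl⟩)
  induction' h : e x using Nat.strong_induction_on with k ih generalizing x
  by_contra hx
  obtain ⟨z, h1, -⟩ := lex x (f x) (hβ x).symm (hlt x hx)
  have hz := hmove x z h1
  obtain ⟨w, g1, g2⟩ := lex z (f z) (hβ z).symm (hlt z hz)
  have hw := hmove z w g1
  have g3 := g2.resolve_left fun h => hw (hF w h)
  have h5 : ¬ e (f x) < e w := fun hh => hW x z h1 (g3 _ hh)
  have h6 := hlt x hx
  exact hw (ih (e w) (by omega) w rfl)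

end Pool.Agent.Lib.MP_04ca4f_co
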