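import Mathlib

/-!
# A doubly lexical ordering of a bipartite graph makes the fence through both sides rigid
-/

set_option autoImplicit false

namespace Pool.Agent.Lib.MP_04ca4f_co

/-- Data of a bipartite graph with both sides numbered from a common corner. -/
structure Lexi (X : Type*) where
  adj : X → X → Prop
  side : X → Bool
  pos : X → ℕ
  symm : ∀ x y, adj x y → adj y x
  side_ne : ∀ x y, adj x y → side x ≠ side y
  inj : ∀ x y, side x = side y → pos x = pos y → x = y
  pred : ∀ x k, pos x = k + 1 → ∃ y, side y = side x ∧ pos y = k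
  ex : ∀ b, ∃ x, side x = b
  lex : ∀ x y, side x = side y → pos y < pos x →
    ∃ z, adj x z ∧ ¬ adj y z ∧ ∀ z', pos z' < pos z → adj y z' → adj x z'
  conn : ∀ W : Set X, W.Nonempty → (∀ x ∈ W, ∀ y, adj x y → y ∈ W) → W = Set.univ
  corner : ∀ x y, pos x = 0 → pos y = 0 → ¬ adj x y

namespace Lexi

variable {X : Type*} (L : Lexi X)

/-- Coordinate along the fence. -/
def t (x : X) : ℤ := if L.side x = true then -(L.pos x : ℤ) - 1 else L.pos x

/-- Equal or neighbours on the fence. -/
def near (x y : X) : Prop := L.t x ≤ L.t y + 1 ∧ L.t y ≤ L.t x + 1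

/-- Maps respecting the graph and the fence. -/
structure Good (f : X → X) : Prop where
  adj : ∀ x y, L.adj x y → f x = f y ∨ (L.adj (f x) (f y) ∧ L.side (f x) = L.side x)
  near : ∀ x y, L.near x y → L.near (f x) (f y)

theorem t_inj {x y : X} (h : L.t x = L.t y) : x = y := by
  unfold t at h
  cases hx : L.side x <;> cases hy : L.side y <;> simp only [hx, hy] at h <;>
    first
      | exact L.inj x y (hx.trans hy.symm) (by simp at h; omega)
      | (exfalso; simp at h; omega)

theorem exists_center (b : Bool) : ∃ x, L.side x = b ∧ L.pos x = 0 := by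
  obtain ⟨x, hx⟩ := L.ex b
  induction' h : L.pos x with k ih generalizing x
  · exact ⟨x, hx, h⟩
  · obtain ⟨y, h1, h2⟩ := L.pred x k h
    exact ih y (h1.trans hx) h2

theorem near_of_succ {x y : X} (h : L.side y = L.side x) (hp : L.pos x = L.pos y + 1) :
    L.near x y := by
  unfold near t
  rw [h, hp]
  split_ifs <;> push_cast <;> omega

theorem near_of_zero {x y : X} (hx : L.pos x = 0) (hy : L.pos y = 0) : L.near x y := by
  unfold near t
  rw [hx, hy]
  split_ifs <;> simp

theorem near_symm {x y : X} (h : L.near x y) : L.near y x := ⟨h.2, h.1⟩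

theorem pos_zero_of_near {x y : X} (h : L.near x y) (hs : L.side x ≠ L.side y) :
    L.pos x = 0 ∧ L.pos y = 0 := by
  unfold near t at h
  cases hx : L.side x <;> cases hy : L.side y <;> simp only [hx, hy] at h hs <;>
    first
      | exact absurd rfl hs
      | (simp at h; omega)

theorem pos_le_of_near {x y : X} (h : L.near x y) (hs : L.side x = L.side y) :
    L.pos x ≤ L.pos y + 1 := by
  unfold near t at h
  rw [hs] at h
  split_ifs at h <;> omega

theorem not_adj_of_near {x y : X} (h : L.near x y) : ¬ L.adj x y := fun ha =>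
  L.corner x y (L.pos_zero_of_near h (L.side_ne x y ha)).1
    (L.pos_zero_of_near h (L.side_ne x y ha)).2 ha

theorem near_conn (W : Set X) (hW : W.Nonempty) (hc : ∀ x ∈ W, ∀ y, L.near x y → y ∈ W) (x : X) :
    x ∈ W := by
  have down : ∀ k x, L.pos x = k → x ∈ W → ∃ y ∈ W, L.pos y = 0 := by
    intro k
    induction' k with k ih
    · exact fun x h hx => ⟨x, hx, h⟩
    · intro x h hx
      obtain ⟨y, h1, h2⟩ := L.pred x k h
      exact ih y h2 (hc x hx y (L.near_of_succ h1 (by omega)))
  obtain ⟨w, hw⟩ := hW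
  obtain ⟨y, hy, hy0⟩ := down _ w rfl hw
  induction' h : L.pos x with k ih generalizing x
  · exact hc y hy x (L.near_of_zero hy0 h)
  · obtain ⟨z, h1, h2⟩ := L.pred x k h
    exact hc z (ih z h2) x (L.near_symm (L.near_of_succ h1 (by omega)))

variable {L}

theorem Good.comp {f g : X → X} (hf : L.Good f) (hg : L.Good g) : L.Good (f ∘ g) := by
  refine ⟨fun x y h => ?_, fun x y h => hf.near _ _ (hg.near _ _ h)⟩
  rcases hg.adj x y h with h1 | ⟨h1, h2⟩
  · exact Or.inl (by simp [h1])
  · rcases hf.adj _ _ h1 with h3 | ⟨h3, h4⟩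
    · exact Or.inl h3
    · exact Or.inr ⟨h3, h4.trans h2⟩

theorem good_id : L.Good id := ⟨fun _ _ h => Or.inr ⟨h, rfl⟩, fun _ _ h => h⟩

theorem Good.iterate {f : X → X} (hf : L.Good f) (n : ℕ) : L.Good f^[n] := by
  induction' n with n ih
  · exact good_id
  · rw [Function.iterate_succ']
    exact hf.comp ih

/-- The range of a good map is an interval of the fence. -/
theorem Good.convex {g : X → X} (hg : L.Good g) {u v y : X} (h1 : L.t (g u) ≤ L.t y)
    (h2 : L.t y ≤ L.t (g v)) : y ∈ Set.range g := by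
  by_contra hy
  have hne : ∀ w, L.t (g w) ≠ L.t y := fun w h => hy ⟨w, L.t_inj h⟩
  have := L.near_conn {w | L.t (g w) < L.t y} ⟨u, lt_of_le_of_ne h1 (hne u)⟩
    (fun x hx z hz => by
      have h3 := (hg.near _ _ hz).2
      have h4 := hne z
      simp only [Set.mem_ofPred_eq] at hx ⊢
      omega) v
  simp only [Set.mem_ofPred_eq] at this
  omega

/-- A set of values that is neither missed nor everything has an edge leaving it. -/
theorem Good.exit {g : X → X} (hg : L.Good g) (S : Set X) {u v : X} (hu : g u ∈ S)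
    (hv : g v ∉ S) : ∃ x y, g x ∈ S ∧ g y ∉ S ∧ L.adj (g x) (g y) := by
  by_contra hcon
  push Not at hcon
  have := L.conn {w | g w ∈ S} ⟨u, hu⟩ (fun x hx y hxy => by
    by_contra hy
    rcases hg.adj x y hxy with h | h
    · exact hy (show g y ∈ S from h ▸ hx)
    · exact hcon x y hx hy h.1)
  exact hv (show v ∈ {w | g w ∈ S} from this ▸ Set.mem_univ v)

theorem Good.exists_adj {g : X → X} (hg : L.Good g) (hn : ¬ ∃ c, ∀ x, g x = c) (u : X) :
    ∃ v, L.adj (g u) (g v) := by
  push Not at hn
  obtain ⟨v, hv⟩ := hn (g u)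
  obtain ⟨x, y, h1, -, h3⟩ := hg.exit {g u} (u := u) (v := v) rfl hv
  exact ⟨y, by rwa [show g x = g u from h1] at h3⟩

theorem Good.mem_range_of_le {g : X → X} (hg : L.Good g) (hn : ¬ ∃ c, ∀ x, g x = c) {u y : X}
    (hs : L.side y = L.side (g u)) (hp : L.pos y ≤ L.pos (g u)) : y ∈ Set.range g := by
  obtain ⟨v, hv⟩ := hg.exists_adj hn u
  have h1 := L.side_ne _ _ hv
  cases hb : L.side (g u)
  · have h2 : L.side (g v) = true := by
      rw [hb] at h1
      simpa using h1.symm
    refine hg.convex (u := v) (v := u) ?_ ?_ <;> simp only [t, hs, hb, h2] <;> simp <;> omega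
  · have h2 : L.side (g v) = false := by
      rw [hb] at h1
      simpa using h1.symm
    refine hg.convex (u := u) (v := v) ?_ ?_ <;> simp only [t, hs, hb, h2] <;> simp <;> omega

theorem Good.center_mem {g : X → X} (hg : L.Good g) (hn : ¬ ∃ c, ∀ x, g x = c) {y : X}
    (hy : L.pos y = 0) : y ∈ Set.range g := by
  obtain ⟨v, hv⟩ := hg.exists_adj hn y
  have h1 := L.side_ne _ _ hv
  by_cases h : L.side y = L.side (g y)
  · exact hg.mem_range_of_le hn h (by omega)
  · refine hg.mem_range_of_le hn (u := v) ?_ (by omega)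
    revert h h1
    cases L.side y <;> cases L.side (g y) <;> cases L.side (g v) <;> simp

/-- Every vertex has a neighbour in the range of a nonconstant good map. -/
theorem Good.exists_adj_range {g : X → X} (hg : L.Good g) (hn : ¬ ∃ c, ∀ x, g x = c) (x : X) :
    ∃ z ∈ Set.range g, L.adj x z := by
  obtain ⟨r, hr, hr0⟩ := L.exists_center (L.side x)
  obtain ⟨u, rfl⟩ := hg.center_mem hn hr0
  obtain ⟨v, hv⟩ := hg.exists_adj hn u
  by_cases he : L.pos x = 0
  · rw [L.inj x (g u) hr.symm (by omega)]
    exact ⟨g v, ⟨v, rfl⟩, hv⟩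
  · obtain ⟨z, h1, -, h3⟩ := L.lex x (g u) hr.symm (by omega)
    by_cases hz : L.pos (g v) < L.pos z
    · exact ⟨g v, ⟨v, rfl⟩, h3 _ hz hv⟩
    · refine ⟨z, hg.mem_range_of_le hn (u := v) ?_ (by omega), h1⟩
      have a1 := L.side_ne _ _ h1
      have a2 := L.side_ne _ _ hv
      revert a1 a2
      rw [hr]
      cases L.side x <;> cases L.side z <;> cases L.side (g v) <;> simp

/-- A good map that collapses the range of a nonconstant good map is constant. -/
theorem Good.const_of_comp {f g : X → X} (hf : L.Good f) (hg : L.Good g)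
    (hn : ¬ ∃ c, ∀ x, g x = c) {c : X} (hc : ∀ x, f (g x) = c) (x : X) : f x = c := by
  induction' h : L.pos x with k ih generalizing x
  · obtain ⟨u, rfl⟩ := hg.center_mem hn h
    exact hc u
  · obtain ⟨y, h1, h2⟩ := L.pred x k h
    have h3 := hf.near _ _ (L.near_of_succ h1 (by omega))
    rw [ih y h2] at h3
    obtain ⟨_, ⟨v, rfl⟩, hz⟩ := hg.exists_adj_range hn x
    rcases hf.adj _ _ hz with h4 | h4
    · rw [h4, hc]
    · rw [hc] at h4
      exact absurd h4.1 (L.not_adj_of_near h3)

/-- A good map preserving both sides is the identity. -/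
theorem Good.eq_of_side {f : X → X} (hf : L.Good f) (hs : ∀ x, L.side (f x) = L.side x) (x : X) :
    f x = x := by
  have hreg : ∀ k x, L.pos x = k → L.pos (f x) ≤ k := by
    intro k
    induction' k with k ih
    · intro x hx
      obtain ⟨y, hy, hy0⟩ := L.exists_center (!L.side x)
      refine (L.pos_zero_of_near (hf.near _ _ (L.near_of_zero hx hy0)) ?_).1.le
      rw [hs, hs, hy]
      cases L.side x <;> simp
    · intro x hx
      obtain ⟨y, h1, h2⟩ := L.pred x k hx
      have h3 := L.pos_le_of_near (hf.near _ _ (L.near_of_succ h1 (by omega)))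
        (by rw [hs, hs, h1])
      have := ih y h2
      omega
  have hlt : ∀ x, f x ≠ x → L.pos (f x) < L.pos x := fun x hx =>
    lt_of_le_of_ne (hreg _ x rfl) fun h => hx (L.inj _ _ (hs x) h)
  have hadj : ∀ x y, L.adj x y → L.adj (f x) (f y) := by
    intro x y h
    rcases hf.adj x y h with h1 | h1
    · exact absurd (by rw [← hs x, ← hs y, h1]) (L.side_ne x y h)
    · exact h1.1
  induction' h : L.pos x using Nat.strong_induction_on with k ih generalizing x
  by_contra hx
  obtain ⟨z, h1, h2, h3⟩ := L.lex x (f x) (hs x).symm (hlt x hx)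
  have hz : f z ≠ z := fun hh => h2 (hh ▸ hadj x z h1)
  obtain ⟨w, g1, g2, g3⟩ := L.lex z (f z) (hs z).symm (hlt z hz)
  have hw : f w ≠ w := fun hh => g2 (hh ▸ hadj z w g1)
  have h4 : L.adj (f z) (f x) := L.symm _ _ (hadj x z h1)
  have h5 : ¬ L.pos (f x) < L.pos w := fun hh => h2 (L.symm _ _ (g3 _ hh h4))
  have h6 := hlt x hx
  exact hw (ih (L.pos w) (by omega) w rfl)

/-- A nonconstant idempotent good map preserves both sides. -/
theorem Good.side_eq {e : X → X} (he : L.Good e) (hn : ¬ ∃ c, ∀ x, e x = c)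
    (hi : ∀ x, e (e x) = e x) (x : X) : L.side (e x) = L.side x := by
  have hfix : ∀ y ∈ Set.range e, e y = y := by
    rintro _ ⟨u, rfl⟩
    exact hi u
  induction' h : L.pos x with k ih generalizing x
  · rw [hfix x (he.center_mem hn h)]
  obtain ⟨y, h1, h2⟩ := L.pred x k h
  by_contra hx
  have h3 := L.pos_zero_of_near (he.near _ _ (L.near_of_succ h1 (by omega)))
    (by rw [ih y h2, h1]; exact hx)
  have hN : ∀ z ∈ Set.range e, L.adj x z → z = e x := by
    intro z hz hxz
    rcases he.adj x z hxz with h4 | h4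
    · rw [h4, hfix z hz]
    · exact absurd h4.2 hx
  have hxc : L.adj x (e x) := by
    obtain ⟨z, hz, hxz⟩ := he.exists_adj_range hn x
    exact hN z hz hxz ▸ hxz
  have hxY : x ∉ Set.range e := fun hh => hx (by rw [hfix x hh])
  obtain ⟨u, v, g1, g2, g3⟩ := he.exit {w | w = e x ∨ L.adj w (e x)} (u := x) (v := y)
    (Or.inl rfl) (by
      rintro (hh | hh)
      · exact hx (by rw [← hh, ih y h2, h1])
      · exact L.corner _ _ h3.2 h3.1 hh)
  rcases g1 with g1 | g1
  · exact g2 (Or.inr (L.symm _ _ (g1 ▸ g3)))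
  · have hsu : L.side x = L.side (e u) := by
      have a1 := L.side_ne _ _ g1
      revert a1 hx
      cases L.side x <;> cases L.side (e x) <;> cases L.side (e u) <;> simp
    have hpu : L.pos (e u) < L.pos x := by
      by_contra hh
      exact hxY (he.mem_range_of_le hn hsu (by omega))
    obtain ⟨z, a1, a2, a3⟩ := L.lex x (e u) hsu hpu
    have hzY : z ∉ Set.range e := fun hh => a2 (hN z hh a1 ▸ g1)
    have hpz : L.pos (e v) < L.pos z := by
      by_contra hh
      refine hzY (he.mem_range_of_le hn (u := v) ?_ (by omega))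
      have b1 := L.side_ne _ _ a1
      have b2 := L.side_ne _ _ g3
      revert b1 b2
      rw [← hsu]
      cases L.side x <;> cases L.side z <;> cases L.side (e v) <;> simp
    exact g2 (Or.inl (hN _ ⟨v, rfl⟩ (a3 _ hpz g3)))

theorem exists_iterate_idem [Finite X] (f : X → X) :
    ∃ k, 0 < k ∧ ∀ x, f^[k] (f^[k] x) = f^[k] x := by
  obtain ⟨i, j, hij, h⟩ := Finite.exists_ne_map_eq_of_infinite (fun n : ℕ => f^[n])
  wlog hlt : i < j generalizing i j
  · exact this j i hij.symm h.symm (by omega)
  obtain ⟨d, rfl⟩ := Nat.exists_eq_add_of_lt hlt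
  have h1 : ∀ m x, f^[m * (d + 1) + i] x = f^[i] x := by
    intro m
    induction' m with m ih
    · simp
    · intro x
      have e1 : (m + 1) * (d + 1) + i = m * (d + 1) + (i + d + 1) := by ring
      rw [e1, Function.iterate_add_apply, ← congrFun h x, ← Function.iterate_add_apply, ih]
  refine ⟨(i + 1) * (d + 1), by positivity, fun x => ?_⟩
  have e2 : (i + 1) * (d + 1) = (i * d + d + 1) + i := by ring
  rw [← Function.iterate_add_apply]
  conv_rhs => rw [e2, Function.iterate_add_apply, ← h1 (i + 1), ← Function.iterate_add_apply]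
  congr 1
  ring

/-- Every good map is the identity or constant. -/
theorem Good.trivial [Finite X] {f : X → X} (hf : L.Good f) : f = id ∨ ∃ c, ∀ x, f x = c := by
  by_cases hn : ∃ c, ∀ x, f x = c
  · exact Or.inr hn
  left
  have hnk : ∀ k, ¬ ∃ c, ∀ x, f^[k + 1] x = c := by
    intro k
    induction' k with k ih
    · simpa using hn
    · rintro ⟨c, hc⟩
      refine hn ⟨c, hf.const_of_comp (hf.iterate (k + 1)) ih fun x => ?_⟩
      rw [← hc x, Function.iterate_succ_apply' f (k + 1)]
  obtain ⟨k, hk, hi⟩ := exists_iterate_idem f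
  obtain ⟨k, rfl⟩ := Nat.exists_eq_succ_of_ne_zero hk.ne'
  have hid := (hf.iterate (k + 1)).eq_of_side ((hf.iterate (k + 1)).side_eq (hnk k) hi)
  have hinj : Function.Injective f := by
    intro x y h
    rw [← hid x, ← hid y, Function.iterate_succ_apply, Function.iterate_succ_apply, h]
  funext x
  refine hf.eq_of_side (fun x => ?_) x
  obtain ⟨z, -, hz⟩ := hf.exists_adj_range hn x
  rcases hf.adj x z hz with h | h
  · exact absurd (by rw [hinj h]) (L.side_ne x z hz)
  · exact h.2

/-- The fence as a partial order. -/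
@[reducible] def fence (L : Lexi X) : PartialOrder X where
  le x y := x = y ∨ (L.near x y ∧ L.t x % 2 = 0 ∧ L.t y % 2 = 1)
  le_refl _ := Or.inl rfl
  le_trans := by
    rintro x y z (rfl | h) h'
    · exact h'
    · rcases h' with rfl | h'
      · exact Or.inr h
      · omega
  le_antisymm := by
    rintro x y (rfl | h) h'
    · rfl
    · rcases h' with rfl | h'
      · rfl
      · omega

theorem near_of_fence {f : X → X}
    (hf : ∀ x y, L.fence.le x y → L.fence.le (f x) (f y)) (x y : X) (h : L.near x y) :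
    L.near (f x) (f y) := by
  have key : ∀ x y, L.fence.le x y → L.near (f x) (f y) := by
    intro x y h
    rcases hf x y h with h1 | h1
    · rw [h1]
      exact ⟨by omega, by omega⟩
    · exact h1.1
  by_cases he : L.t x = L.t y
  · rw [L.t_inj he]
    exact ⟨by omega, by omega⟩
  · by_cases hp : L.t x % 2 = 0
    · exact key x y (Or.inr ⟨h, hp, by have := h.1; have := h.2; omega⟩)
    · exact L.near_symm
        (key y x (Or.inr ⟨L.near_symm h, by have := h.1; have := h.2; omega, by omega⟩))

end Lexi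

end Pool.Agent.Lib.MP_04ca4f_co
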