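import Pool.Agent.Lib.MP_04ca4f_co.Lexical

/-!
Every finite order of height at most two without nontrivial autonomous set has a perpendicular.
-/

namespace Pool.Agent.Results.MP_04ca4f_co.HeightTwo

theorem result {X : Type*} [Finite X] (P : PartialOrder X)
    (hprime : ¬ ∃ A : Set X, A ≠ Set.univ ∧ A.Nontrivial ∧ ∀ x ∉ A,
      ((∃ a ∈ A, P.lt x a) → ∀ a ∈ A, P.lt x a) ∧ ((∃ a ∈ A, P.lt a x) → ∀ a ∈ A, P.lt a x))
    (h2 : ¬ ∃ x y z, P.lt x y ∧ P.lt y z) :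
    ∃ Q : PartialOrder X, ∀ f : X → X, (∀ x y, P.le x y → P.le (f x) (f y)) →
      (∀ x y, Q.le x y → Q.le (f x) (f y)) → f = id ∨ ∃ c, ∀ x, f x = c :=
  Pool.Agent.Lib.MP_04ca4f_co.height_two P hprime h2

end Pool.Agent.Results.MP_04ca4f_co.HeightTwo
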