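import Pool.Agent.Lib.MP_04ca4f_co.InfDefs

/-!
Small lemmas. `exists_links`: call a finite set `L` disjoint from `Base` good if it has the last
property; unions of good sets are good; the set of points lying in `Base` or in a good set is closed
under comparability (add the new point), so by `conn` it is everything; take a finite union.
`exists_tokens`: induction on the finite type, or Hall's theorem, or choose greedily above all
previous choices. `conn_of_prime`: use the
component `A` of `a` (the intersection of all closed sets containing `a`, or `ReflTransGen`): it is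
nontrivial and autonomous, hence everything; a nonempty closed `S` contains a point `s ∈ A`, and
the complement of `S` is closed too, so `S` contains `a`, hence `A`.
-/

set_option autoImplicit false

namespace Pool.Agent.Lib.MP_04ca4f_co.Inf

universe u v

theorem exists_links {X : Type u} [PartialOrder X]
    (conn : ∀ S : Set X, S.Nonempty → (∀ x, ∀ y ∈ S, x ≤ y ∨ y ≤ x → x ∈ S) → ∀ x, x ∈ S)
    (Base : Set X) (hB : Base.Nonempty) (L0 : Set X) (hL0 : L0.Finite) :
    ∃ L : Set X, L.Finite ∧ (∀ x ∈ L0, x ∉ Base → x ∈ L) ∧ (∀ x ∈ L, x ∉ Base) ∧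
      ∀ S : Set X, Base ⊆ S → (∀ x ∈ L, ∀ y ∈ S, x ≤ y ∨ y ≤ x → x ∈ S) → L ⊆ S := by
  classical
  let Good : Set X → Prop := fun L => L.Finite ∧ (∀ x ∈ L, x ∉ Base) ∧
    ∀ S : Set X, Base ⊆ S → (∀ x ∈ L, ∀ y ∈ S, x ≤ y ∨ y ≤ x → x ∈ S) → L ⊆ S
  have hU : ∀ L1 L2, Good L1 → Good L2 → Good (L1 ∪ L2) := by
    rintro L1 L2 ⟨f1, d1, c1⟩ ⟨f2, d2, c2⟩
    refine ⟨f1.union f2, ?_, ?_⟩
    · rintro x (hx | hx)
      · exact d1 x hx
      · exact d2 x hx
    · intro S hS hcl
      exact Set.union_subset (c1 S hS fun x hx => hcl x (Or.inl hx))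
        (c2 S hS fun x hx => hcl x (Or.inr hx))
  have hE : Good ∅ := ⟨Set.finite_empty, by simp, fun S _ _ => Set.empty_subset S⟩
  have hall : ∀ x, x ∈ {x | x ∈ Base ∨ ∃ L, Good L ∧ x ∈ L} := by
    apply conn
    · obtain ⟨z, hz⟩ := hB
      exact ⟨z, Or.inl hz⟩
    · intro x y hy hxy
      by_cases hx : x ∈ Base
      · exact Or.inl hx
      · right
        have key : ∀ L, Good L → (y ∈ Base ∨ y ∈ L) → Good (insert x L) := by
          rintro L ⟨f1, d1, c1⟩ hyL
          refine ⟨f1.insert x, ?_, ?_⟩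
          · rintro z (rfl | hz)
            · exact hx
            · exact d1 z hz
          · intro S hS hcl
            have hLS : L ⊆ S := c1 S hS fun z hz => hcl z (Or.inr hz)
            have hyS : y ∈ S := hyL.elim (fun h => hS h) (fun h => hLS h)
            exact Set.insert_subset (hcl x (Or.inl rfl) y hyS hxy) hLS
        rcases hy with hy | ⟨L, hL, hy⟩
        · exact ⟨_, key ∅ hE (Or.inl hy), Or.inl rfl⟩
        · exact ⟨_, key L hL (Or.inr hy), Or.inl rfl⟩
  have main : ∃ L, Good L ∧ ∀ x ∈ L0, x ∉ Base → x ∈ L := by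
    induction L0, hL0 using Set.Finite.induction_on with
    | empty => exact ⟨∅, hE, by simp⟩
    | @insert z s _ _ ih =>
      obtain ⟨L, hL, hs⟩ := ih
      rcases hall z with hz | ⟨L', hL', hz⟩
      · refine ⟨L, hL, ?_⟩
        rintro x (rfl | hx) hxB
        · exact absurd hz hxB
        · exact hs x hx hxB
      · refine ⟨L ∪ L', hU _ _ hL hL', ?_⟩
        rintro x (rfl | hx) hxB
        · exact Or.inr hz
        · exact Or.inl (hs x hx hxB)
  obtain ⟨L, ⟨f1, d1, c1⟩, hs⟩ := main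
  exact ⟨L, f1, hs, d1, c1⟩

theorem exists_tokens {I : Type v} [Finite I] (G : I → Set ℕ) (hG : ∀ i, (G i).Infinite) :
    ∃ t : I → Bool → ℕ, (∀ i e, t i e ∈ G i) ∧
      ∀ i e i' e', t i e = t i' e' → i = i' ∧ e = e' := by
  classical
  have := Fintype.ofFinite I
  have hT : ∀ j : I × Bool, ∃ T : Finset ℕ, (T : Set ℕ) ⊆ G j.1 ∧
      T.card = Fintype.card (I × Bool) := fun j => (hG j.1).exists_subset_card_eq _
  choose T hTG hTc using hT
  have hall : ∀ s : Finset (I × Bool), s.card ≤ (s.biUnion T).card := by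
    intro s
    rcases s.eq_empty_or_nonempty with rfl | ⟨j, hj⟩
    · simp
    · calc s.card ≤ Fintype.card (I × Bool) := Finset.card_le_univ s
        _ = (T j).card := (hTc j).symm
        _ ≤ (s.biUnion T).card := Finset.card_le_card (Finset.subset_biUnion_of_mem T hj)
  obtain ⟨f, hf, hfT⟩ := (Finset.all_card_le_biUnion_card_iff_exists_injective T).1 hall
  refine ⟨fun i e => f (i, e), fun i e => hTG (i, e) (hfT (i, e)), ?_⟩
  intro i e i' e' h
  have := hf h
  exact ⟨congrArg Prod.fst this, congrArg Prod.snd this⟩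

theorem conn_of_prime {X : Type u} [PartialOrder X] (h : IsPrime X) (a b : X) (hab : a < b) :
    ∀ S : Set X, S.Nonempty → (∀ x, ∀ y ∈ S, x ≤ y ∨ y ≤ x → x ∈ S) → ∀ x, x ∈ S := by
  let A : Set X := {x | ∀ S : Set X, (∀ x, ∀ y ∈ S, x ≤ y ∨ y ≤ x → x ∈ S) → a ∈ S → x ∈ S}
  have hcl : ∀ x, ∀ y ∈ A, x ≤ y ∨ y ≤ x → x ∈ A :=
    fun x y hy hxy S hS ha => hS x y (hy S hS ha) hxy
  have haA : a ∈ A := fun S _ ha => ha
  have hbA : b ∈ A := hcl b a haA (Or.inr hab.le)
  have hA : A = Set.univ := by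
    by_contra hne
    refine h ⟨A, hne, ⟨a, haA, b, hbA, hab.ne⟩, fun x hx => ⟨?_, ?_⟩⟩
    · rintro ⟨z, hz, hxz⟩
      exact absurd (hcl x z hz (Or.inl hxz.le)) hx
    · rintro ⟨z, hz, hxz⟩
      exact absurd (hcl x z hz (Or.inr hxz.le)) hx
  have hmem : ∀ x, x ∈ A := fun x => hA ▸ Set.mem_univ x
  rintro S ⟨s, hs⟩ hS x
  have haS : a ∈ S := by
    by_contra hn
    exact hmem s Sᶜ (fun u w hw huw hu => hw (hS w u hu huw.symm)) hn hs
  exact hmem x S hS haS


end Pool.Agent.Lib.MP_04ca4f_co.Inf
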