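import Pool.Agent.Lib.MP_04ca4f_co.InfTok
import Pool.Agent.Lib.MP_04ca4f_co.InfLinks

/-!
Construction of the data. `Base` = frame and both pools, `Y m` = points of level `m` outside
`Base`. `J := Bool ⊕ {m : ℕ // m < N ∧ (Y m).Infinite}`, `pl := Sum.inl`. For an infinite `Y m`
choose eight distinct points `kk m c k e ∈ Y m`. `L0` = the finite `Y m` (m < N) and all `kk`;
`Lk` from `exists_links`. Blocks: `B (inl p) := range (pool p)`, `B (inr m) := Y m minus Lk`
(infinite, code from `exists_code_on`). Colour `lc x` of a link: true unless `x = kk m false k e`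
for some `m k e`. For a link `x` choose `pp x` with `G x := {i | Inc x (pool (pp x) i)}` infinite,
indices `t x e` from `exists_tokens` (index type `Lk`), and a code `(c0, k0, cl0)` on `ℕ` from
`exists_code_tok` with `w x := xor (pp x) (!lc x)`. Global colour: frame point `io v`: `isK true v`;
`pool p i`: `xor p (c0 i)`; link: `lc`; point of `B (inr m)`: its code colour. Kinds likewise
(`k0 i` on both pools). `cl (inl false)` is the image of `cl0`, `cl (inl true)` the image of the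
reversed `cl0` (`IsCode.map`, `IsCode.dual`, `IsCode.congr`). `tk x e := pool (pp x) (t x e)`.
Points of one level are incomparable. `side` gives: `io` injective on the frame, the sixteen
`F.kap` are distinct and `< n`, so `isK true (F.kap p c k e) = c`.
-/

set_option autoImplicit false

namespace Pool.Agent.Lib.MP_04ca4f_co.Inf

universe u v

theorem cb_side (F : CFrame) (hs : F.side = true) :
    (∀ x < F.n, ∀ y < F.n, F.P x y = true → F.P y x = true → x = y) ∧
    (∀ p c k e, F.kap p c k e < F.n) ∧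
    ∀ p c k e p' c' k' e', F.kap p c k e = F.kap p' c' k' e' →
      p = p' ∧ c = c' ∧ k = k' ∧ e = e' := by
  simp only [CFrame.side, Bool.and_eq_true, List.all_eq_true, List.mem_range,
    decide_eq_true_eq] at hs
  obtain ⟨⟨⟨⟨h1, hl⟩, hn⟩, hk⟩, -⟩ := hs
  have hlt : ∀ p c k e : Bool, 8 * p.toNat + 4 * c.toNat + 2 * k.toNat + e.toNat < F.ks.length := by
    intro p c k e
    rw [hl]
    cases p <;> cases c <;> cases k <;> cases e <;> decide
  refine ⟨fun x hx y hy hxy hyx => ?_, fun p c k e => ?_, fun p c k e p' c' k' e' h => ?_⟩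
  · have := ((h1 x hx).2 y hy).1.1.1
    simpa [hxy, hyx] using this
  · unfold CFrame.kap
    rw [List.getD_eq_getElem _ _ (hlt p c k e)]
    exact hk _ (List.getElem_mem _)
  · unfold CFrame.kap at h
    rw [List.getD_eq_getElem _ _ (hlt p c k e), List.getD_eq_getElem _ _ (hlt p' c' k' e')] at h
    have := (List.Nodup.getElem_inj_iff hn).1 h
    revert this
    cases p <;> cases c <;> cases k <;> cases e <;> cases p' <;> cases c' <;> cases k' <;>
      cases e' <;> decide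

theorem cb_isK (F : CFrame) (hs : F.side = true) (p c k e : Bool) :
    F.isK true (F.kap p c k e) = c := by
  have h := (cb_side F hs).2.2
  cases c
  · rw [Bool.eq_false_iff]
    intro hh
    simp only [CFrame.isK, List.any_eq_true, decide_eq_true_eq] at hh
    obtain ⟨p', -, k', -, e', -, hh⟩ := hh
    exact absurd (h _ _ _ _ _ _ _ _ hh).2.1 (by decide)
  · simp only [CFrame.isK, List.any_eq_true, decide_eq_true_eq]
    exact ⟨p, by cases p <;> simp, k, by cases k <;> simp, e, by cases e <;> simp, rfl⟩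

theorem cb_eight {X : Type u} (S : Set X) (hS : S.Infinite) :
    ∃ kk : Bool → Bool → Bool → X, (∀ c k e, kk c k e ∈ S) ∧
      ∀ c k e c' k' e', kk c k e = kk c' k' e' → c = c' ∧ k = k' ∧ e = e' := by
  refine ⟨fun c k e => (hS.natEmbedding S (4 * c.toNat + 2 * k.toNat + e.toNat) : X),
    fun c k e => (hS.natEmbedding S _).2, fun c k e c' k' e' h => ?_⟩
  have := (hS.natEmbedding S).injective (Subtype.ext h)
  revert this
  cases c <;> cases k <;> cases e <;> cases c' <;> cases k' <;> cases e' <;> decide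

theorem cb_glue {X : Type u} {n : ℕ} {io : ℕ → X} (hinj : ∀ x < n, ∀ y < n, io x = io y → x = y)
    {pool : Bool → ℕ → X} (hp : ∀ p i p' i', pool p i = pool p' i' → p = p' ∧ i = i')
    (hfr : ∀ v < n, ∀ p i, io v ≠ pool p i) (a : ℕ → Bool) (b : Bool → ℕ → Bool) (c : X → Bool) :
    ∃ col : X → Bool, (∀ v < n, col (io v) = a v) ∧ (∀ p i, col (pool p i) = b p i) ∧
      ∀ x, (∀ v < n, x ≠ io v) → (∀ p i, x ≠ pool p i) → col x = c x := by
  classical
  refine ⟨fun x => if h : ∃ v < n, x = io v then a h.choose else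
    if h' : ∃ q : Bool × ℕ, x = pool q.1 q.2 then b h'.choose.1 h'.choose.2 else c x,
    fun v hv => ?_, fun p i => ?_, fun x h1 h2 => ?_⟩
  · have h : ∃ w < n, io v = io w := ⟨v, hv, rfl⟩
    simp only [dif_pos h]
    rw [← hinj v hv _ h.choose_spec.1 h.choose_spec.2]
  · have h : ¬ ∃ v < n, pool p i = io v := fun ⟨v, hv, h⟩ => hfr v hv p i h.symm
    have h' : ∃ q : Bool × ℕ, pool p i = pool q.1 q.2 := ⟨(p, i), rfl⟩
    simp only [dif_neg h, dif_pos h']
    obtain ⟨h1, h2⟩ := hp _ _ _ _ h'.choose_spec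
    rw [← h1, ← h2]
  · have h : ¬ ∃ v < n, x = io v := fun ⟨v, hv, h⟩ => h1 v hv h
    have h' : ¬ ∃ q : Bool × ℕ, x = pool q.1 q.2 := fun ⟨q, h⟩ => h2 _ _ h
    simp only [dif_neg h, dif_neg h']

theorem cb_nocommon {X : Type u} {e : ℕ → X} (he : Function.Injective e) {cl : ℕ → ℕ → Prop}
    {i j : ℕ} (h : NoCommon cl i j) :
    NoCommon (fun x x' => ∃ y y', x = e y ∧ x' = e y' ∧ cl y y') (e i) (e j) := by
  rintro w ⟨h1, h2⟩
  have k1 : ∃ y, w = e y ∧ (cl y i ∨ cl i y) := by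
    rcases h1 with ⟨y, y', h1, h2, h3⟩ | ⟨y, y', h1, h2, h3⟩
    · exact ⟨y, h1, Or.inl (he h2 ▸ h3)⟩
    · exact ⟨y', h2, Or.inr (he h1 ▸ h3)⟩
  have k2 : ∃ y, w = e y ∧ (cl y j ∨ cl j y) := by
    rcases h2 with ⟨y, y', h1, h2, h3⟩ | ⟨y, y', h1, h2, h3⟩
    · exact ⟨y, h1, Or.inl (he h2 ▸ h3)⟩
    · exact ⟨y', h2, Or.inr (he h1 ▸ h3)⟩
  obtain ⟨y, rfl, k1⟩ := k1
  obtain ⟨y', hy, k2⟩ := k2
  exact h y ⟨k1, he hy ▸ k2⟩

theorem exists_cdata {X : Type u} [PartialOrder X] (F : CFrame) (hs : F.side = true)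
    (io : ℕ → X) (hio : ∀ x < F.n, ∀ y < F.n, io x ≤ io y ↔ F.P x y = true)
    (pool : Bool → ℕ → X) (hanti : ∀ p i j, pool p i ≤ pool p j → i = j)
    (hpart : ∀ i, pool false i ≤ pool true i) (hne : ∀ i j, pool false i ≠ pool true j)
    (hfr : ∀ v < F.n, ∀ p i, io v ≠ pool p i)
    (hk : ∀ p c k e i, Inc (pool p i) (io (F.kap p c k e)))
    (N : ℕ) (lev : X → ℕ) (hN : ∀ x, lev x < N) (hlev : ∀ x y, x < y → lev x < lev y)
    (hfar : ∀ x, ∃ p, {i | Inc x (pool p i)}.Infinite)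
    (conn : ∀ S : Set X, S.Nonempty → (∀ x, ∀ y ∈ S, x ≤ y ∨ y ≤ x → x ∈ S) → ∀ x, x ∈ S) :
    Nonempty (CData X F) := by
  classical
  obtain ⟨hPa, hklt, hkinj⟩ := cb_side F hs
  have hinj : ∀ x < F.n, ∀ y < F.n, io x = io y → x = y := fun x hx y hy h =>
    hPa x hx y hy ((hio x hx y hy).1 h.le) ((hio y hy x hx).1 h.ge)
  have hp : ∀ p i p' i', pool p i = pool p' i' → p = p' ∧ i = i' := by
    intro p i p' i' h
    cases p <;> cases p'
    · exact ⟨rfl, hanti _ _ _ h.le⟩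
    · exact absurd h (hne _ _)
    · exact absurd h.symm (hne _ _)
    · exact ⟨rfl, hanti _ _ _ h.le⟩
  have hpi : ∀ p, Function.Injective (pool p) := fun p i j h => (hp _ _ _ _ h).2
  have hlv : ∀ x y, lev x = lev y → x ≤ y → x = y := fun x y h hxy => by
    by_contra hh
    exact absurd (hlev x y (lt_of_le_of_ne hxy hh)) (by omega)
  let Base : Set X := {x | (∃ v < F.n, x = io v) ∨ ∃ p i, x = pool p i}
  let Y : ℕ → Set X := fun m => {x | lev x = m ∧ x ∉ Base}
  let J0 := {m : ℕ // m < N ∧ (Y m).Infinite}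
  have hJ0 : Finite J0 :=
    Finite.of_injective (fun m : J0 => (⟨m.1, m.2.1⟩ : Fin N))
      fun a b h => Subtype.ext (by simpa using h)
  choose kk hkk hkki using fun m : J0 => cb_eight (Y m.1) m.2.2
  have hkkm : ∀ m c k e m' c' k' e', kk m c k e = kk m' c' k' e' →
      m = m' ∧ c = c' ∧ k = k' ∧ e = e' := by
    intro m c k e m' c' k' e' h
    have hm : m = m' := Subtype.ext (by
      rw [← (hkk m c k e).1, ← (hkk m' c' k' e').1, h])
    subst hm
    exact ⟨rfl, hkki _ _ _ _ _ _ _ h⟩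
  let L0 : Set X := (⋃ m ∈ {m | m < N ∧ (Y m).Finite}, Y m) ∪
    Set.range fun q : J0 × Bool × Bool × Bool => kk q.1 q.2.1 q.2.2.1 q.2.2.2
  have hL0 : L0.Finite :=
    (((Set.finite_lt_nat N).subset fun m hm => hm.1).biUnion fun m hm => hm.2).union
      (Set.finite_range _)
  obtain ⟨Lk, hLf, hL1, hL2, hL3⟩ :=
    exists_links conn Base ⟨pool false 0, Or.inr ⟨false, 0, rfl⟩⟩ L0 hL0
  have hkL : ∀ m c k e, kk m c k e ∈ Lk := fun m c k e =>
    hL1 _ (Or.inr ⟨(m, c, k, e), rfl⟩) (hkk m c k e).2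
  let lc : X → Bool := fun x => decide (¬ ∃ m k e, x = kk m false k e)
  have hlc : ∀ m c k e, lc (kk m c k e) = c := by
    intro m c k e
    cases c
    · exact decide_eq_false (not_not.2 ⟨m, k, e, rfl⟩)
    · refine decide_eq_true ?_
      rintro ⟨m', k', e', h⟩
      exact absurd (hkkm _ _ _ _ _ _ _ _ h).2.1 (by decide)
  choose pp hpp using hfar
  have : Finite Lk := hLf
  obtain ⟨t, ht1, ht2⟩ :=
    exists_tokens (fun x : Lk => {i | Inc x.1 (pool (pp x.1) i)}) fun x => hpp x.1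
  obtain ⟨c0, k0, cl0, hc0, ht3⟩ := exists_code_tok t ht2 fun x => xor (pp x.1) (!lc x.1)
  choose cm km clm hcm using fun m : J0 => exists_code_on (Y m.1 \ Lk) (m.2.2.sdiff hLf)
  obtain ⟨col, hcol1, hcol2, hcol3⟩ := cb_glue hinj hp hfr (fun v => F.isK true v)
    (fun p i => xor p (c0 i)) fun x => if x ∈ Lk then lc x else
      if h : lev x < N ∧ (Y (lev x)).Infinite then cm ⟨lev x, h⟩ x else false
  obtain ⟨knd, -, hknd2, hknd3⟩ := cb_glue hinj hp hfr (fun _ => false)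
    (fun _ i => k0 i) fun x =>
      if h : lev x < N ∧ (Y (lev x)).Infinite then km ⟨lev x, h⟩ x else false
  have hnb1 : ∀ x, x ∉ Base → ∀ v < F.n, x ≠ io v := fun x hx v hv h => hx (Or.inl ⟨v, hv, h⟩)
  have hnb2 : ∀ x, x ∉ Base → ∀ p i, x ≠ pool p i := fun x hx p i h => hx (Or.inr ⟨p, i, h⟩)
  have hcolL : ∀ x ∈ Lk, col x = lc x := fun x hx => by
    rw [hcol3 x (hnb1 x (hL2 x hx)) (hnb2 x (hL2 x hx)), if_pos hx]
  have hcolY : ∀ m : J0, ∀ x ∈ Y m.1 \ Lk, col x = cm m x ∧ knd x = km m x := by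
    rintro ⟨m, hm⟩ x ⟨⟨h1, h2⟩, h3⟩
    dsimp only at h1
    subst h1
    rw [hcol3 x (hnb1 x h2) (hnb2 x h2), hknd3 x (hnb1 x h2) (hnb2 x h2), if_neg h3, dif_pos hm,
      dif_pos hm]
    exact ⟨rfl, rfl⟩
  let tk : X → Bool → X := fun x e => if h : x ∈ Lk then pool (pp x) (t ⟨x, h⟩ e) else x
  have htk : ∀ x (h : x ∈ Lk) e, tk x e = pool (pp x) (t ⟨x, h⟩ e) := fun x h e => dif_pos h
  let cp : Bool → ℕ → ℕ → Prop := fun p y y' => if p then cl0 y' y else cl0 y y'
  have hcp : ∀ p, IsCode Set.univ (fun i => xor p (c0 i)) k0 (cp p) := by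
    intro p
    cases p
    · simpa [cp] using hc0
    · simpa [cp] using hc0.dual
  refine ⟨{
    io := io
    J := Bool ⊕ J0
    pl := Sum.inl
    B := Sum.elim (fun p => Set.range (pool p)) fun m => Y m.1 \ Lk
    Lk := Lk
    col := col
    knd := knd
    cl := Sum.elim (fun p x x' => ∃ y y', x = pool p y ∧ x' = pool p y' ∧ cp p y y') clm
    kap := Sum.elim (fun p c k e => io (F.kap p c k e)) kk
    tk := tk
    hio := hio
    pl_inj := Sum.inl_injective
    cover := ?_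
    io_Lk := fun v hv h => hL2 _ h (Or.inl ⟨v, hv, rfl⟩)
    io_B := ?_
    Lk_B := ?_
    B_B := ?_
    code := ?_
    anti := ?_
    kap_inc := ?_
    kap_col := ?_
    kap_pl := fun _ _ _ _ => rfl
    kap_Lk := ?_
    kap_inj := ?_
    tk_mem := ?_
    tk_col := ?_
    tk_priv := ?_
    partner := ?_
    reach := ?_
    conn := conn }⟩
  · intro x
    by_cases hb : x ∈ Base
    · rcases hb with h | ⟨p, i, h⟩
      · exact Or.inl h
      · exact Or.inr (Or.inr ⟨Sum.inl p, i, h.symm⟩)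
    · by_cases hx : x ∈ Lk
      · exact Or.inr (Or.inl hx)
      · refine Or.inr (Or.inr ⟨Sum.inr ⟨lev x, hN x, fun hf => hx ?_⟩, ⟨rfl, hb⟩, hx⟩)
        exact hL1 x (Or.inl (Set.mem_biUnion (x := lev x) ⟨hN x, hf⟩ ⟨rfl, hb⟩)) hb
  · rintro v hv (p | m) h
    · obtain ⟨i, h⟩ := h
      exact hfr v hv p i h.symm
    · exact h.1.2 (Or.inl ⟨v, hv, rfl⟩)
  · rintro x hx (p | m) h
    · obtain ⟨i, h⟩ := h
      exact hL2 x hx (Or.inr ⟨p, i, h.symm⟩)
    · exact h.2 hx
  · rintro x (p | m) (p' | m') h h'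
    · obtain ⟨i, h⟩ := h
      obtain ⟨i', h'⟩ := h'
      rw [(hp _ _ _ _ (h.trans h'.symm)).1]
    · obtain ⟨i, h⟩ := h
      exact absurd (Or.inr ⟨p, i, h.symm⟩) h'.1.2
    · obtain ⟨i, h'⟩ := h'
      exact absurd (Or.inr ⟨p', i, h'.symm⟩) h.1.2
    · rw [show m = m' from Subtype.ext (h.1.1.symm.trans h'.1.1)]
  · rintro (p | m)
    · exact (hcp p).map (pool p) (hpi p) col knd fun i => ⟨hcol2 p i, hknd2 p i⟩
    · exact (hcm m).congr (hcolY m)
  · rintro (p | m) x hx y hy hxy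
    · obtain ⟨i, rfl⟩ := hx
      obtain ⟨j, rfl⟩ := hy
      rw [hanti p i j hxy]
    · exact hlv x y (hx.1.1.trans hy.1.1.symm) hxy
  · rintro (p | m) c k e x hx
    · obtain ⟨i, rfl⟩ := hx
      exact hk p c k e i
    · have hl : lev x = lev (kk m c k e) := hx.1.1.trans (hkk m c k e).1.symm
      have hn : x ≠ kk m c k e := fun h => hx.2 (h ▸ hkL m c k e)
      exact ⟨fun h => hn (hlv _ _ hl h), fun h => hn (hlv _ _ hl.symm h).symm⟩
  · rintro (p | m) c k e
    · exact (hcol1 _ (hklt p c k e)).trans (cb_isK F hs p c k e)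
    · exact (hcolL _ (hkL m c k e)).trans (hlc m c k e)
  · rintro (p | m) h c k e
    · exact absurd rfl (h p)
    · exact hkL m c k e
  · rintro (p | m) c k e (p' | m') c' k' e' h
    · have := hkinj _ _ _ _ _ _ _ _ (hinj _ (hklt p c k e) _ (hklt p' c' k' e') h)
      exact ⟨by rw [this.1], this.2⟩
    · exact absurd (Or.inl ⟨_, hklt p c k e, h.symm⟩) (hkk m' c' k' e').2
    · exact absurd (Or.inl ⟨_, hklt p' c' k' e', h⟩) (hkk m c k e).2
    · have := hkkm _ _ _ _ _ _ _ _ h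
      exact ⟨by rw [this.1], this.2⟩
  · intro x hx
    refine ⟨pp x, fun e => ⟨_, (htk x hx e).symm⟩, ?_⟩
    rw [htk x hx, htk x hx]
    refine cb_nocommon (hpi _) fun w hw => (ht3 ⟨x, hx⟩).2 w ?_
    revert hw
    cases pp x <;> simp only [cp] <;> tauto
  · intro x hx e
    rw [htk x hx, hcol2, hknd2, ((ht3 ⟨x, hx⟩).1 e).1, ((ht3 ⟨x, hx⟩).1 e).2, hcolL x hx]
    exact ⟨by cases pp x <;> cases lc x <;> rfl, rfl, ht1 ⟨x, hx⟩ e⟩
  · intro x hx y hy e e' h
    rw [htk x hx, htk y hy] at h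
    exact congrArg Subtype.val (ht2 _ _ _ _ (hp _ _ _ _ h).2).1
  · rintro p x ⟨i, rfl⟩
    refine ⟨!p, pool (!p) i, ⟨i, rfl⟩, ?_, ?_⟩
    · cases p
      · exact Or.inl (hpart i)
      · exact Or.inr (hpart i)
    · rw [hcol2, hcol2]
      cases p <;> cases c0 i <;> rfl
  · intro S h1 h2 h3
    refine hL3 S ?_ h3
    rintro x (⟨v, hv, rfl⟩ | ⟨p, i, rfl⟩)
    · exact h1 v hv
    · exact h2 p ⟨i, rfl⟩


end Pool.Agent.Lib.MP_04ca4f_co.Inf
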