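import Pool.Agent.Lib.MP_04ca4f_co.InfDefs

/-!
A common map constant on the frame is constant. Let `K` be the fibre of `c`. A point with a
`Q`-neighbour in `K` has its image `Q`-comparable with `c`; if it also has a `P`-neighbour in `K` the
image is `c` (`hcomp`). Pools: a red point has image `≤ c`, a blue one `≥ c` in `Q` (constants are
frame points, indices `< n` by `side`); a point and its partner have opposite colours and
`P`-comparable images, so both images are `c`. Links: each has a token in a pool, so `reach` with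
`S := K` gives `Lk ⊆ K`. Then all constants are in `K`, every point is in `K` or has a `Q`-neighbour
in `K`, and `conn` finishes (if `K` is empty then `n = 0`, impossible as `kap` indices are `< n`).
-/

set_option autoImplicit false

namespace Pool.Agent.Lib.MP_04ca4f_co.Inf

universe u v

theorem CFrame.kap_lt_of_side {F : CFrame} (hs : F.side = true) (p c k e : Bool) :
    F.kap p c k e < F.n := by
  simp only [CFrame.side, Bool.and_eq_true, decide_eq_true_eq, List.all_eq_true] at hs
  have hl : 8 * p.toNat + 4 * c.toNat + 2 * k.toNat + e.toNat < F.ks.length := by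
    rw [hs.1.1.1.2]
    cases p <;> cases c <;> cases k <;> cases e <;> decide
  rw [CFrame.kap, List.getD_eq_getElem _ _ hl]
  exact hs.1.2 _ (List.getElem_mem hl)

theorem CData.const_of_frame {X : Type u} [PartialOrder X] {F : CFrame} (D : CData X F)
    (hs : F.side = true) (Q : POrd X) (hQ : D.IsOrd Q)
    (hcomp : ∀ x y, Q.le x y → x ≤ y ∨ y ≤ x → x = y) (f : X → X)
    (hP : ∀ x y, x ≤ y → f x ≤ f y) (hf : ∀ x y, Q.le x y → Q.le (f x) (f y)) (c : X)
    (hc : ∀ v < F.n, f (D.io v) = c) : ∀ x, f x = c := by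
  have hE : ∀ x y, D.E x y → Q.le (f x) (f y) := fun x y h =>
    hf x y ((hQ x y).2 (Or.inr (Or.inr h)))
  have cmpP : ∀ x y, x ≤ y ∨ y ≤ x → f x ≤ f y ∨ f y ≤ f x := fun x y h =>
    h.imp (hP x y) (hP y x)
  have key : ∀ x y, f y = c → Q.le (f x) c ∨ Q.le c (f x) → x ≤ y ∨ y ≤ x → f x = c := by
    intro x y hy h1 h2
    have h3 := cmpP x y h2
    rw [hy] at h3
    rcases h1 with h1 | h1
    · exact hcomp _ _ h1 h3
    · exact (hcomp _ _ h1 h3.symm).symm
  have blk : ∀ j, (∀ a k e, f (D.kap j a k e) = c) → ∀ x ∈ D.B j,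
      (D.col x = false → Q.le (f x) c) ∧ (D.col x = true → Q.le c (f x)) := fun j hj x hx =>
    ⟨fun h => hj true (D.knd x) false ▸ hE _ _ (Or.inr (Or.inl ⟨j, false, hx, h, rfl⟩)),
      fun h => hj false (D.knd x) false ▸ hE _ _ (Or.inr (Or.inr (Or.inl ⟨j, false, hx, h, rfl⟩)))⟩
  have kp : ∀ p a k e, f (D.kap (D.pl p) a k e) = c := fun p a k e => by
    rw [D.kap_pl]
    exact hc _ (CFrame.kap_lt_of_side hs p a k e)
  have pool : ∀ p, ∀ x ∈ D.B (D.pl p), f x = c := by
    intro p x hx
    obtain ⟨p', y, hy, h1, h2⟩ := D.partner p x hx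
    have bx := blk _ (kp p) x hx
    have by' := blk _ (kp p') y hy
    cases hx' : D.col x
    · rw [hx'] at h2
      have e := hcomp _ _ (Q.trans _ _ _ (bx.1 hx') (by'.2 h2)) (cmpP x y h1)
      exact Q.antisymm _ _ (bx.1 hx') (e ▸ by'.2 h2)
    · rw [hx'] at h2
      have e := hcomp _ _ (Q.trans _ _ _ (by'.1 h2) (bx.2 hx')) (cmpP x y h1).symm
      exact Q.antisymm _ _ (e ▸ by'.1 h2) (bx.2 hx')
  have lk : D.Lk ⊆ {x | f x = c} := by
    refine D.reach _ hc pool fun x hx y hy h => key x y hy ?_ h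
    obtain ⟨p, hp, -⟩ := D.tk_mem x hx
    have e := pool p _ (hp false)
    cases hx' : D.col x
    · exact Or.inl (e ▸ hE _ _ (Or.inr (Or.inr (Or.inr (Or.inr ⟨hx, hx', false, rfl⟩)))))
    · exact Or.inr (e ▸ hE _ _ (Or.inr (Or.inr (Or.inr (Or.inl ⟨hx, hx', false, rfl⟩)))))
  have kall : ∀ j a k e, f (D.kap j a k e) = c := fun j a k e => by
    by_cases hj : ∃ p, j = D.pl p
    · obtain ⟨p, rfl⟩ := hj
      exact kp p a k e
    · exact lk (D.kap_Lk j (fun p h => hj ⟨p, h⟩) a k e)
  refine D.conn {x | f x = c} ⟨_, kp false false false false⟩ fun x y hy h => ?_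
  rcases D.cover x with ⟨v, hv, rfl⟩ | hx | ⟨j, hx⟩
  · exact hc v hv
  · exact lk hx
  · refine key x y hy ?_ h
    cases hx' : D.col x
    · exact Or.inl ((blk j (kall j) x hx).1 hx')
    · exact Or.inr ((blk j (kall j) x hx).2 hx')


end Pool.Agent.Lib.MP_04ca4f_co.Inf
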