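import Pool.Agent.Lib.MP_04ca4f_co.InfDefs

/-!
A map preserving `Q` that fixes the frame is the identity.
(1) Block lemma: if `f` fixes the eight constants `kap j c k e` of block `j`, it fixes
`B j`. A red `x ∈ B j` of kind `k` is below `kap j true k false` and `kap j true k true`; a common
lower bound `y` of these two distinct blue points is not one of them (an edge starts at a red point,
a frame edge does not start at a blue constant), not a frame point below both by frame edges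
(`side`; such edges exist only for pools), not a token of both (`tk_priv`), and mixed cases are
excluded by disjointness of frame, links and blocks; the remaining case is a red point of `B j` of
kind `k` (`kap_inj`). Dually for blue points. A `Q`-relation between a red and a blue point of `B j`
is an edge `cl j`. Then `IsCode.rigid`.
(2) Pools have frame constants, so they are fixed. (3) A blue link `x` is above its two red tokens
(kinds false and true, same pool); a common upper bound is not a token, not a point of the pool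
(`NoCommon`), not a constant (different kinds, `kap_inj`), so it is a link owning the token, `x`
itself (`tk_priv`). Dually for red links. (4) Other blocks have links as constants.
-/

set_option autoImplicit false

namespace Pool.Agent.Lib.MP_04ca4f_co.Inf

universe u v

section

variable {X : Type u} [PartialOrder X] {F : CFrame} (D : CData X F)

theorem ci_side (hs : F.side = true) :
    (∀ x < F.n, ∀ y < F.n, F.P x y = true → F.P y x = true → x = y) ∧
    (∀ p c k e, F.kap p c k e < F.n) ∧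
    (∀ x < F.n, ∀ y < F.n, F.Q x y = true → F.isK true x = false ∧ F.isK false y = false) ∧
    ∀ p k, ∀ x < F.n, ¬ (F.Q x (F.kap p true k false) = true ∧ F.Q x (F.kap p true k true) = true) ∧
      ¬ (F.Q (F.kap p false k false) x = true ∧ F.Q (F.kap p false k true) x = true) := by
  simp only [CFrame.side, Bool.and_eq_true, List.all_eq_true, List.mem_range,
    decide_eq_true_eq] at hs
  obtain ⟨⟨⟨⟨h1, hl⟩, -⟩, hk⟩, h5⟩ := hs
  have hlt : ∀ p c k e : Bool, 8 * p.toNat + 4 * c.toNat + 2 * k.toNat + e.toNat < F.ks.length := by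
    intro p c k e
    rw [hl]
    cases p <;> cases c <;> cases k <;> cases e <;> decide
  refine ⟨fun x hx y hy hxy hyx => ?_, fun p c k e => ?_, fun x hx y hy hq => ?_,
    fun p k x hx => ?_⟩
  · have := ((h1 x hx).2 y hy).1.1.1
    simpa [hxy, hyx] using this
  · unfold CFrame.kap
    rw [List.getD_eq_getElem _ _ (hlt p c k e)]
    exact hk _ (List.getElem_mem _)
  · have := ((h1 x hx).2 y hy).1.2
    simpa [hq] using this
  · have := h5 p (by cases p <;> simp) k (by cases k <;> simp) x hx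
    constructor
    · rintro ⟨a, b⟩
      simpa [a, b] using this.1
    · rintro ⟨a, b⟩
      simpa [a, b] using this.2

theorem ci_isK (p c k e : Bool) : F.isK c (F.kap p c k e) = true := by
  simp only [CFrame.isK, List.any_eq_true, decide_eq_true_eq]
  exact ⟨p, by cases p <;> simp, k, by cases k <;> simp, e, by cases e <;> simp, rfl⟩

theorem ci_col {x y : X} (h : D.E x y) : D.col x = false ∧ D.col y = true := by
  rcases h with ⟨j, h⟩ | ⟨j, e, -, h, rfl⟩ | ⟨j, e, -, h, rfl⟩ | ⟨hy, h, e, rfl⟩ | ⟨hx, h, e, rfl⟩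
  · exact (D.code j).colour _ _ h
  · exact ⟨h, D.kap_col _ _ _ _⟩
  · exact ⟨D.kap_col _ _ _ _, h⟩
  · exact ⟨by rw [(D.tk_col y hy e).1, h]; rfl, h⟩
  · exact ⟨h, by rw [(D.tk_col x hx e).1, h]; rfl⟩

theorem ci_kapB (hs : F.side = true) (j : D.J) (c k e : Bool) (j' : D.J) :
    D.kap j c k e ∉ D.B j' := by
  by_cases h : ∃ p, j = D.pl p
  · obtain ⟨p, rfl⟩ := h
    rw [D.kap_pl]
    exact D.io_B _ ((ci_side hs).2.1 p c k e) j'
  · exact D.Lk_B _ (D.kap_Lk j (fun p hp => h ⟨p, hp⟩) c k e) j'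

theorem ci_tkB {x : X} (hx : x ∈ D.Lk) (e : Bool) : ∃ j, D.tk x e ∈ D.B j := by
  obtain ⟨p, hp, -⟩ := D.tk_mem x hx
  exact ⟨_, hp e⟩

theorem ci_kapF (hs : F.side = true) {j : D.J} {c k e : Bool} {v : ℕ} (hv : v < F.n)
    (h : D.kap j c k e = D.io v) : ∃ p, j = D.pl p ∧ v = F.kap p c k e := by
  by_cases h' : ∃ p, j = D.pl p
  · obtain ⟨p, rfl⟩ := h'
    rw [D.kap_pl] at h
    have hk := (ci_side hs).2.1 p c k e
    exact ⟨p, rfl, (ci_side hs).1 _ hv _ hk ((D.hio _ hv _ hk).1 h.ge) ((D.hio _ hk _ hv).1 h.le)⟩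
  · exact absurd (h ▸ D.kap_Lk j (fun p hp => h' ⟨p, hp⟩) c k e) (D.io_Lk v hv)

/-- edges into a blue constant -/
theorem ci_into (hs : F.side = true) {j : D.J} {k e : Bool} {y : X}
    (h : D.E y (D.kap j true k e)) :
    (y ∈ D.B j ∧ D.col y = false ∧ D.knd y = k) ∨
      (D.kap j true k e ∈ D.Lk ∧ ∃ e', y = D.tk (D.kap j true k e) e') := by
  rcases h with ⟨j', h⟩ | ⟨j', e', h1, h2, h3⟩ | ⟨j', e', h, -⟩ | ⟨hy, -, h⟩ | ⟨hx, -, e', h⟩
  · exact absurd ((D.code j').mem _ _ h).2 (ci_kapB D hs _ _ _ _ _)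
  · obtain ⟨rfl, -, rfl, -⟩ := D.kap_inj _ _ _ _ _ _ _ _ h3
    exact Or.inl ⟨h1, h2, rfl⟩
  · exact absurd h (ci_kapB D hs _ _ _ _ _)
  · exact Or.inr ⟨hy, h⟩
  · obtain ⟨j', hj⟩ := ci_tkB D hx e'
    exact absurd (h ▸ hj) (ci_kapB D hs _ _ _ _ _)

/-- edges out of a red constant -/
theorem ci_outof (hs : F.side = true) {j : D.J} {k e : Bool} {y : X}
    (h : D.E (D.kap j false k e) y) :
    (y ∈ D.B j ∧ D.col y = true ∧ D.knd y = k) ∨
      (D.kap j false k e ∈ D.Lk ∧ ∃ e', y = D.tk (D.kap j false k e) e') := by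
  rcases h with ⟨j', h⟩ | ⟨j', e', h, -⟩ | ⟨j', e', h1, h2, h3⟩ | ⟨hy, -, e', h⟩ | ⟨hx, -, h⟩
  · exact absurd ((D.code j').mem _ _ h).1 (ci_kapB D hs _ _ _ _ _)
  · exact absurd h (ci_kapB D hs _ _ _ _ _)
  · obtain ⟨rfl, -, rfl, -⟩ := D.kap_inj _ _ _ _ _ _ _ _ h3
    exact Or.inl ⟨h1, h2, rfl⟩
  · obtain ⟨j', hj⟩ := ci_tkB D hy e'
    exact absurd (h ▸ hj) (ci_kapB D hs _ _ _ _ _)
  · exact Or.inr ⟨hx, h⟩

theorem ci_low (hs : F.side = true) {Q : POrd X} (hQ : D.IsOrd Q) {j : D.J} {k : Bool} {y : X}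
    (h : ∀ e, Q.le y (D.kap j true k e)) : y ∈ D.B j ∧ D.col y = false ∧ D.knd y = k := by
  have hne : ∀ e, y ≠ D.kap j true k e := by
    rintro e rfl
    rcases (hQ _ _).1 (h !e) with h | ⟨v, hv, w, hw, h1, -, h3⟩ | h
    · have := (D.kap_inj _ _ _ _ _ _ _ _ h).2.2.2
      cases e <;> simp at this
    · obtain ⟨p, -, rfl⟩ := ci_kapF D hs hv h1
      have := ((ci_side hs).2.2.1 _ hv _ hw h3).1
      rw [ci_isK] at this
      exact absurd this (by decide)
    · have := (ci_col D h).1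
      rw [D.kap_col] at this
      exact absurd this (by decide)
  have hE : ∀ e v, v < F.n → y = D.io v → ¬ D.E y (D.kap j true k e) := by
    rintro e v hv rfl h
    rcases ci_into D hs h with h | ⟨h, e', h'⟩
    · exact D.io_B v hv _ h.1
    · obtain ⟨j', hj⟩ := ci_tkB D h e'
      exact D.io_B v hv _ (h' ▸ hj)
  rcases (hQ _ _).1 (h false) with h0 | ⟨v, hv, w, hw, h1, h2, h3⟩ | h0
  · exact absurd h0 (hne _)
  · rcases (hQ _ _).1 (h true) with h0 | ⟨v', hv', w', hw', h1', h2', h3'⟩ | h0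
    · exact absurd h0 (hne _)
    · obtain ⟨p, rfl, rfl⟩ := ci_kapF D hs hw h2
      obtain ⟨p', hp, rfl⟩ := ci_kapF D hs hw' h2'
      obtain rfl := D.pl_inj hp
      have hh := h1.symm.trans h1'
      obtain rfl := (ci_side hs).1 _ hv _ hv' ((D.hio _ hv _ hv').1 hh.le)
        ((D.hio _ hv' _ hv).1 hh.ge)
      exact absurd ⟨h3, h3'⟩ ((ci_side hs).2.2.2 p k v hv).1
    · exact absurd h0 (hE _ v hv h1)
  · rcases (hQ _ _).1 (h true) with h1 | ⟨v, hv, w, hw, h1, -⟩ | h1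
    · exact absurd h1 (hne _)
    · exact absurd h0 (hE _ v hv h1)
    · rcases ci_into D hs h0 with h0 | ⟨a0, e0, b0⟩
      · exact h0
      · rcases ci_into D hs h1 with h1 | ⟨a1, e1, b1⟩
        · exact h1
        · have := (D.kap_inj _ _ _ _ _ _ _ _ (D.tk_priv _ a0 _ a1 _ _ (b0.symm.trans b1))).2.2.2
          exact absurd this (by decide)

theorem ci_high (hs : F.side = true) {Q : POrd X} (hQ : D.IsOrd Q) {j : D.J} {k : Bool} {y : X}
    (h : ∀ e, Q.le (D.kap j false k e) y) : y ∈ D.B j ∧ D.col y = true ∧ D.knd y = k := by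
  have hne : ∀ e, D.kap j false k e ≠ y := by
    rintro e rfl
    rcases (hQ _ _).1 (h !e) with h | ⟨v, hv, w, hw, -, h1, h3⟩ | h
    · have := (D.kap_inj _ _ _ _ _ _ _ _ h).2.2.2
      cases e <;> simp at this
    · obtain ⟨p, -, rfl⟩ := ci_kapF D hs hw h1
      have := ((ci_side hs).2.2.1 _ hv _ hw h3).2
      rw [ci_isK] at this
      exact absurd this (by decide)
    · have := (ci_col D h).2
      rw [D.kap_col] at this
      exact absurd this (by decide)
  have hE : ∀ e v, v < F.n → y = D.io v → ¬ D.E (D.kap j false k e) y := by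
    rintro e v hv rfl h
    rcases ci_outof D hs h with h | ⟨h, e', h'⟩
    · exact D.io_B v hv _ h.1
    · obtain ⟨j', hj⟩ := ci_tkB D h e'
      exact D.io_B v hv _ (h' ▸ hj)
  rcases (hQ _ _).1 (h false) with h0 | ⟨w, hw, v, hv, h2, h1, h3⟩ | h0
  · exact absurd h0 (hne _)
  · rcases (hQ _ _).1 (h true) with h0 | ⟨w', hw', v', hv', h2', h1', h3'⟩ | h0
    · exact absurd h0 (hne _)
    · obtain ⟨p, rfl, rfl⟩ := ci_kapF D hs hw h2
      obtain ⟨p', hp, rfl⟩ := ci_kapF D hs hw' h2'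
      obtain rfl := D.pl_inj hp
      have hh := h1.symm.trans h1'
      obtain rfl := (ci_side hs).1 _ hv _ hv' ((D.hio _ hv _ hv').1 hh.le)
        ((D.hio _ hv' _ hv).1 hh.ge)
      exact absurd ⟨h3, h3'⟩ ((ci_side hs).2.2.2 p k v hv).2
    · exact absurd h0 (hE _ v hv h1)
  · rcases (hQ _ _).1 (h true) with h1 | ⟨w, hw, v, hv, -, h1, -⟩ | h1
    · exact absurd h1 (hne _)
    · exact absurd h0 (hE _ v hv h1)
    · rcases ci_outof D hs h0 with h0 | ⟨a0, e0, b0⟩
      · exact h0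
      · rcases ci_outof D hs h1 with h1 | ⟨a1, e1, b1⟩
        · exact h1
        · have := (D.kap_inj _ _ _ _ _ _ _ _ (D.tk_priv _ a0 _ a1 _ _ (b0.symm.trans b1))).2.2.2
          exact absurd this (by decide)

theorem ci_block (hs : F.side = true) {Q : POrd X} (hQ : D.IsOrd Q) {f : X → X}
    (hf : ∀ x y, Q.le x y → Q.le (f x) (f y)) (j : D.J)
    (hk : ∀ c k e, f (D.kap j c k e) = D.kap j c k e) : ∀ x ∈ D.B j, f x = x := by
  have h1 : ∀ x ∈ D.B j, f x ∈ D.B j ∧ D.col (f x) = D.col x ∧ D.knd (f x) = D.knd x := by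
    intro x hx
    cases hc : D.col x
    · refine ci_low D hs hQ fun e => ?_
      rw [← hk]
      exact hf _ _ ((hQ _ _).2 (Or.inr (Or.inr (Or.inr (Or.inl ⟨j, e, hx, hc, rfl⟩)))))
    · refine ci_high D hs hQ fun e => ?_
      rw [← hk]
      exact hf _ _ ((hQ _ _).2 (Or.inr (Or.inr (Or.inr (Or.inr (Or.inl ⟨j, e, hx, hc, rfl⟩))))))
  refine (D.code j).rigid f h1 fun x y h => ?_
  obtain ⟨hx, hy⟩ := (D.code j).mem _ _ h
  obtain ⟨cx, cy⟩ := (D.code j).colour _ _ h
  obtain ⟨ax, bx, -⟩ := h1 x hx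
  obtain ⟨ay, by', -⟩ := h1 y hy
  rcases (hQ _ _).1 (hf _ _ ((hQ _ _).2 (Or.inr (Or.inr (Or.inl ⟨j, h⟩))))) with
    h0 | ⟨v, hv, w, -, h0, -⟩ | ⟨j', h0⟩ | ⟨j', e, -, -, h0⟩ | ⟨j', e, -, -, h0⟩ | ⟨h0, -⟩ | ⟨h0, -⟩
  · rw [h0, by', cx, cy] at bx
    exact absurd bx (by decide)
  · exact absurd (h0 ▸ ax) (D.io_B v hv j)
  · rwa [D.B_B _ _ _ ((D.code j').mem _ _ h0).1 ax] at h0
  · exact absurd (h0 ▸ ay) (ci_kapB D hs _ _ _ _ _)
  · exact absurd (h0 ▸ ax) (ci_kapB D hs _ _ _ _ _)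
  · exact absurd ay (D.Lk_B _ h0 j)
  · exact absurd ax (D.Lk_B _ h0 j)

theorem ci_link (hs : F.side = true) {Q : POrd X} (hQ : D.IsOrd Q) {x y : X} (hx : x ∈ D.Lk)
    (h : (D.col x = true ∧ ∀ e, Q.le (D.tk x e) y) ∨ (D.col x = false ∧ ∀ e, Q.le y (D.tk x e))) :
    y = x := by
  obtain ⟨p, hm, hn⟩ := D.tk_mem x hx
  have hne : ∀ e, D.tk x (!e) ≠ D.tk x e := fun e h => by
    have h1 := (D.tk_col x hx (!e)).2.1
    rw [h, (D.tk_col x hx e).2.1] at h1
    cases e <;> simp at h1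
  rcases h with ⟨hc, h⟩ | ⟨hc, h⟩
  · have hE : ∀ e, D.E (D.tk x e) y := by
      intro e
      rcases (hQ _ _).1 (h e) with h0 | ⟨v, hv, w, -, h0, -⟩ | h0
      · rcases (hQ _ _).1 (h !e) with h1 | ⟨v, hv, w, -, h1, -⟩ | h1
        · exact absurd (h1.trans h0.symm) (hne e)
        · exact absurd (h1 ▸ hm _) (D.io_B v hv _)
        · have := (ci_col D h1).2
          rw [← h0, (D.tk_col x hx e).1, hc] at this
          exact absurd this (by decide)
      · exact absurd (h0 ▸ hm _) (D.io_B v hv _)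
      · exact h0
    have hc : ∀ e, y = x ∨ D.cl (D.pl p) (D.tk x e) y ∨ ∃ e', y = D.kap (D.pl p) true e e' := by
      intro e
      rcases hE e with ⟨j, h0⟩ | ⟨j, e', h1, -, h0⟩ | ⟨j, e', -, -, h0⟩ | ⟨h0, -, e', h1⟩ | ⟨h0, -⟩
      · rw [D.B_B _ _ _ ((D.code j).mem _ _ h0).1 (hm e)] at h0
        exact Or.inr (Or.inl h0)
      · rw [D.B_B _ _ _ h1 (hm e), (D.tk_col x hx e).2.1] at h0
        exact Or.inr (Or.inr ⟨e', h0⟩)
      · exact absurd (h0 ▸ hm e) (ci_kapB D hs _ _ _ _ _)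
      · exact Or.inl (D.tk_priv _ hx _ h0 _ _ h1).symm
      · exact absurd (hm e) (D.Lk_B _ h0 _)
    rcases hc false with h0 | h0 | ⟨e0, h0⟩
    · exact h0
    · rcases hc true with h1 | h1 | ⟨e1, h1⟩
      · exact h1
      · exact absurd ⟨Or.inr h0, Or.inr h1⟩ (hn y)
      · exact absurd (h1 ▸ ((D.code _).mem _ _ h0).2) (ci_kapB D hs _ _ _ _ _)
    · rcases hc true with h1 | h1 | ⟨e1, h1⟩
      · exact h1
      · exact absurd (h0 ▸ ((D.code _).mem _ _ h1).2) (ci_kapB D hs _ _ _ _ _)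
      · exact absurd (D.kap_inj _ _ _ _ _ _ _ _ (h0.symm.trans h1)).2.2.1 (by decide)
  · have hE : ∀ e, D.E y (D.tk x e) := by
      intro e
      rcases (hQ _ _).1 (h e) with h0 | ⟨w, -, v, hv, -, h0, -⟩ | h0
      · rcases (hQ _ _).1 (h !e) with h1 | ⟨w, -, v, hv, -, h1, -⟩ | h1
        · exact absurd (h1.symm.trans h0) (hne e)
        · exact absurd (h1 ▸ hm _) (D.io_B v hv _)
        · have := (ci_col D h1).1
          rw [h0, (D.tk_col x hx e).1, hc] at this
          exact absurd this (by decide)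
      · exact absurd (h0 ▸ hm _) (D.io_B v hv _)
      · exact h0
    have hc : ∀ e, y = x ∨ D.cl (D.pl p) y (D.tk x e) ∨ ∃ e', y = D.kap (D.pl p) false e e' := by
      intro e
      rcases hE e with ⟨j, h0⟩ | ⟨j, e', -, -, h0⟩ | ⟨j, e', h1, -, h0⟩ | ⟨h0, -⟩ | ⟨h0, -, e', h1⟩
      · rw [D.B_B _ _ _ ((D.code j).mem _ _ h0).2 (hm e)] at h0
        exact Or.inr (Or.inl h0)
      · exact absurd (h0 ▸ hm e) (ci_kapB D hs _ _ _ _ _)
      · rw [D.B_B _ _ _ h1 (hm e), (D.tk_col x hx e).2.1] at h0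
        exact Or.inr (Or.inr ⟨e', h0⟩)
      · exact absurd (hm e) (D.Lk_B _ h0 _)
      · exact Or.inl (D.tk_priv _ hx _ h0 _ _ h1).symm
    rcases hc false with h0 | h0 | ⟨e0, h0⟩
    · exact h0
    · rcases hc true with h1 | h1 | ⟨e1, h1⟩
      · exact h1
      · exact absurd ⟨Or.inl h0, Or.inl h1⟩ (hn y)
      · exact absurd (h1 ▸ ((D.code _).mem _ _ h0).1) (ci_kapB D hs _ _ _ _ _)
    · rcases hc true with h1 | h1 | ⟨e1, h1⟩
      · exact h1
      · exact absurd (h0 ▸ ((D.code _).mem _ _ h1).1) (ci_kapB D hs _ _ _ _ _)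
      · exact absurd (D.kap_inj _ _ _ _ _ _ _ _ (h0.symm.trans h1)).2.2.1 (by decide)

end

theorem CData.id_of_frame {X : Type u} [PartialOrder X] {F : CFrame} (D : CData X F)
    (hs : F.side = true) (Q : POrd X) (hQ : D.IsOrd Q) (f : X → X)
    (hf : ∀ x y, Q.le x y → Q.le (f x) (f y)) (hfix : ∀ v < F.n, f (D.io v) = D.io v) :
    f = id := by
  have h1 : ∀ p, ∀ x ∈ D.B (D.pl p), f x = x := fun p =>
    ci_block D hs hQ hf _ fun c k e => by
      rw [D.kap_pl]
      exact hfix _ ((ci_side hs).2.1 p c k e)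
  have h2 : ∀ x ∈ D.Lk, f x = x := by
    intro x hx
    obtain ⟨p, hm, -⟩ := D.tk_mem x hx
    refine ci_link D hs hQ hx ?_
    cases hc : D.col x
    · refine Or.inr ⟨rfl, fun e => ?_⟩
      rw [← h1 p _ (hm e)]
      exact hf _ _ ((hQ _ _).2
        (Or.inr (Or.inr (Or.inr (Or.inr (Or.inr (Or.inr ⟨hx, hc, e, rfl⟩)))))))
    · refine Or.inl ⟨rfl, fun e => ?_⟩
      rw [← h1 p _ (hm e)]
      exact hf _ _ ((hQ _ _).2
        (Or.inr (Or.inr (Or.inr (Or.inr (Or.inr (Or.inl ⟨hx, hc, e, rfl⟩)))))))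
  funext x
  rcases D.cover x with ⟨v, hv, rfl⟩ | hx | ⟨j, hx⟩
  · exact hfix v hv
  · exact h2 x hx
  · by_cases h : ∃ p, j = D.pl p
    · obtain ⟨p, rfl⟩ := h
      exact h1 p x hx
    · exact ci_block D hs hQ hf j
        (fun c k e => h2 _ (D.kap_Lk j (fun p hp => h ⟨p, hp⟩) c k e)) x hx


end Pool.Agent.Lib.MP_04ca4f_co.Inf
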