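import Pool.Agent.Lib.MP_04ca4f_co.InfDefs

/-!
The order of the complementary construction. Facts on an edge `E x y`: `x` is red, `y` is blue,
`x` and `y` are incomparable in `P`; if `x = io v` then the edge is of the third type with a pool
`j = pl p` (a constant of another block is a link, not a frame point), so `v` is a red constant
(`isK false v`) and `y` is not in the frame; dually for `y = io w`. Red constants have no frame edge
into them and blue constants none out of them (`side`). This gives transitivity and antisymmetry.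
`io` is injective on the frame because `P` is antisymmetric there (`side`).
-/

set_option autoImplicit false

namespace Pool.Agent.Lib.MP_04ca4f_co.Inf

universe u v

theorem CFrame.co_side_facts (F : CFrame) (hs : F.side = true) :
    (∀ x < F.n, F.Q x x = false) ∧
    (∀ x < F.n, ∀ y < F.n, F.P x y = true → F.P y x = true → x = y) ∧
    (∀ x < F.n, ∀ y < F.n, F.Q x y = true → F.P x y = false ∧ F.P y x = false ∧
      F.isK true x = false ∧ F.isK false y = false) ∧
    (∀ x < F.n, ∀ y < F.n, ∀ z < F.n, F.Q x y = true → F.Q y z = true → F.Q x z = true) ∧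
    ∀ p c k e, F.kap p c k e < F.n := by
  simp only [CFrame.side, Bool.and_eq_true, List.all_eq_true, List.mem_range,
    decide_eq_true_eq] at hs
  obtain ⟨⟨⟨⟨h1, h2⟩, -⟩, h3⟩, -⟩ := hs
  refine ⟨fun x hx => by simpa using (h1 x hx).1, fun x hx y hy a b => ?_,
    fun x hx y hy a => ?_, fun x hx y hy z hz a b => ?_, fun p c k e => ?_⟩
  · simpa [a, b] using ((h1 x hx).2 y hy).1.1.1
  · have e1 := ((h1 x hx).2 y hy).1.1.2
    have e2 := ((h1 x hx).2 y hy).1.2
    simp [a] at e1 e2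
    exact ⟨e1.1, e1.2, e2.1, e2.2⟩
  · simpa [a, b] using ((h1 x hx).2 y hy).2 z hz
  · have hl : 8 * p.toNat + 4 * c.toNat + 2 * k.toNat + e.toNat < F.ks.length := by
      have := Bool.toNat_le p
      have := Bool.toNat_le c
      have := Bool.toNat_le k
      have := Bool.toNat_le e
      omega
    rw [CFrame.kap, List.getD_eq_getElem _ _ hl]
    exact h3 _ (List.getElem_mem hl)

theorem CFrame.co_isK_kap (F : CFrame) (p c k e : Bool) : F.isK c (F.kap p c k e) = true := by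
  simp only [CFrame.isK, List.any_eq_true, decide_eq_true_eq]
  exact ⟨p, by cases p <;> simp, k, by cases k <;> simp, e, by cases e <;> simp, rfl⟩

namespace CData

variable {X : Type u} [PartialOrder X] {F : CFrame} (D : CData X F)

theorem co_E_col {x y : X} (h : D.E x y) : D.col x = false ∧ D.col y = true := by
  rcases h with ⟨j, h⟩ | ⟨j, e, -, h, rfl⟩ | ⟨j, e, -, h, rfl⟩ | ⟨h1, h, e, rfl⟩ | ⟨h1, h, e, rfl⟩
  · exact (D.code j).colour x y h
  · exact ⟨h, D.kap_col _ _ _ _⟩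
  · exact ⟨D.kap_col _ _ _ _, h⟩
  · exact ⟨by rw [(D.tk_col y h1 e).1, h]; rfl, h⟩
  · exact ⟨h, by rw [(D.tk_col x h1 e).1, h]; rfl⟩

theorem co_E_inc {x y : X} (h : D.E x y) : Inc x y := by
  have hc := D.co_E_col h
  have hne : x ≠ y := fun e => by
    rw [e, hc.2] at hc
    exact absurd hc.1 (by simp)
  rcases h with ⟨j, h⟩ | ⟨j, e, h1, -, rfl⟩ | ⟨j, e, h1, -, rfl⟩ | ⟨h1, -, e, rfl⟩ | ⟨h1, -, e, rfl⟩
  · obtain ⟨a, b⟩ := (D.code j).mem x y h
    exact ⟨fun e => hne (D.anti j x a y b e), fun e => hne (D.anti j y b x a e).symm⟩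
  · exact D.kap_inc j _ _ _ x h1
  · exact (D.kap_inc j _ _ _ y h1).symm
  · exact (D.tk_col y h1 e).2.2.symm
  · exact (D.tk_col x h1 e).2.2

theorem co_io_inj (hs : F.side = true) {v w : ℕ} (hv : v < F.n) (hw : w < F.n)
    (e : D.io v = D.io w) : v = w :=
  (F.co_side_facts hs).2.1 v hv w hw ((D.hio v hv w hw).1 e.le) ((D.hio w hw v hv).1 e.ge)

theorem co_io_kap (hs : F.side = true) {v : ℕ} (hv : v < F.n) {j : D.J} {c k e : Bool}
    (h : D.io v = D.kap j c k e) : F.isK c v = true := by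
  by_cases hj : ∀ p, j ≠ D.pl p
  · exact absurd (h ▸ D.kap_Lk j hj c k e) (D.io_Lk v hv)
  · push Not at hj
    obtain ⟨p, rfl⟩ := hj
    rw [D.kap_pl] at h
    rw [D.co_io_inj hs hv ((F.co_side_facts hs).2.2.2.2 p c k e) h]
    exact F.co_isK_kap p c k e

theorem co_io_tk {v : ℕ} (hv : v < F.n) {x : X} (hx : x ∈ D.Lk) (e : Bool) : D.io v ≠ D.tk x e := by
  intro h
  obtain ⟨p, hp, -⟩ := D.tk_mem x hx
  exact D.io_B v hv _ (h ▸ hp e)

theorem co_E_left (hs : F.side = true) {v : ℕ} (hv : v < F.n) {y : X} (h : D.E (D.io v) y) :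
    F.isK false v = true ∧ ∀ w < F.n, y ≠ D.io w := by
  rcases h with ⟨j, h⟩ | ⟨j, e, h1, -, -⟩ | ⟨j, e, h1, -, h2⟩ | ⟨h1, -, e, h2⟩ | ⟨h1, -, -⟩
  · exact absurd ((D.code j).mem _ _ h).1 (D.io_B v hv j)
  · exact absurd h1 (D.io_B v hv j)
  · exact ⟨D.co_io_kap hs hv h2, fun w hw e => D.io_B w hw j (e ▸ h1)⟩
  · exact absurd h2 (D.co_io_tk hv h1 e)
  · exact absurd h1 (D.io_Lk v hv)

theorem co_E_right (hs : F.side = true) {v : ℕ} (hv : v < F.n) {x : X} (h : D.E x (D.io v)) :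
    F.isK true v = true ∧ ∀ w < F.n, x ≠ D.io w := by
  rcases h with ⟨j, h⟩ | ⟨j, e, h1, -, h2⟩ | ⟨j, e, h1, -, -⟩ | ⟨h1, -, -⟩ | ⟨h1, -, e, h2⟩
  · exact absurd ((D.code j).mem _ _ h).2 (D.io_B v hv j)
  · exact ⟨D.co_io_kap hs hv h2, fun w hw e => D.io_B w hw j (e ▸ h1)⟩
  · exact absurd h1 (D.io_B v hv j)
  · exact absurd h1 (D.io_Lk v hv)
  · exact absurd h2 (D.co_io_tk hv h1 e)

/-- The strict order. -/
def CoLt (x y : X) : Prop :=
  (∃ v < F.n, ∃ w < F.n, x = D.io v ∧ y = D.io w ∧ F.Q v w = true) ∨ D.E x y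

theorem co_lt_trans (hs : F.side = true) {x y z : X} (h : D.CoLt x y) (h' : D.CoLt y z) : D.CoLt x z := by
  obtain ⟨-, -, s3, s4, -⟩ := F.co_side_facts hs
  rcases h with ⟨v, hv, w, hw, rfl, rfl, q⟩ | h <;>
    rcases h' with ⟨v', hv', w', hw', e, rfl, q'⟩ | h'
  · obtain rfl := D.co_io_inj hs hw hv' e
    exact Or.inl ⟨v, hv, w', hw', rfl, rfl, s4 v hv w hw w' hw' q q'⟩
  · have := (D.co_E_left hs hw h').1
    rw [(s3 v hv w hw q).2.2.2] at this
    exact absurd this (by simp)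
  · subst e
    have := (D.co_E_right hs hv' h).1
    rw [(s3 v' hv' w' hw' q').2.2.1] at this
    exact absurd this (by simp)
  · have := (D.co_E_col h').1
    rw [(D.co_E_col h).2] at this
    exact absurd this (by simp)

theorem co_lt_irrefl (hs : F.side = true) {x : X} (h : D.CoLt x x) : False := by
  rcases h with ⟨v, hv, w, hw, rfl, e, q⟩ | h
  · obtain rfl := D.co_io_inj hs hv hw e
    rw [(F.co_side_facts hs).1 v hv] at q
    exact absurd q (by simp)
  · exact (D.co_E_inc h).1 le_rfl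

end CData

theorem CData.exists_order {X : Type u} [PartialOrder X] {F : CFrame} (D : CData X F)
    (hs : F.side = true) :
    ∃ Q : POrd X, D.IsOrd Q ∧ (∀ x y, Q.le x y → x ≤ y ∨ y ≤ x → x = y) ∧
      (∀ v < F.n, ∀ w < F.n, Q.le (D.io v) (D.io w) ↔ v = w ∨ F.Q v w = true) ∧
      (∀ v < F.n, ∀ y, (∀ w < F.n, y ≠ D.io w) → Q.le (D.io v) y →
        F.isK false v = true ∧ D.col y = true) ∧
      (∀ w < F.n, ∀ x, (∀ v < F.n, x ≠ D.io v) → Q.le x (D.io w) →
        F.isK true w = true ∧ D.col x = false) ∧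
      (∀ x y, (∀ v < F.n, x ≠ D.io v) → (∀ v < F.n, y ≠ D.io v) → Q.le x y →
        x = y ∨ (D.col x = false ∧ D.col y = true)) := by
  obtain ⟨-, -, s3, -, -⟩ := F.co_side_facts hs
  refine ⟨⟨fun x y => x = y ∨ D.CoLt x y, fun x => Or.inl rfl, ?_, ?_⟩, fun x y => Iff.rfl,
    ?_, ?_, ?_, ?_, ?_⟩
  · rintro x y z (rfl | h) (rfl | h')
    · exact Or.inl rfl
    · exact Or.inr h'
    · exact Or.inr h
    · exact Or.inr (D.co_lt_trans hs h h')
  · rintro x y (rfl | h) (e | h')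
    · rfl
    · rfl
    · exact e.symm
    · exact (D.co_lt_irrefl hs (D.co_lt_trans hs h h')).elim
  · rintro x y (rfl | ⟨v, hv, w, hw, rfl, rfl, q⟩ | h) hc
    · rfl
    · obtain ⟨a, b, -⟩ := s3 v hv w hw q
      rw [D.hio v hv w hw, D.hio w hw v hv, a, b] at hc
      simp at hc
    · exact (hc.elim (D.co_E_inc h).1 (D.co_E_inc h).2).elim
  · intro v hv w hw
    constructor
    · rintro (e | ⟨v', hv', w', hw', e1, e2, q⟩ | h)
      · exact Or.inl (D.co_io_inj hs hv hw e)
      · rw [D.co_io_inj hs hv hv' e1, D.co_io_inj hs hw hw' e2]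
        exact Or.inr q
      · exact absurd rfl ((D.co_E_left hs hv h).2 w hw)
    · rintro (rfl | q)
      · exact Or.inl rfl
      · exact Or.inr (Or.inl ⟨v, hv, w, hw, rfl, rfl, q⟩)
  · rintro v hv y hy (e | ⟨v', -, w', hw', -, e2, -⟩ | h)
    · exact absurd e.symm (hy v hv)
    · exact absurd e2 (hy w' hw')
    · exact ⟨(D.co_E_left hs hv h).1, (D.co_E_col h).2⟩
  · rintro w hw x hx (e | ⟨v', hv', -, -, e1, -⟩ | h)
    · exact absurd e (hx w hw)
    · exact absurd e1 (hx v' hv')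
    · exact ⟨(D.co_E_right hs hw h).1, (D.co_E_col h).1⟩
  · rintro x y hx - (e | ⟨v', hv', -, -, e1, -⟩ | h)
    · exact Or.inl e
    · exact absurd e1 (hx v' hv')
    · exact Or.inr (D.co_E_col h)


end Pool.Agent.Lib.MP_04ca4f_co.Inf
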