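import Pool.Agent.Lib.MP_04ca4f_co.InfDefs

set_option autoImplicit false

namespace Pool.Agent.Lib.MP_04ca4f_co.Inf

def uC : UFrame where
  n := 12
  PM := 22298016459688255069949211963368935222551203
  QM := 11848803393418611008353109292998294452039679
  l1 := 1
  l2 := 8
  l3 := 9
  u1 := 6
  u2 := 10
  u3 := 11
  bot := 0
  top := 7
  ord := [7, 0, 1, 3, 5, 4, 6, 2, 10, 9, 8, 11]

def uCTy : List ℕ := [3, 3, 3, 3, 3, 3, 3, 3, 3, 3, 3, 3]

def uCIx : List ℕ := [7, 9, 1, 6, 3, 10, 5, 8, 4, 11, 2, 0]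

def uM : UFrame where
  n := 15
  PM := 26986686938532065160526983839334795074921383482330773103025488199697
  QM := 28645406178985819620566868144195701876814772615379561929900241682431
  l1 := 1
  l2 := 11
  l3 := 12
  u1 := 9
  u2 := 13
  u3 := 14
  bot := 0
  top := 10
  ord := [10, 5, 4, 6, 1, 7, 0, 8, 11, 3, 14, 9, 2, 13, 12]

def uMTy : List ℕ := [1, 0, 1, 0, 2, 0, 1, 0, 1, 0, 1, 0, 0, 1, 1]

def uMIx : List ℕ := [6, 3, 4, 2, 0, 0, 3, 6, 5, 4, 0, 5, 1, 1, 2]

def uH : UFrame where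
  n := 15
  PM := 52375176740886737741541499211119655214937449043725069419812494213137
  QM := 29487904512407836900111775030866265992669148200508188366321028661247
  l1 := 2
  l2 := 11
  l3 := 12
  u1 := 8
  u2 := 13
  u3 := 14
  bot := 0
  top := 10
  ord := [4, 2, 3, 5, 6, 10, 9, 0, 1, 14, 12, 7, 8, 11, 13]

def uHTy : List ℕ := [1, 0, 1, 0, 2, 0, 1, 0, 1, 0, 1, 1, 1, 1, 0]

def uHIx : List ℕ := [2, 2, 4, 0, 0, 3, 6, 5, 0, 4, 1, 7, 5, 3, 1]

def uS : UFrame where
  n := 13
  PM := 375628936579951767421524336851960231583924152352785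
  QM := 397554146223578146440098674778866966754877708951551
  l1 := 1
  l2 := 9
  l3 := 10
  u1 := 7
  u2 := 11
  u3 := 12
  bot := 0
  top := 8
  ord := [5, 0, 4, 3, 8, 7, 6, 1, 2, 9, 12, 10, 11]

def uSTy : List ℕ := [1, 0, 1, 0, 2, 0, 1, 0, 1, 0, 1, 1, 1]

def uSIx : List ℕ := [5, 5, 7, 7, 0, 1, 1, 6, 4, 4, 2, 3, 6]

def cM : CFrame where
  n := 20
  PM := 1291125554700094681454528120150733151374004819596536383975175440605198585041763058162439397395795967508901368208715416577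
  QM := 9715920664935349132327518875916506370513412750091651660150227499147265458485229848410149985614183575245935345664
  ks := [2, 6, 9, 7, 3, 1, 8, 5, 13, 11, 18, 15, 12, 16, 19, 17]
  st := [(11, 4, [(15, 5), (18, 8), (2, 12), (6, 16), (7, 17), (9, 19), (10, 0), (11, 1), (13, 3), (14, 4)]), (4, 19, [(14, 4), (15, 5), (18, 8), (2, 12), (6, 16), (7, 17), (9, 19), (10, 0), (11, 1), (13, 3)]), (6, 10, [(10, 0), (13, 3), (18, 8), (7, 17), (9, 19), (11, 1), (14, 4), (15, 5), (2, 12), (6, 16)]), (10, 17, [(13, 3), (18, 8), (10, 0), (15, 5), (2, 12), (6, 16), (7, 17), (9, 19), (11, 1), (14, 4)])]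
  steps := [(4, 19), (11, 4), (4, 11), (14, 4), (2, 4), (7, 4), (15, 4), (19, 4), (1, 11), (1, 14), (0, 14), (5, 14), (16, 14), (14, 1), (7, 14), (17, 7), (5, 15), (5, 14), (18, 5), (10, 17), (6, 10), (10, 6), (17, 10), (9, 10), (0, 10), (3, 10), (8, 10), (12, 10), (16, 6), (7, 17), (13, 17), (0, 14), (13, 0), (9, 19), (19, 9), (12, 2), (18, 12), (14, 7), (16, 14), (19, 14), (2, 19), (15, 19), (7, 19), (9, 19), (3, 9), (8, 9), (12, 9), (2, 12), (6, 12), (13, 12), (18, 12), (10, 6), (17, 10), (0, 6), (11, 19), (3, 11), (13, 3), (8, 15), (18, 8), (15, 8), (3, 10), (11, 3), (5, 11), (4, 11), (19, 4), (9, 19), (14, 19), (1, 14), (0, 14), (5, 14), (15, 5), (8, 15), (6, 0), (7, 0), (11, 5), (1, 11), (3, 11), (17, 7), (13, 0), (13, 3), (12, 13), (16, 6), (16, 14), (18, 0), (18, 3), (12, 18), (2, 12)]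

def cH : CFrame where
  n := 20
  PM := 1291125554700094681454528120150733151374004819596536383975175440605964833908323450163044956679673867011958188339134200833
  QM := 211825590538841009111185204932792636969186508891392070542755056875266701351759674538254659183031335149024946417080205568
  ks := [6, 7, 1, 3, 2, 8, 9, 5, 18, 11, 19, 10, 12, 13, 15, 14]
  st := [(11, 16, [(16, 5), (19, 5), (19, 8), (0, 11), (0, 12), (0, 14), (1, 11), (3, 14), (4, 4), (6, 16), (7, 19), (12, 2), (19, 9), (0, 13), (0, 15), (10, 0), (17, 0), (18, 0)]), (6, 4, [(3, 15), (15, 2), (15, 5), (17, 2), (18, 2), (2, 12), (2, 13), (7, 17), (10, 0), (11, 0), (16, 0), (18, 8), (19, 0), (19, 9), (0, 14), (1, 11)]), (7, 0, [(0, 13), (0, 14), (1, 13), (10, 0), (11, 0), (13, 2), (16, 0), (16, 5), (17, 0), (18, 0), (18, 8), (19, 0), (19, 9), (0, 12), (0, 15), (3, 13), (4, 4), (6, 16)]), (16, 12, [(3, 14), (4, 4), (6, 16), (12, 2), (16, 5), (19, 2), (2, 15), (7, 19), (10, 0), (11, 0), (17,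 0), (18, 0), (18, 8), (19, 9), (0, 13), (1, 11)]), (10, 17, [(17, 2), (18, 2), (2, 13), (2, 15), (3, 13), (4, 4), (6, 17), (7, 17), (10, 0), (15, 5), (18, 8), (0, 12), (0, 14), (1, 12), (11, 0), (16, 0), (19, 0), (19, 9)]), (17, 9, [(1, 13), (1, 15), (6, 17), (7, 17), (10, 0), (13, 2), (15, 4), (15, 5), (18, 0), (18, 8), (0, 12), (0, 14), (3, 13), (11, 0), (16, 0), (19, 0)]), (0, 8, [(11, 0), (0, 12), (0, 14), (0, 16), (1, 11), (3, 14), (4, 4), (6, 16), (12, 2), (16, 5), (19, 0), (19, 9), (0, 15), (7, 19), (10, 0), (17, 0), (18, 0), (0, 13)])]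
  steps := [(0, 7), (8, 0), (0, 8), (7, 0), (1, 0), (10, 0), (11, 0), (12, 0), (13, 0), (14, 0), (15, 0), (16, 0), (17, 0), (18, 0), (19, 0), (9, 17), (12, 16), (16, 12), (11, 16), (16, 11), (14, 16), (19, 16), (2, 16), (3, 16), (4, 16), (5, 16), (6, 16), (5, 11), (1, 16), (12, 16), (1, 12), (9, 1), (3, 12), (4, 12), (6, 4), (15, 6), (4, 6), (2, 4), (10, 2), (3, 4), (17, 4), (18, 4), (12, 4), (0, 12), (8, 0), (7, 0), (13, 7), (18, 8), (19, 8), (11, 8), (14, 7), (5, 4), (2, 12), (1, 0), (9, 1), (17, 9), (10, 17), (17, 10), (13, 17), (15, 17), (18, 17), (3, 13), (9, 17), (1, 9), (5, 11), (6, 15), (7, 13), (14, 4), (16, 11), (19, 9)]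

def cS : CFrame where
  n := 24
  PM := 123665204422062557356803572788677631011309541569709136179232403901906511584503046599112808337381376233841504621777940792465865205644073564854082079000033963036044806697508865
  QM := 464288346832198628245817413968878852212675030244011435350666702394612539449884727644174639132395003263824690692591910082396672498131998934460204580229115847488045312
  ks := [11, 4, 6, 3, 9, 10, 2, 5, 20, 18, 14, 15, 23, 19, 12, 13]
  st := [(11, 1, [(1, 23), (6, 23), (20, 1), (20, 5), (20, 9), (21, 1), (21, 8), (0, 13), (0, 16), (3, 13), (4, 13), (7, 13), (8, 19), (13, 2), (13, 10), (14, 0), (15, 0), (17, 0), (18, 0), (22, 0), (1, 12)]), (7, 0, [(0, 19), (15, 0), (15, 2), (15, 8), (15, 10), (17, 0), (18, 0), (18, 5), (20, 0), (22, 0), (0, 13), (0, 16), (0, 23), (1, 12), (3, 12), (4, 12), (6, 12), (11, 12), (12, 9), (14, 0), (21, 0)]), (0, 8, [(20, 0), (0, 13), (0, 23), (3, 13), (7, 13), (8, 19), (11, 13), (13, 2), (13, 5), (13, 9),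 (13, 10), (14, 0), (14, 1), (15, 0), (17, 0), (18, 0), (21, 0), (22, 0), (0, 16), (1, 12), (4, 12), (6, 12)]), (17, 22, [(15, 5), (18, 5), (1, 12), (1, 16), (1, 19), (4, 12), (6, 12), (7, 12), (11, 12), (12, 2), (12, 8), (12, 9), (12, 10), (14, 0), (20, 0), (21, 0), (0, 13), (0, 23), (3, 12)]), (1, 9, [(21, 1), (21, 5), (1, 16), (1, 23), (4, 13), (6, 13), (11, 13), (13, 8), (14, 1), (16, 2), (17, 1), (18, 1), (20, 1), (0, 13), (0, 19), (0, 22), (1, 12), (3, 12), (7, 12), (12, 10), (15, 0)]), (22, 19, [(7, 12), (12, 2), (12, 8), (12, 10), (14, 0), (15, 0), (17, 0), (18, 0), (18, 5), (20, 0), (0, 13), (0, 16), (0, 23), (1, 12), (3, 12), (4, 12), (6, 12), (11, 12), (12, 9), (21, 0)])]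
  steps := [(0, 7), (8, 0), (0, 8), (7, 0), (13, 0), (14, 0), (15, 0), (16, 0), (17, 0), (18, 0), (19, 0), (20, 0), (21, 0), (22, 0), (23, 0), (12, 8), (3, 8), (11, 8), (20, 8), (19, 7), (22, 19), (17, 22), (5, 17), (22, 17), (12, 22), (15, 22), (18, 22), (19, 22), (1, 22), (2, 22), (4, 22), (6, 22), (9, 22), (5, 22), (3, 22), (11, 22), (10, 19), (16, 17), (7, 22), (1, 5), (6, 5), (8, 22), (20, 8), (7, 19), (2, 7), (10, 7), (14, 2), (0, 7), (8, 0), (3, 8), (11, 8), (20, 8), (13, 20), (23, 20), (1, 11), (9, 1), (21, 9), (11, 9), (23, 11), (6, 9), (14, 8), (16, 14), (2, 14), (3, 2), (13, 8), (4, 16), (1, 9), (5, 1), (17, 5), (21, 5), (6, 1), (10, 20), (9, 17), (19, 0), (4, 19), (3, 19), (10, 3), (20, 1), (12, 7), (13, 11), (15, 5), (16, 0), (16, 7), (16, 17), (4, 16), (18, 16), (14, 16), (10, 14), (12, 10), (18, 5), (21, 16), (13, 21), (23, 21), (6, 13), (6, 23), (15, 6), (15, 10)]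

theorem uC_check : uC.check = true := by decide +kernel

theorem uM_check : uM.check = true := by decide +kernel

theorem uH_check : uH.check = true := by decide +kernel

theorem uS_check : uS.check = true := by decide +kernel

theorem cM_check : cM.check = true := by decide +kernel

theorem cH_check : cH.check = true := by decide +kernel

theorem cS_check : cS.check = true := by decide +kernel

end Pool.Agent.Lib.MP_04ca4f_co.Inf
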