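import Pool.Agent.Lib.MP_04ca4f_co.InfCCore
import Pool.Agent.Lib.MP_04ca4f_co.InfCOrder
import Pool.Agent.Lib.MP_04ca4f_co.InfCId
import Pool.Agent.Lib.MP_04ca4f_co.InfCConst
import Pool.Agent.Lib.MP_04ca4f_co.InfCBuild
import Pool.Agent.Lib.MP_04ca4f_co.InfData

/-!
No far point. `perp_of_cdata` combines `exists_order`, `core_sound`, `id_of_frame`,
`const_of_frame`. `perp_of_nofar`: frames `cM` (p = 0, m = 10), `cH` (p = 1 or 3, m = 10),
`cS` (p = 2, m = 12) have `n = 2 m`, point `x < m` is `a x`, point `m + x` is `b x`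
(for p = 3 use `a (m-1-x)`, `b (m-1-x)`); by `decide +kernel` the matrix `P` is the expected one and
`kap false c k e < m`, `m ≤ kap true c k e < 2 m`. Pools: `pool false i := a (m+i)`,
`pool true i := b (m + s i)` where `s = id` for p ≠ 2 and `s` swaps `2k` and `2k+1` for p = 2.
-/

set_option autoImplicit false

namespace Pool.Agent.Lib.MP_04ca4f_co.Inf

universe u v

theorem perp_of_cdata {X : Type u} [PartialOrder X] {F : CFrame} (h : F.check = true)
    (D : CData X F) : HasPerp X := by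
  have hs : F.side = true := by
    simp only [CFrame.check, Bool.and_eq_true] at h
    exact h.1.1
  obtain ⟨Q, hQ, h1, h2, h3, h4, h5⟩ := D.exists_order hs
  refine ⟨Q, fun f hP hf => ?_⟩
  rcases F.core_sound h D.io D.hio Q D.col h1 h2 h3 h4 h5 f hP hf with h6 | ⟨c, h6⟩
  · exact Or.inl (D.id_of_frame hs Q hQ f hf h6)
  · exact Or.inr ⟨c, D.const_of_frame hs Q hQ h1 f hP hf c h6⟩

theorem infCApp_inf {S : Set ℕ} (hS : S.Infinite) (m : ℕ) {s : ℕ → ℕ}
    (hs : Function.Surjective s) : {i | m + s i ∈ S}.Infinite := by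
  intro hT
  refine hS (((Set.finite_lt_nat m).union (hT.image fun i => m + s i)).subset fun j hj => ?_)
  by_cases h : j < m
  · exact Or.inl h
  · obtain ⟨i, hi⟩ := hs (j - m)
    have e : m + s i = j := by omega
    exact Or.inr ⟨i, by rwa [Set.mem_ofPred_eq, e], e⟩

/-- The frame is a skeleton of pattern `q` and size `m`. -/
def infCAppOk (F : CFrame) (q m : ℕ) : Prop :=
  F.n = 2 * m ∧ (∀ x < m, ∀ y < m, F.P x y = decide (x = y) ∧ F.P x (m + y) = pat q x y ∧
    F.P (m + x) y = false ∧ F.P (m + x) (m + y) = decide (x = y)) ∧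
    ∀ c k e, F.kap false c k e < m ∧ m ≤ F.kap true c k e ∧ F.kap true c k e < 2 * m

theorem infCApp_cM : infCAppOk cM 0 10 := by
  unfold infCAppOk
  decide +kernel

theorem infCApp_cH : infCAppOk cH 1 10 := by
  unfold infCAppOk
  decide +kernel

theorem infCApp_cS : infCAppOk cS 2 12 := by
  unfold infCAppOk
  decide +kernel

theorem infCApp_main {X : Type u} [PartialOrder X] {p : ℕ} {a b : ℕ → X}
    (h : IsSkel p a b) (N : ℕ) (lev : X → ℕ) (hN : ∀ x, lev x < N)
    (hlev : ∀ x y, x < y → lev x < lev y)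
    (hfar : ∀ x, {i | Inc x (a i)}.Infinite ∨ {i | Inc x (b i)}.Infinite)
    (conn : ∀ S : Set X, S.Nonempty → (∀ x, ∀ y ∈ S, x ≤ y ∨ y ≤ x → x ∈ S) → ∀ x, x ∈ S)
    {F : CFrame} (hF : F.check = true) {q m : ℕ} (hO : infCAppOk F q m) (σ s : ℕ → ℕ)
    (hσ : ∀ x < m, σ x < m) (hσ' : ∀ x < m, ∀ y < m, σ x = σ y → x = y)
    (hq : ∀ x < m, ∀ y < m, pat p (σ x) (σ y) = pat q x y) (hs : Function.Involutive s)
    (hs' : ∀ i, pat p (m + i) (m + s i) = true) : HasPerp X := by
  obtain ⟨hn, hP, hK⟩ := hO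
  have hside : F.side = true := by
    simp only [CFrame.check, Bool.and_eq_true] at hF
    exact hF.1.1
  have hab : ∀ i j, a i ≠ b j := fun i j e => h.ba j i e.ge
  have hc : ∀ x < F.n, x < m ∨ ∃ y < m, x = m + y := fun x hx => by
    by_cases h1 : x < m
    · exact Or.inl h1
    · exact Or.inr ⟨x - m, by omega, by omega⟩
  obtain ⟨io, i1, i2⟩ : ∃ io : ℕ → X, (∀ x < m, io x = a (σ x)) ∧ ∀ x, io (m + x) = b (σ x) :=
    ⟨fun x => if x < m then a (σ x) else b (σ (x - m)), fun x hx => if_pos hx,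
      fun x => by simp⟩
  refine (exists_cdata F hside io ?_ (fun r i => if r then b (m + s i) else a (m + i))
    ?_ ?_ ?_ ?_ ?_ N lev hN hlev ?_ conn).elim (perp_of_cdata hF)
  · intro x hx y hy
    rcases hc x hx with h1 | ⟨x, h1, rfl⟩ <;> rcases hc y hy with h2 | ⟨y, h2, rfl⟩
    · rw [i1 x h1, i1 y h2, (hP x h1 y h2).1, decide_eq_true_iff]
      exact ⟨fun e => hσ' x h1 y h2 (h.aa _ _ e), fun e => by rw [e]⟩
    · rw [i1 x h1, i2, (hP x h1 y h2).2.1, h.ab, hq x h1 y h2]
    · rw [i1 y h2, i2, (hP x h1 y h2).2.2.1]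
      exact ⟨fun e => absurd e (h.ba _ _), fun e => absurd e Bool.false_ne_true⟩
    · rw [i2, i2, (hP x h1 y h2).2.2.2, decide_eq_true_iff]
      exact ⟨fun e => hσ' x h1 y h2 (h.bb _ _ e), fun e => by rw [e]⟩
  · intro r i j e
    cases r
    · exact Nat.add_left_cancel (h.aa _ _ e)
    · exact hs.injective (Nat.add_left_cancel (h.bb _ _ e))
  · exact fun i => (h.ab _ _).2 (hs' i)
  · exact fun i j => hab _ _
  · intro v hv r i e
    rcases hc v hv with h1 | ⟨v, h1, rfl⟩
    · rw [i1 v h1] at e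
      have := hσ v h1
      cases r
      · have := h.aa _ _ (le_of_eq e)
        omega
      · exact hab _ _ e
    · rw [i2] at e
      have := hσ v h1
      cases r
      · exact hab _ _ e.symm
      · have := h.bb _ _ (le_of_eq e)
        omega
  · intro r c k e i
    obtain ⟨k1, k2, k3⟩ := hK c k e
    cases r
    · rw [i1 _ k1]
      have := hσ _ k1
      exact ⟨fun e => by have := h.aa _ _ e; omega, fun e => by have := h.aa _ _ e; omega⟩
    · obtain ⟨v, hv⟩ := Nat.exists_eq_add_of_le k2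
      rw [hv, i2]
      have := hσ v (by omega)
      exact ⟨fun e => by have := h.bb _ _ e; omega, fun e => by have := h.bb _ _ e; omega⟩
  · intro x
    rcases hfar x with h1 | h1
    · exact ⟨false, infCApp_inf h1 m Function.surjective_id⟩
    · exact ⟨true, infCApp_inf h1 m hs.surjective⟩

theorem perp_of_nofar {X : Type u} [PartialOrder X] (p : ℕ) (hp : p < 4) (a b : ℕ → X)
    (h : IsSkel p a b) (N : ℕ) (lev : X → ℕ) (hN : ∀ x, lev x < N)
    (hlev : ∀ x y, x < y → lev x < lev y)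
    (hfar : ∀ x, {i | Inc x (a i)}.Infinite ∨ {i | Inc x (b i)}.Infinite)
    (conn : ∀ S : Set X, S.Nonempty → (∀ x, ∀ y ∈ S, x ≤ y ∨ y ≤ x → x ∈ S) → ∀ x, x ∈ S) :
    HasPerp X := by
  have hi : Function.Involutive (id : ℕ → ℕ) := fun _ => rfl
  interval_cases p
  · exact infCApp_main h N lev hN hlev hfar conn cM_check infCApp_cM id id (fun _ h => h)
      (fun _ _ _ _ h => h) (fun _ _ _ _ => rfl) hi fun i => by simp [pat]
  · exact infCApp_main h N lev hN hlev hfar conn cH_check infCApp_cH id id (fun _ h => h)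
      (fun _ _ _ _ h => h) (fun _ _ _ _ => rfl) hi fun i => by simp [pat]
  · refine infCApp_main h N lev hN hlev hfar conn cS_check infCApp_cS id
      (fun i => if i % 2 = 0 then i + 1 else i - 1) (fun _ h => h)
      (fun _ _ _ _ h => h) (fun _ _ _ _ => rfl) (fun i => ?_) fun i => ?_
    · dsimp only
      split_ifs <;> omega
    · have : i ≠ if i % 2 = 0 then i + 1 else i - 1 := by split_ifs <;> omega
      simpa [pat] using this
  · refine infCApp_main h N lev hN hlev hfar conn cH_check infCApp_cH (fun x => 9 - x) id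
      (fun _ _ => by omega) (fun _ _ _ _ _ => by omega) (fun x hx y hy => ?_) hi
      fun i => by simp [pat]
    simp only [pat, OfNat.ofNat_ne_zero, OfNat.ofNat_ne_one, Nat.reduceEqDiff, if_false, if_true,
      one_ne_zero, decide_eq_decide]
    omega


end Pool.Agent.Lib.MP_04ca4f_co.Inf
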