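import Pool.Agent.Lib.MP_04ca4f_co.InfDefs

/-!
Soundness of the check of a complementary frame. Suppose `f` is not constant on the frame.
Closure: if `f (io k) = c` for all `k ∈ K` (all `< n`) and `clo ss K = true` then `f` is constant on
the frame: for a step `(w, w')`, `f (io w) ≤ c ≤ f (io w')` in `Q` and the two images are
`P`-comparable, so equal by `hcomp`, so equal to `c`. Hence `strict x y` gives
`f (io x) ≠ f (io y)`. Let `φ x` be `v` if `f (io x) = io v` with `v < n`, otherwise `n` (red) or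
`n+1` (blue). Then `comp x y (φ x) (φ y) = true` for `x, y < n`, and the invariant
`φ x ∈ D.getD x []` (with `D.length = n`) is kept by every step of `red`. At the end `φ x = x`.
-/

set_option autoImplicit false

namespace Pool.Agent.Lib.MP_04ca4f_co.Inf

universe u v

theorem ccore_clo {X : Type u} [PartialOrder X] (F : CFrame)
    (io : ℕ → X) (hio : ∀ x < F.n, ∀ y < F.n, io x ≤ io y ↔ F.P x y = true)
    (Q : POrd X) (hcomp : ∀ x y, Q.le x y → x ≤ y ∨ y ≤ x → x = y)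
    (hF : ∀ v < F.n, ∀ w < F.n, Q.le (io v) (io w) ↔ v = w ∨ F.Q v w = true)
    (f : X → X) (hP : ∀ x y, x ≤ y → f x ≤ f y) (hQ : ∀ x y, Q.le x y → Q.le (f x) (f y)) (c : X) :
    ∀ (ss : List (ℕ × ℕ)) (K : List ℕ), (∀ k ∈ K, k < F.n ∧ f (io k) = c) → F.clo ss K = true →
      ∀ v < F.n, f (io v) = c
  | [], K, hK, h => by
    intro v hv
    simp only [CFrame.clo, List.all_eq_true, List.mem_range, List.contains_iff_mem] at h
    exact (hK v (h v hv)).2
  | s :: ss, K, hK, h => by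
    simp only [CFrame.clo, Bool.and_eq_true, decide_eq_true_eq, Bool.or_eq_true, CFrame.below,
      CFrame.above, List.any_eq_true] at h
    obtain ⟨⟨⟨⟨⟨h1, h2⟩, k, hk, h3⟩, k', hk', h4⟩, h5⟩, h6⟩ := h
    have a1 : Q.le (f (io s.1)) c := by
      rw [← (hK k hk).2]
      exact hQ _ _ ((hF _ h1 _ (hK k hk).1).2 h3)
    have a2 : Q.le c (f (io s.2)) := by
      rw [← (hK k' hk').2]
      exact hQ _ _ ((hF _ (hK k' hk').1 _ h2).2 (h4.imp Eq.symm id))
    have a3 : f (io s.1) = f (io s.2) := by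
      refine hcomp _ _ (Q.trans _ _ _ a1 a2) ?_
      rcases h5 with h5 | h5
      · exact Or.inl (hP _ _ ((hio _ h1 _ h2).2 h5))
      · exact Or.inr (hP _ _ ((hio _ h2 _ h1).2 h5))
    have a4 : f (io s.1) = c := Q.antisymm _ _ a1 (a3 ▸ a2)
    refine ccore_clo F io hio Q hcomp hF f hP hQ c ss (s.1 :: s.2 :: K) ?_ h6
    intro k hk
    simp only [List.mem_cons] at hk
    rcases hk with rfl | rfl | hk
    · exact ⟨h1, a4⟩
    · exact ⟨h2, a3 ▸ a4⟩
    · exact hK k hk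

theorem ccore_red (F : CFrame) (φ : ℕ → ℕ)
    (hφ : ∀ x < F.n, ∀ y < F.n, F.comp x y (φ x) (φ y) = true) :
    ∀ (ss : List (ℕ × ℕ)) (D : List (List ℕ)), D.length = F.n → (∀ x < F.n, φ x ∈ D.getD x []) →
      F.red ss D = true → ∀ x < F.n, φ x = x
  | [], D, _, hD, h => by
    intro x hx
    simp only [CFrame.red, List.all_eq_true, List.mem_range, decide_eq_true_eq] at h
    exact h x hx _ (hD x hx)
  | s :: ss, D, hl, hD, h => by
    simp only [CFrame.red, Bool.and_eq_true, decide_eq_true_eq] at h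
    obtain ⟨⟨h1, h2⟩, h3⟩ := h
    refine ccore_red F φ hφ ss _ (by simpa using hl) ?_ h3
    intro x hx
    by_cases e : s.1 = x
    · subst e
      rw [List.getD_eq_getElem?_getD, List.getElem?_set_self (by omega), Option.getD_some,
        List.mem_filter]
      refine ⟨hD _ h1, ?_⟩
      rw [List.any_eq_true]
      exact ⟨φ s.2, hD _ h2, hφ _ h1 _ h2⟩
    · rw [List.getD_eq_getElem?_getD, List.getElem?_set_ne e, ← List.getD_eq_getElem?_getD]
      exact hD x hx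

theorem CFrame.core_sound {X : Type u} [PartialOrder X] (F : CFrame) (h : F.check = true)
    (io : ℕ → X) (hio : ∀ x < F.n, ∀ y < F.n, io x ≤ io y ↔ F.P x y = true)
    (Q : POrd X) (col : X → Bool)
    (hcomp : ∀ x y, Q.le x y → x ≤ y ∨ y ≤ x → x = y)
    (hF : ∀ v < F.n, ∀ w < F.n, Q.le (io v) (io w) ↔ v = w ∨ F.Q v w = true)
    (hup : ∀ v < F.n, ∀ y, (∀ w < F.n, y ≠ io w) → Q.le (io v) y →
      F.isK false v = true ∧ col y = true)
    (hdn : ∀ w < F.n, ∀ x, (∀ v < F.n, x ≠ io v) → Q.le x (io w) →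
      F.isK true w = true ∧ col x = false)
    (hout : ∀ x y, (∀ v < F.n, x ≠ io v) → (∀ v < F.n, y ≠ io v) → Q.le x y →
      x = y ∨ (col x = false ∧ col y = true))
    (f : X → X) (hP : ∀ x y, x ≤ y → f x ≤ f y) (hQ : ∀ x y, Q.le x y → Q.le (f x) (f y)) :
    (∀ v < F.n, f (io v) = io v) ∨ ∃ c, ∀ v < F.n, f (io v) = c := by
  classical
  by_cases hc : ∃ c, ∀ v < F.n, f (io v) = c
  · exact Or.inr hc
  left
  simp only [CFrame.check, Bool.and_eq_true] at h
  obtain ⟨⟨-, hst⟩, hred⟩ := h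
  have hstrict : ∀ x y, F.strict x y = true → f (io x) ≠ f (io y) := by
    intro x y hs e
    simp only [CFrame.strict, List.any_eq_true, Bool.and_eq_true, decide_eq_true_eq] at hs
    obtain ⟨s, hs, rfl, rfl⟩ := hs
    have := List.all_eq_true.1 hst s hs
    simp only [Bool.and_eq_true, decide_eq_true_eq] at this
    refine hc ⟨f (io s.1), ccore_clo F io hio Q hcomp hF f hP hQ _ s.2.2 [s.1, s.2.1] ?_ this.2⟩
    intro k hk
    simp only [List.mem_cons, List.not_mem_nil, or_false] at hk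
    rcases hk with rfl | rfl
    · exact ⟨this.1.1, rfl⟩
    · exact ⟨this.1.2, e.symm⟩
  let Sy : X → ℕ → Prop := fun z v => (v < F.n ∧ z = io v) ∨
    ((∀ w < F.n, z ≠ io w) ∧ ((v = F.n ∧ col z = false) ∨ (v = F.n + 1 ∧ col z = true)))
  have hex : ∀ z, ∃ v, Sy z v := by
    intro z
    by_cases hz : ∃ v < F.n, z = io v
    · obtain ⟨v, hv, e⟩ := hz
      exact ⟨v, Or.inl ⟨hv, e⟩⟩
    · have hz' : ∀ w < F.n, z ≠ io w := fun w hw e => hz ⟨w, hw, e⟩
      cases hcol : col z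
      · exact ⟨F.n, Or.inr ⟨hz', Or.inl ⟨rfl, hcol⟩⟩⟩
      · exact ⟨F.n + 1, Or.inr ⟨hz', Or.inr ⟨rfl, hcol⟩⟩⟩
  choose ψ hψ using hex
  have hq : ∀ z z', Q.le z z' → z = z' ∨ F.qlt (ψ z) (ψ z') = true := by
    intro z z' hz
    rcases hψ z with ⟨a1, a2⟩ | ⟨a1, a2⟩ <;> rcases hψ z' with ⟨b1, b2⟩ | ⟨b1, b2⟩
    · rw [a2, b2] at hz
      rcases (hF _ a1 _ b1).1 hz with e | e
      · left; rw [a2, b2, e]
      · right; simp [CFrame.qlt, a1, b1, e]
    · right
      rw [a2] at hz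
      obtain ⟨c1, c2⟩ := hup _ a1 _ b1 hz
      rcases b2 with ⟨-, b3⟩ | ⟨b2, -⟩
      · rw [c2] at b3; cases b3
      · simp [CFrame.qlt, a1, b2, c1]
    · right
      rw [b2] at hz
      obtain ⟨c1, c2⟩ := hdn _ b1 _ a1 hz
      rcases a2 with ⟨a2, -⟩ | ⟨-, a3⟩
      · simp [CFrame.qlt, a2, b1, c1]
      · rw [c2] at a3; cases a3
    · rcases hout _ _ a1 b1 hz with e | ⟨c1, c2⟩
      · exact Or.inl e
      · right
        rcases a2 with ⟨a2, -⟩ | ⟨-, a3⟩
        · rcases b2 with ⟨-, b3⟩ | ⟨b2, -⟩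
          · rw [c2] at b3; cases b3
          · simp [CFrame.qlt, a2, b2]
        · rw [c1] at a3; cases a3
  have hp : ∀ z z', z ≤ z' → F.ple (ψ z) (ψ z') = true := by
    intro z z' hz
    rcases hψ z with ⟨a1, a2⟩ | ⟨-, a2⟩
    · rcases hψ z' with ⟨b1, b2⟩ | ⟨-, b2⟩
      · rw [a2, b2] at hz
        simp [CFrame.ple, (hio _ a1 _ b1).1 hz]
      · rcases b2 with ⟨b2, -⟩ | ⟨b2, -⟩ <;> simp [CFrame.ple, b2]
    · rcases a2 with ⟨a2, -⟩ | ⟨a2, -⟩ <;> simp [CFrame.ple, a2]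
  have hq2 : ∀ x < F.n, ∀ y < F.n, F.Q x y = true →
      (F.strict x y = true → F.qlt (ψ (f (io x))) (ψ (f (io y))) = true) ∧
      (ψ (f (io x)) = ψ (f (io y)) ∨ F.qlt (ψ (f (io x))) (ψ (f (io y))) = true) := by
    intro x hx y hy hxy
    have := hq _ _ (hQ _ _ ((hF x hx y hy).2 (Or.inr hxy)))
    exact ⟨fun hs => this.resolve_left (hstrict x y hs), this.imp (fun e => by rw [e]) id⟩
  have hφ : ∀ x < F.n, ∀ y < F.n, F.comp x y (ψ (f (io x))) (ψ (f (io y))) = true := by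
    intro x hx y hy
    unfold CFrame.comp
    split_ifs with h1 h2 h3 h4 h5 h6
    · exact (hq2 x hx y hy h1).1 h2
    · simpa using (hq2 x hx y hy h1).2
    · exact (hq2 y hy x hx h3).1 h4
    · simpa using (hq2 y hy x hx h3).2.imp Eq.symm id
    · exact hp _ _ (hP _ _ ((hio x hx y hy).2 h5))
    · exact hp _ _ (hP _ _ ((hio y hy x hx).2 h6))
    · rfl
  have hfin := ccore_red F (fun x => ψ (f (io x))) hφ F.steps _ (by simp) (fun x hx => by
    rw [List.getD_eq_getElem?_getD, List.getElem?_replicate, if_pos hx, Option.getD_some,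
      List.mem_range]
    rcases hψ (f (io x)) with ⟨a1, -⟩ | ⟨-, ⟨a1, -⟩ | ⟨a1, -⟩⟩ <;> omega) hred
  intro v hv
  have e := hfin v hv
  rcases hψ (f (io v)) with ⟨-, a2⟩ | ⟨-, ⟨a1, -⟩ | ⟨a1, -⟩⟩
  · rw [a2, e]
  · omega
  · omega


end Pool.Agent.Lib.MP_04ca4f_co.Inf
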