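import Pool.Agent.Lib.MP_04ca4f_co.InfVPH

/-!
Coding the rigid relations into a four-sorted bipartite structure.

Proof. Take `r` from `exists_rigid R`. Gadgets `G := {(j,x,y) // r j x y}`. Points
`S := R ⊕ G × Fin 9`; the point `inr (a,p)` sits at position `p+1 ∈ {1..9}` of a path of length 10
from `inl x` (position 0) to `inl y` (position 10). Colour: `inl` red; position odd blue, even red.
Kind: `inl` false; even positions true; odd position `q` has kind false iff `q ≤ 2 j + 1`.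
Edges `cl` (red to blue) are the consecutive pairs of these paths. Let `g` preserve colour, kind,
edges. `inl` points (red, false) go to `inl` points. For a gadget `a`: positions 1..9 go to `inr`
points (their colour and kind differ from (red,false)); consecutive ones go to adjacent `inr` points,
hence to the same gadget `b` at positions differing by one; position 1 (blue, false, adjacent to an
`inl` point) goes to position 1, position 9 (blue, true, adjacent to an `inl` point) to position 9;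
eight steps of size one from 1 to 9 force every position to be kept; kinds at positions 3,5,7 give
the same `j`; the end points of `b` are the images of those of `a`. So the map on `R` preserves all
`r j`, it is the identity, `b = a`, `g = id`. Tokens: with `a n := (1, t n, t (n+1))` take the red
pair `inl (t n)`, position 4 of `a n`, and the blue pair positions 3 and 7 of `a n`.
`#S = #R`; transport along an equivalence.
-/

set_option autoImplicit false

namespace Pool.Agent.Lib.MP_04ca4f_co.Inf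

universe u v

section aux

variable {R : Type u} {r : Fin 4 → R → R → Prop}

/-- Gadgets. -/
abbrev InfCodeG (r : Fin 4 → R → R → Prop) : Type u := {a : Fin 4 × R × R // r a.1 a.2.1 a.2.2}

/-- Points. -/
abbrev InfCodeS (r : Fin 4 → R → R → Prop) : Type u := R ⊕ InfCodeG r × Fin 9

/-- Colours. -/
def infCodeCol : InfCodeS r → Bool
  | .inl _ => false
  | .inr p => decide ((p.2 : ℕ) % 2 = 0)

/-- Kinds. -/
def infCodeKnd : InfCodeS r → Bool
  | .inl _ => false
  | .inr p => decide ((p.2 : ℕ) % 2 = 1 ∨ 2 * (p.1.1.1 : ℕ) < p.2)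

/-- Edges. -/
def infCodeCl : InfCodeS r → InfCodeS r → Prop
  | .inl x, .inr p => ((p.2 : ℕ) = 0 ∧ x = p.1.1.2.1) ∨ ((p.2 : ℕ) = 8 ∧ x = p.1.1.2.2)
  | .inr p, .inr q => p.1 = q.1 ∧ (p.2 : ℕ) % 2 = 1 ∧ ((q.2 : ℕ) = p.2 + 1 ∨ (p.2 : ℕ) = q.2 + 1)
  | _, .inl _ => False

theorem infCode_colour (x y : InfCodeS r) (h : infCodeCl x y) :
    infCodeCol x = false ∧ infCodeCol y = true := by
  rcases x with x | p <;> rcases y with y | q
  · exact h.elim
  · simp only [infCodeCl, infCodeCol, decide_eq_true_eq, true_and] at h ⊢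
    omega
  · exact h.elim
  · simp only [infCodeCl, infCodeCol, decide_eq_true_eq, decide_eq_false_iff_not] at h ⊢
    omega

theorem infCode_rigid (hr : ∀ g : R → R, (∀ j x y, r j x y → r j (g x) (g y)) → ∀ x, g x = x)
    (g : InfCodeS r → InfCodeS r) (hc : ∀ x, infCodeCol (g x) = infCodeCol x)
    (hk : ∀ x, infCodeKnd (g x) = infCodeKnd x)
    (he : ∀ x y, infCodeCl x y → infCodeCl (g x) (g y)) (x : InfCodeS r) : g x = x := by
  have h1 : ∀ x, ∃ x', g (.inl x) = .inl x' := by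
    intro x
    have e1 := hc (.inl x)
    have e2 := hk (.inl x)
    rcases hx : g (.inl x) with x' | p
    · exact ⟨x', rfl⟩
    · rw [hx] at e1 e2
      simp only [infCodeCol, infCodeKnd, decide_eq_false_iff_not] at e1 e2
      omega
  have h2 : ∀ a p, ∃ b q, g (.inr (a, p)) = .inr (b, q) := by
    intro a p
    have e1 := hc (.inr (a, p))
    have e2 := hk (.inr (a, p))
    rcases hx : g (.inr (a, p)) with x' | q
    · rw [hx] at e1 e2
      have e3 := e1.symm
      have e4 := e2.symm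
      simp only [infCodeCol, infCodeKnd, decide_eq_false_iff_not] at e3 e4
      omega
    · exact ⟨q.1, q.2, rfl⟩
  choose h hh using h1
  choose β π hβ using h2
  have hK : ∀ a p, ((π a p : ℕ) % 2 = 1 ∨ 2 * ((β a p).1.1 : ℕ) < π a p) ↔
      ((p : ℕ) % 2 = 1 ∨ 2 * (a.1.1 : ℕ) < p) := by
    intro a p
    have e := hk (.inr (a, p))
    rw [hβ] at e
    exact decide_eq_decide.1 e
  have hE : ∀ a (p q : Fin 9), (p : ℕ) % 2 = 1 → ((q : ℕ) = p + 1 ∨ (p : ℕ) = q + 1) →
      β a p = β a q ∧ (π a q : ℕ) ≤ π a p + 1 ∧ (π a p : ℕ) ≤ π a q + 1 := by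
    intro a p q e1 e2
    have e := he (.inr (a, p)) (.inr (a, q)) ⟨rfl, e1, e2⟩
    rw [hβ, hβ] at e
    obtain ⟨e3, -, e4⟩ := e
    dsimp only at e3 e4
    exact ⟨e3, by omega, by omega⟩
  have key : ∀ a, (∀ p, β a p = β a 0 ∧ π a p = p) ∧
      (β a 0).1 = (a.1.1, h a.1.2.1, h a.1.2.2) := by
    intro a
    have j1 := a.1.1.2
    have j2 := (β a 8).1.1.2
    have j3 := (β a 0).1.1.2
    have e0 := he (.inl a.1.2.1) (.inr (a, 0)) (Or.inl ⟨rfl, rfl⟩)
    have e8 := he (.inl a.1.2.2) (.inr (a, 8)) (Or.inr ⟨rfl, rfl⟩)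
    rw [hh, hβ] at e0 e8
    have k0 := hK a 0
    have k8 := hK a 8
    have v0 : ((0 : Fin 9) : ℕ) = 0 := rfl
    have v2 : ((2 : Fin 9) : ℕ) = 2 := rfl
    have v4 : ((4 : Fin 9) : ℕ) = 4 := rfl
    have v6 : ((6 : Fin 9) : ℕ) = 6 := rfl
    have v8 : ((8 : Fin 9) : ℕ) = 8 := rfl
    have f0 : (π a 0 : ℕ) = 0 ∧ h a.1.2.1 = (β a 0).1.2.1 :=
      Or.resolve_right e0 fun e => by
        have e' : (π a 0 : ℕ) = 8 := e.1
        omega
    have f8 : (π a 8 : ℕ) = 8 ∧ h a.1.2.2 = (β a 8).1.2.2 :=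
      Or.resolve_left e8 fun e => by
        have e' : (π a 8 : ℕ) = 0 := e.1
        omega
    obtain ⟨b1, c1, -⟩ := hE a 1 0 rfl (Or.inr rfl) |>.imp_right And.symm
    obtain ⟨b2, c2, -⟩ := hE a 1 2 rfl (Or.inl rfl)
    obtain ⟨b3, -, c3⟩ := hE a 3 2 rfl (Or.inr rfl)
    obtain ⟨b4, c4, -⟩ := hE a 3 4 rfl (Or.inl rfl)
    obtain ⟨b5, -, c5⟩ := hE a 5 4 rfl (Or.inr rfl)
    obtain ⟨b6, c6, -⟩ := hE a 5 6 rfl (Or.inl rfl)
    obtain ⟨b7, -, c7⟩ := hE a 7 6 rfl (Or.inr rfl)
    obtain ⟨b8, c8, -⟩ := hE a 7 8 rfl (Or.inl rfl)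
    have d2 : β a 2 = β a 0 := b2.symm.trans b1
    have d3 : β a 3 = β a 0 := b3.trans d2
    have d4 : β a 4 = β a 0 := b4.symm.trans d3
    have d5 : β a 5 = β a 0 := b5.trans d4
    have d6 : β a 6 = β a 0 := b6.symm.trans d5
    have d7 : β a 7 = β a 0 := b7.trans d6
    have d8 : β a 8 = β a 0 := b8.symm.trans d7
    have p0 := f0.1
    have p8 := f8.1
    have p1 : (π a 1 : ℕ) = 1 := by omega
    have p2 : (π a 2 : ℕ) = 2 := by omega
    have p3 : (π a 3 : ℕ) = 3 := by omega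
    have p4 : (π a 4 : ℕ) = 4 := by omega
    have p5 : (π a 5 : ℕ) = 5 := by omega
    have p6 : (π a 6 : ℕ) = 6 := by omega
    have p7 : (π a 7 : ℕ) = 7 := by omega
    refine ⟨fun p => ?_, Prod.ext (Fin.ext ?_) (Prod.ext f0.2.symm (d8 ▸ f8.2.symm))⟩
    · fin_cases p
      exacts [⟨rfl, Fin.ext p0⟩, ⟨b1, Fin.ext p1⟩, ⟨d2, Fin.ext p2⟩, ⟨d3, Fin.ext p3⟩,
        ⟨d4, Fin.ext p4⟩, ⟨d5, Fin.ext p5⟩, ⟨d6, Fin.ext p6⟩, ⟨d7, Fin.ext p7⟩, ⟨d8, Fin.ext p8⟩]
    · have k2 := hK a 2
      have k4 := hK a 4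
      have k6 := hK a 6
      rw [d2] at k2
      rw [d4] at k4
      rw [d6] at k6
      dsimp only
      omega
  have hid : ∀ x, h x = x := hr h fun j x y hxy => by
    have e := (β ⟨(j, x, y), hxy⟩ 0).2
    rw [(key ⟨(j, x, y), hxy⟩).2] at e
    exact e
  rcases x with x | ⟨a, p⟩
  · rw [hh, hid]
  · have e : β a 0 = a := Subtype.ext (by rw [(key a).2, hid, hid])
    rw [hβ, ((key a).1 p).1, ((key a).1 p).2, e]

theorem infCode_equiv [Infinite R] : Nonempty (R ≃ InfCodeS r) := by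
  rw [← Cardinal.eq]
  refine le_antisymm (Cardinal.mk_le_of_injective Sum.inl_injective) ?_
  have h0 := Cardinal.aleph0_le_mk R
  have h1 : Cardinal.mk (InfCodeG r × Fin 9) ≤ Cardinal.mk ((R × R × R) × R) := by
    refine Cardinal.mk_le_of_injective (f := fun p => ((Infinite.natEmbedding R p.1.1.1,
      p.1.1.2), Infinite.natEmbedding R p.2)) ?_
    intro p q e
    obtain ⟨e1, e2⟩ := Prod.mk.inj e
    obtain ⟨e3, e4⟩ := Prod.mk.inj e1
    exact Prod.ext (Subtype.ext (Prod.ext (Fin.ext ((Infinite.natEmbedding R).injective e3)) e4))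
      (Fin.ext ((Infinite.natEmbedding R).injective e2))
  simp only [Cardinal.mk_prod, Cardinal.lift_id, Cardinal.mul_eq_self h0] at h1
  rw [Cardinal.mk_sum, Cardinal.lift_id, Cardinal.lift_id]
  refine Cardinal.add_le_of_le h0 le_rfl ?_
  simpa only [Cardinal.mk_prod] using h1

/-- Tokens. -/
def infCodeTok (t : ℕ → R) (ht : ∀ n, r 1 (t n) (t (n + 1))) (n : ℕ) : Bool → Bool → InfCodeS r
  | false, false => .inl (t n)
  | false, true => .inr (⟨(1, t n, t (n + 1)), ht n⟩, 3)
  | true, false => .inr (⟨(1, t n, t (n + 1)), ht n⟩, 2)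
  | true, true => .inr (⟨(1, t n, t (n + 1)), ht n⟩, 6)

theorem infCode_tok_inj {t : ℕ → R} (hi : Function.Injective t)
    (ht : ∀ n, r 1 (t n) (t (n + 1))) (n : ℕ) (c e : Bool) (n' : ℕ) (c' e' : Bool)
    (h : infCodeTok t ht n c e = infCodeTok t ht n' c' e') : n = n' ∧ c = c' ∧ e = e' := by
  cases c <;> cases e <;> cases c' <;> cases e' <;>
    simp [infCodeTok, hi.eq_iff] at h ⊢ <;> exact h

theorem infCode_tok {t : ℕ → R} (ht : ∀ n, r 1 (t n) (t (n + 1))) (n : ℕ) (c : Bool) :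
    (∀ e, infCodeCol (infCodeTok t ht n c e) = c ∧ infCodeKnd (infCodeTok t ht n c e) = e) ∧
      NoCommon infCodeCl (infCodeTok t ht n c false) (infCodeTok t ht n c true) := by
  have v2 : ((2 : Fin 9) : ℕ) = 2 := rfl
  have v3 : ((3 : Fin 9) : ℕ) = 3 := rfl
  have v6 : ((6 : Fin 9) : ℕ) = 6 := rfl
  refine ⟨fun e => ?_, fun w => ?_⟩
  · cases c <;> cases e <;> simp [infCodeTok, infCodeCol, infCodeKnd]
  · cases c <;> rcases w with w | p <;> simp only [infCodeTok, infCodeCl] <;> intro h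
    · simp at h
    · obtain ⟨h1, h2⟩ := h
      rcases h1 with h1 | ⟨h1, -⟩ | ⟨h1, -⟩
      · exact h1
      · omega
      · omega
    · simp at h
    · omega

end aux

theorem exists_code_univ (R : Type u) [Infinite R] :
    ∃ (col knd : R → Bool) (cl : R → R → Prop), IsCode Set.univ col knd cl ∧
      ∃ t : ℕ → Bool → Bool → R,
        (∀ n c e n' c' e', t n c e = t n' c' e' → n = n' ∧ c = c' ∧ e = e') ∧
        ∀ n c, (∀ e, col (t n c e) = c ∧ knd (t n c e) = e) ∧
          NoCommon cl (t n c false) (t n c true) := by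
  obtain ⟨r, hr, t, hi, ht⟩ := exists_rigid R
  obtain ⟨e⟩ := infCode_equiv (r := r)
  refine ⟨fun x => infCodeCol (e x), fun x => infCodeKnd (e x), fun x y => infCodeCl (e x) (e y),
    ⟨fun _ _ _ => ⟨trivial, trivial⟩, fun x y => infCode_colour _ _, fun g h1 h2 x _ => ?_⟩,
    fun n c k => e.symm (infCodeTok t ht n c k),
    fun n c k n' c' k' h => infCode_tok_inj hi ht n c k n' c' k' (e.symm.injective h),
    fun n c => ?_⟩
  · have h := infCode_rigid hr (fun s => e (g (e.symm s)))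
      (fun s => by simpa using (h1 (e.symm s) trivial).2.1)
      (fun s => by simpa using (h1 (e.symm s) trivial).2.2)
      (fun s s' h => h2 _ _ (by simpa using h)) (e x)
    simpa using h
  · simp only [Equiv.apply_symm_apply, NoCommon]
    exact ⟨(infCode_tok ht n c).1, fun w => (infCode_tok ht n c).2 (e w)⟩


end Pool.Agent.Lib.MP_04ca4f_co.Inf
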