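import Mathlib

/-!
Infinite prime orders have a perpendicular: basic definitions.
-/

set_option autoImplicit false

namespace Pool.Agent.Lib.MP_04ca4f_co.Inf

universe u

/-- A second partial order on `X` (not a class, so that `≤` always means the given order). -/
structure POrd (X : Type u) where
  le : X → X → Prop
  refl : ∀ x, le x x
  trans : ∀ x y z, le x y → le y z → le x z
  antisymm : ∀ x y, le x y → le y x → x = y

/-- The order on `X` has a perpendicular. -/
def HasPerp (X : Type u) [PartialOrder X] : Prop :=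
  ∃ Q : POrd X, ∀ f : X → X, (∀ x y, x ≤ y → f x ≤ f y) →
    (∀ x y, Q.le x y → Q.le (f x) (f y)) → f = id ∨ ∃ c, ∀ x, f x = c

/-- No nontrivial autonomous set. -/
def IsPrime (X : Type u) [PartialOrder X] : Prop :=
  ¬ ∃ A : Set X, A ≠ Set.univ ∧ A.Nontrivial ∧ ∀ x ∉ A,
    ((∃ a ∈ A, x < a) → ∀ a ∈ A, x < a) ∧ ((∃ a ∈ A, a < x) → ∀ a ∈ A, a < x)

/-- Incomparable points. -/
def Inc {X : Type u} [PartialOrder X] (x y : X) : Prop := ¬ x ≤ y ∧ ¬ y ≤ x

/-- A rigid four-sorted bipartite structure on the set `B`: colours `col` (false = red = lower,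
true = blue = upper), kinds `knd`, edges `cl` from red to blue points of `B`. -/
structure IsCode {X : Type u} (B : Set X) (col knd : X → Bool) (cl : X → X → Prop) : Prop where
  mem : ∀ x y, cl x y → x ∈ B ∧ y ∈ B
  colour : ∀ x y, cl x y → col x = false ∧ col y = true
  rigid : ∀ g : X → X, (∀ x ∈ B, g x ∈ B ∧ col (g x) = col x ∧ knd (g x) = knd x) →
    (∀ x y, cl x y → cl (g x) (g y)) → ∀ x ∈ B, g x = x

/-- `x` and `y` have no common neighbour for `cl`. -/
def NoCommon {X : Type u} (cl : X → X → Prop) (x y : X) : Prop :=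
  ∀ w, ¬ ((cl w x ∨ cl x w) ∧ (cl w y ∨ cl y w))

/-- The four patterns: 0 matching, 1 half graph, 2 co-matching, 3 reversed half graph. -/
def pat (p i j : ℕ) : Bool :=
  if p = 0 then decide (i = j) else if p = 1 then decide (i ≤ j) else
    if p = 2 then decide (i ≠ j) else decide (j ≤ i)

/-- Two antichains `a i`, `b j` (indices below `m`) related by the pattern `p`. -/
structure IsSkelTo {X : Type u} [PartialOrder X] (p m : ℕ) (a b : ℕ → X) : Prop where
  aa : ∀ i < m, ∀ j < m, a i ≤ a j → i = j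
  bb : ∀ i < m, ∀ j < m, b i ≤ b j → i = j
  ba : ∀ i < m, ∀ j < m, ¬ b i ≤ a j
  ab : ∀ i < m, ∀ j < m, a i ≤ b j ↔ pat p i j = true

/-- Two infinite antichains related by the pattern `p`. -/
structure IsSkel {X : Type u} [PartialOrder X] (p : ℕ) (a b : ℕ → X) : Prop where
  aa : ∀ i j, a i ≤ a j → i = j
  bb : ∀ i j, b i ≤ b j → i = j
  ba : ∀ i j, ¬ b i ≤ a j
  ab : ∀ i j, a i ≤ b j ↔ pat p i j = true

/-! ### Frames with a free remainder -/

/-- A finite frame: points `0..n-1`, bit matrices of two reflexive orders, six markers,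
bottom and top of the second order, and a search order. -/
structure UFrame where
  n : ℕ
  PM : ℕ
  QM : ℕ
  l1 : ℕ
  l2 : ℕ
  l3 : ℕ
  u1 : ℕ
  u2 : ℕ
  u3 : ℕ
  bot : ℕ
  top : ℕ
  ord : List ℕ

namespace UFrame

variable (F : UFrame)

def P (x y : ℕ) : Bool := F.PM.testBit (x * F.n + y)

def Q (x y : ℕ) : Bool := F.QM.testBit (x * F.n + y)

def low (x : ℕ) : Bool := F.Q x F.l1 || F.Q x F.l2 || F.Q x F.l3

def up (x : ℕ) : Bool := F.Q F.u1 x || F.Q F.u2 x || F.Q F.u3 x

/-- possible `Q`-comparison of symbols; `n` is a red outer point, `n+1` a blue outer point -/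
def qle (v w : ℕ) : Bool :=
  if v < F.n then (if w < F.n then F.Q v w else F.low v)
  else (if w < F.n then F.up w else decide (v ≤ w))

def binOk (x v y w : ℕ) : Bool :=
  (!F.Q x y || F.qle v w) && (!F.Q y x || F.qle w v) &&
    (!(decide (v < F.n) && decide (w < F.n)) || ((!F.P x y || F.P v w) && (!F.P y x || F.P w v)))

def cmp (x y : ℕ) : Bool := F.Q x y || F.Q y x

def endOk (k : ℕ) (r s : ℕ × ℕ) : Bool :=
  if r.2 < F.n then (if s.2 < F.n then (decide (r.2 ≠ s.2) && F.P r.2 s.2) else true)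
  else (decide (r.2 ≠ s.2) || decide (r.2 = k) || !F.cmp r.1 s.1)

def outOk (A : List (ℕ × ℕ)) : Bool :=
  A.all fun p => decide (p.2 < F.n) || A.all fun q =>
    !(decide (p.2 = q.2) && F.cmp p.1 q.1) || A.all fun r =>
      !F.P r.1 p.1 || A.all fun s => !F.P q.1 s.1 || F.endOk p.2 r s

def acc (A : List (ℕ × ℕ)) : Bool :=
  A.any fun p => decide (p.1 = F.bot) && A.any fun q => decide (q.1 = F.top) && decide (p.2 = q.2)

def dfs : List ℕ → List (ℕ × ℕ) → Bool
  | [], A => A.all fun p => decide (p.1 = p.2)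
  | x :: xs, A => (List.range (F.n + 2)).all fun v =>
      !(A.all fun p => F.binOk x v p.1 p.2) || !F.outOk ((x, v) :: A) || F.acc ((x, v) :: A) ||
        dfs xs ((x, v) :: A)

/-- the finite side conditions on a frame -/
def side : Bool :=
  decide (F.l1 < F.n ∧ F.l2 < F.n ∧ F.l3 < F.n ∧ F.u1 < F.n ∧ F.u2 < F.n ∧ F.u3 < F.n ∧
    F.bot < F.n ∧ F.top < F.n) &&
  ((List.range F.n).all fun x => F.ord.contains x && F.Q x x && F.Q F.bot x && F.Q x F.top &&
    !(F.up x && F.low x) &&
    !(F.Q F.l1 x && (F.Q F.l2 x || F.Q F.l3 x) && F.Q x F.u1 && F.Q x F.u2 && F.Q x F.u3) &&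
    !(F.Q F.l1 x && F.Q F.l2 x && F.Q F.l3 x && F.Q x F.u1 && (F.Q x F.u2 || F.Q x F.u3)) &&
    (List.range F.n).all fun y => (!(F.Q x y && F.Q y x) || decide (x = y)) &&
      (!(F.P x y && F.P y x) || decide (x = y)) && (!(F.low x && F.up y) || F.Q x y) &&
      (List.range F.n).all fun z => !(F.Q x y && F.Q y z) || F.Q x z) &&
  (F.ord.all fun x => decide (x < F.n)) &&
  !F.Q F.l2 F.l1 && !F.Q F.l2 F.l3 && !F.Q F.l3 F.l1 && !F.Q F.l3 F.l2 &&
  !F.Q F.u1 F.u2 && !F.Q F.u3 F.u2 && !F.Q F.u1 F.u3 && !F.Q F.u2 F.u3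

def check : Bool := F.side && F.dfs F.ord []

/-- frame point `v` lies below an outer point of colour `c` and kind `k` -/
def attL (v : ℕ) (c k : Bool) : Bool :=
  F.Q v F.l1 || (F.Q v F.l2 && (c || !k)) || (F.Q v F.l3 && (c || k))

/-- frame point `w` lies above an outer point of colour `c` and kind `k` -/
def attU (c k : Bool) (w : ℕ) : Bool :=
  F.Q F.u1 w || (F.Q F.u2 w && (!c || !k)) || (F.Q F.u3 w && (!c || k))

end UFrame

/-! ### Frames for the complementary construction -/

/-- A finite frame: bit matrix of a reflexive order `P`, bit matrix of a strict order `Q`,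
sixteen constants (list index `8 p + 4 c + 2 k + e`), edges that cannot collapse with their
closure certificates, and the steps of the domain reduction. -/
structure CFrame where
  n : ℕ
  PM : ℕ
  QM : ℕ
  ks : List ℕ
  st : List (ℕ × ℕ × List (ℕ × ℕ))
  steps : List (ℕ × ℕ)

namespace CFrame

variable (F : CFrame)

def P (x y : ℕ) : Bool := F.PM.testBit (x * F.n + y)

def Q (x y : ℕ) : Bool := F.QM.testBit (x * F.n + y)

/-- the constant of pool `p`, colour `c`, kind `k`, number `e` -/
def kap (p c k e : Bool) : ℕ :=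
  F.ks.getD (8 * p.toNat + 4 * c.toNat + 2 * k.toNat + e.toNat) 0

/-- `x` is a constant of colour `c` -/
def isK (c : Bool) (x : ℕ) : Bool :=
  [false, true].any fun p => [false, true].any fun k => [false, true].any fun e =>
    decide (F.kap p c k e = x)

def below (K : List ℕ) (w : ℕ) : Bool := K.any fun k => decide (w = k) || F.Q w k

def above (K : List ℕ) (w : ℕ) : Bool := K.any fun k => decide (w = k) || F.Q k w

/-- run a closure certificate -/
def clo : List (ℕ × ℕ) → List ℕ → Bool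
  | [], K => (List.range F.n).all fun x => K.contains x
  | s :: ss, K => decide (s.1 < F.n) && decide (s.2 < F.n) && F.below K s.1 && F.above K s.2 &&
      (F.P s.1 s.2 || F.P s.2 s.1) && clo ss (s.1 :: s.2 :: K)

def strict (x y : ℕ) : Bool := F.st.any fun s => decide (s.1 = x) && decide (s.2.1 = y)

/-- possible strict `Q`-comparison of symbols; `n` is a red outer point, `n+1` a blue one -/
def qlt (v w : ℕ) : Bool :=
  if v < F.n then (if w < F.n then F.Q v w else decide (w = F.n + 1) && F.isK false v)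
  else (decide (v = F.n) && (if w < F.n then F.isK true w else decide (w = F.n + 1)))

def ple (v w : ℕ) : Bool := !(decide (v < F.n) && decide (w < F.n)) || F.P v w

def comp (x y : ℕ) : ℕ → ℕ → Bool :=
  if F.Q x y then (if F.strict x y then F.qlt else fun v w => decide (v = w) || F.qlt v w)
  else if F.Q y x then
    (if F.strict y x then fun v w => F.qlt w v else fun v w => decide (v = w) || F.qlt w v)
  else if F.P x y then F.ple else if F.P y x then fun v w => F.ple w v else fun _ _ => true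

/-- run the domain reduction -/
def red : List (ℕ × ℕ) → List (List ℕ) → Bool
  | [], D => (List.range F.n).all fun x => (D.getD x []).all fun v => decide (v = x)
  | s :: ss, D => decide (s.1 < F.n) && decide (s.2 < F.n) &&
      red ss (D.set s.1 ((D.getD s.1 []).filter fun v =>
        (D.getD s.2 []).any fun w => F.comp s.1 s.2 v w))

/-- the finite side conditions on a frame -/
def side : Bool :=
  ((List.range F.n).all fun x => !F.Q x x && (List.range F.n).all fun y =>
    (!(F.P x y && F.P y x) || decide (x = y)) && !(F.Q x y && (F.P x y || F.P y x)) &&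
    !(F.Q x y && (F.isK true x || F.isK false y)) &&
      (List.range F.n).all fun z => !(F.Q x y && F.Q y z) || F.Q x z) &&
  decide (F.ks.length = 16) && decide F.ks.Nodup && (F.ks.all fun x => decide (x < F.n)) &&
  ([false, true].all fun p => [false, true].all fun k => (List.range F.n).all fun x =>
    !(F.Q x (F.kap p true k false) && F.Q x (F.kap p true k true)) &&
    !(F.Q (F.kap p false k false) x && F.Q (F.kap p false k true) x))

def check : Bool :=
  F.side && (F.st.all fun s => decide (s.1 < F.n) && decide (s.2.1 < F.n) &&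
    F.clo s.2.2 [s.1, s.2.1]) &&
  F.red F.steps (List.replicate F.n (List.range (F.n + 2)))

end CFrame

/-- All data of the complementary construction around a frame `F`. -/
structure CData (X : Type u) [PartialOrder X] (F : CFrame) where
  /-- the frame -/
  io : ℕ → X
  /-- index set of the coded blocks; `pl false`, `pl true` are the two pools -/
  J : Type
  pl : Bool → J
  B : J → Set X
  Lk : Set X
  col : X → Bool
  knd : X → Bool
  cl : J → X → X → Prop
  kap : J → Bool → Bool → Bool → X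
  tk : X → Bool → X
  hio : ∀ x < F.n, ∀ y < F.n, io x ≤ io y ↔ F.P x y = true
  pl_inj : Function.Injective pl
  cover : ∀ x, (∃ v < F.n, x = io v) ∨ x ∈ Lk ∨ ∃ j, x ∈ B j
  io_Lk : ∀ v < F.n, io v ∉ Lk
  io_B : ∀ v < F.n, ∀ j, io v ∉ B j
  Lk_B : ∀ x ∈ Lk, ∀ j, x ∉ B j
  B_B : ∀ x j j', x ∈ B j → x ∈ B j' → j = j'
  code : ∀ j, IsCode (B j) col knd (cl j)
  anti : ∀ j, ∀ x ∈ B j, ∀ y ∈ B j, x ≤ y → x = y
  kap_inc : ∀ j c k e, ∀ x ∈ B j, Inc x (kap j c k e)
  kap_col : ∀ j c k e, col (kap j c k e) = c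
  kap_pl : ∀ p c k e, kap (pl p) c k e = io (F.kap p c k e)
  kap_Lk : ∀ j, (∀ p, j ≠ pl p) → ∀ c k e, kap j c k e ∈ Lk
  kap_inj : ∀ j c k e j' c' k' e', kap j c k e = kap j' c' k' e' →
    j = j' ∧ c = c' ∧ k = k' ∧ e = e'
  tk_mem : ∀ x ∈ Lk, ∃ p, (∀ e, tk x e ∈ B (pl p)) ∧ NoCommon (cl (pl p)) (tk x false) (tk x true)
  tk_col : ∀ x ∈ Lk, ∀ e, col (tk x e) = !col x ∧ knd (tk x e) = e ∧ Inc x (tk x e)
  tk_priv : ∀ x ∈ Lk, ∀ y ∈ Lk, ∀ e e', tk x e = tk y e' → x = y
  partner : ∀ p, ∀ x ∈ B (pl p), ∃ p', ∃ y ∈ B (pl p'), (x ≤ y ∨ y ≤ x) ∧ col y = !col x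
  reach : ∀ S : Set X, (∀ v < F.n, io v ∈ S) → (∀ p, B (pl p) ⊆ S) →
    (∀ x ∈ Lk, ∀ y ∈ S, x ≤ y ∨ y ≤ x → x ∈ S) → Lk ⊆ S
  conn : ∀ S : Set X, S.Nonempty → (∀ x, ∀ y ∈ S, x ≤ y ∨ y ≤ x → x ∈ S) → ∀ x, x ∈ S

/-- The edges of the complementary order outside the frame (from red to blue points). -/
def CData.E {X : Type u} [PartialOrder X] {F : CFrame} (D : CData X F) (x y : X) : Prop :=
  (∃ j, D.cl j x y) ∨
  (∃ j e, x ∈ D.B j ∧ D.col x = false ∧ y = D.kap j true (D.knd x) e) ∨
  (∃ j e, y ∈ D.B j ∧ D.col y = true ∧ x = D.kap j false (D.knd y) e) ∨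
  (y ∈ D.Lk ∧ D.col y = true ∧ ∃ e, x = D.tk y e) ∨
  (x ∈ D.Lk ∧ D.col x = false ∧ ∃ e, y = D.tk x e)

/-- `Q` is the order generated by the frame edges and the edges `E`. -/
def CData.IsOrd {X : Type u} [PartialOrder X] {F : CFrame} (D : CData X F)
    (Q : POrd X) : Prop :=
  ∀ x y, Q.le x y ↔ x = y ∨ (∃ v < F.n, ∃ w < F.n, x = D.io v ∧ y = D.io w ∧ F.Q v w = true) ∨
    D.E x y

end Pool.Agent.Lib.MP_04ca4f_co.Inf
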