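import Pool.Agent.Lib.MP_04ca4f_co.InfDefs

/-!
`exists_levels`: let `lev x` be the largest `k ≤ 11` with a chain `c 0 < ... < c k = x`
(`Nat.findGreatest`); without a chain of 12 points `lev x < 11` and `lev` is strictly monotone.
`exists_family`: let `U` be a nonprincipal ultrafilter on `ℕ` (`Filter.hyperfilter`), `L` the set of
`y` lying in `T i` for `U`-most `i`. Choose inductively `i 0 < i 1 < ...` with `T (i k) ≠ L`, points
`y k` in the symmetric difference of `T (i k)` and `L`, and `i k` such that `T (i k)` agrees with `L`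
on `y 0 .. y (k-1)`. Pigeonhole on whether `y k ∈ L` gives `s`; the infinite Ramsey theorem for
pairs (prove it with the same ultrafilter) applied to `y l ∈ T (i k)`, `k < l`, gives `t`.
-/

set_option autoImplicit false

namespace Pool.Agent.Lib.MP_04ca4f_co.Inf

universe u v

theorem exists_levels (X : Type u) [PartialOrder X] :
    (∃ c : ℕ → X, ∀ i j, i < j → j < 12 → c i < c j) ∨
      ∃ lev : X → ℕ, (∀ x, lev x < 12) ∧ ∀ x y, x < y → lev x < lev y := by
  classical
  by_cases h : ∃ c : ℕ → X, ∀ i j, i < j → j < 12 → c i < c j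
  · exact Or.inl h
  right
  let Ch : X → ℕ → Prop := fun x k =>
    ∃ c : ℕ → X, (∀ i j, i < j → j ≤ k → c i < c j) ∧ c k = x
  have h0 : ∀ x, Ch x 0 := fun x => ⟨fun _ => x, fun i j hij hj => by omega, rfl⟩
  refine ⟨fun x => Nat.findGreatest (Ch x) 11, fun x => ?_, fun x y hxy => ?_⟩
  · have := Nat.findGreatest_le (P := Ch x) 11
    show Nat.findGreatest (Ch x) 11 < 12
    omega
  · show Nat.findGreatest (Ch x) 11 < Nat.findGreatest (Ch y) 11
    have hle := Nat.findGreatest_le (P := Ch x) 11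
    have hs : Ch x (Nat.findGreatest (Ch x) 11) :=
      Nat.findGreatest_spec (P := Ch x) (Nat.zero_le 11) (h0 x)
    generalize Nat.findGreatest (Ch x) 11 = k at hle hs ⊢
    obtain ⟨c, hc, hk⟩ := hs
    have hk11 : k ≠ 11 := by
      rintro rfl
      exact h ⟨c, fun i j hij hj => hc i j hij (by omega)⟩
    have hy : Ch y (k + 1) := by
      refine ⟨fun i => if i ≤ k then c i else y, fun i j hij hj => ?_, by simp⟩
      have hi : i ≤ k := by omega
      by_cases hjk : j ≤ k
      · simp only [hi, hjk, if_true]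
        exact hc i j hij hjk
      · simp only [hi, hjk, if_true, if_false]
        rcases hi.lt_or_eq with hlt | heq
        · exact (hc i k hlt le_rfl).trans (hk ▸ hxy)
        · rw [heq, hk]; exact hxy
    have := Nat.le_findGreatest (P := Ch y) (show k + 1 ≤ 11 by omega) hy
    omega

/-- a two-valued function is constant on a set of the ultrafilter -/
theorem exists_bool_eventually (U : Ultrafilter ℕ) (p : ℕ → Prop) :
    ∃ s : Bool, ∀ᶠ k in (U : Filter ℕ), (p k ↔ s = true) := by
  by_cases h : ∀ᶠ k in (U : Filter ℕ), p k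
  · exact ⟨true, h.mono fun k hk => by simp [hk]⟩
  · exact ⟨false, (Ultrafilter.eventually_not.2 h).mono fun k hk => by simp [hk]⟩

theorem exists_family {Y : Type u} (T : ℕ → Set Y) (hT : Function.Injective T) :
    ∃ (φ : ℕ → ℕ) (y : ℕ → Y) (s t : Bool), Function.Injective φ ∧
      (∀ i, y i ∈ T (φ i) ↔ s = false) ∧
      ∀ i j, i < j → (y i ∈ T (φ j) ↔ s = true) ∧ (y j ∈ T (φ i) ↔ t = true) := by
  classical
  let U : Ultrafilter ℕ := Filter.hyperfilter ℕ
  have hgt : ∀ n : ℕ, ∀ᶠ k in (U : Filter ℕ), n < k := fun n =>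
    Nat.hyperfilter_le_atTop (Filter.eventually_gt_atTop n)
  let L : Set Y := {y | ∀ᶠ i in (U : Filter ℕ), y ∈ T i}
  have hL : ∀ y, ∀ᶠ i in (U : Filter ℕ), (y ∈ T i ↔ y ∈ L) := by
    intro y
    by_cases hy : y ∈ L
    · have hy' : ∀ᶠ i in (U : Filter ℕ), y ∈ T i := hy
      exact hy'.mono fun i hi => by simp [hi, hy]
    · have hy' : ¬ ∀ᶠ i in (U : Filter ℕ), y ∈ T i := hy
      exact (Ultrafilter.eventually_not.2 hy').mono fun i hi => by simp [hi, hy]
  have hne : ∀ᶠ i in (U : Filter ℕ), T i ≠ L := by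
    have hfin : {i | T i = L}.Finite := by
      apply Set.Subsingleton.finite
      intro i hi j hj
      exact hT ((show T i = L from hi).trans (show T j = L from hj).symm)
    exact Filter.compl_mem_hyperfilter_of_finite hfin
  obtain ⟨f, hf, hf'⟩ := exists_seq_of_forall_finset_exists
    (fun p : ℕ × Y => (p.2 ∈ T p.1 ↔ p.2 ∉ L))
    (fun p q : ℕ × Y => p.1 < q.1 ∧ (p.2 ∈ T q.1 ↔ p.2 ∈ L)) (by
      intro s _
      have h1 : ∀ᶠ i in (U : Filter ℕ), ∀ p ∈ s, p.1 < i ∧ (p.2 ∈ T i ↔ p.2 ∈ L) :=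
        (Filter.eventually_all_finset s).2 fun p _ => (hgt p.1).and (hL p.2)
      obtain ⟨i, hi1, hi2⟩ := (hne.and h1).exists
      have : ∃ y, (y ∈ T i ↔ y ∉ L) := by
        by_contra hcon
        apply hi1
        ext y
        by_contra hy
        exact hcon ⟨y, by tauto⟩
      obtain ⟨y, hy⟩ := this
      exact ⟨(i, y), hy, hi2⟩)
  obtain ⟨s, hs⟩ := exists_bool_eventually U (fun k => (f k).2 ∈ L)
  choose d hd using fun k => exists_bool_eventually U (fun l => (f l).2 ∈ T (f k).1)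
  obtain ⟨t, ht⟩ := exists_bool_eventually U (fun k => d k = true)
  obtain ⟨g, hg, hg'⟩ := exists_seq_of_forall_finset_exists
    (fun k : ℕ => ((f k).2 ∈ L ↔ s = true) ∧ (d k = true ↔ t = true))
    (fun k l : ℕ => k < l ∧ ((f l).2 ∈ T (f k).1 ↔ d k = true)) (by
      intro S _
      have h1 : ∀ᶠ l in (U : Filter ℕ), ∀ k ∈ S, k < l ∧ ((f l).2 ∈ T (f k).1 ↔ d k = true) :=
        (Filter.eventually_all_finset S).2 fun k _ => (hgt k).and (hd k)
      obtain ⟨l, hl1, hl2⟩ := ((hs.and ht).and h1).exists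
      exact ⟨l, hl1, hl2⟩)
  refine ⟨fun i => (f (g i)).1, fun i => (f (g i)).2, s, t, ?_, fun i => ?_, fun i j hij => ⟨?_, ?_⟩⟩
  · have hm : StrictMono fun i => (f (g i)).1 := fun i j hij => (hf' _ _ (hg' i j hij).1).1
    exact hm.injective
  · rw [hf (g i), (hg i).1]
    simp
  · rw [(hf' _ _ (hg' i j hij).1).2, (hg i).1]
  · rw [(hg' i j hij).2, (hg i).2]


end Pool.Agent.Lib.MP_04ca4f_co.Inf
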