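import Pool.Agent.Lib.MP_04ca4f_co.InfFamily

/-!
An infinite prime order of bounded height contains a skeleton. Some level `A` is infinite. Two
different points of `A` are incomparable and `{x, y}` is not autonomous, so they differ in
`x ↦ (fun (m : Fin N, d : Bool) => {w | lev w = m ∧ (if d then x < w else w < x)})`. This map is
injective on `A`, so for some `(m, d)` the coordinate takes infinitely many values on `A`; choose
`x : ℕ → A` with pairwise different traces `T i` and apply `exists_family`. Every `y i` lies in some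
`T`, so has level `m`; the `y i` are pairwise different (compare membership in `T (φ j)`).
With `d = true` put `a := x ∘ φ`, `b := y`, otherwise `a := y`, `b := x ∘ φ`. The level of the `a`
is below the level of the `b` (some `a i < b j`), so `b i ≤ a j` never holds, and `a i ≤ b j` is
constant (`hi`) for `i < j`, constant (`lo`) for `j < i`, and on the diagonal it is the negation of
`lo` or of `hi`. If `lo = hi` the pattern is 0 or 2. If only `hi` holds take `a (2i)`, `b (2j+1)`
(pattern 1); if only `lo` holds take `a (2i+1)`, `b (2j)` (pattern 3).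
-/

set_option autoImplicit false

namespace Pool.Agent.Lib.MP_04ca4f_co.Inf

universe u v

/-- Two antichains with a relation depending only on the order of the indices. -/
theorem skel_of_three {X : Type u} [PartialOrder X] (a b : ℕ → X) (hi lo dg : Bool)
    (hdg : dg = !lo ∨ dg = !hi) (aa : ∀ i j, a i ≤ a j → i = j) (bb : ∀ i j, b i ≤ b j → i = j)
    (ba : ∀ i j, ¬ b i ≤ a j) (h1 : ∀ i j, i < j → (a i ≤ b j ↔ hi = true))
    (h2 : ∀ i, a i ≤ b i ↔ dg = true) (h3 : ∀ i j, j < i → (a i ≤ b j ↔ lo = true)) :
    ∃ p < 4, ∃ a b : ℕ → X, IsSkel p a b := by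
  cases hi <;> cases lo
  · obtain rfl : dg = true := by simpa using hdg
    refine ⟨0, by omega, a, b, aa, bb, ba, fun i j => ?_⟩
    rcases lt_trichotomy i j with h | rfl | h
    · rw [h1 i j h]
      simp [pat, h.ne]
    · rw [h2]
      simp [pat]
    · rw [h3 i j h]
      simp [pat, h.ne']
  · refine ⟨3, by omega, fun i => a (2 * i + 1), fun j => b (2 * j), fun i j h => ?_,
      fun i j h => ?_, fun i j => ba _ _, fun i j => ?_⟩
    · have := aa _ _ h
      omega
    · have := bb _ _ h
      omega
    · by_cases h : j ≤ i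
      · rw [h3 _ _ (by omega)]
        simp [pat, h]
      · rw [h1 _ _ (by omega)]
        simp [pat, h]
  · refine ⟨1, by omega, fun i => a (2 * i), fun j => b (2 * j + 1), fun i j h => ?_,
      fun i j h => ?_, fun i j => ba _ _, fun i j => ?_⟩
    · have := aa _ _ h
      omega
    · have := bb _ _ h
      omega
    · by_cases h : i ≤ j
      · rw [h1 _ _ (by omega)]
        simp [pat, h]
      · rw [h3 _ _ (by omega)]
        simp [pat, h]
  · obtain rfl : dg = false := by simpa using hdg
    refine ⟨2, by omega, a, b, aa, bb, ba, fun i j => ?_⟩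
    rcases lt_trichotomy i j with h | rfl | h
    · rw [h1 i j h]
      simp [pat, h.ne]
    · rw [h2]
      simp [pat]
    · rw [h3 i j h]
      simp [pat, h.ne']

/-- The points of level `m` above or below `x`. -/
def skTr {X : Type u} [PartialOrder X] (lev : X → ℕ) (m : ℕ) (d : Bool) (x : X) : Set X :=
  {w | lev w = m ∧ (if d = true then x < w else w < x)}

theorem skTr_inj {X : Type u} [PartialOrder X] [Infinite X] (h : IsPrime X) (N : ℕ)
    (lev : X → ℕ) (hN : ∀ x, lev x < N) :
    Function.Injective fun (x : X) (q : Fin N × Bool) => skTr lev q.1 q.2 x := by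
  intro x y e
  by_contra hne
  have key : ∀ (w : X) (d : Bool), (if d = true then x < w else w < x) ↔
      (if d = true then y < w else w < y) := by
    intro w d
    have e1 : skTr lev (lev w) d x = skTr lev (lev w) d y := congrFun e (⟨lev w, hN w⟩, d)
    have e2 := Set.ext_iff.1 e1 w
    simpa [skTr] using e2
  refine h ⟨{x, y}, fun e' => ?_, Set.nontrivial_pair hne, fun w _ => ⟨?_, ?_⟩⟩
  · exact Set.infinite_univ (e' ▸ Set.toFinite ({x, y} : Set X))
  · have k : w < x ↔ w < y := by simpa using key w false
    rintro ⟨a, rfl | rfl, ha⟩ c (rfl | rfl)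
    · exact ha
    · exact k.1 ha
    · exact k.2 ha
    · exact ha
  · have k : x < w ↔ y < w := by simpa using key w true
    rintro ⟨a, rfl | rfl, ha⟩ c (rfl | rfl)
    · exact ha
    · exact k.1 ha
    · exact k.2 ha
    · exact ha

theorem exists_skel {X : Type u} [PartialOrder X] [Infinite X] (h : IsPrime X) (N : ℕ)
    (lev : X → ℕ) (hN : ∀ x, lev x < N) (hlev : ∀ x y, x < y → lev x < lev y) :
    ∃ p < 4, ∃ a b : ℕ → X, IsSkel p a b := by
  obtain ⟨n0, hA⟩ := Finite.exists_infinite_fiber fun x : X => (⟨lev x, hN x⟩ : Fin N)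
  set A : Set X := (fun x : X => (⟨lev x, hN x⟩ : Fin N)) ⁻¹' {n0} with hAdef
  have hA' : A.Infinite := Set.infinite_coe_iff.1 hA
  have hlevA : ∀ x ∈ A, lev x = n0 := fun x hx => congrArg Fin.val hx
  have hq : ∃ q : Fin N × Bool, (skTr lev q.1 q.2 '' A).Infinite := by
    by_contra hc
    have hc' : ∀ q : Fin N × Bool, (skTr lev q.1 q.2 '' A).Finite := fun q =>
      Set.not_infinite.1 fun hi => hc ⟨q, hi⟩
    refine hA' (Set.Finite.of_finite_image ((Set.Finite.pi' hc').subset ?_)
      (skTr_inj h N lev hN).injOn)
    rintro _ ⟨x, hx, rfl⟩ q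
    exact ⟨x, hx, rfl⟩
  obtain ⟨⟨m, d⟩, hq⟩ := hq
  have hx : ∀ i, ∃ x ∈ A, skTr lev m d x = (hq.natEmbedding _ i : Set X) :=
    fun i => (hq.natEmbedding _ i).2
  choose x hxA hxT using hx
  have hT : Function.Injective fun i => skTr lev m d (x i) := by
    intro i j e
    simp only [hxT] at e
    exact (hq.natEmbedding _).injective (Subtype.ext e)
  obtain ⟨φ, y, s, t, hφ, f1, f2⟩ := exists_family _ hT
  have hmem : ∀ i, ∃ j, y i ∈ skTr lev m d (x (φ j)) := by
    intro i
    cases s
    · exact ⟨i, (f1 i).2 rfl⟩
    · exact ⟨i + 1, (f2 i (i + 1) (by omega)).1.2 rfl⟩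
  have hy : ∀ i, lev (y i) = m := fun i => (hmem i).elim fun _ hj => hj.1
  have eq_of : ∀ u w : X, lev u = lev w → u ≤ w → u = w := fun u w e hle =>
    hle.eq_or_lt.resolve_right fun hlt => (hlev u w hlt).ne e
  have yy : ∀ i j, y i ≤ y j → i = j := by
    intro i j hle
    have e := eq_of _ _ ((hy i).trans (hy j).symm) hle
    have key : ∀ i j, i < j → y i ≠ y j := by
      intro i j hij e
      have k1 := (f2 i j hij).1
      have k2 := f1 j
      rw [e, k2] at k1
      cases s <;> simp at k1
    rcases lt_trichotomy i j with hij | hij | hij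
    · exact absurd e (key i j hij)
    · exact hij
    · exact absurd e.symm (key j i hij)
  have xx : ∀ i j, x (φ i) ≤ x (φ j) → i = j := by
    intro i j hle
    have e := eq_of _ _ ((hlevA _ (hxA _)).trans (hlevA _ (hxA _)).symm) hle
    exact hφ (hT (by simp only [e]))
  have not_le : ∀ u w : X, lev w < lev u → ¬ u ≤ w := fun u w hl hle => by
    rcases hle.eq_or_lt with rfl | hlt
    · omega
    · have := hlev u w hlt
      omega
  cases d
  · have hlt : (m : ℕ) < n0 := by
      obtain ⟨j, hj⟩ := hmem 0
      have := hlev _ _ (show y 0 < x (φ j) by simpa using hj.2)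
      rwa [hy, hlevA _ (hxA _)] at this
    have R : ∀ i j, y i ≤ x (φ j) ↔ y i ∈ skTr lev m false (x (φ j)) := by
      intro i j
      refine ⟨fun hle => ⟨hy i, ?_⟩, fun hm => (show y i < x (φ j) by simpa using hm.2).le⟩
      have : y i ≠ x (φ j) := fun e => by
        have k := hy i
        rw [e, hlevA _ (hxA _)] at k
        omega
      simpa using lt_of_le_of_ne hle this
    refine skel_of_three y (fun j => x (φ j)) s t (!s) (Or.inr rfl) yy xx (fun i j => ?_)
      (fun i j hij => (R i j).trans (f2 i j hij).1) (fun i => (R i i).trans ((f1 i).trans ?_))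
      fun i j hij => (R i j).trans (f2 j i hij).2
    · exact not_le _ _ (by rw [hy, hlevA _ (hxA _)]; exact hlt)
    · simp
  · have hlt : (n0 : ℕ) < m := by
      obtain ⟨j, hj⟩ := hmem 0
      have := hlev _ _ (show x (φ j) < y 0 by simpa using hj.2)
      rwa [hy, hlevA _ (hxA _)] at this
    have R : ∀ i j, x (φ j) ≤ y i ↔ y i ∈ skTr lev m true (x (φ j)) := by
      intro i j
      refine ⟨fun hle => ⟨hy i, ?_⟩, fun hm => (show x (φ j) < y i by simpa using hm.2).le⟩
      have : x (φ j) ≠ y i := fun e => by
        have k := hy i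
        rw [← e, hlevA _ (hxA _)] at k
        omega
      simpa using lt_of_le_of_ne hle this
    refine skel_of_three (fun j => x (φ j)) y t s (!s) (Or.inl rfl) xx yy (fun i j => ?_)
      (fun i j hij => (R j i).trans (f2 i j hij).2) (fun i => (R i i).trans ((f1 i).trans ?_))
      fun i j hij => (R j i).trans (f2 j i hij).1
    · exact not_le _ _ (by rw [hy, hlevA _ (hxA _)]; exact hlt)
    · simp

end Pool.Agent.Lib.MP_04ca4f_co.Inf
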