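import Pool.Agent.Lib.MP_04ca4f_co.InfUApp
import Pool.Agent.Lib.MP_04ca4f_co.InfCApp
import Pool.Agent.Lib.MP_04ca4f_co.InfSkel

/-!
Assembly. `perp_of_far_up`: shift the skeleton by `M`; for p = 3 reverse the first eight indices.
`perp_of_prime`: `exists_levels`; a long chain gives `perp_of_chain`. Otherwise take a skeleton.
If every point is incomparable to infinitely many `a i` or `b i`, use `perp_of_nofar`. Otherwise
some `z` is comparable to all `a i`, `b i` with `i ≥ M`; as the `a i` form an antichain `z` is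
strictly above all or strictly below all of them, same for the `b i`. Above both: `perp_of_far_up`.
Below both: the same in the dual order, where `(b, a)` is a skeleton of pattern 0, 3, 2, 1.
Above the `a`, below the `b`: every pattern has an unrelated pair with large indices. Below the `a`
and above the `b` contradicts `ba`.
-/

set_option autoImplicit false

namespace Pool.Agent.Lib.MP_04ca4f_co.Inf

universe u v

theorem HasPerp.of_dual {X : Type u} [PartialOrder X] (h : HasPerp Xᵒᵈ) : HasPerp X := by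
  obtain ⟨Q, hQ⟩ := h
  exact ⟨Q, fun f h1 h2 => hQ f (fun x y hxy => h1 y x hxy) h2⟩

theorem perp_of_far_up {X : Type u} [PartialOrder X] [Infinite X] (p : ℕ) (hp : p < 4)
    (a b : ℕ → X) (h : IsSkel p a b) (z : X) (M : ℕ) (ha : ∀ i, M ≤ i → a i < z)
    (hb : ∀ i, M ≤ i → b i < z) : HasPerp X := by
  by_cases h3 : p < 3
  · refine perp_of_far p h3 (fun i => a (M + i)) (fun i => b (M + i)) ⟨?_, ?_, ?_, ?_⟩ z
      (fun i _ => ha _ (by omega)) fun i _ => hb _ (by omega)
    · intro i _ j _ hij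
      have := h.aa _ _ hij
      omega
    · intro i _ j _ hij
      have := h.bb _ _ hij
      omega
    · exact fun i _ j _ => h.ba _ _
    · intro i _ j _
      rw [h.ab]
      interval_cases p <;> simp [pat]
  · obtain rfl : p = 3 := by omega
    refine perp_of_far 1 (by omega) (fun i => a (M + (7 - i))) (fun i => b (M + (7 - i)))
      ⟨?_, ?_, ?_, ?_⟩ z (fun i _ => ha _ (by omega)) fun i _ => hb _ (by omega)
    · intro i _ j _ hij
      have := h.aa _ _ hij
      omega
    · intro i _ j _ hij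
      have := h.bb _ _ hij
      omega
    · exact fun i _ j _ => h.ba _ _
    · intro i _ j _
      rw [h.ab]
      simp only [pat]
      norm_num
      omega

theorem side_of_anti {X : Type u} [PartialOrder X] (a : ℕ → X) (ha : ∀ i j, a i ≤ a j → i = j)
    (z : X) (M : ℕ) (h : ∀ i, M < i → ¬ Inc z (a i)) :
    (∀ i, M + 1 ≤ i → a i < z) ∨ ∀ i, M + 1 ≤ i → z < a i := by
  have hc : ∀ i, M + 1 ≤ i → z ≤ a i ∨ a i ≤ z := fun i hi => by
    by_contra hcon
    exact h i hi (not_or.mp hcon)
  have hne : ∀ i, M + 1 ≤ i → z ≠ a i := fun i hi he => by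
    rcases hc (i + 1) (by omega) with h1 | h1 <;> rw [he] at h1 <;> have := ha _ _ h1 <;> omega
  by_cases h1 : ∃ i, M + 1 ≤ i ∧ a i ≤ z
  · obtain ⟨i, hi, hiz⟩ := h1
    refine Or.inl fun j hj => lt_of_le_of_ne ((hc j hj).resolve_left fun hzj => ?_) (hne j hj).symm
    have := ha _ _ (hiz.trans hzj)
    subst this
    exact hne i hi (le_antisymm hzj hiz)
  · exact Or.inr fun j hj => lt_of_le_of_ne
      ((hc j hj).resolve_right fun hjz => h1 ⟨j, hj, hjz⟩) (hne j hj)

theorem perp_of_prime {X : Type u} [PartialOrder X] [Infinite X] (h : IsPrime X) : HasPerp X := by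
  rcases exists_levels X with ⟨c, hc⟩ | ⟨lev, hN, hlev⟩
  · exact perp_of_chain c hc
  obtain ⟨p, hp, a, b, hs⟩ := exists_skel h 12 lev hN hlev
  by_cases hfar : ∀ x, {i | Inc x (a i)}.Infinite ∨ {i | Inc x (b i)}.Infinite
  · have hab : ∃ i j, a i < b j := by
      have key : ∀ i j, pat p i j = true → a i < b j := fun i j hij =>
        lt_iff_le_not_ge.mpr ⟨(hs.ab i j).mpr hij, hs.ba j i⟩
      by_cases h2 : p = 2
      · exact ⟨0, 1, key 0 1 (by simp [pat, h2])⟩
      · exact ⟨0, 0, key 0 0 (by interval_cases p <;> simp_all [pat])⟩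
    obtain ⟨i, j, hij⟩ := hab
    exact perp_of_nofar p hp a b hs 12 lev hN hlev hfar (conn_of_prime h _ _ hij)
  simp only [not_forall, not_or, Set.not_infinite] at hfar
  obtain ⟨z, hza, hzb⟩ := hfar
  obtain ⟨M, hM⟩ := (hza.union hzb).bddAbove
  have hM' : ∀ i, M < i → ¬ Inc z (a i) ∧ ¬ Inc z (b i) := fun i hi =>
    ⟨fun h => absurd (hM (Or.inl h)) (by omega), fun h => absurd (hM (Or.inr h)) (by omega)⟩
  rcases side_of_anti a hs.aa z M (fun i hi => (hM' i hi).1) with ha | ha <;>
    rcases side_of_anti b hs.bb z M (fun i hi => (hM' i hi).2) with hb | hb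
  · exact perp_of_far_up p hp a b hs z (M + 1) ha hb
  · have key : ∀ i j, M + 1 ≤ i → M + 1 ≤ j → pat p i j = true := fun i j hi hj =>
      (hs.ab i j).mp ((ha i hi).trans (hb j hj)).le
    have h1 := key (M + 1) (M + 1) le_rfl le_rfl
    have h2 := key (M + 2) (M + 1) (by omega) le_rfl
    have h3 := key (M + 1) (M + 2) le_rfl (by omega)
    interval_cases p <;> simp [pat] at h1 h2 h3
  · exact absurd ((hb _ le_rfl).trans (ha _ le_rfl)).le (hs.ba _ _)
  · have : Infinite Xᵒᵈ := ‹Infinite X›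
    refine HasPerp.of_dual (perp_of_far_up (X := Xᵒᵈ) ((4 - p) % 4) (by omega) b a
      ⟨fun i j hij => (hs.bb j i hij).symm, fun i j hij => (hs.aa j i hij).symm,
        fun i j hij => hs.ba j i hij, fun i j => (hs.ab j i).trans ?_⟩ z (M + 1) hb ha)
    interval_cases p <;> simp only [pat] <;> norm_num <;> omega

theorem infinite_case {X : Type u} [Infinite X] (P : PartialOrder X)
    (hprime : ¬ ∃ A : Set X, A ≠ Set.univ ∧ A.Nontrivial ∧ ∀ x ∉ A,
      ((∃ a ∈ A, P.lt x a) → ∀ a ∈ A, P.lt x a) ∧ ((∃ a ∈ A, P.lt a x) → ∀ a ∈ A, P.lt a x)) :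
    ∃ Q : PartialOrder X, ∀ f : X → X, (∀ x y, P.le x y → P.le (f x) (f y)) →
      (∀ x y, Q.le x y → Q.le (f x) (f y)) → f = id ∨ ∃ c, ∀ x, f x = c := by
  obtain ⟨Q, hQ⟩ := @perp_of_prime X P _ hprime
  exact ⟨{ le := Q.le, lt := fun x y => Q.le x y ∧ ¬ Q.le y x, le_refl := Q.refl,
           le_trans := Q.trans, le_antisymm := Q.antisymm,
           lt_iff_le_not_ge := fun _ _ => Iff.rfl }, hQ⟩


end Pool.Agent.Lib.MP_04ca4f_co.Inf
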