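import Pool.Agent.Lib.MP_04ca4f_co.InfCode

/-!
Transport of codes. `exists_code_tok`: embed `I` into `ℕ`, and move the prescribed tokens onto the
tokens of `exists_code_univ ℕ` by a permutation of `ℕ` extending a finite partial injection
(`Cardinal.extend_function_of_lt` or `Equiv.Perm.exists_extending_pair`), then pull the code back
along the permutation. `exists_code_on`: `exists_code_univ B` and `IsCode.map Subtype.val`.
-/

set_option autoImplicit false

namespace Pool.Agent.Lib.MP_04ca4f_co.Inf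

universe u v

theorem IsCode.congr {X : Type u} {B : Set X} {col knd col' knd' : X → Bool} {cl : X → X → Prop}
    (h : IsCode B col knd cl) (hc : ∀ x ∈ B, col' x = col x ∧ knd' x = knd x) :
    IsCode B col' knd' cl := by
  refine ⟨h.mem, fun x y hxy => ?_, fun g hg hcl => h.rigid g (fun x hx => ?_) hcl⟩
  · rw [(hc x (h.mem x y hxy).1).1, (hc y (h.mem x y hxy).2).1]
    exact h.colour x y hxy
  · obtain ⟨h1, h2, h3⟩ := hg x hx
    rw [(hc _ h1).1, (hc _ hx).1] at h2
    rw [(hc _ h1).2, (hc _ hx).2] at h3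
    exact ⟨h1, h2, h3⟩

theorem IsCode.dual {X : Type u} {B : Set X} {col knd : X → Bool} {cl : X → X → Prop}
    (h : IsCode B col knd cl) : IsCode B (fun x => !col x) knd (fun x y => cl y x) := by
  refine ⟨fun x y hxy => (h.mem y x hxy).symm, fun x y hxy => ?_,
    fun g hg hcl => h.rigid g (fun x hx => ?_) fun x y => hcl y x⟩
  · rw [(h.colour y x hxy).1, (h.colour y x hxy).2]
    exact ⟨rfl, rfl⟩
  · obtain ⟨h1, h2, h3⟩ := hg x hx
    exact ⟨h1, Bool.not_inj h2, h3⟩

theorem IsCode.map {Y : Type v} {X : Type u} {col knd : Y → Bool} {cl : Y → Y → Prop}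
    (h : IsCode Set.univ col knd cl) (e : Y → X) (he : Function.Injective e)
    (col' knd' : X → Bool) (hc : ∀ y, col' (e y) = col y ∧ knd' (e y) = knd y) :
    IsCode (Set.range e) col' knd' (fun x x' => ∃ y y', x = e y ∧ x' = e y' ∧ cl y y') := by
  refine ⟨?_, ?_, fun g hg hcl => ?_⟩
  · rintro _ _ ⟨y, y', rfl, rfl, -⟩
    exact ⟨⟨y, rfl⟩, y', rfl⟩
  · rintro _ _ ⟨y, y', rfl, rfl, hy⟩
    rw [(hc y).1, (hc y').1]
    exact h.colour y y' hy
  · have h1 : ∀ y, ∃ z, e z = g (e y) := fun y => (hg (e y) ⟨y, rfl⟩).1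
    choose g' hg' using h1
    have h2 := h.rigid g' (fun y _ => ⟨Set.mem_univ _, ?_, ?_⟩) fun y y' hy => ?_
    · rintro _ ⟨y, rfl⟩
      rw [← hg', h2 y (Set.mem_univ y)]
    · rw [← (hc _).1, hg', (hg (e y) ⟨y, rfl⟩).2.1, (hc _).1]
    · rw [← (hc _).2, hg', (hg (e y) ⟨y, rfl⟩).2.2, (hc _).2]
    · obtain ⟨z, z', a1, a2, a3⟩ := hcl _ _ ⟨y, y', rfl, rfl, hy⟩
      rw [← hg'] at a1 a2
      rwa [he a1, he a2]

theorem exists_code_on {X : Type u} (B : Set X) (hB : B.Infinite) :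
    ∃ (col knd : X → Bool) (cl : X → X → Prop), IsCode B col knd cl := by
  classical
  have := hB.to_subtype
  obtain ⟨col, knd, cl, h, -⟩ := exists_code_univ B
  have h1 := h.map Subtype.val Subtype.val_injective
    (fun x => if hx : x ∈ B then col ⟨x, hx⟩ else false)
    (fun x => if hx : x ∈ B then knd ⟨x, hx⟩ else false)
    fun y => ⟨dif_pos y.2, dif_pos y.2⟩
  rw [Subtype.range_coe] at h1
  exact ⟨_, _, _, h1⟩

theorem exists_code_tok {I : Type v} [Finite I] (t : I → Bool → ℕ)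
    (ht : ∀ i e i' e', t i e = t i' e' → i = i' ∧ e = e') (w : I → Bool) :
    ∃ (col knd : ℕ → Bool) (cl : ℕ → ℕ → Prop), IsCode Set.univ col knd cl ∧
      ∀ i, (∀ e, col (t i e) = w i ∧ knd (t i e) = e) ∧ NoCommon cl (t i false) (t i true) := by
  classical
  obtain ⟨col, knd, cl, h, T, hT1, hT2⟩ := exists_code_univ ℕ
  obtain ⟨n, hn⟩ := Countable.exists_injective_nat I
  have i1 : Function.Injective fun p : I × Bool => t p.1 p.2 := fun p q hpq =>
    Prod.ext (ht _ _ _ _ hpq).1 (ht _ _ _ _ hpq).2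
  have i2 : Function.Injective fun p : I × Bool => T (n p.1) (w p.1) p.2 := fun p q hpq =>
    Prod.ext (hn (hT1 _ _ _ _ _ _ hpq).1) (hT1 _ _ _ _ _ _ hpq).2.2
  obtain ⟨g, hg⟩ := Equiv.Perm.exists_extending_pair _ _ i1 i2
  have hg' : ∀ i e, g (t i e) = T (n i) (w i) e := fun i e => hg (i, e)
  have h1 := h.map g.symm g.symm.injective (fun x => col (g x)) (fun x => knd (g x))
    fun y => by simp only [Equiv.apply_symm_apply, and_self]
  rw [g.symm.range_eq_univ] at h1
  refine ⟨_, _, _, h1, fun i => ⟨fun e => ?_, fun v hv => (hT2 (n i) (w i)).2 (g v) ?_⟩⟩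
  · simp only [hg']
    exact (hT2 (n i) (w i)).1 e
  · have key : ∀ x x', (∃ y y', x = g.symm y ∧ x' = g.symm y' ∧ cl y y') → cl (g x) (g x') := by
      rintro _ _ ⟨y, y', rfl, rfl, hy⟩
      simpa only [Equiv.apply_symm_apply] using hy
    rw [← hg', ← hg']
    exact ⟨hv.1.imp (key _ _) (key _ _), hv.2.imp (key _ _) (key _ _)⟩


end Pool.Agent.Lib.MP_04ca4f_co.Inf
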