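import Pool.Agent.Lib.MP_04ca4f_co.InfUMain
import Pool.Agent.Lib.MP_04ca4f_co.InfData

/-!
The four frames of `InfData` applied. For the chain take `io x := c (uCIx.getD x 0)`; by
`decide +kernel`, for `x, y < 12` the index is `< 12` and `uC.P x y = decide (ix x ≤ ix y)`.
For the patterns take `io x := a (ix x)`, `b (ix x)` or `z` according to the type list (0, 1, 2);
by `decide +kernel` all indices are `< 8`, types `< 3`, and `P x y` equals the expected formula
(same type 0 or 1: equal indices; 0 then 1: `pat p`; second type 2: true; otherwise false).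
One generic lemma in the lists `ty`, `ix` serves `uM` (p = 0), `uH` (p = 1), `uS` (p = 2).
-/

set_option autoImplicit false

namespace Pool.Agent.Lib.MP_04ca4f_co.Inf

universe u v

theorem perp_of_chain {X : Type u} [PartialOrder X] [Infinite X] (c : ℕ → X)
    (hc : ∀ i j, i < j → j < 12 → c i < c j) : HasPerp X := by
  refine perp_of_uframe uC uC_check (fun x => c (uCIx.getD x 0)) fun x hx y hy => ?_
  have key : ∀ x < 12, ∀ y < 12, uCIx.getD x 0 < 12 ∧
      uC.P x y = decide (uCIx.getD x 0 ≤ uCIx.getD y 0) := by decide +kernel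
  obtain ⟨h1, h2⟩ := key x hx y hy
  have h3 := (key y hy x hx).1
  rw [h2, decide_eq_true_iff]
  refine ⟨fun h => ?_, fun h => ?_⟩
  · by_contra h'
    exact absurd h (hc _ _ (not_le.1 h') h1).not_ge
  · rcases h.eq_or_lt with e | e
    · exact (congrArg c e).le
    · exact (hc _ _ e h3).le

/-- The expected comparison of a point of type `s`, index `i` with one of type `t`, index `j`. -/
private def uappExp (p s i t j : ℕ) : Bool :=
  if t = 2 then true else if s = t then decide (i = j) else if s = 0 then pat p i j else false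

private theorem uapp_far {X : Type u} [PartialOrder X] [Infinite X] (p : ℕ)
    (a b : ℕ → X) (h : IsSkelTo p 8 a b) (z : X) (ha : ∀ i < 8, a i < z) (hb : ∀ i < 8, b i < z)
    (F : UFrame) (hF : F.check = true) (ty ix : List ℕ)
    (key : ∀ x < F.n, ∀ y < F.n, ix.getD x 0 < 8 ∧ ty.getD x 0 < 3 ∧
      F.P x y = uappExp p (ty.getD x 0) (ix.getD x 0) (ty.getD y 0) (ix.getD y 0)) :
    HasPerp X := by
  refine perp_of_uframe F hF (fun x => if ty.getD x 0 = 0 then a (ix.getD x 0) else
    if ty.getD x 0 = 1 then b (ix.getD x 0) else z) fun x hx y hy => ?_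
  obtain ⟨h1, h2, h3⟩ := key x hx y hy
  obtain ⟨h4, h5, -⟩ := key y hy x hx
  rw [h3]
  generalize ty.getD x 0 = s at *
  generalize ty.getD y 0 = t at *
  generalize ix.getD x 0 = i at *
  generalize ix.getD y 0 = j at *
  have e1 : a i ≤ a j ↔ i = j := ⟨h.aa i h1 j h4, fun e => (congrArg a e).le⟩
  have e2 : b i ≤ b j ↔ i = j := ⟨h.bb i h1 j h4, fun e => (congrArg b e).le⟩
  have e3 := h.ab i h1 j h4
  have e4 := h.ba i h1 j h4
  have e5 := (ha i h1).le
  have e6 := (hb i h1).le
  have e7 := (ha j h4).not_ge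
  have e8 := (hb j h4).not_ge
  interval_cases s <;> interval_cases t <;> simp [uappExp, *]

theorem perp_of_far {X : Type u} [PartialOrder X] [Infinite X] (p : ℕ) (hp : p < 3)
    (a b : ℕ → X) (h : IsSkelTo p 8 a b) (z : X) (ha : ∀ i < 8, a i < z) (hb : ∀ i < 8, b i < z) :
    HasPerp X := by
  interval_cases p
  · exact uapp_far 0 a b h z ha hb uM uM_check uMTy uMIx (by decide +kernel)
  · exact uapp_far 1 a b h z ha hb uH uH_check uHTy uHIx (by decide +kernel)
  · exact uapp_far 2 a b h z ha hb uS uS_check uSTy uSIx (by decide +kernel)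


end Pool.Agent.Lib.MP_04ca4f_co.Inf
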