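import Pool.Agent.Lib.MP_04ca4f_co.InfDefs

/-!
The order of a frame with a free remainder `R`. Define `le x y` as the disjunction of the four
cases. Transitivity and antisymmetry use `side`: `Q` is an order on the frame, no point is
both `up` and `low`, `low x` and `up y` give `Q x y`; `attL v c k` implies `low v`, `attU` implies
`up`; `attL v false k` implies `attL v true k'` and `attU true k w` implies `attU false k' w`;
`attL` is closed downwards and `attU` upwards along `Q`; edges `cl` go from red to blue points.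
-/

set_option autoImplicit false

namespace Pool.Agent.Lib.MP_04ca4f_co.Inf

universe u v

theorem UFrame.uo_side (F : UFrame) (hs : F.side = true) :
    (F.l1 < F.n ∧ F.l2 < F.n ∧ F.l3 < F.n ∧ F.u1 < F.n ∧ F.u2 < F.n ∧ F.u3 < F.n) ∧
    (∀ x < F.n, F.Q x x = true) ∧ (∀ x < F.n, F.up x = true → F.low x = true → False) ∧
    (∀ x < F.n, ∀ y < F.n, F.Q x y = true → F.Q y x = true → x = y) ∧
    (∀ x < F.n, ∀ y < F.n, F.low x = true → F.up y = true → F.Q x y = true) ∧
    (∀ x < F.n, ∀ y < F.n, ∀ z < F.n, F.Q x y = true → F.Q y z = true → F.Q x z = true) := by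
  unfold UFrame.side at hs
  simp only [Bool.and_eq_true, decide_eq_true_eq, List.all_eq_true, List.mem_range] at hs
  obtain ⟨⟨⟨⟨⟨⟨⟨⟨⟨⟨h0, h1⟩, -⟩, -⟩, -⟩, -⟩, -⟩, -⟩, -⟩, -⟩, -⟩ := hs
  refine ⟨⟨h0.1, h0.2.1, h0.2.2.1, h0.2.2.2.1, h0.2.2.2.2.1, h0.2.2.2.2.2.1⟩, ?_, ?_, ?_, ?_, ?_⟩
  · intro x hx
    exact (h1 x hx).1.1.1.1.1.1.2
  · intro x hx hu hl
    have := (h1 x hx).1.1.1.2
    simp [hu, hl] at this
  · intro x hx y hy a b
    have := ((h1 x hx).2 y hy).1.1.1
    simpa [a, b] using this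
  · intro x hx y hy a b
    have := ((h1 x hx).2 y hy).1.2
    simpa [a, b] using this
  · intro x hx y hy z hz a b
    have := ((h1 x hx).2 y hy).2 z hz
    simpa [a, b] using this

theorem UFrame.uo_low (F : UFrame) {v : ℕ} {c k : Bool} (h : F.attL v c k = true) :
    F.low v = true := by
  unfold UFrame.attL at h
  unfold UFrame.low
  revert h
  cases F.Q v F.l1 <;> cases F.Q v F.l2 <;> cases F.Q v F.l3 <;> simp

theorem UFrame.uo_up (F : UFrame) {w : ℕ} {c k : Bool} (h : F.attU c k w = true) :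
    F.up w = true := by
  unfold UFrame.attU at h
  unfold UFrame.up
  revert h
  cases F.Q F.u1 w <;> cases F.Q F.u2 w <;> cases F.Q F.u3 w <;> simp

theorem UFrame.uo_attL (F : UFrame) {v : ℕ} {c k : Bool} (k' : Bool) (h : F.attL v c k = true) :
    F.attL v true k' = true := by
  unfold UFrame.attL at h ⊢
  revert h
  cases F.Q v F.l1 <;> cases F.Q v F.l2 <;> cases F.Q v F.l3 <;> simp

theorem UFrame.uo_attU (F : UFrame) {w : ℕ} {c k : Bool} (k' : Bool) (h : F.attU c k w = true) :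
    F.attU false k' w = true := by
  unfold UFrame.attU at h ⊢
  revert h
  cases F.Q F.u1 w <;> cases F.Q F.u2 w <;> cases F.Q F.u3 w <;> simp

theorem UFrame.uo_down (F : UFrame) (hs : F.side = true) {v w : ℕ} (hv : v < F.n) (hw : w < F.n)
    (hq : F.Q v w = true) {c k : Bool} (h : F.attL w c k = true) : F.attL v c k = true := by
  obtain ⟨⟨a1, a2, a3, -⟩, -, -, -, -, tr⟩ := F.uo_side hs
  unfold UFrame.attL at h ⊢
  simp only [Bool.or_eq_true, Bool.and_eq_true] at h ⊢
  rcases h with (h | h) | h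
  · exact Or.inl (Or.inl (tr v hv w hw _ a1 hq h))
  · exact Or.inl (Or.inr ⟨tr v hv w hw _ a2 hq h.1, h.2⟩)
  · exact Or.inr ⟨tr v hv w hw _ a3 hq h.1, h.2⟩

theorem UFrame.uo_upw (F : UFrame) (hs : F.side = true) {v w : ℕ} (hv : v < F.n) (hw : w < F.n)
    (hq : F.Q v w = true) {c k : Bool} (h : F.attU c k v = true) : F.attU c k w = true := by
  obtain ⟨⟨-, -, -, a1, a2, a3⟩, -, -, -, -, tr⟩ := F.uo_side hs
  unfold UFrame.attU at h ⊢
  simp only [Bool.or_eq_true, Bool.and_eq_true] at h ⊢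
  rcases h with (h | h) | h
  · exact Or.inl (Or.inl (tr _ a1 v hv w hw h hq))
  · exact Or.inl (Or.inr ⟨tr _ a2 v hv w hw h.1 hq, h.2⟩)
  · exact Or.inr ⟨tr _ a3 v hv w hw h.1 hq, h.2⟩

theorem UFrame.exists_order {X : Type u} (F : UFrame) (hs : F.side = true) (io : ℕ → X)
    (hinj : ∀ x < F.n, ∀ y < F.n, io x = io y → x = y) (R : Set X)
    (hR : ∀ x, x ∈ R ↔ ∀ v < F.n, x ≠ io v) (col knd : X → Bool) (cl : X → X → Prop)
    (hc : IsCode R col knd cl) :
    ∃ Q : POrd X, (∀ v < F.n, ∀ w < F.n, Q.le (io v) (io w) ↔ F.Q v w = true) ∧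
      (∀ v < F.n, ∀ y ∈ R, Q.le (io v) y ↔ F.attL v (col y) (knd y) = true) ∧
      (∀ w < F.n, ∀ x ∈ R, Q.le x (io w) ↔ F.attU (col x) (knd x) w = true) ∧
      (∀ x ∈ R, ∀ y ∈ R, Q.le x y ↔ x = y ∨ cl x y) := by
  obtain ⟨-, hrefl, hul, hanti, hlu, htr⟩ := F.uo_side hs
  have hnot : ∀ v < F.n, io v ∉ R := fun v hv h => (hR _).1 h v hv rfl
  let le : X → X → Prop := fun x y =>
    (∃ v < F.n, ∃ w < F.n, x = io v ∧ y = io w ∧ F.Q v w = true) ∨
    (∃ v < F.n, x = io v ∧ y ∈ R ∧ F.attL v (col y) (knd y) = true) ∨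
    (∃ w < F.n, x ∈ R ∧ y = io w ∧ F.attU (col x) (knd x) w = true) ∨
    (x ∈ R ∧ y ∈ R ∧ (x = y ∨ cl x y))
  have e1 : ∀ v < F.n, ∀ w < F.n, le (io v) (io w) ↔ F.Q v w = true := by
    intro v hv w hw
    constructor
    · rintro (⟨v', hv', w', hw', a, b, h⟩ | ⟨_, _, _, h, _⟩ | ⟨_, _, h, _⟩ | ⟨h, _⟩)
      · rw [hinj v hv v' hv' a, hinj w hw w' hw' b]; exact h
      · exact absurd h (hnot w hw)
      · exact absurd h (hnot v hv)
      · exact absurd h (hnot v hv)
    · intro h; exact Or.inl ⟨v, hv, w, hw, rfl, rfl, h⟩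
  have e2 : ∀ v < F.n, ∀ y ∈ R, le (io v) y ↔ F.attL v (col y) (knd y) = true := by
    intro v hv y hy
    constructor
    · rintro (⟨v', hv', w', hw', a, b, h⟩ | ⟨v', hv', a, _, h⟩ | ⟨_, _, h, _⟩ | ⟨h, _⟩)
      · exact absurd (b ▸ hy) (hnot w' hw')
      · rw [hinj v hv v' hv' a]; exact h
      · exact absurd h (hnot v hv)
      · exact absurd h (hnot v hv)
    · intro h; exact Or.inr (Or.inl ⟨v, hv, rfl, hy, h⟩)
  have e3 : ∀ w < F.n, ∀ x ∈ R, le x (io w) ↔ F.attU (col x) (knd x) w = true := by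
    intro w hw x hx
    constructor
    · rintro (⟨v', hv', w', hw', a, b, h⟩ | ⟨v', hv', a, h, _⟩ | ⟨w', hw', _, b, h⟩ | ⟨_, h, _⟩)
      · exact absurd (a ▸ hx) (hnot v' hv')
      · exact absurd h (hnot w hw)
      · rw [hinj w hw w' hw' b]; exact h
      · exact absurd h (hnot w hw)
    · intro h; exact Or.inr (Or.inr (Or.inl ⟨w, hw, hx, rfl, h⟩))
  have e4 : ∀ x ∈ R, ∀ y ∈ R, le x y ↔ x = y ∨ cl x y := by
    intro x hx y hy
    constructor
    · rintro (⟨v', hv', w', hw', a, b, h⟩ | ⟨v', hv', a, _, h⟩ | ⟨w', hw', _, b, h⟩ | ⟨_, _, h⟩)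
      · exact absurd (a ▸ hx) (hnot v' hv')
      · exact absurd (a ▸ hx) (hnot v' hv')
      · exact absurd (b ▸ hy) (hnot w' hw')
      · exact h
    · intro h; exact Or.inr (Or.inr (Or.inr ⟨hx, hy, h⟩))
  have hcase : ∀ x, (∃ v < F.n, x = io v) ∨ x ∈ R := by
    intro x
    by_cases h : x ∈ R
    · exact Or.inr h
    · rw [hR] at h
      push Not at h
      exact Or.inl h
  refine ⟨⟨le, ?_, ?_, ?_⟩, e1, e2, e3, e4⟩
  · intro x
    rcases hcase x with ⟨v, hv, rfl⟩ | hx
    · exact (e1 v hv v hv).2 (hrefl v hv)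
    · exact (e4 x hx x hx).2 (Or.inl rfl)
  · intro x y z a b
    rcases hcase x with ⟨u, hu, rfl⟩ | hx <;> rcases hcase y with ⟨v, hv, rfl⟩ | hy <;>
      rcases hcase z with ⟨w, hw, rfl⟩ | hz
    · rw [e1 u hu v hv] at a; rw [e1 v hv w hw] at b
      exact (e1 u hu w hw).2 (htr u hu v hv w hw a b)
    · rw [e1 u hu v hv] at a; rw [e2 v hv z hz] at b
      exact (e2 u hu z hz).2 (F.uo_down hs hu hv a b)
    · rw [e2 u hu y hy] at a; rw [e3 w hw y hy] at b
      exact (e1 u hu w hw).2 (hlu u hu w hw (F.uo_low a) (F.uo_up b))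
    · rw [e2 u hu y hy] at a; rw [e4 y hy z hz] at b
      rcases b with rfl | b
      · exact (e2 u hu y hy).2 a
      · refine (e2 u hu z hz).2 ?_
        rw [(hc.colour y z b).2]
        exact F.uo_attL _ a
    · rw [e3 v hv x hx] at a; rw [e1 v hv w hw] at b
      exact (e3 w hw x hx).2 (F.uo_upw hs hv hw b a)
    · rw [e3 v hv x hx] at a; rw [e2 v hv z hz] at b
      exact (hul v hv (F.uo_up a) (F.uo_low b)).elim
    · rw [e4 x hx y hy] at a; rw [e3 w hw y hy] at b
      rcases a with rfl | a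
      · exact (e3 w hw x hx).2 b
      · refine (e3 w hw x hx).2 ?_
        rw [(hc.colour x y a).1]
        exact F.uo_attU _ b
    · rw [e4 x hx y hy] at a; rw [e4 y hy z hz] at b
      rcases a with rfl | a
      · exact (e4 x hx z hz).2 b
      · rcases b with rfl | b
        · exact (e4 x hx y hy).2 (Or.inr a)
        · have h1 := (hc.colour x y a).2
          rw [(hc.colour y z b).1] at h1
          exact absurd h1 (by simp)
  · intro x y a b
    rcases hcase x with ⟨u, hu, rfl⟩ | hx <;> rcases hcase y with ⟨v, hv, rfl⟩ | hy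
    · rw [e1 u hu v hv] at a; rw [e1 v hv u hu] at b
      rw [hanti u hu v hv a b]
    · rw [e2 u hu y hy] at a; rw [e3 u hu y hy] at b
      exact (hul u hu (F.uo_up b) (F.uo_low a)).elim
    · rw [e3 v hv x hx] at a; rw [e2 v hv x hx] at b
      exact (hul v hv (F.uo_up a) (F.uo_low b)).elim
    · rw [e4 x hx y hy] at a; rw [e4 y hy x hx] at b
      rcases a with a | a
      · exact a
      · rcases b with b | b
        · exact b.symm
        · have h1 := (hc.colour x y a).2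
          rw [(hc.colour y x b).1] at h1
          exact absurd h1 (by simp)


end Pool.Agent.Lib.MP_04ca4f_co.Inf
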