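import Pool.Agent.Lib.MP_04ca4f_co.InfDefs

/-!
Soundness of the search `UFrame.dfs`. Induction on the list of variables, for every list `A` of
pairs `(x, φ x)` with `x < n`: if `dfs xs A = true` then `φ bot = φ top` or `φ x = x` for all
`x ∈ xs` and all first components of `A` (take `v := φ x`). `side` gives that `ord` contains every
`x < n` and only such.
-/

set_option autoImplicit false

namespace Pool.Agent.Lib.MP_04ca4f_co.Inf

universe u v

theorem UFrame.dfs_aux (F : UFrame) (φ : ℕ → ℕ)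
    (hφ : ∀ x < F.n, φ x < F.n + 2)
    (hbin : ∀ x < F.n, ∀ y < F.n, F.binOk x (φ x) y (φ y) = true)
    (hout : ∀ A : List (ℕ × ℕ), (∀ p ∈ A, p.1 < F.n ∧ p.2 = φ p.1) → F.outOk A = true)
    (xs : List ℕ) : ∀ A : List (ℕ × ℕ), (∀ x ∈ xs, x < F.n) →
      (∀ p ∈ A, p.1 < F.n ∧ p.2 = φ p.1) → F.dfs xs A = true →
      φ F.bot = φ F.top ∨ ((∀ x ∈ xs, φ x = x) ∧ ∀ p ∈ A, φ p.1 = p.1) := by
  induction xs with
  | nil =>
    intro A _ hA hd
    refine Or.inr ⟨fun x hx => absurd hx List.not_mem_nil, fun p hp => ?_⟩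
    simp only [UFrame.dfs, List.all_eq_true, decide_eq_true_eq] at hd
    rw [← (hA p hp).2, ← hd p hp]
  | cons x xs ih =>
    intro A hxs hA hd
    have hx : x < F.n := hxs x List.mem_cons_self
    have hA' : ∀ p ∈ (x, φ x) :: A, p.1 < F.n ∧ p.2 = φ p.1 := by
      intro p hp
      rcases List.mem_cons.1 hp with rfl | hp
      · exact ⟨hx, rfl⟩
      · exact hA p hp
    rw [UFrame.dfs, List.all_eq_true] at hd
    have h1 := hd (φ x) (List.mem_range.2 (hφ x hx))
    have h2 : (A.all fun p => F.binOk x (φ x) p.1 p.2) = true := by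
      rw [List.all_eq_true]
      intro p hp
      rw [(hA p hp).2]
      exact hbin x hx p.1 (hA p hp).1
    rw [h2, hout _ hA'] at h1
    simp only [Bool.not_true, Bool.false_or, Bool.or_eq_true] at h1
    rcases h1 with h1 | h1
    · left
      simp only [UFrame.acc, List.any_eq_true, Bool.and_eq_true, decide_eq_true_eq] at h1
      obtain ⟨p, hp, p1, q, hq, q1, e⟩ := h1
      rw [← p1, ← q1, ← (hA' p hp).2, ← (hA' q hq).2, e]
    · rcases ih _ (fun y hy => hxs y (List.mem_cons_of_mem _ hy)) hA' h1 with e | ⟨e1, e2⟩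
      · exact Or.inl e
      · refine Or.inr ⟨fun y hy => ?_, fun p hp => e2 p (List.mem_cons_of_mem _ hp)⟩
        rcases List.mem_cons.1 hy with rfl | hy
        · exact e2 (y, φ y) List.mem_cons_self
        · exact e1 y hy

theorem UFrame.dfs_sound (F : UFrame) (h : F.check = true) (φ : ℕ → ℕ)
    (hφ : ∀ x < F.n, φ x < F.n + 2)
    (hbin : ∀ x < F.n, ∀ y < F.n, F.binOk x (φ x) y (φ y) = true)
    (hout : ∀ A : List (ℕ × ℕ), (∀ p ∈ A, p.1 < F.n ∧ p.2 = φ p.1) → F.outOk A = true) :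
    φ F.bot = φ F.top ∨ ∀ x < F.n, φ x = x := by
  simp only [UFrame.check, UFrame.side, Bool.and_eq_true, List.all_eq_true, List.mem_range,
    decide_eq_true_eq, List.contains_iff_mem] at h
  obtain ⟨⟨⟨⟨⟨⟨⟨⟨⟨⟨⟨-, h2⟩, h3⟩, -⟩, -⟩, -⟩, -⟩, -⟩, -⟩, -⟩, -⟩, hd⟩ := h
  rcases F.dfs_aux φ hφ hbin hout F.ord [] h3 (fun p hp => absurd hp List.not_mem_nil) hd with
    e | ⟨e, -⟩
  · exact Or.inl e
  · exact Or.inr fun x hx => e x (h2 x hx).1.1.1.1.1.1.1


end Pool.Agent.Lib.MP_04ca4f_co.Inf
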