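import Pool.Agent.Lib.MP_04ca4f_co.InfTok
import Pool.Agent.Lib.MP_04ca4f_co.InfUSound
import Pool.Agent.Lib.MP_04ca4f_co.InfUOrder

/-!
A checked frame gives a perpendicular. `io` is injective on the frame (`side`: `P` antisymmetric).
`R` = complement of the frame, infinite; take a code on it (`exists_code_on`) and the order `Q` of
`exists_order`. For a common map `f` let `φ x` be `v` if `f (io x) = io v` with `v < n`, otherwise
`n` or `n+1` according to the colour of `f (io x)`. Key fact: two `Q`-comparable points of `R` of the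
same colour are equal. This gives `hbin` and `hout` of `dfs_sound` (in `outOk` the images of `p` and
`q` are one point `K` of `R` with `f r ≤ K ≤ f s` in `P`). If `φ bot = φ top` then
`f (io bot) = f (io top)` and every point lies `Q`-between `io bot` and `io top`, so `f` is
constant. Otherwise `f` fixes the frame; a point of `R` lies above `l1` and the markers among
`l2, l3` allowed by `attL`, below `u1` and the markers allowed by `attU`; by `side` no frame point
does, so its image is in `R`, with the same colour and kind; `f` preserves `cl` (a red and a blue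
image are different); `IsCode.rigid` gives the identity.
-/

set_option autoImplicit false

namespace Pool.Agent.Lib.MP_04ca4f_co.Inf

universe u v

/-- The side conditions that are used here, as propositions. -/
private structure UmSide (F : UFrame) : Prop where
  l1 : F.l1 < F.n
  l2 : F.l2 < F.n
  l3 : F.l3 < F.n
  u1 : F.u1 < F.n
  u2 : F.u2 < F.n
  u3 : F.u3 < F.n
  bot : F.bot < F.n
  top : F.top < F.n
  refl : ∀ x < F.n, F.Q x x = true
  qbot : ∀ x < F.n, F.Q F.bot x = true
  qtop : ∀ x < F.n, F.Q x F.top = true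
  red : ∀ x < F.n, ¬ (F.Q F.l1 x = true ∧ (F.Q F.l2 x = true ∨ F.Q F.l3 x = true) ∧
    F.Q x F.u1 = true ∧ F.Q x F.u2 = true ∧ F.Q x F.u3 = true)
  blue : ∀ x < F.n, ¬ (F.Q F.l1 x = true ∧ F.Q F.l2 x = true ∧ F.Q F.l3 x = true ∧
    F.Q x F.u1 = true ∧ (F.Q x F.u2 = true ∨ F.Q x F.u3 = true))
  anti : ∀ x < F.n, ∀ y < F.n, F.P x y = true → F.P y x = true → x = y
  a2 : ∀ c k, F.attL F.l2 c k = (c || !k)
  a3 : ∀ c k, F.attL F.l3 c k = (c || k)
  b2 : ∀ c k, F.attU c k F.u2 = (!c || !k)
  b3 : ∀ c k, F.attU c k F.u3 = (!c || k)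

private theorem um_side {F : UFrame} (hs : F.side = true) : UmSide F := by
  simp only [UFrame.side, Bool.and_eq_true, decide_eq_true_eq, List.all_eq_true, List.mem_range,
    Bool.not_eq_true'] at hs
  obtain ⟨⟨⟨⟨⟨⟨⟨⟨⟨⟨⟨h1, h2, h3, h4, h5, h6, h7, h8⟩, hx⟩, -⟩, n1⟩, n2⟩, n3⟩, n4⟩, n5⟩, n6⟩, n7⟩,
    n8⟩ := hs
  have hr : ∀ x < F.n, F.Q x x = true := fun x h => (hx x h).1.1.1.1.1.1.2
  refine ⟨h1, h2, h3, h4, h5, h6, h7, h8, hr, fun x h => (hx x h).1.1.1.1.1.2,
    fun x h => (hx x h).1.1.1.1.2, fun x h hh => ?_, fun x h hh => ?_, fun x h y h' e1 e2 => ?_,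
    fun c k => ?_, fun c k => ?_, fun c k => ?_, fun c k => ?_⟩
  · have := (hx x h).1.1.2
    obtain ⟨e1, e2 | e2, e3, e4, e5⟩ := hh <;> simp [e1, e2, e3, e4, e5] at this
  · have := (hx x h).1.2
    obtain ⟨e1, e2, e3, e4, e5 | e5⟩ := hh <;> simp [e1, e2, e3, e4, e5] at this
  · have := ((hx x h).2 y h').1.1.2
    simpa [e1, e2] using this
  · simp [UFrame.attL, n1, n2, hr _ h2]
  · simp [UFrame.attL, n3, n4, hr _ h3]
  · simp [UFrame.attU, n5, n6, hr _ h5]
  · simp [UFrame.attU, n7, n8, hr _ h6]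

private theorem um_low {F : UFrame} {v : ℕ} {c k : Bool} (h : F.attL v c k = true) :
    F.low v = true := by
  simp only [UFrame.attL, UFrame.low, Bool.or_eq_true, Bool.and_eq_true] at h ⊢
  tauto

private theorem um_up {F : UFrame} {v : ℕ} {c k : Bool} (h : F.attU c k v = true) :
    F.up v = true := by
  simp only [UFrame.attU, UFrame.up, Bool.or_eq_true, Bool.and_eq_true] at h ⊢
  tauto

private theorem um_bool (c k c' k' : Bool) (h1 : (c || !k) = true → (c' || !k') = true)
    (h2 : (c || k) = true → (c' || k') = true) (h3 : (!c || !k) = true → (!c' || !k') = true)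
    (h4 : (!c || k) = true → (!c' || k') = true) : c' = c ∧ k' = k := by
  revert c k c' k'
  decide

theorem perp_of_uframe {X : Type u} [PartialOrder X] [Infinite X] (F : UFrame)
    (h : F.check = true) (io : ℕ → X)
    (hio : ∀ x < F.n, ∀ y < F.n, io x ≤ io y ↔ F.P x y = true) : HasPerp X := by
  classical
  have hs : F.side = true := (Bool.and_eq_true_iff.1 h).1
  have S := um_side hs
  have hinj : ∀ x < F.n, ∀ y < F.n, io x = io y → x = y := fun x hx y hy e =>
    S.anti x hx y hy ((hio x hx y hy).1 e.le) ((hio y hy x hx).1 e.ge)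
  obtain ⟨R, hR⟩ : ∃ R : Set X, ∀ x, x ∈ R ↔ ∀ v < F.n, x ≠ io v :=
    ⟨{x | ∀ v < F.n, x ≠ io v}, fun _ => Iff.rfl⟩
  have hRinf : R.Infinite := by
    have h1 : (io '' {v | v < F.n}).Finite := (Set.finite_lt_nat F.n).image io
    refine Set.Infinite.mono (s := (io '' {v | v < F.n})ᶜ) (fun x hx => ?_) h1.infinite_compl
    exact (hR x).2 fun v hv e => hx ⟨v, hv, e.symm⟩
  obtain ⟨col, knd, cl, hc⟩ := exists_code_on R hRinf
  obtain ⟨Q, q1, q2, q3, q4⟩ := F.exists_order hs io hinj R hR col knd cl hc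
  refine ⟨Q, fun f fP fQ => ?_⟩
  have hcase : ∀ x, (∃ v < F.n, x = io v) ∨ x ∈ R := fun x => by
    by_cases hx : x ∈ R
    · exact Or.inr hx
    · rw [hR] at hx
      push Not at hx
      exact Or.inl hx
  have key : ∀ x ∈ R, ∀ y ∈ R, col x = col y → Q.le x y → x = y := fun x hx y hy e hle => by
    rcases (q4 x hx y hy).1 hle with h1 | h1
    · exact h1
    · obtain ⟨e1, e2⟩ := hc.colour x y h1
      rw [e1, e2] at e
      exact absurd e (by decide)
  obtain ⟨φ, hφ⟩ : ∃ φ : ℕ → ℕ, ∀ x, (φ x < F.n ∧ f (io x) = io (φ x)) ∨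
      (f (io x) ∈ R ∧ φ x = F.n + (col (f (io x))).toNat) := by
    have h1 : ∀ x, ∃ v : ℕ, (v < F.n ∧ f (io x) = io v) ∨
        (f (io x) ∈ R ∧ v = F.n + (col (f (io x))).toNat) := fun x => by
      rcases hcase (f (io x)) with ⟨v, hv, e⟩ | h1
      · exact ⟨v, Or.inl ⟨hv, e⟩⟩
      · exact ⟨_, Or.inr ⟨h1, rfl⟩⟩
    exact ⟨fun x => (h1 x).choose, fun x => (h1 x).choose_spec⟩
  have hlt : ∀ x, φ x < F.n → f (io x) = io (φ x) := fun x hx => by
    rcases hφ x with h1 | h1
    · exact h1.2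
    · omega
  have hge : ∀ x, ¬ φ x < F.n → f (io x) ∈ R ∧ φ x = F.n + (col (f (io x))).toNat :=
    fun x hx => (hφ x).resolve_left fun h1 => hx h1.1
  have hsame : ∀ x < F.n, ∀ y < F.n, ¬ φ x < F.n → φ x = φ y → F.cmp x y = true →
      f (io x) = f (io y) := fun x hx y hy h1 e hcmp => by
    obtain ⟨a1, a2⟩ := hge x h1
    obtain ⟨b1, b2⟩ := hge y (e ▸ h1)
    have hcol : col (f (io x)) = col (f (io y)) := by
      rw [a2, b2] at e
      have e' := Nat.add_left_cancel e
      revert e'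
      cases col (f (io x)) <;> cases col (f (io y)) <;> simp
    rcases Bool.or_eq_true_iff.1 hcmp with h2 | h2
    · exact key _ a1 _ b1 hcol (fQ _ _ ((q1 x hx y hy).2 h2))
    · exact (key _ b1 _ a1 hcol.symm (fQ _ _ ((q1 y hy x hx).2 h2))).symm
  have hq : ∀ x < F.n, ∀ y < F.n, F.Q x y = true → F.qle (φ x) (φ y) = true :=
    fun x hx y hy hxy => by
    have h1 := fQ _ _ ((q1 x hx y hy).2 hxy)
    unfold UFrame.qle
    split_ifs with a b b
    · rw [hlt x a, hlt y b] at h1
      exact (q1 _ a _ b).1 h1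
    · rw [hlt x a] at h1
      exact um_low ((q2 _ a _ (hge y b).1).1 h1)
    · rw [hlt y b] at h1
      exact um_up ((q3 _ b _ (hge x a).1).1 h1)
    · obtain ⟨a1, a2⟩ := hge x a
      obtain ⟨b1, b2⟩ := hge y b
      rw [decide_eq_true_eq, a2, b2]
      rcases (q4 _ a1 _ b1).1 h1 with h2 | h2
      · rw [h2]
      · rw [(hc.colour _ _ h2).1]
        simp
  have hp : ∀ x < F.n, ∀ y < F.n, φ x < F.n → φ y < F.n → F.P x y = true →
      F.P (φ x) (φ y) = true := fun x hx y hy a b hxy => by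
    have h1 := fP _ _ ((hio x hx y hy).2 hxy)
    rw [hlt x a, hlt y b] at h1
    exact (hio _ a _ b).1 h1
  have hmain := F.dfs_sound h φ (fun x _ => by
      rcases hφ x with h1 | h1
      · omega
      · have := Bool.toNat_le (col (f (io x)))
        omega)
    (fun x hx y hy => by
      simp only [UFrame.binOk, Bool.and_eq_true, Bool.or_eq_true, Bool.not_eq_true',
        Bool.and_eq_false_iff, decide_eq_false_iff_not]
      refine ⟨⟨?_, ?_⟩, ?_⟩
      · cases e : F.Q x y
        · exact Or.inl rfl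
        · exact Or.inr (hq x hx y hy e)
      · cases e : F.Q y x
        · exact Or.inl rfl
        · exact Or.inr (hq y hy x hx e)
      · by_cases a : φ x < F.n
        · by_cases b : φ y < F.n
          · refine Or.inr ⟨?_, ?_⟩
            · cases e : F.P x y
              · exact Or.inl rfl
              · exact Or.inr (hp x hx y hy a b e)
            · cases e : F.P y x
              · exact Or.inl rfl
              · exact Or.inr (hp y hy x hx b a e)
          · exact Or.inl (Or.inr b)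
        · exact Or.inl (Or.inl a))
    (fun A hA => by
      simp only [UFrame.outOk, List.all_eq_true, Bool.or_eq_true, decide_eq_true_eq,
        Bool.not_eq_true', Bool.and_eq_false_iff, decide_eq_false_iff_not]
      intro p hpA
      obtain ⟨p1, p2⟩ := hA p hpA
      by_cases a : p.2 < F.n
      · exact Or.inl a
      refine Or.inr fun q hqA => ?_
      obtain ⟨r1, r2⟩ := hA q hqA
      by_cases b : p.2 = q.2
      swap
      · exact Or.inl (Or.inl b)
      cases c : F.cmp p.1 q.1
      · exact Or.inl (Or.inr rfl)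
      refine Or.inr fun r hrA => ?_
      obtain ⟨s1, s2⟩ := hA r hrA
      cases d : F.P r.1 p.1
      · exact Or.inl rfl
      refine Or.inr fun s hsA => ?_
      obtain ⟨t1, t2⟩ := hA s hsA
      cases e : F.P q.1 s.1
      · exact Or.inl rfl
      refine Or.inr ?_
      rw [p2] at a
      rw [p2, r2] at b
      have k1 := hsame _ p1 _ r1 a b c
      have k2 : f (io r.1) ≤ f (io p.1) := fP _ _ ((hio _ s1 _ p1).2 d)
      have k3 : f (io p.1) ≤ f (io s.1) := k1 ▸ fP _ _ ((hio _ r1 _ t1).2 e)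
      unfold UFrame.endOk
      rw [s2, t2, p2]
      split_ifs with a' b'
      · rw [hlt _ a'] at k2
        rw [hlt _ b'] at k3
        rw [Bool.and_eq_true, decide_eq_true_eq]
        refine ⟨fun e' => ?_, (hio _ a' _ b').1 (k2.trans k3)⟩
        rw [← e'] at k3
        exact (hR _).1 (hge _ a).1 _ a' (le_antisymm k3 k2)
      · rfl
      · by_cases e1 : φ r.1 = φ s.1
        swap
        · simp [e1]
        cases e2 : F.cmp r.1 s.1
        · simp
        have k4 := hsame _ s1 _ t1 a' e1 e2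
        rw [← k4] at k3
        have k5 : φ r.1 = φ p.1 := by
          rw [(hge _ a').2, (hge _ a).2, le_antisymm k2 k3]
        simp [k5])
  have hb : ∀ x, Q.le (io F.bot) x ∧ Q.le x (io F.top) := fun x => by
    rcases hcase x with ⟨v, hv, rfl⟩ | hx
    · exact ⟨(q1 _ S.bot _ hv).2 (S.qbot v hv), (q1 _ hv _ S.top).2 (S.qtop v hv)⟩
    · refine ⟨(q2 _ S.bot _ hx).2 ?_, (q3 _ S.top _ hx).2 ?_⟩
      · simp [UFrame.attL, S.qbot _ S.l1]
      · simp [UFrame.attU, S.qtop _ S.u1]
  rcases hmain with e | hid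
  · right
    have e1 : f (io F.bot) = f (io F.top) := by
      by_cases a : φ F.bot < F.n
      · rw [hlt _ a, hlt _ (e ▸ a), e]
      · exact hsame _ S.bot _ S.top a e (by simp [UFrame.cmp, S.qbot _ S.top])
    refine ⟨f (io F.bot), fun x => Q.antisymm _ _ ?_ (fQ _ _ (hb x).1)⟩
    rw [e1]
    exact fQ _ _ (hb x).2
  · left
    have hfix : ∀ v < F.n, f (io v) = io v := fun v hv => by
      have h1 := hlt v (by rw [hid v hv]; exact hv)
      rwa [hid v hv] at h1
    have hL : ∀ v < F.n, ∀ y ∈ R, F.attL v (col y) (knd y) = true → Q.le (io v) (f y) :=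
      fun v hv y hy e => hfix v hv ▸ fQ _ _ ((q2 v hv y hy).2 e)
    have hU : ∀ v < F.n, ∀ y ∈ R, F.attU (col y) (knd y) v = true → Q.le (f y) (io v) :=
      fun v hv y hy e => hfix v hv ▸ fQ _ _ ((q3 v hv y hy).2 e)
    have hRR : ∀ y ∈ R, f y ∈ R ∧ col (f y) = col y ∧ knd (f y) = knd y := fun y hy => by
      have c1 := hL _ S.l1 y hy (by simp [UFrame.attL, S.refl _ S.l1])
      have c2 := hL _ S.l2 y hy
      have c3 := hL _ S.l3 y hy
      have d1 := hU _ S.u1 y hy (by simp [UFrame.attU, S.refl _ S.u1])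
      have d2 := hU _ S.u2 y hy
      have d3 := hU _ S.u3 y hy
      rw [S.a2] at c2
      rw [S.a3] at c3
      rw [S.b2] at d2
      rw [S.b3] at d3
      have hf : f y ∈ R := by
        refine (hcase (f y)).resolve_left ?_
        rintro ⟨v, hv, e⟩
        rw [e, q1 _ S.l1 _ hv] at c1
        rw [e, q1 _ S.l2 _ hv] at c2
        rw [e, q1 _ S.l3 _ hv] at c3
        rw [e, q1 _ hv _ S.u1] at d1
        rw [e, q1 _ hv _ S.u2] at d2
        rw [e, q1 _ hv _ S.u3] at d3
        cases ec : col y <;> cases ek : knd y <;> rw [ec, ek] at c2 c3 d2 d3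
        · exact S.red v hv ⟨c1, Or.inl (c2 rfl), d1, d2 rfl, d3 rfl⟩
        · exact S.red v hv ⟨c1, Or.inr (c3 rfl), d1, d2 rfl, d3 rfl⟩
        · exact S.blue v hv ⟨c1, c2 rfl, c3 rfl, d1, Or.inl (d2 rfl)⟩
        · exact S.blue v hv ⟨c1, c2 rfl, c3 rfl, d1, Or.inr (d3 rfl)⟩
      rw [q2 _ S.l2 _ hf, S.a2] at c2
      rw [q2 _ S.l3 _ hf, S.a3] at c3
      rw [q3 _ S.u2 _ hf, S.b2] at d2
      rw [q3 _ S.u3 _ hf, S.b3] at d3
      exact ⟨hf, um_bool _ _ _ _ c2 c3 d2 d3⟩
    have hrig := hc.rigid f hRR fun x y hxy => by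
      obtain ⟨hx, hy⟩ := hc.mem x y hxy
      obtain ⟨e1, e2⟩ := hc.colour x y hxy
      refine ((q4 _ (hRR x hx).1 _ (hRR y hy).1).1
        (fQ _ _ ((q4 x hx y hy).2 (Or.inr hxy)))).resolve_left fun e => ?_
      have e3 := (hRR x hx).2.1
      rw [e, (hRR y hy).2.1, e1, e2] at e3
      exact absurd e3 (by decide)
    funext x
    rcases hcase x with ⟨v, hv, rfl⟩ | hx
    · exact hfix v hv
    · exact hrig x hx


end Pool.Agent.Lib.MP_04ca4f_co.Inf
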