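import Pool.Agent.Lib.MP_04ca4f_co.InfDefs

/-!
A rigid system of four relations on any infinite set (Vopenka, Pultr, Hedrlin).

Proof. Well-order `R`, let `W := WithTop R` (well-founded linear order with a top). For `m : W` call
`s : ℕ → W` cofinal in `m` if `s n < m` for all `n` and every `y < m` has `y ≤ s n` for some `n`;
choose one such `sq m` when it exists. Objects `O := W ⊕ W × ℕ`. Relations: `r 0` is `<` on `W`
(between `inl` points only); `r 1 (inr (m,n)) (inr (m,n+1))`; `r 2 (inr (m,0)) (inl m)`;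
`r 3 (inr (m,n)) (inl (sq m n))` when `m` has a cofinal sequence. Let `g` preserve all four.
`g` maps `inl` points to `inl` points (each is `r 0`-related to or from another one, using the top
and a point below it), giving a strictly monotone `h : W → W`, so `x ≤ h x`. By `r 2`, `r 1`:
`g (inr (m,n)) = inr (h m, n)`. Suppose `x0 < h x0`, put `x (n+1) = h (x n)` (strictly increasing),
`m` the least strict upper bound of the `x n` (the top is one). Then `x` is cofinal in `m`, so
`s := sq m` is; by `r 3`, `h m` has a cofinal sequence and `sq (h m) n = h (s n)`. Each `s n ≤ x k`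
for some `k`, so `h (s n) ≤ x (k+1) < m`; hence `h m ≤ m` (otherwise `m ≤ sq (h m) n < m`), so
`h m = m` and `h (s n) = s n`. Take `n` with `x 0 ≤ s n`; by induction `x k ≤ s n` for all `k`, so
`s n < m` is a strict upper bound of the `x k`, contradiction. So `h = id` and `g = id`.
Finally `#O = #R`; transport along an equivalence, `t n` is the image of `inr (⊤, n)`.
-/

set_option autoImplicit false

namespace Pool.Agent.Lib.MP_04ca4f_co.Inf

universe u v

section aux

variable {W : Type u} [LinearOrder W]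

/-- `s` is cofinal below `m`. -/
def vphCof (m : W) (s : ℕ → W) : Prop := (∀ n, s n < m) ∧ ∀ y, y < m → ∃ n, y ≤ s n

/-- The four relations. -/
def vphRel : Fin 4 → W ⊕ W × ℕ → W ⊕ W × ℕ → Prop
  | 0, x, y => ∃ a b : W, a < b ∧ x = Sum.inl a ∧ y = Sum.inl b
  | 1, x, y => ∃ (m : W) (n : ℕ), x = Sum.inr (m, n) ∧ y = Sum.inr (m, n + 1)
  | 2, x, y => ∃ m : W, x = Sum.inr (m, 0) ∧ y = Sum.inl m
  | 3, x, y => ∃ (m : W) (n : ℕ) (h : ∃ s, vphCof m s),
      x = Sum.inr (m, n) ∧ y = Sum.inl (h.choose n)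

theorem vph_fix [WellFoundedLT W] [OrderTop W] {h : W → W} (hm : StrictMono h)
    (h3 : ∀ (m : W) (hs : ∃ s, vphCof m s) (n : ℕ),
      ∃ hs' : ∃ s, vphCof (h m) s, hs'.choose n = h (hs.choose n)) (x0 : W) : h x0 = x0 := by
  by_contra hne
  have hlt : x0 < h x0 := lt_of_le_of_ne hm.le_apply (Ne.symm hne)
  set x : ℕ → W := fun k => h^[k] x0 with hx
  have hsucc : ∀ k, x (k + 1) = h (x k) := fun k => Function.iterate_succ_apply' h k x0
  have hinc : ∀ k, x k < x (k + 1) := by
    intro k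
    induction k with
    | zero => exact hlt
    | succ k ih => rw [hsucc (k + 1)]; nth_rewrite 1 [hsucc k]; exact hm ih
  have hne' : ({y : W | ∀ k, x k < y}).Nonempty := ⟨⊤, fun k => (hinc k).trans_le le_top⟩
  set m := (wellFounded_lt (α := W)).min _ hne' with hmdef
  have hm1 : ∀ k, x k < m := (wellFounded_lt (α := W)).min_mem _ hne'
  have hm2 : ∀ y, y < m → ∃ k, y ≤ x k := by
    intro y hy
    by_contra hc
    push Not at hc
    exact (wellFounded_lt (α := W)).not_lt_min _ (show y ∈ {y : W | ∀ k, x k < y} from hc) hy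
  have hs : ∃ s, vphCof m s := ⟨x, hm1, hm2⟩
  obtain ⟨hs', -⟩ := h3 m hs 0
  have hs'' : ∀ n, hs'.choose n = h (hs.choose n) := fun n => (h3 m hs n).2
  have hb : ∀ n, h (hs.choose n) < m := by
    intro n
    obtain ⟨k, hk⟩ := hm2 _ (hs.choose_spec.1 n)
    exact (hm.monotone hk).trans_lt (hsucc k ▸ hm1 (k + 1))
  have hle : h m ≤ m := by
    by_contra hc
    obtain ⟨n, hn⟩ := hs'.choose_spec.2 m (not_le.1 hc)
    rw [hs''] at hn
    exact absurd (hb n) (not_lt.2 hn)
  have heq : h m = m := le_antisymm hle hm.le_apply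
  have hfix : ∀ n, h (hs.choose n) = hs.choose n := by
    intro n
    rw [← hs'' n]
    have : ∀ (m' : W) (_ : m' = m) (q : ∃ s, vphCof m' s), q.choose n = hs.choose n := by
      rintro _ rfl q; rfl
    exact this _ heq hs'
  obtain ⟨n, hn⟩ := hs.choose_spec.2 (x 0) (hm1 0)
  have hall : ∀ k, x k ≤ hs.choose n := by
    intro k
    induction k with
    | zero => exact hn
    | succ k ih => rw [hsucc, ← hfix n]; exact hm.monotone ih
  obtain ⟨k, hk⟩ := hm2 _ (hs.choose_spec.1 n)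
  exact absurd ((hinc k).trans_le (hall (k + 1))) (not_lt.2 hk)

theorem vph_rigid [WellFoundedLT W] [OrderTop W] [Nontrivial W] (g : W ⊕ W × ℕ → W ⊕ W × ℕ)
    (hg : ∀ j x y, vphRel j x y → vphRel j (g x) (g y)) (x : W ⊕ W × ℕ) : g x = x := by
  have h0 : ∀ a : W, ∃ b, g (Sum.inl a) = Sum.inl b := by
    intro a
    by_cases ha : a = ⊤
    · obtain ⟨c, hc⟩ := exists_ne (⊤ : W)
      obtain ⟨_, b, -, -, hb⟩ := hg 0 (Sum.inl c) (Sum.inl a) ⟨c, a, ha ▸ hc.lt_top, rfl, rfl⟩
      exact ⟨b, hb⟩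
    · obtain ⟨b, _, -, hb, -⟩ := hg 0 (Sum.inl a) (Sum.inl ⊤) ⟨a, ⊤, Ne.lt_top ha, rfl, rfl⟩
      exact ⟨b, hb⟩
  choose h hh using h0
  have hm : StrictMono h := by
    intro a b hab
    obtain ⟨a', b', hlt, e1, e2⟩ := hg 0 (Sum.inl a) (Sum.inl b) ⟨a, b, hab, rfl, rfl⟩
    rw [hh] at e1 e2
    rw [Sum.inl_injective e1, Sum.inl_injective e2]
    exact hlt
  have h1 : ∀ (m : W) (n : ℕ), g (Sum.inr (m, n)) = Sum.inr (h m, n) := by
    intro m n
    induction n with
    | zero =>
      obtain ⟨m', e1, e2⟩ := hg 2 (Sum.inr (m, 0)) (Sum.inl m) ⟨m, rfl, rfl⟩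
      rw [hh] at e2
      rw [e1, Sum.inl_injective e2]
    | succ n ih =>
      obtain ⟨m', n', e1, e2⟩ := hg 1 (Sum.inr (m, n)) (Sum.inr (m, n + 1)) ⟨m, n, rfl, rfl⟩
      rw [ih] at e1
      obtain ⟨rfl, rfl⟩ := Prod.mk.inj (Sum.inr_injective e1)
      exact e2
  have h3 : ∀ (m : W) (hs : ∃ s, vphCof m s) (n : ℕ),
      ∃ hs' : ∃ s, vphCof (h m) s, hs'.choose n = h (hs.choose n) := by
    intro m hs n
    obtain ⟨m', n', hs', e1, e2⟩ :=
      hg 3 (Sum.inr (m, n)) (Sum.inl (hs.choose n)) ⟨m, n, hs, rfl, rfl⟩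
    rw [h1] at e1
    obtain ⟨rfl, rfl⟩ := Prod.mk.inj (Sum.inr_injective e1)
    rw [hh] at e2
    exact ⟨hs', (Sum.inl_injective e2).symm⟩
  have hid := vph_fix hm h3
  rcases x with a | ⟨m, n⟩
  · rw [hh, hid]
  · rw [h1, hid]

end aux

open Cardinal in
theorem exists_rigid (R : Type u) [Infinite R] :
    ∃ r : Fin 4 → R → R → Prop,
      (∀ g : R → R, (∀ j x y, r j x y → r j (g x) (g y)) → ∀ x, g x = x) ∧
      ∃ t : ℕ → R, Function.Injective t ∧ ∀ n, r 1 (t n) (t (n + 1)) := by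
  obtain ⟨_, _⟩ := exists_wellFoundedLT R
  have h0 := aleph0_le_mk R
  have h1 : #(WithTop R) = #R := by
    change #(Option R) = #R
    rw [mk_option, add_one_eq h0]
  have h2 : #(WithTop R ⊕ WithTop R × ℕ) = #R := by
    rw [mk_sum, lift_id, lift_id, mk_prod, lift_uzero, mk_nat, lift_aleph0, h1,
      mul_aleph0_eq h0, add_eq_self h0]
  obtain ⟨e⟩ := Cardinal.eq.1 h2
  refine ⟨fun j x y => vphRel j (e.symm x) (e.symm y), fun g hg x => ?_,
    fun n => e (Sum.inr (⊤, n)), fun a b hab => ?_, fun n => ?_⟩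
  · have h3 := vph_rigid (fun v => e.symm (g (e v))) (fun j x y h =>
      hg j (e x) (e y) (by simpa only [e.symm_apply_apply] using h)) (e.symm x)
    simp only [e.apply_symm_apply] at h3
    exact e.symm.injective h3
  · exact (Prod.mk.inj (Sum.inr_injective (e.injective hab))).2
  · simp only [e.symm_apply_apply]
    exact ⟨⊤, n, rfl, rfl⟩


end Pool.Agent.Lib.MP_04ca4f_co.Inf
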