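import Pool.Agent.Lib.MP_04ca4f_co.Fence

/-!
# Existence of doubly lexical orderings
-/

set_option autoImplicit false

namespace Pool.Agent.Lib.MP_04ca4f_co

open Finset

variable {X : Type*}

theorem exists_pos [Fintype X] (side : X → Bool) : ∃ pos : X → ℕ,
    (∀ x y, side x = side y → pos x = pos y → x = y) ∧
    (∀ x k, pos x = k + 1 → ∃ y, side y = side x ∧ pos y = k) ∧
    ∀ x, pos x ≤ Fintype.card X := by
  classical
  let F : ∀ b : Bool, {y // side y = b} ≃ Fin (Fintype.card {y // side y = b}) :=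
    fun b => Fintype.equivFin _
  let pos : X → ℕ := fun x => (F (side x) ⟨x, rfl⟩).val
  have key : ∀ x b (h : side x = b), pos x = (F b ⟨x, h⟩).val := by
    intro x b h
    subst h
    rfl
  refine ⟨pos, fun x y h1 h2 => ?_, fun x k h => ?_, fun x => ?_⟩
  · rw [key x _ h1, key y _ rfl] at h2
    exact congrArg Subtype.val ((F _).injective (Fin.ext h2))
  · have h1 : k < Fintype.card {y // side y = side x} := by
      have := (F (side x) ⟨x, rfl⟩).2
      rw [key x _ rfl] at h
      omega
    refine ⟨((F (side x)).symm ⟨k, h1⟩).1, ((F (side x)).symm ⟨k, h1⟩).2, ?_⟩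
    rw [key _ _ ((F (side x)).symm ⟨k, h1⟩).2]
    simp
  · exact (F (side x) ⟨x, rfl⟩).2.le.trans (Fintype.card_subtype_le _)

theorem exists_lex [Fintype X] (adj : X → X → Prop) (side : X → Bool)
    (symm : ∀ x y, adj x y → adj y x) (side_ne : ∀ x y, adj x y → side x ≠ side y)
    (twin : ∀ x y, side x = side y → (∀ z, adj x z ↔ adj y z) → x = y) : ∃ pos : X → ℕ,
    (∀ x y, side x = side y → pos x = pos y → x = y) ∧
    (∀ x k, pos x = k + 1 → ∃ y, side y = side x ∧ pos y = k) ∧
    ∀ x y, side x = side y → pos y < pos x →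
      ∃ z, adj x z ∧ ¬ adj y z ∧ ∀ z', pos z' < pos z → adj y z' → adj x z' := by
  classical
  obtain ⟨p, p1, p2, p3⟩ := exists_pos side
  set N := Fintype.card X
  let w : Equiv.Perm X → X → ℤ := fun τ x => 2 ^ (N - p (τ x))
  let Φ : Equiv.Perm X → ℤ := fun τ => ∑ u, ∑ v, if adj u v then w τ u * w τ v else 0
  obtain ⟨τ, hτ, hmin⟩ := exists_min_image
    (univ.filter fun τ : Equiv.Perm X => ∀ x, side (τ x) = side x) Φ ⟨1, by simp⟩
  have hs : ∀ x, side (τ x) = side x := (mem_filter.mp hτ).2
  have q1 : ∀ x y, side x = side y → p (τ x) = p (τ y) → x = y := fun x y h1 h2 =>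
    τ.injective (p1 _ _ (by rw [hs, hs, h1]) h2)
  refine ⟨fun x => p (τ x), q1, fun x k h => ?_, fun x y hxy hlt => ?_⟩
  · obtain ⟨y, h1, h2⟩ := p2 _ k h
    refine ⟨τ.symm y, ?_, by simpa using h2⟩
    rw [← hs, Equiv.apply_symm_apply, h1, hs]
  replace hlt : p (τ y) < p (τ x) := hlt
  have hne : x ≠ y := fun h => by
    rw [h] at hlt
    exact lt_irrefl _ hlt
  obtain ⟨z, hz, hzmin⟩ := exists_min_image (univ.filter fun z => ¬ (adj x z ↔ adj y z))
    (fun z => p (τ z)) (by
      by_contra h
      rw [not_nonempty_iff_eq_empty, filter_eq_empty_iff] at h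
      exact hne (twin x y hxy fun z => not_not.mp (h (mem_univ z))))
  have hagree : ∀ z', p (τ z') < p (τ z) → (adj x z' ↔ adj y z') := fun z' h => by
    by_contra hh
    exact absurd (hzmin z' (mem_filter.mpr ⟨mem_univ _, hh⟩)) (not_le.mpr h)
  have hz' := (mem_filter.mp hz).2
  by_cases hxz : adj x z
  · exact ⟨z, hxz, fun h => hz' (iff_of_true hxz h), fun z' h1 h2 => (hagree z' h1).mpr h2⟩
  exfalso
  have hyz : adj y z := by
    by_contra h
    exact hz' (iff_of_false hxz h)
  let V : X → ℤ := fun u => ∑ v, if adj u v then w τ v else 0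
  have hV : V x < V y := by
    let S := univ.filter fun v => adj x v ∧ ¬ adj y v
    have h1 : ∑ v ∈ S, w τ v < w τ z := by
      have hS : ∀ v ∈ S, side v = side z ∧ p (τ z) < p (τ v) := by
        intro v hv
        have hv' := (mem_filter.mp hv).2
        have a1 : side v = side z := by
          have b1 := side_ne _ _ hv'.1
          have b2 := side_ne _ _ hyz
          revert b1 b2
          rw [hxy]
          cases side y <;> cases side v <;> cases side z <;> simp
        refine ⟨a1, lt_of_le_of_ne (hzmin v (mem_filter.mpr ⟨mem_univ _, fun h => hv'.2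
          (h.mp hv'.1)⟩)) fun h => hxz ?_⟩
        rw [q1 z v a1.symm h]
        exact hv'.1
      have h2 : ∑ v ∈ S, w τ v = ((∑ k ∈ S.image fun v => N - p (τ v), 2 ^ k : ℕ) : ℤ) := by
        rw [sum_image]
        · simp [w]
        · intro v hv v' hv' h
          have a1 := p3 (τ v)
          have a2 := p3 (τ v')
          exact q1 v v' ((hS v hv).1.trans (hS v' hv').1.symm) (by simp only at h; omega)
      rw [h2]
      have h3 := Nat.geomSum_lt (m := 2) (n := N - p (τ z))
        (s := S.image fun v => N - p (τ v)) le_rfl (by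
          intro k hk
          obtain ⟨v, hv, rfl⟩ := mem_image.mp hk
          have a1 := p3 (τ v)
          have a2 := (hS v hv).2
          omega)
      simp only [w]
      exact_mod_cast h3
    have h2 : V x - V y ≤ ∑ v, ((if v ∈ S then w τ v else 0) - if v = z then w τ v else 0) := by
      simp only [V, ← sum_sub_distrib]
      refine sum_le_sum fun v _ => ?_
      have hw : 0 ≤ w τ v := by positivity
      by_cases hvz : v = z
      · subst hvz
        simp [S, hxz, hyz]
      · by_cases a1 : adj x v <;> by_cases a2 : adj y v <;> simp [S, a1, a2, hvz, hw]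
    rw [sum_sub_distrib, sum_ite_mem, univ_inter, sum_ite_eq'] at h2
    simp only [mem_univ, if_true] at h2
    linarith
  have hd : w τ x < w τ y := by
    have a1 := p3 (τ x)
    exact pow_lt_pow_right₀ (by norm_num) (by omega)
  have hmem : τ * Equiv.swap x y ∈
      univ.filter fun τ : Equiv.Perm X => ∀ x, side (τ x) = side x := by
    refine mem_filter.mpr ⟨mem_univ _, fun u => ?_⟩
    rw [Equiv.Perm.mul_apply, hs, Equiv.swap_apply_def]
    split_ifs with h1 h2
    · rw [h1, hxy]
    · rw [h2, hxy]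
    · rfl
  have hle := hmin _ hmem
  set d := w τ y - w τ x with hdd
  let δ : X → ℤ := fun u => (if u = x then d else 0) - if u = y then d else 0
  have hw' : ∀ u, w (τ * Equiv.swap x y) u = w τ u + δ u := by
    intro u
    by_cases h1 : u = x
    · subst h1
      simp [w, δ, hne, hdd]
    · by_cases h2 : u = y
      · subst h2
        simp [w, δ, h1, hdd]
      · simp [w, δ, h1, h2, Equiv.swap_apply_of_ne_of_ne h1 h2]
  have hδ : ∀ u v, adj u v → δ u * δ v = 0 := by
    intro u v h
    have a1 := side_ne u v h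
    by_cases h1 : u = x ∨ u = y
    · have b1 : v ≠ x := by
        rintro rfl
        rcases h1 with rfl | rfl
        · exact a1 rfl
        · exact a1 hxy.symm
      have b2 : v ≠ y := by
        rintro rfl
        rcases h1 with rfl | rfl
        · exact a1 hxy
        · exact a1 rfl
      simp [δ, b1, b2]
    · rw [not_or] at h1
      simp [δ, h1.1, h1.2]
  have hsum : ∑ u, δ u * V u = d * (V x - V y) := by
    simp only [δ, sub_mul, sum_sub_distrib, ite_mul, zero_mul, sum_ite_eq', mem_univ, if_true]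
    ring
  have e1 : ∑ u, ∑ v, (if adj u v then δ u * w τ v else 0) = ∑ u, δ u * V u := by
    refine sum_congr rfl fun u _ => ?_
    simp only [V, mul_sum, mul_ite, mul_zero]
  have e2 : ∑ u, ∑ v, (if adj u v then w τ u * δ v else 0) = ∑ u, δ u * V u := by
    rw [sum_comm, ← e1]
    refine sum_congr rfl fun u _ => sum_congr rfl fun v _ => ?_
    rw [mul_comm]
    exact if_congr ⟨symm _ _, symm _ _⟩ rfl rfl
  have e3 : Φ (τ * Equiv.swap x y) = Φ τ + (∑ u, ∑ v, (if adj u v then δ u * w τ v else 0)) +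
      ∑ u, ∑ v, (if adj u v then w τ u * δ v else 0) := by
    simp only [Φ, ← sum_add_distrib]
    refine sum_congr rfl fun u _ => sum_congr rfl fun v _ => ?_
    split_ifs with h
    · rw [hw', hw']
      linear_combination hδ u v h
    · simp
  rw [e3, e1, e2, hsum] at hle
  have : 0 < d := by omega
  nlinarith

/-- Height two, at least three points, no nontrivial autonomous set. -/
theorem exists_lexi [Finite X] (P : PartialOrder X)
    (hprime : ¬ ∃ A : Set X, A ≠ Set.univ ∧ A.Nontrivial ∧ ∀ x ∉ A,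
      ((∃ a ∈ A, P.lt x a) → ∀ a ∈ A, P.lt x a) ∧ ((∃ a ∈ A, P.lt a x) → ∀ a ∈ A, P.lt a x))
    (h2 : ¬ ∃ x y z, P.lt x y ∧ P.lt y z) (h3 : ∀ x y : X, ∃ z, z ≠ x ∧ z ≠ y) (x₀ : X) :
    ∃ L : Lexi X, (∀ x y, L.adj x y ↔ (P.lt x y ∨ P.lt y x)) ∧
      ∀ x, L.side x = true ↔ ∃ y, P.lt x y := by
  classical
  cases nonempty_fintype X
  let adj : X → X → Prop := fun x y => x < y ∨ y < x
  let side : X → Bool := fun x => decide (∃ y, x < y)
  have hside : ∀ x, side x = true ↔ ∃ y, x < y := fun x => by simp [side]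
  have hlo : ∀ x y, x < y → side x = true := fun x y h => (hside x).mpr ⟨y, h⟩
  have hhi : ∀ x y, x < y → side y = false := fun x y h => by
    rw [← Bool.not_eq_true, hside]
    exact fun ⟨z, hz⟩ => h2 ⟨x, y, z, h, hz⟩
  have symm : ∀ x y, adj x y → adj y x := fun x y h => h.symm
  have side_ne : ∀ x y, adj x y → side x ≠ side y := by
    rintro x y (h | h) <;> simp [hlo _ _ h, hhi _ _ h]
  have twin : ∀ x y, side x = side y → (∀ z, adj x z ↔ adj y z) → x = y := by
    intro x y hs h
    by_contra hne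
    obtain ⟨z, hz1, hz2⟩ := h3 x y
    have k1 : ∀ u a a', side a = side a' → (adj a u → adj a' u) → u < a → u < a' := by
      intro u a a' e1 e2 e3
      rcases e2 (Or.inr e3) with e4 | e4
      · have := hlo _ _ e4
        rw [← e1, hhi _ _ e3] at this
        exact absurd this (by simp)
      · exact e4
    have k2 : ∀ u a a', side a = side a' → (adj a u → adj a' u) → a < u → a' < u := by
      intro u a a' e1 e2 e3
      rcases e2 (Or.inl e3) with e4 | e4
      · exact e4
      · have := hhi _ _ e4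
        rw [← e1, hlo _ _ e3] at this
        exact absurd this (by simp)
    refine hprime ⟨{x, y}, fun hh => ?_, Set.nontrivial_pair hne, fun u _ => ⟨?_, ?_⟩⟩
    · have : z ∈ ({x, y} : Set X) := hh ▸ Set.mem_univ z
      exact this.elim hz1 hz2
    · rintro ⟨a, rfl | rfl, ha⟩ a' (rfl | rfl)
      exacts [ha, k1 u _ _ hs (h u).mp ha, k1 u _ _ hs.symm (h u).mpr ha, ha]
    · rintro ⟨a, rfl | rfl, ha⟩ a' (rfl | rfl)
      exacts [ha, k2 u _ _ hs (h u).mp ha, k2 u _ _ hs.symm (h u).mpr ha, ha]
  have closed : ∀ W : Set X, W ≠ Set.univ → W.Nontrivial →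
      ¬ ∀ x ∈ W, ∀ y, adj x y → y ∈ W := fun W h1 h2 h =>
    hprime ⟨W, h1, h2, fun u hu => ⟨fun ⟨a, ha, h'⟩ => absurd (h a ha u (Or.inr h')) hu,
      fun ⟨a, ha, h'⟩ => absurd (h a ha u (Or.inl h')) hu⟩⟩
  have conn : ∀ W : Set X, W.Nonempty → (∀ x ∈ W, ∀ y, adj x y → y ∈ W) → W = Set.univ := by
    rintro W ⟨x, hx⟩ h
    by_contra hW
    by_cases hn : W.Nontrivial
    · exact closed W hW hn h
    · obtain ⟨y, hy, -⟩ := h3 x x
      obtain ⟨z, hz1, hz2⟩ := h3 x y
      have hs : ∀ u, u ≠ x → u ∉ W := fun u hu hh => hn ⟨u, hh, x, hx, hu⟩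
      refine closed Wᶜ (fun hh => ?_) ⟨y, hs y hy, z, hs z hz1, hz2.symm⟩
        fun u hu v huv hv => hu (h v hv u huv.symm)
      exact (show x ∈ Wᶜ from hh ▸ Set.mem_univ x) hx
  have nb : ∀ x, ∃ y, adj x y := by
    intro x
    by_contra h
    obtain ⟨y, hy, -⟩ := h3 x x
    have := conn {x} ⟨x, rfl⟩ fun u hu v huv => absurd ⟨v, (show u = x from hu) ▸ huv⟩ h
    exact hy (show y ∈ ({x} : Set X) from this ▸ Set.mem_univ y)
  obtain ⟨pos, q1, q2, q3⟩ := exists_lex adj side symm side_ne twin
  refine ⟨⟨adj, side, pos, symm, side_ne, q1, q2, fun b => ?_, q3, conn, ?_⟩,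
    fun _ _ => Iff.rfl, hside⟩
  · obtain ⟨y, hy⟩ := nb x₀
    have := side_ne _ _ hy
    by_cases h : side x₀ = b
    · exact ⟨x₀, h⟩
    · refine ⟨y, ?_⟩
      revert this h
      cases side x₀ <;> cases side y <;> cases b <;> simp
  · intro x y hx hy hxy
    have full : ∀ x y, pos x = 0 → pos y = 0 → adj x y → ∀ u, side u = side x → adj u y := by
      intro x y hx hy hxy u hu
      by_cases h0 : pos u = 0
      · rwa [q1 u x hu (by omega)]
      · obtain ⟨z, a1, a2, a3⟩ := q3 u x hu (by omega)
        by_cases hz : pos z = 0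
        · refine absurd ?_ a2
          rwa [q1 z y ?_ (by omega)]
          have b1 := side_ne _ _ a1
          have b2 := side_ne _ _ hxy
          revert b1 b2
          rw [hu]
          cases side x <;> cases side y <;> cases side z <;> simp
        · exact a3 y (by omega) hxy
    have single : ∀ x y, pos x = 0 → pos y = 0 → adj x y → ∀ u, side u = side x → u = x := by
      intro x y hx hy hxy u hu
      by_contra hne
      obtain ⟨z, a1, a2, -⟩ := q3 u x hu (by
        have := mt (q1 u x hu) hne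
        omega)
      refine a2 (symm _ _ (full y x hy hx (symm _ _ hxy) z ?_))
      have b1 := side_ne _ _ a1
      have b2 := side_ne _ _ hxy
      revert b1 b2
      rw [hu]
      cases side x <;> cases side y <;> cases side z <;> simp
    obtain ⟨z, hz1, hz2⟩ := h3 x y
    by_cases h : side z = side x
    · exact hz1 (single x y hx hy hxy z h)
    · refine hz2 (single y x hy hx (symm _ _ hxy) z ?_)
      have b2 := side_ne _ _ hxy
      revert h b2
      cases side x <;> cases side y <;> cases side z <;> simp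

/-- The order with at most one strict relation. -/
@[reducible] def arrow (x y : X) : PartialOrder X where
  le u v := u = v ∨ (u = x ∧ v = y)
  le_refl _ := Or.inl rfl
  le_trans := by
    rintro a b c (rfl | h) h'
    · exact h'
    · rcases h' with rfl | h'
      · exact Or.inr h
      · exact Or.inr ⟨h.1, h'.2⟩
  le_antisymm := by
    rintro a b (rfl | h) h'
    · rfl
    · rcases h' with rfl | h'
      · rfl
      · rw [h.1, h'.1]

theorem height_two [Finite X] (P : PartialOrder X)
    (hprime : ¬ ∃ A : Set X, A ≠ Set.univ ∧ A.Nontrivial ∧ ∀ x ∉ A,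
      ((∃ a ∈ A, P.lt x a) → ∀ a ∈ A, P.lt x a) ∧ ((∃ a ∈ A, P.lt a x) → ∀ a ∈ A, P.lt a x))
    (h2 : ¬ ∃ x y z, P.lt x y ∧ P.lt y z) :
    ∃ Q : PartialOrder X, ∀ f : X → X, (∀ x y, P.le x y → P.le (f x) (f y)) →
      (∀ x y, Q.le x y → Q.le (f x) (f y)) → f = id ∨ ∃ c, ∀ x, f x = c := by
  classical
  by_cases h3 : ∀ x y : X, ∃ z, z ≠ x ∧ z ≠ y
  · rcases isEmpty_or_nonempty X with hX | ⟨⟨x₀⟩⟩
    · exact ⟨P, fun f _ _ => Or.inl (funext fun x => isEmptyElim x)⟩
    obtain ⟨L, h1, h4⟩ := exists_lexi P hprime h2 h3 x₀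
    refine ⟨L.fence, fun f hP hQ => Lexi.Good.trivial (L := L) ⟨fun x y h => ?_,
      Lexi.near_of_fence hQ⟩⟩
    rcases (h1 x y).mp h with h | h
    · rcases (hP x y h.le).eq_or_lt with h5 | h5
      · exact Or.inl h5
      · exact Or.inr ⟨(h1 _ _).mpr (Or.inl h5),
          ((h4 _).mpr ⟨_, h5⟩).trans ((h4 _).mpr ⟨_, h⟩).symm⟩
    · rcases (hP y x h.le).eq_or_lt with h5 | h5
      · exact Or.inl h5.symm
      · refine Or.inr ⟨(h1 _ _).mpr (Or.inr h5), ?_⟩
        have a1 : ¬ L.side (f x) = true := fun hh => by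
          obtain ⟨z, hz⟩ := (h4 _).mp hh
          exact h2 ⟨_, _, _, h5, hz⟩
        have a2 : ¬ L.side x = true := fun hh => by
          obtain ⟨z, hz⟩ := (h4 _).mp hh
          exact h2 ⟨_, _, _, h, hz⟩
        rw [Bool.not_eq_true] at a1 a2
        rw [a1, a2]
  · push Not at h3
    obtain ⟨x, y, hxy⟩ := h3
    have hall : ∀ z, z = x ∨ z = y := fun z => or_iff_not_imp_left.mpr (hxy z)
    refine ⟨arrow x y, fun f _ hQ => ?_⟩
    rcases hQ x y (Or.inr ⟨rfl, rfl⟩) with h | h
    · refine Or.inr ⟨f x, fun z => ?_⟩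
      rcases hall z with rfl | rfl
      · rfl
      · exact h.symm
    · refine Or.inl (funext fun z => ?_)
      rcases hall z with rfl | rfl
      · exact h.1
      · exact h.2

end Pool.Agent.Lib.MP_04ca4f_co
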