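import Pool.Agent.Lib.MP_04ca4f_co.SkipCases

/-!
# Height five: the decision between the three frames
-/

set_option autoImplicit false

namespace Pool.Agent.Lib.MP_04ca4f_co

variable {X : Type*} {r : X → X → Prop} {a s z t b m x : X}

/-- Two middle points s, m below the centre z of a chain of five points. -/
structure Fork5 (r : X → X → Prop) (a s x m z t b : X) : Prop where
  prime : Prime r
  trans : ∀ x y z, r x y → r y z → r x z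
  asymm : ∀ x y, r x y → ¬ r y x
  no6 : ∀ x₁ x₂ x₃ x₄ x₅ x₆, r x₁ x₂ → r x₂ x₃ → r x₃ x₄ → r x₄ x₅ → ¬ r x₅ x₆
  c1 : r a s
  c2 : r s z
  d1 : r x m
  d2 : r m z
  c3 : r z t
  c4 : r t b
  ms : m ≠ s
  hC : ∀ p, r p t → p ≠ z → (∃ y, r y p) → r p z

namespace Fork5

theorem swap (h : Fork5 r a s x m z t b) : Fork5 r x m a s z t b :=
  ⟨h.prime, h.trans, h.asymm, h.no6, h.d1, h.d2, h.c1, h.c2, h.c3, h.c4, h.ms.symm, h.hC⟩

theorem ne (h : Fork5 r a s x m z t b) {u v : X} (e : r u v) : u ≠ v := fun e' =>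
  h.asymm u u (e' ▸ e) (e' ▸ e)

theorem sm (h : Fork5 r a s x m z t b) : ¬ r s m := fun e =>
  h.no6 _ _ _ _ _ _ h.c1 e h.d2 h.c3 h.c4

theorem dia (h : Fork5 r a s x m z t b) (c : X) (h1 : r s c) (h2 : r c t) : c = z := by
  by_contra hne
  exact h.no6 _ _ _ _ _ _ h.c1 h1 (h.hC c h2 hne ⟨s, h1⟩) h.c3 h.c4

theorem ch (h : Fork5 r a s x m z t b) : Ch5 r a s z t b m :=
  ⟨h.prime, h.trans, h.asymm, h.no6, h.c1, h.c2, h.c3, h.c4, ⟨x, h.d1⟩,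
    ⟨z, h.d2, h.ne (h.trans _ _ _ h.c3 h.c4)⟩, h.ms, h.ne h.d2, h.ne (h.trans _ _ _ h.d2 h.c3),
    h.dia⟩

/-- The points below s are not below all other points. -/
theorem not_all (h : Fork5 r a s x m z t b) (hD : ∀ d, r d s → r d m)
    (hX : ∀ y, y = s ∨ y = m ∨ r s y ∨ r y s) : False :=
  h.prime.not_series h.asymm (fun d => r d s) h.c1 (fun e => h.ne e rfl)
    (h.asymm _ _ h.c2) (h.ne h.c2) fun d e hd he => by
      rcases hX e with c | c | c | c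
      exacts [c ▸ hd, c ▸ hD d hd, h.trans _ _ _ hd c, absurd c he]

theorem single [Finite X] (h : Fork5 r a s x m z t b) (hU : ∀ u, r t u → u = b) : PerpR r := by
  have zb := h.trans _ _ _ h.c3 h.c4
  have sb := h.trans _ _ _ h.c2 zb
  have mb := h.trans _ _ _ h.d2 zb
  obtain ⟨q, qb, hq⟩ : ∃ q, q ≠ b ∧ ¬ r q b := by
    by_contra hcon
    refine h.prime.flip.not_series (fun u v e e' => h.asymm _ _ e e') (fun d => d = b) rfl
      (h.ne sb) (h.ne zb) (h.ne h.c2) fun d e hd he => ?_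
    by_contra c
    exact hcon ⟨e, he, hd ▸ c⟩
  have nq : ∀ y, r y b → q ≠ y ∧ ¬ r q y := fun y hy =>
    ⟨fun e => hq (e ▸ hy), fun e => hq (h.trans _ _ _ e hy)⟩
  have q4 : q ≠ s ∧ q ≠ t ∧ q ≠ z ∧ q ≠ m := ⟨(nq s sb).1, (nq t h.c4).1, (nq z zb).1, (nq m mb).1⟩
  by_cases h1 : ∃ w, (w ≠ s ∧ w ≠ t ∧ w ≠ z ∧ w ≠ m) ∧ w ≠ b ∧ ¬ r w s ∧ ¬ r z w ∧ w ≠ q
  · obtain ⟨w, w1, w2, w3, w4, w5⟩ := h1
    exact h.ch.caseB hU q4 qb (nq s sb).2 (Or.inl (nq t h.c4).2) w1 w2 w3 w4 h.sm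
      fun e => absurd e w5
  have hW : ∀ y, y = s ∨ y = t ∨ y = z ∨ y = m ∨ y = b ∨ y = q ∨ r y s ∨ r z y := fun y => by
    by_contra c
    simp only [not_or] at c
    exact h1 ⟨y, ⟨c.1, c.2.1, c.2.2.1, c.2.2.2.1⟩, c.2.2.2.2.1, c.2.2.2.2.2.2.1,
      c.2.2.2.2.2.2.2, c.2.2.2.2.2.1⟩
  by_cases h2 : r z q
  · obtain ⟨d, d1, d2⟩ : ∃ d, r d s ∧ ¬ r d m := by
      by_contra c
      refine h.not_all (fun d hd => not_not.mp fun c' => c ⟨d, hd, c'⟩) fun y => ?_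
      rcases hW y with e | e | e | e | e | e | e | e
      exacts [Or.inl e, Or.inr (Or.inr (Or.inl (e ▸ h.trans _ _ _ h.c2 h.c3))),
        Or.inr (Or.inr (Or.inl (e ▸ h.c2))), Or.inr (Or.inl e), Or.inr (Or.inr (Or.inl (e ▸ sb))),
        Or.inr (Or.inr (Or.inl (e ▸ h.trans _ _ _ h.c2 h2))), Or.inr (Or.inr (Or.inr e)),
        Or.inr (Or.inr (Or.inl (h.trans _ _ _ h.c2 e)))]
    have dz := h.trans _ _ _ d1 h.c2
    have db := h.trans _ _ _ dz zb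
    exact h.swap.ch.caseB (w := d) hU ⟨q4.2.2.2, q4.2.1, q4.2.2.1, q4.1⟩ qb (nq m mb).2
      (Or.inl (nq t h.c4).2) ⟨fun e => h.swap.sm (e ▸ d1), h.ne (h.trans _ _ _ dz h.c3), h.ne dz,
        h.ne d1⟩ (h.ne db) d2 (h.asymm _ _ dz) h.swap.sm fun e => absurd e.symm (nq d db).1
  by_cases h3 : ∃ p, r z p ∧ p ≠ t ∧ p ≠ b
  · obtain ⟨p, p1, p2, p3⟩ := h3
    have sp := h.trans _ _ _ h.c2 p1
    exact h.ch.caseB (w := q) hU ⟨(h.ne sp).symm, p2, (h.ne p1).symm,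
      (h.ne (h.trans _ _ _ h.d2 p1)).symm⟩ p3 (h.asymm _ _ sp) (Or.inr sp) q4 qb (nq s sb).2 h2
      h.sm fun e => absurd (e ▸ p1) h2
  · refine h.ch.caseB (w := q) hU q4 qb (nq s sb).2 (Or.inl (nq t h.c4).2) q4 qb (nq s sb).2 h2
      h.sm fun _ y => ?_
    by_contra c
    simp only [not_or] at c
    rcases hW y with e | e | e | e | e | e | e | e
    exacts [c.1 e, c.2.1 e, c.2.2.1 e, c.2.2.2.1 e, c.2.2.2.2.1 e, c.2.2.2.2.2.1 e,
      c.2.2.2.2.2.2 e, h3 ⟨y, e, c.2.1, c.2.2.2.2.1⟩]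

theorem caseA [Finite X] (h : Fork5 r a s x m z t b) {u p : X} (hu : r t u) (hub : u ≠ b)
    (hp : r p z) (ps : p ≠ s) (pm : p ≠ m) (hpm : ¬ r p m) : PerpR r := by
  obtain ⟨w, w0, w1, w2⟩ : ∃ w, w ≠ t ∧ ¬ r w t ∧ ¬ r t w := by
    by_contra c
    refine h.prime.not_series h.asymm (fun d => r d t) h.c3 (fun e => h.ne e rfl)
      (h.asymm _ _ h.c4) (h.ne h.c4) fun d e hd he => ?_
    by_cases c1 : e = t
    · exact c1 ▸ hd
    · exact h.trans _ _ _ hd (not_not.mp fun c2 => c ⟨e, c1, he, c2⟩)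
  exact h.ch.caseA hu hub hp ps pm (fun _ => hpm) w0
    (fun e => w1 (e ▸ h.trans _ _ _ h.d2 h.c3)) w1 w2

theorem caseC [Finite X] (h : Fork5 r a s x m z t b) {u p : X} (hu : r t u) (hub : u ≠ b)
    (hz : ∀ d, r d z → d = a ∨ d = s ∨ d = m) (hD : ∀ d, r d s → d = a) (hM : ∀ d, r d m → d = a)
    (hp : r s p) (pm : ¬ r m p) : PerpR r := by
  obtain ⟨w, wa, w1⟩ : ∃ w, w ≠ a ∧ ¬ r a w := by
    by_contra c
    refine h.prime.not_series h.asymm (fun d => d = a) rfl (h.ne h.c1).symm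
      (h.ne (h.trans _ _ _ h.c1 h.c2)).symm (h.ne h.c2) fun d e hd he => ?_
    by_contra c'
    exact c ⟨e, he, hd ▸ c'⟩
  exact h.ch.caseC hu hub hz hD hM hp (fun e => pm (e ▸ h.d2))
    (fun e => pm (h.trans _ _ _ h.d2 e)) h.sm wa w1

theorem perp [Finite X] (h : Fork5 r a s x m z t b) : PerpR r := by
  by_cases hU : ∀ u, r t u → u = b
  · exact h.single hU
  push Not at hU
  obtain ⟨u, hu, hub⟩ := hU
  by_cases h1 : ∃ p, r p z ∧ p ≠ s ∧ p ≠ m ∧ ¬ r p m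
  · obtain ⟨p, p1, p2, p3, p4⟩ := h1
    exact h.caseA hu hub p1 p2 p3 p4
  by_cases h2 : ∃ p, r p z ∧ p ≠ m ∧ p ≠ s ∧ ¬ r p s
  · obtain ⟨p, p1, p2, p3, p4⟩ := h2
    exact h.swap.caseA hu hub p1 p2 p3 p4
  have k1 : ∀ d, r d s → r d m := fun d hd => not_not.mp fun c =>
    h1 ⟨d, h.trans _ _ _ hd h.c2, h.ne hd, fun e => h.swap.sm (e ▸ hd), c⟩
  have k2 : ∀ d, r d m → r d s := fun d hd => not_not.mp fun c =>
    h2 ⟨d, h.trans _ _ _ hd h.d2, h.ne hd, fun e => h.sm (e ▸ hd), c⟩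
  have zb := h.trans _ _ _ h.c3 h.c4
  by_cases h3 : ∃ d, r d s ∧ d ≠ a
  · obtain ⟨d, d1, d2⟩ := h3
    obtain ⟨w, w0, w1, w2, w3⟩ : ∃ w, w ≠ s ∧ w ≠ m ∧ ¬ r s w ∧ ¬ r w s := by
      by_contra c
      refine h.not_all k1 fun y => ?_
      by_contra c'
      simp only [not_or] at c'
      exact c ⟨y, c'⟩
    have C : Ch5 (fun u v => r v u) b t z s a m :=
      ⟨h.prime.flip, fun _ _ _ e e' => h.trans _ _ _ e' e, fun _ _ e e' => h.asymm _ _ e e',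
        fun _ _ _ _ _ _ e1 e2 e3 e4 e5 => h.no6 _ _ _ _ _ _ e5 e4 e3 e2 e1, h.c4, h.c3, h.c2, h.c1,
        ⟨z, h.d2⟩, ⟨d, k1 d d1, d2⟩, h.ne (h.trans _ _ _ h.d2 h.c3), h.ne h.d2, h.ms,
        fun c e e' => h.dia c e' e⟩
    exact (C.caseA (p := b) d1 d2 zb (h.ne h.c4).symm (h.ne (h.trans _ _ _ h.d2 zb)).symm
      (fun e => absurd e h.sm) w0 w1 w2 w3).of_flip
  have hD : ∀ d, r d s → d = a := fun d hd => not_not.mp fun c => h3 ⟨d, hd, c⟩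
  have hM : ∀ d, r d m → d = a := fun d hd => hD d (k2 d hd)
  have hz : ∀ d, r d z → d = a ∨ d = s ∨ d = m := fun d hd => by
    by_contra c
    simp only [not_or] at c
    exact h1 ⟨d, hd, c.2.1, c.2.2, fun e => c.1 (hM d e)⟩
  have xa := hM x h.d1
  by_cases h4 : ∃ p, r s p ∧ ¬ r m p
  · obtain ⟨p, p1, p2⟩ := h4
    exact h.caseC hu hub hz hD hM p1 p2
  by_cases h5 : ∃ p, r m p ∧ ¬ r s p
  · obtain ⟨p, p1, p2⟩ := h5
    exact h.swap.caseC hu hub (fun d hd => xa ▸ (hz d hd).imp_right Or.symm)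
      (fun d hd => xa ▸ hM d hd) (fun d hd => xa ▸ hD d hd) p1 p2
  exact absurd (h.prime.not_twin h.ch.three fun y _ _ =>
    ⟨⟨fun e => not_not.mp fun c => h5 ⟨y, e, c⟩, fun e => not_not.mp fun c => h4 ⟨y, e, c⟩⟩,
      k2 y, k1 y⟩) h.ms

end Fork5

/-- Height five with two middle points below the centre. -/
theorem perpR_fork5 [Finite X] (hP : Prime r) (trans : ∀ x y z, r x y → r y z → r x z)
    (asymm : ∀ x y, r x y → ¬ r y x)
    (no6 : ∀ x₁ x₂ x₃ x₄ x₅ x₆, r x₁ x₂ → r x₂ x₃ → r x₃ x₄ → r x₄ x₅ → ¬ r x₅ x₆)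
    (c1 : r a s) (c2 : r s z) (c3 : r z t) (c4 : r t b) (d1 : r x m) (d2 : r m z) (ms : m ≠ s)
    (hC : ∀ p, r p t → p ≠ z → (∃ y, r y p) → r p z) : PerpR r :=
  Fork5.perp ⟨hP, trans, asymm, no6, c1, c2, d1, d2, c3, c4, ms, hC⟩

end Pool.Agent.Lib.MP_04ca4f_co
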