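import Pool.Agent.Lib.MP_04ca4f_co.StDeltaB

/-!
# The chain s < z < t contains all middle points, and some maximal point separates s from z
-/

set_option autoImplicit false

namespace Pool.Agent.Lib.MP_04ca4f_co.St

variable {X : Type*} [PartialOrder X] {ty : X → ℕ} {s z t : X}

theorem DT.dI0 [Finite X] (T : DT ty s z t) (h0 : ∀ x, ty x ≠ 5 ∧ ty x ≠ 7) {y1 : X}
    (hy1 : ty y1 = 10) : Perp X := by
  obtain ⟨r, b, hr, hb, hrb⟩ := T.wr
  obtain ⟨c, a, hc, ha, hac⟩ := T.wc
  have hs := T.hs
  have hz := T.hz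
  have ht := T.ht
  replace hr : ty r = 3 := by have := h0 r; omega
  replace hc : ty c = 9 := by have := h0 c; omega
  obtain ⟨blk, hblk⟩ := exists_blk (fun x => if ty x ≤ 3 then ty x else if ty x = 4 then 7 else
    if ty x = 6 then 5 else if ty x = 9 then 6 else if ty x = 8 then 8
    else if ty x = 12 then 10 else 9) r c 4 7
  have B : ∀ x, ty x ≤ 3 ∧ blk x = ty x ∨ ty x = 3 ∧ blk x = 4 ∨ ty x = 4 ∧ blk x = 7 ∨
      ty x = 6 ∧ blk x = 5 ∨ ty x = 9 ∧ (blk x = 6 ∨ blk x = 7) ∨ ty x = 8 ∧ blk x = 8 ∨
      (ty x = 10 ∨ ty x = 11) ∧ blk x = 9 ∨ ty x = 12 ∧ blk x = 10 := by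
    intro x
    have h1 := T.le x
    have h2 := h0 x
    rcases hblk x with ⟨rfl, h⟩ | ⟨-, rfl, h⟩ | ⟨-, -, h⟩
    · simp [hr, h]
    · simp [hc, h]
    · rw [h]
      generalize ty x = k at h1 h2
      interval_cases k <;> simp at h2 ⊢
  have br : blk r = 4 := by rcases hblk r with h | h | h <;> simp_all
  have bc : blk c = 7 := by
    rcases hblk c with ⟨rfl, h⟩ | h | h
    · omega
    · exact h.2.2
    · exact absurd rfl h.2.1
  have er : ∀ x, blk x = 4 → x = r := fun x h1 => by
    rcases hblk x with ⟨h, -⟩ | ⟨-, -, h⟩ | ⟨-, -, h⟩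
    · exact h
    · omega
    · split_ifs at h <;> omega
  have ec : ∀ x, blk x = 7 → ty x ≠ 4 → x = c := fun x h1 h2 => by
    rcases hblk x with ⟨-, h⟩ | ⟨-, h, -⟩ | ⟨-, -, h⟩
    · omega
    · exact h
    · split_ifs at h <;> omega
  clear hblk
  have bz : blk z = 5 := by have := B z; omega
  have bt : blk t = 8 := by have := B t; omega
  have b2 : blk y1 = 9 := by have := B y1; omega
  have hasz : ∀ J, Img (fun x => ty x ≠ 4) c blk J → J r ∧ J z := by
    intro J h
    have k1 : ∃ x, J x ∧ ty x ≤ 3 := by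
      by_contra h1
      push Not at h1
      have k2 : ¬ J c := fun h2 => by
        obtain ⟨w, h3, h4⟩ := h.adj c h2
        have := T.cmp h4
        have := h1 w h3
        have := h0 w
        omega
      have k3 : ∀ x, J x → ty x ≠ 4 := fun x h2 h3 => k2 (h.foot x h2 (not_not.mpr h3))
      have k4 : ¬ J y1 := fun h2 => by
        obtain ⟨w, h3, h4⟩ := h.adj y1 h2
        have := T.cmp h4
        have := h1 w h3
        have := k3 w h3
        have := h0 w
        omega
      have k5 : ∀ x y, J x → J y → ¬ x < y := fun x y h2 h3 h4 => by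
        have := T.lt h4
        have := h1 x h2
        have := k3 x h2
        have := h0 x
        have := B x
        have := B y
        by_cases h5 : ty x = 6
        · exact k2 (h.conv x y c h2 h3 (by omega) (by omega) (by omega))
        · exact k4 (h.conv x y y1 h2 h3 (by omega) (by omega) (by omega))
      obtain ⟨x, hx⟩ := h.ne
      obtain ⟨y, hy, h2 | h2⟩ := h.adj x hx
      · exact k5 x y hx hy h2
      · exact k5 y x hy hx h2
    obtain ⟨x, hx, h1⟩ := k1
    have k2 : J r := by
      obtain ⟨w, h2, h3⟩ := h.adj x hx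
      have := T.cmp h3
      have := B x
      have := B w
      by_cases h4 : blk x = 4
      · exact er x h4 ▸ hx
      · exact h.conv x w r hx h2 (by omega) (by omega) (by omega)
    obtain ⟨w, h2, h3⟩ := h.adj r k2
    have := T.cmp h3
    have := B w
    exact ⟨k2, h.conv r w z k2 h2 (by omega) (by omega) (by omega)⟩
  refine T.perp 4 (by omega) c blk (by omega) (fun x h => ?_) (fun x y _ _ h => ?_)
    (fun x h => ⟨T.inc (by omega), T.inc (by omega)⟩) (fun d x h1 h2 => ?_) (fun d x h1 h2 => ?_)
    (fun d x h1 h2 h3 => ?_) (fun d x h1 h2 => ?_) (fun e he => ?_) (fun J K hJ hJK hK => ?_)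
  · have := B x; omega
  · have := T.lt h
    have := B x
    have := B y
    by_cases h2 : ty x = 8
    · exact ⟨y1, by omega, by omega⟩
    by_cases h3 : ty y = 6
    · exact ⟨r, by omega, by omega⟩
    by_cases h4 : ty x = 6
    · exact ⟨c, by omega, by omega⟩
    exact ⟨z, by omega, by omega⟩
  · have := B d; have := B x; omega
  · have := B d; have := B x; omega
  · have := B d; have := B x; omega
  · have := B d; have := B x; omega
  · obtain ⟨hr', hz'⟩ := hasz _ he.img
    have cv := he.img.conv
    obtain ⟨w, a1, a2, a3⟩ := he.sub hr' hz' hrb (T.g6 b (by omega)) (T.inc (by omega))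
      (T.inc (by omega)) (ne_of_ty (ty := ty) (by omega))
    have k1 : 9 ≤ blk w := by
      have := T.lt a2
      have := T.lt a3
      have := B w
      omega
    have ht' := cv z w t hz' a1 (by omega) (by omega) (by omega)
    have hc' := cv z w c hz' a1 (by omega) (by omega) (by omega)
    obtain ⟨u, a4, a5, -⟩ := he.sub ht' hr' (T.g8 b hb) hrb (T.inc (by omega))
      (T.inc (by omega)) (ne_of_ty (ty := ty) (by omega))
    have k2 : ty u = 12 := by have := T.lt a5; omega
    have hy' := cv z u y1 hz' a4 (by omega) (by omega) (by have := B u; omega)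
    have hs' : e s = s := by
      rcases he.loc s (by omega) hc' with h | ⟨h1, h2⟩
      · exact h
      · have h3 : e s ≤ z := hz' ▸ he.mono _ _ T.sz.le
        have h4 : e s ≤ y1 := hy' ▸ he.mono _ _ (T.g4 y1 (by omega)).le
        rcases h3.eq_or_lt with h5 | h5
        · rw [h5] at h4
          exact absurd (h4.lt_of_ne (ne_of_ty (ty := ty) (by omega))) (T.inc (by omega))
        · have := T.lt h5
          have := B (e s)
          exact absurd ⟨by omega, by omega⟩ (h2 z (by omega)).2
    obtain ⟨d, a6, a7, -⟩ := he.slb hs' hc' (T.l4 a ha) hac (T.inc (by omega))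
      (T.inc (by omega)) (ne_of_ty (ty := ty) (by omega))
    have := T.lt a7
    exact ⟨⟨d, by omega, a6⟩, ⟨u, k2, a4⟩, fun x h => T.es x h ▸ hs'⟩
  · obtain ⟨hr', hz'⟩ := hasz _ hJ
    obtain ⟨w, a1, a2⟩ := hJ.adj z hz'
    have := T.cmp a2
    have := B w
    refine T.all_of (n := 10) (by omega) hK (by omega) (fun x => by have := B x; omega) ?_
    by_cases h1 : ty w ≤ 1
    · refine Or.inl fun x hx => hK.grow z 0 5 (hJK z hz') (by omega) (by omega) (by omega)
        (fun y _ _ h => ?_) x (by omega) (by omega) (by have := B x; omega)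
      have := B y
      by_cases h2 : ty y ≤ 1
      · exact Or.inr ⟨z, hJK z hz', Or.inr (T.l6 y h2)⟩
      by_cases h4 : ty y = 6
      · exact Or.inl (T.ez y h4 ▸ hJK z hz')
      exact Or.inl (hJK y (hJ.conv w z y a1 hz' (by omega) (by omega) (by omega)))
    · have hc' : J c := by
        by_cases h2 : ty w = 4
        · exact hJ.foot w a1 (by omega)
        · exact hJ.conv z w c hz' a1 (by omega) (by omega) (by omega)
      have hs' : K s := hK.pend s z (by omega) (hJK c hc') (hJK z hz') (Or.inr T.sz)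
      refine Or.inr fun x hx => hK.grow z 5 10 (hJK z hz') (by omega) (by omega) (by omega)
        (fun y h' h _ => ?_) x (by omega) (by have := B x; omega) (by have := B x; omega)
      have := B y
      by_cases h2 : 10 ≤ ty y
      · exact Or.inr ⟨s, hs', Or.inl (T.g4 y h2)⟩
      by_cases h3 : ty y = 8
      · exact Or.inr ⟨z, hJK z hz', Or.inl (T.et y h3 ▸ T.zt)⟩
      by_cases h4 : ty y = 6
      · exact Or.inl (T.ez y h4 ▸ hJK z hz')
      by_cases h5 : blk y = 7
      · exact Or.inl (ec y h5 h' ▸ hJK c hc')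
      exact Or.inl (hJK y (hJ.conv z c y hz' hc' h' (by omega) (by omega)))

end Pool.Agent.Lib.MP_04ca4f_co.St
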