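import Pool.Agent.Lib.MP_04ca4f_co.StDeltaB

/-!
# All minimal points are below z and all maximal points are above z
-/

set_option autoImplicit false

namespace Pool.Agent.Lib.MP_04ca4f_co.St

variable {X : Type*} [PartialOrder X] {ty : X → ℕ} {s z t : X}

theorem DT.v2s [Finite X] (T : DT ty s z t)
    (h0 : ∀ x, ty x ≠ 2 ∧ ty x ≠ 3 ∧ ty x ≠ 9 ∧ ty x ≠ 10) : Perp X := by
  obtain ⟨r, b, hr, hb, hrb⟩ := T.wr
  obtain ⟨c, a, hc, ha, hac⟩ := T.wc
  obtain ⟨x1, hx1⟩ := T.sp1
  obtain ⟨y1, hy1⟩ := T.sp2
  have hs := T.hs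
  have hz := T.hz
  have ht := T.ht
  replace hr : ty r = 5 ∨ ty r = 7 := by have := h0 r; omega
  replace hc : ty c = 5 ∨ ty c = 7 := by have := h0 c; omega
  replace hx1 : ty x1 = 1 := by have := h0 x1; omega
  replace hy1 : ty y1 = 11 := by have := h0 y1; omega
  obtain ⟨blk, hblk⟩ := exists_blk (fun x => if ty x ≤ 1 then ty x else if ty x = 4 then 2 else
    if ty x = 6 then 3 else if ty x ≤ 7 then 4 else if ty x = 8 then 5 else ty x - 5) r r 3 3
  have B : ∀ x, ty x ≤ 1 ∧ blk x = ty x ∨ ty x = 4 ∧ blk x = 2 ∨ ty x = 6 ∧ blk x = 3 ∨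
      (ty x = 5 ∨ ty x = 7) ∧ (blk x = 3 ∨ blk x = 4) ∨ ty x = 8 ∧ blk x = 5 ∨
      ty x = 11 ∧ blk x = 6 ∨ ty x = 12 ∧ blk x = 7 := by
    intro x
    have h1 := T.le x
    have h2 := h0 x
    rcases hblk x with ⟨rfl, h⟩ | ⟨h', h, -⟩ | ⟨-, -, h⟩
    · simp [hr, h]
    · exact absurd h h'
    · rw [h]
      generalize ty x = k at h1 h2
      interval_cases k <;> simp at h2 ⊢
  have br : blk r = 3 := by rcases hblk r with h | h | h <;> simp_all
  have er : ∀ x, blk x = 3 → ty x ≠ 6 → x = r := fun x h1 h2 => by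
    rcases hblk x with ⟨h, -⟩ | ⟨-, h, -⟩ | ⟨-, -, h⟩
    · exact h
    · exact h
    · have := h0 x
      split_ifs at h <;> omega
  clear hblk
  have bs : blk s = 2 := by have := B s; omega
  have bz : blk z = 3 := by have := B z; omega
  have bt : blk t = 5 := by have := B t; omega
  have b1 : blk x1 = 1 := by have := B x1; omega
  have b2 : blk y1 = 6 := by have := B y1; omega
  have b3 : blk c = 3 ∨ blk c = 4 := by have := B c; omega
  have img : ∀ J, Img (fun x => ty x ≠ 6) r blk J → ¬ J z →
      (¬ J s → J t ∧ ∃ u, J u ∧ ty u = 12) ∧ (¬ J t → J s ∧ ∃ d, J d ∧ ty d = 0) := by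
    intro J h hz'
    have k0 : ∀ x, J x → ty x ≠ 6 := fun x h1 h2 => hz' (T.ez x h2 ▸ h1)
    obtain ⟨x, y, hx, hy, hxy⟩ : ∃ x y, J x ∧ J y ∧ x < y := by
      obtain ⟨x, hx⟩ := h.ne
      obtain ⟨y, hy, h2 | h2⟩ := h.adj x hx
      · exact ⟨x, y, hx, hy, h2⟩
      · exact ⟨y, x, hy, hx, h2⟩
    have a1 := T.lt hxy
    have a2 := B x
    have a3 := B y
    have a4 := k0 x hx
    have a5 := k0 y hy
    constructor
    · intro hs'
      have k1 : ∀ x, J x → ty x ≠ 4 := fun x h1 h2 => hs' (T.es x h2 ▸ h1)
      have a6 := k1 x hx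
      have a7 := k1 y hy
      have a8 : ¬ blk x < 2 := fun h1 => hs' (h.conv x y s hx hy (by omega) (by omega) (by omega))
      have ht' : J t := by
        by_cases h1 : ty x = 8
        · exact T.et x h1 ▸ hx
        · exact h.conv x y t hx hy (by omega) (by omega) (by omega)
      clear a1 a2 a3
      obtain ⟨w, h1, h2⟩ := h.adj t ht'
      have := T.cmp h2
      have := B w
      have := k0 w h1
      have := k1 w h1
      have : ¬ blk w < 2 := fun h3 => hs' (h.conv w t s h1 ht' (by omega) (by omega) (by omega))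
      exact ⟨ht', w, h1, by omega⟩
    · intro ht'
      have k1 : ∀ x, J x → ty x ≠ 8 := fun x h1 h2 => ht' (T.et x h2 ▸ h1)
      have a6 := k1 x hx
      have a7 := k1 y hy
      have a8 : ¬ 5 < blk y := fun h1 => ht' (h.conv x y t hx hy (by omega) (by omega) (by omega))
      have hs' : J s := by
        by_cases h1 : ty y = 4
        · exact T.es y h1 ▸ hy
        · exact h.conv x y s hx hy (by omega) (by omega) (by omega)
      clear a1 a2 a3
      obtain ⟨w, h1, h2⟩ := h.adj s hs'
      have := T.cmp h2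
      have := B w
      have := k0 w h1
      have := k1 w h1
      have : ¬ 5 < blk w := fun h3 => ht' (h.conv s w t hs' h1 (by omega) (by omega) (by omega))
      exact ⟨hs', w, h1, by omega⟩
  refine T.perp 6 (by omega) r blk (by omega) (fun x h => ?_) (fun x y _ _ h => ?_)
    (fun x h => ⟨T.inc (by omega), T.inc (by omega)⟩) (fun d x h1 h2 => ?_) (fun d x h1 h2 => ?_)
    (fun d x h1 h2 h3 => ?_) (fun d x h1 h2 => ?_) (fun e he => ?_) (fun J K hJ hJK hK => ?_)
  · have := B x; omega
  · have := T.lt h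
    have := B x
    have := B y
    by_cases h1 : ty y = 4
    · exact ⟨x1, by omega, by omega⟩
    by_cases h2 : ty x = 8
    · exact ⟨y1, by omega, by omega⟩
    by_cases h3 : ty x ≤ 1
    · exact ⟨s, by omega, by omega⟩
    by_cases h4 : ty y = 8
    · exact ⟨r, by omega, by omega⟩
    exact ⟨t, by omega, by omega⟩
  · have := B d; have := B x; omega
  · have := B d; have := B x; omega
  · have := B d; have := B x; omega
  · have := B d; have := B x; omega
  · have cv := he.img.conv
    have k1 : e s = s ∧ e t = t := by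
      by_cases hz' : e z = z
      · have hr' := he.img.foot z hz' (by omega)
        obtain ⟨w, a1, a2, a3⟩ := he.sub hr' hz' hrb (T.g6 b (by omega)) (T.inc (by omega))
          (T.inc (by omega)) (ne_of_ty (ty := ty) (by omega))
        have a4 : 6 ≤ blk w := by
          have := T.lt a2
          have := B w
          omega
        have hc' : e c = c := by
          by_cases h1 : blk c = 3
          · rw [er c h1 (by omega)]
            exact hr'
          · exact cv r w c hr' a1 (by omega) (by omega) (by omega)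
        obtain ⟨w', a5, a6, a7⟩ := he.slb hc' hz' hac (T.l6 a (by omega)) (T.inc (by omega))
          (T.inc (by omega)) (ne_of_ty (ty := ty) (by omega))
        have a8 : blk w' ≤ 1 := by
          have := T.lt a6
          have := B w'
          omega
        exact ⟨cv w' r s a5 hr' (by omega) (by omega) (by omega),
          cv r w t hr' a1 (by omega) (by omega) (by omega)⟩
      obtain ⟨a1, a2⟩ := img _ he.img hz'
      constructor
      · by_contra hs'
        obtain ⟨ht', u, a3, a4⟩ := a1 hs'
        have hy' := cv t u y1 ht' a3 (by omega) (by omega) (by have := B u; omega)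
        obtain ⟨w, a5, a6, -⟩ := he.slb ht' hy' T.zt (T.g6 y1 (by omega)) (T.inc (by omega))
          (T.inc (by omega)) (ne_of_ty (ty := ty) (by omega))
        have := T.lt a6
        have := B w
        have : ty w ≠ 6 := fun h => hz' (T.ez w h ▸ a5)
        have : ty w ≠ 4 := fun h => hs' (T.es w h ▸ a5)
        exact hs' (cv w t s a5 ht' (by omega) (by omega) (by omega))
      · by_contra ht'
        obtain ⟨hs', u, a3, a4⟩ := a2 ht'
        have hx' := cv u s x1 a3 hs' (by omega) (by have := B u; omega) (by omega)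
        obtain ⟨w, a5, a6, -⟩ := he.sub hs' hx' T.sz (T.l6 x1 (by omega)) (T.inc (by omega))
          (T.inc (by omega)) (ne_of_ty (ty := ty) (by omega))
        have := T.lt a6
        have := B w
        have : ty w ≠ 6 := fun h => hz' (T.ez w h ▸ a5)
        have : ty w ≠ 8 := fun h => ht' (T.et w h ▸ a5)
        exact ht' (cv s w t hs' a5 (by omega) (by omega) (by omega))
    obtain ⟨hs', ht'⟩ := k1
    have hr' := cv s t r hs' ht' (by omega) (by omega) (by omega)
    have hc' := cv s t c hs' ht' (by omega) (by omega) (by omega)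
    obtain ⟨d, a1, a2, -⟩ := he.slb hs' hc' (T.l4 a ha) hac (T.inc (by omega))
      (T.inc (by omega)) (ne_of_ty (ty := ty) (by omega))
    obtain ⟨u, a3, a4, -⟩ := he.sub ht' hr' (T.g8 b hb) hrb (T.inc (by omega))
      (T.inc (by omega)) (ne_of_ty (ty := ty) (by omega))
    have hd : ty d = 0 := by have := T.lt a2; omega
    have hu : ty u = 12 := by have := T.lt a4; omega
    have hx' := cv d s x1 a1 hs' (by omega) (by have := B d; omega) (by omega)
    have hy' := cv t u y1 ht' a3 (by omega) (by omega) (by have := B u; omega)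
    refine ⟨⟨d, hd, a1⟩, ⟨u, hu, a3⟩, fun x h => T.ez x h ▸ ?_⟩
    have h1 : s ≤ e z := hs' ▸ he.mono _ _ T.sz.le
    have h2 : e z ≤ t := ht' ▸ he.mono _ _ T.zt.le
    have h3 : x1 ≤ e z := hx' ▸ he.mono _ _ (T.l6 x1 (by omega)).le
    have h4 : e z ≤ y1 := hy' ▸ he.mono _ _ (T.g6 y1 (by omega)).le
    rcases h1.eq_or_lt with h5 | h5
    · rw [← h5] at h3
      exact absurd (h3.lt_of_ne (ne_of_ty (ty := ty) (by omega))) (T.inc (by omega))
    rcases h2.eq_or_lt with h6 | h6
    · rw [h6] at h4
      exact absurd (h4.lt_of_ne (ne_of_ty (ty := ty) (by omega))) (T.inc (by omega))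
    have := T.lt h5
    have := T.lt h6
    exact T.ez _ (by omega)
  · refine T.all_of (n := 7) (by omega) hK (by omega) (fun x => by have := B x; omega) ?_
    have k1 : K s → (∀ y, ty y = 1 → K y ∨ ∃ w, K w ∧ (w < y ∨ y < w)) → ∀ x, ty x ≤ 3 → K x := by
      intro hs' h x hx
      refine hK.grow s 0 2 hs' (by omega) (by omega) (by omega) (fun y _ _ h1 => ?_) x (by omega)
        (by omega) (by have := B x; omega)
      have := B y
      by_cases h2 : ty y = 0
      · exact Or.inr ⟨s, hs', Or.inr (T.l4 y h2)⟩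
      by_cases h3 : ty y = 4
      · exact Or.inl (T.es y h3 ▸ hs')
      exact h y (by omega)
    have k2 : K t → (∀ y, ty y = 11 → K y ∨ ∃ w, K w ∧ (w < y ∨ y < w)) →
        ∀ x, 9 ≤ ty x → K x := by
      intro ht' h x hx
      refine hK.grow t 5 7 ht' (by omega) (by omega) (by omega) (fun y _ h1 _ => ?_) x (by omega)
        (by have := B x; omega) (by have := B x; omega)
      have := B y
      by_cases h2 : ty y = 12
      · exact Or.inr ⟨t, ht', Or.inl (T.g8 y h2)⟩
      by_cases h3 : ty y = 8
      · exact Or.inl (T.et y h3 ▸ ht')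
      exact h y (by omega)
    by_cases hz' : J z
    · have hr' := hJ.foot z hz' (by omega)
      obtain ⟨w, a1, a2⟩ := hJ.adj r hr'
      have := T.cmp a2
      have := B w
      by_cases h1 : ty w ≤ 1
      · exact Or.inl (k1 (hJK s (hJ.conv w r s a1 hr' (by omega) (by omega) (by omega)))
          fun y h => Or.inr ⟨z, hJK z hz', Or.inr (T.l6 y (by omega))⟩)
      · exact Or.inr (k2 (hJK t (hJ.conv r w t hr' a1 (by omega) (by omega) (by omega)))
          fun y h => Or.inr ⟨z, hJK z hz', Or.inl (T.g6 y (by omega))⟩)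
    obtain ⟨a1, a2⟩ := img _ hJ hz'
    by_cases hs' : J s
    · by_cases ht' : J t
      · have a3 : K z := hK.pend z s (by omega)
          (hJK r (hJ.conv s t r hs' ht' (by omega) (by omega) (by omega))) (hJK s hs') (Or.inl T.sz)
        exact Or.inl (k1 (hJK s hs') fun y h => Or.inr ⟨z, a3, Or.inr (T.l6 y (by omega))⟩)
      · obtain ⟨-, d, a3, a4⟩ := a2 ht'
        exact Or.inl (k1 (hJK s hs') fun y h => Or.inl (hJK y (hJ.conv d s y a3 hs' (by omega)
          (by have := B d; have := B y; omega) (by have := B y; omega))))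
    · obtain ⟨ht', d, a3, a4⟩ := a1 hs'
      exact Or.inr (k2 (hJK t ht') fun y h => Or.inl (hJK y (hJ.conv t d y ht' a3 (by omega)
        (by have := B y; omega) (by have := B d; have := B y; omega))))

end Pool.Agent.Lib.MP_04ca4f_co.St
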