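import Pool.Agent.Lib.MP_04ca4f_co.StDeltaB

/-!
# One minimal point not below s and one maximal point not above t, both incomparable to z
-/

set_option autoImplicit false

namespace Pool.Agent.Lib.MP_04ca4f_co.St

variable {X : Type*} [PartialOrder X] {ty : X → ℕ} {s z t : X}

theorem DT.dAc [Finite X] (T : DT ty s z t) (x y : X) (hx : ty x = 2) (hy : ty y = 10)
    (h1 : ∀ w, 1 ≤ ty w → ty w ≤ 3 → w = x) (h2 : ∀ w, 9 ≤ ty w → ty w ≤ 11 → w = y) :
    Perp X := by
  obtain ⟨r, b, hr, hb, hrb⟩ := T.wr
  obtain ⟨c, a, hc, ha, hac⟩ := T.wc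
  have hs := T.hs
  have hz := T.hz
  have ht := T.ht
  have h0 : ∀ w, ty w ≠ 1 ∧ ty w ≠ 3 ∧ ty w ≠ 9 ∧ ty w ≠ 11 := fun w =>
    ⟨fun h => by rw [h1 w (by omega) (by omega)] at h; omega,
      fun h => by rw [h1 w (by omega) (by omega)] at h; omega,
      fun h => by rw [h2 w (by omega) (by omega)] at h; omega,
      fun h => by rw [h2 w (by omega) (by omega)] at h; omega⟩
  have nr : ty r ≠ 4 ∧ 5 ≤ ty r ∧ ty r ≤ 7 ∧ ty r ≠ 6 := by have := h0 r; omega
  have nc : ty c ≠ 4 ∧ 5 ≤ ty c ∧ ty c ≤ 7 ∧ ty c ≠ 6 := by have := h0 c; omega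
  clear hr hc
  obtain ⟨blk, B⟩ : ∃ blk : X → ℕ, ∀ w, ty w = 0 ∧ blk w = 0 ∨ ty w = 2 ∧ blk w = 1 ∨
      ty w = 6 ∧ blk w = 2 ∨ (ty w = 4 ∨ ty w = 5 ∨ ty w = 7) ∧ blk w = 3 ∨
      ty w = 8 ∧ blk w = 4 ∨ ty w = 10 ∧ blk w = 5 ∨ ty w = 12 ∧ blk w = 6 := by
    refine ⟨fun w => if ty w ≤ 3 then ty w / 2 else if ty w = 6 then 2 else if ty w ≤ 7 then 3
      else ty w / 2, fun w => ?_⟩
    have := T.le w
    have := h0 w
    beta_reduce
    split_ifs <;> omega
  have bs : blk s = 3 := by have := B s; omega
  have bz : blk z = 2 := by have := B z; omega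
  have bt : blk t = 4 := by have := B t; omega
  have bx : blk x = 1 := by have := B x; omega
  have by' : blk y = 5 := by have := B y; omega
  have br : blk r = 3 := by have := B r; omega
  have bc : blk c = 3 := by have := B c; omega
  have xz : ∀ J, Img (fun w => ty w ≠ 4) c blk J → J x → J z := by
    intro J h a1
    obtain ⟨w, a2, a3⟩ := h.adj x a1
    exact h.conv x w z a1 a2 (by omega) (by omega) (by have := T.cmp a3; have := B w; omega)
  have yt : ∀ J, Img (fun w => ty w ≠ 4) c blk J → J y → J t := by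
    intro J h a1
    obtain ⟨w, a2, a3⟩ := h.adj y a1
    exact h.conv w y t a2 a1 (by omega) (by have := T.cmp a3; have := B w; omega) (by omega)
  have xy : ∀ J, Img (fun w => ty w ≠ 4) c blk J → J x ∨ J y := by
    intro J h
    by_contra hcon
    push Not at hcon
    have k : ∀ w, J w → 2 ≤ blk w ∧ blk w ≤ 4 := by
      intro w hw
      obtain ⟨v, a2, a3⟩ := h.adj w hw
      have a4 : blk w ≠ 1 := fun e => hcon.1 (h1 w (by have := B w; omega)
        (by have := B w; omega) ▸ hw)
      have a5 : blk w ≠ 5 := fun e => hcon.2 (h2 w (by have := B w; omega)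
        (by have := B w; omega) ▸ hw)
      have a6 : blk w ≠ 0 := fun e => hcon.1 (h.conv w v x hw a2 (by omega) (by omega)
        (by have := T.cmp a3; have := B w; have := B v; omega))
      have a7 : blk w ≠ 6 := fun e => hcon.2 (h.conv v w y a2 hw (by omega)
        (by have := T.cmp a3; have := B w; have := B v; omega) (by omega))
      have := B w
      omega
    have kc : ¬ J c := fun a1 => by
      obtain ⟨w, a2, a3⟩ := h.adj c a1
      have := k w a2
      have := T.cmp a3
      have := B w
      omega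
    have key : ∀ p q, J p → J q → p < q → False := fun p q a1 a2 a3 => by
      have a4 : ty p ≠ 4 := fun e => kc (h.foot p a1 (by omega))
      have a5 : blk p = 2 ∧ blk q = 4 := by
        have := k p a1
        have := k q a2
        have := T.lt a3
        have := B p
        have := B q
        omega
      exact kc (h.conv p q c a1 a2 (by omega) (by omega) (by omega))
    obtain ⟨p, a1⟩ := h.ne
    obtain ⟨q, a2, a3 | a3⟩ := h.adj p a1
    exacts [key p q a1 a2 a3, key q p a2 a1 a3]
  refine T.perp 4 (by omega) c blk (by omega) (fun w h => ?_) (fun p q _ _ h => ?_)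
    (fun w h => ⟨T.inc (by omega), T.inc (by omega)⟩) (fun d w h1 h2 => ?_) (fun d w h1 h2 => ?_)
    (fun d w h1 h2 h3 => ?_) (fun d w h1 h2 => ?_) (fun e he => ?_) (fun J K hJ hJK hK => ?_)
  · have := B w; omega
  · have := T.lt h
    have := B p
    have := B q
    by_cases a1 : ty p = 0
    · exact ⟨x, by omega, by omega⟩
    by_cases a2 : ty p = 2
    · exact ⟨z, by omega, by omega⟩
    by_cases a3 : ty p = 6
    · exact ⟨c, by omega, by omega⟩
    by_cases a4 : ty p = 8
    · exact ⟨y, by omega, by omega⟩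
    exact ⟨t, by omega, by omega⟩
  · have := B d; have := B w; omega
  · have := B d; have := B w; omega
  · have := B d; have := B w; omega
  · have := B d; have := B w; omega
  · have cv := he.img.conv
    have hx' : e x = x := by
      refine (xy _ he.img).elim id fun hy' => ?_
      have ht' := yt _ he.img hy'
      obtain ⟨w, a1, a2, a3⟩ := he.slb ht' hy' (T.sz.trans T.zt) (T.g4 y (by omega))
        (T.inc (by omega)) (T.inc (by omega)) (ne_of_ty (ty := ty) (by omega))
      by_cases a4 : ty w = 4
      · have hc' := he.img.foot w a1 (by omega)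
        obtain ⟨d, a5, a6, -⟩ := he.slb a1 hc' (T.es w a4 ▸ T.l4 a ha) hac (T.inc (by omega))
          (T.inc (by omega)) (ne_of_ty (ty := ty) (by omega))
        exact cv d t x a5 ht' (by omega) (by have := T.lt a6; have := B d; omega) (by omega)
      by_cases a5 : ty w = 2
      · exact h1 w (by omega) (by omega) ▸ a1
      · exact cv w t x a1 ht' (by omega)
          (by have := T.lt a2; have := T.lt a3; have := B w; omega) (by omega)
    have hz' := xz _ he.img hx'
    obtain ⟨w, a1, -, a3⟩ := he.sub hx' hz' (T.l8 x (by omega)) T.zt (T.inc (by omega))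
      (T.inc (by omega)) (ne_of_ty (ty := ty) (by omega))
    have a4 : 4 ≤ blk w := by have := T.lt a3; have := B w; omega
    have ht' : e t = t := by
      by_cases a5 : ty w = 8
      · exact T.et w a5 ▸ a1
      · exact cv z w t hz' a1 (by omega) (by omega) (by have := B w; omega)
    have hr' := cv z t r hz' ht' (by omega) (by omega) (by omega)
    have hc' := cv z t c hz' ht' (by omega) (by omega) (by omega)
    obtain ⟨u, a5, a6, -⟩ := he.sub ht' hr' (T.g8 b hb) hrb (T.inc (by omega))
      (T.inc (by omega)) (ne_of_ty (ty := ty) (by omega))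
    have hu : ty u = 12 := by have := T.lt a6; omega
    have hy' := cv t u y ht' a5 (by omega) (by omega) (by have := B u; omega)
    obtain ⟨d, a7, a8, a9⟩ := he.slb hz' hc' (T.l6 a (by omega)) hac (T.inc (by omega))
      (T.inc (by omega)) (ne_of_ty (ty := ty) (by omega))
    have hd : ty d = 0 := by have := T.lt a8; have := T.lt a9; have := h0 d; omega
    refine ⟨⟨d, hd, a7⟩, ⟨u, hu, a5⟩, fun w h => T.es w h ▸ ?_⟩
    rcases he.loc s (by omega) hc' with h3 | ⟨h3, h4⟩
    · exact h3
    exfalso
    have h5 : e s ≤ z := hz' ▸ he.mono _ _ T.sz.le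
    have h6 : e s ≤ y := hy' ▸ he.mono _ _ (T.g4 y (by omega)).le
    rcases h5.eq_or_lt with h7 | h7
    · rw [h7] at h6
      exact T.inc (by omega) (h6.lt_of_ne (ne_of_ty (ty := ty) (by omega)))
    · exact (h4 z (by omega)).2 ⟨by have := T.lt h7; have := B (e s); omega, by omega⟩
  · refine T.all_of (n := 6) (by omega) hK (by omega) (fun w => by have := B w; omega) ?_
    rcases xy J hJ with a1 | a1
    · have a2 := hJK z (xz J hJ a1)
      refine Or.inl fun w hw => hK.grow z 0 2 a2 (by omega) (by omega) (by omega)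
        (fun v _ _ a3 => ?_) w (by omega) (by omega) (by have := B w; omega)
      by_cases a4 : ty v = 0
      · exact Or.inr ⟨z, a2, Or.inr (T.l6 v (by omega))⟩
      by_cases a5 : ty v = 6
      · exact Or.inl (T.ez v a5 ▸ a2)
      · exact Or.inl (h1 v (by omega) (by have := B v; omega) ▸ hJK x a1)
    · have a2 := hJK t (yt J hJ a1)
      refine Or.inr fun w hw => hK.grow t 4 6 a2 (by omega) (by omega) (by omega)
        (fun v _ a3 _ => ?_) w (by omega) (by have := B w; omega) (by have := B w; omega)
      by_cases a4 : ty v = 12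
      · exact Or.inr ⟨t, a2, Or.inl (T.g8 v a4)⟩
      by_cases a5 : ty v = 8
      · exact Or.inl (T.et v a5 ▸ a2)
      · exact Or.inl (h2 v (by have := B v; omega) (by have := T.le v; omega) ▸ hJK y a1)

end Pool.Agent.Lib.MP_04ca4f_co.St
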