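import Pool.Agent.Lib.MP_04ca4f_co.StDeltaB

/-!
# All minimal points are below s
-/

set_option autoImplicit false

namespace Pool.Agent.Lib.MP_04ca4f_co.St

variable {X : Type*} [PartialOrder X] {ty : X → ℕ} {s z t : X}

theorem DT.p0 [Finite X] (T : DT ty s z t) (h0 : ∀ x, ty x ≤ 3 → ty x = 0) : Perp X := by
  classical
  obtain ⟨r, b, hr, hb, hrb⟩ := T.wr
  obtain ⟨-, a0, -, ha0, -⟩ := T.wc
  obtain ⟨x1, hx1⟩ := T.sp1
  obtain ⟨y1, hy1⟩ := T.sp2
  have hs := T.hs
  have hz := T.hz
  have ht := T.ht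
  replace hr : 5 ≤ ty r ∧ ty r ≤ 7 ∧ ty r ≠ 6 := by have := h0 r; omega
  replace hx1 : ty x1 = 10 := by have := h0 x1; omega
  replace hy1 : ty y1 = 11 := by have := h0 y1; omega
  have mn : ∀ a, (∀ y, ¬ y < a) → ty a = 0 := fun a ha => h0 a (by
    by_contra h
    obtain ⟨y, hy, -⟩ := T.down a (by omega)
    exact ha y hy)
  obtain ⟨m, w0, a, d, ham, hmw, hw0, hd, hdm⟩ := exists_nonfull T.pr (d := a0)
    (fun y => T.inc (by omega)) T.sz fun a ha => T.l4 a (mn a ha)
  replace hw0 : d < w0 := hw0 d hd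
  replace hd := mn d hd
  have hm : 5 ≤ ty m ∧ ty m ≤ 7 ∧ ty m ≠ 6 := by
    have a1 := T.lt ham
    have a2 := T.lt hmw
    have a3 : ty m ≠ 4 := fun h => hdm (T.es m h ▸ T.l4 d hd)
    have a4 : ty m ≠ 6 := fun h => hdm (T.ez m h ▸ T.l6 d (by omega))
    have a5 : ty m ≠ 8 := fun h => hdm (T.et m h ▸ T.l8 d (by omega))
    omega
  have ha : ty a = 0 := by have := T.lt ham; have := h0 a; omega
  obtain ⟨blk, hblk⟩ := exists_blk (fun x => if ty x = 0 then (if x < m then 0 else 1) else
    if ty x = 4 then 2 else if ty x = 6 then 4 else if ty x ≤ 7 then 3 else if ty x = 8 then 7 else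
    if ty x ≤ 10 then ty x - 4 else ty x - 3) m m 2 2
  have B : ∀ x, ty x = 0 ∧ blk x ≤ 1 ∨ ty x = 4 ∧ blk x = 2 ∨ ty x = 6 ∧ blk x = 4 ∨
      (ty x = 5 ∨ ty x = 7) ∧ (blk x = 2 ∨ blk x = 3) ∨ ty x = 8 ∧ blk x = 7 ∨
      ty x = 9 ∧ blk x = 5 ∨ ty x = 10 ∧ blk x = 6 ∨ ty x = 11 ∧ blk x = 8 ∨
      ty x = 12 ∧ blk x = 9 := by
    intro x
    have h1 := T.le x
    have h2 := h0 x
    rcases hblk x with ⟨rfl, h⟩ | ⟨h', h, -⟩ | ⟨-, -, h⟩
    · omega
    · exact absurd h h'
    · by_cases h3 : ty x = 0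
      · rw [if_pos h3] at h
        exact Or.inl ⟨h3, by split_ifs at h <;> omega⟩
      · rw [if_neg h3] at h
        rw [h]
        generalize ty x = k at h1 h2 h3
        interval_cases k <;> simp at h2 h3 ⊢
  have bm : blk m = 2 := by
    rcases hblk m with h | h | h
    exacts [h.2, h.2.2, absurd rfl h.1]
  have em : ∀ x, blk x = 2 → ty x ≠ 4 → x = m := fun x h1 h2 => by
    rcases hblk x with ⟨h, -⟩ | ⟨-, h, -⟩ | ⟨-, -, h⟩
    · exact h
    · exact h
    · have := T.le x
      split_ifs at h <;> omega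
  have b0 : ∀ x, ty x = 0 → (x < m ↔ blk x = 0) := fun x hx => by
    rcases hblk x with ⟨rfl, -⟩ | ⟨h', h, -⟩ | ⟨-, -, h⟩
    · omega
    · exact absurd h h'
    · rw [if_pos hx] at h
      split_ifs at h with h1
      · exact iff_of_true h1 h
      · exact iff_of_false h1 (by omega)
  clear hblk
  have bs : blk s = 2 := by have := B s; omega
  have bz : blk z = 4 := by have := B z; omega
  have bt : blk t = 7 := by have := B t; omega
  have b1 : blk x1 = 6 := by have := B x1; omega
  have b2 : blk y1 = 8 := by have := B y1; omega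
  have br : 2 ≤ blk r ∧ blk r ≤ 3 := by have := B r; omega
  have bd : blk d = 1 := by have := B d; have := mt (b0 d hd).2 hdm; omega
  -- a minimal point in an image brings m
  have rowm : ∀ J, Img (fun x => ty x ≠ 4) m blk J → ∀ x, J x → ty x = 0 → J m := by
    intro J h x hx h1
    obtain ⟨w, a1, a2⟩ := h.adj x hx
    by_cases h2 : ty w = 4
    · exact h.foot w a1 (by omega)
    by_cases h3 : blk w = 2
    · exact em w h3 h2 ▸ a1
    · exact h.conv x w m hx a1 (by omega) (by have := B x; omega)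
        (by have := T.cmp a2; have := B w; omega)
  -- an image without minimal points contains z
  have norow : ∀ J, Img (fun x => ty x ≠ 4) m blk J → (∀ x, J x → ty x ≠ 0) → J z := by
    intro J h k0
    by_contra hz'
    have k1 : ∀ x, J x → ty x ≠ 6 := fun x h1 h2 => hz' (T.ez x h2 ▸ h1)
    obtain ⟨x, y, hx, hy, hxy⟩ : ∃ x y, J x ∧ J y ∧ x < y := by
      obtain ⟨x, hx⟩ := h.ne
      obtain ⟨y, hy, h2 | h2⟩ := h.adj x hx
      · exact ⟨x, y, hx, hy, h2⟩
      · exact ⟨y, x, hy, hx, h2⟩
    have a4 := k0 x hx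
    have a5 := k1 x hx
    have a6 := k1 y hy
    have a1 : 8 ≤ ty y ∧ (ty x = 4 ∨ ty x = 5 ∨ ty x = 7 ∨ ty x = 8 ∧ ty y = 12) := by
      have := T.lt hxy
      have := h0 x
      omega
    have a2 : 4 < blk y := by have := B y; omega
    have a7 : ¬ blk x < 4 := fun h1 => hz' (h.conv x y z hx hy (by omega) (by omega) (by omega))
    have a3 : ty x = 8 ∧ ty y = 12 := by have := B x; omega
    clear a1
    have a8 := h.conv x y y1 hx hy (by omega) (by have := B x; omega) (by have := B y; omega)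
    obtain ⟨w, h1, h2⟩ := h.adj y1 a8
    have a9 : ty w = 4 ∨ ty w = 5 ∨ ty w = 7 := by
      have := T.cmp h2
      have := h0 w
      have := k0 w h1
      have := k1 w h1
      omega
    exact hz' (h.conv w y1 z h1 a8 (by omega) (by have := B w; omega) (by omega))
  refine T.perp 4 (by omega) m blk (by omega) (fun x h => ?_) (fun x y _ _ h => ?_)
    (fun x h => ⟨T.inc (by omega), T.inc (by omega)⟩) (fun d x h1 h2 => ?_) (fun d x h1 h2 => ?_)
    (fun d x h1 h2 h3 => ?_) (fun d x h1 h2 => ?_) (fun e he => ?_) (fun J K hJ hJK hK => ?_)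
  · have := B x; omega
  · by_cases h2 : ty x = 0
    · by_cases h1 : blk y = 2
      · have := (b0 x h2).1 (em y h1 (by omega) ▸ h)
        exact ⟨d, by omega, Or.inl ⟨by omega, by omega⟩⟩
      · exact ⟨m, by omega, Or.inl ⟨by have := B x; omega,
          by have := T.lt h; have := B y; omega⟩⟩
    by_cases h3 : ty x = 6
    · exact ⟨x1, by omega, Or.inl ⟨by have := B x; omega, by have := T.lt h; have := B y; omega⟩⟩
    by_cases h4 : ty x = 8
    · exact ⟨y1, by omega, Or.inl ⟨by have := B x; omega, by have := T.lt h; have := B y; omega⟩⟩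
    have a1 : ty x ≤ 7 ∧ 9 ≤ ty y := by have := T.lt h; have := h0 x; omega
    exact ⟨z, by omega, Or.inl ⟨by have := B x; omega, by have := B y; omega⟩⟩
  · have := B d; have := B x; omega
  · have := B d; have := B x; omega
  · have := B x
    exact ⟨m, (b0 d h1).2 (by omega), fun h => by have := (b0 x h2).1 h; omega⟩
  · have := B d; have := B x; omega
  · have cv := he.img.conv
    obtain ⟨x, hx, hx0⟩ : ∃ x, e x = x ∧ ty x = 0 := by
      by_contra hc
      have k0 : ∀ x, e x = x → ty x ≠ 0 := fun x h1 h2 => hc ⟨x, h1, h2⟩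
      have hz' := norow _ he.img k0
      have km : e m ≠ m := fun hm' => by
        obtain ⟨w, a1, a2, a3⟩ := he.slb hm' hz' ham (T.l6 a (by omega)) (T.inc (by omega))
          (T.inc (by omega)) (ne_of_ty (ty := ty) (by omega))
        have := T.lt a2
        have := h0 w
        exact k0 w a1 (by omega)
      have ks : ∀ x, e x = x → ty x ≠ 4 := fun x h1 h2 => km (he.img.foot x h1 (by omega))
      obtain ⟨w, a1, a2⟩ := he.img.adj z hz'
      have a6 : 8 ≤ ty w ∧ ty w ≠ 9 ∧ ty w ≠ 10 := by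
        have := T.cmp a2
        have := h0 w
        have := k0 w a1
        have := ks w a1
        omega
      have hx' := cv z w x1 hz' a1 (by omega) (by omega) (by have := B w; omega)
      obtain ⟨v, a3, a4, a5⟩ := he.slb hx' hz' (T.g4 x1 (by omega)) T.sz (T.inc (by omega))
        (T.inc (by omega)) (ne_of_ty (ty := ty) (by omega))
      have := T.lt a5
      have := h0 v
      have := k0 v a3
      have := ks v a3
      omega
    have hm' := rowm _ he.img x hx hx0
    obtain ⟨y, hy, hy0⟩ : ∃ y, e y = y ∧ 5 ≤ blk y := by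
      obtain ⟨w, a1, a2 | a2⟩ := he.img.adj m hm'
      · have : 9 ≤ ty w := by have := T.lt a2; omega
        exact ⟨w, a1, by have := B w; omega⟩
      · have := (b0 w (by have := T.lt a2; have := h0 w; omega)).1 a2
        have hd' := cv w m d a1 hm' (by omega) (by omega) (by omega)
        obtain ⟨v, a3, -, a5⟩ := he.sub hd' hm' hw0 hmw hdm (T.inc (by omega))
          (ne_of_ty (ty := ty) (by omega))
        have : 9 ≤ ty v := by have := T.lt a5; omega
        exact ⟨v, a3, by have := B v; omega⟩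
    have hz' := cv m y z hm' hy (by omega) (by omega) (by omega)
    have hr' : e r = r := by
      by_cases h1 : blk r = 2
      · rw [em r h1 (by omega)]
        exact hm'
      · exact cv m y r hm' hy (by omega) (by omega) (by omega)
    obtain ⟨w, a1, a2, a3⟩ := he.sub hr' hz' hrb (T.g6 b (by omega)) (T.inc (by omega))
      (T.inc (by omega)) (ne_of_ty (ty := ty) (by omega))
    have a4 : 8 ≤ blk w := by
      have : 9 ≤ ty w := by have := T.lt a2; omega
      have : 11 ≤ ty w := by have := T.lt a3; omega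
      have := B w
      omega
    have ht' := cv z w t hz' a1 (by omega) (by omega) (by omega)
    have hx' := cv z w x1 hz' a1 (by omega) (by omega) (by omega)
    obtain ⟨u, a5, a6, -⟩ := he.sub ht' hr' (T.g8 b hb) hrb (T.inc (by omega))
      (T.inc (by omega)) (ne_of_ty (ty := ty) (by omega))
    refine ⟨⟨x, hx0, hx⟩, ⟨u, by have := T.lt a6; omega, a5⟩, fun y h => T.es y h ▸ ?_⟩
    rcases he.loc s (by omega) hm' with h1 | ⟨h1, h2⟩
    · exact h1
    exfalso
    have h3 : e s ≤ z := hz' ▸ he.mono _ _ T.sz.le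
    have h4 : e s ≤ x1 := hx' ▸ he.mono _ _ (T.g4 x1 (by omega)).le
    rcases h3.eq_or_lt with h5 | h5
    · rw [h5] at h4
      exact T.inc (by omega) (h4.lt_of_ne (ne_of_ty (ty := ty) (by omega)))
    have h6 : ty (e s) = 0 := by
      have := T.lt h5
      have := h0 (e s)
      omega
    have h7 : blk (e s) ≠ 0 := fun h => (h2 d (by omega)).2 ⟨by omega, by omega⟩
    have h8 : e a ≤ e s := he.mono _ _ (T.l4 a ha).le
    have h9 : e a ≤ m := hm' ▸ he.mono _ _ ham.le
    rw [h8.eq_or_lt.resolve_right (T.inc (by omega))] at h9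
    exact h7 ((b0 _ h6).1 (h9.lt_of_ne (ne_of_ty (ty := ty) (by omega))))
  · refine T.all_of (n := 9) (by omega) hK (by omega) (fun x => by have := B x; omega) ?_
    have k1 : K s → K m → ∀ x, ty x ≤ 3 → K x := by
      intro hs' hm' x hx
      refine hK.grow m 0 2 hm' (by omega) (by omega) (by omega) (fun y h1 _ h2 => ?_) x (by omega)
        (by omega) (by have := B x; omega)
      by_cases h3 : ty y = 0
      · exact Or.inr ⟨s, hs', Or.inr (T.l4 y h3)⟩
      · exact Or.inl (em y (by have := B y; omega) h1 ▸ hm')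
    by_cases hc : ∃ x, J x ∧ ty x = 0
    · obtain ⟨x, hx, hx0⟩ := hc
      have hm' := hJK m (rowm J hJ x hx hx0)
      exact Or.inl (k1 (hK.pend s x (by omega) hm' (hJK x hx) (Or.inl (T.l4 x hx0))) hm')
    have k0 : ∀ x, J x → ty x ≠ 0 := fun x h1 h2 => hc ⟨x, h1, h2⟩
    have hz' := norow J hJ k0
    obtain ⟨w, a1, a2⟩ := hJ.adj z hz'
    by_cases h1 : ty w = 4
    · exact Or.inl (k1 (T.es w h1 ▸ hJK w a1) (hJK m (hJ.foot w a1 (by omega))))
    have a3 : 7 ≤ blk w := by
      have : 8 ≤ ty w ∧ ty w ≠ 9 ∧ ty w ≠ 10 := by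
        have := T.cmp a2
        have := h0 w
        have := k0 w a1
        omega
      have := B w
      omega
    refine Or.inr fun x hx => hK.grow z 4 9 (hJK z hz') (by omega) (by omega) (by omega)
      (fun y h2 h3 _ => ?_) x (by omega) (by have := B x; omega) (by have := B x; omega)
    by_cases h4 : ty y = 6
    · exact Or.inl (T.ez y h4 ▸ hJK z hz')
    by_cases h5 : ty y = 8
    · exact Or.inr ⟨z, hJK z hz', Or.inl (T.et y h5 ▸ T.zt)⟩
    by_cases h6 : 11 ≤ ty y
    · exact Or.inr ⟨z, hJK z hz', Or.inl (T.g6 y h6)⟩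
    · exact Or.inl (hJK y (hJ.conv z w y hz' a1 h2 (by have := B y; omega)
        (by have := B y; omega)))

end Pool.Agent.Lib.MP_04ca4f_co.St
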