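import Pool.Agent.Lib.MP_04ca4f_co.StDeltaB

/-!
# The layout with z pendant at a maximal point that is not above z
-/

set_option autoImplicit false

namespace Pool.Agent.Lib.MP_04ca4f_co.St

variable {X : Type*} [PartialOrder X] {ty : X → ℕ} {s z t : X}

/-- The block layout. -/
structure VL (ty blk : X → ℕ) (z v q r c m : X) (N : ℕ) : Prop where
  tab : ∀ x, ty x = 0 ∧ blk x = 0 ∨ 1 ≤ ty x ∧ ty x ≤ 3 ∧ (blk x = 1 ∨ blk x = 2) ∨
    ty x = 4 ∧ blk x = 3 ∨ (ty x = 5 ∨ ty x = 7) ∧ 4 ≤ blk x ∧ blk x ≤ 6 ∨ ty x = 8 ∧ blk x = 7 ∨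
    (ty x = 6 ∨ ty x = 9 ∨ ty x = 10) ∧ 8 ≤ blk x ∧ blk x ≤ blk v ∨
    ty x = 11 ∧ blk v < blk x ∧ blk x < N ∨ ty x = 12 ∧ blk x = N
  vN : blk v < N
  hv : ty v = 9 ∨ ty v = 10
  bz : blk z = blk v
  inj : ∀ x y, 9 ≤ ty x → ty x ≤ 11 → 9 ≤ ty y → ty y ≤ 11 → blk x = blk y → x = y
  mono : ∀ x y, ty x = 9 → ty y = 10 → blk x < blk y
  hm : ty m = 5 ∨ ty m = 7
  bq : blk q = 2
  eq : ∀ x, blk x = 2 → x = q
  two : ∃ w, 9 ≤ ty w ∧ ty w ≤ 11 ∧ w ≠ v
  hr : ty r = 3 ∨ ty r = 5 ∨ ty r = 7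
  hc : ty c = 9 ∨ ty c = 5 ∨ ty c = 7
  wr : ∃ b, ty b = 12 ∧ r < b
  wc : ∃ a, ty a = 0 ∧ a < c
  c1 : ty c = 9 → ∀ x, 9 ≤ ty x → x = c ∨ blk c < blk x
  c2 : ty c ≠ 9 → ty v = 9 → ∀ x, ty x = 5 ∨ ty x = 7 → x = c ∨ blk x < blk c
  r1 : ty r ≠ 3 → ty v = 10 → ∀ x, ty x = 5 ∨ ty x = 7 → x = r ∨ blk r < blk x
  q1 : ∀ y, q < y → ty y ≤ 8 → (∀ a, ty a ≤ 3 → ∃ w, a < w ∧ ty w ≤ 8) ∧ (ty r = 3 → q = r)
  q2 : ∀ y, q < y → ∀ a, ty a ≤ 3 → ∃ w, a < w ∧ (ty w ≤ 8 ∨ blk w ≤ blk y)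

variable {blk : X → ℕ} {v q r c m : X} {N : ℕ} {J : X → Prop}

theorem VL.img_out (T : DT ty s z t) (L : VL ty blk z v q r c m N)
    (h : Img (fun x => ty x ≠ 6) v blk J) : ∃ x, J x ∧ (ty x ≤ 3 ∨ 9 ≤ ty x) := by
  by_contra h1
  push Not at h1
  have hv := L.hv
  have hm := L.hm
  have k0 : ∀ x, J x → ty x ≠ 6 := fun x h2 h3 => by
    have := h1 v (h.foot x h2 (not_not.mpr h3))
    omega
  have k1 : ¬ J m := fun h2 => by
    obtain ⟨w, h3, h4⟩ := h.adj m h2
    have := T.cmp h4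
    have := h1 w h3
    omega
  have k2 : ∀ x y, J x → J y → ¬ x < y := fun x y h2 h3 h4 => by
    have := T.lt h4
    have := h1 x h2
    have := h1 y h3
    have := k0 x h2
    have := k0 y h3
    have := L.tab x
    have := L.tab y
    have := L.tab m
    exact k1 (h.conv x y m h2 h3 (by omega) (by omega) (by omega))
  obtain ⟨x, hx⟩ := h.ne
  obtain ⟨y, hy, h2 | h2⟩ := h.adj x hx
  · exact k2 x y hx hy h2
  · exact k2 y x hy hx h2

theorem VL.img_lo (T : DT ty s z t) (L : VL ty blk z v q r c m N)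
    (h : Img (fun x => ty x ≠ 6) v blk J) {a : X} (ha : J a) (h1 : ty a ≤ 3) : J s ∧ J q := by
  obtain ⟨w, h2, h3⟩ := h.adj a ha
  have := T.cmp h3
  have := L.tab a
  have := L.tab w
  have := L.tab s
  have := L.tab q
  have := L.bq
  have := L.vN
  have := L.tab v
  have := L.hv
  have := T.hs
  constructor
  · by_cases h4 : ty w = 4
    · exact T.es w h4 ▸ h2
    · exact h.conv a w s ha h2 (by omega) (by omega) (by omega)
  · by_cases h4 : blk a = 2
    · exact L.eq a h4 ▸ ha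
    · exact h.conv a w q ha h2 (by omega) (by omega) (by omega)

theorem VL.img_hi (T : DT ty s z t) (L : VL ty blk z v q r c m N)
    (h : Img (fun x => ty x ≠ 6) v blk J) {b : X} (hb : J b) (h1 : 9 ≤ ty b) : J t := by
  have hv := L.hv
  have key : ∀ b w, J b → J w → 9 ≤ ty b → ty w ≤ 8 → ty w ≠ 6 → J t := by
    intro b w h2 h3 h4 h5 h6
    have := L.tab b
    have := L.tab w
    have := L.tab t
    have := L.vN
    have := L.tab v
    have := T.ht
    by_cases h7 : ty w = 8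
    · exact T.et w h7 ▸ h3
    · exact h.conv w b t h3 h2 (by omega) (by omega) (by omega)
  obtain ⟨w, h2, h3⟩ := h.adj b hb
  have := T.cmp h3
  by_cases h4 : ty w = 6
  · have h5 := h.foot w h2 (not_not.mpr h4)
    obtain ⟨w', h6, h7⟩ := h.adj v h5
    have := T.cmp h7
    exact key v w' h5 h6 (by omega) (by omega) (by omega)
  · exact key b w hb h2 h1 (by omega) h4

variable {e : X → X}

theorem VL.ret_lo (T : DT ty s z t) (L : VL ty blk z v q r c m N)
    (he : Ret (fun x => ty x ≠ 6) v blk e) : ∃ a, e a = a ∧ ty a ≤ 3 := by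
  by_contra h1
  push Not at h1
  have cv := he.img.conv
  obtain ⟨b, hb, h2⟩ := L.img_out T he.img
  have h3 : 9 ≤ ty b := by have := h1 b hb; omega
  have ht' : e t = t := (L.img_hi T he.img hb h3 :)
  obtain ⟨a, ha, hac⟩ := L.wc
  have hs := T.hs
  have ht := T.ht
  have hv := L.hv
  have hc := L.hc
  have bt : blk t = 7 := by have := L.tab t; omega
  have bs : blk s = 3 := by have := L.tab s; omega
  have bv : 8 ≤ blk v := by have := L.tab v; omega
  have low : ∀ x, x ≤ t → ty (e x) = 4 ∨ ty (e x) = 6 ∨ ty (e x) = 8 := fun x hx => by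
    have h4 := h1 _ (he.idem x)
    rcases (show e x ≤ t from ht' ▸ he.mono _ _ hx).eq_or_lt with h5 | h5
    · rw [h5]
      omega
    · have := T.lt h5
      omega
  have hc' : e c ≠ c := fun h4 => by
    have h5 := low a (T.l8 a (by omega)).le
    rcases (show e a ≤ c from h4 ▸ he.mono _ _ hac.le).eq_or_lt with h6 | h6
    · rw [h6] at h5
      omega
    · have := T.lt h6
      omega
  have c9 : ty c ≠ 9 := fun h4 => by
    rcases L.c1 h4 b h3 with h5 | h5
    · exact hc' (h5 ▸ hb)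
    · have := L.tab c
      exact hc' (cv t b c ht' hb (by omega) (by omega) h5)
  have bc : 4 ≤ blk c ∧ blk c ≤ 6 := by have := L.tab c; omega
  have hs' : e s ≠ s := fun h4 => hc' (cv s t c h4 ht' (by omega) (by omega) (by omega))
  have hv' : e v = v := by
    obtain ⟨w, h4, h5⟩ := he.img.adj t ht'
    have := T.cmp h5
    have := h1 w h4
    have : ty w ≠ 4 := fun h => hs' (T.es w h ▸ h4)
    by_cases h6 : ty w = 6
    · exact he.img.foot w h4 (not_not.mpr h6)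
    · have := L.tab w
      have := L.vN
      exact cv t w v ht' h4 (by omega) (by omega) (by omega)
  rcases hv with h4 | h4
  · obtain ⟨w, h5, h6⟩ := he.img.adj v hv'
    have := T.cmp h6
    have := h1 w h5
    rcases L.c2 c9 h4 w (by omega) with h7 | h7
    · exact hc' (h7 ▸ h5)
    · exact hc' (cv w t c h5 ht' (by omega) h7 (by omega))
  · have h5 := low s (T.sz.trans T.zt).le
    have h6 : ty (e s) ≠ 4 := fun h => hs' (T.es _ h)
    rcases (show e s ≤ v from hv' ▸ he.mono _ _ (T.g4 v (by omega)).le).eq_or_lt with h7 | h7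
    · rw [h7] at h5
      omega
    · have := T.lt h7
      omega

theorem VL.ret_hi (T : DT ty s z t) (L : VL ty blk z v q r c m N)
    (he : Ret (fun x => ty x ≠ 6) v blk e) : ∃ b, e b = b ∧ 9 ≤ ty b := by
  by_contra h1
  push Not at h1
  have cv := he.img.conv
  obtain ⟨a, ha, h2⟩ := L.ret_lo T he
  obtain ⟨hs', hq'⟩ := L.img_lo T he.img ha h2
  obtain ⟨b, hb, hrb⟩ := L.wr
  have hs := T.hs
  have ht := T.ht
  have hv := L.hv
  have hr := L.hr
  have bq := L.bq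
  have bt : blk t = 7 := by have := L.tab t; omega
  have bs : blk s = 3 := by have := L.tab s; omega
  have bv : 8 ≤ blk v := by have := L.tab v; omega
  have tq : 1 ≤ ty q ∧ ty q ≤ 3 := by have := L.tab q; have := L.vN; omega
  have k0 : ∀ x, e x = x → ty x ≠ 6 := fun x h3 h4 => by
    have := h1 v (he.img.foot x h3 (not_not.mpr h4))
    omega
  have high : ∀ x, s ≤ x → ty (e x) = 4 ∨ ty (e x) = 8 := fun x hx => by
    have h4 := h1 _ (he.idem x)
    have h6 := k0 _ (he.idem x)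
    rcases (show s ≤ e x from hs' ▸ he.mono _ _ hx).eq_or_lt with h5 | h5
    · rw [← h5]
      omega
    · have := T.lt h5
      omega
  have hr' : e r ≠ r := fun h4 => by
    have h5 := high b (T.g4 b (by omega)).le
    rcases (show r ≤ e b from h4 ▸ he.mono _ _ hrb.le).eq_or_lt with h6 | h6
    · rw [← h6] at h5
      omega
    · have := T.lt h6
      omega
  obtain ⟨y, hy, h3⟩ := he.img.adj q hq'
  have h4 : q < y := h3.resolve_right (T.inc (by omega))
  have h5 := h1 y hy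
  have r3 : ty r ≠ 3 := fun h => hr' ((L.q1 y h4 (by omega)).2 h ▸ hq')
  have br : 4 ≤ blk r ∧ blk r ≤ 6 := by have := L.tab r; omega
  have ht' : e t ≠ t := fun h => hr' (cv s t r hs' h (by omega) (by omega) (by omega))
  have k1 : ∀ x, e x = x → ty x ≠ 8 := fun x h6 h7 => ht' (T.et x h7 ▸ h6)
  obtain ⟨x, hx | hx⟩ := T.sp1
  · obtain ⟨d, h6, h7⟩ := he.img.adj s hs'
    have h8 : blk d = 0 := by
      have := T.cmp h7
      have := h1 d h6
      have := k0 d h6
      have := k1 d h6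
      have := L.tab d
      omega
    have hx' : e x = x := by
      have := L.tab x
      exact cv d s x h6 hs' (by omega) (by omega) (by omega)
    have h9 := high t (T.sz.trans T.zt).le
    have h10 := k1 _ (he.idem t)
    rcases (show x ≤ e t from hx' ▸ he.mono _ _ (T.l8 x (by omega)).le).eq_or_lt with h | h
    · rw [← h] at h9
      omega
    · have := T.lt h
      omega
  · have v10 : ty v = 10 := by
      by_contra h
      have := L.mono v x (by omega) hx
      have := L.tab x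
      omega
    have := T.lt h4
    have := k0 y hy
    have := k1 y hy
    rcases L.r1 r3 v10 y (by omega) with h | h
    · exact hr' (h ▸ hy)
    · exact hr' (cv s y r hs' hy (by omega) (by omega) h)

theorem VL.ret (T : DT ty s z t) (L : VL ty blk z v q r c m N)
    (he : Ret (fun x => ty x ≠ 6) v blk e) :
    (∃ d, ty d = 0 ∧ e d = d) ∧ (∃ u, ty u = 12 ∧ e u = u) ∧ ∀ x, ty x = 6 → e x = x := by
  have cv := he.img.conv
  obtain ⟨a0, ha0, h1⟩ := L.ret_lo T he
  obtain ⟨b0, hb0, h2⟩ := L.ret_hi T he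
  have hs' : e s = s := (L.img_lo T he.img ha0 h1).1
  have ht' : e t = t := (L.img_hi T he.img hb0 h2 :)
  obtain ⟨b, hb, hrb⟩ := L.wr
  obtain ⟨a, ha, hac⟩ := L.wc
  have hs := T.hs
  have hz := T.hz
  have ht := T.ht
  have hv := L.hv
  have hr := L.hr
  have hc := L.hc
  have vN := L.vN
  have bt : blk t = 7 := by have := L.tab t; omega
  have bs : blk s = 3 := by have := L.tab s; omega
  have bv : 8 ≤ blk v := by have := L.tab v; omega
  have hc' : e c = c := by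
    have := L.tab c
    by_cases h : ty c = 9
    · rcases L.c1 h b0 h2 with h5 | h5
      · exact h5 ▸ hb0
      · exact cv t b0 c ht' hb0 (by omega) (by omega) h5
    · exact cv s t c hs' ht' (by omega) (by omega) (by omega)
  obtain ⟨d, a1, a2, -⟩ := he.slb hs' hc' (T.l4 a ha) hac (T.inc (by omega))
    (T.inc (by omega)) (ne_of_ty (ty := ty) (by omega))
  have hd : ty d = 0 := by have := T.lt a2; omega
  have hr' : e r = r := by
    have := L.tab r
    have := L.tab d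
    exact cv d t r a1 ht' (by omega) (by omega) (by omega)
  obtain ⟨u, a3, a4, -⟩ := he.sub ht' hr' (T.g8 b hb) hrb (T.inc (by omega))
    (T.inc (by omega)) (ne_of_ty (ty := ty) (by omega))
  have hu : ty u = 12 := by have := T.lt a4; omega
  have hB : ∀ x, 9 ≤ ty x → ty x ≤ 11 → e x = x := fun x h3 h4 => by
    have := L.tab x
    have := L.tab u
    exact cv t u x ht' a3 (by omega) (by omega) (by omega)
  refine ⟨⟨d, hd, a1⟩, ⟨u, hu, a3⟩, fun x h => T.ez x h ▸ ?_⟩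
  rcases he.loc z (by omega) (hB v (by omega) (by omega)) with h3 | ⟨h3, h4⟩
  · exact h3
  exfalso
  have h5 : s ≤ e z := hs' ▸ he.mono _ _ T.sz.le
  have h6 : e z ≤ t := ht' ▸ he.mono _ _ T.zt.le
  rcases h6.eq_or_lt with h7 | h7
  · obtain ⟨w, b1, b2, b3⟩ := L.two
    rw [h7] at h4
    have b4 := L.tab w
    by_cases b5 : ty w = 11
    · have b6 : e z ≤ w := hB w b1 b2 ▸ he.mono _ _ (T.g6 w (by omega)).le
      rw [h7] at b6
      exact absurd (b6.lt_of_ne (ne_of_ty (ty := ty) (by omega))) (T.inc (by omega))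
    · have b6 : blk w ≠ blk v := fun h => b3 (L.inj w v b1 b2 (by omega) (by omega) h)
      exact (h4 w (by omega)).2 ⟨by omega, by omega⟩
  rcases h5.eq_or_lt with h8 | h8
  · rw [← h8] at h4
    exact (h4 t (by omega)).2 ⟨by omega, by omega⟩
  · have := T.lt h7
    have := T.lt h8
    omega

theorem VL.nil (T : DT ty s z t) (L : VL ty blk z v q r c m N) {K : X → Prop}
    (hJ : Img (fun x => ty x ≠ 6) v blk J) (hJK : ∀ x, J x → K x)
    (hK : Clo (fun x => ty x ≠ 6) v blk K) : ∀ x, K x := by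
  have hs := T.hs
  have hz := T.hz
  have ht := T.ht
  have hv := L.hv
  have vN := L.vN
  have bq := L.bq
  have cv := hJ.conv
  have bt : blk t = 7 := by have := L.tab t; omega
  have bs : blk s = 3 := by have := L.tab s; omega
  have bv : 8 ≤ blk v := by have := L.tab v; omega
  have tq : 1 ≤ ty q ∧ ty q ≤ 3 := by have := L.tab q; omega
  refine T.all_of (n := N) (by omega) hK (by omega) (fun x => by have := L.tab x; omega) ?_
  have kA : K s → (∀ y, 1 ≤ ty y → ty y ≤ 3 → K y ∨ ∃ w, K w ∧ (w < y ∨ y < w)) →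
      ∀ x, ty x ≤ 3 → K x := by
    intro hs' h x hx
    refine hK.grow s 0 3 hs' (by omega) (by omega) (by omega) (fun y _ _ h1 => ?_) x (by omega)
      (by omega) (by have := L.tab x; omega)
    have := L.tab y
    by_cases h2 : ty y = 0
    · exact Or.inr ⟨s, hs', Or.inr (T.l4 y h2)⟩
    by_cases h3 : ty y = 4
    · exact Or.inl (T.es y h3 ▸ hs')
    exact h y (by omega) (by omega)
  have kB : K t → (∀ y, 9 ≤ ty y → ty y ≤ 11 → K y ∨ ∃ w, K w ∧ (w < y ∨ y < w)) →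
      ∀ x, 9 ≤ ty x → K x := by
    intro ht' h x hx
    refine hK.grow t 7 N ht' (by omega) (by omega) (by omega) (fun y h0 h1 _ => ?_) x (by omega)
      (by have := L.tab x; omega) (by have := L.tab x; omega)
    have := L.tab y
    by_cases h2 : ty y = 12
    · exact Or.inr ⟨t, ht', Or.inl (T.g8 y h2)⟩
    by_cases h3 : ty y = 8
    · exact Or.inl (T.et y h3 ▸ ht')
    exact h y (by omega) (by omega)
  have kU : J t → ∀ u, J u → ty u = 12 → ∀ x, 9 ≤ ty x → K x := fun ht' u h1 h2 =>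
    kB (hJK t ht') fun y h3 h4 => Or.inl (hJK y (by
      have := L.tab y
      have := L.tab u
      exact cv t u y ht' h1 (by omega) (by omega) (by omega)))
  by_cases hA : ∃ a, J a ∧ ty a ≤ 3
  · obtain ⟨a, ha, h1⟩ := hA
    obtain ⟨hs', hq'⟩ := L.img_lo T hJ ha h1
    by_cases ht' : J t
    · have mid : ∀ a w, a < w → ty a ≤ 3 → ty w ≤ 8 → ∃ w, K w ∧ (w < a ∨ a < w) := by
        intro a w h2 h3 h4
        have := T.lt h2
        by_cases h5 : ty w = 5 ∨ ty w = 7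
        · have := L.tab w
          exact ⟨w, hJK w (cv s t w hs' ht' (by omega) (by omega) (by omega)), Or.inr h2⟩
        · exact ⟨t, hJK t ht', Or.inr (T.l8 a (by omega))⟩
      obtain ⟨y, hy, h3⟩ := hJ.adj q hq'
      have h4 : q < y := h3.resolve_right (T.inc (by omega))
      by_cases h5 : ty y ≤ 8
      · refine Or.inl (kA (hJK s hs') fun x _ hx => Or.inr ?_)
        obtain ⟨w, h6, h7⟩ := (L.q1 y h4 h5).1 x hx
        exact mid x w h6 hx h7
      by_cases h6 : ty y = 12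
      · exact Or.inr (kU ht' y hy h6)
      refine Or.inl (kA (hJK s hs') fun x _ hx => Or.inr ?_)
      obtain ⟨w, h7, h8⟩ := L.q2 y h4 x hx
      by_cases h9 : ty w ≤ 8
      · exact mid x w h7 hx h9
      refine ⟨w, hJK w ?_, Or.inr h7⟩
      have := L.tab w
      have := L.tab y
      by_cases h10 : blk w = blk y
      · exact L.inj w y (by omega) (by omega) (by omega) (by omega) h10 ▸ hy
      · exact cv t y w ht' hy (by omega) (by omega) (by omega)
    · have k0 : ∀ x, J x → ty x ≤ 8 := fun x hx => by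
        by_contra h
        exact ht' (L.img_hi T hJ hx (by omega))
      obtain ⟨d, h2, h3⟩ := hJ.adj s hs'
      have h4 : blk d = 0 := by
        have := T.cmp h3
        have := k0 d h2
        have : ty d ≠ 6 := fun h => by
          have := k0 v (hJ.foot d h2 (not_not.mpr h))
          omega
        have : ty d ≠ 8 := fun h => ht' (T.et d h ▸ h2)
        have := L.tab d
        omega
      refine Or.inl (kA (hJK s hs') fun x h5 h6 => Or.inl (hJK x ?_))
      have := L.tab x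
      exact cv d s x h2 hs' (by omega) (by omega) (by omega)
  push Not at hA
  obtain ⟨b, hb, h1⟩ := L.img_out T hJ
  have h2 : 9 ≤ ty b := by have := hA b hb; omega
  have ht' := L.img_hi T hJ hb h2
  right
  by_cases hz' : J z
  · have hv' := hJ.foot z hz' (by omega)
    refine kB (hJK t ht') fun y h3 h4 => ?_
    have := L.tab y
    by_cases h5 : ty y = 11
    · exact Or.inr ⟨z, hJK z hz', Or.inl (T.g6 y (by omega))⟩
    by_cases h6 : blk y = blk v
    · exact Or.inl (hJK y (L.inj y v h3 h4 (by omega) (by omega) h6 ▸ hv'))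
    · exact Or.inl (hJK y (cv t v y ht' hv' (by omega) (by omega) (by omega)))
  have k0 : ∀ x, J x → ty x ≠ 6 := fun x h3 h4 => hz' (T.ez x h4 ▸ h3)
  obtain ⟨w, h3, h4⟩ := hJ.adj t ht'
  by_cases h5 : ty w = 12
  · exact kU ht' w h3 h5
  have hs' : J s := by
    have := T.cmp h4
    have := hA w h3
    have := k0 w h3
    exact T.es w (by omega) ▸ h3
  obtain ⟨u, h6, h7⟩ : ∃ u, J u ∧ 10 ≤ ty u := by
    obtain ⟨x, y, a1, a2, a3, a4, a5⟩ := hJ.cut (fun x => ty x = 4 ∨ ty x = 8) s b hs' hb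
      (Or.inl hs) (by omega)
    have := T.cmp a5
    have := hA y a2
    have := k0 y a2
    exact ⟨y, a2, by omega⟩
  refine kB (hJK t ht') fun y h8 h9 => ?_
  by_cases h10 : 10 ≤ ty y
  · exact Or.inr ⟨s, hJK s hs', Or.inl (T.g4 y h10)⟩
  refine Or.inl (hJK y (cv t u y ht' h6 (by omega) (by have := L.tab y; omega) ?_))
  by_cases h11 : ty u = 10
  · exact L.mono y u (by omega) h11
  · have := L.tab y
    have := L.tab u
    omega

theorem VL.perp [Finite X] (T : DT ty s z t) (L : VL ty blk z v q r c m N) : Perp X := by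
  have hs := T.hs
  have hz := T.hz
  have ht := T.ht
  have hv := L.hv
  have hm := L.hm
  have vN := L.vN
  have bq := L.bq
  have bt : blk t = 7 := by have := L.tab t; omega
  have bs : blk s = 3 := by have := L.tab s; omega
  have bv : 8 ≤ blk v := by have := L.tab v; omega
  have bm : 4 ≤ blk m ∧ blk m ≤ 6 := by have := L.tab m; omega
  have tq : 1 ≤ ty q ∧ ty q ≤ 3 := by have := L.tab q; omega
  refine T.perp 6 (by omega) v blk (by omega) (fun x h => T.ez x h ▸ L.bz)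
    (fun x y _ _ h => ?_) (fun x h => ⟨T.inc (by omega), T.inc (by omega)⟩)
    (fun d x h1 h2 => ?_) (fun d x h1 h2 => ?_) (fun d x h1 h2 h3 => ?_) (fun d x h1 h2 => ?_)
    (fun e he => L.ret T he) (fun J K hJ hJK hK => L.nil T hJ hJK hK)
  · have := T.lt h
    have := L.tab x
    have := L.tab y
    by_cases h1 : ty y = 4
    · exact ⟨q, by omega, by omega⟩
    by_cases h2 : ty x = 8
    · exact ⟨v, by omega, by omega⟩
    by_cases h3 : ty x ≤ 3
    · exact ⟨s, by omega, by omega⟩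
    by_cases h4 : ty y = 8
    · exact ⟨m, by omega, by omega⟩
    exact ⟨t, by omega, by omega⟩
  · have := L.tab d; have := L.tab x; omega
  · have := L.tab d; have := L.tab x; omega
  · have := L.tab d; have := L.tab x; omega
  · have := L.tab d; have := L.tab x; omega

omit [PartialOrder X] in
/-- An injective refinement of a key. -/
theorem exists_key [Finite X] (κ : X → ℕ) :
    ∃ g : X → ℕ, (∀ x y, g x = g y → x = y) ∧ ∀ x y, κ x < κ y → g x < g y := by
  obtain ⟨n, ⟨φ⟩⟩ := Finite.exists_equiv_fin X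
  have key : ∀ x y, κ x < κ y → κ x * n + (φ x : ℕ) < κ y * n + (φ y : ℕ) := fun x y hxy => by
    have h1 := (φ x).2
    have h2 : (κ x + 1) * n ≤ κ y * n := Nat.mul_le_mul_right n hxy
    rw [add_mul, one_mul] at h2
    omega
  refine ⟨fun x => κ x * n + φ x, fun x y hxy => ?_, key⟩
  rcases lt_trichotomy (κ x) (κ y) with a | a | a
  · exact absurd hxy (key x y a).ne
  · simp only [a] at hxy
    exact φ.injective (Fin.ext (by omega))
  · exact absurd hxy (key y x a).ne'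

omit [PartialOrder X] in
/-- The blocks of the maximal points. -/
theorem exists_blkB [Finite X] (hle : ∀ x, ty x ≤ 12) (c : X) : ∃ (g : X → ℕ) (N : ℕ),
    (∀ x, 8 ≤ g x) ∧ (∀ x, ty x = 12 → g x = N) ∧ (∀ x, ty x ≤ 11 → g x < N) ∧
    (∀ x y, ty x ≤ 11 → ty y ≤ 11 → g x = g y → x = y) ∧
    (∀ x y, 9 ≤ ty x → ty x < ty y → ty c ≤ 9 → g x < g y) ∧
    (∀ x, ty c ≤ 9 → x = c ∨ g c < g x) := by
  classical
  obtain ⟨g, g1, g2⟩ := exists_key (fun x => if x = c then 0 else ty x + 1)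
  obtain ⟨N, hN⟩ := (Set.finite_range g).bddAbove
  have h1 : ∀ x, g x ≤ N := fun x => hN ⟨x, rfl⟩
  refine ⟨fun x => if ty x = 12 then N + 9 else g x + 8, N + 9, fun x => ?_, fun x h => if_pos h,
    fun x h => ?_, fun x y hx hy h => ?_, fun x y hx hy hc => ?_, fun x hc => ?_⟩ <;>
    beta_reduce at *
  · split_ifs <;> omega
  · have := h1 x
    split_ifs <;> omega
  · rw [if_neg (by omega), if_neg (by omega)] at h
    exact g1 x y (by omega)
  · have := hle y
    have := h1 x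
    have h2 : y ≠ c := fun h => by rw [h] at hy; omega
    have h3 : g x < g y := g2 x y (by
      simp only [if_neg h2]
      split_ifs <;> omega)
    split_ifs <;> omega
  · by_cases h : x = c
    · exact Or.inl h
    right
    have := h1 c
    have h3 : g c < g x := g2 c x (by simp [h])
    split_ifs <;> omega

/-- The choice of the last minimal point. -/
theorem DT.exists_last [Finite X] (T : DT ty s z t) (g : X → ℕ) (r : X)
    (h1 : ∃ x, 1 ≤ ty x ∧ ty x ≤ 3) : ∃ q, 1 ≤ ty q ∧ ty q ≤ 3 ∧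
    (∀ y, q < y → ty y ≤ 8 → (∀ a, ty a ≤ 3 → ∃ w, a < w ∧ ty w ≤ 8) ∧ (ty r = 3 → q = r)) ∧
    ∀ y, q < y → ∀ a, ty a ≤ 3 → ∃ w, a < w ∧ (ty w ≤ 8 ∨ 9 ≤ ty y ∧ g w ≤ g y) := by
  by_cases h : ∀ a, ty a ≤ 3 → ∃ w, a < w ∧ ty w ≤ 8
  · have h2 : ∀ y a, ty a ≤ 3 → ∃ w, a < w ∧ (ty w ≤ 8 ∨ 9 ≤ ty y ∧ g w ≤ g y) :=
      fun y a ha => (h a ha).imp fun w hw => ⟨hw.1, Or.inl hw.2⟩
    by_cases h3 : ty r = 3
    · exact ⟨r, by omega, by omega, fun _ _ _ => ⟨h, fun _ => rfl⟩, fun y _ => h2 y⟩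
    · obtain ⟨x, h4, h5⟩ := h1
      exact ⟨x, h4, h5, fun _ _ _ => ⟨h, fun h6 => absurd h6 h3⟩, fun y _ => h2 y⟩
  push Not at h
  obtain ⟨q, ⟨q1, q2⟩, q3⟩ := Set.exists_max_image {a | ty a ≤ 3 ∧ ∀ w, a < w → 8 < ty w}
    (fun a => sInf (g '' {w | a < w})) (Set.toFinite _) h
  have h3 : ¬ ty q ≤ 2 := fun h4 => by
    have := q2 t (T.l8 q h4)
    have := T.ht
    omega
  refine ⟨q, by omega, q1, fun y h4 h5 => absurd (q2 y h4) (by omega), fun y h4 a ha => ?_⟩
  by_cases h5 : ∀ w, a < w → 8 < ty w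
  · obtain ⟨b, hb, -⟩ := T.up a (by omega)
    obtain ⟨w, h6, h7⟩ := Nat.sInf_mem (s := g '' {w | a < w}) ⟨_, b, hb, rfl⟩
    have h8 := q3 a ⟨ha, h5⟩
    have h9 : sInf (g '' {w | q < w}) ≤ g y := Nat.sInf_le ⟨y, h4, rfl⟩
    exact ⟨w, h6, Or.inr ⟨q2 y h4, by omega⟩⟩
  · push Not at h5
    exact h5.imp fun w hw => ⟨hw.1, Or.inl hw.2⟩

theorem DT.v1 [Finite X] (T : DT ty s z t) (h0 : ∃ m, ty m = 5 ∨ ty m = 7)
    (h1 : ∃ x, 1 ≤ ty x ∧ ty x ≤ 3) (h2 : ∃ v, ty v = 9 ∨ ty v = 10)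
    (h3 : ∃ x y, x ≠ y ∧ 9 ≤ ty x ∧ ty x ≤ 11 ∧ 9 ≤ ty y ∧ ty y ≤ 11) : Perp X := by
  classical
  obtain ⟨m, hm⟩ := h0
  obtain ⟨r, b, hr, hb, hrb⟩ := T.wr
  obtain ⟨c, a, hc, ha, hac⟩ := T.wc
  obtain ⟨g, N, g1, g2, g3, g4, g5, g6⟩ := exists_blkB T.le c
  obtain ⟨v, hv, v1⟩ := Set.exists_max_image {x | ty x = 9 ∨ ty x = 10} g (Set.toFinite _) h2
  change ty v = 9 ∨ ty v = 10 at hv
  obtain ⟨q, q0, q0', q1, q2⟩ := T.exists_last g r h1
  have vN := g3 v (by omega)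
  have v8 := g1 v
  obtain ⟨blk, B⟩ : ∃ blk : X → ℕ, ∀ x, ty x = 0 ∧ blk x = 0 ∨ x = q ∧ blk x = 2 ∨
      x ≠ q ∧ 1 ≤ ty x ∧ ty x ≤ 3 ∧ blk x = 1 ∨ ty x = 4 ∧ blk x = 3 ∨ ty x = 6 ∧ blk x = g v ∨
      ty x = 8 ∧ blk x = 7 ∨ 9 ≤ ty x ∧ blk x = g x ∨ (ty x = 5 ∨ ty x = 7) ∧
        (x = r ∧ ty v = 10 ∧ blk x = 4 ∨ x = c ∧ ty v = 9 ∧ blk x = 6 ∨
          (x ≠ r ∨ ty v = 9) ∧ (x ≠ c ∨ ty v = 10) ∧ blk x = 5) := by
    have key : ∀ x, ∃ n : ℕ, ty x = 0 ∧ n = 0 ∨ x = q ∧ n = 2 ∨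
      x ≠ q ∧ 1 ≤ ty x ∧ ty x ≤ 3 ∧ n = 1 ∨ ty x = 4 ∧ n = 3 ∨ ty x = 6 ∧ n = g v ∨
      ty x = 8 ∧ n = 7 ∨ 9 ≤ ty x ∧ n = g x ∨ (ty x = 5 ∨ ty x = 7) ∧
        (x = r ∧ ty v = 10 ∧ n = 4 ∨ x = c ∧ ty v = 9 ∧ n = 6 ∨
          (x ≠ r ∨ ty v = 9) ∧ (x ≠ c ∨ ty v = 10) ∧ n = 5) := by
      intro x
      by_cases e0 : x = q
      · exact ⟨2, Or.inr (Or.inl ⟨e0, rfl⟩)⟩
      by_cases e1 : ty x = 0
      · exact ⟨0, Or.inl ⟨e1, rfl⟩⟩
      by_cases e2 : ty x ≤ 3
      · exact ⟨1, Or.inr (Or.inr (Or.inl ⟨e0, by omega, e2, rfl⟩))⟩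
      by_cases e3 : ty x = 4
      · exact ⟨3, by simp [e3]⟩
      by_cases e4 : ty x = 6
      · exact ⟨g v, by simp [e4]⟩
      by_cases e5 : ty x = 8
      · exact ⟨7, by simp [e5]⟩
      by_cases e6 : 9 ≤ ty x
      · exact ⟨g x, by simp [e6]⟩
      have e7 : ty x = 5 ∨ ty x = 7 := by omega
      suffices h : ∃ n : ℕ, x = r ∧ ty v = 10 ∧ n = 4 ∨ x = c ∧ ty v = 9 ∧ n = 6 ∨
          (x ≠ r ∨ ty v = 9) ∧ (x ≠ c ∨ ty v = 10) ∧ n = 5 from
        h.imp fun n h => Or.inr (Or.inr (Or.inr (Or.inr (Or.inr (Or.inr (Or.inr ⟨e7, h⟩))))))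
      rcases hv with e8 | e8
      · by_cases e9 : x = c
        · exact ⟨6, Or.inr (Or.inl ⟨e9, e8, rfl⟩)⟩
        · exact ⟨5, Or.inr (Or.inr ⟨Or.inr e8, Or.inl e9, rfl⟩)⟩
      · by_cases e9 : x = r
        · exact ⟨4, Or.inl ⟨e9, e8, rfl⟩⟩
        · exact ⟨5, Or.inr (Or.inr ⟨Or.inl e9, Or.inr e8, rfl⟩)⟩
    exact ⟨fun x => (key x).choose, fun x => (key x).choose_spec⟩
  have hB : ∀ x, 9 ≤ ty x → blk x = g x := fun x h => by
    rcases B x with e | ⟨rfl, e⟩ | e <;> omega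
  have hM : ∀ x, ty x = 5 ∨ ty x = 7 →
      (x = r ∧ ty v = 10 ∧ blk x = 4 ∨ x = c ∧ ty v = 9 ∧ blk x = 6 ∨
        (x ≠ r ∨ ty v = 9) ∧ (x ≠ c ∨ ty v = 10) ∧ blk x = 5) := fun x h => by
    rcases B x with e | ⟨rfl, e⟩ | ⟨-, e⟩ | e | e | e | e | e
    any_goals omega
    exact e.2
  have bv := hB v (by omega)
  refine VL.perp (blk := blk) (v := v) (q := q) (r := r) (c := c) (m := m) (N := N) T
    ⟨fun x => ?_, by omega, hv, ?_, fun x y a1 a2 a3 a4 h => ?_, fun x y a1 a2 => ?_, hm, ?_,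
      fun x h => ?_, ?_, hr, hc, ⟨b, hb, hrb⟩, ⟨a, ha, hac⟩, fun h x hx => ?_,
      fun h h' x hx => ?_, fun h h' x hx => ?_, q1, fun y h a ha => ?_⟩
  · have a1 := T.le x
    have a2 := g1 x
    have a3 := g2 x
    have a4 := g3 x
    have a5 : ty x = 9 ∨ ty x = 10 → g x ≤ g v := v1 x
    have a6 : ty x = 11 → g v < g x := fun h => g5 v x (by omega) (by omega) (by omega)
    rw [bv]
    have a7 := B x
    generalize blk x = n at a7 ⊢
    clear B hB hM g1 g2 g3 g4 g5 g6 v1 q1 q2 h1 h2 h3 hr hc hm bv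
    rcases a7 with e | ⟨rfl, e⟩ | ⟨-, e⟩ | e | e | e | e | ⟨e, e'⟩
    · exact Or.inl e
    · exact Or.inr (Or.inl ⟨q0, q0', Or.inr e⟩)
    · exact Or.inr (Or.inl ⟨e.1, e.2.1, Or.inl e.2.2⟩)
    · exact Or.inr (Or.inr (Or.inl e))
    · omega
    · exact Or.inr (Or.inr (Or.inr (Or.inr (Or.inl e))))
    · right; right; right; right; right
      omega
    · refine Or.inr (Or.inr (Or.inr (Or.inl ⟨e, ?_⟩)))
      rcases e' with ⟨-, e'⟩ | ⟨-, e'⟩ | ⟨-, -, e'⟩ <;> omega
  · have := T.hz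
    rcases B z with e | ⟨rfl, e⟩ | ⟨-, e⟩ | e | e | e | e | ⟨e, -⟩ <;> omega
  · exact g4 x y a2 a4 (by rw [← hB x a1, ← hB y a3, h])
  · rw [hB x (by omega), hB y (by omega)]
    exact g5 x y (by omega) (by omega) (by omega)
  · rcases B q with e | ⟨-, e⟩ | ⟨e, -⟩ | e | e | e | e | ⟨e, -⟩
    any_goals omega
    exact absurd rfl e
  · have a2 := g1 x
    rcases B x with e | ⟨e, -⟩ | ⟨-, e⟩ | e | e | e | e | ⟨e, ⟨-, e'⟩ | ⟨-, e'⟩ | ⟨-, -, e'⟩⟩
    all_goals first | exact e | omega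
  · obtain ⟨x, y, a1, a2, a3, a4, a5⟩ := h3
    by_cases h : x = v
    · exact ⟨y, a4, a5, fun e => a1 (h.trans e.symm)⟩
    · exact ⟨x, a2, a3, h⟩
  · rw [hB x hx, hB c (by omega)]
    exact g6 x (by omega)
  · have a1 : blk c = 6 := by
      rcases hM c (by omega) with e | e | ⟨-, e | e, -⟩
      any_goals omega
      exact absurd rfl e
    rcases hM x hx with e | e | e
    · omega
    · exact Or.inl e.1
    · exact Or.inr (by omega)
  · have a1 : blk r = 4 := by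
      rcases hM r (by omega) with e | e | ⟨e | e, -⟩
      any_goals omega
      exact absurd rfl e
    rcases hM x hx with e | e | e
    · exact Or.inl e.1
    · omega
    · exact Or.inr (by omega)
  · obtain ⟨w, a1, a2⟩ := q2 y h a ha
    refine ⟨w, a1, ?_⟩
    by_cases a3 : ty w ≤ 8
    · exact Or.inl a3
    · have a4 := a2.resolve_left a3
      rw [hB w (by omega), hB y a4.1]
      exact Or.inr a4.2

end Pool.Agent.Lib.MP_04ca4f_co.St
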