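import Pool.Agent.Lib.MP_04ca4f_co.StDelta1
import Pool.Agent.Lib.MP_04ca4f_co.StDelta2
import Pool.Agent.Lib.MP_04ca4f_co.StDelta3
import Pool.Agent.Lib.MP_04ca4f_co.StDelta4
import Pool.Agent.Lib.MP_04ca4f_co.StDelta5
import Pool.Agent.Lib.MP_04ca4f_co.StDelta6

/-!
# Finite prime orders whose comparable middle points form a chain of three points
-/

set_option autoImplicit false

namespace Pool.Agent.Lib.MP_04ca4f_co.St

variable {X : Type*} [PartialOrder X] {ty : X → ℕ} {s z t : X}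

theorem DT.perp_all [Finite X] (T : DT ty s z t) : Perp X := by
  have le := T.le
  by_cases h0 : ∀ x, ty x ≠ 5 ∧ ty x ≠ 7
  · by_cases h1 : ∃ y, ty y = 10
    · obtain ⟨y, hy⟩ := h1
      exact T.dI0 h0 hy
    by_cases h2 : ∃ y, ty y = 2
    · obtain ⟨y, hy⟩ := h2
      exact Perp.of_dual (T.dual.dI0 (y1 := y) (fun x => by have := h0 x; omega) (by omega))
    push Not at h1 h2
    exact T.dII0 fun x => ⟨(h0 x).1, (h0 x).2, h2 x, h1 x⟩
  obtain ⟨m, hm⟩ : ∃ m, ty m = 5 ∨ ty m = 7 := by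
    by_contra h
    push Not at h
    exact h0 h
  by_cases h1 : ∀ x, ty x ≤ 3 → ty x = 0
  · exact T.p0 h1
  by_cases h2 : ∀ x, 9 ≤ ty x → ty x = 12
  · exact Perp.of_dual (T.dual.p0 fun x h => by have := h2 x; omega)
  push Not at h1 h2
  obtain ⟨a, a1, a2⟩ := h1
  obtain ⟨b, b1, b2⟩ := h2
  by_cases h3 : (∃ v, ty v = 9 ∨ ty v = 10) ∧
      ∃ x y, x ≠ y ∧ 9 ≤ ty x ∧ ty x ≤ 11 ∧ 9 ≤ ty y ∧ ty y ≤ 11
  · exact T.v1 ⟨m, hm⟩ ⟨a, by omega, a1⟩ h3.1 h3.2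
  by_cases h4 : (∃ v, ty v = 2 ∨ ty v = 3) ∧
      ∃ x y, x ≠ y ∧ 1 ≤ ty x ∧ ty x ≤ 3 ∧ 1 ≤ ty y ∧ ty y ≤ 3
  · obtain ⟨⟨v, hv⟩, x, y, c1, c2, c3, c4, c5⟩ := h4
    have := le b
    exact Perp.of_dual (T.dual.v1 ⟨m, by omega⟩ ⟨b, by omega, by omega⟩ ⟨v, by omega⟩
      ⟨x, y, c1, by omega, by omega, by omega, by omega⟩)
  have uB : (∃ v, ty v = 9 ∨ ty v = 10) → ∀ x y, 9 ≤ ty x → ty x ≤ 11 → 9 ≤ ty y → ty y ≤ 11 →
      x = y := fun h x y c1 c2 c3 c4 => by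
    by_contra c5
    exact h3 ⟨h, x, y, c5, c1, c2, c3, c4⟩
  have uA : (∃ v, ty v = 2 ∨ ty v = 3) → ∀ x y, 1 ≤ ty x → ty x ≤ 3 → 1 ≤ ty y → ty y ≤ 3 →
      x = y := fun h x y c1 c2 c3 c4 => by
    by_contra c5
    exact h4 ⟨h, x, y, c5, c1, c2, c3, c4⟩
  obtain ⟨x1, hx1⟩ := T.sp1
  obtain ⟨x2, hx2⟩ := T.sp2
  have k1 : ∀ v, ty v = 9 ∨ ty v = 10 → ty x2 = 2 := fun v hv => by
    by_contra h
    have := uB ⟨v, hv⟩ v x2 (by omega) (by omega) (by omega) (by omega)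
    rw [this] at hv
    omega
  have k2 : ∀ v, ty v = 2 ∨ ty v = 3 → ty x1 = 10 := fun v hv => by
    by_contra h
    have := uA ⟨v, hv⟩ v x1 (by omega) (by omega) (by omega) (by omega)
    rw [this] at hv
    omega
  by_cases h5 : ty x2 = 2
  · have h6 := k2 x2 (Or.inl h5)
    exact T.dAc x2 x1 h5 h6
      (fun w c1 c2 => uA ⟨x2, Or.inl h5⟩ w x2 c1 c2 (by omega) (by omega))
      fun w c1 c2 => uB ⟨x1, Or.inr h6⟩ w x1 c1 c2 (by omega) (by omega)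
  refine T.v2s fun x => ?_
  have c1 := k1 x
  have c2 := k2 x
  have c3 := k1 x1
  omega

/-- A finite prime order whose comparable middle points form a chain s < z < t has a
perpendicular order. -/
theorem delta_case [Finite X] (hp : Pr X) (sz : s < z) (zt : z < t) (exD : ∃ d, d < s)
    (exU : ∃ u, t < u)
    (only : ∀ w x y w', w < x → x < y → y < w' → (x = s ∨ x = z) ∧ (y = z ∨ y = t)) :
    Perp X := by
  obtain ⟨ty, T⟩ := exists_DT hp sz zt exD exU only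
  exact T.perp_all

end Pool.Agent.Lib.MP_04ca4f_co.St
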