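import Pool.Agent.Lib.MP_04ca4f_co.StZT

/-!
# The path with s between the minimal points and the other middle points
-/

set_option autoImplicit false

namespace Pool.Agent.Lib.MP_04ca4f_co.St

variable {X : Type*} [PartialOrder X] {ty : X → ℕ} {s : X}

/-- The block layout. -/
structure NL (ty blk : X → ℕ) (t t' q r c m y : X) (N : ℕ) : Prop where
  tab : ∀ x, ty x = 0 ∧ blk x = 0 ∨ ty x = 1 ∧ (blk x = 1 ∨ blk x = 2) ∨ ty x = 2 ∧ blk x = 3 ∨
    ty x = 4 ∧ (blk x = 4 ∨ blk x = 5) ∨ ty x = 3 ∧ 6 ≤ blk x ∧ blk x ≤ 8 ∨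
    ty x = 5 ∧ 9 ≤ blk x ∧ blk x < N ∨ ty x = 6 ∧ (blk x = N ∨ blk x = N + 1)
  hN : 9 ≤ N
  hU : ∀ x, t' < x ↔ blk x = N + 1
  ht : ty t = 3
  bt : ∀ x, 6 ≤ blk x → x = t ∨ blk t < blk x
  bt' : blk t' = 8
  e8 : ∀ x, blk x = 8 → x = t'
  bq : blk q = 2
  e2 : ∀ x, blk x = 2 → x = q
  hm : ty m = 4
  hr : ty r = 1 ∨ ty r = 4
  br : ty r = 4 → ∀ x, ty x = 4 → x = r ∨ blk r < blk x
  wr : ∃ b, t < b ∧ r < b
  rt : ¬ r < t
  hc : ty c = 4 ∨ ty c = 5
  wc : ∃ a, ty a = 0 ∧ a < c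
  bc : ty c = 5 → ∀ x, 5 ≤ ty x → x = c ∨ blk c < blk x
  inj : ∀ x w, ty x = 5 → ty w = 5 → blk x = blk w → x = w
  hy : 5 ≤ ty y
  ty' : ¬ t' < y
  alt : t ≠ t' ∨ ty y = 6
  q1 : ∀ w, q < w → ty w ≤ 4 → (∀ a, ty a = 1 → ∃ w, a < w ∧ ty w ≤ 4) ∧ (ty r = 1 → q = r)
  q2 : ∀ w, q < w → ∀ a, ty a = 1 → ∃ w', a < w' ∧ (ty w' ≤ 4 ∨ blk w' ≤ blk w)

variable {blk : X → ℕ} {t t' q r c m y v : X} {N : ℕ} {J : X → Prop}

theorem ZT.cmp (T : ZT ty s) {x y : X} (h : x < y ∨ y < x) :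
    (ty x = 0 ∧ 2 ≤ ty y ∨ ty x = 1 ∧ 3 ≤ ty y ∨ ty x = 2 ∧ (ty y = 3 ∨ ty y = 6) ∨
      ty x = 3 ∧ ty y = 6 ∨ ty x = 4 ∧ 5 ≤ ty y) ∨
    (ty y = 0 ∧ 2 ≤ ty x ∨ ty y = 1 ∧ 3 ≤ ty x ∨ ty y = 2 ∧ (ty x = 3 ∨ ty x = 6) ∨
      ty y = 3 ∧ ty x = 6 ∨ ty y = 4 ∧ 5 ≤ ty x) := h.imp T.lt T.lt

theorem ZT.ninc (T : ZT ty s) {x y : X}
    (h : ¬ (ty x = 0 ∧ 2 ≤ ty y ∨ ty x = 1 ∧ 3 ≤ ty y ∨ ty x = 2 ∧ (ty y = 3 ∨ ty y = 6) ∨
      ty x = 3 ∧ ty y = 6 ∨ ty x = 4 ∧ 5 ≤ ty y)) : ¬ x < y := fun h1 => h (T.lt h1)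

/-- A range without s lies on the right and reaches the last block. -/
theorem NL.img_right (T : ZT ty s) (L : NL ty blk t t' q r c m y N)
    (h : Img (fun _ => True) v blk J) (hs : ¬ J s) :
    (∀ x, J x → 3 ≤ ty x) ∧ J t' ∧ ∃ u, J u ∧ blk u = N + 1 := by
  have cv := fun x w y h1 h2 => h.conv x w y h1 h2 trivial
  have a0 := T.hs
  have a1 := L.tab s
  have a2 := L.hN
  have a3 := L.bt'
  have k0 : ∀ x, J x → ty x ≠ 2 := fun x h1 h2 => hs (T.es x h2 ▸ h1)
  have k1 : ∀ x, J x → 3 ≤ ty x := fun x h1 => by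
    by_contra h2
    obtain ⟨w, h3, h4⟩ := h.adj x h1
    have := T.cmp h4
    have := k0 x h1
    have := k0 w h3
    have := L.tab x
    have := L.tab w
    exact hs (cv x w s h1 h3 (by omega) (by omega))
  have k2 : J t' := by
    obtain ⟨x, w, h1, h2, h3⟩ := h.pair
    have := T.lt h3
    have := k1 x h1
    have := L.tab x
    have := L.tab w
    by_cases h4 : blk x = 8
    · exact L.e8 x h4 ▸ h1
    · exact cv x w t' h1 h2 (by omega) (by omega)
  obtain ⟨u, h1, h2⟩ := h.adj t' k2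
  refine ⟨k1, k2, u, h1, (L.hU u).mp (h2.resolve_right fun h3 => ?_)⟩
  have := T.lt h3
  have := k1 u h1
  have := L.tab t'
  omega

/-- A range with s and no point above s contains a point below s. -/
theorem NL.img_left (T : ZT ty s) (h : Img (fun _ => True) v blk J) (hs : J s)
    (h1 : ∀ x, J x → ¬ s < x) : ∃ d, J d ∧ ty d = 0 := by
  obtain ⟨d, h2, h3⟩ := h.adj s hs
  have := T.lt (h3.resolve_left (h1 d h2))
  have := T.hs
  exact ⟨d, h2, by omega⟩

theorem NL.img_t (T : ZT ty s) (L : NL ty blk t t' q r c m y N)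
    (h : Img (fun _ => True) v blk J) (hs : J s) {w : X} (hw : J w) (h1 : 6 ≤ blk w) :
    J t ∧ ∀ x, ty x = 4 → J x := by
  have a0 := T.hs
  have a1 := L.tab s
  have a2 := L.tab t
  have a3 := L.ht
  have a4 := L.hN
  refine ⟨?_, fun x hx => ?_⟩
  · rcases L.bt w h1 with e | e
    · exact e ▸ hw
    · exact h.conv s w t hs hw trivial (by omega) e
  · have := L.tab x
    exact h.conv s w x hs hw trivial (by omega) (by omega)

variable {e : X → X}

theorem NL.ret_s (T : ZT ty s) (L : NL ty blk t t' q r c m y N)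
    (he : Ret (fun _ => True) v blk e) : e s = s := by
  by_contra hs
  obtain ⟨k1, k2, u, k3, k4⟩ := L.img_right T he.img hs
  have cv := fun x w y h1 h2 => he.img.conv x w y h1 h2 trivial
  have a2 := L.hN
  have a3 := L.bt'
  have a4 := L.tab t'
  have a5 := L.hy
  have a6 := L.tab y
  have a7 : blk y ≠ N + 1 := fun h => L.ty' ((L.hU y).mpr h)
  have hy : e y = y := cv t' u y k2 k3 (by omega) (by omega)
  have key : ∀ h, e h = h → ty h = 3 ∨ ty h = 6 → h ≠ t' → ¬ t' < h → False := by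
    intro h h1 h2 h3 h4
    obtain ⟨w, b1, -, b2⟩ := he.slb h1 k2 (T.g2 h h2) (T.g2 t' (by omega)) (T.ninc (by omega)) h4 h3
    have := T.lt b2
    have := k1 w b1
    omega
  by_cases h6 : ty y = 6
  · exact key y hy (Or.inr h6) (ne_of_ty (ty := ty) (by omega)) L.ty'
  have h7 := L.alt.resolve_right h6
  obtain ⟨x, h1, h2⟩ := he.img.adj y hy
  have b1 := T.cmp h2
  have b2 := k1 x h1
  have b3 := L.tab x
  have b4 := L.tab t
  have b5 := L.ht
  have b6 : blk t ≠ 8 := fun h => h7 (L.e8 t h)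
  exact key t (cv x t' t h1 k2 (by omega) (by omega)) (Or.inl b5) h7 (T.ninc (by omega))

theorem NL.ret (T : ZT ty s) (L : NL ty blk t t' q r c m y N)
    (he : Ret (fun _ => True) v blk e) :
    (∃ d, d < s ∧ e d = d) ∧ (∃ u, t' < u ∧ e u = u) ∧ ∀ x, ¬ True → e x = x := by
  have cv := fun x w y h1 h2 => he.img.conv x w y h1 h2 trivial
  have hs' := L.ret_s T he
  obtain ⟨b, hb, hrb⟩ := L.wr
  obtain ⟨a, ha, hac⟩ := L.wc
  have a0 := T.hs
  have a1 := L.tab s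
  have a2 := L.hN
  have a3 := L.bt'
  have a4 := L.tab t'
  have a5 := L.hr
  have a6 := L.tab r
  have a7 := L.hc
  have a8 := L.tab c
  have a9 := L.bq
  have b0 := L.tab q
  have b1 := L.ht
  have b2 := L.hm
  have st := T.g2 t (Or.inl b1)
  obtain ⟨w, hw, h1⟩ : ∃ w, e w = w ∧ s < w := by
    by_contra h
    have h0 : ∀ x, e x = x → ¬ s < x := fun x h1 h2 => h ⟨x, h1, h2⟩
    obtain ⟨d, h1, h2⟩ := NL.img_left T he.img hs' h0
    have c1 := L.tab d
    have hr' : e r = r := by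
      by_cases h3 : ty r = 1
      · exact cv d s r h1 hs' (by omega) (by omega)
      obtain ⟨x, h4, h5⟩ := he.img.adj q (cv d s q h1 hs' (by omega) (by omega))
      have c2 := T.cmp h5
      have c3 := L.tab x
      by_cases h6 : 6 ≤ blk x
      · exact (L.img_t T he.img hs' h4 h6).2 r (by omega)
      rcases L.br (by omega) x (by omega) with h7 | h7
      · exact h7 ▸ h4
      · exact cv s x r hs' h4 (by omega) h7
    obtain ⟨x, h3, h4, -⟩ := he.sub hs' hr' (st.trans hb) hrb (T.ninc (by omega))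
      (T.ninc (by omega)) (ne_of_ty (ty := ty) (by omega))
    exact h0 x h3 h4
  obtain ⟨ht', hM⟩ := L.img_t T he.img hs' hw (by
    have := T.lt h1
    have := L.tab w
    omega)
  have kc : ∀ x, e x = x → 5 ≤ ty x → e c = c := fun x h2 h3 => by
    by_cases h4 : ty c = 4
    · exact hM c h4
    rcases L.bc (by omega) x h3 with h5 | h5
    · exact h5 ▸ h2
    · exact cv s x c hs' h2 (by omega) h5
  have kr : e r = r → ∃ x, e x = x ∧ ty x = 6 := fun h2 => by
    obtain ⟨x, h3, h4, -⟩ := he.sub ht' h2 hb hrb (T.ninc (by omega)) L.rt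
      (ne_of_ty (ty := ty) (by omega))
    have := T.lt h4
    exact ⟨x, h3, by omega⟩
  have hc' : e c = c := by
    by_contra h2
    have h3 : ∀ x, e x = x → ty x ≤ 4 := fun x h4 => by
      by_contra h5
      exact h2 (kc x h4 (by omega))
    have h4 : e r ≠ r := fun h5 => by
      obtain ⟨x, h6, h7⟩ := kr h5
      have := h3 x h6
      omega
    have h5 : ty r = 1 := by
      by_contra h6
      exact h4 (hM r (by omega))
    obtain ⟨x, h6, h7⟩ := he.img.adj m (hM m b2)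
    have c1 := T.cmp h7
    have c2 := h3 x h6
    have c3 := L.tab x
    have hq : e q = q := by
      by_cases h8 : blk x = 2
      · exact L.e2 x h8 ▸ h6
      · exact cv x s q h6 hs' (by omega) (by omega)
    obtain ⟨x', h8, h9⟩ := he.img.adj q hq
    exact h4 ((L.q1 x' (h9.resolve_right (T.ninc (by omega))) (h3 x' h8)).2 h5 ▸ hq)
  obtain ⟨d, d1, d2, -⟩ := he.slb hs' hc' (T.l2 a ha) hac (T.ninc (by omega))
    (T.ninc (by omega)) (ne_of_ty (ty := ty) (by omega))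
  have d3 := T.lt d2
  have d4 := L.tab d
  obtain ⟨x, x1, x2⟩ := kr (by
    by_cases h : ty r = 1
    · exact cv d s r d1 hs' (by omega) (by omega)
    · exact hM r (by omega))
  have x3 := L.tab x
  obtain ⟨r', b', c1, c2, c3, c4, c5⟩ := T.wr (t := t') (by omega)
  have c6 := L.tab r'
  obtain ⟨u, u1, u2, -⟩ := he.sub (cv s x t' hs' x1 (by omega) (by omega))
    (cv d x r' d1 x1 (by omega) (by omega)) c2 c3 (T.ninc (by omega)) c4 c5.symm
  exact ⟨⟨d, d2, d1⟩, ⟨u, u2, u1⟩, fun _ h => absurd trivial h⟩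

theorem NL.nil (T : ZT ty s) (L : NL ty blk t t' q r c m y N) {K : X → Prop}
    (hJ : Img (fun _ => True) v blk J) (hJK : ∀ x, J x → K x)
    (hK : Clo (fun _ => True) v blk K) : ∀ x, K x := by
  have cv := fun x w y h1 h2 => hJ.conv x w y h1 h2 trivial
  have a0 := T.hs
  have a1 := L.tab s
  have a2 := L.hN
  have a3 := L.bt'
  have a4 := L.tab t'
  have a9 := L.bq
  have b0 := L.tab q
  have b2 := L.hm
  refine T.all_of (n := N + 1) hK (fun _ _ => trivial) trivial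
    (fun x => by have := L.tab x; omega) ?_
  have kB : K t' → (∀ x, 5 ≤ ty x → blk x ≤ N → K x ∨ ∃ w, K w ∧ (w < x ∨ x < w)) →
      ∀ x, 5 ≤ ty x → K x := by
    intro ht' h x hx
    refine hK.grow t' 8 (N + 1) ht' trivial (by omega) (by omega) (fun w _ h1 _ => ?_) x trivial
      (by have := L.tab x; omega) (by have := L.tab x; omega)
    have := L.tab w
    by_cases h2 : blk w = N + 1
    · exact Or.inr ⟨t', ht', Or.inl ((L.hU w).mpr h2)⟩
    by_cases h3 : blk w = 8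
    · exact Or.inl (L.e8 w h3 ▸ ht')
    exact h w (by omega) (by omega)
  by_cases hs' : J s
  swap
  · obtain ⟨-, k2, u, k3, k4⟩ := L.img_right T hJ hs'
    refine Or.inr (kB (hJK t' k2) fun x h1 h2 => Or.inl (hJK x ?_))
    have := L.tab x
    exact cv t' u x k2 k3 (by omega) (by omega)
  have kA : (∀ x, ty x = 1 → K x ∨ ∃ w, K w ∧ (w < x ∨ x < w)) → ∀ x, ty x ≤ 1 → K x := by
    intro h x hx
    refine hK.grow s 0 3 (hJK s hs') trivial (by omega) (by omega) (fun w _ _ h1 => ?_) x trivial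
      (by omega) (by have := L.tab x; omega)
    have := L.tab w
    by_cases h2 : ty w = 0
    · exact Or.inr ⟨s, hJK s hs', Or.inr (T.l2 w h2)⟩
    by_cases h3 : ty w = 2
    · exact Or.inl (T.es w h3 ▸ hJK s hs')
    exact h w (by omega)
  by_cases hD : ∃ d, J d ∧ ty d = 0
  · obtain ⟨d, h1, h2⟩ := hD
    refine Or.inl (kA fun x hx => Or.inl (hJK x ?_))
    have := L.tab x
    have := L.tab d
    exact cv d s x h1 hs' (by omega) (by omega)
  obtain ⟨w, hw, h1⟩ : ∃ w, J w ∧ s < w := by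
    by_contra h
    exact hD (NL.img_left T hJ hs' fun x h1 h2 => h ⟨x, h1, h2⟩)
  obtain ⟨-, hM⟩ := L.img_t T hJ hs' hw (by
    have := T.lt h1
    have := L.tab w
    omega)
  have k6 : ∀ x, J x → ty x = 6 → ∀ x, 5 ≤ ty x → K x := fun x h2 h3 => by
    have := L.tab x
    refine kB (hJK t' (cv s x t' hs' h2 (by omega) (by omega))) fun x' h4 h5 => ?_
    have := L.tab x'
    by_cases h6 : ty x' = 6
    · exact Or.inr ⟨s, hJK s hs', Or.inl (T.g2 x' (Or.inr h6))⟩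
    · exact Or.inl (hJK x' (cv s x x' hs' h2 (by omega) (by omega)))
  by_cases h6 : ∃ x, J x ∧ ty x = 6
  · obtain ⟨x, h2, h3⟩ := h6
    exact Or.inr (k6 x h2 h3)
  have n6 : ∀ x, J x → ty x ≠ 6 := fun x h2 h3 => h6 ⟨x, h2, h3⟩
  have n0 : ∀ x, J x → ty x ≠ 0 := fun x h2 h3 => hD ⟨x, h2, h3⟩
  have hq : J q := by
    obtain ⟨x, x', c1, c2, c3, c4, c5⟩ := hJ.cut (fun x => ty x = 4 ∨ ty x = 5) m s (hM m b2) hs'
      (Or.inl b2) (by omega)
    have := T.cmp c5
    have := n6 x' c2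
    have := n0 x' c2
    have := L.tab x'
    by_cases h8 : blk x' = 2
    · exact L.e2 x' h8 ▸ c2
    · exact cv x' s q c2 hs' (by omega) (by omega)
  have kM : ∀ x, 3 ≤ ty x → ty x ≤ 4 → K x := fun x h2 h3 => by
    refine hK.grow s 3 8 (hJK s hs') trivial (by omega) (by omega) (fun w _ h4 h5 => ?_) x trivial
      (by have := L.tab x; omega) (by have := L.tab x; omega)
    have := L.tab w
    by_cases h7 : ty w = 3
    · exact Or.inr ⟨s, hJK s hs', Or.inl (T.g2 w (Or.inl h7))⟩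
    by_cases h8 : ty w = 2
    · exact Or.inl (T.es w h8 ▸ hJK s hs')
    exact Or.inl (hJK w (hM w (by omega)))
  obtain ⟨x, x1, x2⟩ := hJ.adj q hq
  have x3 : q < x := x2.resolve_right (T.ninc (by omega))
  refine Or.inl (kA fun a ha => Or.inr ?_)
  by_cases h7 : ty x ≤ 4
  · obtain ⟨w', c1, c2⟩ := (L.q1 x x3 h7).1 a ha
    have := T.lt c1
    exact ⟨w', kM w' (by omega) c2, Or.inr c1⟩
  obtain ⟨w', c1, c2⟩ := L.q2 x x3 a ha
  have c3 := T.lt c1
  refine ⟨w', ?_, Or.inr c1⟩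
  by_cases h8 : ty w' ≤ 4
  · exact kM w' (by omega) h8
  have c4 := n6 x x1
  have c5 := L.tab x
  have c6 := L.tab w'
  by_cases h9 : blk w' = blk x
  · exact hJK w' (L.inj w' x (by omega) (by omega) h9 ▸ x1)
  · exact hJK w' (cv s x w' hs' x1 (by omega) (by omega))

theorem NL.perp [Finite X] (T : ZT ty s) (L : NL ty blk t t' q r c m y N) : Perp X := by
  have a0 := T.hs
  have a1 := L.tab s
  have a2 := L.hN
  have a3 := L.bt'
  have a4 := L.tab t'
  have a5 := L.hy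
  have a6 := L.tab y
  have a7 : blk y ≠ N + 1 := fun h => L.ty' ((L.hU y).mpr h)
  have a8 := L.tab m
  have a9 := L.bq
  have b2 := L.hm
  have t3 : ty t' = 3 := by omega
  have hD : ∀ d, d < s ↔ blk d = 0 := fun d =>
    ⟨fun h => by have := T.lt h; have := L.tab d; omega,
      fun h => T.l2 d (by have := L.tab d; omega)⟩
  refine perp_of_blocks T.pr (fun _ => True) s s s t' blk (fun x h => absurd trivial h) trivial
    (fun x h => absurd trivial h) (fun x w _ _ h => ?_) (fun x h => absurd trivial h)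
    (fun x h => absurd trivial h) (T.g2 t' (Or.inl t3)).le T.exD (T.exU t3) T.loD (T.hiU t3)
    (fun d x h1 h2 => ?_) (fun u x h1 h2 => ?_) (fun d d' h1 h2 h3 => ?_)
    (fun u u' h1 h2 h3 => ?_) (fun e he => L.ret T he) fun J K hJ hJK hK => L.nil T hJ hJK hK
  · have c1 := T.lt h
    have c2 := L.tab x
    have c3 := L.tab w
    by_cases h1 : ty w = 2
    · exact ⟨q, trivial, by omega⟩
    by_cases h2 : ty x ≤ 1
    · exact ⟨s, trivial, by omega⟩
    by_cases h3 : ty x = 2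
    · exact ⟨m, trivial, by omega⟩
    by_cases h4 : blk x = 8
    · have := (L.hU w).mp (L.e8 x h4 ▸ h)
      exact ⟨y, trivial, by omega⟩
    exact ⟨t', trivial, by omega⟩
  · have := (hD d).mp h1
    have := mt (hD x).mpr h2
    omega
  · have := (L.hU u).mp h1
    have := mt (L.hU x).mpr h2
    have := L.tab x
    omega
  · have := (hD d).mp h1
    have := (hD d').mp h2
    omega
  · have := (L.hU u).mp h1
    have := (L.hU u').mp h2
    omega

/-- The choice of the last minimal point. -/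
theorem ZT.exists_lastN [Finite X] (T : ZT ty s) (g : X → ℕ) (r : X) (h1 : ∃ x, ty x = 1) :
    ∃ q, ty q = 1 ∧
    (∀ w, q < w → ty w ≤ 4 → (∀ a, ty a = 1 → ∃ w, a < w ∧ ty w ≤ 4) ∧ (ty r = 1 → q = r)) ∧
    ∀ w, q < w → ∀ a, ty a = 1 → ∃ w', a < w' ∧ (ty w' ≤ 4 ∨ 5 ≤ ty w ∧ g w' ≤ g w) := by
  by_cases h : ∀ a, ty a = 1 → ∃ w, a < w ∧ ty w ≤ 4
  · have h2 : ∀ w a, ty a = 1 → ∃ w', a < w' ∧ (ty w' ≤ 4 ∨ 5 ≤ ty w ∧ g w' ≤ g w) :=
      fun w a ha => (h a ha).imp fun w hw => ⟨hw.1, Or.inl hw.2⟩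
    by_cases h3 : ty r = 1
    · exact ⟨r, h3, fun _ _ _ => ⟨h, fun _ => rfl⟩, fun w _ => h2 w⟩
    · obtain ⟨x, h4⟩ := h1
      exact ⟨x, h4, fun _ _ _ => ⟨h, fun h6 => absurd h6 h3⟩, fun w _ => h2 w⟩
  push Not at h
  obtain ⟨q, ⟨q1, q2⟩, q3⟩ := Set.exists_max_image {a | ty a = 1 ∧ ∀ w, a < w → 4 < ty w}
    (fun a => sInf (g '' {w | a < w})) (Set.toFinite _) h
  refine ⟨q, q1, fun w h4 h5 => absurd (q2 w h4) (by omega), fun w h4 a ha => ?_⟩
  by_cases h5 : ∀ w, a < w → 4 < ty w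
  · obtain ⟨b, hb, -⟩ := T.up a (by omega)
    obtain ⟨w', h6, h7⟩ := Nat.sInf_mem (s := g '' {w | a < w}) ⟨_, b, hb, rfl⟩
    have h8 := q3 a ⟨ha, h5⟩
    have h9 : sInf (g '' {w | q < w}) ≤ g w := Nat.sInf_le ⟨w, h4, rfl⟩
    exact ⟨w', h6, Or.inr ⟨q2 w h4, by omega⟩⟩
  · push Not at h5
    exact h5.imp fun w hw => ⟨hw.1, Or.inl hw.2⟩

theorem ZT.n1_core [Finite X] (T : ZT ty s) (h1 : ∃ a, ty a = 1) (hm : ty m = 4) {b : X}
    (ht : ty t = 3) (ht' : ty t' = 3) (hr : ty r = 1 ∨ ty r = 4) (hb : t < b) (hrb : r < b)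
    (rt : ¬ r < t) (hy : 5 ≤ ty y) (ty' : ¬ t' < y)
    (alt : t ≠ t' ∨ (ty y = 6 ∧ ∀ x, ty x = 3 → x = t)) : Perp X := by
  classical
  obtain ⟨c, a, hc, ha, hac⟩ := T.wc
  obtain ⟨τ, hτ⟩ := Countable.exists_injective_nat X
  obtain ⟨n, hn⟩ := (Set.finite_range τ).bddAbove
  have hn' : ∀ x, τ x ≤ n := fun x => hn ⟨x, rfl⟩
  let g : X → ℕ := fun x => if ty x = 6 then (if t' < x then n + 12 else n + 11)
    else if x = c then 9 else 10 + τ x
  obtain ⟨q, q0, q1, q2⟩ := T.exists_lastN g r h1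
  let blk : X → ℕ := fun x => if 5 ≤ ty x then g x else if ty x = 0 then 0 else
    if ty x = 1 then (if x = q then 2 else 1) else if ty x = 2 then 3 else
    if ty x = 4 then (if x = r then 4 else 5) else if x = t' then 8 else if x = t then 6 else 7
  have hB : ∀ x, 5 ≤ ty x → blk x = g x := fun x h => if_pos h
  have g5 : ∀ x, ty x = 5 → (x = c ∧ blk x = 9) ∨ (x ≠ c ∧ blk x = 10 + τ x) := fun x h => by
    rw [hB x h.ge]
    simp only [g, h]
    by_cases e : x = c <;> simp [e]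
  have g6 : ∀ x, ty x = 6 → (t' < x ∧ blk x = n + 12) ∨ (¬ t' < x ∧ blk x = n + 11) :=
    fun x h => by
      rw [hB x (by omega)]
      simp only [g, h]
      by_cases e : t' < x <;> simp [e]
  have g0 : ∀ x, ty x = 0 → blk x = 0 := fun x h => by simp [blk, h]
  have g1 : ∀ x, ty x = 1 → (x = q ∧ blk x = 2) ∨ (x ≠ q ∧ blk x = 1) := fun x h => by
    by_cases e : x = q
    · exact Or.inl ⟨e, by simp [blk, h, e, q0]⟩
    · exact Or.inr ⟨e, by simp [blk, h, e]⟩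
  have g2 : ∀ x, ty x = 2 → blk x = 3 := fun x h => by simp [blk, h]
  have g4 : ∀ x, ty x = 4 → (x = r ∧ blk x = 4) ∨ (x ≠ r ∧ blk x = 5) := fun x h => by
    by_cases e : x = r
    · exact Or.inl ⟨e, by simp only [blk, h]; simp [e]⟩
    · exact Or.inr ⟨e, by simp [blk, h, e]⟩
  have g3 : ∀ x, ty x = 3 → (x = t' ∧ blk x = 8) ∨ (x ≠ t' ∧ x = t ∧ blk x = 6) ∨
      (x ≠ t' ∧ x ≠ t ∧ blk x = 7) := fun x h => by
    by_cases e : x = t'
    · exact Or.inl ⟨e, by simp only [blk, h]; simp [e]⟩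
    by_cases e' : x = t
    · exact Or.inr (Or.inl ⟨e, e', by simp only [blk, h, if_neg e]; simp [e']⟩)
    · exact Or.inr (Or.inr ⟨e, e', by simp [blk, h, e, e']⟩)
  have tab : ∀ x, ty x = 0 ∧ blk x = 0 ∨ ty x = 1 ∧ (blk x = 1 ∨ blk x = 2) ∨
      ty x = 2 ∧ blk x = 3 ∨ ty x = 4 ∧ (blk x = 4 ∨ blk x = 5) ∨
      ty x = 3 ∧ 6 ≤ blk x ∧ blk x ≤ 8 ∨ ty x = 5 ∧ 9 ≤ blk x ∧ blk x < n + 11 ∨
      ty x = 6 ∧ (blk x = n + 11 ∨ blk x = n + 11 + 1) := fun x => by
    have c0 := T.le x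
    have c1 := hn' x
    obtain h | h | h | h | h | h | h : ty x = 0 ∨ ty x = 1 ∨ ty x = 2 ∨ ty x = 3 ∨ ty x = 4 ∨
      ty x = 5 ∨ ty x = 6 := by omega
    · have := g0 x h
      omega
    · rcases g1 x h with e | e <;> omega
    · have := g2 x h
      omega
    · rcases g3 x h with e | e | e <;> omega
    · rcases g4 x h with e | e <;> omega
    · rcases g5 x h with e | e <;> omega
    · rcases g6 x h with e | e <;> omega
  have bt' : blk t' = 8 := by
    rcases g3 t' ht' with e | e | e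
    exacts [e.2, absurd rfl e.1, absurd rfl e.1]
  clear_value blk
  refine NL.perp (blk := blk) (t := t) (t' := t') (q := q) (r := r) (c := c) (m := m) (y := y)
    (N := n + 11) T ⟨tab, by omega, fun x => ⟨fun h => ?_, fun h => ?_⟩, ht, fun x h => ?_, bt',
      fun x h => ?_, ?_, fun x h => ?_, hm, hr, fun h x hx => ?_, ⟨b, hb, hrb⟩, rt, hc,
      ⟨a, ha, hac⟩, fun h x hx => ?_, fun x w hx hw h => ?_, hy, ty', alt.imp_right And.left, q1,
      fun w h a ha => ?_⟩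
  · have := T.lt h
    rcases g6 x (by omega) with e | e
    exacts [e.2, absurd h e.1]
  · have := tab x
    rcases g6 x (by omega) with e | e
    · exact e.1
    · omega
  · by_cases e : x = t
    · exact Or.inl e
    right
    have c1 := tab x
    rcases g3 t ht with e1 | e1 | e1
    · have c2 : ty x ≠ 3 := fun h3 => e ((alt.resolve_left (not_not.mpr e1.1)).2 x h3)
      omega
    · by_cases h3 : ty x = 3
      · rcases g3 x h3 with e2 | e2 | e2
        · omega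
        · exact absurd e2.2.1 e
        · omega
      · omega
    · exact absurd rfl e1.2.1
  · have := tab x
    rcases g3 x (by omega) with e | e | e
    · exact e.1
    · omega
    · omega
  · rcases g1 q q0 with e | e
    exacts [e.2, absurd rfl e.1]
  · have := tab x
    rcases g1 x (by omega) with e | e
    · exact e.1
    · omega
  · rcases g4 x hx with e | e
    · exact Or.inl e.1
    · rcases g4 r h with e' | e'
      · exact Or.inr (by omega)
      · exact absurd rfl e'.1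
  · by_cases e : x = c
    · exact Or.inl e
    right
    have c1 := tab x
    rcases g5 c h with e' | e'
    · by_cases h3 : ty x = 5
      · rcases g5 x h3 with e2 | e2
        · exact absurd e2.1 e
        · omega
      · omega
    · exact absurd rfl e'.1
  · rcases g5 x hx with e | e <;> rcases g5 w hw with e' | e'
    · exact e.1.trans e'.1.symm
    · omega
    · omega
    · exact hτ (by omega)
  · obtain ⟨w', c1, c2⟩ := q2 w h a ha
    refine ⟨w', c1, ?_⟩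
    by_cases c3 : ty w' ≤ 4
    · exact Or.inl c3
    · have c4 := c2.resolve_left c3
      rw [hB w' (by omega), hB w c4.1]
      exact Or.inr c4.2

theorem ZT.n1 [Finite X] (T : ZT ty s) (h1 : ∃ a, ty a = 1) (h4 : ∃ m, ty m = 4)
    (Y : ∀ t, ty t = 3 → ∃ y, s < y ∧ y ≠ t ∧ ¬ t < y)
    (nF : ¬ ((∀ h b, ty h = 3 → 5 ≤ ty b → h < b) ∧
      ∃ t t', ty t = 3 ∧ ty t' = 3 ∧ t ≠ t')) : Perp X := by
  obtain ⟨m, hm⟩ := h4
  obtain ⟨t, r, b, ht, hr, hb, hrb, rt⟩ := T.wit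
  by_cases c1 : ∃ t' y, ty t' = 3 ∧ t ≠ t' ∧ 5 ≤ ty y ∧ ¬ t' < y
  · obtain ⟨t', y, a1, a2, a3, a4⟩ := c1
    exact T.n1_core h1 hm ht a1 hr hb hrb rt a3 a4 (Or.inl a2)
  by_cases c2 : ∀ x, ty x = 3 → x = t
  · obtain ⟨y, a1, a2, a3⟩ := Y t ht
    have a4 := T.lt a1
    have a5 := T.hs
    have a6 : ty y ≠ 3 := fun h => a2 (c2 y h)
    exact T.n1_core h1 hm ht ht hr hb hrb rt (by omega) a3 (Or.inr ⟨by omega, c2⟩)
  push Not at c2
  obtain ⟨t1, a1, a2⟩ := c2
  have full : ∀ x y, ty x = 3 → t ≠ x → 5 ≤ ty y → x < y := fun x y b1 b2 b3 =>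
    not_not.mp fun b4 => c1 ⟨x, y, b1, b2, b3, b4⟩
  obtain ⟨y, a3, a4⟩ : ∃ y, 5 ≤ ty y ∧ ¬ t < y := by
    by_contra h
    refine nF ⟨fun x y b1 b2 => ?_, t1, t, a1, ht, a2⟩
    by_cases e : t = x
    · exact e ▸ not_not.mp fun b3 => h ⟨y, b2, b3⟩
    · exact full x y b1 e b2
  obtain ⟨c, a, hc, -, -⟩ := T.wc
  have c4 : ty c = 4 := by
    by_contra h
    have := T.lt (full t1 c a1 a2.symm (by omega))
    omega
  obtain ⟨w, w1, w2⟩ := T.up c (by omega)
  exact T.n1_core h1 hm a1 ht (Or.inr c4) (full t1 w a1 a2.symm w2) w1 (T.ninc (by omega)) a3 a4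
    (Or.inl a2)

end Pool.Agent.Lib.MP_04ca4f_co.St
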