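import Pool.Agent.Lib.MP_04ca4f_co.StZT

/-!
# All minimal points are below s
-/

set_option autoImplicit false

namespace Pool.Agent.Lib.MP_04ca4f_co.St

variable {X : Type*} [PartialOrder X] {ty : X → ℕ} {s : X}

/-- The block layout. -/
structure OL (ty blk : X → ℕ) (s t m d w y y' : X) : Prop where
  tab : ∀ x, ty x = 0 ∧ blk x ≤ 1 ∨ ty x = 2 ∧ blk x = 2 ∨ ty x = 3 ∧ (blk x = 3 ∨ blk x = 4) ∨
    ty x = 4 ∧ (blk x = 2 ∨ blk x = 3) ∨ ty x = 5 ∧ blk x = 5 ∨ ty x = 6 ∧ (blk x = 5 ∨ blk x = 6)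
  ht : ty t = 3
  bt : blk t = 4
  et : ∀ x, blk x = 4 → x = t
  hm : ty m = 4
  bm : blk m = 2
  em : ∀ x, ty x = 4 → blk x = 2 → x = m
  b0 : ∀ x, blk x = 0 ↔ x < m
  b6 : ∀ x, blk x = 6 ↔ t < x
  bd : blk d = 1
  mw : m < w
  dw : d < w
  b5 : blk y = 5
  sy : s < y'
  ty' : ¬ t ≤ y'

variable {blk : X → ℕ} {t m d w y y' : X} {J : X → Prop} {e : X → X}

theorem OL.lo (L : OL ty blk s t m d w y y') (h : Img (fun x => ty x ≠ 2) m blk J)
    {a b : X} (ha : J a) (hb : J b) (h1 : ty a ≤ 1) (h2 : 2 ≤ ty b) : J m := by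
  have := L.tab a
  have := L.tab b
  have := L.hm
  have := L.bm
  by_cases h3 : ty b = 2
  · exact h.foot b hb (not_not.mpr h3)
  by_cases h4 : blk b = 2
  · exact L.em b (by omega) h4 ▸ hb
  · exact h.conv a b m ha hb (by omega) (by omega) (by omega)

theorem OL.hi (L : OL ty blk s t m d w y y') (h : Img (fun x => ty x ≠ 2) m blk J)
    {a b : X} (ha : J a) (hb : J b) (h1 : ty a ≤ 4) (h2 : 5 ≤ ty b) : J t := by
  have := L.tab a
  have := L.tab b
  have := L.ht
  have := L.bt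
  by_cases h4 : blk a = 4
  · exact L.et a h4 ▸ ha
  · exact h.conv a b t ha hb (by omega) (by omega) (by omega)

theorem OL.ret_lo (T : ZT ty s) (L : OL ty blk s t m d w y y')
    (he : Ret (fun x => ty x ≠ 2) m blk e) : ∃ a, e a = a ∧ ty a ≤ 1 := by
  by_contra h1
  push Not at h1
  have hs := T.hs
  have ht := L.ht
  have hm := L.hm
  have bt := L.bt
  have b5 := L.b5
  have k0 : ∀ x, e x = x → ty x = 4 → False := fun x h2 h3 => by
    obtain ⟨b, a1, a2⟩ := he.img.adj x h2
    have := a2.imp T.lt T.lt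
    have := h1 b a1
    have ht' := L.hi he.img h2 a1 (by omega) (by omega)
    obtain ⟨a, a3, a4⟩ := T.down x (by omega)
    have a5 : ty a = 0 := by have := L.tab a; omega
    obtain ⟨u, a6, a7, -⟩ := he.slb h2 ht' a3 ((T.l2 a a5).trans (T.g2 t (Or.inl ht)))
      (fun h => by have := T.lt h; omega) (fun h => by have := T.lt h; omega)
      (ne_of_ty (ty := ty) (by omega))
    have := T.lt a7
    have := h1 u a6
    omega
  have k1 : ∀ x, e x = x → ty x ≠ 2 := fun x h2 h3 =>
    k0 m (he.img.foot x h2 (not_not.mpr h3)) hm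
  obtain ⟨p, q, hp, hq, hpq⟩ := he.img.pair
  have ht' : e t = t := by
    have := T.lt hpq
    have := h1 p hp
    have := k1 p hp
    exact (L.hi he.img hp hq (by omega) (by omega) :)
  obtain ⟨u, a1, a2⟩ := he.img.adj t ht'
  have a3 : t < u := a2.resolve_right fun h => by
    have := T.lt h
    have := h1 u a1
    have := k1 u a1
    omega
  have a4 := (L.b6 u).mpr a3
  have t5 : 5 ≤ ty y := by have := L.tab y; omega
  have hy' := he.img.conv t u y ht' a1 (by omega) (by omega) (by omega)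
  obtain ⟨x, a5, a6⟩ := he.img.adj y hy'
  have a7 : x < y := a6.resolve_left fun h => by have := T.lt h; omega
  have a8 : ty x = 3 := by
    have := T.lt a7
    have := h1 x a5
    have := k1 x a5
    have : ty x ≠ 4 := k0 x a5
    omega
  have a9 : x ≠ t := fun h => by
    have := (L.b6 y).mpr (h ▸ a7)
    omega
  obtain ⟨v, b1, b2, -⟩ := he.slb a5 ht' (T.g2 x (Or.inl a8)) (T.g2 t (Or.inl ht))
    (fun h => by have := T.lt h; omega) (fun h => by have := T.lt h; omega) a9
  have := T.lt b2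
  have := h1 v b1
  have := k1 v b1
  omega

theorem OL.ret_hi (T : ZT ty s) (L : OL ty blk s t m d w y y')
    (he : Ret (fun x => ty x ≠ 2) m blk e) : ∃ b, e b = b ∧ 5 ≤ ty b := by
  by_contra h1
  push Not at h1
  have hm := L.hm
  have bm := L.bm
  have bd := L.bd
  have td : ty d = 0 := by have := L.tab d; omega
  obtain ⟨a, ha, h2⟩ := L.ret_lo T he
  obtain ⟨x, a1, a2⟩ := he.img.adj a ha
  have hm' := L.lo he.img ha a1 h2 (by have := a2.imp T.lt T.lt; omega)
  obtain ⟨u, a3, a4⟩ := he.img.adj m hm'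
  have a5 : u < m := a4.resolve_left fun h => by
    have := T.lt h
    have := h1 u a3
    omega
  have a6 := (L.b0 u).mpr a5
  have hd' := he.img.conv u m d a3 hm' (by omega) (by omega) (by omega)
  obtain ⟨v, b1, b2, -⟩ := he.sub hm' hd' L.mw L.dw (fun h => by have := T.lt h; omega)
    (fun h => by have := (L.b0 d).mpr h; omega) (ne_of_ty (ty := ty) (by omega))
  have := T.lt b2
  have := h1 v b1
  omega

theorem OL.ret (T : ZT ty s) (L : OL ty blk s t m d w y y')
    (he : Ret (fun x => ty x ≠ 2) m blk e) :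
    (∃ d, d < s ∧ e d = d) ∧ (∃ u, t < u ∧ e u = u) ∧ ∀ x, ¬ ty x ≠ 2 → e x = x := by
  obtain ⟨a, ha, h1⟩ := L.ret_lo T he
  obtain ⟨b, hb, h2⟩ := L.ret_hi T he
  have hs := T.hs
  have ht := L.ht
  have hm := L.hm
  have bm := L.bm
  have bt := L.bt
  have bd := L.bd
  have td : ty d = 0 := by have := L.tab d; omega
  have mid : ∀ x, ty x = 3 ∨ ty x = 4 → e x = x := fun x hx => by
    have := L.tab x
    have := L.tab a
    have := L.tab b
    exact he.img.conv a b x ha hb (by omega) (by omega) (by omega)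
  have ht' := mid t (by omega)
  have hm' := mid m (by omega)
  obtain ⟨r, c, a1, a2, a3, a4, a5⟩ := T.wr ht
  obtain ⟨u, a6, a7, -⟩ := he.sub ht' (mid r (by have := L.tab r; omega)) a2 a3
    (fun h => by have := T.lt h; omega) a4 a5.symm
  refine ⟨⟨a, T.l2 a (by have := L.tab a; omega), ha⟩, ⟨u, a7, a6⟩,
    fun x h => T.es x (not_not.mp h) ▸ ?_⟩
  rcases he.loc s (by omega) hm' with h3 | ⟨h3, h4⟩
  · exact h3
  exfalso
  rcases (show e s ≤ t from ht' ▸ he.mono _ _ (T.g2 t (Or.inl ht)).le).eq_or_lt with h5 | h5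
  · have b1 := T.lt L.sy
    have hy' : e y' = y' := by
      by_cases b2 : ty y' = 3
      · exact mid y' (Or.inl b2)
      · have := L.tab y'
        have := (L.b6 u).mpr a7
        have : blk y' ≠ 6 := fun h => L.ty' ((L.b6 y').mp h).le
        exact he.img.conv t u y' ht' a6 (by omega) (by omega) (by omega)
    exact L.ty' (h5 ▸ hy' ▸ he.mono _ _ L.sy.le)
  · have b1 := T.lt h5
    have b2 := L.tab (e s)
    have b3 : blk (e s) ≠ 0 := fun h => (h4 d (by omega)).2 ⟨by omega, by omega⟩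
    obtain ⟨p, b4, b5⟩ := T.down m (by omega)
    have b6 : e p = e s := by
      by_contra h
      have := T.lt ((he.mono _ _ (T.l2 p (by have := L.tab p; omega)).le).lt_of_ne h)
      omega
    have b7 : e s ≤ m := b6 ▸ hm' ▸ he.mono _ _ b4.le
    exact b3 ((L.b0 _).mpr (b7.lt_of_ne (ne_of_ty (ty := ty) (by omega))))

theorem OL.nil (T : ZT ty s) (L : OL ty blk s t m d w y y') {K : X → Prop}
    (hJ : Img (fun x => ty x ≠ 2) m blk J) (hJK : ∀ x, J x → K x)
    (hK : Clo (fun x => ty x ≠ 2) m blk K) : ∀ x, K x := by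
  have hs := T.hs
  have ht := L.ht
  have hm := L.hm
  have bt := L.bt
  have bm := L.bm
  refine T.all_of (n := 6) hK (fun _ h => h) (by omega) (fun x => by have := L.tab x; omega) ?_
  have kA : J m → (∀ y, ty y = 0 → K y ∨ ∃ w, K w ∧ (w < y ∨ y < w)) → ∀ x, ty x ≤ 1 → K x := by
    intro hm' h x hx
    refine hK.grow m 0 2 (hJK m hm') (by omega) (by omega) (by omega) (fun y h0 _ h1 => ?_) x
      (by omega) (by omega) (by have := L.tab x; omega)
    have := L.tab y
    by_cases h2 : ty y = 0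
    · exact h y h2
    · exact Or.inl (L.em y (by omega) (by omega) ▸ hJK m hm')
  by_cases hs' : J s
  · exact Or.inl (kA (hJ.foot s hs' (by omega)) fun y hy =>
      Or.inr ⟨s, hJK s hs', Or.inr (T.l2 y hy)⟩)
  have k0 : ∀ x, J x → ty x ≠ 2 := fun x h1 h2 => hs' (T.es x h2 ▸ h1)
  by_cases hA : ∃ a, J a ∧ ty a ≤ 1
  · obtain ⟨a, ha, h1⟩ := hA
    obtain ⟨x, a1, a2⟩ := hJ.adj a ha
    have hm' := L.lo hJ ha a1 h1 (by have := a2.imp T.lt T.lt; omega)
    obtain ⟨u, a3, a4 | a4⟩ := hJ.adj m hm'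
    · have := T.lt a4
      exact Or.inl (kA hm' fun y hy => Or.inr ⟨t, hJK t (L.hi hJ hm' a3 (by omega) (by omega)),
        Or.inr ((T.l2 y hy).trans (T.g2 t (Or.inl ht)))⟩)
    have a5 := (L.b0 u).mpr a4
    refine Or.inl (kA hm' fun y hy => ?_)
    by_cases h : blk y = 0
    · exact Or.inr ⟨m, hJK m hm', Or.inr ((L.b0 y).mp h)⟩
    · have := L.tab y
      exact Or.inl (hJK y (hJ.conv u m y a3 hm' (by omega) (by omega) (by omega)))
  push Not at hA
  obtain ⟨p, q, hp, hq, hpq⟩ := hJ.pair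
  have ht' : J t := by
    have := T.lt hpq
    have := hA p hp
    have := k0 p hp
    exact L.hi hJ hp hq (by omega) (by omega)
  obtain ⟨u, a3, a4⟩ := hJ.adj t ht'
  have a5 : t < u := a4.resolve_right fun h => by
    have := T.lt h
    have := hA u a3
    have := k0 u a3
    omega
  have a6 := (L.b6 u).mpr a5
  refine Or.inr fun x hx => hK.grow t 4 6 (hJK t ht') (by omega) (by omega) (by omega)
    (fun y h0 h1 _ => ?_) x (by omega) (by have := L.tab x; omega) (by have := L.tab x; omega)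
  by_cases h3 : blk y = 6
  · exact Or.inr ⟨t, hJK t ht', Or.inl ((L.b6 y).mp h3)⟩
  by_cases h5 : blk y = 4
  · exact Or.inl (L.et y h5 ▸ hJK t ht')
  have := L.tab y
  exact Or.inl (hJK y (hJ.conv t u y ht' a3 h0 (by omega) (by omega)))

theorem OL.perp [Finite X] (T : ZT ty s) (L : OL ty blk s t m d w y y') : Perp X := by
  have hs := T.hs
  have ht := L.ht
  have hm := L.hm
  have bt := L.bt
  have bm := L.bm
  have bd := L.bd
  have b5 := L.b5
  have td : ty d = 0 := by have := L.tab d; omega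
  have t5 : 5 ≤ ty y := by have := L.tab y; omega
  have hD : ∀ d, d < s → ty d = 0 := fun d h => by have := T.lt h; omega
  refine perp_of_blocks T.pr (fun x => ty x ≠ 2) s m s t blk (fun x h => T.es x (not_not.mp h))
    (by omega) (fun x h => by have := L.tab x; omega) (fun x z h1 h2 h => ?_)
    (fun x h => ⟨fun h' => by have := T.lt h'; omega, fun h' => by have := T.lt h'; omega⟩)
    (fun x h => by rw [T.es x (not_not.mp h)]; exact ⟨le_rfl, (T.g2 t (Or.inl ht)).le⟩)
    (T.g2 t (Or.inl ht)).le T.exD (T.exU ht) T.loD (T.hiU ht) (fun d x h1 h2 => ?_)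
    (fun u x h1 h2 => ?_) (fun d d' h1 h2 h3 => ?_) (fun u u' h1 h2 h3 => ?_)
    (fun e he => L.ret T he) fun J K hJ hJK hK => L.nil T hJ hJK hK
  · have := T.lt h
    have := L.tab x
    have := L.tab z
    by_cases h3 : blk z = 2
    · have := (L.b0 x).mpr (L.em z (by omega) h3 ▸ h)
      exact ⟨d, by omega, by omega⟩
    by_cases h4 : ty x ≤ 1
    · exact ⟨m, by omega, by omega⟩
    by_cases h5 : blk x = 4
    · have := (L.b6 z).mpr (L.et x h5 ▸ h)
      exact ⟨y, by omega, by omega⟩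
    exact ⟨t, by omega, by omega⟩
  · have := hD d h1
    have : ty x ≠ 0 := fun h => h2 (T.l2 x h)
    have := L.tab d
    have := L.tab x
    omega
  · have := (L.b6 u).mpr h1
    have : blk x ≠ 6 := fun h => h2 ((L.b6 x).mp h)
    have := L.tab x
    omega
  · have := hD d h1
    have := hD d' h2
    have := L.tab d
    have := L.tab d'
    exact ⟨m, (L.b0 d).mp (by omega), fun h => by have := (L.b0 d').mpr h; omega⟩
  · have := (L.b6 u).mpr h1
    have := (L.b6 u').mpr h2
    omega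

theorem ZT.p0 [Finite X] (T : ZT ty s) (h0 : ∀ a, ty a ≠ 1) : Perp X := by
  classical
  have hs := T.hs
  obtain ⟨a, ha⟩ := T.exD
  obtain ⟨t, y, ht, hy, hty⟩ : ∃ t y, ty t = 3 ∧ 5 ≤ ty y ∧ ¬ t < y := by
    by_contra h
    push Not at h
    obtain ⟨t, ht⟩ := T.exH
    have st := T.g2 t (Or.inl ht)
    refine T.pr {x | ty x = 2 ∨ ty x = 3} (fun h1 => ?_)
      ⟨s, Or.inl hs, t, Or.inr ht, st.ne⟩ fun x hx => ⟨?_, ?_⟩
    · have h2 : a ∈ {x | ty x = 2 ∨ ty x = 3} := h1 ▸ Set.mem_univ a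
      have := T.lt ha
      change ty a = 2 ∨ ty a = 3 at h2
      omega
    · rintro ⟨w, hw, h1⟩ w' hw'
      change ¬ (ty x = 2 ∨ ty x = 3) at hx
      change ty w = 2 ∨ ty w = 3 at hw
      have := T.lt h1
      have := h0 x
      have h2 := T.l2 x (by omega)
      rcases hw' with h3 | h3
      · exact T.es w' h3 ▸ h2
      · exact h2.trans (T.g2 w' (Or.inl h3))
    · rintro ⟨w, hw, h1⟩ w' hw'
      change ¬ (ty x = 2 ∨ ty x = 3) at hx
      change ty w = 2 ∨ ty w = 3 at hw
      have := T.lt h1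
      rcases hw' with h3 | h3
      · exact T.es w' h3 ▸ T.g2 x (by omega)
      · exact h w' x h3 (by omega)
  have st := T.g2 t (Or.inl ht)
  have mn : ∀ b : X, (∀ y, ¬ y < b) → ty b = 0 := fun b h => by
    by_contra h1
    have := h0 b
    obtain ⟨y, h2, -⟩ := T.down b (by omega)
    exact h y h2
  obtain ⟨m, w, b, d, h1, h2, h3, h4, h5⟩ := exists_nonfull T.pr (d := a) (fun y => T.loD a y ha)
    st fun a ha => T.l2 a (mn a ha)
  have hd := mn d h4
  have hm : ty m = 4 := by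
    have := T.lt h1
    have := T.lt h2
    have : ty m ≠ 3 := fun h => h5 ((T.l2 d hd).trans (T.g2 m (Or.inl h)))
    have : ty m ≠ 2 := fun h => h5 (T.es m h ▸ T.l2 d hd)
    omega
  obtain ⟨y', y1, y2⟩ : ∃ y', s < y' ∧ ¬ t ≤ y' := by
    obtain ⟨x, a1, a2, ⟨a3, a4⟩ | ⟨a3, a4⟩⟩ := exists_split T.pr ha st
    · have := T.lt a3
      have := h0 x
      have : ty x ≠ 2 := fun h => a1 (T.es x h)
      exact absurd (T.l2 x (by omega)) a4
    · exact ⟨x, a3, fun h => a4 (h.lt_of_ne a2.symm)⟩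
  have key : ∀ x : X, ∃ n : ℕ, ty x = 0 ∧ x < m ∧ n = 0 ∨ ty x = 0 ∧ ¬ x < m ∧ n = 1 ∨
      ty x = 2 ∧ n = 2 ∨ x = m ∧ n = 2 ∨ (ty x = 3 ∨ ty x = 4) ∧ x ≠ t ∧ x ≠ m ∧ n = 3 ∨
      x = t ∧ n = 4 ∨ (ty x = 5 ∨ ty x = 6) ∧ ¬ t < x ∧ n = 5 ∨ ty x = 6 ∧ t < x ∧ n = 6 := by
    intro x
    by_cases e2 : x = t
    · exact ⟨4, by simp [e2]⟩
    by_cases e3 : x = m
    · exact ⟨2, by simp [e3]⟩
    have a1 := T.le x
    have a2 := h0 x
    by_cases e4 : ty x = 0
    · by_cases e6 : x < m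
      · exact ⟨0, by simp [e4, e6]⟩
      · exact ⟨1, by simp [e4, e6]⟩
    by_cases e6 : ty x = 2
    · exact ⟨2, by simp [e6]⟩
    by_cases e7 : t < x
    · have e8 : ty x = 6 := by have := T.lt e7; omega
      exact ⟨6, by simp [e7, e8]⟩
    by_cases e8 : ty x = 5 ∨ ty x = 6
    · exact ⟨5, by simp [e7, e8]⟩
    have e9 : ty x = 3 ∨ ty x = 4 := by omega
    exact ⟨3, by simp [e9, e2, e3]⟩
  choose blk B using key
  refine OL.perp (blk := blk) (t := t) (m := m) (d := d) (w := w) (y := y) (y' := y') T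
    ⟨fun x => ?_, ht, ?_, fun x h => ?_, hm, ?_, fun x h h' => ?_, fun x => ?_, fun x => ?_, ?_,
      h2, h3 d h4, ?_, y1, y2⟩
  · have := B x
    grind
  · have := B t
    grind
  · have := B x
    grind
  · have := B m
    grind
  · have := B x
    grind
  · have := B x
    have : x < m → ty x = 0 := fun h => by have := T.lt h; have := h0 x; omega
    grind
  · have := B x
    have : t < x → ty x = 6 := fun h => by have := T.lt h; omega
    grind
  · have := B d
    grind
  · have := B y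
    grind

end Pool.Agent.Lib.MP_04ca4f_co.St
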