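import Pool.Agent.Lib.MP_04ca4f_co.StZT

/-!
# At least two middle points above s, all below every maximal point
-/

set_option autoImplicit false

namespace Pool.Agent.Lib.MP_04ca4f_co.St

variable {X : Type*} [PartialOrder X] {ty : X → ℕ} {s : X}

/-- The block layout. -/
structure PL (ty blk : X → ℕ) (t t' r m y w : X) : Prop where
  tab : ∀ x, ty x = 0 ∧ blk x = 0 ∨ ty x = 1 ∧ 1 ≤ blk x ∧ blk x ≤ 3 ∨ ty x = 2 ∧ blk x = 6 ∨
    ty x = 3 ∧ (blk x = 4 ∨ blk x = 5) ∨ ty x = 4 ∧ (blk x = 5 ∨ blk x = 6) ∨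
    ty x = 6 ∧ (blk x = 7 ∨ blk x = 8)
  full : ∀ h b, ty h = 3 → 5 ≤ ty b → h < b
  ht : ty t = 3
  ht' : ty t' = 3
  ne : t' ≠ t
  bt : blk t = 4
  et : ∀ x, blk x = 4 → x = t
  br : blk r = 3
  er : ∀ x, blk x = 3 → x = r
  b1 : ∀ x, ty x = 1 → (blk x = 1 ↔ x < t)
  hm : ty m = 4
  bm : blk m = 6
  em : ∀ x, ty x = 4 → blk x = 6 → x = m
  b8 : ∀ x, ty x = 6 → (blk x = 8 ↔ m < x)
  b7 : blk y = 7
  wm : w < m
  wy : ∀ x, 5 ≤ ty x → w < x

variable {blk : X → ℕ} {t t' r m y w : X} {J : X → Prop} {e : X → X}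

theorem PL.lo (L : PL ty blk t t' r m y w) (h : Img (fun x => ty x ≠ 2) m blk J)
    {a b : X} (ha : J a) (hb : J b) (h1 : ty a ≤ 1) (h2 : 2 ≤ ty b) : J r ∧ J t := by
  have := L.tab a
  have := L.tab b
  have := L.tab r
  have := L.br
  have := L.bt
  have := L.ht
  constructor
  · by_cases h3 : blk a = 3
    · exact L.er a h3 ▸ ha
    · exact h.conv a b r ha hb (by omega) (by omega) (by omega)
  · by_cases h3 : blk b = 4
    · exact L.et b h3 ▸ hb
    · exact h.conv a b t ha hb (by omega) (by omega) (by omega)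

theorem PL.hi (L : PL ty blk t t' r m y w) (h : Img (fun x => ty x ≠ 2) m blk J)
    {a b : X} (ha : J a) (hb : J b) (h1 : ty a ≤ 4) (h2 : 5 ≤ ty b) : J m := by
  have := L.tab a
  have := L.tab b
  have := L.hm
  have := L.bm
  by_cases h3 : ty a = 2
  · exact h.foot a ha (not_not.mpr h3)
  by_cases h4 : blk a = 6
  · exact L.em a (by omega) h4 ▸ ha
  · exact h.conv a b m ha hb (by omega) (by omega) (by omega)

theorem PL.ret_hi (T : ZT ty s) (L : PL ty blk t t' r m y w)
    (he : Ret (fun x => ty x ≠ 2) m blk e) : ∃ b, e b = b ∧ 5 ≤ ty b := by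
  by_contra h1
  push Not at h1
  have ht := L.ht
  have hm := L.hm
  have br := L.br
  have tr : ty r = 1 := by have := L.tab r; omega
  obtain ⟨a, ha, h2⟩ : ∃ a, e a = a ∧ ty a ≤ 1 := by
    by_contra h2
    push Not at h2
    obtain ⟨p, q, hp, hq, hpq⟩ := he.img.pair
    have a1 := T.lt hpq
    have a2 := h1 q hq
    have a3 := h2 p hp
    have hm' := he.img.foot p hp (by omega)
    obtain ⟨x, a4, a5⟩ := he.img.adj m hm'
    have := a5.imp T.lt T.lt
    have := h1 x a4
    have := h2 x a4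
    omega
  obtain ⟨x, a1, a2⟩ := he.img.adj a ha
  obtain ⟨hr', ht'⟩ := L.lo he.img ha a1 h2 (by have := a2.imp T.lt T.lt; omega)
  obtain ⟨b, a3, a4⟩ := T.up r (by omega)
  have n1 : ¬ r < t := fun h => by have := (L.b1 r tr).mpr h; omega
  obtain ⟨u, a5, -, a6⟩ := he.sub hr' ht' a3 (L.full t b ht a4) n1
    (fun h => by have := T.lt h; omega) (ne_of_ty (ty := ty) (by omega))
  have := T.lt a6
  have := h1 u a5
  omega

theorem PL.ret_lo (T : ZT ty s) (L : PL ty blk t t' r m y w)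
    (he : Ret (fun x => ty x ≠ 2) m blk e) : ∃ a, e a = a ∧ ty a ≤ 1 := by
  by_contra h1
  push Not at h1
  obtain ⟨b, hb, h2⟩ := L.ret_hi T he
  obtain ⟨x, a1, a2⟩ := he.img.adj b hb
  have hm' := L.hi he.img a1 hb (by have := a2.imp T.lt T.lt; omega) h2
  have hm := L.hm
  have bm := L.bm
  have b7 := L.b7
  have ty6 : ty y = 6 := by have := L.tab y; omega
  obtain ⟨u, a3, a4⟩ := he.img.adj m hm'
  have a5 : m < u := a4.resolve_right fun h => by
    have := T.lt h
    have := h1 u a3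
    omega
  have a6 : blk u = 8 := (L.b8 u (by have := T.lt a5; have := L.tab u; omega)).mpr a5
  have hy' := he.img.conv m u y hm' a3 (by omega) (by omega) (by omega)
  have n1 : ¬ m < y := fun h => by have := (L.b8 y ty6).mpr h; omega
  obtain ⟨a, a7, a8, -⟩ := he.slb hm' hy' L.wm (L.wy y (by omega)) n1
    (fun h => by have := T.lt h; omega) (ne_of_ty (ty := ty) (by omega))
  have := T.lt a8
  have := h1 a a7
  omega

theorem PL.ret (T : ZT ty s) (L : PL ty blk t t' r m y w)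
    (he : Ret (fun x => ty x ≠ 2) m blk e) :
    (∃ d, d < s ∧ e d = d) ∧ (∃ u, t < u ∧ e u = u) ∧ ∀ x, ¬ ty x ≠ 2 → e x = x := by
  obtain ⟨a, ha, h1⟩ := L.ret_lo T he
  obtain ⟨b, hb, h2⟩ := L.ret_hi T he
  have hs := T.hs
  have ht := L.ht
  have ht' := L.ht'
  have hm := L.hm
  have bt := L.bt
  have bm := L.bm
  have mid : ∀ x, ty x = 3 ∨ ty x = 4 → e x = x := fun x hx => by
    have := L.tab x
    have := L.tab a
    have := L.tab b
    exact he.img.conv a b x ha hb (by omega) (by omega) (by omega)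
  have hs' : e s = s := by
    rcases he.loc s (by omega) (mid m (by omega)) with h | ⟨h3, h4⟩
    · exact h
    exfalso
    have a1 : e s ≤ t := mid t (by omega) ▸ he.mono _ _ (T.g2 t (by omega)).le
    have a2 : e s ≤ t' := mid t' (by omega) ▸ he.mono _ _ (T.g2 t' (by omega)).le
    rcases a1.eq_or_lt with a3 | a3
    · rw [a3] at a2
      have := T.lt (a2.lt_of_ne L.ne.symm)
      omega
    · have := T.lt a3
      have := L.tab (e s)
      exact (h4 t (by omega)).2 ⟨by omega, by omega⟩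
  obtain ⟨c, d, hc, hd, hdc⟩ := T.wc
  have tc : ty c = 4 := by have := L.tab c; omega
  obtain ⟨d', a1, a2, -⟩ := he.slb hs' (mid c (by omega)) (T.l2 d hd) hdc
    (fun h => by have := T.lt h; omega) (fun h => by have := T.lt h; omega)
    (ne_of_ty (ty := ty) (by omega))
  exact ⟨⟨d', a2, a1⟩, ⟨b, L.full t b ht h2, hb⟩, fun x h => T.es x (not_not.mp h) ▸ hs'⟩

theorem PL.nil (T : ZT ty s) (L : PL ty blk t t' r m y w) {K : X → Prop}
    (hJ : Img (fun x => ty x ≠ 2) m blk J) (hJK : ∀ x, J x → K x)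
    (hK : Clo (fun x => ty x ≠ 2) m blk K) : ∀ x, K x := by
  have hs := T.hs
  have ht := L.ht
  have hm := L.hm
  have bt := L.bt
  have bm := L.bm
  refine T.all_of (n := 8) hK (fun _ h => h) (by omega) (fun x => by have := L.tab x; omega) ?_
  have kB : J m → (∀ y, ty y = 6 → K y ∨ ∃ w, K w ∧ (w < y ∨ y < w)) → ∀ x, 5 ≤ ty x → K x := by
    intro hm' h x hx
    refine hK.grow m 6 8 (hJK m hm') (by omega) (by omega) (by omega) (fun y h0 h1 _ => ?_) x
      (by omega) (by have := L.tab x; omega) (by have := L.tab x; omega)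
    have := L.tab y
    by_cases h2 : ty y = 6
    · exact h y h2
    · exact Or.inl (L.em y (by omega) (by omega) ▸ hJK m hm')
  by_cases hs' : J s
  · exact Or.inr (kB (hJ.foot s hs' (by omega)) fun y hy =>
      Or.inr ⟨s, hJK s hs', Or.inl (T.g2 y (Or.inr hy))⟩)
  have k0 : ∀ x, J x → ty x ≠ 2 := fun x h1 h2 => hs' (T.es x h2 ▸ h1)
  by_cases hA : ∃ a, J a ∧ ty a ≤ 1
  · obtain ⟨a, ha, h1⟩ := hA
    obtain ⟨x, a1, a2⟩ := hJ.adj a ha
    have ht' := (L.lo hJ ha a1 h1 (by have := a2.imp T.lt T.lt; omega)).2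
    obtain ⟨u, a3, a4 | a4⟩ := hJ.adj t ht'
    · have := T.lt a4
      exact Or.inr (kB (L.hi hJ ht' a3 (by omega) (by omega)) fun y hy =>
        Or.inr ⟨t, hJK t ht', Or.inl (L.full t y ht (by omega))⟩)
    have a5 : blk u ≤ 1 := by
      have := T.lt a4
      have := k0 u a3
      have := L.tab u
      by_cases h : ty u = 1
      · exact ((L.b1 u h).mpr a4).le
      · omega
    refine Or.inl fun x hx => hK.grow t 0 4 (hJK t ht') (by omega) (by omega) (by omega)
      (fun y h0 _ h2 => ?_) x (by omega) (by omega) (by have := L.tab x; omega)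
    have := L.tab y
    by_cases h3 : ty y = 0
    · exact Or.inr ⟨t, hJK t ht', Or.inr ((T.l2 y h3).trans (T.g2 t (Or.inl ht)))⟩
    by_cases h4 : blk y = 1
    · exact Or.inr ⟨t, hJK t ht', Or.inr ((L.b1 y (by omega)).mp h4)⟩
    by_cases h5 : blk y = 4
    · exact Or.inl (L.et y h5 ▸ hJK t ht')
    exact Or.inl (hJK y (hJ.conv u t y a3 ht' h0 (by omega) (by omega)))
  push Not at hA
  obtain ⟨p, q, hp, hq, hpq⟩ := hJ.pair
  have hm' : J m := by
    have := T.lt hpq
    have := hA p hp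
    have := k0 p hp
    exact L.hi hJ hp hq (by omega) (by omega)
  obtain ⟨u, a3, a4⟩ := hJ.adj m hm'
  have a5 : m < u := a4.resolve_right fun h => by
    have := T.lt h
    have := hA u a3
    omega
  have a6 : blk u = 8 := (L.b8 u (by have := T.lt a5; have := L.tab u; omega)).mpr a5
  refine Or.inr (kB hm' fun y hy => ?_)
  by_cases h : blk y = 8
  · exact Or.inr ⟨m, hJK m hm', Or.inl ((L.b8 y hy).mp h)⟩
  · have := L.tab y
    exact Or.inl (hJK y (hJ.conv m u y hm' a3 (by omega) (by omega) (by omega)))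

theorem PL.perp [Finite X] (T : ZT ty s) (L : PL ty blk t t' r m y w) : Perp X := by
  have hs := T.hs
  have ht := L.ht
  have hm := L.hm
  have bt := L.bt
  have bm := L.bm
  have br := L.br
  have b7 := L.b7
  have tr : ty r = 1 := by have := L.tab r; omega
  have ty6 : ty y = 6 := by have := L.tab y; omega
  have hD : ∀ d, d < s → ty d = 0 := fun d h => by have := T.lt h; omega
  have hU : ∀ d, t < d → ty d = 6 := fun d h => by have := T.lt h; omega
  refine perp_of_blocks T.pr (fun x => ty x ≠ 2) s m s t blk (fun x h => T.es x (not_not.mp h))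
    (by omega) (fun x h => by have := L.tab x; omega) (fun x z h1 h2 h => ?_)
    (fun x h => ⟨fun h' => by have := T.lt h'; omega, fun h' => by have := T.lt h'; omega⟩)
    (fun x h => by rw [T.es x (not_not.mp h)]; exact ⟨le_rfl, (T.g2 t (Or.inl ht)).le⟩)
    (T.g2 t (Or.inl ht)).le T.exD (T.exU ht) T.loD (T.hiU ht) (fun d x h1 h2 => ?_)
    (fun u x h1 h2 => ?_) (fun d d' h1 h2 h3 => ?_) (fun u u' h1 h2 h3 => ?_)
    (fun e he => L.ret T he) fun J K hJ hJK hK => L.nil T hJ hJK hK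
  · have := T.lt h
    have := L.tab x
    have := L.tab z
    by_cases h3 : blk z = 4
    · refine ⟨r, by omega, Or.inl ⟨?_, by omega⟩⟩
      by_cases h4 : ty x = 1
      · have := (L.b1 x h4).mpr (L.et z h3 ▸ h)
        omega
      · omega
    by_cases h4 : ty x ≤ 1
    · exact ⟨t, by omega, by omega⟩
    by_cases h5 : blk x = 6
    · have := (L.b8 z (by omega)).mpr (L.em x (by omega) h5 ▸ h)
      exact ⟨y, by omega, by omega⟩
    exact ⟨m, by omega, by omega⟩
  · have := hD d h1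
    have : ty x ≠ 0 := fun h => h2 (T.l2 x h)
    have := L.tab d
    have := L.tab x
    omega
  · have := hU u h1
    have : ¬ 5 ≤ ty x := fun h => h2 (L.full t x ht h)
    have := L.tab u
    have := L.tab x
    omega
  · have := hD d h1
    have := hD d' h2
    have := L.tab d
    have := L.tab d'
    omega
  · have a1 := hU u h1
    have a2 := hU u' h2
    have := L.tab u
    have := L.tab u'
    exact ⟨m, (L.b8 u a1).mp (by omega), fun h => by have := (L.b8 u' a2).mpr h; omega⟩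

theorem ZT.p1 [Finite X] (T : ZT ty s) (F : ∀ h b, ty h = 3 → 5 ≤ ty b → h < b)
    (two : ∃ t t', ty t = 3 ∧ ty t' = 3 ∧ t ≠ t') : Perp X := by
  classical
  have hs := T.hs
  obtain ⟨t, t', r, ht, ht', hne, hr, hrt⟩ :
      ∃ t t' r, ty t = 3 ∧ ty t' = 3 ∧ t' ≠ t ∧ ty r = 1 ∧ ¬ r < t := by
    obtain ⟨t, t', ht, ht', hne⟩ := two
    by_contra h
    push Not at h
    have k : ∀ t t' x, ty t = 3 → ty t' = 3 → t' ≠ t → (t' < x → t < x) ∧ (x < t' → x < t) := by
      intro t t' x h1 h2 h3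
      refine ⟨fun h4 => F t x h1 (by have := T.lt h4; omega), fun h4 => ?_⟩
      have := T.lt h4
      by_cases h5 : ty x = 1
      · exact h t t' x h1 h2 h3 h5
      by_cases h6 : ty x = 0
      · exact (T.l2 x h6).trans (T.g2 t (Or.inl h1))
      · exact T.es x (by omega) ▸ T.g2 t (Or.inl h1)
    exact hne (Prime.not_twin T.pr T.three fun x _ _ =>
      ⟨⟨(k t' t x ht' ht hne).1, (k t t' x ht ht' hne.symm).1⟩,
        (k t' t x ht' ht hne).2, (k t t' x ht ht' hne.symm).2⟩)
  have n5 : ∀ x, ty x ≠ 5 := fun x h => by have := T.lt (F t x ht (by omega)); omega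
  have mx : ∀ b : X, (∀ y, ¬ b < y) ↔ 5 ≤ ty b := fun b => ⟨fun h => by
    by_contra h1
    obtain ⟨y, h2, -⟩ := T.up b (by omega)
    exact h y h2, fun h y h1 => by have := T.lt h1; omega⟩
  obtain ⟨u, -, hu⟩ := T.up t (by omega)
  obtain ⟨m, w, b, y, h1, h2, h3, h4, h5⟩ : ∃ m w b y : X, m < b ∧ w < m ∧
      (∀ a, (∀ y, ¬ a < y) → w < a) ∧ (∀ x, ¬ y < x) ∧ ¬ m < y :=
    exists_nonfull (X := Xᵒᵈ) T.pr.dual (d := u) (s := t)
      (t := s) ((mx u).mpr hu) (T.g2 t (Or.inl ht)) fun a ha => F t a ht ((mx a).mp ha)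
  have hy : ty y = 6 := by
    have := (mx y).mp h4
    have := n5 y
    have := T.le y
    omega
  have hm : ty m = 4 := by
    have := T.lt h1
    have := T.lt h2
    have : ty m ≠ 3 := fun h => h5 (F m y h (by omega))
    have : ty m ≠ 2 := fun h => h5 (T.es m h ▸ T.g2 y (Or.inr hy))
    omega
  have key : ∀ x : X, ∃ n : ℕ, ty x = 0 ∧ n = 0 ∨ ty x = 1 ∧ x < t ∧ n = 1 ∨
      ty x = 1 ∧ ¬ x < t ∧ x ≠ r ∧ n = 2 ∨ x = r ∧ n = 3 ∨ ty x = 2 ∧ n = 6 ∨ x = t ∧ n = 4 ∨
      (ty x = 3 ∨ ty x = 4) ∧ x ≠ t ∧ x ≠ m ∧ n = 5 ∨ x = m ∧ n = 6 ∨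
      ty x = 6 ∧ ¬ m < x ∧ n = 7 ∨ ty x = 6 ∧ m < x ∧ n = 8 := by
    intro x
    by_cases e1 : x = r
    · exact ⟨3, by simp [e1]⟩
    by_cases e2 : x = t
    · exact ⟨4, by simp [e2]⟩
    by_cases e3 : x = m
    · exact ⟨6, by simp [e3]⟩
    have a1 := T.le x
    have a2 := n5 x
    by_cases e4 : ty x = 0
    · exact ⟨0, by simp [e4]⟩
    by_cases e5 : ty x = 1
    · by_cases e6 : x < t
      · exact ⟨1, by simp [e5, e6]⟩
      · exact ⟨2, by simp [e5, e6, e1]⟩
    by_cases e6 : ty x = 2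
    · exact ⟨6, by simp [e6]⟩
    by_cases e7 : ty x = 6
    · by_cases e8 : m < x
      · exact ⟨8, by simp [e7, e8]⟩
      · exact ⟨7, by simp [e7, e8]⟩
    have e8 : ty x = 3 ∨ ty x = 4 := by omega
    exact ⟨5, by simp [e8, e2, e3]⟩
  choose blk B using key
  refine PL.perp (blk := blk) (t := t) (t' := t') (r := r) (m := m) (y := y) (w := w) T
    ⟨fun x => ?_, F, ht, ht', hne, ?_, fun x h => ?_, ?_, fun x h => ?_, fun x h => ?_, hm, ?_,
      fun x h h' => ?_, fun x h => ?_, ?_, h2, fun x hx => h3 x ((mx x).mpr hx)⟩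
  · have := B x
    grind
  · have := B t
    grind
  · have := B x
    grind
  · have := B r
    grind
  · have := B x
    grind
  · have := B x
    grind
  · have := B m
    grind
  · have := B x
    grind
  · have := B x
    grind
  · have := B y
    grind

end Pool.Agent.Lib.MP_04ca4f_co.St
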