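import Pool.Agent.Lib.MP_04ca4f_co.StZ2
import Pool.Agent.Lib.MP_04ca4f_co.StZN
import Pool.Agent.Lib.MP_04ca4f_co.StZP0
import Pool.Agent.Lib.MP_04ca4f_co.StZP1

/-!
# Finite prime orders in which only one middle point lies below a middle point
-/

set_option autoImplicit false

namespace Pool.Agent.Lib.MP_04ca4f_co.St

variable {X : Type*} [PartialOrder X] {ty : X → ℕ} {s t : X}

theorem ZT.z_core [Finite X] (T : ZT ty s)
    (Y : ∀ t, ty t = 3 → ∃ y, s < y ∧ y ≠ t ∧ ¬ t < y) : Perp X := by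
  by_cases h1 : ∀ a, ty a ≠ 1
  · exact T.p0 h1
  by_cases h4 : ∀ a, ty a ≠ 4
  · exact T.p2 h4 Y
  push Not at h1 h4
  by_cases h : (∀ h b, ty h = 3 → 5 ≤ ty b → h < b) ∧ ∃ t t', ty t = 3 ∧ ty t' = 3 ∧ t ≠ t'
  · exact T.p1 h.1 h.2
  · exact T.n1 h1 h4 Y h

/-- A finite prime order in which s is the only middle point below a middle point has a
perpendicular order. -/
theorem z_case [Finite X] (hp : Pr X) (st : s < t) (exD : ∃ d, d < s) (exU : ∃ u, t < u)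
    (only : ∀ w x y w', w < x → x < y → y < w' → x = s) : Perp X := by
  obtain ⟨ty, T⟩ := exists_ZT hp st exD exU only
  by_cases Y : ∀ t, ty t = 3 → ∃ y, s < y ∧ y ≠ t ∧ ¬ t < y
  · exact T.z_core Y
  push Not at Y
  obtain ⟨h, hh, Y⟩ := Y
  have sh := T.g2 h (Or.inl hh)
  obtain ⟨u, hu⟩ := T.exU hh
  obtain ⟨d, hd⟩ := exD
  obtain ⟨ty', T'⟩ := exists_ZT (X := Xᵒᵈ) hp.dual (s := h) (t := s) sh ⟨u, hu⟩ ⟨d, hd⟩
    fun w x y w' h1 h2 h3 => by
      by_contra h4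
      have h5 := only w' y x w h3 h2 h1
      exact sh.ne' (only s h x w sh (Y x (h5 ▸ h2) h4) h1)
  refine Perp.of_dual (T'.z_core fun t' ht' => ?_)
  obtain ⟨w, hw⟩ := T'.exU ht'
  have h1 : t' = s := only w t' h u hw (T'.g2 t' (Or.inl ht')) hu
  obtain ⟨x, a1, a2, ⟨a3, a4⟩ | ⟨a3, a4⟩⟩ := exists_split hp hd sh
  · exact ⟨x, a3, h1 ▸ a1, h1 ▸ a4⟩
  · exact absurd (Y x a3 a2) a4

end Pool.Agent.Lib.MP_04ca4f_co.St
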