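import Pool.Agent.Lib.MP_04ca4f_co.Assemble
import Pool.Agent.Lib.MP_04ca4f_co.SkipFork
import Pool.Agent.Lib.MP_04ca4f_co.StDeltaAll
import Pool.Agent.Lib.MP_04ca4f_co.StZAll
import Pool.Agent.Lib.MP_04ca4f_co.InfMain

/-!
# Every order without nontrivial autonomous set has a perpendicular
-/

set_option autoImplicit false

namespace Pool.Agent.Lib.MP_04ca4f_co

variable {X : Type*}

theorem perpR_finite [Finite X] (P : PartialOrder X) (hP : Prime P.lt) : PerpR P.lt := by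
  have trans : ∀ x y z : X, x < y → y < z → x < z := fun _ _ _ => lt_trans
  have asymm : ∀ x y : X, x < y → ¬ y < x := fun _ _ => lt_asymm
  refine perpR_of_classes hP trans asymm (perpR_three P hP) (fun _ s t ms mt st h => ?_)
    (fun _ s t ms mt st h => ?_) fun z hz => hz.perpR hP trans asymm
      (fun s t ms mt sz zt h => ?_) (fun a s t b x m c1 c2 c3 c4 d1 d2 ms hC => ?_)
      fun a s t b x m c1 c2 c3 c4 d1 d2 ms hC => ?_
  · exact perpR_of_perp (St.z_case hP st ms.1 mt.2 fun w x y w' h1 h2 h3 =>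
      h x y ⟨⟨w, h1⟩, y, h2⟩ ⟨⟨x, h2⟩, w', h3⟩ h2)
  · exact perpR_of_perp (St.Perp.of_dual (St.z_case (X := Xᵒᵈ) (s := t) (t := s)
      (St.Pr.dual hP) st mt.2 ms.1 fun w x y w' h1 h2 h3 =>
        h y x ⟨⟨w', h3⟩, x, h2⟩ ⟨⟨y, h2⟩, w, h1⟩ h2))
  · exact perpR_of_perp (St.delta_case hP sz zt ms.1 mt.2 fun w x y w' h1 h2 h3 =>
      h x y ⟨⟨w, h1⟩, y, h2⟩ ⟨⟨x, h2⟩, w', h3⟩ h2)
  · exact perpR_fork5 hP trans asymm hz.six c1 c2 c3 c4 d1 d2 ms hC
  · exact PerpR.of_flip (perpR_fork5 (r := fun x y : X => y < x) hP.flip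
      (fun x y z h1 h2 => trans _ _ _ h2 h1) (fun x y => asymm y x) hz.flip.six c4 c3 c2 c1 d1 d2
      ms hC)

theorem has_perpendicular (P : PartialOrder X)
    (hprime : ¬ ∃ A : Set X, A ≠ Set.univ ∧ A.Nontrivial ∧ ∀ x ∉ A,
      ((∃ a ∈ A, P.lt x a) → ∀ a ∈ A, P.lt x a) ∧ ((∃ a ∈ A, P.lt a x) → ∀ a ∈ A, P.lt a x)) :
    ∃ Q : PartialOrder X, ∀ f : X → X, (∀ x y, P.le x y → P.le (f x) (f y)) →
      (∀ x y, Q.le x y → Q.le (f x) (f y)) → f = id ∨ ∃ c, ∀ x, f x = c := by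
  rcases finite_or_infinite X with h | h
  · obtain ⟨Q, hQ⟩ := perpR_finite P fun A h1 h2 h3 => hprime ⟨A, h1, h2, h3⟩
    exact ⟨Q, fun f hf => hQ f fun x y hxy =>
      @LE.le.eq_or_lt X P _ _ (hf x y (@le_of_lt X P.toPreorder _ _ hxy))⟩
  · exact Inf.infinite_case P hprime

end Pool.Agent.Lib.MP_04ca4f_co
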