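import Pool.Agent.Lib.MP_04ca4f_co.MarkFrame

/-!
# Construction of frames
-/

set_option autoImplicit false

namespace Pool.Agent.Lib.MP_04ca4f_co

variable {X : Type*}

/-- An enumeration of a finite set in which the points with a given property come first. -/
theorem exists_rank (F : Finset X) (U : X → Prop) : ∃ s : X → ℕ,
    (∀ x ∈ F, ∀ y ∈ F, s x = s y → x = y) ∧ (∀ x ∈ F, s x < F.card) ∧
      (∀ k < F.card, ∃ x ∈ F, s x = k) ∧ ∀ x ∈ F, ∀ y ∈ F, U x → ¬ U y → s x < s y := by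
  classical
  let A := F.filter U
  let B := F.filter fun x => ¬ U x
  have hc : A.card + B.card = F.card := Finset.card_filter_add_card_filter_not U
  let s : X → ℕ := fun x => if h : x ∈ A then (A.equivFin ⟨x, h⟩ : ℕ)
    else if h : x ∈ B then A.card + (B.equivFin ⟨x, h⟩ : ℕ) else 0
  have hA : ∀ x (h : x ∈ A), s x = (A.equivFin ⟨x, h⟩ : ℕ) := fun x h => dif_pos h
  have hB : ∀ x (h : x ∈ B), s x = A.card + (B.equivFin ⟨x, h⟩ : ℕ) := fun x h => by
    have h1 : x ∉ A := fun h2 => (Finset.mem_filter.mp h).2 (Finset.mem_filter.mp h2).2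
    simp only [s, dif_neg h1, dif_pos h]
  have hAB : ∀ x ∈ F, x ∈ A ∨ x ∈ B := fun x hx => (em (U x)).imp
    (fun h => Finset.mem_filter.mpr ⟨hx, h⟩) fun h => Finset.mem_filter.mpr ⟨hx, h⟩
  refine ⟨s, fun x hx y hy h => ?_, fun x hx => ?_, fun k hk => ?_, fun x hx y hy h1 h2 => ?_⟩
  · rcases hAB x hx with h1 | h1 <;> rcases hAB y hy with h2 | h2
    · rw [hA x h1, hA y h2] at h
      exact congrArg Subtype.val (A.equivFin.injective (Fin.ext h))
    · rw [hA x h1, hB y h2] at h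
      have := (A.equivFin ⟨x, h1⟩).2
      omega
    · rw [hB x h1, hA y h2] at h
      have := (A.equivFin ⟨y, h2⟩).2
      omega
    · rw [hB x h1, hB y h2] at h
      exact congrArg Subtype.val (B.equivFin.injective (Fin.ext (Nat.add_left_cancel h)))
  · rcases hAB x hx with h1 | h1
    · have := (A.equivFin ⟨x, h1⟩).2
      rw [hA x h1]
      omega
    · have := (B.equivFin ⟨x, h1⟩).2
      rw [hB x h1]
      omega
  · by_cases h : k < A.card
    · obtain ⟨⟨x, hx⟩, h1⟩ := A.equivFin.surjective ⟨k, h⟩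
      exact ⟨x, (Finset.mem_filter.mp hx).1, by rw [hA x hx, h1]⟩
    · obtain ⟨⟨x, hx⟩, h1⟩ := B.equivFin.surjective ⟨k - A.card, by omega⟩
      refine ⟨x, (Finset.mem_filter.mp hx).1, ?_⟩
      rw [hB x hx, h1]
      show A.card + (k - A.card) = k
      omega
  · have h3 : x ∈ A := Finset.mem_filter.mpr ⟨hx, h1⟩
    have h4 : y ∈ B := Finset.mem_filter.mpr ⟨hy, h2⟩
    have := (A.equivFin ⟨x, h3⟩).2
    rw [hA x h3, hB y h4]
    omega

/-- The points with the property fill the odd places first. -/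
theorem exists_interleave (F : Finset X) (U : X → Prop) (p : ℤ)
    (hp : (p = 2 ∧ F.card % 2 = 1) ∨ (p = 3 ∧ F.card % 2 = 0)) : ∃ g : X → ℤ,
      (∀ x ∈ F, ∀ y ∈ F, g x = g y → x = y) ∧ (∀ x ∈ F, p ≤ g x ∧ g x < p + F.card) ∧
      (∀ k, p ≤ k → k < p + F.card → ∃ x ∈ F, g x = k) ∧
      ∀ x ∈ F, ∀ y ∈ F, U x → ¬ U y → ¬ (g x % 2 = 0 ∧ g y % 2 = 1) ∧ g x + 1 ≠ p + F.card := by
  obtain ⟨s, h1, h2, h3, h4⟩ := exists_rank F U
  let g : X → ℤ := fun x => if s x < F.card / 2 then 3 + 2 * (s x : ℤ)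
    else 2 * p - 2 + 2 * ((s x : ℤ) - (F.card / 2 : ℕ))
  have hg : ∀ x, (s x < F.card / 2 ∧ g x = 3 + 2 * (s x : ℤ)) ∨
      (¬ s x < F.card / 2 ∧ g x = 2 * p - 2 + 2 * ((s x : ℤ) - (F.card / 2 : ℕ))) := fun x =>
    (em (s x < F.card / 2)).imp (fun h => ⟨h, if_pos h⟩) fun h => ⟨h, if_neg h⟩
  refine ⟨g, fun x hx y hy h => h1 x hx y hy ?_, fun x hx => ?_, fun k k1 k2 => ?_,
    fun x hx y hy u1 u2 => ?_⟩
  · have := hg x
    have := hg y
    omega
  · have := hg x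
    have := h2 x hx
    omega
  · by_cases hk : k % 2 = 1
    · obtain ⟨x, hx, h⟩ := h3 ((k - 3) / 2).toNat (by omega)
      have := hg x
      exact ⟨x, hx, by omega⟩
    · obtain ⟨x, hx, h⟩ := h3 (F.card / 2 + ((k - (2 * p - 2)) / 2).toNat) (by omega)
      have := hg x
      exact ⟨x, hx, by omega⟩
  · have := hg x
    have := hg y
    have := h2 x hx
    have := h2 y hy
    have := h4 x hx y hy u1 u2
    omega

/-- A frame with prescribed special points. The point w is either v or an extra point with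
place 0 or 2. -/
theorem exists_frame {l l' u u' b a v w : X} (hd : [l, l', u, u', b, a, v].Nodup)
    (hw : w = v ∨ w ∉ [l, l', u, u', b, a, v]) (F : Finset X)
    (hF : ∀ z, z ∈ F ↔ z ∉ [l, l', u, u', b, a, v, w]) (U : X → Prop) (c : ℤ)
    (hc : ((w = v ∨ c = 0) ∧ F.card % 2 = 1) ∨ (w ≠ v ∧ c = 2 ∧ F.card % 2 = 0)) :
    ∃ t : X → ℤ, Frame l l' u u' b a v t ∧ (w ≠ v → t w = c) ∧ (∀ z ∈ F, 2 ≤ t z) ∧
      ∀ x ∈ F, ∀ y ∈ F, U x → ¬ U y → ¬ (t x % 2 = 0 ∧ t y % 2 = 1) ∧ t x + 1 ≠ t a := by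
  classical
  obtain ⟨p, hp1, hp2⟩ : ∃ p : ℤ, ((p = 2 ∧ F.card % 2 = 1) ∨ (p = 3 ∧ F.card % 2 = 0)) ∧
      ((p = 2 ∧ (w = v ∨ c = 0)) ∨ (p = 3 ∧ w ≠ v ∧ c = 2)) := by
    rcases hc with h | h
    · exact ⟨2, Or.inl ⟨rfl, h.2⟩, Or.inl ⟨rfl, h.1⟩⟩
    · exact ⟨3, Or.inr ⟨rfl, h.2.2⟩, Or.inr ⟨rfl, h.1, h.2.1⟩⟩
  obtain ⟨g, g1, g2, g3, g4⟩ := exists_interleave F U p hp1
  let t : X → ℤ := fun z => if z = l then -1 else if z = l' then -2 else if z = u then -3
    else if z = u' then -4 else if z = b then -5 else if z = a then p + F.card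
    else if z = v then 1 else if z = w then c else g z
  simp only [List.nodup_cons, List.mem_cons, List.not_mem_nil, or_false, not_or] at hd hw hF
  obtain ⟨⟨d1, d2, d3, d4, d5, d6⟩, ⟨d7, d8, d9, d10, d11⟩, ⟨d12, d13, d14, d15⟩,
    ⟨d16, d17, d18⟩, ⟨d19, d20⟩, d21, -⟩ := hd
  have t1 : t l = -1 := if_pos rfl
  have t2 : t l' = -2 := by simp only [t, if_neg (Ne.symm d1), if_true]
  have t3 : t u = -3 := by simp only [t, if_neg (Ne.symm d2), if_neg (Ne.symm d7), if_true]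
  have t4 : t u' = -4 := by
    simp only [t, if_neg (Ne.symm d3), if_neg (Ne.symm d8), if_neg (Ne.symm d12), if_true]
  have t5 : t b = -5 := by
    simp only [t, if_neg (Ne.symm d4), if_neg (Ne.symm d9), if_neg (Ne.symm d13),
      if_neg (Ne.symm d16), if_true]
  have t6 : t a = p + F.card := by
    simp only [t, if_neg (Ne.symm d5), if_neg (Ne.symm d10), if_neg (Ne.symm d14),
      if_neg (Ne.symm d17), if_neg (Ne.symm d19), if_true]
  have t7 : t v = 1 := by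
    simp only [t, if_neg (Ne.symm d6), if_neg (Ne.symm d11), if_neg (Ne.symm d15),
      if_neg (Ne.symm d18), if_neg (Ne.symm d20), if_neg (Ne.symm d21), if_true]
  have t8 : w ≠ v → t w = c := fun h => by
    obtain ⟨e1, e2, e3, e4, e5, e6, e7⟩ := hw.resolve_left h
    simp only [t, if_neg e1, if_neg e2, if_neg e3, if_neg e4, if_neg e5, if_neg e6, if_neg e7,
      if_true]
  have t9 : ∀ z ∈ F, t z = g z := fun z hz => by
    obtain ⟨e1, e2, e3, e4, e5, e6, e7, e8⟩ := (hF z).mp hz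
    simp only [t, if_neg e1, if_neg e2, if_neg e3, if_neg e4, if_neg e5, if_neg e6, if_neg e7,
      if_neg e8]
  have hcase : ∀ z, (z = l ∧ t z = -1) ∨ (z = l' ∧ t z = -2) ∨ (z = u ∧ t z = -3) ∨
      (z = u' ∧ t z = -4) ∨ (z = b ∧ t z = -5) ∨ (z = a ∧ t z = p + F.card) ∨
      (z = v ∧ t z = 1) ∨ (z = w ∧ t z = c ∧ ((p = 2 ∧ c = 0) ∨ (p = 3 ∧ c = 2))) ∨
      (z ∈ F ∧ p ≤ t z ∧ t z < p + F.card) := by
    intro z
    by_cases e1 : z = l
    · exact Or.inl ⟨e1, e1 ▸ t1⟩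
    by_cases e2 : z = l'
    · exact Or.inr (Or.inl ⟨e2, e2 ▸ t2⟩)
    by_cases e3 : z = u
    · exact Or.inr (Or.inr (Or.inl ⟨e3, e3 ▸ t3⟩))
    by_cases e4 : z = u'
    · exact Or.inr (Or.inr (Or.inr (Or.inl ⟨e4, e4 ▸ t4⟩)))
    by_cases e5 : z = b
    · exact Or.inr (Or.inr (Or.inr (Or.inr (Or.inl ⟨e5, e5 ▸ t5⟩))))
    right; right; right; right; right
    by_cases e6 : z = a
    · exact Or.inl ⟨e6, e6 ▸ t6⟩
    by_cases e7 : z = v
    · exact Or.inr (Or.inl ⟨e7, e7 ▸ t7⟩)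
    by_cases e8 : z = w
    · have h : w ≠ v := e8 ▸ e7
      exact Or.inr (Or.inr (Or.inl ⟨e8, e8 ▸ t8 h,
        hp2.imp (fun h' => ⟨h'.1, h'.2.resolve_left h⟩) fun h' => ⟨h'.1, h'.2.2⟩⟩))
    · have hz := (hF z).mpr ⟨e1, e2, e3, e4, e5, e6, e7, e8⟩
      exact Or.inr (Or.inr (Or.inr ⟨hz, t9 z hz ▸ g2 z hz⟩))
  refine ⟨t, ⟨fun x y h => ?_, fun x => ?_, fun x => ?_, fun k k1 k2 => ?_, by omega, by omega,
    t1, t2, t3, t4, t5, t7⟩, t8, fun z hz => ?_, fun x hx y hy u1 u2 => ?_⟩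
  · rcases hcase x with a | a | a | a | a | a | a | a | a <;>
      rcases hcase y with b | b | b | b | b | b | b | b | b <;>
      first
        | exact a.1.trans b.1.symm
        | exact g1 x a.1 y b.1 (by rw [← t9 x a.1, ← t9 y b.1, h])
        | omega
  · have := hcase x
    omega
  · have := hcase x
    omega
  · by_cases e1 : k = 1
    · exact ⟨v, by omega⟩
    by_cases e2 : k = p + F.card
    · exact ⟨a, by omega⟩
    by_cases e3 : p ≤ k
    · obtain ⟨x, hx, h⟩ := g3 k e3 (by omega)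
      exact ⟨x, by rw [t9 x hx, h]⟩
    · rcases hp2 with h | h
      · omega
      · exact ⟨w, by rw [t8 h.2.1]; omega⟩
  · have := g2 z hz
    rw [t9 z hz]
    omega
  · rw [t9 x hx, t9 y hy, t6]
    exact g4 x hx y hy u1 u2

variable {r : X → X → Prop}

/-- A comparable pair in a prime order is split by a third point. -/
theorem Prime.split (h : Prime r) (h3 : ∀ x y : X, ∃ z, z ≠ x ∧ z ≠ y)
    (trans : ∀ x y z, r x y → r y z → r x z) {x y : X} (hxy : r x y) (hne : x ≠ y) :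
    ∃ z, z ≠ x ∧ z ≠ y ∧ ((r x z ∧ ¬ r y z) ∨ (r z y ∧ ¬ r z x)) := by
  by_contra hcon
  refine hne (h.not_twin h3 fun z h1 h2 => ⟨⟨fun a => ?_, trans _ _ _ hxy⟩,
    fun a => trans _ _ _ a hxy, fun a => ?_⟩)
  · by_contra b
    exact hcon ⟨z, h1, h2, Or.inl ⟨a, b⟩⟩
  · by_contra b
    exact hcon ⟨z, h1, h2, Or.inr ⟨a, b⟩⟩

theorem Prime.not_dom (h : Prime r) (h3 : ∀ x y : X, ∃ z, z ≠ x ∧ z ≠ y) {x y : X}
    (h1 : Dom r x y) (h2 : Dom r y x) : x = y :=
  h.not_twin h3 fun z a b =>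
    ⟨⟨fun c => ((h1 z a).1 c).resolve_left b.symm, fun c => ((h2 z b).1 c).resolve_left a.symm⟩,
      fun c => ((h1 z a).2 c).resolve_left b, fun c => ((h2 z b).2 c).resolve_left a⟩

theorem Dom.flip {x y : X} (h : Dom (fun x y => r y x) x y) : Dom r x y :=
  fun z hz => ⟨fun a => ((h z hz).2 a).imp_left Eq.symm, fun a => ((h z hz).1 a).imp_left Eq.symm⟩

/-- A point with the largest number of comparabilities cannot be moved alone. -/
theorem Prime.exists_not_dom [Finite X] (h : Prime r) (h3 : ∀ x y : X, ∃ z, z ≠ x ∧ z ≠ y)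
    (asymm : ∀ x y, r x y → ¬ r y x) (R : Finset X) (hR : R.Nonempty) :
    ∃ w ∈ R, ∀ e ∈ R, e ≠ w → ¬ Dom r w e := by
  classical
  cases nonempty_fintype X
  let C : X → Finset X := fun w => Finset.univ.filter fun z => r w z ∨ r z w
  have hC : ∀ w z, z ∈ C w ↔ r w z ∨ r z w := fun w z => by simp [C]
  obtain ⟨w, hw, hmax⟩ := R.exists_max_image (fun w => (C w).card) hR
  refine ⟨w, hw, fun e he hne hd => hne.symm (h.not_dom h3 hd ?_)⟩
  have hsub : (C w).map (Equiv.swap w e).toEmbedding ⊆ C e := by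
    intro z hz
    obtain ⟨y, hy, rfl⟩ := Finset.mem_map.mp hz
    rw [hC] at hy
    have h1 : y ≠ w := fun a => by
      rw [a] at hy
      exact hy.elim (fun a => asymm _ _ a a) fun a => asymm _ _ a a
    rw [hC, Equiv.coe_toEmbedding]
    by_cases h2 : y = e
    · rw [h2, Equiv.swap_apply_right]
      exact h2 ▸ hy.symm
    · rw [Equiv.swap_apply_of_ne_of_ne h1 h2]
      exact hy.imp (fun a => ((hd y h1).1 a).resolve_left (Ne.symm h2))
        fun a => ((hd y h1).2 a).resolve_left h2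
  have heq := Finset.eq_of_subset_of_card_le hsub (by rw [Finset.card_map]; exact hmax e he)
  intro z hz
  by_cases h1 : z = w
  · exact ⟨fun _ => Or.inl h1.symm, fun _ => Or.inl h1⟩
  have key : r e z ∨ r z e → r w z ∨ r z w := fun a => by
    have h2 := (hC e z).mpr a
    rw [← heq, Finset.mem_map_equiv, Equiv.symm_swap, Equiv.swap_apply_of_ne_of_ne h1 hz] at h2
    exact (hC w z).mp h2
  refine ⟨fun a => Or.inr ((key (Or.inl a)).resolve_right fun b => ?_),
    fun a => Or.inr ((key (Or.inr a)).resolve_left fun b => ?_)⟩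
  · exact asymm _ _ a (((hd z h1).2 b).resolve_left hz)
  · exact asymm _ _ a (((hd z h1).1 b).resolve_left (Ne.symm hz))

end Pool.Agent.Lib.MP_04ca4f_co
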