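import Pool.Agent.Lib.MP_04ca4f_co.PathLem

/-!
# The marker order: four markers around a crown
-/

set_option autoImplicit false

namespace Pool.Agent.Lib.MP_04ca4f_co

variable {X : Type*}

/-- The strict order on places. The places -1, -2 are lower markers, -3, -4 are upper markers,
the places from 0 to N form a fence, and -5 lies below 1 and N and above -1 only. -/
def Mk (N i j : ℤ) : Prop :=
  ((i = -1 ∨ i = -2) ∧ (j = -3 ∨ j = -4 ∨ 0 ≤ j)) ∨ (i = -1 ∧ j = -5) ∨
    ((i = -5 ∨ 0 ≤ i) ∧ (j = -3 ∨ j = -4)) ∨ (i = -5 ∧ (j = 1 ∨ j = N)) ∨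
    (0 ≤ i ∧ 0 ≤ j ∧ i % 2 = 0 ∧ (j = i + 1 ∨ i = j + 1))

/-- An assignment of places to the points. -/
structure Frame (l l' u u' b a v : X) (t : X → ℤ) : Prop where
  inj : ∀ x y, t x = t y → x = y
  lo : ∀ x, -5 ≤ t x
  hi : ∀ x, t x ≤ t a
  conv : ∀ k, 1 ≤ k → k ≤ t a → ∃ z, t z = k
  odd : t a % 2 = 1
  big : 3 ≤ t a
  hl : t l = -1
  hl' : t l' = -2
  hu : t u = -3
  hu' : t u' = -4
  hb : t b = -5
  hv : t v = 1

/-- The strict relation has a perpendicular order. -/
def PerpR (r : X → X → Prop) : Prop :=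
  ∃ Q : PartialOrder X, ∀ f : X → X, Mono r f → (∀ x y, Q.le x y → Q.le (f x) (f y)) →
    f = id ∨ ∃ c, ∀ x, f x = c

/-- Moving w to e and fixing all other points respects the relation. -/
def Dom (r : X → X → Prop) (w e : X) : Prop :=
  ∀ z, z ≠ w → (r w z → e = z ∨ r e z) ∧ (r z w → z = e ∨ r z e)

variable {r : X → X → Prop} {l l' u u' b a v : X} {t : X → ℤ} {f : X → X}

theorem PerpR.of_flip (h : PerpR fun x y => r y x) : PerpR r := by
  obtain ⟨Q, hQ⟩ := h
  exact ⟨Q, fun f hf => hQ f hf.flip⟩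

theorem PerpR.perp {P : PartialOrder X} (h : PerpR P.lt) :
    ∃ Q : PartialOrder X, ∀ f : X → X, (∀ x y, P.le x y → P.le (f x) (f y)) →
      (∀ x y, Q.le x y → Q.le (f x) (f y)) → f = id ∨ ∃ c, ∀ x, f x = c := by
  obtain ⟨Q, hQ⟩ := h
  exact ⟨Q, fun f hf => hQ f (mono_of_le P hf)⟩

/-- Kernel classes are convex. -/
theorem Mono.between (hf : Mono r f) (asymm : ∀ x y, r x y → ¬ r y x) {x z y : X} (h1 : r x z)
    (h2 : r z y) (h : f x = f y) : f z = f x := by
  rcases hf x z h1 with h3 | h3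
  · exact h3.symm
  · rcases hf z y h2 with h4 | h4
    · rw [h4, h]
    · exact absurd (h ▸ h4) (asymm _ _ h3)

/-- The marker relation pulled back to the points. -/
def MkR (t : X → ℤ) (a x y : X) : Prop := Mk (t a) (t x) (t y)

theorem Frame.asymm (h : Frame l l' u u' b a v t) (x y : X) (h1 : MkR t a x y) :
    ¬ MkR t a y x := by
  have := h.big
  unfold MkR Mk at h1 ⊢
  omega

theorem Frame.perp (h : Frame l l' u u' b a v t)
    (hg : ∀ f, Mono r f → Mono (MkR t a) f → f = id ∨ ∃ c, ∀ x, f x = c) : PerpR r := by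
  refine ⟨{ le := fun x y => x = y ∨ MkR t a x y
            le_refl := fun _ => Or.inl rfl
            le_trans := ?_
            le_antisymm := ?_ }, fun f h1 h2 => hg f h1 fun x y hxy => h2 x y (Or.inr hxy)⟩
  · rintro x y z (rfl | h1) h2
    · exact h2
    · rcases h2 with rfl | h2
      · exact Or.inr h1
      · right
        have := h.big
        have := h.odd
        unfold MkR Mk at h1 h2 ⊢
        omega
  · rintro x y (rfl | h1) h2
    · rfl
    · rcases h2 with rfl | h2
      · rfl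
      · exact absurd h2 (h.asymm _ _ h1)

theorem Frame.cases (h : Frame l l' u u' b a v t) (z : X) :
    z = l ∨ z = l' ∨ z = u ∨ z = u' ∨ z = b ∨ 0 ≤ t z := by
  have h1 := h.lo z
  have : t z = t l ∨ t z = t l' ∨ t z = t u ∨ t z = t u' ∨ t z = t b ∨ 0 ≤ t z := by
    rw [h.hl, h.hl', h.hu, h.hu', h.hb]
    omega
  rcases this with h2 | h2 | h2 | h2 | h2 | h2
  exacts [Or.inl (h.inj _ _ h2), Or.inr (Or.inl (h.inj _ _ h2)),
    Or.inr (Or.inr (Or.inl (h.inj _ _ h2))), Or.inr (Or.inr (Or.inr (Or.inl (h.inj _ _ h2)))),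
    Or.inr (Or.inr (Or.inr (Or.inr (Or.inl (h.inj _ _ h2))))),
    Or.inr (Or.inr (Or.inr (Or.inr (Or.inr h2))))]

/-- Identifying l with an upper marker collapses the crown. -/
theorem Frame.crown (h : Frame l l' u u' b a v t) (hq : Mono (MkR t a) f) {m : X}
    (hm : m = u ∨ m = u') (he : f l = f m) {z : X} (hz : z = b ∨ 0 ≤ t z) : f z = f l := by
  have h1 : t z = -5 ∨ 0 ≤ t z := hz.imp_left fun hh => by rw [hh, h.hb]
  have h2 : t m = -3 ∨ t m = -4 := hm.imp (fun hh => by rw [hh, h.hu]) fun hh => by rw [hh, h.hu']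
  have h3 := h.hl
  refine hq.between h.asymm ?_ ?_ he <;> unfold MkR Mk <;> omega

/-- Identifying l' with an upper marker collapses the zone. -/
theorem Frame.zone (h : Frame l l' u u' b a v t) (hq : Mono (MkR t a) f) {m : X}
    (hm : m = u ∨ m = u') (he : f l' = f m) {z : X} (hz : 0 ≤ t z) : f z = f l' := by
  have h2 : t m = -3 ∨ t m = -4 := hm.imp (fun hh => by rw [hh, h.hu]) fun hh => by rw [hh, h.hu']
  have h3 := h.hl'
  refine hq.between h.asymm ?_ ?_ he <;> unfold MkR Mk <;> omega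

/-- The shape of a chain with four points. -/
theorem Frame.chain (h : Frame l l' u u' b a v t) {p x y s : X} (h1 : MkR t a p x)
    (h2 : MkR t a x y) (h3 : MkR t a y s) : (p = l ∨ p = l') ∧ (s = u ∨ s = u') ∧
      ((x = b ∧ (y = v ∨ y = a)) ∨
        (0 ≤ t x ∧ 0 ≤ t y ∧ t x % 2 = 0 ∧ (t y = t x + 1 ∨ t x = t y + 1))) := by
  have := h.big
  have := h.odd
  have key : (t p = t l ∨ t p = t l') ∧ (t s = t u ∨ t s = t u') ∧
      ((t x = t b ∧ (t y = t v ∨ t y = t a)) ∨
        (0 ≤ t x ∧ 0 ≤ t y ∧ t x % 2 = 0 ∧ (t y = t x + 1 ∨ t x = t y + 1))) := by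
    unfold MkR Mk at h1 h2 h3
    rw [h.hl, h.hl', h.hu, h.hu', h.hb, h.hv]
    omega
  exact ⟨key.1.imp (h.inj _ _) (h.inj _ _), key.2.1.imp (h.inj _ _) (h.inj _ _),
    key.2.2.imp_left fun hh => ⟨h.inj _ _ hh.1, hh.2.imp (h.inj _ _) (h.inj _ _)⟩⟩

/-- A map fixing the markers and both ends of the fence is the identity. -/
theorem Frame.finish (h : Frame l l' u u' b a v t) (hf : Mono r f) (hq : Mono (MkR t a) f)
    (e1 : f l = l) (e2 : f l' = l') (e3 : f u = u) (e4 : f u' = u') (e5 : f b = b) (e6 : f a = a)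
    (e7 : f v ≠ a) (hw : ∀ w e, t w = 0 → t e = 1 ∨ t e = 2 → ¬ Dom r w e) : f = id := by
  have hq' : ∀ x y, Mk (t a) (t x) (t y) → t (f x) = t (f y) ∨ Mk (t a) (t (f x)) (t (f y)) :=
    fun x y hxy => (hq x y hxy).imp_left (congrArg t)
  have hbig := h.big
  have hodd := h.odd
  have hz : ∀ z, 0 ≤ t z → 0 ≤ t (f z) := by
    intro z hz
    have a1 := hq' l z (by have := h.hl; unfold Mk; omega)
    have a2 := hq' l' z (by have := h.hl'; unfold Mk; omega)
    have a3 := hq' z u (by have := h.hu; unfold Mk; omega)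
    have a4 := hq' z u' (by have := h.hu'; unfold Mk; omega)
    rw [e1, h.hl] at a1
    rw [e2, h.hl'] at a2
    rw [e3, h.hu] at a3
    rw [e4, h.hu'] at a4
    unfold Mk at a1 a2 a3 a4
    omega
  have hn : ∀ x y, 0 ≤ t x → t y = t x + 1 →
      t (f y) ≤ t (f x) + 1 ∧ t (f x) ≤ t (f y) + 1 := by
    intro x y hx hy
    have a1 := hz x hx
    have a2 := hz y (by omega)
    by_cases hp : t x % 2 = 0
    · have a3 := hq' x y (by unfold Mk; omega)
      unfold Mk at a3
      omega
    · have a3 := hq' y x (by unfold Mk; omega)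
      unfold Mk at a3
      omega
  have hv : t (f v) = 1 := by
    have a1 := hz v (by rw [h.hv]; omega)
    have a2 := hq' b v (by have := h.hb; have := h.hv; unfold Mk; omega)
    have a3 : t (f v) ≠ t a := fun hh => e7 (h.inj _ _ hh)
    rw [e5, h.hb] at a2
    unfold Mk at a2
    omega
  have up : ∀ k : ℕ, ∀ z, t z = 1 + k → t (f z) ≤ t z := by
    intro k
    induction' k with k ih
    · intro z hz
      rw [h.inj z v (by rw [h.hv]; simpa using hz), hv, h.hv]
    · intro z hz
      have := h.hi z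
      obtain ⟨y, hy⟩ := h.conv (1 + k) (by omega) (by push_cast at hz; omega)
      have a1 := ih y hy
      have a2 := hn y z (by omega) (by push_cast at hz; omega)
      push_cast at hz
      omega
  have down : ∀ k : ℕ, ∀ z, 1 ≤ t z → t z + k = t a → t z ≤ t (f z) := by
    intro k
    induction' k with k ih
    · intro z _ hz
      rw [h.inj z a (by simpa using hz), e6]
    · intro z h1 hz
      push_cast at hz
      obtain ⟨y, hy⟩ := h.conv (t z + 1) (by omega) (by omega)
      have a1 := ih y (by omega) (by omega)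
      have a2 := hn z y (by omega) hy
      omega
  have fix : ∀ z, t z ≠ 0 → f z = z := by
    intro z hz0
    rcases h.cases z with rfl | rfl | rfl | rfl | rfl | h1
    · exact e1
    · exact e2
    · exact e3
    · exact e4
    · exact e5
    · have := h.hi z
      have a1 := up (t z - 1).toNat z (by omega)
      have a2 := down (t a - t z).toNat z (by omega) (by omega)
      exact h.inj _ _ (by omega)
  funext w
  by_cases h0 : t w = 0
  · by_contra hne
    have a1 : t (f w) ≠ 0 := fun hh => hne (h.inj _ _ (hh.trans h0.symm))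
    have a2 := hz w (by omega)
    have a3 := hn w v (by omega) (by rw [h.hv, h0]; rfl)
    refine hw w (f w) h0 (by omega) fun z hzw => ?_
    have a4 : f z = z := fix z fun hh => hzw (h.inj _ _ (hh.trans h0.symm))
    exact ⟨fun hh => a4 ▸ hf w z hh, fun hh => a4 ▸ hf z w hh⟩
  · exact fix w h0

/-- The marker order is perpendicular when the six special points form a chain. -/
theorem Frame.six (h : Frame l l' u u' b a v t) (trans : ∀ x y z, r x y → r y z → r x z)
    (asymm : ∀ x y, r x y → ¬ r y x) (c1 : r a l) (c2 : r l u') (c3 : r u' l') (c4 : r l' u)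
    (c5 : r u b) (hv : r l v)
    (hE : ∀ x y, 0 ≤ t x → 0 ≤ t y → t x % 2 = 0 → t y = t x + 1 ∨ t x = t y + 1 →
      r u' x → ¬ r y l)
    (hw : ∀ w e, t w = 0 → t e = 1 ∨ t e = 2 → ¬ Dom r w e) : PerpR r := by
  refine h.perp fun f hf hq => ?_
  by_cases hc : ∃ c, ∀ x, f x = c
  · exact Or.inr hc
  left
  have hbig := h.big
  have hodd := h.odd
  have ha0 : 0 ≤ t a := by omega
  have c13 := trans _ _ _ c1 c2
  have c14 := trans _ _ _ c13 c3
  have c15 := trans _ _ _ c14 c4
  have c24 := trans _ _ _ c2 c3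
  have c35 := trans _ _ _ c3 c4
  have c46 := trans _ _ _ c4 c5
  have c36 := trans _ _ _ c3 c46
  have n1 : ∀ m, m = u ∨ m = u' → f l ≠ f m := by
    intro m hm he
    have hab : f a = f b := by rw [h.crown hq hm he (Or.inr ha0), h.crown hq hm he (Or.inl rfl)]
    have ha : f a = f l := h.crown hq hm he (Or.inr ha0)
    refine hc ⟨f l, fun z => ?_⟩
    rcases h.cases z with rfl | rfl | rfl | rfl | hz | hz
    · rfl
    · rw [hf.between asymm c14 c46 hab, ha]
    · rw [hf.between asymm c15 c5 hab, ha]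
    · rw [hf.between asymm c13 c36 hab, ha]
    · exact h.crown hq hm he (Or.inl hz)
    · exact h.crown hq hm he (Or.inr hz)
  have n2 : ∀ m, m = u ∨ m = u' → f l' ≠ f m := by
    intro m hm he
    have ha : f a = f l' := h.zone hq hm he ha0
    exact n1 m hm (by rw [hf.between asymm c1 c24 ha, ha, he])
  have q1 : MkR t a (f l) (f b) :=
    (hq l b (by have := h.hl; have := h.hb; unfold MkR Mk; omega)).resolve_left
      fun he => n1 u' (Or.inr rfl) (hf.between asymm c2 c36 he).symm
  have q2 : MkR t a (f b) (f a) := (hq b a (by have := h.hb; unfold MkR Mk; omega)).resolve_left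
    fun he => n1 u' (Or.inr rfl) (by
      rw [hf.between asymm c1 (trans _ _ _ c2 c36) he.symm, hf.between asymm c13 c36 he.symm])
  have q3 : MkR t a (f a) (f u) := (hq a u (by have := h.hu; unfold MkR Mk; omega)).resolve_left
    fun he => n1 u (Or.inl rfl) (by rw [hf.between asymm c1 (trans _ _ _ c2 c35) he, he])
  have q4 : MkR t a (f a) (f u') := (hq a u' (by have := h.hu'; unfold MkR Mk; omega)).resolve_left
    fun he => n1 u' (Or.inr rfl) (by rw [hf.between asymm c1 c2 he, he])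
  obtain ⟨k1, k2, k3⟩ := h.chain q1 q2 q3
  obtain ⟨-, k4, -⟩ := h.chain q1 q2 q4
  have p1 : r (f l) (f u') := (hf _ _ c2).resolve_left (n1 u' (Or.inr rfl))
  have p2 : r (f u') (f l') := (hf _ _ c3).resolve_left fun he => n2 u' (Or.inr rfl) he.symm
  have p3 : r (f l') (f u) := (hf _ _ c4).resolve_left (n2 u (Or.inl rfl))
  have p4 := trans _ _ _ p2 p3
  have irr : ∀ x, ¬ r x x := fun x hx => asymm _ _ hx hx
  have e4 : f u' = u' := k4.resolve_left fun he => by
    rcases k2 with h1 | h1 <;> rw [he, h1] at p4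
    exacts [irr _ p4, asymm _ _ p4 c35]
  have e3 : f u = u := k2.resolve_right fun he => by
    rw [he, e4] at p4
    exact irr _ p4
  have e1 : f l = l := k1.resolve_right fun he => by
    rw [he, e4] at p1
    exact asymm _ _ p1 c3
  have p5 : r (f a) l := by
    rcases hf _ _ c1 with he | he
    · rw [he] at q2
      exact absurd q2 (h.asymm _ _ q1)
    · rwa [e1] at he
  have p6 : r u' (f b) := by
    rcases hf _ _ c36 with he | he
    · rw [← he] at q2
      exact absurd q2 (h.asymm _ _ q4)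
    · rwa [e4] at he
  obtain ⟨e5, e6⟩ : f b = b ∧ f a = a := by
    rcases k3 with ⟨h1, h2 | h2⟩ | ⟨h1, h2, h3, h4⟩
    · exact absurd (h2 ▸ p5) (asymm _ _ hv)
    · exact ⟨h1, h2⟩
    · exact absurd p5 (hE _ _ h1 h2 h3 h4 p6)
  rw [e4] at p2
  rw [e3] at p3
  have e2 : f l' = l' := by
    have q5 : MkR t a (f l') a := by
      rcases hq l' a (by have := h.hl'; unfold MkR Mk; omega) with he | he
      · rw [he, e6] at p2
        exact absurd p2 (asymm _ _ c13)
      · rwa [e6] at he
    rcases h.cases (f l') with h1 | h1 | h1 | h1 | h1 | h1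
    · exact absurd (h1 ▸ p2) (asymm _ _ c2)
    · exact h1
    · exact absurd (h1 ▸ p3) (irr _)
    · exact absurd (h1 ▸ p2) (irr _)
    · exact absurd (h1 ▸ p3) (asymm _ _ c5)
    · unfold MkR Mk at q5
      exact absurd c1 (hE _ a h1 ha0 (by omega) (by omega) p2)
  refine h.finish hf hq e1 e2 e3 e4 e5 e6 (fun he => ?_) hw
  rcases hf _ _ hv with h1 | h1
  · rw [e1, he] at h1
    exact irr _ (h1 ▸ c1)
  · rw [e1, he] at h1
    exact asymm _ _ h1 c1

/-- The marker order is perpendicular when the special points lie on two chains. -/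
theorem Frame.two {x : X} (h : Frame l l' u u' b a v t) (trans : ∀ x y z, r x y → r y z → r x z)
    (asymm : ∀ x y, r x y → ¬ r y x) (c1 : r a l) (c2 : r l u) (c3 : r u b) (d1 : r x u')
    (d2 : r u' l') (d3 : r l' v) (i1 : ¬ r l u') (i2 : ¬ r u' l) (i3 : ¬ r u l') (i4 : ¬ r l' u)
    (hx : t x = 0 ∨ t x = 2) (hz : ∃ z, 0 ≤ t z ∧ r l z)
    (hE : ∀ x y, 0 ≤ t x → 0 ≤ t y → t x % 2 = 0 → t y = t x + 1 ∨ t x = t y + 1 →
      r u x → ¬ r y l)
    (hw : ∀ w e, t w = 0 → t e = 1 ∨ t e = 2 → ¬ Dom r w e) : PerpR r := by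
  refine h.perp fun f hf hq => ?_
  by_cases hc : ∃ c, ∀ x, f x = c
  · exact Or.inr hc
  left
  have hbig := h.big
  have hodd := h.odd
  have ha0 : 0 ≤ t a := by omega
  have hv0 : 0 ≤ t v := by rw [h.hv]; omega
  have hx0 : 0 ≤ t x := by omega
  have c13 := trans _ _ _ c1 c2
  have c24 := trans _ _ _ c2 c3
  have d13 := trans _ _ _ d1 d2
  have d24 := trans _ _ _ d2 d3
  have irr : ∀ x, ¬ r x x := fun x hx => asymm _ _ hx hx
  have n1 : ∀ m, m = u ∨ m = u' → f l ≠ f m := by
    intro m hm he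
    have g : ∀ z, z = b ∨ 0 ≤ t z → f z = f l := fun z hz => h.crown hq hm he hz
    have hab : f a = f b := by rw [g a (Or.inr ha0), g b (Or.inl rfl)]
    have hxv : f x = f v := by rw [g x (Or.inr hx0), g v (Or.inr hv0)]
    refine hc ⟨f l, fun z => ?_⟩
    rcases h.cases z with rfl | rfl | rfl | rfl | hz | hz
    · rfl
    · rw [hf.between asymm d13 d3 hxv, g x (Or.inr hx0)]
    · rw [hf.between asymm c13 c3 hab, g a (Or.inr ha0)]
    · rw [hf.between asymm d1 d24 hxv, g x (Or.inr hx0)]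
    · exact g z (Or.inl hz)
    · exact g z (Or.inr hz)
  have n2 : ∀ m, m = u ∨ m = u' → f l' ≠ f m := by
    intro m hm he
    obtain ⟨z, hz0, hz⟩ := hz
    have ha : f a = f l' := h.zone hq hm he ha0
    exact n1 m hm (by rw [hf.between asymm c1 hz (ha.trans (h.zone hq hm he hz0).symm), ha, he])
  have q1 : MkR t a (f l) (f b) :=
    (hq l b (by have := h.hl; have := h.hb; unfold MkR Mk; omega)).resolve_left
      fun he => n1 u (Or.inl rfl) (hf.between asymm c2 c3 he).symm
  have q2 : MkR t a (f b) (f a) := (hq b a (by have := h.hb; unfold MkR Mk; omega)).resolve_left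
    fun he => n1 u (Or.inl rfl) (by
      rw [hf.between asymm c1 c24 he.symm, hf.between asymm c13 c3 he.symm])
  have q3 : MkR t a (f a) (f u) := (hq a u (by have := h.hu; unfold MkR Mk; omega)).resolve_left
    fun he => n1 u (Or.inl rfl) (by rw [hf.between asymm c1 c2 he, he])
  have s1 : MkR t a (f l') (f x) :=
    (hq l' x (by have := h.hl'; unfold MkR Mk; omega)).resolve_left
      fun he => n2 u' (Or.inr rfl) (by rw [hf.between asymm d1 d2 he.symm, he])
  have s2 : MkR t a (f x) (f v) := (hq x v (by have := h.hv; unfold MkR Mk; omega)).resolve_left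
    fun he => n2 u' (Or.inr rfl) (by
      rw [hf.between asymm d13 d3 he, hf.between asymm d1 d24 he])
  have s3 : MkR t a (f v) (f u') := (hq v u' (by have := h.hu'; unfold MkR Mk; omega)).resolve_left
    fun he => n2 u' (Or.inr rfl) (hf.between asymm d2 d3 he.symm)
  obtain ⟨k1, k2, k3⟩ := h.chain q1 q2 q3
  obtain ⟨k4, k5, -⟩ := h.chain s1 s2 s3
  have p1 : r (f l) (f u) := (hf _ _ c2).resolve_left (n1 u (Or.inl rfl))
  have p2 : r (f u') (f l') := (hf _ _ d2).resolve_left fun he => n2 u' (Or.inr rfl) he.symm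
  obtain ⟨e1, e3⟩ : f l = l ∧ f u = u := by
    rcases k1 with h1 | h1 <;> rcases k2 with h2 | h2 <;> rw [h1, h2] at p1
    exacts [⟨h1, h2⟩, absurd p1 i1, absurd p1 i4, absurd p1 (asymm _ _ d2)]
  obtain ⟨e2, e4⟩ : f l' = l' ∧ f u' = u' := by
    rcases k4 with h1 | h1 <;> rcases k5 with h2 | h2 <;> rw [h1, h2] at p2
    exacts [absurd p2 (asymm _ _ c2), absurd p2 i2, absurd p2 i3, ⟨h1, h2⟩]
  have p5 : r (f a) l := by
    rcases hf _ _ c1 with he | he
    · rw [he] at q2
      exact absurd q2 (h.asymm _ _ q1)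
    · rwa [e1] at he
  have p6 : r u (f b) := by
    rcases hf _ _ c3 with he | he
    · rw [← he] at q2
      exact absurd q2 (h.asymm _ _ q3)
    · rwa [e3] at he
  obtain ⟨e5, e6⟩ : f b = b ∧ f a = a := by
    rcases k3 with ⟨h1, h2 | h2⟩ | ⟨h1, h2, h3, h4⟩
    · exact absurd (trans _ _ _ d24 (h2 ▸ p5)) i2
    · exact ⟨h1, h2⟩
    · exact absurd p5 (hE _ _ h1 h2 h3 h4 p6)
  refine h.finish hf hq e1 e2 e3 e4 e5 e6 (fun he => ?_) hw
  rcases hf _ _ d3 with h1 | h1
  · rw [e2, he] at h1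
    exact i4 (h1 ▸ c13)
  · rw [e2, he] at h1
    exact i4 (trans _ _ _ h1 c13)

end Pool.Agent.Lib.MP_04ca4f_co
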