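import Pool.Agent.Lib.MP_04ca4f_co.MarkTwo

/-!
# Frames sorted by keys, and a potential for domination
-/

set_option autoImplicit false

namespace Pool.Agent.Lib.MP_04ca4f_co

variable {X : Type*}

/-- An enumeration of a finite set that is increasing for the keys. -/
theorem exists_rank_key (F : Finset X) (key : X → ℕ) : ∃ s : X → ℕ,
    (∀ x ∈ F, ∀ y ∈ F, s x = s y → x = y) ∧ (∀ x ∈ F, s x < F.card) ∧
      (∀ k < F.card, ∃ x ∈ F, s x = k) ∧ ∀ x ∈ F, ∀ y ∈ F, key x < key y → s x < s y := by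
  classical
  let ρ : F → ℕ ×ₗ Fin F.card := fun x => toLex (key x, F.equivFin x)
  have hρ : Function.Injective ρ := fun x y h =>
    F.equivFin.injective (congrArg Prod.snd (toLex.injective h))
  let _ : LinearOrder F := LinearOrder.lift' ρ hρ
  let φ : Fin F.card ≃o F := monoEquivOfFin F (Fintype.card_coe F)
  let s : X → ℕ := fun x => if h : x ∈ F then (φ.symm ⟨x, h⟩ : ℕ) else 0
  have hs : ∀ x (h : x ∈ F), s x = (φ.symm ⟨x, h⟩ : ℕ) := fun x h => dif_pos h
  refine ⟨s, fun x hx y hy h => ?_, fun x hx => ?_, fun k hk => ?_, fun x hx y hy h => ?_⟩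
  · rw [hs x hx, hs y hy] at h
    exact congrArg Subtype.val (φ.symm.injective (Fin.ext h))
  · rw [hs x hx]
    exact (φ.symm ⟨x, hx⟩).2
  · refine ⟨φ ⟨k, hk⟩, (φ ⟨k, hk⟩).2, ?_⟩
    rw [hs _ (φ ⟨k, hk⟩).2]
    simp only [Subtype.coe_eta, OrderIso.symm_apply_apply]
  · rw [hs x hx, hs y hy, Fin.val_fin_lt, φ.symm.lt_iff_lt]
    exact Prod.Lex.toLex_lt_toLex.mpr (Or.inl h)

/-- The points with small keys fill the odd places first. -/
theorem exists_interleave_key (F : Finset X) (key : X → ℕ) (p : ℤ)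
    (hp : (p = 2 ∧ F.card % 2 = 1) ∨ (p = 3 ∧ F.card % 2 = 0)) : ∃ g : X → ℤ,
      (∀ x ∈ F, ∀ y ∈ F, g x = g y → x = y) ∧ (∀ x ∈ F, p ≤ g x ∧ g x < p + F.card) ∧
      (∀ k, p ≤ k → k < p + F.card → ∃ x ∈ F, g x = k) ∧
      ∀ x ∈ F, ∀ y ∈ F, key x < key y → ¬ (g x % 2 = 0 ∧ g y % 2 = 1) ∧ g x + 1 ≠ p + F.card := by
  obtain ⟨s, h1, h2, h3, h4⟩ := exists_rank_key F key
  let g : X → ℤ := fun x => if s x < F.card / 2 then 3 + 2 * (s x : ℤ)
    else 2 * p - 2 + 2 * ((s x : ℤ) - (F.card / 2 : ℕ))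
  have hg : ∀ x, (s x < F.card / 2 ∧ g x = 3 + 2 * (s x : ℤ)) ∨
      (¬ s x < F.card / 2 ∧ g x = 2 * p - 2 + 2 * ((s x : ℤ) - (F.card / 2 : ℕ))) := fun x =>
    (em (s x < F.card / 2)).imp (fun h => ⟨h, if_pos h⟩) fun h => ⟨h, if_neg h⟩
  refine ⟨g, fun x hx y hy h => h1 x hx y hy ?_, fun x hx => ?_, fun k k1 k2 => ?_,
    fun x hx y hy u1 => ?_⟩
  · have := hg x
    have := hg y
    omega
  · have := hg x
    have := h2 x hx
    omega
  · by_cases hk : k % 2 = 1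
    · obtain ⟨x, hx, h⟩ := h3 ((k - 3) / 2).toNat (by omega)
      have := hg x
      exact ⟨x, hx, by omega⟩
    · obtain ⟨x, hx, h⟩ := h3 (F.card / 2 + ((k - (2 * p - 2)) / 2).toNat) (by omega)
      have := hg x
      exact ⟨x, hx, by omega⟩
  · have := hg x
    have := hg y
    have := h2 x hx
    have := h2 y hy
    have := h4 x hx y hy u1
    omega

/-- A frame with prescribed special points. The point w is either v or an extra point with
place 0 or 2. -/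
theorem exists_frame_key {l l' u u' b a v w : X} (hd : [l, l', u, u', b, a, v].Nodup)
    (hw : w = v ∨ w ∉ [l, l', u, u', b, a, v]) (F : Finset X)
    (hF : ∀ z, z ∈ F ↔ z ∉ [l, l', u, u', b, a, v, w]) (key : X → ℕ) (c : ℤ)
    (hc : ((w = v ∨ c = 0) ∧ F.card % 2 = 1) ∨ (w ≠ v ∧ c = 2 ∧ F.card % 2 = 0)) :
    ∃ t : X → ℤ, Frame l l' u u' b a v t ∧ (w ≠ v → t w = c) ∧ (∀ z ∈ F, 2 ≤ t z) ∧
      ∀ x ∈ F, ∀ y ∈ F, key x < key y → ¬ (t x % 2 = 0 ∧ t y % 2 = 1) ∧ t x + 1 ≠ t a := by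
  classical
  obtain ⟨p, hp1, hp2⟩ : ∃ p : ℤ, ((p = 2 ∧ F.card % 2 = 1) ∨ (p = 3 ∧ F.card % 2 = 0)) ∧
      ((p = 2 ∧ (w = v ∨ c = 0)) ∨ (p = 3 ∧ w ≠ v ∧ c = 2)) := by
    rcases hc with h | h
    · exact ⟨2, Or.inl ⟨rfl, h.2⟩, Or.inl ⟨rfl, h.1⟩⟩
    · exact ⟨3, Or.inr ⟨rfl, h.2.2⟩, Or.inr ⟨rfl, h.1, h.2.1⟩⟩
  obtain ⟨g, g1, g2, g3, g4⟩ := exists_interleave_key F key p hp1
  let t : X → ℤ := fun z => if z = l then -1 else if z = l' then -2 else if z = u then -3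
    else if z = u' then -4 else if z = b then -5 else if z = a then p + F.card
    else if z = v then 1 else if z = w then c else g z
  simp only [List.nodup_cons, List.mem_cons, List.not_mem_nil, or_false, not_or] at hd hw hF
  obtain ⟨⟨d1, d2, d3, d4, d5, d6⟩, ⟨d7, d8, d9, d10, d11⟩, ⟨d12, d13, d14, d15⟩,
    ⟨d16, d17, d18⟩, ⟨d19, d20⟩, d21, -⟩ := hd
  have t1 : t l = -1 := if_pos rfl
  have t2 : t l' = -2 := by simp only [t, if_neg (Ne.symm d1), if_true]
  have t3 : t u = -3 := by simp only [t, if_neg (Ne.symm d2), if_neg (Ne.symm d7), if_true]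
  have t4 : t u' = -4 := by
    simp only [t, if_neg (Ne.symm d3), if_neg (Ne.symm d8), if_neg (Ne.symm d12), if_true]
  have t5 : t b = -5 := by
    simp only [t, if_neg (Ne.symm d4), if_neg (Ne.symm d9), if_neg (Ne.symm d13),
      if_neg (Ne.symm d16), if_true]
  have t6 : t a = p + F.card := by
    simp only [t, if_neg (Ne.symm d5), if_neg (Ne.symm d10), if_neg (Ne.symm d14),
      if_neg (Ne.symm d17), if_neg (Ne.symm d19), if_true]
  have t7 : t v = 1 := by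
    simp only [t, if_neg (Ne.symm d6), if_neg (Ne.symm d11), if_neg (Ne.symm d15),
      if_neg (Ne.symm d18), if_neg (Ne.symm d20), if_neg (Ne.symm d21), if_true]
  have t8 : w ≠ v → t w = c := fun h => by
    obtain ⟨e1, e2, e3, e4, e5, e6, e7⟩ := hw.resolve_left h
    simp only [t, if_neg e1, if_neg e2, if_neg e3, if_neg e4, if_neg e5, if_neg e6, if_neg e7,
      if_true]
  have t9 : ∀ z ∈ F, t z = g z := fun z hz => by
    obtain ⟨e1, e2, e3, e4, e5, e6, e7, e8⟩ := (hF z).mp hz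
    simp only [t, if_neg e1, if_neg e2, if_neg e3, if_neg e4, if_neg e5, if_neg e6, if_neg e7,
      if_neg e8]
  have hcase : ∀ z, (z = l ∧ t z = -1) ∨ (z = l' ∧ t z = -2) ∨ (z = u ∧ t z = -3) ∨
      (z = u' ∧ t z = -4) ∨ (z = b ∧ t z = -5) ∨ (z = a ∧ t z = p + F.card) ∨
      (z = v ∧ t z = 1) ∨ (z = w ∧ t z = c ∧ ((p = 2 ∧ c = 0) ∨ (p = 3 ∧ c = 2))) ∨
      (z ∈ F ∧ p ≤ t z ∧ t z < p + F.card) := by
    intro z
    by_cases e1 : z = l
    · exact Or.inl ⟨e1, e1 ▸ t1⟩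
    by_cases e2 : z = l'
    · exact Or.inr (Or.inl ⟨e2, e2 ▸ t2⟩)
    by_cases e3 : z = u
    · exact Or.inr (Or.inr (Or.inl ⟨e3, e3 ▸ t3⟩))
    by_cases e4 : z = u'
    · exact Or.inr (Or.inr (Or.inr (Or.inl ⟨e4, e4 ▸ t4⟩)))
    by_cases e5 : z = b
    · exact Or.inr (Or.inr (Or.inr (Or.inr (Or.inl ⟨e5, e5 ▸ t5⟩))))
    right; right; right; right; right
    by_cases e6 : z = a
    · exact Or.inl ⟨e6, e6 ▸ t6⟩
    by_cases e7 : z = v
    · exact Or.inr (Or.inl ⟨e7, e7 ▸ t7⟩)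
    by_cases e8 : z = w
    · have h : w ≠ v := e8 ▸ e7
      exact Or.inr (Or.inr (Or.inl ⟨e8, e8 ▸ t8 h,
        hp2.imp (fun h' => ⟨h'.1, h'.2.resolve_left h⟩) fun h' => ⟨h'.1, h'.2.2⟩⟩))
    · have hz := (hF z).mpr ⟨e1, e2, e3, e4, e5, e6, e7, e8⟩
      exact Or.inr (Or.inr (Or.inr ⟨hz, t9 z hz ▸ g2 z hz⟩))
  refine ⟨t, ⟨fun x y h => ?_, fun x => ?_, fun x => ?_, fun k k1 k2 => ?_, by omega, by omega,
    t1, t2, t3, t4, t5, t7⟩, t8, fun z hz => ?_, fun x hx y hy u1 => ?_⟩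
  · rcases hcase x with a | a | a | a | a | a | a | a | a <;>
      rcases hcase y with b | b | b | b | b | b | b | b | b <;>
      first
        | exact a.1.trans b.1.symm
        | exact g1 x a.1 y b.1 (by rw [← t9 x a.1, ← t9 y b.1, h])
        | omega
  · have := hcase x
    omega
  · have := hcase x
    omega
  · by_cases e1 : k = 1
    · exact ⟨v, by omega⟩
    by_cases e2 : k = p + F.card
    · exact ⟨a, by omega⟩
    by_cases e3 : p ≤ k
    · obtain ⟨x, hx, h⟩ := g3 k e3 (by omega)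
      exact ⟨x, by rw [t9 x hx, h]⟩
    · rcases hp2 with h | h
      · omega
      · exact ⟨w, by rw [t8 h.2.1]; omega⟩
  · have := g2 z hz
    rw [t9 z hz]
    omega
  · rw [t9 x hx, t9 y hy, t6]
    exact g4 x hx y hy u1

variable {r : X → X → Prop}

/-- Domination increases the number of comparabilities. -/
theorem Prime.exists_pot [Finite X] (h : Prime r) (h3 : ∀ x y : X, ∃ z, z ≠ x ∧ z ≠ y)
    (asymm : ∀ x y, r x y → ¬ r y x) : ∃ c : X → ℕ, ∀ w e, e ≠ w → Dom r w e → c w < c e := by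
  classical
  cases nonempty_fintype X
  let C : X → Finset X := fun w => Finset.univ.filter fun z => r w z ∨ r z w
  have hC : ∀ w z, z ∈ C w ↔ r w z ∨ r z w := fun w z => by simp [C]
  refine ⟨fun w => (C w).card, fun w e hne hd => ?_⟩
  by_contra hmax
  refine hne.symm (h.not_dom h3 hd ?_)
  have hsub : (C w).map (Equiv.swap w e).toEmbedding ⊆ C e := by
    intro z hz
    obtain ⟨y, hy, rfl⟩ := Finset.mem_map.mp hz
    rw [hC] at hy
    have h1 : y ≠ w := fun a => by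
      rw [a] at hy
      exact hy.elim (fun a => asymm _ _ a a) fun a => asymm _ _ a a
    rw [hC, Equiv.coe_toEmbedding]
    by_cases h2 : y = e
    · rw [h2, Equiv.swap_apply_right]
      exact h2 ▸ hy.symm
    · rw [Equiv.swap_apply_of_ne_of_ne h1 h2]
      exact hy.imp (fun a => ((hd y h1).1 a).resolve_left (Ne.symm h2))
        fun a => ((hd y h1).2 a).resolve_left h2
  have heq := Finset.eq_of_subset_of_card_le hsub (by rw [Finset.card_map]; exact not_lt.mp hmax)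
  intro z hz
  by_cases h1 : z = w
  · exact ⟨fun _ => Or.inl h1.symm, fun _ => Or.inl h1⟩
  have key : r e z ∨ r z e → r w z ∨ r z w := fun a => by
    have h2 := (hC e z).mpr a
    rw [← heq, Finset.mem_map_equiv, Equiv.symm_swap, Equiv.swap_apply_of_ne_of_ne h1 hz] at h2
    exact (hC w z).mp h2
  refine ⟨fun a => Or.inr ((key (Or.inl a)).resolve_right fun b => ?_),
    fun a => Or.inr ((key (Or.inr a)).resolve_left fun b => ?_)⟩
  · exact asymm _ _ a (((hd z h1).2 b).resolve_left hz)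
  · exact asymm _ _ a (((hd z h1).1 b).resolve_left (Ne.symm hz))

end Pool.Agent.Lib.MP_04ca4f_co
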