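import Pool.Agent.Lib.MP_04ca4f_co.MarkKey

/-!
# The marker order with two points outside the zone
-/

set_option autoImplicit false

namespace Pool.Agent.Lib.MP_04ca4f_co

variable {X : Type*} {r : X → X → Prop} {l l' u u' b a v : X} {t : X → ℤ} {f : X → X}

/-- The marker relation in which the last place is not below the second upper marker. -/
def MkO (t : X → ℤ) (a x y : X) : Prop := Mk (t a) (t x) (t y) ∧ ¬ (t x = t a ∧ t y = -4)

theorem Frame.asymmO (h : Frame l l' u u' b a v t) (x y : X) (h1 : MkO t a x y) :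
    ¬ MkO t a y x := fun h2 => h.asymm x y h1.1 h2.1

theorem Frame.perpO (h : Frame l l' u u' b a v t)
    (hg : ∀ f, Mono r f → Mono (MkO t a) f → f = id ∨ ∃ c, ∀ x, f x = c) : PerpR r := by
  refine ⟨{ le := fun x y => x = y ∨ MkO t a x y
            le_refl := fun _ => Or.inl rfl
            le_trans := ?_
            le_antisymm := ?_ }, fun f h1 h2 => hg f h1 fun x y hxy => h2 x y (Or.inr hxy)⟩
  · rintro x y z (rfl | h1) h2
    · exact h2
    · rcases h2 with rfl | h2
      · exact Or.inr h1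
      · have := h.big
        have := h.odd
        obtain ⟨h1, -⟩ := h1
        obtain ⟨h2, -⟩ := h2
        refine Or.inr ⟨?_, ?_⟩ <;> unfold Mk at * <;> omega
  · rintro x y (rfl | h1) h2
    · rfl
    · rcases h2 with rfl | h2
      · rfl
      · exact absurd h2 (h.asymmO _ _ h1)

theorem Frame.chainO (h : Frame l l' u u' b a v t) {p x y s : X} (h1 : MkO t a p x)
    (h2 : MkO t a x y) (h3 : MkO t a y s) : (s = u ∨ s = u') ∧ (x = b → p = l) ∧ (y = a → s = u) ∧
      ((x = b ∧ (y = v ∨ y = a)) ∨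
        (0 ≤ t x ∧ 0 ≤ t y ∧ t x % 2 = 0 ∧ (t y = t x + 1 ∨ t x = t y + 1))) := by
  obtain ⟨k1, k2, k3⟩ := h.chain h1.1 h2.1 h3.1
  refine ⟨k2, fun e => k1.resolve_right fun e' => ?_, fun e => k2.resolve_right fun e' => ?_, k3⟩
  · have a1 := h.hb
    have a2 := h.hl'
    rw [e, e'] at h1
    unfold MkO Mk at h1
    omega
  · exact h3.2 ⟨by rw [e], by rw [e', h.hu']⟩

/-- A map fixing the six special points is the identity. -/
theorem Frame.finishO (h : Frame l l' u u' b a v t) (hf : Mono r f) (hq : Mono (MkO t a) f)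
    (e1 : f l = l) (e2 : f l' = l') (e3 : f u = u) (e4 : f u' = u') (e5 : f b = b) (e6 : f a = a)
    (hw : ∀ w e, t w = 0 → t e = 1 ∨ t e = 2 → ¬ Dom r w e) : f = id := by
  have hq' : ∀ x y, MkO t a x y → t (f x) = t (f y) ∨ MkO t a (f x) (f y) :=
    fun x y hxy => (hq x y hxy).imp_left (congrArg t)
  have hbig := h.big
  have hodd := h.odd
  have a1 := h.hl
  have a2 := h.hl'
  have a3 := h.hu
  have a4 := h.hu'
  have a5 := h.hb
  have a6 := h.hv
  have hz : ∀ z, 0 ≤ t z → t z < t a → 0 ≤ t (f z) ∧ t (f z) < t a := by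
    intro z hz hz'
    have := h.hi (f z)
    have b1 := hq' l z (by unfold MkO Mk; omega)
    have b2 := hq' l' z (by unfold MkO Mk; omega)
    have b3 := hq' z u (by unfold MkO Mk; omega)
    have b4 := hq' z u' (by unfold MkO Mk; omega)
    rw [e1] at b1
    rw [e2] at b2
    rw [e3] at b3
    rw [e4] at b4
    unfold MkO Mk at b1 b2 b3 b4
    omega
  have hn : ∀ x y, 0 ≤ t x → t y = t x + 1 → t y < t a →
      t (f y) ≤ t (f x) + 1 ∧ t (f x) ≤ t (f y) + 1 := by
    intro x y hx hy hy'
    have b1 := hz x hx (by omega)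
    have b2 := hz y (by omega) hy'
    by_cases hp : t x % 2 = 0
    · have b3 := hq' x y (by unfold MkO Mk; omega)
      unfold MkO Mk at b3
      omega
    · have b3 := hq' y x (by unfold MkO Mk; omega)
      unfold MkO Mk at b3
      omega
  have hv : t (f v) = 1 := by
    have b1 := hz v (by omega) (by omega)
    have b2 := hq' b v (by unfold MkO Mk; omega)
    rw [e5] at b2
    unfold MkO Mk at b2
    omega
  have up : ∀ k : ℕ, ∀ z, t z = 1 + k → t z < t a → t (f z) ≤ t z := by
    intro k
    induction' k with k ih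
    · intro z hz _
      rw [h.inj z v (by rw [h.hv]; simpa using hz), hv, h.hv]
    · intro z hz hz'
      push_cast at hz
      obtain ⟨y, hy⟩ := h.conv (1 + k) (by omega) (by omega)
      have b1 := ih y hy (by omega)
      have b2 := hn y z (by omega) (by omega) hz'
      omega
  have down : ∀ k : ℕ, ∀ z, 1 ≤ t z → t z + k + 1 = t a → t z ≤ t (f z) := by
    intro k
    induction' k with k ih
    · intro z h1 h2
      have b1 := hz z (by omega) (by omega)
      have b2 := hq' z a (by unfold MkO Mk; omega)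
      rw [e6] at b2
      unfold MkO Mk at b2
      omega
    · intro z h1 hz
      push_cast at hz
      obtain ⟨y, hy⟩ := h.conv (t z + 1) (by omega) (by omega)
      have b1 := ih y (by omega) (by omega)
      have b2 := hn z y (by omega) hy (by omega)
      omega
  have fix : ∀ z, t z ≠ 0 → f z = z := by
    intro z hz0
    rcases h.cases z with rfl | rfl | rfl | rfl | rfl | h1
    · exact e1
    · exact e2
    · exact e3
    · exact e4
    · exact e5
    · have := h.hi z
      by_cases h2 : t z = t a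
      · rw [h.inj _ _ h2, e6]
      · have b1 := up (t z - 1).toNat z (by omega) (by omega)
        have b2 := down (t a - t z - 1).toNat z (by omega) (by omega)
        exact h.inj _ _ (by omega)
  funext w
  by_cases h0 : t w = 0
  · by_contra hne
    have b1 : t (f w) ≠ 0 := fun hh => hne (h.inj _ _ (hh.trans h0.symm))
    have b2 := hz w (by omega) (by omega)
    have b3 := hn w v (by omega) (by omega) (by omega)
    refine hw w (f w) h0 (by omega) fun z hzw => ?_
    have b4 : f z = z := fix z fun hh => hzw (h.inj _ _ (hh.trans h0.symm))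
    exact ⟨fun hh => b4 ▸ hf w z hh, fun hh => b4 ▸ hf z w hh⟩
  · exact fix w h0

/-- The order is perpendicular for a chain a < l' < u < u' < b and a point l below u' only. -/
theorem Frame.five (h : Frame l l' u u' b a v t) (trans : ∀ x y z, r x y → r y z → r x z)
    (asymm : ∀ x y, r x y → ¬ r y x) (c1 : r a l') (c2 : r l' u) (c3 : r u u') (c4 : r u' b)
    (d1 : r l u') (d2 : ¬ r l u) (d3 : ∃ z, r z l) (hv1 : ¬ r v u')
    (hv2 : ¬ (r u v ∧ r v b ∧ r l v))
    (hE : ∀ x y, 0 ≤ t x → 0 ≤ t y → t x % 2 = 0 → t y = t x + 1 ∨ t x = t y + 1 →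
      r u x → ¬ r y u')
    (hk : ∀ x, t x + 1 = t a → r a x → ¬ r x u)
    (hw : ∀ w e, t w = 0 → t e = 1 ∨ t e = 2 → ¬ Dom r w e) : PerpR r := by
  refine h.perpO fun f hf hq => ?_
  by_cases hc : ∃ c, ∀ x, f x = c
  · exact Or.inr hc
  left
  have hbig := h.big
  have hodd := h.odd
  have a1 := h.hl
  have a2 := h.hl'
  have a3 := h.hu
  have a4 := h.hu'
  have a5 := h.hb
  have a6 := h.hv
  have irr : ∀ x, ¬ r x x := fun x hx => asymm _ _ hx hx
  have c13 := trans _ _ _ c1 c2
  have c14 := trans _ _ _ c13 c3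
  have c24 := trans _ _ _ c2 c3
  have c35 := trans _ _ _ c3 c4
  have c25 := trans _ _ _ c2 c35
  have bq : ∀ {x z y}, MkO t a x z → MkO t a z y → f x = f y → f z = f x :=
    fun h1 h2 h3 => hq.between h.asymmO h1 h2 h3
  have bp : ∀ {x z y}, r x z → r z y → f x = f y → f z = f x :=
    fun h1 h2 h3 => hf.between asymm h1 h2 h3
  have qlb : MkO t a l b := by unfold MkO Mk; omega
  have qba : MkO t a b a := by unfold MkO Mk; omega
  have qau : MkO t a a u := by unfold MkO Mk; omega
  have qlv : MkO t a l' v := by unfold MkO Mk; omega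
  have qvu : MkO t a v u' := by unfold MkO Mk; omega
  have qbu : MkO t a b u' := by unfold MkO Mk; omega
  have qla : MkO t a l' a := by unfold MkO Mk; omega
  have qlu : MkO t a l' u' := by unfold MkO Mk; omega
  have edge : ∀ p x y s, MkO t a p x → MkO t a x y → MkO t a y s → r y s → r s x →
      x = b ∧ y = a ∧ p = l ∧ s = u := by
    intro p x y s h1 h2 h3 h4 h5
    obtain ⟨k1, k2, k3, k4⟩ := h.chainO h1 h2 h3
    have h6 : r y u' := k1.elim (fun e => trans _ _ _ (e ▸ h4) c3) fun e => e ▸ h4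
    have h7 : r u x := k1.elim (fun e => e ▸ h5) fun e => trans _ _ _ c3 (e ▸ h5)
    rcases k4 with ⟨e, e' | e'⟩ | ⟨b1, b2, b3, b4⟩
    · exact absurd (e' ▸ h6) hv1
    · exact ⟨e, e', k2 e, k3 e'⟩
    · exact absurd h6 (hE x y b1 b2 b3 b4 h7)
  have noX : ∀ p x y s, MkO t a p x → MkO t a x y → MkO t a y s → r y p → r p s → ¬ r s x := by
    intro p x y s h1 h2 h3 h4 h5 h6
    obtain ⟨-, -, e1, e2⟩ := edge p x y s h1 h2 h3 (trans _ _ _ h4 h5) h6
    exact d2 (e1 ▸ e2 ▸ h5)
  have qne : ∀ {x y}, MkO t a x y → x ≠ y := fun h1 e => h.asymmO _ _ h1 (e ▸ h1)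
  have qtr : ∀ {x y z}, MkO t a x y → MkO t a y z → x ≠ z := fun h1 h2 e =>
    h.asymmO _ _ h1 (e ▸ h2)
  have n1 : f l ≠ f u := by
    intro he
    have g : ∀ z, z = b ∨ 0 ≤ t z → f z = f l := fun z hz => by
      have : t z = -5 ∨ 0 ≤ t z := hz.imp_left fun e => by rw [e, a5]
      refine bq ?_ ?_ he <;> unfold MkO Mk <;> omega
    have ha := g a (Or.inr (by omega))
    have hab : f a = f b := by rw [ha, g b (Or.inl rfl)]
    refine hc ⟨f l, fun z => ?_⟩
    rcases h.cases z with rfl | rfl | rfl | rfl | hz | hz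
    · rfl
    · rw [bp c1 c25 hab, ha]
    · exact he.symm
    · rw [bp c14 c4 hab, ha]
    · exact g z (Or.inl hz)
    · exact g z (Or.inr hz)
  have n3 : f l ≠ f u' := by
    intro he
    have hb : f b = f l := bq qlb qbu he
    have hv : f v = f l := bq (by unfold MkO Mk; omega) qvu he
    have k0 : f l' ≠ f l := fun e => n1 (by rw [bp c2 c3 (e.trans he), e])
    have k1 : MkO t a (f l') (f l) := hv ▸ (hq _ _ qlv).resolve_left fun e => k0 (e.trans hv)
    have k2 : MkO t a (f l) (f a) := hb ▸ (hq _ _ qba).resolve_left fun e =>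
      n1 (by rw [bp c13 c35 e.symm, ← e, hb])
    have k3 : MkO t a (f a) (f u) := (hq _ _ qau).resolve_left fun e =>
      qtr k1 k2 (bp c1 c2 e)
    exact noX _ _ _ _ k1 k2 k3 ((hf _ _ c1).resolve_left (qtr k1 k2).symm)
      ((hf _ _ c2).resolve_left fun e => h.asymmO _ _ k3 (e ▸ (hq _ _ qla).resolve_left (qtr k1 k2)))
      (he ▸ (hf _ _ c3).resolve_left fun e => n1 (he.trans e.symm))
  have n2 : f l' ≠ f u := by
    intro he
    have g : ∀ z, 0 ≤ t z → f z = f l' := fun z hz => by
      refine bq ?_ ?_ he <;> unfold MkO Mk <;> omega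
    have ha := g a (by omega)
    have hv := g v (by omega)
    obtain ⟨z, hz⟩ := d3
    have hz' : f z = f l' := by
      rcases h.cases z with e | e | e | e | e | e
      · exact absurd (e ▸ hz) (irr _)
      · rw [e]
      · rw [e, he]
      · exact absurd (e ▸ hz) (asymm _ _ d1)
      · exact absurd (e ▸ hz) (asymm _ _ (trans _ _ _ d1 c4))
      · exact g z e
    have k0 : f l' ≠ f u' := fun e => n3 (by rw [bp hz d1 (hz'.trans e), hz', e])
    have k1 : MkO t a (f l) (f b) := (hq _ _ qlb).resolve_left fun e => n3 (bp d1 c4 e).symm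
    have k2 : MkO t a (f b) (f l') := ha ▸ (hq _ _ qba).resolve_left fun e =>
      k0 (by rw [bp c14 c4 e.symm, ha])
    have k3 : MkO t a (f l') (f u') := (hq _ _ qlu).resolve_left k0
    exact noX _ _ _ _ k1 k2 k3 (hz' ▸ (hf _ _ hz).resolve_left (hz' ▸ (qtr k1 k2).symm))
      ((hf _ _ d1).resolve_left n3) ((hf _ _ c4).resolve_left (qtr k2 k3).symm)
  have k1 : MkO t a (f l) (f b) := (hq _ _ qlb).resolve_left fun e => n3 (bp d1 c4 e).symm
  have k2 : MkO t a (f b) (f a) := (hq _ _ qba).resolve_left fun e =>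
    n2 (by rw [bp c1 c25 e.symm, bp c13 c35 e.symm])
  have k3 : MkO t a (f a) (f u) := (hq _ _ qau).resolve_left fun e => n2 (by rw [bp c1 c2 e, e])
  obtain ⟨e5, e6, e1, e3⟩ := edge _ _ _ _ k1 k2 k3 ((hf _ _ c13).resolve_left (qne k3))
    ((hf _ _ c35).resolve_left (qtr k2 k3).symm)
  have p1 : r (f l') u := e3 ▸ (hf _ _ c2).resolve_left n2
  have p2 : r l (f u') := e1 ▸ (hf _ _ d1).resolve_left n3
  have e4 : f u' = u' := by
    rcases hq _ _ qbu with e | e
    · rw [e5] at e
      have b1 := hq _ _ qlu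
      rw [← e] at b1
      rcases b1 with b1 | b1
      · exact absurd (b1 ▸ p1) (asymm _ _ c35)
      · exact absurd (h.inj (f l') l (by unfold MkO Mk at b1; omega) ▸ p1) d2
    · rw [e5] at e
      have b1 : t (f u') = t v ∨ t (f u') = t a ∨ t (f u') = t u ∨ t (f u') = t u' := by
        unfold MkO Mk at e
        omega
      rcases b1 with b1 | b1 | b1 | b1
      · have b2 := h.inj _ _ b1
        have b3 := hf _ _ c3
        have b4 := hf _ _ c4
        rw [b2] at p2 b3 b4
        rw [e3] at b3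
        rw [e5] at b4
        refine absurd ⟨b3.resolve_left fun e' => ?_, b4.resolve_left fun e' => ?_, p2⟩ hv2
        · rw [e'] at a3
          omega
        · rw [e'] at a6
          omega
      · exact absurd (trans _ _ _ (h.inj _ _ b1 ▸ p2) c13) d2
      · exact absurd (h.inj _ _ b1 ▸ p2) d2
      · exact h.inj _ _ b1
  have e2 : f l' = l' := by
    rcases hq _ _ qla with e | e
    · rw [e6] at e
      have b1 := (hq _ _ qlu).imp_left (congrArg t)
      rw [e, e4] at b1
      unfold MkO Mk at b1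
      omega
    · rw [e6] at e
      have b1 : t (f l') = t l ∨ t (f l') = t l' ∨ t (f l') = t b ∨ t (f l') + 1 = t a := by
        have := h.hi (f l')
        unfold MkO Mk at e
        omega
      rcases b1 with b1 | b1 | b1 | b1
      · exact absurd (h.inj _ _ b1 ▸ p1) d2
      · exact h.inj _ _ b1
      · exact absurd (h.inj _ _ b1 ▸ p1) (asymm _ _ c35)
      · refine absurd p1 (hk _ b1 (e6 ▸ (hf _ _ c1).resolve_left fun e' => ?_))
        rw [← e', e6] at b1
        omega
  exact h.finishO hf hq e1 e2 e3 e4 e5 e6 hw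

end Pool.Agent.Lib.MP_04ca4f_co
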