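import Pool.Agent.Lib.MP_04ca4f_co.MarkBuild

/-!
# Finite prime orders with a chain of six points
-/

set_option autoImplicit false

namespace Pool.Agent.Lib.MP_04ca4f_co

variable {X : Type*} {r : X → X → Prop}

theorem three_of_chain (trans : ∀ x y z, r x y → r y z → r x z) (asymm : ∀ x y, r x y → ¬ r y x)
    {a b c : X} (h1 : r a b) (h2 : r b c) (x y : X) : ∃ z, z ≠ x ∧ z ≠ y := by
  have irr : ∀ x, ¬ r x x := fun x hx => asymm _ _ hx hx
  have h3 := trans _ _ _ h1 h2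
  by_contra hcon
  have key : ∀ z, z = x ∨ z = y := fun z => by
    by_contra h
    exact hcon ⟨z, fun a => h (Or.inl a), fun a => h (Or.inr a)⟩
  rcases key a with rfl | rfl <;> rcases key b with rfl | rfl <;> rcases key c with rfl | rfl <;>
    first
      | exact irr _ h1
      | exact irr _ h2
      | exact irr _ h3

theorem markSix_low (hP : Prime r) (trans : ∀ x y z, r x y → r y z → r x z)
    (asymm : ∀ x y, r x y → ¬ r y x) {a l m w : X} (c1 : r a l) (c2 : r l m)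
    (h : ∀ y, y = a ∨ y = l ∨ y = m ∨ r m y ∨ y = w) : False := by
  have h3 := three_of_chain trans asymm c1 c2
  have irr : ∀ x, ¬ r x x := fun x hx => asymm _ _ hx hx
  have c3 := trans _ _ _ c1 c2
  obtain ⟨z, z1, z2, z3⟩ := hP.split h3 trans c1 fun e => irr _ (e ▸ c1)
  obtain ⟨y, y1, y2, y3⟩ := hP.split h3 trans c2 fun e => irr _ (e ▸ c2)
  have hz : z = w := by
    rcases h z with e | e | e | e | e
    · exact absurd e z1
    · exact absurd e z2
    · exact absurd (e ▸ z3) (by simp [c2, asymm _ _ c2])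
    · have := trans _ _ _ c2 e
      exact absurd z3 (by simp [this, asymm _ _ this])
    · exact e
  have hy : y = w := by
    rcases h y with e | e | e | e | e
    · exact absurd (e ▸ y3) (by simp [c1, asymm _ _ c1])
    · exact absurd e y1
    · exact absurd e y2
    · exact absurd y3 (by simp [e, asymm _ _ e])
    · exact e
  rw [hz] at z2 z3
  rw [hy] at y3
  have k1 : r a w ∧ r w m := by
    rcases z3 with e | e <;> rcases y3 with e' | e'
    exacts [absurd e'.1 e.2, ⟨e.1, e'.1⟩, absurd e'.1 (asymm _ _ e.1), absurd e.1 e'.2]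
  refine z2 (hP.not_twin h3 fun x x1 x2 => ?_)
  rcases h x with e | e | e | e | e
  · rw [e]
    exact ⟨iff_of_false (asymm _ _ k1.1) (asymm _ _ c1), iff_of_true k1.1 c1⟩
  · exact absurd e x2
  · rw [e]
    exact ⟨iff_of_true k1.2 c2, iff_of_false (asymm _ _ k1.2) (asymm _ _ c2)⟩
  · have e1 := trans _ _ _ k1.2 e
    have e2 := trans _ _ _ c2 e
    exact ⟨iff_of_true e1 e2, iff_of_false (asymm _ _ e1) (asymm _ _ e2)⟩
  · exact absurd e x1

theorem markSix_mid (hP : Prime r) (trans : ∀ x y z, r x y → r y z → r x z)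
    (asymm : ∀ x y, r x y → ¬ r y x) {a l u' l' u b w : X} (c1 : r a l) (c2 : r l u')
    (c3 : r u' l') (c4 : r l' u) (c5 : r u b)
    (h : ∀ y, y ∈ [l, l', u, u', b, a] ∨ y = w ∨ (¬ r l y ∧ ¬ r y u)) : False := by
  have h3 := three_of_chain trans asymm c1 c2
  have irr : ∀ x, ¬ r x x := fun x hx => asymm _ _ hx hx
  have c24 := trans _ _ _ c2 c3
  have c25 := trans _ _ _ c24 c4
  have c35 := trans _ _ _ c3 c4
  have key : ∀ p q, r p q → p = l ∨ r l p → q = u ∨ r q u →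
      (∀ y ∈ [l, l', u, u'], y = p ∨ y = q ∨ r y p ∨ r q y) →
      (r p w ∧ ¬ r q w) ∨ (r w q ∧ ¬ r w p) := by
    intro p q hpq hp hq hall
    obtain ⟨z, z1, z2, z3⟩ := hP.split h3 trans hpq fun e => irr _ (e ▸ hpq)
    have n1 : ¬ r z p := fun e => z3.elim (fun e' => asymm _ _ e e'.1) fun e' => e'.2 e
    have n2 : ¬ r q z := fun e => z3.elim (fun e' => e'.2 e) fun e' => asymm _ _ e e'.1
    rcases h z with e | e | e
    · simp only [List.mem_cons, List.not_mem_nil, or_false] at e hall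
      have e1 : z ≠ a := fun e' => n1 (e' ▸ hp.elim (fun e'' => e'' ▸ c1) (trans _ _ _ c1))
      have e2 : z ≠ b := fun e' => n2 (e' ▸ hq.elim (fun e'' => e'' ▸ c5) fun e'' =>
        trans _ _ _ e'' c5)
      rcases hall z (by tauto) with e' | e' | e' | e'
      exacts [absurd e' z1, absurd e' z2, absurd e' n1, absurd e' n2]
    · exact e ▸ z3
    · rcases z3 with e' | e'
      · exact absurd (hp.elim (fun e'' => e'' ▸ e'.1) fun e'' => trans _ _ _ e'' e'.1) e.1
      · exact absurd (hq.elim (fun e'' => e'' ▸ e'.1) fun e'' => trans _ _ _ e'.1 e'') e.2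
  have k1 := key l u' c2 (Or.inl rfl) (Or.inr c35) (by simp [c3, c35])
  have k2 := key u' l' c3 (Or.inr c2) (Or.inr c4) (by simp [c2, c4])
  have k3 := key l' u c4 (Or.inr c24) (Or.inl rfl) (by simp [c24, c3])
  rcases k1 with e | e <;> rcases k3 with e' | e'
  · exact e.2 (trans _ _ _ c3 e'.1)
  · exact k2.elim (fun a => e.2 a.1) fun a => e'.2 a.1
  · exact asymm _ _ (trans _ _ _ c3 e'.1) e.1
  · exact e'.2 (trans _ _ _ e.1 c3)

/-- The set S has even size and is R itself or R without a point that cannot be moved alone. -/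
def Sel (r : X → X → Prop) (R S : Finset X) (w : X) : Prop :=
  S.card % 2 = 0 ∧ (∀ z ∈ S, z ∈ R) ∧ (∀ z ∈ R, z ∈ S ∨ z = w) ∧
    (w ∈ R → w ∉ S ∧ ∀ e ∈ R, e ≠ w → ¬ Dom r w e)

theorem markSix_aux (trans : ∀ x y z, r x y → r y z → r x z)
    (asymm : ∀ x y, r x y → ¬ r y x) {a l u' l' u b w : X} (c1 : r a l) (c2 : r l u')
    (c3 : r u' l') (c4 : r l' u) (c5 : r u b) {R S : Finset X}
    (hR : ∀ z, z ∈ R ↔ z ∉ [l, l', u, u', b, a]) (hS : Sel r R S w) (h1 : ∃ v ∈ S, r l v)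
    (h2 : ∃ z ∈ S, ¬ r u' z) : PerpR r := by
  classical
  have irr : ∀ x, ¬ r x x := fun x hx => asymm _ _ hx hx
  have ne : ∀ x y, r x y → x ≠ y := fun x y h e => irr _ (e ▸ h)
  obtain ⟨s1, s2, s3, s4⟩ := hS
  obtain ⟨v, hv, z, hz, hne, hlv, huz⟩ : ∃ v ∈ S, ∃ z ∈ S, z ≠ v ∧ r l v ∧ ¬ r u' z := by
    obtain ⟨v, hv, h1⟩ := h1
    obtain ⟨z, hz, h2⟩ := h2
    by_cases e : z = v
    · obtain ⟨d, hd, hdv⟩ := Finset.exists_mem_ne
        (show 1 < S.card by have := Finset.card_pos.mpr ⟨v, hv⟩; omega) v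
      by_cases e' : r u' d
      · exact ⟨d, hd, z, hz, e ▸ hdv.symm, trans _ _ _ c2 e', h2⟩
      · exact ⟨v, hv, d, hd, hdv, h1, e'⟩
    · exact ⟨v, hv, z, hz, e, h1, h2⟩
  have c13 := trans _ _ _ c1 c2
  have c14 := trans _ _ _ c13 c3
  have c15 := trans _ _ _ c14 c4
  have c24 := trans _ _ _ c2 c3
  have c25 := trans _ _ _ c24 c4
  have c35 := trans _ _ _ c3 c4
  have hvR := (hR v).mp (s2 v hv)
  obtain ⟨w', w1, w2, w3⟩ : ∃ w', (w' = v ∨ (w' = w ∧ w ∈ R)) ∧ (w' ≠ v → w' ∉ S) ∧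
      ∀ z ∈ R, z ∈ S ∨ z = w' := by
    by_cases e : w ∈ R
    · exact ⟨w, Or.inr ⟨rfl, e⟩, fun _ => (s4 e).1, s3⟩
    · exact ⟨v, Or.inl rfl, fun e' => absurd rfl e', fun z hz =>
        Or.inl ((s3 z hz).resolve_right fun e' => e (e' ▸ hz))⟩
  have hF : ∀ z, z ∈ S.erase v ↔ z ∉ [l, l', u, u', b, a, v, w'] := by
    intro y
    have e1 := hR y
    simp only [Finset.mem_erase, List.mem_cons, List.not_mem_nil, or_false, not_or] at e1 ⊢
    constructor
    · rintro ⟨e2, e3⟩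
      obtain ⟨a1, a2, a3, a4, a5, a6⟩ := e1.mp (s2 y e3)
      exact ⟨a1, a2, a3, a4, a5, a6, e2, fun e => w2 (e ▸ e2) (e ▸ e3)⟩
    · rintro ⟨a1, a2, a3, a4, a5, a6, a7, a8⟩
      exact ⟨a7, (w3 y (e1.mpr ⟨a1, a2, a3, a4, a5, a6⟩)).resolve_right a8⟩
  obtain ⟨t, ht, t1, t2, t3⟩ := exists_frame (l := l) (l' := l') (u := u) (u' := u') (b := b)
    (a := a) (v := v) (w := w') (by
      simp only [List.mem_cons, List.not_mem_nil, or_false, not_or] at hvR
      simp only [List.nodup_cons, List.mem_cons, List.not_mem_nil, or_false, not_or,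
        List.nodup_nil, not_false_eq_true, and_true]
      exact ⟨⟨ne _ _ c24, ne _ _ c25, ne _ _ c2, ne _ _ (trans _ _ _ c25 c5), (ne _ _ c1).symm,
        Ne.symm hvR.1⟩, ⟨ne _ _ c4, (ne _ _ c3).symm, ne _ _ (trans _ _ _ c4 c5),
        (ne _ _ c14).symm, Ne.symm hvR.2.1⟩, ⟨(ne _ _ c35).symm, ne _ _ c5, (ne _ _ c15).symm,
        Ne.symm hvR.2.2.1⟩, ⟨ne _ _ (trans _ _ _ c35 c5), (ne _ _ c13).symm,
        Ne.symm hvR.2.2.2.1⟩, ⟨(ne _ _ (trans _ _ _ c15 c5)).symm, Ne.symm hvR.2.2.2.2.1⟩,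
        Ne.symm hvR.2.2.2.2.2⟩)
    (by
      by_cases e : w' = v
      · exact Or.inl e
      · have e1 := w1.resolve_left e
        have e2 := (hR w').mp (e1.1 ▸ e1.2)
        simp only [List.mem_cons, List.not_mem_nil, or_false, not_or] at e2 ⊢
        exact Or.inr ⟨e2.1, e2.2.1, e2.2.2.1, e2.2.2.2.1, e2.2.2.2.2.1, e2.2.2.2.2.2, e⟩)
    (S.erase v) hF (r u') 0 (Or.inl ⟨Or.inr rfl, by
      have := Finset.card_pos.mpr ⟨v, hv⟩
      rw [Finset.card_erase_of_mem hv]
      omega⟩)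
  have hz' : z ∈ S.erase v := Finset.mem_erase.mpr ⟨hne, hz⟩
  have hcase : ∀ y, 0 ≤ t y → y = a ∨ y = v ∨ (y = w' ∧ t y = 0) ∨ y ∈ S.erase v := by
    intro y hy
    by_cases e : y ∈ S.erase v
    · exact Or.inr (Or.inr (Or.inr e))
    · rw [hF, not_not] at e
      simp only [List.mem_cons, List.not_mem_nil, or_false] at e
      have a1 := ht.hl
      have a2 := ht.hl'
      have a3 := ht.hu
      have a4 := ht.hu'
      have a5 := ht.hb
      rcases e with e | e | e | e | e | e | e | e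
      any_goals (rw [e] at hy; omega)
      · exact Or.inl e
      · exact Or.inr (Or.inl e)
      · by_cases e' : w' = v
        · exact Or.inr (Or.inl (e.trans e'))
        · exact Or.inr (Or.inr (Or.inl ⟨e, e ▸ t1 e'⟩))
  have a1 := ht.hv
  have a2 := ht.odd
  have a3 := ht.big
  refine ht.six trans asymm c1 c2 c3 c4 c5 hlv (fun x y x0 y0 x1 x2 x3 x4 => ?_)
    fun x e x0 e0 => ?_
  · have a4 := ht.hi x
    have hy : y ≠ v := fun e => asymm _ _ hlv (e ▸ x4)
    have hy' : t y ≠ 1 := fun e => hy (ht.inj _ _ (e.trans a1.symm))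
    rcases hcase x x0 with e | e | e | e
    · rw [e] at x1
      omega
    · rw [e] at x1
      omega
    · omega
    · rcases hcase y y0 with e' | e' | e' | e'
      · have := (t3 x e z hz' x3 huz).2
        rw [e'] at x2
        omega
      · exact hy e'
      · omega
      · exact (t3 x e y e' x3 fun h => asymm _ _ (trans _ _ _ c2 h) x4).1 ⟨x1, by omega⟩
  · have hx : x = w' ∧ w' ≠ v := by
      rcases hcase x (by omega) with e | e | e | e
      · rw [e] at x0
        omega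
      · rw [e] at x0
        omega
      · refine ⟨e.1, fun e' => ?_⟩
        rw [e.1, e'] at x0
        omega
      · have := t2 x e
        omega
    have e1 := w1.resolve_left hx.2
    rw [hx.1, e1.1]
    refine (s4 e1.2).2 e ?_ fun e' => ?_
    · rcases hcase e (by omega) with e' | e' | e' | e'
      · rw [e'] at e0
        omega
      · exact e' ▸ s2 v hv
      · omega
      · exact s2 e (Finset.mem_of_mem_erase e')
    · rw [e', ← e1.1, ← hx.1] at e0
      omega

theorem perpR_six [Finite X] (hP : Prime r) (trans : ∀ x y z, r x y → r y z → r x z)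
    (asymm : ∀ x y, r x y → ¬ r y x) {a l u' l' u b : X} (c1 : r a l) (c2 : r l u')
    (c3 : r u' l') (c4 : r l' u) (c5 : r u b) : PerpR r := by
  classical
  cases nonempty_fintype X
  have h3 := three_of_chain trans asymm c1 c2
  let R : Finset X := Finset.univ.filter fun z => z ∉ [l, l', u, u', b, a]
  have hR : ∀ z, z ∈ R ↔ z ∉ [l, l', u, u', b, a] := fun z => by
    simp only [R, Finset.mem_filter, Finset.mem_univ, true_and]
  obtain ⟨S, w, hS⟩ : ∃ S w, Sel r R S w := by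
    by_cases e : R.card % 2 = 0
    · exact ⟨R, a, e, fun _ h => h, fun _ h => Or.inl h, fun h => absurd (by simp) ((hR a).mp h)⟩
    · obtain ⟨w, hw, h⟩ := hP.exists_not_dom h3 asymm R (Finset.card_pos.mp (by omega))
      refine ⟨R.erase w, w, ?_, fun _ h => Finset.mem_of_mem_erase h, fun z hz => ?_,
        fun _ => ⟨Finset.notMem_erase w R, h⟩⟩
      · rw [Finset.card_erase_of_mem hw]
        omega
      · exact (em (z = w)).symm.imp_left fun e' => Finset.mem_erase.mpr ⟨e', hz⟩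
  have hcl : ∀ y, y ∈ [l, l', u, u', b, a] ∨ y = w ∨ y ∈ S := fun y =>
    (em _).imp_right fun e => (hS.2.2.1 y ((hR y).mpr e)).symm
  have c35 := trans _ _ _ c3 c4
  have c24 := trans _ _ _ c2 c3
  by_cases h1 : ∃ v ∈ S, r l v
  · refine markSix_aux trans asymm c1 c2 c3 c4 c5 hR hS h1 ?_
    by_contra hcon
    refine markSix_low hP trans asymm (w := w) c1 c2 fun y => ?_
    have e1 : y ∈ S → r u' y := fun e => not_not.mp fun e' => hcon ⟨y, e, e'⟩
    have e2 := hcl y
    have e3 : y = l' → r u' y := fun e => e ▸ c3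
    have e4 : y = u → r u' y := fun e => e ▸ c35
    have e5 : y = b → r u' y := fun e => e ▸ trans _ _ _ c35 c5
    simp only [List.mem_cons, List.not_mem_nil, or_false] at e2
    rcases e2 with (e | e | e | e | e | e) | e | e
    exacts [Or.inr (Or.inl e), Or.inr (Or.inr (Or.inr (Or.inl (e3 e)))),
      Or.inr (Or.inr (Or.inr (Or.inl (e4 e)))), Or.inr (Or.inr (Or.inl e)),
      Or.inr (Or.inr (Or.inr (Or.inl (e5 e)))), Or.inl e, Or.inr (Or.inr (Or.inr (Or.inr e))),
      Or.inr (Or.inr (Or.inr (Or.inl (e1 e))))]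
  have trans' : ∀ x y z, r y x → r z y → r z x := fun x y z h1 h2 => trans _ _ _ h2 h1
  have asymm' : ∀ x y, r y x → ¬ r x y := fun x y => asymm y x
  by_cases h2 : ∃ v ∈ S, r v u
  · refine PerpR.of_flip (markSix_aux (r := fun x y => r y x) (R := R) (S := S) (w := w) trans'
      asymm' c5 c4 c3 c2 c1 (fun z => ?_)
      ⟨hS.1, hS.2.1, hS.2.2.1, fun h => ⟨(hS.2.2.2 h).1,
        fun e he hne hd => (hS.2.2.2 h).2 e he hne hd.flip⟩⟩ h2 ?_)
    · rw [hR]
      simp only [List.mem_cons, List.not_mem_nil, or_false, not_or]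
      exact ⟨fun ⟨a1, a2, a3, a4, a5, a6⟩ => ⟨a3, a4, a1, a2, a6, a5⟩,
        fun ⟨a1, a2, a3, a4, a5, a6⟩ => ⟨a3, a4, a1, a2, a6, a5⟩⟩
    by_contra hcon
    refine markSix_low (r := fun x y => r y x) hP.flip trans' asymm' (w := w) c5 c4 fun y => ?_
    have e1 : y ∈ S → r y l' := fun e => not_not.mp fun e' => hcon ⟨y, e, e'⟩
    have e2 := hcl y
    have e3 : y = u' → r y l' := fun e => e ▸ c3
    have e4 : y = l → r y l' := fun e => e ▸ c24
    have e5 : y = a → r y l' := fun e => e ▸ trans _ _ _ c1 c24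
    simp only [List.mem_cons, List.not_mem_nil, or_false] at e2
    rcases e2 with (e | e | e | e | e | e) | e | e
    exacts [Or.inr (Or.inr (Or.inr (Or.inl (e4 e)))), Or.inr (Or.inr (Or.inl e)),
      Or.inr (Or.inl e), Or.inr (Or.inr (Or.inr (Or.inl (e3 e)))), Or.inl e,
      Or.inr (Or.inr (Or.inr (Or.inl (e5 e)))), Or.inr (Or.inr (Or.inr (Or.inr e))),
      Or.inr (Or.inr (Or.inr (Or.inl (e1 e))))]
  · exact (markSix_mid hP trans asymm (w := w) c1 c2 c3 c4 c5 fun y => (hcl y).imp_right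
      (Or.imp_right fun e => ⟨fun e' => h1 ⟨y, e, e'⟩, fun e' => h2 ⟨y, e, e'⟩⟩)).elim

/-- A finite order without nontrivial autonomous set that has a chain of six points has a
perpendicular. -/
theorem six_chain [Finite X] (P : PartialOrder X)
    (hprime : ¬ ∃ A : Set X, A ≠ Set.univ ∧ A.Nontrivial ∧ ∀ x ∉ A,
      ((∃ a ∈ A, P.lt x a) → ∀ a ∈ A, P.lt x a) ∧ ((∃ a ∈ A, P.lt a x) → ∀ a ∈ A, P.lt a x))
    (h6 : ∃ c1 c2 c3 c4 c5 c6, P.lt c1 c2 ∧ P.lt c2 c3 ∧ P.lt c3 c4 ∧ P.lt c4 c5 ∧ P.lt c5 c6) :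
    ∃ Q : PartialOrder X, ∀ f : X → X, (∀ x y, P.le x y → P.le (f x) (f y)) →
      (∀ x y, Q.le x y → Q.le (f x) (f y)) → f = id ∨ ∃ c, ∀ x, f x = c := by
  obtain ⟨c1, c2, c3, c4, c5, c6, h1, h2, h3, h4, h5⟩ := h6
  exact (perpR_six (r := P.lt) (fun D a b c => hprime ⟨D, a, b, c⟩) (fun _ _ _ => lt_trans)
    (fun _ _ => lt_asymm) h1 h2 h3 h4 h5).perp

end Pool.Agent.Lib.MP_04ca4f_co
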