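import Pool.Agent.Lib.MP_04ca4f_co.MarkSix

/-!
# Finite prime orders with two disjoint chains of four points
-/

set_option autoImplicit false

namespace Pool.Agent.Lib.MP_04ca4f_co

variable {X : Type*} {r : X → X → Prop}

/-- Two disjoint chains a < s < t < b and x < s' < t' < y with s, s' and t, t' incomparable. -/
structure TwoCh (r : X → X → Prop) (a s t b x s' t' y : X) : Prop where
  c1 : r a s
  c2 : r s t
  c3 : r t b
  d1 : r x s'
  d2 : r s' t'
  d3 : r t' y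
  i1 : ¬ r s s'
  i2 : ¬ r s' s
  i3 : ¬ r t t'
  i4 : ¬ r t' t
  dis : ∀ p ∈ [a, s, t, b], p ∉ [x, s', t', y]

variable {a s t b x s' t' y : X}

theorem TwoCh.swap (h : TwoCh r a s t b x s' t' y) : TwoCh r x s' t' y a s t b :=
  ⟨h.d1, h.d2, h.d3, h.c1, h.c2, h.c3, h.i2, h.i1, h.i4, h.i3, fun p h1 h2 => h.dis p h2 h1⟩

theorem TwoCh.flip (h : TwoCh r a s t b x s' t' y) :
    TwoCh (fun p q => r q p) b t s a y t' s' x :=
  ⟨h.c3, h.c2, h.c1, h.d3, h.d2, h.d1, h.i4, h.i3, h.i2, h.i1, fun p h1 h2 =>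
    h.dis p (List.mem_reverse.mp h1) (List.mem_reverse.mp h2)⟩

theorem Frame.swap [DecidableEq X] {l l' u u' b a v p q : X} {t : X → ℤ}
    (h : Frame l l' u u' b a v t) (hp : t p = 0) (hq : t q = 2) :
    Frame l l' u u' b a v fun z => t (Equiv.swap p q z) := by
  have key : ∀ z, t z ≠ 0 → t z ≠ 2 → Equiv.swap p q z = z := fun z h1 h2 =>
    Equiv.swap_apply_of_ne_of_ne (fun e => h1 (e ▸ hp)) fun e => h2 (e ▸ hq)
  have := h.big
  have ha := key a (by omega) (by omega)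
  refine ⟨fun x y e => (Equiv.swap p q).injective (h.inj _ _ e), fun x => h.lo _, fun x => ?_,
    fun k h1 h2 => ?_, ?_, ?_, ?_, ?_, ?_, ?_, ?_, ?_⟩
  · rw [ha]
    exact h.hi _
  · rw [ha] at h2
    obtain ⟨z, hz⟩ := h.conv k h1 h2
    exact ⟨Equiv.swap p q z, by rw [Equiv.swap_apply_self, hz]⟩
  · rw [ha]
    exact h.odd
  · rw [ha]
    exact h.big
  · rw [key l (by rw [h.hl]; omega) (by rw [h.hl]; omega), h.hl]
  · rw [key l' (by rw [h.hl']; omega) (by rw [h.hl']; omega), h.hl']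
  · rw [key u (by rw [h.hu]; omega) (by rw [h.hu]; omega), h.hu]
  · rw [key u' (by rw [h.hu']; omega) (by rw [h.hu']; omega), h.hu']
  · rw [key b (by rw [h.hb]; omega) (by rw [h.hb]; omega), h.hb]
  · rw [key v (by rw [h.hv]; omega) (by rw [h.hv]; omega), h.hv]

theorem Frame.nonneg {l l' u u' b a v z : X} {t : X → ℤ} (h : Frame l l' u u' b a v t)
    (hz : z ∉ [l, l', u, u', b]) : 0 ≤ t z := by
  simp only [List.mem_cons, List.not_mem_nil, or_false, not_or] at hz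
  rcases h.cases z with e | e | e | e | e | e
  exacts [absurd e hz.1, absurd e hz.2.1, absurd e hz.2.2.1, absurd e hz.2.2.2.1,
    absurd e hz.2.2.2.2, e]

theorem Frame.not_mem {l l' u u' b a v z : X} {t : X → ℤ} (h : Frame l l' u u' b a v t)
    (hz : 0 ≤ t z) : z ∉ [l, l', u, u', b] := by
  have a1 := h.hl
  have a2 := h.hl'
  have a3 := h.hu
  have a4 := h.hu'
  have a5 := h.hb
  simp only [List.mem_cons, List.not_mem_nil, or_false, not_or]
  refine ⟨?_, ?_, ?_, ?_, ?_⟩ <;> rintro rfl <;> omega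

theorem markTwo_aux [Finite X] (hP : Prime r) (trans : ∀ x y z, r x y → r y z → r x z)
    (asymm : ∀ x y, r x y → ¬ r y x) (h : TwoCh r a s t b x s' t' y)
    (hE : ∃ z, r s z ∧ z ≠ t ∧ z ≠ b)
    (hN : (∀ z, z ∈ [s, t', t, s', b, a, y, x]) ∨
      ∃ z, z ∉ [s, t', t, s', b, a, y, x] ∧ ¬ r t z) : PerpR r := by
  classical
  cases nonempty_fintype X
  have h3 := three_of_chain trans asymm h.c1 h.c2
  have irr : ∀ x, ¬ r x x := fun x hx => asymm _ _ hx hx
  have ne : ∀ x y, r x y → x ≠ y := fun x y h e => irr _ (e ▸ h)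
  have c13 := trans _ _ _ h.c1 h.c2
  have c24 := trans _ _ _ h.c2 h.c3
  have c14 := trans _ _ _ c13 h.c3
  have d13 := trans _ _ _ h.d1 h.d2
  have d24 := trans _ _ _ h.d2 h.d3
  have d14 := trans _ _ _ d13 h.d3
  have hdis := h.dis
  simp only [List.mem_cons, List.not_mem_nil, or_false, not_or, forall_eq_or_imp,
    forall_eq] at hdis
  obtain ⟨⟨n1, n2, n3, n4⟩, ⟨n5, n6, n7, n8⟩, ⟨n9, n10, n11, n12⟩, n13, n14, n15, n16⟩ := hdis
  let F : Finset X := Finset.univ.filter fun z => z ∉ [s, t', t, s', b, a, y, x]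
  have hF : ∀ z, z ∈ F ↔ z ∉ [s, t', t, s', b, a, y, x] := fun z => by
    simp only [F, Finset.mem_filter, Finset.mem_univ, true_and]
  have hxy := ne _ _ d14
  obtain ⟨c, hc1, hc2⟩ : ∃ c : ℤ, (c = 0 ∨ c = 2) ∧ (((x = y ∨ c = 0) ∧ F.card % 2 = 1) ∨
      (x ≠ y ∧ c = 2 ∧ F.card % 2 = 0)) := by
    by_cases e : F.card % 2 = 0
    · exact ⟨2, Or.inr rfl, Or.inr ⟨hxy, rfl, e⟩⟩
    · exact ⟨0, Or.inl rfl, Or.inl ⟨Or.inr rfl, by omega⟩⟩
  obtain ⟨τ, hτ, t1, t2, t3⟩ := exists_frame (l := s) (l' := t') (u := t) (u' := s') (b := b)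
    (a := a) (v := y) (w := x) (by
      simp only [List.nodup_cons, List.mem_cons, List.not_mem_nil, or_false, not_or,
        List.nodup_nil, not_false_eq_true, and_true]
      exact ⟨⟨n7, ne _ _ h.c2, n6, ne _ _ c24, (ne _ _ h.c1).symm, n8⟩,
        ⟨Ne.symm n11, (ne _ _ h.d2).symm, Ne.symm n15, Ne.symm n3, ne _ _ h.d3⟩,
        ⟨n10, ne _ _ h.c3, (ne _ _ c13).symm, n12⟩, ⟨Ne.symm n14, Ne.symm n2, ne _ _ d24⟩,
        ⟨(ne _ _ c14).symm, n16⟩, n4⟩)
    (Or.inr (by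
      simp only [List.mem_cons, List.not_mem_nil, or_false, not_or]
      exact ⟨Ne.symm n5, ne _ _ d13, Ne.symm n9, ne _ _ h.d1, Ne.symm n13, Ne.symm n1, hxy⟩))
    F hF (r t) c hc2
  have tx := t1 hxy
  have hxU : ¬ r t x := fun e => h.i1 (trans _ _ _ h.c2 (trans _ _ _ e h.d1))
  have hyD : ¬ r y s := fun e => h.i2 (trans _ _ _ d24 e)
  have hz : ∃ z, z ∉ [s, t', t, s', b] ∧ r s z := by
    obtain ⟨z, z1, z2, z3⟩ := hE
    simp only [List.mem_cons, List.not_mem_nil, or_false, not_or]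
    by_cases e : z = t'
    · exact ⟨y, ⟨Ne.symm n8, (ne _ _ h.d3).symm, Ne.symm n12, (ne _ _ d24).symm, Ne.symm n16⟩,
        trans _ _ _ (e ▸ z1) h.d3⟩
    · exact ⟨z, ⟨(ne _ _ z1).symm, e, z2, fun e' => h.i1 (e' ▸ z1), z3⟩, z1⟩
  have hcase : ∀ z, 0 ≤ τ z → z = a ∨ z = y ∨ z = x ∨ z ∈ F := by
    intro z hz
    have e := hτ.not_mem hz
    rw [hF]
    simp only [List.mem_cons, List.not_mem_nil, or_false, not_or] at e ⊢
    by_contra hcon
    simp only [not_or, not_and, not_not] at hcon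
    exact hcon.2.2.1 (hcon.2.2.2 e.1 e.2.1 e.2.2.1 e.2.2.2.1 e.2.2.2.2 hcon.1 hcon.2.1)
  have a1 := hτ.hv
  have a2 := hτ.odd
  have a3 := hτ.big
  have hedge : ∀ p q, 0 ≤ τ p → 0 ≤ τ q → τ p % 2 = 0 → τ q = τ p + 1 ∨ τ p = τ q + 1 →
      r t p → ¬ r q s := by
    intro p q p0 q0 p1 p2 p3 p4
    have a4 := hτ.hi p
    rcases hcase p p0 with e | e | e | e
    · rw [e] at p1
      omega
    · rw [e] at p1
      omega
    · exact hxU (e ▸ p3)
    · rcases hcase q q0 with e' | e' | e' | e'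
      · obtain ⟨z, z1, z2⟩ := hN.resolve_left fun e'' => (hF p).mp e (e'' p)
        have := (t3 p e z ((hF z).mpr z1) p3 z2).2
        rw [e'] at p2
        omega
      · exact hyD (e' ▸ p4)
      · rw [e'] at p2
        omega
      · exact (t3 p e q e' p3 fun h' => asymm _ _ (trans _ _ _ h.c2 h') p4).1 ⟨p1, by omega⟩
  have hdom : ∀ w, r w s' → ¬ Dom r w y := fun w hw hd =>
    ((hd s' (ne _ _ hw).symm).1 hw).elim (ne _ _ d24).symm (asymm _ _ d24)
  have hzero : ∀ w, τ w = 0 → w = x := by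
    intro w hw
    rcases hcase w (by omega) with e | e | e | e
    · rw [e] at hw
      omega
    · rw [e] at hw
      omega
    · exact e
    · have := t2 w e
      omega
  obtain ⟨e, he⟩ := hτ.conv 2 (by omega) (by omega)
  by_cases hd : τ x = 0 ∧ Dom r x e
  · have hex : e ≠ x := fun h' => by
      rw [h'] at he
      omega
    have hτ' := hτ.swap hd.1 he
    have hes : r e s' := ((hd.2 s' (ne _ _ h.d1).symm).1 h.d1).resolve_left fun h' => by
      have := hτ.hu'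
      rw [h'] at he
      omega
    have heU : ¬ r t e := fun h' => h.i1 (trans _ _ _ h.c2 (trans _ _ _ h' hes))
    have key : ∀ z, z ≠ x → z ≠ e → Equiv.swap x e z = z := fun z =>
      Equiv.swap_apply_of_ne_of_ne
    refine hτ'.two (x := x) trans asymm h.c1 h.c2 h.c3 h.d1 h.d2 h.d3 h.i1 h.i2 h.i3 h.i4
      (Or.inr (by rw [Equiv.swap_apply_left, he])) (hz.imp fun z hz => ⟨hτ'.nonneg hz.1, hz.2⟩)
      (fun p q p0 q0 p1 p2 p3 => ?_) fun w g w0 g0 => ?_
    · rw [key p (fun h' => hxU (h' ▸ p3)) fun h' => heU (h' ▸ p3)] at p0 p1 p2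
      have q1 : q ≠ x := fun h' => by
        rw [h', Equiv.swap_apply_left] at p2
        omega
      have q2 : q ≠ e := fun h' => by
        rw [h', Equiv.swap_apply_right] at p2
        omega
      rw [key q q1 q2] at q0 p2
      exact hedge p q p0 q0 p1 p2 p3
    · have w1 : w = e := hτ'.inj w e (by rw [w0, Equiv.swap_apply_right, hd.1])
      rw [w1]
      rcases g0 with g0 | g0
      · rw [hτ'.inj g y (g0.trans hτ'.hv.symm)]
        exact hdom e hes
      · rw [hτ'.inj g x (by rw [g0, Equiv.swap_apply_left, he])]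
        exact fun h' => hex (hP.not_dom h3 h' hd.2)
  · refine hτ.two (x := x) trans asymm h.c1 h.c2 h.c3 h.d1 h.d2 h.d3 h.i1 h.i2 h.i3 h.i4
      (by omega) (hz.imp fun z hz => ⟨hτ.nonneg hz.1, hz.2⟩) hedge fun w g w0 g0 => ?_
    have w1 := hzero w w0
    rw [w1] at w0 ⊢
    rcases g0 with g0 | g0
    · rw [hτ.inj g y (g0.trans a1.symm)]
      exact hdom x h.d1
    · rw [hτ.inj g e (g0.trans he.symm)]
      exact fun h' => hd ⟨w0, h'⟩

/-- If all other points lie below s then s is below y or s' is below b. -/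
theorem markTwo_low (hP : Prime r) (trans : ∀ x y z, r x y → r y z → r x z)
    (asymm : ∀ x y, r x y → ¬ r y x) (h : TwoCh r a s t b x s' t' y)
    (hF : ∀ z, z ∈ [s, t', t, s', b, a, y, x] ∨ r z s) : r s y ∨ r s' b := by
  have h3 := three_of_chain trans asymm h.c1 h.c2
  have irr : ∀ x, ¬ r x x := fun x hx => asymm _ _ hx hx
  by_contra hcon
  have k1 : ¬ r s y := fun e => hcon (Or.inl e)
  have k2 : ¬ r s' b := fun e => hcon (Or.inr e)
  have c24 := trans _ _ _ h.c2 h.c3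
  have d13 := trans _ _ _ h.d1 h.d2
  have d24 := trans _ _ _ h.d2 h.d3
  obtain ⟨z, z1, z2, z3⟩ := hP.split h3 trans h.c3 fun e => irr _ (e ▸ h.c3)
  obtain ⟨w, w1, w2, w3⟩ := hP.split h3 trans h.c2 fun e => irr _ (e ▸ h.c2)
  have hz := hF z
  have hw := hF w
  simp only [List.mem_cons, List.not_mem_nil, or_false] at hz hw
  have up : ∀ p, p = x ∨ p = s' ∨ p = t' ∨ p = y → ¬ r s p := by
    rintro p (e | e | e | e) hp <;> rw [e] at hp
    exacts [h.i1 (trans _ _ _ hp h.d1), h.i1 hp, k1 (trans _ _ _ hp h.d3), k1 hp]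
  have dn : ∀ p, p = s' ∨ p = t' ∨ p = y → ¬ r p b := by
    rintro p (e | e | e) hp <;> rw [e] at hp
    exacts [k2 hp, k2 (trans _ _ _ h.d2 hp), k2 (trans _ _ _ d24 hp)]
  have low : ∀ p, r p s → ¬ ((r t p ∧ ¬ r b p) ∨ (r p b ∧ ¬ r p t)) ∧
      ¬ ((r s p ∧ ¬ r t p) ∨ (r p t ∧ ¬ r p s)) := fun p hp =>
    ⟨fun e => e.elim (fun e => asymm _ _ e.1 (trans _ _ _ hp h.c2))
      fun e => e.2 (trans _ _ _ hp h.c2), fun e => e.elim (fun e => asymm _ _ e.1 hp) fun e => e.2 hp⟩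
  have hx1 : ¬ r x t := by
    rcases hz with (e | e | e | e | e | e | e | e) | e
    · rw [e] at z3
      exact (z3.elim (fun e => asymm _ _ e.1 h.c2) fun e => e.2 h.c2).elim
    · rw [e] at z3
      exact (z3.elim (fun e => h.i3 e.1) fun e => dn _ (Or.inr (Or.inl rfl)) e.1).elim
    · exact absurd e z1
    · rw [e] at z3
      exact (z3.elim (fun e => h.i1 (trans _ _ _ h.c2 e.1)) fun e => k2 e.1).elim
    · exact absurd e z2
    · exact absurd z3 (low z (e ▸ h.c1)).1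
    · rw [e] at z3
      exact (z3.elim (fun e => k1 (trans _ _ _ h.c2 e.1))
        fun e => dn _ (Or.inr (Or.inr rfl)) e.1).elim
    · rw [e] at z3
      exact z3.elim (fun e => absurd (trans _ _ _ h.c2 e.1) (up _ (Or.inl rfl))) fun e => e.2
    · exact absurd z3 (low z e).1
  rcases hw with (e | e | e | e | e | e | e | e) | e
  · exact w1 e
  · rw [e] at w3
    exact w3.elim (fun e => up _ (Or.inr (Or.inr (Or.inl rfl))) e.1) fun e => h.i4 e.1
  · exact w2 e
  · rw [e] at w3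
    exact w3.elim (fun e => h.i1 e.1) fun e => k2 (trans _ _ _ e.1 h.c3)
  · rw [e] at w3
    exact w3.elim (fun e => e.2 h.c3) fun e => asymm _ _ e.1 h.c3
  · exact (low w (e ▸ h.c1)).2 w3
  · rw [e] at w3
    exact w3.elim (fun e => k1 e.1) fun e => h.i4 (trans _ _ _ h.d3 e.1)
  · rw [e] at w3
    exact w3.elim (fun e => up _ (Or.inl rfl) e.1) fun e => hx1 e.1
  · exact (low w e).2 w3

theorem markTwo_below [Finite X] (hP : Prime r) (trans : ∀ x y z, r x y → r y z → r x z)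
    (asymm : ∀ x y, r x y → ¬ r y x) (h : TwoCh r a s t b x s' t' y)
    (hF : ∀ z, z ∈ [s, t', t, s', b, a, y, x] ∨ r z s)
    (hz : ∃ z, z ∉ [s, t', t, s', b, a, y, x]) : PerpR r := by
  obtain ⟨z, hz⟩ := hz
  have hzs := (hF z).resolve_left hz
  have hdis := h.dis
  simp only [List.mem_cons, List.not_mem_nil, or_false, not_or, forall_eq_or_imp,
    forall_eq] at hdis
  rcases markTwo_low hP trans asymm h hF with e | e
  · exact markTwo_aux hP trans asymm h ⟨y, e, Ne.symm hdis.2.2.1.2.2.2, Ne.symm hdis.2.2.2.2.2.2⟩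
      (Or.inr ⟨z, hz, fun e' => asymm _ _ (trans _ _ _ h.c2 e') hzs⟩)
  · refine markTwo_aux hP trans asymm h.swap ⟨b, e, hdis.2.2.2.2.2.1, hdis.2.2.2.2.2.2⟩
      (Or.inr ⟨z, ?_, fun e' => h.i2 (trans _ _ _ h.d2 (trans _ _ _ e' hzs))⟩)
    simp only [List.mem_cons, List.not_mem_nil, or_false, not_or] at hz ⊢
    obtain ⟨a1, a2, a3, a4, a5, a6, a7, a8⟩ := hz
    exact ⟨a4, a3, a2, a1, a7, a8, a5, a6⟩

theorem perpR_two [Finite X] (hP : Prime r) (trans : ∀ x y z, r x y → r y z → r x z)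
    (asymm : ∀ x y, r x y → ¬ r y x) (h : TwoCh r a s t b x s' t' y) : PerpR r := by
  have h3 := three_of_chain trans asymm h.c1 h.c2
  have trans' : ∀ x y z, r y x → r z y → r z x := fun x y z h1 h2 => trans _ _ _ h2 h1
  have asymm' : ∀ x y, r y x → ¬ r x y := fun x y => asymm y x
  have hm : ∀ z, z ∈ [t, s', s, t', a, b, x, y] ↔ z ∈ [s, t', t, s', b, a, y, x] := fun z => by
    simp only [List.mem_cons, List.not_mem_nil, or_false]
    constructor <;> rintro (e | e | e | e | e | e | e | e) <;> simp only [e, true_or, or_true]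
  have key : ∀ p : X → Prop, ¬ ((∀ z, z ∈ [s, t', t, s', b, a, y, x]) ∨
      ∃ z, z ∉ [s, t', t, s', b, a, y, x] ∧ ¬ p z) →
      (∀ z, z ∈ [s, t', t, s', b, a, y, x] ∨ p z) ∧ ∃ z, z ∉ [s, t', t, s', b, a, y, x] :=
    fun p hp => ⟨fun z => (em _).imp_right fun e => not_not.mp fun e' => hp (Or.inr ⟨z, e, e'⟩),
      not_forall.mp fun e => hp (Or.inl e)⟩
  by_cases h1 : (∀ z, z ∈ [s, t', t, s', b, a, y, x]) ∨
      ∃ z, z ∉ [s, t', t, s', b, a, y, x] ∧ ¬ r z s
  swap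
  · exact markTwo_below hP trans asymm h (key _ h1).1 (key _ h1).2
  by_cases h2 : (∀ z, z ∈ [s, t', t, s', b, a, y, x]) ∨
      ∃ z, z ∉ [s, t', t, s', b, a, y, x] ∧ ¬ r t z
  swap
  · refine PerpR.of_flip (markTwo_below hP.flip trans' asymm' h.flip ?_ ?_) <;> simp only [hm]
    exacts [(key _ h2).1, (key _ h2).2]
  obtain ⟨z, z1, z2, z3 | z3⟩ := hP.split h3 trans h.c2 fun e => asymm _ _ h.c2 (e ▸ h.c2)
  · exact markTwo_aux hP trans asymm h ⟨z, z3.1, z2, fun e => z3.2 (e ▸ h.c3)⟩ h2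
  · refine PerpR.of_flip (markTwo_aux hP.flip trans' asymm' h.flip
      ⟨z, z3.1, z1, fun e => z3.2 (e ▸ h.c1)⟩ ?_)
    simp only [hm]
    exact h1

/-- A finite order without nontrivial autonomous set that has two disjoint chains of four points,
whose second points and third points are incomparable, has a perpendicular. -/
theorem two_chains [Finite X] (P : PartialOrder X)
    (hprime : ¬ ∃ A : Set X, A ≠ Set.univ ∧ A.Nontrivial ∧ ∀ x ∉ A,
      ((∃ a ∈ A, P.lt x a) → ∀ a ∈ A, P.lt x a) ∧ ((∃ a ∈ A, P.lt a x) → ∀ a ∈ A, P.lt a x))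
    (h2 : ∃ a s t b x s' t' y, TwoCh P.lt a s t b x s' t' y) :
    ∃ Q : PartialOrder X, ∀ f : X → X, (∀ x y, P.le x y → P.le (f x) (f y)) →
      (∀ x y, Q.le x y → Q.le (f x) (f y)) → f = id ∨ ∃ c, ∀ x, f x = c := by
  obtain ⟨a, s, t, b, x, s', t', y, h⟩ := h2
  exact (perpR_two (r := P.lt) (fun D a b c => hprime ⟨D, a, b, c⟩) (fun _ _ _ => lt_trans)
    (fun _ _ => lt_asymm) h).perp

end Pool.Agent.Lib.MP_04ca4f_co
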