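import Pool.Agent.Lib.MP_04ca4f_co.Lexical

/-!
# Fences along an enumeration of the ground set
-/

set_option autoImplicit false

namespace Pool.Agent.Lib.MP_04ca4f_co

variable {X : Type*}

/-- An injective integer coordinate whose range is an interval. -/
structure IsPath (t : X → ℤ) : Prop where
  inj : ∀ x y, t x = t y → x = y
  conv : ∀ x y k, t x ≤ k → k ≤ t y → ∃ z, t z = k

/-- Equal or neighbours on the path. -/
def Near (t : X → ℤ) (x y : X) : Prop := t x ≤ t y + 1 ∧ t y ≤ t x + 1

/-- Weakly order preserving maps for a strict relation. -/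
def Mono (r : X → X → Prop) (f : X → X) : Prop := ∀ x y, r x y → f x = f y ∨ r (f x) (f y)

/-- Maps that respect the strict relation and the path. -/
structure Good (r : X → X → Prop) (t : X → ℤ) (f : X → X) : Prop where
  mono : Mono r f
  near : ∀ x y, Near t x y → Near t (f x) (f y)

/-- The comparability graph is connected. -/
def Conn (r : X → X → Prop) : Prop :=
  ∀ W : Set X, W.Nonempty → (∀ x ∈ W, ∀ y, r x y ∨ r y x → y ∈ W) → W = Set.univ

/-- No nontrivial autonomous set. -/
def Prime (r : X → X → Prop) : Prop :=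
  ∀ D : Set X, D ≠ Set.univ → D.Nontrivial → ¬ ∀ x ∉ D,
    ((∃ a ∈ D, r x a) → ∀ a ∈ D, r x a) ∧ ((∃ a ∈ D, r a x) → ∀ a ∈ D, r a x)

variable {r : X → X → Prop} {t : X → ℤ}

theorem Prime.flip (h : Prime r) : Prime fun x y => r y x :=
  fun D h1 h2 h3 => h D h1 h2 fun x hx => ⟨(h3 x hx).2, (h3 x hx).1⟩

theorem Prime.conn (h : Prime r) (h3 : ∀ x y : X, ∃ z, z ≠ x ∧ z ≠ y) : Conn r := by
  have closed : ∀ W : Set X, W ≠ Set.univ → W.Nontrivial →
      ¬ ∀ x ∈ W, ∀ y, r x y ∨ r y x → y ∈ W := fun W h1 h2 hc =>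
    h W h1 h2 fun u hu => ⟨fun ⟨a, ha, h'⟩ => absurd (hc a ha u (Or.inr h')) hu,
      fun ⟨a, ha, h'⟩ => absurd (hc a ha u (Or.inl h')) hu⟩
  rintro W ⟨x, hx⟩ hc
  by_contra hW
  by_cases hn : W.Nontrivial
  · exact closed W hW hn hc
  · obtain ⟨y, hy, -⟩ := h3 x x
    obtain ⟨z, hz1, hz2⟩ := h3 x y
    have hs : ∀ u, u ≠ x → u ∉ W := fun u hu hh => hn ⟨u, hh, x, hx, hu⟩
    refine closed Wᶜ (fun hh => ?_) ⟨y, hs y hy, z, hs z hz1, hz2.symm⟩
      fun u hu v huv hv => hu (hc v hv u huv.symm)
    exact (show x ∈ Wᶜ from hh ▸ Set.mem_univ x) hx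

/-- Two distinct points of a prime relation on at least three points are not twins. -/
theorem Prime.not_twin (h : Prime r) (h3 : ∀ x y : X, ∃ z, z ≠ x ∧ z ≠ y) {x y : X}
    (hxy : ∀ z, z ≠ x → z ≠ y → (r x z ↔ r y z) ∧ (r z x ↔ r z y)) : x = y := by
  by_contra hne
  obtain ⟨z, hz1, hz2⟩ := h3 x y
  refine h {x, y} (fun hh => ?_) (Set.nontrivial_pair hne) fun u hu => ?_
  · have : z ∈ ({x, y} : Set X) := hh ▸ Set.mem_univ z
    exact this.elim hz1 hz2
  · have h1 := hxy u (fun hh => hu (Or.inl hh)) fun hh => hu (Or.inr hh)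
    constructor
    · rintro ⟨a, rfl | rfl, ha⟩ a' (rfl | rfl)
      exacts [ha, h1.2.mp ha, h1.2.mpr ha, ha]
    · rintro ⟨a, rfl | rfl, ha⟩ a' (rfl | rfl)
      exacts [ha, h1.1.mp ha, h1.1.mpr ha, ha]

theorem Near.symm {x y : X} (h : Near t x y) : Near t y x := ⟨h.2, h.1⟩

theorem IsPath.neg (h : IsPath t) : IsPath fun x => - t x :=
  ⟨fun x y hxy => h.inj x y (neg_injective hxy), fun x y k h1 h2 => by
    obtain ⟨z, hz⟩ := h.conv y x (-k) (by omega) (by omega)
    exact ⟨z, by omega⟩⟩

theorem Mono.flip {f : X → X} (h : Mono r f) : Mono (fun x y => r y x) f :=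
  fun x y hxy => (h y x hxy).imp Eq.symm id

theorem near_neg {x y : X} : Near (fun x => - t x) x y ↔ Near t x y := by
  simp only [Near]
  omega

theorem Good.dual {f : X → X} (h : Good r t f) : Good (fun x y => r y x) (fun x => - t x) f :=
  ⟨h.mono.flip, fun x y hxy => near_neg.mpr (h.near x y (near_neg.mp hxy))⟩

theorem Mono.comp {f g : X → X} (hf : Mono r f) (hg : Mono r g) : Mono r (f ∘ g) := by
  intro x y h
  rcases hg x y h with h1 | h1
  · exact Or.inl (congrArg f h1)
  · exact hf _ _ h1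

theorem Good.comp {f g : X → X} (hf : Good r t f) (hg : Good r t g) : Good r t (f ∘ g) :=
  ⟨hf.mono.comp hg.mono, fun _ _ h => hf.near _ _ (hg.near _ _ h)⟩

theorem Good.iterate {f : X → X} (hf : Good r t f) (n : ℕ) : Good r t f^[n] := by
  induction' n with n ih
  · exact ⟨fun _ _ h => Or.inr h, fun _ _ h => h⟩
  · rw [Function.iterate_succ']
    exact hf.comp ih

/-- Induction upwards along the path. -/
theorem IsPath.up (h : IsPath t) {W : X → Prop} {u : X} (hu : W u)
    (hs : ∀ x y, t u ≤ t x → t y = t x + 1 → W x → W y) (x : X) (hx : t u ≤ t x) : W x := by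
  obtain ⟨k, hk⟩ := Int.le.dest hx
  induction' k with k ih generalizing x
  · rwa [← h.inj u x (by simpa using hk)]
  · obtain ⟨z, hz⟩ := h.conv u x (t u + k) (by omega) (by push_cast at hk; omega)
    exact hs z x (by omega) (by push_cast at hk; omega) (ih z (by omega) hz.symm)

/-- Induction downwards along the path. -/
theorem IsPath.down (h : IsPath t) {W : X → Prop} {u : X} (hu : W u)
    (hs : ∀ x y, t x ≤ t u → t y + 1 = t x → W x → W y) (x : X) (hx : t x ≤ t u) : W x :=
  h.neg.up hu (fun x y h1 h2 => hs x y (by omega) (by omega)) x (by omega)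

/-- Good maps do not increase distances along the path. -/
theorem Good.lip (h : IsPath t) {f : X → X} (hf : Good r t f) {x y : X} (hxy : t x ≤ t y) :
    t (f y) - t (f x) ≤ t y - t x ∧ t (f x) - t (f y) ≤ t y - t x := by
  refine h.up (W := fun y => t (f y) - t (f x) ≤ t y - t x ∧ t (f x) - t (f y) ≤ t y - t x)
    (u := x) (by simp) (fun a b _ h2 h3 => ?_) y hxy
  have h4 := hf.near a b ⟨by omega, by omega⟩
  have := h4.1
  have := h4.2
  omega

/-- The range of a good map is an interval of the path. -/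
theorem Good.convex (h : IsPath t) {g : X → X} (hg : Good r t g) {u v y : X}
    (h1 : t (g u) ≤ t y) (h2 : t y ≤ t (g v)) : y ∈ Set.range g := by
  by_contra hy
  have hne : ∀ w, t (g w) ≠ t y := fun w hw => hy ⟨w, h.inj _ _ hw⟩
  have h0 : t (g u) < t y := lt_of_le_of_ne h1 (hne u)
  have step : ∀ a b, Near t a b → t (g a) < t y → t (g b) < t y := fun a b hab ha => by
    have h3 := (hg.near a b hab).2
    have h4 := hne b
    omega
  have : t (g v) < t y := by
    rcases le_total (t u) (t v) with huv | huv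
    · exact h.up (W := fun w => t (g w) < t y) h0
        (fun a b _ h4 => step a b ⟨by omega, by omega⟩) v huv
    · exact h.down (W := fun w => t (g w) < t y) h0
        (fun a b _ h4 => step a b ⟨by omega, by omega⟩) v huv
  omega

/-- A set of values that is neither missed nor everything has a comparability leaving it. -/
theorem Mono.exit (hc : Conn r) {g : X → X} (hg : Mono r g) (S : Set X) {u v : X}
    (hu : g u ∈ S) (hv : g v ∉ S) :
    ∃ x y, g x ∈ S ∧ g y ∉ S ∧ (r (g x) (g y) ∨ r (g y) (g x)) := by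
  by_contra hcon
  have := hc {w | g w ∈ S} ⟨u, hu⟩ (fun x hx y hxy => by
    by_contra hy
    rcases hxy with hxy | hxy
    · rcases hg x y hxy with h | h
      · exact hy (show g y ∈ S from h ▸ hx)
      · exact hcon ⟨x, y, hx, hy, Or.inl h⟩
    · rcases hg y x hxy with h | h
      · exact hy (show g y ∈ S from h.symm ▸ hx)
      · exact hcon ⟨x, y, hx, hy, Or.inr h⟩)
  exact hv (show v ∈ {w | g w ∈ S} from this ▸ Set.mem_univ v)

/-- Every point of the range of a nonconstant map is comparable to another one. -/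
theorem Mono.exists_adj (hc : Conn r) {g : X → X} (hg : Mono r g) (hn : ¬ ∃ c, ∀ x, g x = c)
    {y : X} (hy : y ∈ Set.range g) : ∃ z ∈ Set.range g, r y z ∨ r z y := by
  obtain ⟨u, rfl⟩ := hy
  push Not at hn
  obtain ⟨v, hv⟩ := hn (g u)
  obtain ⟨x, y, h1, -, h3⟩ := hg.exit hc {g u} (u := u) (v := v) rfl hv
  exact ⟨g y, ⟨y, rfl⟩, by rwa [show g x = g u from h1] at h3⟩

/-- Kernel classes are closed. -/
theorem Good.closed (hinc : ∀ x y, Near t x y → ¬ r x y) {f : X → X} (hf : Good r t f)
    {c x y z : X} (hx : f x = c) (hy : f y = c) (h1 : Near t x z) (h2 : r y z ∨ r z y) :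
    f z = c := by
  have h3 := hf.near x z h1
  rw [hx] at h3
  rcases h2 with h2 | h2
  · rcases hf.mono y z h2 with h4 | h4
    · rw [← h4, hy]
    · rw [hy] at h4
      exact absurd h4 (hinc _ _ h3)
  · rcases hf.mono z y h2 with h4 | h4
    · rw [h4, hy]
    · rw [hy] at h4
      exact absurd h4 (hinc _ _ h3.symm)

theorem IsPath.shift [Finite X] (h : IsPath t) {f : X → X} {c : ℤ}
    (hc : ∀ x, t (f x) = t x + c) : f = id := by
  funext x
  have : Nonempty X := ⟨x⟩
  obtain ⟨a, ha⟩ := Finite.exists_max t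
  obtain ⟨b, hb⟩ := Finite.exists_min t
  have h1 := ha (f a)
  have h2 := hb (f b)
  have h3 := hc a
  have h4 := hc b
  have h5 := hc x
  exact h.inj _ _ (by simp only [id]; omega)

/-- An injective map respecting the path is the identity or the reversal. -/
theorem IsPath.of_injective [Finite X] (h : IsPath t) {f : X → X}
    (hf : ∀ x y, Near t x y → Near t (f x) (f y)) (hi : Function.Injective f) :
    f = id ∨ ∃ c, ∀ x, t (f x) + t x = c := by
  rcases isEmpty_or_nonempty X with hX | hX
  · exact Or.inl (funext fun x => isEmptyElim x)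
  obtain ⟨b, hb⟩ := Finite.exists_min t
  have hne : ∀ x y, t x ≠ t y → t (f x) ≠ t (f y) := fun x y h1 h2 =>
    h1 (by rw [hi (h.inj _ _ h2)])
  have key : ∀ s : ℤ, (s = 1 ∨ s = -1) → (∀ y, t y = t b + 1 → t (f y) = t (f b) + s) →
      ∀ x, t (f x) - t (f b) = s * (t x - t b) := by
    intro s hs h0 x
    have := h.up (W := fun x => t (f x) - t (f b) = s * (t x - t b) ∧
      ∀ y, t y = t x + 1 → t (f y) = t (f x) + s) (u := b) ⟨by simp, h0⟩
      (fun x y _ h2 h3 => ?_) x (hb x)
    · exact this.1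
    · have h4 := h3.2 y h2
      refine ⟨by rw [h4, h2]; linear_combination h3.1, fun z hz => ?_⟩
      have h5 := hf y z ⟨by omega, by omega⟩
      have h6 := hne y z (by omega)
      have h7 := hne x z (by omega)
      have := h5.1
      have := h5.2
      omega
  by_cases h0 : ∀ y, t y = t b + 1 → t (f y) = t (f b) + 1
  · refine Or.inl (h.shift (c := t (f b) - t b) fun x => ?_)
    have := key 1 (Or.inl rfl) h0 x
    omega
  · refine Or.inr ⟨t (f b) + t b, fun x => ?_⟩
    push Not at h0
    obtain ⟨y, hy, hy'⟩ := h0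
    have := key (-1) (Or.inr rfl) (fun z hz => by
      rw [h.inj z y (by omega)]
      have h5 := hf b y ⟨by omega, by omega⟩
      have h6 := hne b y (by omega)
      have := h5.1
      have := h5.2
      omega) x
    omega

/-- The fence along the path as an order. -/
@[reducible] def fenceOf (_h : IsPath t) : PartialOrder X where
  le x y := x = y ∨ (Near t x y ∧ t x % 2 = 0 ∧ t y % 2 = 1)
  le_refl _ := Or.inl rfl
  le_trans := by
    rintro x y z (rfl | h) h'
    · exact h'
    · rcases h' with rfl | h'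
      · exact Or.inr h
      · omega
  le_antisymm := by
    rintro x y (rfl | h) h'
    · rfl
    · rcases h' with rfl | h'
      · rfl
      · omega

theorem near_of_fenceOf (h : IsPath t) {f : X → X}
    (hf : ∀ x y, (fenceOf h).le x y → (fenceOf h).le (f x) (f y)) (x y : X) (hxy : Near t x y) :
    Near t (f x) (f y) := by
  have key : ∀ x y, (fenceOf h).le x y → Near t (f x) (f y) := by
    intro x y h
    rcases hf x y h with h1 | h1
    · rw [h1]
      exact ⟨by omega, by omega⟩
    · exact h1.1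
  by_cases he : t x = t y
  · rw [h.inj _ _ he]
    exact ⟨by omega, by omega⟩
  · by_cases hp : t x % 2 = 0
    · exact key x y (Or.inr ⟨hxy, hp, by have := hxy.1; have := hxy.2; omega⟩)
    · exact (key y x (Or.inr ⟨hxy.symm, by have := hxy.1; have := hxy.2; omega, by omega⟩)).symm

/-- Reduction to nilpotent, idempotent and injective maps, for any class of maps closed under
composition. -/
theorem trivial_of_cases [Finite X] (G : (X → X) → Prop)
    (hcomp : ∀ f g, G f → G g → G (f ∘ g))
    (hnil : ∀ f g, G f → G g → (¬ ∃ c, ∀ x, g x = c) → ∀ c, (∀ x, f (g x) = c) → ∃ c, ∀ x, f x = c)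
    (hidem : ∀ g, G g → (¬ ∃ c, ∀ x, g x = c) → (∀ x, g (g x) = g x) → ∀ x, g x = x)
    (hinj : ∀ f, G f → Function.Injective f → f = id) {f : X → X} (hf : G f) :
    f = id ∨ ∃ c, ∀ x, f x = c := by
  by_cases hn : ∃ c, ∀ x, f x = c
  · exact Or.inr hn
  left
  have hG : ∀ k, G f^[k + 1] := by
    intro k
    induction' k with k ih
    · simpa using hf
    · rw [Function.iterate_succ']
      exact hcomp _ _ hf ih
  have hnk : ∀ k, ¬ ∃ c, ∀ x, f^[k + 1] x = c := by
    intro k
    induction' k with k ih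
    · simpa using hn
    · rintro ⟨c, hc⟩
      refine hn (hnil f _ hf (hG k) ih c fun x => ?_)
      rw [← hc x, Function.iterate_succ_apply' f (k + 1)]
  obtain ⟨k, hk, hi⟩ := Lexi.exists_iterate_idem f
  obtain ⟨k, rfl⟩ := Nat.exists_eq_succ_of_ne_zero hk.ne'
  have hid := hidem _ (hG k) (hnk k) hi
  refine hinj f hf fun x y h => ?_
  rw [← hid x, ← hid y, Function.iterate_succ_apply, Function.iterate_succ_apply, h]

theorem mono_of_le (P : PartialOrder X) {f : X → X} (hP : ∀ x y, P.le x y → P.le (f x) (f y)) :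
    Mono P.lt f := fun x y h => (hP x y h.le).eq_or_lt

/-- If every good map is trivial, the fence is perpendicular. -/
theorem perp_of_good (P : PartialOrder X) (h : IsPath t)
    (hg : ∀ f, Good P.lt t f → f = id ∨ ∃ c, ∀ x, f x = c) :
    ∃ Q : PartialOrder X, ∀ f : X → X, (∀ x y, P.le x y → P.le (f x) (f y)) →
      (∀ x y, Q.le x y → Q.le (f x) (f y)) → f = id ∨ ∃ c, ∀ x, f x = c :=
  ⟨fenceOf h, fun f hP hQ => hg f ⟨mono_of_le P hP, near_of_fenceOf h hQ⟩⟩

/-- Any injective ranking of a finite set can be compressed to a path. -/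
theorem exists_path [Finite X] (ρ : X → ℤ) (hρ : ∀ x y, ρ x = ρ y → x = y) :
    ∃ t : X → ℤ, IsPath t ∧ ∀ x y, t x < t y ↔ ρ x < ρ y := by
  classical
  cases nonempty_fintype X
  let _ : LinearOrder X := LinearOrder.lift' ρ hρ
  let φ : Fin (Fintype.card X) ≃o X := monoEquivOfFin X rfl
  refine ⟨fun x => ((φ.symm x : ℕ) : ℤ), ⟨fun x y hxy => ?_, fun x y k h1 h2 => ?_⟩,
    fun x y => ?_⟩
  · exact φ.symm.injective (Fin.ext (by exact_mod_cast hxy))
  · have h3 := (φ.symm y).2
    refine ⟨φ ⟨k.toNat, by omega⟩, ?_⟩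
    simp only [OrderIso.symm_apply_apply]
    omega
  · rw [Nat.cast_lt, Fin.val_fin_lt, φ.symm.lt_iff_lt]
    rfl

end Pool.Agent.Lib.MP_04ca4f_co
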