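import Pool.Agent.Lib.MP_04ca4f_co.MarkBuild

/-!
# The pure marker order: four markers around a fence
-/

set_option autoImplicit false

namespace Pool.Agent.Lib.MP_04ca4f_co

variable {X : Type*}

/-- The strict order on places. The places -1, -2 are lower markers, -3, -4 are upper markers,
and the places from 0 on form a fence whose lower places are those of parity e. -/
def Pk (e i j : ℤ) : Prop :=
  ((i = -1 ∨ i = -2) ∧ (j = -3 ∨ j = -4 ∨ 0 ≤ j)) ∨ (0 ≤ i ∧ (j = -3 ∨ j = -4)) ∨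
    (0 ≤ i ∧ 0 ≤ j ∧ i % 2 = e ∧ (j = i + 1 ∨ i = j + 1))

/-- An assignment of places to the points. -/
structure PFrame (l l' u u' : X) (e : ℤ) (t : X → ℤ) : Prop where
  inj : ∀ x y, t x = t y → x = y
  lo : ∀ x, -4 ≤ t x
  conv : ∀ y k, 0 ≤ k → k ≤ t y → ∃ z, t z = k
  par : e = 0 ∨ e = 1
  hl : t l = -1
  hl' : t l' = -2
  hu : t u = -3
  hu' : t u' = -4

/-- The pure marker relation pulled back to the points. -/
def PkR (e : ℤ) (t : X → ℤ) (x y : X) : Prop := Pk e (t x) (t y)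

variable {r : X → X → Prop} {l l' u u' : X} {e : ℤ} {t : X → ℤ} {f : X → X}

theorem PkR.asymm (x y : X) (h1 : PkR e t x y) : ¬ PkR e t y x := by
  unfold PkR Pk at h1 ⊢
  omega

theorem PkR.trans (x y z : X) (h1 : PkR e t x y) (h2 : PkR e t y z) : PkR e t x z := by
  unfold PkR Pk at h1 h2 ⊢
  omega

theorem PFrame.perp (hg : ∀ f, Mono r f → Mono (PkR e t) f → f = id ∨ ∃ c, ∀ x, f x = c) :
    PerpR r := by
  refine ⟨{ le := fun x y => x = y ∨ PkR e t x y
            le_refl := fun _ => Or.inl rfl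
            le_trans := ?_
            le_antisymm := ?_ }, fun f h1 h2 => hg f h1 fun x y hxy => h2 x y (Or.inr hxy)⟩
  · rintro x y z (rfl | h1) h2
    · exact h2
    · rcases h2 with rfl | h2
      · exact Or.inr h1
      · exact Or.inr (PkR.trans _ _ _ h1 h2)
  · rintro x y (rfl | h1) h2
    · rfl
    · rcases h2 with rfl | h2
      · rfl
      · exact absurd h2 (PkR.asymm _ _ h1)

theorem PFrame.cases (h : PFrame l l' u u' e t) (z : X) :
    z = l ∨ z = l' ∨ z = u ∨ z = u' ∨ 0 ≤ t z := by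
  have h1 := h.lo z
  have : t z = t l ∨ t z = t l' ∨ t z = t u ∨ t z = t u' ∨ 0 ≤ t z := by
    rw [h.hl, h.hl', h.hu, h.hu']
    omega
  rcases this with h2 | h2 | h2 | h2 | h2
  exacts [Or.inl (h.inj _ _ h2), Or.inr (Or.inl (h.inj _ _ h2)),
    Or.inr (Or.inr (Or.inl (h.inj _ _ h2))), Or.inr (Or.inr (Or.inr (Or.inl (h.inj _ _ h2)))),
    Or.inr (Or.inr (Or.inr (Or.inr h2)))]

theorem PFrame.nonneg (h : PFrame l l' u u' e t) {z : X} (h1 : z ≠ l) (h2 : z ≠ l') (h3 : z ≠ u)
    (h4 : z ≠ u') : 0 ≤ t z := by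
  rcases h.cases z with a | a | a | a | a
  exacts [absurd a h1, absurd a h2, absurd a h3, absurd a h4, a]

theorem PFrame.ne_of_nonneg (h : PFrame l l' u u' e t) {z : X} (hz : 0 ≤ t z) :
    z ≠ l ∧ z ≠ l' ∧ z ≠ u ∧ z ≠ u' := by
  have a1 := h.hl
  have a2 := h.hl'
  have a3 := h.hu
  have a4 := h.hu'
  refine ⟨?_, ?_, ?_, ?_⟩ <;> rintro rfl <;> omega

theorem PFrame.low_zone (h : PFrame l l' u u' e t) {m z : X} (hm : m = l ∨ m = l')
    (hz : 0 ≤ t z) : PkR e t m z := by
  have h2 : t m = -1 ∨ t m = -2 := hm.imp (fun hh => by rw [hh, h.hl]) fun hh => by rw [hh, h.hl']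
  unfold PkR Pk
  omega

theorem PFrame.zone_up (h : PFrame l l' u u' e t) {m z : X} (hm : m = u ∨ m = u')
    (hz : 0 ≤ t z) : PkR e t z m := by
  have h2 : t m = -3 ∨ t m = -4 := hm.imp (fun hh => by rw [hh, h.hu]) fun hh => by rw [hh, h.hu']
  unfold PkR Pk
  omega

theorem PFrame.low_up (h : PFrame l l' u u' e t) {m m' : X} (hm : m = l ∨ m = l')
    (hm' : m' = u ∨ m' = u') : PkR e t m m' := by
  have h1 : t m = -1 ∨ t m = -2 := hm.imp (fun hh => by rw [hh, h.hl]) fun hh => by rw [hh, h.hl']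
  have h2 : t m' = -3 ∨ t m' = -4 :=
    hm'.imp (fun hh => by rw [hh, h.hu]) fun hh => by rw [hh, h.hu']
  unfold PkR Pk
  omega

/-- A point with a point below and a point above lies in the zone. -/
theorem PkR.mid {x c y : X} (h1 : PkR e t x c) (h2 : PkR e t c y) : 0 ≤ t c := by
  unfold PkR Pk at h1 h2
  omega

/-- Below a lower place there are only the lower markers. -/
theorem PFrame.below_lower (h : PFrame l l' u u' e t) {x c : X} (h1 : PkR e t x c) (hc : 0 ≤ t c)
    (hp : t c % 2 = e) : x = l ∨ x = l' := by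
  have : t x = t l ∨ t x = t l' := by
    rw [h.hl, h.hl']
    unfold PkR Pk at h1
    omega
  exact this.imp (h.inj _ _) (h.inj _ _)

/-- Above an upper place there are only the upper markers. -/
theorem PFrame.above_upper (h : PFrame l l' u u' e t) {x c : X} (h1 : PkR e t c x) (hc : 0 ≤ t c)
    (hp : t c % 2 ≠ e) : x = u ∨ x = u' := by
  have : t x = t u ∨ t x = t u' := by
    rw [h.hu, h.hu']
    unfold PkR Pk at h1
    omega
  exact this.imp (h.inj _ _) (h.inj _ _)

/-- The points below a point of the zone. -/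
theorem PFrame.below (h : PFrame l l' u u' e t) {x c : X} (h1 : PkR e t x c) (hc : 0 ≤ t c) :
    x = l ∨ x = l' ∨ (0 ≤ t x ∧ t x % 2 = e ∧ (t c = t x + 1 ∨ t x = t c + 1)) := by
  have : t x = t l ∨ t x = t l' ∨ (0 ≤ t x ∧ t x % 2 = e ∧ (t c = t x + 1 ∨ t x = t c + 1)) := by
    rw [h.hl, h.hl']
    unfold PkR Pk at h1
    omega
  exact this.imp (h.inj _ _) fun a => a.imp_left (h.inj _ _)

/-- The points above a point of the zone. -/
theorem PFrame.above (h : PFrame l l' u u' e t) {x c : X} (h1 : PkR e t c x) (hc : 0 ≤ t c) :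
    x = u ∨ x = u' ∨ (0 ≤ t x ∧ t c % 2 = e ∧ (t x = t c + 1 ∨ t c = t x + 1)) := by
  have : t x = t u ∨ t x = t u' ∨ (0 ≤ t x ∧ t c % 2 = e ∧ (t x = t c + 1 ∨ t c = t x + 1)) := by
    rw [h.hu, h.hu']
    unfold PkR Pk at h1
    omega
  exact this.imp (h.inj _ _) fun a => a.imp_left (h.inj _ _)

/-- Identifying a lower with an upper marker collapses the zone. -/
theorem PFrame.collapse (h : PFrame l l' u u' e t) (hq : Mono (PkR e t) f) {m m' : X}
    (hm : m = l ∨ m = l') (hm' : m' = u ∨ m' = u') (he : f m = f m') {z : X} (hz : 0 ≤ t z) :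
    f z = f m :=
  hq.between PkR.asymm (h.low_zone hm hz) (h.zone_up hm' hz) he

/-- Lemma N: if every marker lies between two points of the zone, identifying a lower with an
upper marker makes the map constant. -/
theorem PFrame.const (h : PFrame l l' u u' e t) (asymm : ∀ x y, r x y → ¬ r y x) (hf : Mono r f)
    (hq : Mono (PkR e t) f)
    (hb : ∀ m, m = l ∨ m = l' ∨ m = u ∨ m = u' → ∃ p q, 0 ≤ t p ∧ 0 ≤ t q ∧ r p m ∧ r m q)
    {m m' : X} (hm : m = l ∨ m = l') (hm' : m' = u ∨ m' = u') (he : f m = f m') :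
    ∃ c, ∀ x, f x = c := by
  refine ⟨f m, fun x => ?_⟩
  by_cases hx : 0 ≤ t x
  · exact h.collapse hq hm hm' he hx
  · obtain ⟨p, q, hp, hq', h1, h2⟩ := hb x (by
      rcases h.cases x with a | a | a | a | a
      exacts [Or.inl a, Or.inr (Or.inl a), Or.inr (Or.inr (Or.inl a)), Or.inr (Or.inr (Or.inr a)),
        absurd a hx])
    have a1 := h.collapse hq hm hm' he hp
    have a2 := h.collapse hq hm hm' he hq'
    rw [hf.between asymm h1 h2 (a1.trans a2.symm), a1]

/-- If the markers are fixed, the zone is invariant. -/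
theorem PFrame.zone_inv (h : PFrame l l' u u' e t) (hq : Mono (PkR e t) f) (e1 : f l = l)
    (e2 : f l' = l') (e3 : f u = u) (e4 : f u' = u') {z : X} (hz : 0 ≤ t z) : 0 ≤ t (f z) := by
  have hq' : ∀ x y, PkR e t x y → t (f x) = t (f y) ∨ Pk e (t (f x)) (t (f y)) :=
    fun x y hxy => (hq x y hxy).imp_left (congrArg t)
  have a1 := hq' l z (h.low_zone (Or.inl rfl) hz)
  have a2 := hq' l' z (h.low_zone (Or.inr rfl) hz)
  have a3 := hq' z u (h.zone_up (Or.inl rfl) hz)
  have a4 := hq' z u' (h.zone_up (Or.inr rfl) hz)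
  rw [e1, h.hl] at a1
  rw [e2, h.hl'] at a2
  rw [e3, h.hu] at a3
  rw [e4, h.hu'] at a4
  unfold Pk at a1 a2 a3 a4
  omega

/-- If the zone is invariant, neighbours go to neighbours. -/
theorem PFrame.near (h : PFrame l l' u u' e t) (hq : Mono (PkR e t) f)
    (hz : ∀ z, 0 ≤ t z → 0 ≤ t (f z)) {x y : X} (hx : 0 ≤ t x) (hy : t y = t x + 1) :
    t (f y) ≤ t (f x) + 1 ∧ t (f x) ≤ t (f y) + 1 := by
  have hq' : ∀ x y, Pk e (t x) (t y) → t (f x) = t (f y) ∨ Pk e (t (f x)) (t (f y)) :=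
    fun x y hxy => (hq x y hxy).imp_left (congrArg t)
  have a1 := hz x hx
  have a2 := hz y (by omega)
  have := h.par
  by_cases hp : t x % 2 = e
  · have a3 := hq' x y (by unfold Pk; omega)
    unfold Pk at a3
    omega
  · have a3 := hq' y x (by unfold Pk; omega)
    unfold Pk at a3
    omega

/-- If the zone is invariant, distances in the zone do not grow. -/
theorem PFrame.lip (h : PFrame l l' u u' e t) (hq : Mono (PkR e t) f)
    (hz : ∀ z, 0 ≤ t z → 0 ≤ t (f z)) {x y : X} (hx : 0 ≤ t x) (hxy : t x ≤ t y) :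
    t (f y) - t (f x) ≤ t y - t x ∧ t (f x) - t (f y) ≤ t y - t x := by
  obtain ⟨k, hk⟩ := Int.le.dest hxy
  induction' k with k ih generalizing y
  · rw [h.inj y x (by simpa using hk.symm)]
    omega
  · push_cast at hk
    obtain ⟨z, hz'⟩ := h.conv y (t x + k) (by omega) (by omega)
    have a1 := ih (y := z) (by omega) hz'.symm
    have a2 := h.near hq hz (x := z) (y := y) (by omega) (by omega)
    omega

/-- A witness against moving w to y. -/
def PWit (r : X → X → Prop) (w y z : X) : Prop :=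
  (r w z ∧ y ≠ z ∧ ¬ r y z) ∨ (r z w ∧ z ≠ y ∧ ¬ r z y)

theorem Mono.not_pwit (hf : Mono r f) {w z : X} (hz : f z = z) : ¬ PWit r w (f w) z := by
  rintro (⟨h1, h2, h3⟩ | ⟨h1, h2, h3⟩)
  · rcases hf _ _ h1 with a | a <;> rw [hz] at a
    exacts [h2 a, h3 a]
  · rcases hf _ _ h1 with a | a <;> rw [hz] at a
    exacts [h2 a, h3 a]

theorem pwit_of_not_dom {w y : X} (h : ¬ Dom r w y) : ∃ z, z ≠ w ∧ PWit r w y z := by
  by_contra hc
  refine h fun z hz => ⟨fun a => ?_, fun a => ?_⟩
  · by_contra b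
    exact hc ⟨z, hz, Or.inl ⟨a, fun c => b (Or.inl c), fun c => b (Or.inr c)⟩⟩
  · by_contra b
    exact hc ⟨z, hz, Or.inr ⟨a, fun c => b (Or.inl c), fun c => b (Or.inr c)⟩⟩

/-- Core of lemma FIN. The left block ends at p, the right block starts at q. -/
theorem PFrame.fin_core (h : PFrame l l' u u' e t) (hf : Mono r f) (hq : Mono (PkR e t) f)
    (e1 : f l = l) (e2 : f l' = l') (e3 : f u = u) (e4 : f u' = u') {p q : X} (hp : 0 ≤ t p)
    (hpq : t p ≤ t q) (iD : ∀ x, 0 ≤ t x → t x ≤ t p → t (f x) ≤ t p)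
    (iU : ∀ x, t q ≤ t x → t q ≤ t (f x))
    (wD : ∀ x y, 0 ≤ t x → t x < t y → t y ≤ t p →
      ∃ z, (t z < 0 ∨ (t p ≤ t z ∧ t z ≤ t q)) ∧ PWit r x y z)
    (wU : ∀ x y, t q ≤ t y → t y < t x →
      ∃ z, (t z < 0 ∨ (t p ≤ t z ∧ t z ≤ t q)) ∧ PWit r x y z) : f = id := by
  have hz : ∀ z, 0 ≤ t z → 0 ≤ t (f z) := fun z => h.zone_inv hq e1 e2 e3 e4
  have a1 := iD p hp le_rfl
  have a2 := iU q le_rfl
  have fix : ∀ z, t z < 0 ∨ (t p ≤ t z ∧ t z ≤ t q) → f z = z := by
    rintro z (h1 | ⟨h1, h2⟩)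
    · rcases h.cases z with rfl | rfl | rfl | rfl | a
      exacts [e1, e2, e3, e4, absurd a (by omega)]
    · have a3 := h.lip hq hz hp h1
      have a4 := h.lip hq hz (hp.trans h1) h2
      exact h.inj _ _ (by omega)
  have up : ∀ k : ℕ, ∀ x, t x = t q + k → f x = x := by
    intro k
    induction' k with k ih
    · intro x hx
      exact fix x (Or.inr (by omega))
    · intro x hx
      push_cast at hx
      obtain ⟨y, hy⟩ := h.conv x (t q + k) (by omega) (by omega)
      have a3 := h.near hq hz (x := y) (y := x) (by omega) (by omega)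
      rw [ih y hy] at a3
      by_contra hne
      have a4 : t (f x) ≠ t x := fun a => hne (h.inj _ _ a)
      obtain ⟨z, hz1, hz2⟩ := wU x (f x) (iU x (by omega)) (by omega)
      exact hf.not_pwit (fix z hz1) hz2
  have down : ∀ k : ℕ, ∀ x, 0 ≤ t x → t x + k = t p → f x = x := by
    intro k
    induction' k with k ih
    · intro x _ hx
      exact fix x (Or.inr (by omega))
    · intro x h0 hx
      push_cast at hx
      obtain ⟨y, hy⟩ := h.conv p (t x + 1) (by omega) (by omega)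
      have a3 := h.near hq hz (x := x) (y := y) h0 hy
      rw [ih y (by omega) (by omega)] at a3
      by_contra hne
      have a4 : t (f x) ≠ t x := fun a => hne (h.inj _ _ a)
      obtain ⟨z, hz1, hz2⟩ := wD x (f x) h0 (by omega) (iD x h0 (by omega))
      exact hf.not_pwit (fix z hz1) hz2
  funext x
  by_cases h1 : t q ≤ t x
  · exact up (t x - t q).toNat x (by omega)
  by_cases h2 : 0 ≤ t x ∧ t x ≤ t p
  · exact down (t p - t x).toNat x h2.1 (by omega)
  · exact fix x (by omega)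

/-- Lemma FIN. The sets D and U are the end blocks of the zone. -/
theorem PFrame.fin [Finite X] (h : PFrame l l' u u' e t) (asymm : ∀ x y, r x y → ¬ r y x)
    (hf : Mono r f) (hq : Mono (PkR e t) f)
    (e1 : f l = l) (e2 : f l' = l') (e3 : f u = u) (e4 : f u' = u') (D U : X → Prop)
    (zD : ∀ x, D x → 0 ≤ t x) (zU : ∀ x, U x → 0 ≤ t x) (nD : ∃ x, D x) (nU : ∃ x, U x)
    (dis : ∀ x, D x → ¬ U x)
    (eD : ∀ x y, D x → 0 ≤ t y → ¬ D y → t x < t y) (eU : ∀ x y, U x → 0 ≤ t y → ¬ U y → t y < t x)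
    (iD : ∀ x, D x → D (f x)) (iU : ∀ x, U x → U (f x))
    (aD : ∀ x y, D x → D y → ¬ r x y) (aU : ∀ x y, U x → U y → ¬ r x y)
    (sD : ∀ x y, D x → D y → t x < t y → ¬ Dom r x y)
    (sU : ∀ x y, U x → U y → t y < t x → ¬ Dom r x y)
    (hDU : (∀ x y, D x → D y → x = y) ∨ (∀ x y, U x → U y → x = y) ∨
      (∀ x y, D x → U y → r x y) ∨ ∀ x y, D x → U y → r y x) : f = id := by
  obtain ⟨p, hp, hpm⟩ := Set.exists_max_image {x | D x} t (Set.toFinite _) nD
  obtain ⟨q, hq', hqm⟩ := Set.exists_min_image {x | U x} t (Set.toFinite _) nU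
  have cD : ∀ x, 0 ≤ t x → t x ≤ t p → D x := fun x h1 h2 => by
    by_contra a
    have := eD p x hp h1 a
    omega
  have cU : ∀ x, t q ≤ t x → U x := fun x h2 => by
    by_contra a
    have := eU q x hq' ((zU q hq').trans h2) a
    omega
  have hpq : t p < t q := eU q p hq' (zD p hp) (dis p hp)
  refine h.fin_core hf hq e1 e2 e3 e4 (zD p hp) hpq.le (fun x h1 h2 => hpm _ (iD x (cD x h1 h2)))
    (fun x h1 => hqm _ (iU x (cU x h1))) (fun x y h1 h2 h3 => ?_) fun x y h1 h2 => ?_
  · have dx := cD x h1 (by omega)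
    have dy := cD y (by omega) h3
    obtain ⟨z, -, hz⟩ := pwit_of_not_dom (sD x y dx dy h2)
    refine ⟨z, ?_, hz⟩
    have nz : ¬ D z := fun a => hz.elim (fun b => aD _ _ dx a b.1) fun b => aD _ _ a dx b.1
    by_cases h0 : t z < 0
    · exact Or.inl h0
    have := eD p z hp (by omega) nz
    refine Or.inr ⟨by omega, ?_⟩
    by_contra hc
    have uz := cU z (by omega)
    rcases hDU with a | a | a | a
    · rw [a x y dx dy] at h2
      exact lt_irrefl _ h2
    · rw [a z q uz hq'] at hc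
      exact hc le_rfl
    · exact hz.elim (fun b => b.2.2 (a _ _ dy uz)) fun b => asymm _ _ b.1 (a _ _ dx uz)
    · exact hz.elim (fun b => asymm _ _ b.1 (a _ _ dx uz)) fun b => b.2.2 (a _ _ dy uz)
  · have ux := cU x (by omega)
    have uy := cU y h1
    obtain ⟨z, -, hz⟩ := pwit_of_not_dom (sU x y ux uy h2)
    refine ⟨z, ?_, hz⟩
    have nz : ¬ U z := fun a => hz.elim (fun b => aU _ _ ux a b.1) fun b => aU _ _ a ux b.1
    by_cases h0 : t z < 0
    · exact Or.inl h0
    have := eU q z hq' (by omega) nz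
    refine Or.inr ⟨?_, by omega⟩
    by_contra hc
    have dz := cD z (by omega) (by omega)
    rcases hDU with a | a | a | a
    · rw [a z p dz hp] at hc
      exact hc le_rfl
    · rw [a x y ux uy] at h2
      exact lt_irrefl _ h2
    · exact hz.elim (fun b => asymm _ _ b.1 (a _ _ dz ux)) fun b => b.2.2 (a _ _ dz uy)
    · exact hz.elim (fun b => b.2.2 (a _ _ dz uy)) fun b => asymm _ _ b.1 (a _ _ dz ux)

/-- An injective refinement of a key. -/
theorem exists_inj_key [Finite X] (κ : X → ℕ) :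
    ∃ g : X → ℕ, (∀ x y, g x = g y → x = y) ∧ ∀ x y, κ x < κ y → g x < g y := by
  obtain ⟨n, ⟨φ⟩⟩ := Finite.exists_equiv_fin X
  have key : ∀ x y, κ x < κ y → κ x * n + (φ x : ℕ) < κ y * n + (φ y : ℕ) := fun x y hxy => by
    have h1 := (φ x).2
    have h2 : (κ x + 1) * n ≤ κ y * n := Nat.mul_le_mul_right n hxy
    rw [add_mul, one_mul] at h2
    omega
  refine ⟨fun x => κ x * n + φ x, fun x y hxy => ?_, key⟩
  rcases lt_trichotomy (κ x) (κ y) with a | a | a
  · exact absurd hxy (key x y a).ne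
  · simp only [a] at hxy
    exact φ.injective (Fin.ext (by omega))
  · exact absurd hxy (key y x a).ne'

/-- A pure frame whose zone is sorted by a given key. -/
theorem exists_pframe [Finite X] (hd : [l, l', u, u'].Nodup) (he : e = 0 ∨ e = 1) (κ : X → ℕ) :
    ∃ t : X → ℤ, PFrame l l' u u' e t ∧ ∀ x y, 0 ≤ t x → 0 ≤ t y → κ x < κ y → t x < t y := by
  classical
  obtain ⟨g, g1, g2⟩ := exists_inj_key κ
  simp only [List.nodup_cons, List.mem_cons, List.not_mem_nil, or_false, not_or] at hd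
  obtain ⟨⟨d1, d2, d3⟩, ⟨d4, d5⟩, d6, -⟩ := hd
  let ρ : X → ℤ := fun z => if z = l then -1 else if z = l' then -2 else if z = u then -3
    else if z = u' then -4 else g z
  have t1 : ρ l = -1 := if_pos rfl
  have t2 : ρ l' = -2 := by simp only [ρ, if_neg (Ne.symm d1), if_true]
  have t3 : ρ u = -3 := by simp only [ρ, if_neg (Ne.symm d2), if_neg (Ne.symm d4), if_true]
  have t4 : ρ u' = -4 := by
    simp only [ρ, if_neg (Ne.symm d3), if_neg (Ne.symm d5), if_neg (Ne.symm d6), if_true]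
  have hcase : ∀ z, (z = l ∧ ρ z = -1) ∨ (z = l' ∧ ρ z = -2) ∨ (z = u ∧ ρ z = -3) ∨
      (z = u' ∧ ρ z = -4) ∨ ρ z = g z := by
    intro z
    by_cases e1 : z = l
    · exact Or.inl ⟨e1, e1 ▸ t1⟩
    by_cases e2 : z = l'
    · exact Or.inr (Or.inl ⟨e2, e2 ▸ t2⟩)
    by_cases e3 : z = u
    · exact Or.inr (Or.inr (Or.inl ⟨e3, e3 ▸ t3⟩))
    by_cases e4 : z = u'
    · exact Or.inr (Or.inr (Or.inr (Or.inl ⟨e4, e4 ▸ t4⟩)))
    right; right; right; right
    simp only [ρ, if_neg e1, if_neg e2, if_neg e3, if_neg e4]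
  obtain ⟨s, hs, ho⟩ := exists_path ρ (fun x y hxy => by
    rcases hcase x with a | a | a | a | a <;> rcases hcase y with b | b | b | b | b <;>
      first
        | exact a.1.trans b.1.symm
        | exact g1 x y (by omega))
  have step : ∀ x y, ρ y = ρ x + 1 → s y = s x + 1 := fun x y hxy => by
    have a1 := (ho x y).mpr (by omega)
    by_contra hne
    obtain ⟨z, hz⟩ := hs.conv x y (s x + 1) (by omega) (by omega)
    have a2 := (ho x z).mp (by omega)
    have a3 := (ho z y).mp (by omega)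
    omega
  have s1 := step l' l (by omega)
  have s2 := step u l' (by omega)
  have s3 := step u' u (by omega)
  refine ⟨fun z => s z - s l - 1, ⟨fun x y hxy => hs.inj x y (by omega), fun x => ?_,
    fun y k h1 h2 => ?_, he, by omega, by omega, by omega, by omega⟩, fun x y hx hy hxy => ?_⟩
  · have a1 := ho x u'
    have := hcase x
    omega
  · obtain ⟨z, hz⟩ := hs.conv l y (k + s l + 1) (by omega) (by omega)
    exact ⟨z, by omega⟩
  · beta_reduce at hx hy ⊢
    have a1 := (ho l x).mp (by omega)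
    have a2 := (ho l y).mp (by omega)
    have a3 := g2 x y hxy
    have a4 := ho x y
    have := hcase x
    have := hcase y
    omega

/-- The number of points comparable to w. -/
noncomputable def compCard (r : X → X → Prop) (w : X) : ℕ := {z | r w z ∨ r z w}.ncard

/-- A point cannot be moved alone to a point with at most as many comparabilities. -/
theorem Prime.not_dom_of_card [Finite X] (h : Prime r) (h3 : ∀ x y : X, ∃ z, z ≠ x ∧ z ≠ y)
    (asymm : ∀ x y, r x y → ¬ r y x) {w y : X} (hne : y ≠ w)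
    (hc : compCard r y ≤ compCard r w) : ¬ Dom r w y := by
  classical
  refine fun hd => hne.symm (h.not_dom h3 hd ?_)
  have hsub : Equiv.swap w y '' {z | r w z ∨ r z w} ⊆ {z | r y z ∨ r z y} := by
    rintro z ⟨v, hv, rfl⟩
    have h1 : v ≠ w := fun a => by
      rw [a] at hv
      exact hv.elim (fun a => asymm _ _ a a) fun a => asymm _ _ a a
    by_cases h2 : v = y
    · rw [h2, Equiv.swap_apply_right]
      exact h2 ▸ Or.symm hv
    · rw [Equiv.swap_apply_of_ne_of_ne h1 h2]
      exact Or.imp (fun a => ((hd v h1).1 a).resolve_left (Ne.symm h2))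
        (fun a => ((hd v h1).2 a).resolve_left h2) hv
  have heq := Set.eq_of_subset_of_ncard_le hsub (by
    rw [Set.ncard_image_of_injective _ (Equiv.swap w y).injective]
    exact hc)
  intro z hz
  by_cases h1 : z = w
  · exact ⟨fun _ => Or.inl h1.symm, fun _ => Or.inl h1⟩
  have key : r y z ∨ r z y → r w z ∨ r z w := fun a => by
    have h2 : z ∈ {z | r y z ∨ r z y} := a
    rw [← heq] at h2
    obtain ⟨v, hv, hvz⟩ := h2
    rw [Equiv.swap_apply_eq_iff, Equiv.swap_apply_of_ne_of_ne h1 hz] at hvz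
    exact hvz ▸ hv
  refine ⟨fun a => Or.inr ((key (Or.inl a)).resolve_right fun b => ?_),
    fun a => Or.inr ((key (Or.inr a)).resolve_left fun b => ?_)⟩
  · exact asymm _ _ a (((hd z h1).2 b).resolve_left hz)
  · exact asymm _ _ a (((hd z h1).1 b).resolve_left (Ne.symm hz))

end Pool.Agent.Lib.MP_04ca4f_co
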