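import Pool.Agent.Lib.MP_04ca4f_co.PureFrame
import Pool.Agent.Lib.MP_04ca4f_co.MarkTwo

/-!
# Two chains of four points with a common bottom, and orders of height four
-/

set_option autoImplicit false

namespace Pool.Agent.Lib.MP_04ca4f_co

variable {X : Type*} {r : X → X → Prop}

/-- A prime order has a second minimal point. -/
theorem Prime.exists_min_ne [Finite X] (hP : Prime r) (trans : ∀ x y z, r x y → r y z → r x z)
    (asymm : ∀ x y, r x y → ¬ r y x) {a s s' : X} (h1 : r a s) (h2 : r a s') (hs : s ≠ s')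
    (ha : ∀ x, ¬ r x a) : ∃ p, p ≠ a ∧ ∀ x, ¬ r x p := by
  have irr : ∀ x, ¬ r x x := fun x hx => asymm _ _ hx hx
  have : IsTrans X r := ⟨trans⟩
  have : Std.Irrefl r := ⟨irr⟩
  have wf : WellFounded r := Finite.wellFounded_of_trans_of_irrefl r
  have hne : {z | z ≠ a ∧ ¬ r a z}.Nonempty := by
    by_contra hc
    have hall : ∀ z, z ≠ a → r a z := fun z hz => by
      by_contra h
      exact hc ⟨z, hz, h⟩
    refine hP {z | z ≠ a} (fun h => ?_) ⟨s, fun h => irr _ (h ▸ h1), s', fun h => irr _ (h ▸ h2), hs⟩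
      fun x hx => ?_
    · exact (show a ∈ {z | z ≠ a} from h ▸ Set.mem_univ a) rfl
    · obtain rfl : x = a := not_not.mp hx
      exact ⟨fun _ z hz => hall z hz, fun ⟨z, _, h⟩ => absurd h (ha z)⟩
  obtain ⟨p, hp, hmin⟩ := wf.has_min _ hne
  exact ⟨p, hp.1, fun x hx => hmin x ⟨fun h => hp.2 (h ▸ hx), fun h => hp.2 (trans _ _ _ h hx)⟩ hx⟩

/-- In the pure frame for two chains with a common bottom, a nonconstant map fixes the bottom and
the markers. -/
theorem PFrame.shared_fix {a s t s' t' b b' p : X} {τ : X → ℤ} {f : X → X}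
    (h : PFrame s t' t s' 1 τ) (trans : ∀ x y z, r x y → r y z → r x z)
    (asymm : ∀ x y, r x y → ¬ r y x) (c1 : r a s) (d1 : r a s') (c2 : r s t) (d2 : r s' t')
    (c3 : r t b) (d3 : r t' b') (i1 : ¬ r s s') (i2 : ¬ r s' s) (i3 : ¬ r t t') (i4 : ¬ r t' t)
    (H : ∀ x m, r x m → r m t ∨ r m t' → x = a) (ha : τ a = 0) (hp : τ p = 1)
    (hmin : ∀ x, ¬ r x p) (hb : 0 ≤ τ b) (hb' : 0 ≤ τ b') (hf : Mono r f) (hq : Mono (PkR 1 τ) f)
    (hc : ¬ ∃ c, ∀ x, f x = c) : f a = a ∧ f s = s ∧ f t' = t' ∧ f t = t ∧ f s' = s' := by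
  have irr : ∀ x, ¬ r x x := fun x hx => asymm _ _ hx hx
  have ha0 : 0 ≤ τ a := ha.ge
  have htt : t ≠ t' := fun e => by
    have := h.hl'
    have := h.hu
    rw [e] at this
    omega
  have N : ∀ m m', m = s ∨ m = t' → m' = t ∨ m' = s' → f m ≠ f m' := fun m m' hm hm' he =>
    hc (h.const asymm hf hq (by
      rintro m (rfl | rfl | rfl | rfl)
      exacts [⟨a, b, ha0, hb, c1, trans _ _ _ c2 c3⟩, ⟨a, b', ha0, hb', trans _ _ _ d1 d2, d3⟩,
        ⟨a, b, ha0, hb, trans _ _ _ c1 c2, c3⟩, ⟨a, b', ha0, hb', d1, trans _ _ _ d2 d3⟩])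
      hm hm' he)
  have p1 : r (f s) (f t) := (hf _ _ c2).resolve_left (N _ _ (Or.inl rfl) (Or.inl rfl))
  have p2 : r (f s') (f t') :=
    (hf _ _ d2).resolve_left fun e => N _ _ (Or.inr rfl) (Or.inr rfl) e.symm
  have p3 := hf _ _ c1
  have p4 := hf _ _ d1
  have p5 : ∀ x, r x (f t) → r x (f b) := fun x hx =>
    (hf _ _ c3).elim (fun e => e ▸ hx) fun e => trans _ _ _ hx e
  have p6 : ∀ x, r x (f t') → r x (f b') := fun x hx =>
    (hf _ _ d3).elim (fun e => e ▸ hx) fun e => trans _ _ _ hx e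
  have q1 := hq _ _ (h.low_zone (Or.inl rfl) ha0)
  have q2 := hq _ _ (h.low_zone (Or.inr rfl) ha0)
  have q3 := hq _ _ (h.zone_up (Or.inl rfl) ha0)
  have q4 := hq _ _ (h.zone_up (Or.inr rfl) ha0)
  have belowa : ∀ x, PkR 1 τ x a → x = s ∨ x = t' ∨ x = p := fun x hx =>
    (h.below hx ha0).imp_right fun e => e.imp_right fun e => h.inj _ _ (by omega)
  -- a lower point of the zone is not a
  have nlow : ∀ c, τ c % 2 = 1 → c ≠ a := fun c hc e => by
    rw [e, ha] at hc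
    omega
  -- below a lower marker
  have Hl : ∀ x m y, r x m → r m y → y = s ∨ y = t' → x = a := by
    rintro x m y h1 h2 (rfl | rfl)
    exacts [H x m h1 (Or.inl (trans _ _ _ h2 c2)), H x m h1 (Or.inr h2)]
  have Hs' : ∀ x m, r x m → ¬ r m s' := fun x m h1 h2 => by
    have e1 := H x m h1 (Or.inr (trans _ _ _ h2 d2))
    have e2 := H m s' h2 (Or.inr d2)
    exact irr a (by rwa [e1, e2] at h1)
  have n1 : f a ≠ f s := by
    intro he
    have r1 : r (f a) (f s') := p4.resolve_left fun e =>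
      N _ _ (Or.inl rfl) (Or.inr rfl) (he.symm.trans e)
    have r2 := trans _ _ _ r1 p2
    have k1 : PkR 1 τ (f t') (f a) := q2.resolve_left fun e => irr _ (e ▸ r2)
    have k2 : PkR 1 τ (f a) (f s') := q4.resolve_left fun e => irr _ (e ▸ r1)
    have hz := k1.mid k2
    by_cases hpar : τ (f a) % 2 = 1
    · exact nlow _ hpar (Hl _ _ _ r1 p2 (h.below_lower k1 hz hpar))
    have k3 : f b' = f a ∨ f b' = t ∨ f b' = s' := by
      rcases hq _ _ (h.low_zone (Or.inl rfl) hb') with e | e <;> rw [← he] at e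
      exacts [Or.inl e.symm, Or.inr (h.above_upper e hz hpar)]
    have r3 := p6 _ p2
    rcases h.above_upper k2 hz hpar with e | e <;> rw [e] at r1 p2 r3
    · rcases k3 with e' | e' | e' <;> rw [e'] at r3
      exacts [asymm _ _ r1 r3, irr _ r3, i1 (trans _ _ _ c2 r3)]
    · have e1 := H _ _ r1 (Or.inr d2)
      have e2 : f b' = t := by
        rcases k3 with e' | e' | e'
        · exact absurd (e' ▸ r3) (asymm _ _ r1)
        · exact e'
        · exact absurd (e' ▸ r3) (irr _)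
      rw [e1] at k1
      rcases belowa _ k1 with e' | e' | e'
      · exact i2 (e' ▸ p2)
      · rcases hf _ _ d3 with e'' | e'' <;> rw [e', e2] at e''
        exacts [htt e''.symm, i4 e'']
      · exact hmin _ (e' ▸ p2)
  have r1 : r (f a) (f s) := p3.resolve_left n1
  have r2 := trans _ _ _ r1 p1
  have k1 : PkR 1 τ (f s) (f a) := q1.resolve_left n1.symm
  have k2 : PkR 1 τ (f a) (f t) := q3.resolve_left fun e => irr _ (e ▸ r2)
  have hz := k1.mid k2
  have upper : τ (f a) % 2 ≠ 1 → f a = a ∧ f t = t := fun hpar => by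
    rcases h.above_upper k2 hz hpar with e | e
    · exact ⟨H _ _ r1 (Or.inl (e ▸ p1)), e⟩
    · exact absurd (e ▸ p1) (Hs' _ _ r1)
  have n2 : f a ≠ f s' := by
    intro he
    have k3 : f b = f a ∨ PkR 1 τ (f b) (f a) := by
      rw [he]
      exact hq _ _ (h.zone_up (Or.inr rfl) hb)
    by_cases hpar : τ (f a) % 2 = 1
    · rcases h.below_lower k1 hz hpar with e | e
      · exact nlow _ hpar (H _ _ (e ▸ r1) (Or.inl c2))
      · have r3 := p5 _ p1
        rw [e] at r1 r3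
        rcases k3 with e' | e'
        · exact asymm _ _ r1 (e' ▸ r3)
        · rcases h.below_lower e' hz hpar with e'' | e'' <;> rw [e''] at r3
          exacts [i2 (trans _ _ _ d2 r3), irr _ r3]
    · obtain ⟨e1, e2⟩ := upper hpar
      have r3 : r s (f b) := p5 _ (e2.symm ▸ c2)
      rw [e1] at k3
      rcases k3 with e' | e'
      · exact asymm _ _ c1 (e' ▸ r3)
      · rcases belowa _ e' with e'' | e'' | e''
        · exact irr _ (e'' ▸ r3)
        · rcases hf _ _ c3 with e3 | e3 <;> rw [e'', e2] at e3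
          exacts [htt e3, i3 e3]
        · exact hmin _ (e'' ▸ r3)
  have r3 : r (f a) (f s') := p4.resolve_left n2
  have r4 := trans _ _ _ r3 p2
  have k3 : PkR 1 τ (f t') (f a) := q2.resolve_left fun e => irr _ (e ▸ r4)
  have k4 : PkR 1 τ (f a) (f s') := q4.resolve_left n2
  have hpar : τ (f a) % 2 ≠ 1 := fun hpar =>
    nlow _ hpar (Hl _ _ _ r3 p2 (h.below_lower k3 hz hpar))
  obtain ⟨e1, e2⟩ := upper hpar
  have k5 := h.above_upper k4 hz hpar
  rw [e1] at k1 k3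
  have e3 : f t' = t' := by
    rcases belowa _ k3 with e | e | e
    · rcases k5 with e' | e' <;> rw [e, e'] at p2
      exacts [absurd p2 (asymm _ _ c2), absurd p2 i2]
    · exact e
    · exact absurd (e ▸ p2) (hmin _)
  have e4 : f s' = s' := k5.resolve_left fun e => i3 (by rwa [e, e3] at p2)
  have e5 : f s = s := by
    rcases belowa _ k1 with e | e | e
    · exact e
    · exact absurd (by rwa [e, e2] at p1) i4
    · exact absurd (e ▸ r1) (hmin _)
  exact ⟨e1, e5, e3, e2, e4⟩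

/-- Two chains a < s < t < b and a < s' < t' < b' with a common bottom. -/
theorem perpR_shared [Finite X] (hP : Prime r) (trans : ∀ x y z, r x y → r y z → r x z)
    (asymm : ∀ x y, r x y → ¬ r y x) {a s t s' t' : X} (c1 : r a s) (d1 : r a s') (c2 : r s t)
    (d2 : r s' t') (hs : s ≠ s') (ht : t ≠ t') (i1 : ¬ r s s') (i2 : ¬ r s' s) (i3 : ¬ r t t')
    (i4 : ¬ r t' t) (H : ∀ x m, r x m → r m t ∨ r m t' → x = a) (hb : ∃ b, r t b)
    (hb' : ∃ b', r t' b') (anti : ∀ x y, r t x → ¬ r x y) : PerpR r := by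
  classical
  obtain ⟨b, c3⟩ := hb
  obtain ⟨b', d3⟩ := hb'
  have irr : ∀ x, ¬ r x x := fun x hx => asymm _ _ hx hx
  have ne : ∀ x y, r x y → x ≠ y := fun x y h e => irr y (e ▸ h)
  have h3 := three_of_chain trans asymm c1 c2
  have cat := trans _ _ _ c1 c2
  have hamin : ∀ x, ¬ r x a := fun x hx => ne _ _ hx (H x a hx (Or.inl cat))
  obtain ⟨p, hpa, hmin⟩ := hP.exists_min_ne trans asymm c1 d1 hs hamin
  have hd : [s, t', t, s'].Nodup := by
    simp only [List.nodup_cons, List.mem_cons, List.not_mem_nil, or_false, not_or]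
    exact ⟨⟨fun e => i2 (e ▸ d2), ne _ _ c2, hs⟩, ⟨ht.symm, (ne _ _ d2).symm⟩,
      fun e => i1 (e ▸ c2), not_false, List.nodup_nil⟩
  let κ : X → ℕ := fun z => if r t z then 3 + compCard r z else if z = a then 0
    else if z = p then 1 else 2
  have κU : ∀ z, r t z → κ z = 3 + compCard r z := fun z hz => if_pos hz
  have κa : κ a = 0 := by simp only [κ, if_neg (hamin t), if_true]
  have κp : κ p = 1 := by simp only [κ, if_neg (hmin t), if_neg hpa, if_true]
  have κN : ∀ z, ¬ r t z → κ z ≤ 2 := fun z hz => by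
    simp only [κ, if_neg hz]
    split_ifs <;> omega
  have κ1 : ∀ z, z ≠ a → 1 ≤ κ z := fun z hz => by
    simp only [κ, if_neg hz]
    split_ifs <;> omega
  have κ2 : ∀ z, z ≠ a → z ≠ p → 2 ≤ κ z := fun z hz hz' => by
    simp only [κ, if_neg hz, if_neg hz']
    split_ifs <;> omega
  obtain ⟨τ, h, hκ⟩ := exists_pframe hd (Or.inr rfl : (1 : ℤ) = 0 ∨ (1 : ℤ) = 1) κ
  have zmin : ∀ z, (∀ x, ¬ r x z) → 0 ≤ τ z := fun z hz =>
    h.nonneg (fun e => hz a (e ▸ c1)) (fun e => hz s' (e ▸ d2)) (fun e => hz s (e ▸ c2))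
      fun e => hz a (e ▸ d1)
  have za := zmin a hamin
  have zp := zmin p hmin
  have zU : ∀ z, r t z → 0 ≤ τ z := fun z hz =>
    h.nonneg (fun e => asymm _ _ c2 (e ▸ hz)) (fun e => i3 (e ▸ hz)) (ne _ _ hz).symm
      fun e => i1 (trans _ _ _ c2 (e ▸ hz))
  have zb' : 0 ≤ τ b' :=
    h.nonneg (fun e => i2 (trans _ _ _ d2 (e ▸ d3))) (ne _ _ d3).symm (fun e => i4 (e ▸ d3))
      fun e => asymm _ _ d2 (e ▸ d3)
  have la : ∀ z, 0 ≤ τ z → z ≠ a → τ a < τ z := fun z hz hne =>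
    hκ a z za hz (by have := κ1 z hne; omega)
  have ha : τ a = 0 := by
    obtain ⟨z, hz⟩ := h.conv a 0 le_rfl za
    by_contra hne
    have := la z hz.ge fun e => hne (e ▸ hz)
    omega
  have hp : τ p = 1 := by
    have a1 := la p zp hpa
    obtain ⟨z, hz⟩ := h.conv p 1 (by omega) (by omega)
    by_contra hne
    have := hκ p z zp (by omega) (by
      have := κ2 z (fun e => by rw [e] at hz; omega) fun e => hne (e ▸ hz)
      omega)
    omega
  refine PFrame.perp (e := 1) (t := τ) fun f hf hq => ?_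
  by_cases hc : ∃ c, ∀ x, f x = c
  · exact Or.inr hc
  left
  obtain ⟨e1, e2, e3, e4, e5⟩ := h.shared_fix trans asymm c1 d1 c2 d2 c3 d3 i1 i2 i3 i4 H ha hp
    hmin (zU b c3) zb' hf hq hc
  refine h.fin asymm hf hq e2 e3 e4 e5 (fun z => z = a) (fun z => r t z) (fun z hz => hz ▸ za) zU
    ⟨a, rfl⟩ ⟨b, c3⟩ (fun z hz => hz ▸ hamin t) (fun x y hx hy hya => hx ▸ la y hy hya)
    (fun x y hx hy hyU => hκ y x hy (zU x hx) ?_) (fun z hz => hz ▸ e1) (fun z hz => ?_)
    (fun x y hx hy => hx ▸ hy ▸ irr a) (fun x y hx _ => anti x y hx) (fun x y hx hy hxy => ?_)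
    (fun x y hx hy hxy => ?_) (Or.inl fun x y hx hy => hx.trans hy.symm)
  · have := κN y hyU
    have := κU x hx
    omega
  · rcases hf _ _ hz with e | e <;> rw [e4] at e
    · exact absurd e.symm (h.ne_of_nonneg (h.zone_inv hq e2 e3 e4 e5 (zU z hz))).2.2.1
    · exact e
  · rw [hx, hy] at hxy
    exact absurd hxy (lt_irrefl _)
  · refine hP.not_dom_of_card h3 asymm (fun e => by rw [e] at hxy; omega) ?_
    by_contra hlt
    have := hκ x y (zU x hx) (zU y hy) (by rw [κU x hx, κU y hy]; omega)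
    omega

/-- An order without chains of five points that has two chains of four points with different
second points and different third points. -/
theorem perpR_four_matching [Finite X] (hP : Prime r) (trans : ∀ x y z, r x y → r y z → r x z)
    (asymm : ∀ x y, r x y → ¬ r y x)
    (h5 : ∀ x₁ x₂ x₃ x₄ x₅, r x₁ x₂ → r x₂ x₃ → r x₃ x₄ → ¬ r x₄ x₅) {a s t b a' s' t' b' : X}
    (c1 : r a s) (c2 : r s t) (c3 : r t b) (d1 : r a' s') (d2 : r s' t') (d3 : r t' b')
    (hs : s ≠ s') (ht : t ≠ t') : PerpR r := by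
  by_cases hT : ∃ a s t b x s' t' y, TwoCh r a s t b x s' t' y
  · obtain ⟨a, s, t, b, x, s', t', y, h⟩ := hT
    exact perpR_two hP trans asymm h
  have two : ∀ a s t b a' s' t' b', r a s → r s t → r t b → r a' s' → r s' t' → r t' b' → s ≠ s' →
      t ≠ t' → a = a' ∨ b = b' := by
    intro a s t b a' s' t' b' c1 c2 c3 d1 d2 d3 hs ht
    by_contra hc
    push Not at hc
    refine hT ⟨a, s, t, b, a', s', t', b', c1, c2, c3, d1, d2, d3,
      fun e => h5 _ _ _ _ _ c1 e d2 d3, fun e => h5 _ _ _ _ _ d1 e c2 c3,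
      fun e => h5 _ _ _ _ _ c1 c2 e d3, fun e => h5 _ _ _ _ _ d1 d2 e c3, ?_⟩
    simp only [List.mem_cons, List.not_mem_nil, or_false, not_or]
    rintro p (rfl | rfl | rfl | rfl)
    · refine ⟨hc.1, ?_, ?_, ?_⟩ <;> rintro rfl
      exacts [h5 _ _ _ _ _ d1 c1 c2 c3, h5 _ _ _ _ _ d2 c1 c2 c3, h5 _ _ _ _ _ d3 c1 c2 c3]
    · refine ⟨?_, hs, ?_, ?_⟩ <;> rintro rfl
      exacts [h5 _ _ _ _ _ c1 d1 d2 d3, h5 _ _ _ _ _ d1 d2 c2 c3, h5 _ _ _ _ _ d2 d3 c2 c3]
    · refine ⟨?_, ?_, ht, ?_⟩ <;> rintro rfl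
      exacts [h5 _ _ _ _ _ c2 d1 d2 d3, h5 _ _ _ _ _ c1 c2 d2 d3, h5 _ _ _ _ _ d1 d2 d3 c3]
    · refine ⟨?_, ?_, ?_, hc.2⟩ <;> rintro rfl
      exacts [h5 _ _ _ _ _ c3 d1 d2 d3, h5 _ _ _ _ _ c2 c3 d2 d3, h5 _ _ _ _ _ c1 c2 c3 d3]
  by_cases hB : ∀ a s t b a' s' t' b', r a s → r s t → r t b → r a' s' → r s' t' → r t' b' →
      s ≠ s' → t ≠ t' → a = a'
  · obtain rfl := hB _ _ _ _ _ _ _ _ c1 c2 c3 d1 d2 d3 hs ht
    refine perpR_shared hP trans asymm c1 d1 c2 d2 hs ht (fun e => h5 _ _ _ _ _ c1 e d2 d3)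
      (fun e => h5 _ _ _ _ _ d1 e c2 c3) (fun e => h5 _ _ _ _ _ c1 c2 e d3)
      (fun e => h5 _ _ _ _ _ d1 d2 e c3) ?_ ⟨b, c3⟩ ⟨b', d3⟩ fun x y e => h5 _ _ _ _ _ c1 c2 e
    rintro x m h1 (h2 | h2)
    · by_cases e : m = s'
      · exact (hB _ _ _ _ _ _ _ _ c1 c2 c3 (e ▸ h1) d2 d3 hs ht).symm
      · exact hB _ _ _ _ _ _ _ _ h1 h2 c3 d1 d2 d3 e ht
    · by_cases e : s = m
      · exact hB _ _ _ _ _ _ _ _ (e ▸ h1) c2 c3 d1 d2 d3 hs ht
      · exact (hB _ _ _ _ _ _ _ _ c1 c2 c3 h1 h2 d3 e ht).symm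
  · clear c1 c2 c3 d1 d2 d3 hs ht
    push Not at hB
    obtain ⟨a, s, t, b, a', s', t', b', c1, c2, c3, d1, d2, d3, hs, ht, ha⟩ := hB
    obtain rfl := (two _ _ _ _ _ _ _ _ c1 c2 c3 d1 d2 d3 hs ht).resolve_left ha
    refine PerpR.of_flip (perpR_shared (r := fun x y => r y x) hP.flip
      (fun x y z h1 h2 => trans _ _ _ h2 h1) (fun x y => asymm y x) c3 d3 c2 d2 ht hs
      (fun e => h5 _ _ _ _ _ d1 d2 e c3) (fun e => h5 _ _ _ _ _ c1 c2 e d3)
      (fun e => h5 _ _ _ _ _ d1 e c2 c3) (fun e => h5 _ _ _ _ _ c1 e d2 d3) ?_ ⟨a, c1⟩ ⟨a', d1⟩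
      fun x y e e' => h5 _ _ _ _ _ e' e c2 c3)
    rintro x m h1 (h2 | h2)
    · by_cases e : m = t'
      · exact ((two _ _ _ _ _ _ _ _ c1 c2 c3 d1 d2 (e ▸ h1) hs ht).resolve_left ha).symm
      · exact (two _ _ _ _ _ _ _ _ c1 h2 h1 d1 d2 d3 hs e).resolve_left ha
    · by_cases e : t = m
      · exact (two _ _ _ _ _ _ _ _ c1 c2 (e ▸ h1) d1 d2 d3 hs ht).resolve_left ha
      · exact ((two _ _ _ _ _ _ _ _ c1 c2 c3 d1 h2 h1 hs e).resolve_left ha).symm

end Pool.Agent.Lib.MP_04ca4f_co
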