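import Mathlib

/-!
# Every infinite set carries a rigid binary relation (Vopenka, Pultr, Hedrlin)
-/

set_option autoImplicit false

namespace Pool.Agent.Lib.MP_04ca4f_co.Rigid

universe u

variable {Z : Type u} [LinearOrder Z] [OrderBot Z]

/-- Blocks of type `ω` indexed by `Z`, with a last point. -/
abbrev Y (Z : Type u) : Type u := WithTop (Z ×ₗ ℕ)

/-- The point number `n` of the block `z`. -/
def pt (z : Z) (n : ℕ) : Y Z := ((toLex (z, n) : Z ×ₗ ℕ) : WithTop (Z ×ₗ ℕ))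

/-- The position inside the block. -/
def col : Y Z → ℕ := fun y => WithTop.recTopCoe 0 (fun p => (ofLex p).2) y

/-- Points beyond the first block. -/
def Big (y : Y Z) : Prop := ∀ n, pt ⊥ n < y

/-- A ladder converging to `δ`, with increasing positions. -/
def IsLad (δ : Y Z) (s : ℕ → Y Z) : Prop :=
  StrictMono s ∧ StrictMono (fun n => col (s n)) ∧ (∀ n, Big (s n)) ∧ (∀ n, s n < δ) ∧
    ∀ y, (∀ n, s n ≤ y) → δ ≤ y

/-- The chosen ladder. -/
noncomputable def lad (δ : Y Z) : ℕ → Y Z := Classical.epsilon (IsLad δ)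

/-- The second relation. -/
def E (x y : Y Z) : Prop :=
  (∃ n, x = pt ⊥ (n + 1) ∧ y = pt ⊥ n) ∨ (x = pt ⊥ 0 ∧ y = pt ⊥ 1) ∨
    (Big y ∧ x = pt ⊥ (col y)) ∨ (IsLad x (lad x) ∧ ∃ n, y = lad x n)

omit [OrderBot Z] in
theorem pt_lt {z z' : Z} {n n' : ℕ} : pt z n < pt z' n' ↔ z < z' ∨ z = z' ∧ n < n' :=
  WithTop.coe_lt_coe.trans Prod.Lex.toLex_lt_toLex

omit [LinearOrder Z] [OrderBot Z] in
theorem col_pt (z : Z) (n : ℕ) : col (pt z n) = n := rfl

omit [LinearOrder Z] [OrderBot Z] in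
theorem pt_inj {z : Z} {n n' : ℕ} (h : pt z n = pt z n') : n = n' := congrArg col h

omit [OrderBot Z] in
theorem exists_pt {y y' : Y Z} (h : y < y') : ∃ z, y = pt z (col y) := by
  lift y to Z ×ₗ ℕ using h.ne_top
  exact ⟨(ofLex y).1, rfl⟩

theorem not_big (n : ℕ) : ¬ Big (pt (⊥ : Z) n) := fun h => lt_irrefl _ (h n)

theorem small {y : Y Z} (h : ¬ Big y) : ∃ n, y = pt ⊥ n := by
  obtain ⟨n, hn⟩ := not_forall.1 h
  have h1 : y < pt ⊥ (n + 1) := (not_lt.1 hn).trans_lt (pt_lt.2 (Or.inr ⟨rfl, n.lt_succ_self⟩))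
  obtain ⟨z, hz⟩ := exists_pt h1
  rw [hz] at h1
  rcases pt_lt.1 h1 with h2 | h2
  · exact absurd h2 not_lt_bot
  · exact ⟨_, h2.1 ▸ hz⟩

theorem E_fwd {x y : Y Z} (h : E x y) (hl : x ≤ y) :
    (x = pt ⊥ 0 ∧ y = pt ⊥ 1) ∨ (Big y ∧ x = pt ⊥ (col y)) := by
  rcases h with ⟨n, rfl, rfl⟩ | h | h | ⟨h, n, rfl⟩
  · exact absurd (pt_lt.2 (Or.inr ⟨rfl, n.lt_succ_self⟩)) hl.not_gt
  · exact Or.inl h
  · exact Or.inr h
  · exact absurd (h.2.2.2.1 n) hl.not_gt

theorem E_bwd {x y : Y Z} (h : E x y) (hl : y ≤ x) :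
    (∃ n, x = pt ⊥ (n + 1) ∧ y = pt ⊥ n) ∨ (IsLad x (lad x) ∧ ∃ n, y = lad x n) := by
  rcases h with h | ⟨rfl, rfl⟩ | ⟨h, h'⟩ | h
  · exact Or.inl h
  · exact absurd (pt_lt.2 (Or.inr ⟨rfl, zero_lt_one⟩)) hl.not_gt
  · exact absurd (h' ▸ h (col y)) hl.not_gt
  · exact Or.inr h

theorem E_irrefl (x : Y Z) : ¬ E x x := fun h => by
  rcases E_fwd h le_rfl with ⟨h1, h2⟩ | ⟨h1, h2⟩
  · exact zero_ne_one (pt_inj (h1.symm.trans h2))
  · exact not_big _ (h2 ▸ h1)

theorem two_rigid [WellFoundedLT Z] {f : Y Z → Y Z} (hf : StrictMono f)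
    (hE : ∀ x y, E x y → E (f x) (f y)) (x0 : Y Z) : f x0 = x0 := by
  have hle : ∀ x, x ≤ f x := fun x => hf.le_apply
  have hs : ∀ n : ℕ, pt (⊥ : Z) n < pt ⊥ (n + 1) := fun n =>
    pt_lt.2 (Or.inr ⟨rfl, n.lt_succ_self⟩)
  have hnat : ∀ n, f (pt ⊥ n) = pt ⊥ n := by
    intro n
    induction n with
    | zero =>
      rcases E_fwd (hE _ _ (Or.inr (Or.inl ⟨rfl, rfl⟩))) (hf (hs 0)).le with h | ⟨h1, h2⟩
      · exact h.1
      · rcases E_bwd (hE _ _ (Or.inl ⟨0, rfl, rfl⟩)) (hf (hs 0)).le with ⟨n, h3, _⟩ | ⟨h3, n, h4⟩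
        · exact absurd (h3 ▸ h1) (not_big _)
        · exact absurd (h2 ▸ h4 ▸ h3.2.2.1 n) (not_big _)
    | succ n ih =>
      rcases E_bwd (hE _ _ (Or.inl ⟨n, rfl, rfl⟩)) (hf (hs n)).le with ⟨m, h3, h4⟩ | ⟨h3, m, h4⟩
      · rw [h3, ← pt_inj (ih.symm.trans h4)]
      · exact absurd (ih ▸ h4 ▸ h3.2.2.1 m) (not_big _)
  have hbig : ∀ y, Big y → Big (f y) := fun y h n => (h n).trans_le (hle y)
  have hcol : ∀ y, Big y → col (f y) = col y := fun y h => by
    rcases E_fwd (hE _ _ (Or.inr (Or.inr (Or.inl ⟨h, rfl⟩)))) (hf (h _)).le with h1 | h1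
    · exact absurd (h1.2 ▸ hbig y h) (not_big _)
    · exact pt_inj (h1.2.symm.trans (hnat _))
  by_contra hne
  have h0 : Big x0 := by
    by_contra h
    obtain ⟨n, rfl⟩ := small h
    exact hne (hnat n)
  have hξ : ∀ n, f^[n] x0 < f^[n + 1] x0 := fun n =>
    (hf.iterate n) (lt_of_le_of_ne (hle x0) (Ne.symm hne))
  have hξ' : ∀ n, Big (f^[n] x0) ∧ col (f^[n] x0) = col x0 := by
    intro n
    induction n with
    | zero => exact ⟨h0, rfl⟩
    | succ n ih =>
      rw [Function.iterate_succ_apply']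
      exact ⟨hbig _ ih.1, (hcol _ ih.1).trans ih.2⟩
  obtain ⟨δ, hδ, hmin⟩ := (wellFounded_lt (α := Y Z)).has_min {y | ∀ n, f^[n] x0 ≤ y}
    ⟨⊤, fun _ => le_top⟩
  have hlub : ∀ y, y < δ → ∃ n, y < f^[n] x0 := fun y hy => by
    by_contra h
    exact hmin y (fun n => not_lt.1 fun h1 => h ⟨n, h1⟩) hy
  have hL : IsLad δ (lad δ) := by
    choose z hz using fun n => exists_pt (hξ n)
    have hz' : ∀ n, f^[n] x0 = pt (z n) (col x0) := fun n => (hξ' n).2 ▸ hz n
    have h1 : ∀ n, z n < z (n + 1) := fun n => by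
      have h := hξ n
      rw [hz', hz'] at h
      exact (pt_lt.1 h).resolve_right fun h => lt_irrefl _ h.2
    have h2 : ∀ n, f^[n] x0 ≤ pt (z n) (col x0 + n) := fun n => by
      rw [hz']
      exact not_lt.1 fun h => (pt_lt.1 h).elim (lt_irrefl _) fun h => by omega
    refine Classical.epsilon_spec (p := IsLad δ) ⟨fun n => pt (z n) (col x0 + n),
      strictMono_nat_of_lt_succ fun n => pt_lt.2 (Or.inl (h1 n)),
      strictMono_nat_of_lt_succ fun n => Nat.lt_succ_self _,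
      fun n m => ((hξ' n).1 m).trans_le (h2 n), fun n => lt_of_lt_of_le ?_ (hδ (n + 1)),
      fun y hy => not_lt.1 (hmin y fun n => (h2 n).trans (hy n))⟩
    rw [hz']
    exact pt_lt.2 (Or.inl (h1 n))
  have hstep : ∀ n, IsLad (f δ) (lad (f δ)) ∧ ∃ m, f (lad δ n) = lad (f δ) m := fun n => by
    rcases E_bwd (hE _ _ (Or.inr (Or.inr (Or.inr ⟨hL, n, rfl⟩)))) (hf (hL.2.2.2.1 n)).le with
      ⟨m, _, h⟩ | h
    · exact absurd (h ▸ hbig _ (hL.2.2.1 n)) (not_big _)
    · exact h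
  have hfix : f δ = δ := by
    refine le_antisymm ((hstep 0).1.2.2.2.2 δ fun j => ?_) (hle δ)
    obtain ⟨hL', m, hm⟩ := hstep (col (lad (f δ) j))
    have h1 : col (lad (f δ) j) ≤ col (lad (f δ) m) := by
      rw [← hm, hcol _ (hL.2.2.1 _)]
      exact hL.2.1.le_apply
    obtain ⟨k, hk⟩ := hlub _ (hL.2.2.2.1 (col (lad (f δ) j)))
    refine (hL'.1.monotone (hL'.2.1.le_iff_le.1 h1)).trans (hm ▸ (hf hk).le.trans ?_)
    exact Function.iterate_succ_apply' f k x0 ▸ hδ (k + 1)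
  have hfix' : ∀ n, f (lad δ n) = lad δ n := fun n => by
    obtain ⟨_, m, hm⟩ := hstep n
    rw [hfix] at hm
    rw [hm, hL.2.1.injective ((congrArg col hm).symm.trans (hcol _ (hL.2.2.1 n)))]
  obtain ⟨n, hn⟩ : ∃ n, x0 < lad δ n := by
    by_contra h
    exact (hL.2.2.2.2 x0 fun n => not_lt.1 fun h1 => h ⟨n, h1⟩).not_gt ((hξ 0).trans_le (hδ 1))
  refine hmin (lad δ n) (fun m => le_of_lt ?_) (hL.2.2.2.1 n)
  induction m with
  | zero => exact hn
  | succ m ih => exact Function.iterate_succ_apply' f m x0 ▸ hfix' n ▸ hf ih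

/-- Points and one new vertex for each pair of the second relation. -/
abbrev V (Z : Type u) [LinearOrder Z] [OrderBot Z] : Type u :=
  Y Z ⊕ {p : Y Z × Y Z // E p.1 p.2}

/-- The single relation. -/
def R : V Z → V Z → Prop
  | .inl x, .inl y => x < y
  | .inl x, .inr e => x = e.1.1
  | .inr e, .inl x => x = e.1.1 ∨ x = e.1.2
  | .inr _, .inr _ => False

theorem R_irrefl (v : V Z) : ¬ R v v := by
  rcases v with x | e
  exacts [lt_irrefl x, id]

theorem one_rigid [WellFoundedLT Z] {f : V Z → V Z} (hf : ∀ x y, R x y → R (f x) (f y)) :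
    f = id := by
  classical
  have hadj : ∀ x y : Y Z, x ≠ y → R (f (.inl x)) (f (.inl y)) ∨ R (f (.inl y)) (f (.inl x)) :=
    fun x y h => (lt_or_gt_of_ne h).imp (hf (.inl x) (.inl y)) (hf (.inl y) (.inl x))
  have hne : ∀ x y : Y Z, x ≠ y → f (.inl x) ≠ f (.inl y) := fun x y h e =>
    (hadj x y h).elim (fun h => R_irrefl _ (e ▸ h)) fun h => R_irrefl _ (e ▸ h)
  have hinl : ∀ x, ∃ y, f (.inl x) = .inl y := fun x => by
    rcases hx : f (.inl x) with y | e
    · exact ⟨y, rfl⟩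
    have hI : Infinite (Y Z) := Infinite.of_injective (pt (⊥ : Z)) fun _ _ => pt_inj
    have h2 : ∀ a, a ≠ x → f (.inl a) = .inl e.1.1 ∨ f (.inl a) = .inl e.1.2 := fun a ha => by
      have h := hadj a x ha
      rw [hx] at h
      rcases hb : f (.inl a) with b | e'
      · rw [hb] at h
        rcases h with h | h | h
        exacts [Or.inl (congrArg _ h), Or.inl (congrArg _ h), Or.inr (congrArg _ h)]
      · rw [hb] at h
        exact h.elim False.elim False.elim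
    obtain ⟨a, ha⟩ := Infinite.exists_notMem_finset ({x} : Finset (Y Z))
    obtain ⟨b, hb⟩ := Infinite.exists_notMem_finset ({x, a} : Finset (Y Z))
    obtain ⟨c, hc⟩ := Infinite.exists_notMem_finset ({x, a, b} : Finset (Y Z))
    simp only [Finset.mem_insert, Finset.mem_singleton, not_or] at ha hb hc
    have h3 := hne b a hb.2
    have h4 := hne c a hc.2.1
    have h5 := hne c b hc.2.2
    rcases h2 a ha with ea | ea <;> rcases h2 b hb.1 with eb | eb <;>
      rcases h2 c hc.1 with ec | ec <;> simp_all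
  choose g hg using hinl
  have hmono : StrictMono g := fun x y h => by
    have h1 := hf (.inl x) (.inl y) h
    rwa [hg, hg] at h1
  have hinr : ∀ e : {p : Y Z × Y Z // E p.1 p.2}, ∃ e', f (.inr e) = .inr e' ∧
      e'.1.1 = g e.1.1 ∧ e'.1.2 = g e.1.2 := fun e => by
    have h1 := hf (.inl e.1.1) (.inr e) rfl
    have h2 := hf (.inr e) (.inl e.1.1) (Or.inl rfl)
    have h3 := hf (.inr e) (.inl e.1.2) (Or.inr rfl)
    rw [hg] at h1 h2 h3
    rcases he : f (.inr e) with y | e'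
    · rw [he] at h1 h2
      exact absurd h1 (lt_asymm h2)
    · rw [he] at h1 h3
      refine ⟨e', rfl, h1.symm, (h3.resolve_left fun h => E_irrefl e.1.1 ?_).symm⟩
      have h4 := e.2
      rwa [hmono.injective (h.trans h1.symm)] at h4
  have hid := two_rigid hmono fun x y h => by
    obtain ⟨e', _, h1, h2⟩ := hinr ⟨(x, y), h⟩
    have h3 := e'.2
    rwa [h1, h2] at h3
  funext v
  rcases v with x | e
  · rw [hg, hid]
    rfl
  · obtain ⟨e', h, h1, h2⟩ := hinr e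
    rw [hid] at h1 h2
    rw [h, Subtype.ext (Prod.ext h1 h2)]
    rfl

end Pool.Agent.Lib.MP_04ca4f_co.Rigid

namespace Pool.Agent.Lib.MP_04ca4f_co

open Cardinal Rigid

universe u

/-- Vopenka, Pultr, Hedrlin: every infinite set carries a rigid irreflexive relation. -/
theorem exists_rigid (X : Type u) [Infinite X] : ∃ r : X → X → Prop, (∀ x, ¬ r x x) ∧
    ∀ f : X → X, (∀ x y, r x y → r (f x) (f y)) → f = id := by
  obtain ⟨_, _⟩ := exists_wellFoundedLT X
  let _ : OrderBot X := WellFoundedLT.toOrderBot X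
  have h0 := aleph0_le_mk X
  have h1 : #(Y X) = #X := by
    change #(Option (X × ℕ)) = #X
    rw [mk_option, mk_prod, lift_uzero, mk_nat, lift_aleph0, mul_aleph0_eq h0, add_one_eq h0]
  have h2 : #(V X) = #X := by
    rw [mk_sum, lift_id, lift_id, h1]
    refine add_eq_left h0 ((mk_subtype_le _).trans_eq ?_)
    rw [mk_prod, lift_id, h1, mul_eq_self h0]
  obtain ⟨e⟩ := Cardinal.eq.1 h2
  refine ⟨fun x y => R (e.symm x) (e.symm y), fun x => R_irrefl _, fun f hf => ?_⟩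
  have h3 := one_rigid (f := fun v => e.symm (f (e v))) fun x y h =>
    hf (e x) (e y) (by simpa only [e.symm_apply_apply] using h)
  funext x
  have h4 : e.symm (f (e (e.symm x))) = e.symm x := congrFun h3 (e.symm x)
  rw [e.apply_symm_apply] at h4
  exact e.symm.injective h4

end Pool.Agent.Lib.MP_04ca4f_co
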