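import Pool.Agent.Lib.MP_04ca4f_co.SkipFrame
import Pool.Agent.Lib.MP_04ca4f_co.MarkSix

/-!
# Height five: two middle points below the centre of a chain
-/

set_option autoImplicit false

namespace Pool.Agent.Lib.MP_04ca4f_co

variable {X : Type*} {r : X → X → Prop} {a s z t b m p : X}

/-- The part of the data that does not depend on the places. -/
structure Ch5 (r : X → X → Prop) (a s z t b m : X) : Prop where
  prime : Prime r
  trans : ∀ x y z, r x y → r y z → r x z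
  asymm : ∀ x y, r x y → ¬ r y x
  no6 : ∀ x₁ x₂ x₃ x₄ x₅ x₆, r x₁ x₂ → r x₂ x₃ → r x₃ x₄ → r x₄ x₅ → ¬ r x₅ x₆
  c1 : r a s
  c2 : r s z
  c3 : r z t
  c4 : r t b
  hm : ∃ x, r x m
  h0 : ∃ y, r m y ∧ y ≠ b
  ms : m ≠ s
  mz : m ≠ z
  mt : m ≠ t
  dia : ∀ c, r s c → r c t → c = z

/-- A prime order is not a series composition. -/
theorem Prime.not_series (h : Prime r) (asymm : ∀ x y, r x y → ¬ r y x) (D : X → Prop) {x y w : X}
    (hx : D x) (hy : ¬ D y) (hw : ¬ D w) (hne : y ≠ w) (hD : ∀ d e, D d → ¬ D e → r d e) :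
    False :=
  h {e | ¬ D e} (fun c => (show x ∈ {e | ¬ D e} from c ▸ Set.mem_univ x) hx) ⟨y, hy, w, hw, hne⟩
    fun d hd => ⟨fun _ e he => hD d e (not_not.mp hd) he,
      fun ⟨e, he, c⟩ => absurd c (asymm _ _ (hD d e (not_not.mp hd) he))⟩

/-- The place after a given place. -/
theorem PFrame.next {l l' u u' y : X} {e k : ℤ} {τ : X → ℤ} (h : PFrame l l' u u' e τ)
    (hk : -1 ≤ k) (hy : k < τ y) (hw : ∀ w, k < τ w → w ≠ y → τ y < τ w) : τ y = k + 1 := by
  by_contra hne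
  obtain ⟨w, c⟩ := h.conv y (k + 1) (by omega) (by omega)
  have := hw w (by omega) fun c' => hne (c' ▸ c)
  omega

theorem Ch5.irr (h : Ch5 r a s z t b m) (x : X) : ¬ r x x := fun hx => h.asymm _ _ hx hx

theorem Ch5.three (h : Ch5 r a s z t b m) (x y : X) : ∃ w, w ≠ x ∧ w ≠ y :=
  three_of_chain h.trans h.asymm h.c1 h.c2 x y

/-- A frame sorted by a key that starts with b and p. -/
theorem Ch5.frame [Finite X] (h : Ch5 r a s z t b m) (hp : p ≠ s ∧ p ≠ t ∧ p ≠ z ∧ p ≠ m)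
    (κ : X → ℕ) (k0 : κ b = 0) (k1 : κ p = 1) (k2 : ∀ w, w ≠ b → w ≠ p → 1 < κ w) :
    ∃ τ : X → ℤ, SF r τ a s z t b m p ∧ ∀ x y, 0 ≤ τ x → 0 ≤ τ y → κ x < κ y → τ x < τ y := by
  have c24 := h.trans _ _ _ h.c2 h.c3
  have ne : ∀ {u v}, r u v → u ≠ v := fun e e' => h.irr _ (e' ▸ e)
  obtain ⟨τ, fr, hκ⟩ := exists_pframe (l := s) (l' := t) (u := z) (u' := m) (e := 1) (by
    simp only [List.nodup_cons, List.mem_cons, List.not_mem_nil, or_false, not_or]
    exact ⟨⟨ne c24, ne h.c2, h.ms.symm⟩, ⟨(ne h.c3).symm, h.mt.symm⟩, h.mz.symm, not_false,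
      List.nodup_nil⟩) (Or.inr rfl) κ
  have b0 : 0 ≤ τ b := fr.nonneg (ne (h.trans _ _ _ c24 h.c4)).symm (ne h.c4).symm
    (ne (h.trans _ _ _ h.c3 h.c4)).symm fun e =>
      h.h0.elim fun _ hy => h.no6 _ _ _ _ _ _ h.c1 h.c2 h.c3 h.c4 (e ▸ hy.1)
  have p0 : 0 ≤ τ p := fr.nonneg hp.1 hp.2.1 hp.2.2.1 hp.2.2.2
  have b1 : τ b = -1 + 1 := fr.next le_rfl (by omega) fun w h1 h2 => hκ _ _ b0 (by omega) (by
    by_cases e : w = p
    · rw [e]
      omega
    · have := k2 w h2 e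
      omega)
  have p1 : τ p = 0 + 1 := fr.next (by omega) (by have := hκ b p b0 p0 (by omega); omega)
    fun w h1 h2 => hκ _ _ p0 (by omega) (by
      have := k2 w (fun e => by rw [e] at h1; omega) h2
      omega)
  exact ⟨τ, ⟨fr, h.trans, h.asymm, h.no6, h.c1, h.c2, h.c3, h.c4, h.hm, h.h0, by omega, by omega,
    h.dia⟩, hκ⟩

theorem Ch5.sorted [Finite X] (h : Ch5 r a s z t b m) {τ : X → ℤ} {κ : X → ℕ} {n : ℕ}
    (hκ : ∀ x y, 0 ≤ τ x → 0 ≤ τ y → κ x < κ y → τ x < τ y) {x y : X} (hx : 0 ≤ τ x)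
    (hy : 0 ≤ τ y) (kx : κ x = n + compCard r x) (ky : κ y = n + compCard r y)
    (c : τ y < τ x) : ¬ Dom r x y := by
  refine h.prime.not_dom_of_card h.three h.asymm (fun e => ?_) ?_
  · rw [e] at c
    exact lt_irrefl _ c
  · by_contra c'
    have := hκ x y hx hy (by omega)
    omega

/-- Two points above t, and the second place is below z. -/
theorem Ch5.caseA [Finite X] (h : Ch5 r a s z t b m) {u w : X} (hu : r t u) (hub : u ≠ b)
    (hp : r p z) (ps : p ≠ s) (pm : p ≠ m) (hpm : r m t → ¬ r p m) (wt : w ≠ t) (wm : w ≠ m)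
    (w1 : ¬ r w t) (w2 : ¬ r t w) : PerpR r := by
  classical
  have ne : ∀ {u v}, r u v → u ≠ v := fun e e' => h.irr _ (e' ▸ e)
  have pt := h.trans _ _ _ hp h.c3
  have pb := ne (h.trans _ _ _ pt h.c4)
  let κ : X → ℕ := fun x => if x = b then 0 else if x = p then 1 else if x = w then 3
    else if r t x then 4 + compCard r x else 2
  have wb : w ≠ b := fun e => w2 (e ▸ h.c4)
  have wp : w ≠ p := fun e => w1 (e ▸ pt)
  have kw : κ w = 3 := by simp only [κ, if_neg wb, if_neg wp, if_true]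
  have kU : ∀ x, r t x → x ≠ b → κ x = 4 + compCard r x := fun x h1 h2 => by
    simp only [κ, if_neg h2, if_neg (fun e : x = p => h.asymm _ _ pt (e ▸ h1)),
      if_neg (fun e : x = w => w2 (e ▸ h1)), if_pos h1]
  have kN : ∀ x, ¬ (r t x ∧ x ≠ b) → x = w ∨ κ x < 3 := fun x h1 => by
    simp only [κ]
    split_ifs with c1 c2 c3 c4
    exacts [Or.inr (by omega), Or.inr (by omega), Or.inl c3, absurd ⟨c4, c1⟩ h1, Or.inr (by omega)]
  obtain ⟨τ, F, hκ⟩ := h.frame ⟨ps, ne pt, ne hp, pm⟩ κ (if_pos rfl)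
    (by simp only [κ, if_neg pb, if_true]) fun x h1 h2 => by
      simp only [κ, if_neg h1, if_neg h2]
      split_ifs <;> omega
  have w0 : 0 ≤ τ w := F.fr.nonneg (fun e => w1 (e ▸ h.trans _ _ _ h.c2 h.c3)) wt
    (fun e => w1 (e ▸ h.c3)) wm
  have key : ∀ c y, Edge τ c y → r t y → y ≠ b → ¬ r c t := fun c y e h1 h2 h3 => by
    rcases kN c fun c' => h.asymm _ _ c'.1 h3 with c1 | c1
    · exact w1 (c1 ▸ h3)
    · have b1 := hκ c w e.1 w0 (by omega)
      have b2 := hκ w y w0 e.2.1 (by rw [kU y h1 h2]; omega)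
      have b3 := e.2.2.2
      omega
  refine F.perp (fun c => absurd (c u hu) hub)
    (fun c y e h1 h2 h3 => key c y e h1 h2 (h.trans _ _ _ h3 h.c3)) (fun h0 c y e h1 h3 => ?_)
    (Or.inl hp) (Or.inr (Or.inl hp)) (fun x => r t x ∧ x ≠ b) ⟨u, hu, hub⟩
    (fun x y hx h1 h2 => hκ y x h1 (F.posU hx.1) ?_) (Or.inl fun _ => Iff.rfl)
    fun x y hx hy => h.sorted hκ (F.posU hx.1) (F.posU hy.1) (kU x hx.1 hx.2) (kU y hy.1 hy.2)
  · by_cases c1 : y = b
    · have b1 := F.hb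
      have b2 := F.hp
      rw [c1] at e
      unfold Edge at e
      exact hpm h0 (F.fr.inj c p (by omega) ▸ h3)
    · exact key c y e h1 c1 (h.trans _ _ _ h3 h0)
  · rw [kU x hx.1 hx.2]
    rcases kN y h2 with c | c
    · rw [c]
      omega
    · omega

/-- Only one point above t. -/
theorem Ch5.caseB [Finite X] (h : Ch5 r a s z t b m) {w : X} (hU : ∀ u, r t u → u = b)
    (hp : p ≠ s ∧ p ≠ t ∧ p ≠ z ∧ p ≠ m) (pb : p ≠ b) (ps : ¬ r p s) (hpt : ¬ r p t ∨ r s p)
    (hw : w ≠ s ∧ w ≠ t ∧ w ≠ z ∧ w ≠ m) (wb : w ≠ b) (ws : ¬ r w s) (w1 : ¬ r z w)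
    (w2 : ¬ r s m)
    (wp : w = p → ∀ x, x = s ∨ x = t ∨ x = z ∨ x = m ∨ x = b ∨ x = p ∨ r x s) : PerpR r := by
  classical
  let κ : X → ℕ := fun x => if x = b then 0 else if x = p then 1 else if x = w then 3
    else if r x s then 4 + compCard r x else 2
  have bs : ¬ r b s := h.asymm _ _ (h.trans _ _ _ h.c2 (h.trans _ _ _ h.c3 h.c4))
  have kD : ∀ x, r x s → κ x = 4 + compCard r x := fun x h1 => by
    simp only [κ, if_neg (fun e : x = b => bs (e ▸ h1)), if_neg (fun e : x = p => ps (e ▸ h1)),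
      if_neg (fun e : x = w => ws (e ▸ h1)), if_pos h1]
  have kN : ∀ x, ¬ r x s → κ x ≤ 3 ∧ (x = w ∨ κ x < 3) := fun x h1 => by
    simp only [κ, if_neg h1]
    split_ifs with c1 c2 c3
    exacts [⟨by omega, Or.inr (by omega)⟩, ⟨by omega, Or.inr (by omega)⟩, ⟨le_rfl, Or.inl c3⟩,
      ⟨by omega, Or.inr (by omega)⟩]
  obtain ⟨τ, F, hκ⟩ := h.frame hp κ (if_pos rfl)
    (by simp only [κ, if_neg pb, if_true]) fun x h1 h2 => by
      simp only [κ, if_neg h1, if_neg h2]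
      split_ifs <;> omega
  have w0 : 0 ≤ τ w := F.fr.nonneg hw.1 hw.2.1 hw.2.2.1 hw.2.2.2
  have b1 := F.hb
  have b2 := F.hp
  refine F.perp (fun _ => hpt) (fun c y _ h1 h2 => absurd (hU y h1) h2) (fun h0 c y e h1 h3 => ?_)
    (Or.inr fun c d e h1 => ⟨fun h2 => ?_, fun h2 => absurd h2 w2⟩) (Or.inl hU) (fun x => r x s)
    ⟨a, h.c1⟩ (fun x y hx h1 h2 => hκ y x h1 (by have := F.posD hx; omega) ?_)
    (Or.inr fun _ => Iff.rfl) fun x y hx hy => h.sorted hκ (by have := F.posD hx; omega)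
      (by have := F.posD hy; omega) (kD x hx) (kD y hy)
  · rw [hU y h1] at e
    unfold Edge at e
    rw [F.fr.inj c p (by omega)] at h3
    exact hpt.elim (fun c => c (h.trans _ _ _ h3 h0)) fun c => w2 (h.trans _ _ _ c h3)
  · have cs : ¬ r c s := h.asymm _ _ (h.trans _ _ _ h.c2 h2)
    have cw : c ≠ w := fun c' => w1 (c' ▸ h2)
    by_cases c1 : w = p
    · obtain ⟨d1, d2, d3, d4⟩ := F.fr.ne_of_nonneg e.1
      rcases wp c1 c with c' | c' | c' | c' | c' | c' | c'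
      · exact d1 c'
      · exact d2 c'
      · exact d3 c'
      · exact d4 c'
      · rw [c'] at e
        unfold Edge at e
        omega
      · exact cw (c'.trans c1.symm)
      · exact cs c'
    · have kw : κ w = 3 := by simp only [κ, if_neg wb, if_neg c1, if_true]
      have b3 := hκ c w e.1 w0 (by have := (kN c cs).2.resolve_left cw; omega)
      have b4 := hκ w d w0 e.2.1 (by rw [kD d h1]; omega)
      have b5 := e.2.2.2
      omega
  · have := (kN y h2).1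
    rw [kD x hx]
    omega

/-- Two points above t, and only a is below s and m. -/
theorem Ch5.caseC [Finite X] (h : Ch5 r a s z t b m) {u w : X} (hu : r t u) (hub : u ≠ b)
    (hz : ∀ d, r d z → d = a ∨ d = s ∨ d = m) (hD : ∀ d, r d s → d = a) (hM : ∀ d, r d m → d = a)
    (hp : r s p) (pz : p ≠ z) (p1 : ¬ r z p) (sm : ¬ r s m) (wa : w ≠ a) (w1 : ¬ r a w) :
    PerpR r := by
  classical
  have ne : ∀ {u v}, r u v → u ≠ v := fun e e' => h.irr _ (e' ▸ e)
  have az := h.trans _ _ _ h.c1 h.c2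
  have at' := h.trans _ _ _ az h.c3
  have ab := h.trans _ _ _ at' h.c4
  have ap := h.trans _ _ _ h.c1 hp
  have am : r a m := h.hm.elim fun x hx => hM x hx ▸ hx
  have p2 : ¬ r t p := fun e => p1 (h.trans _ _ _ h.c3 e)
  have pb : p ≠ b := fun e => p2 (e ▸ h.c4)
  have nw : ∀ x, r a x → w ≠ x := fun x h1 e => w1 (e ▸ h1)
  let κ : X → ℕ := fun x => if x = b then 0 else if x = p then 1 else if x = a then 2
    else if x = w then 3 else if r t x then 5 + compCard r x else 4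
  have ka : κ a = 2 := by simp only [κ, if_neg (ne ab), if_neg (ne ap), if_true]
  have kw : κ w = 3 := by
    simp only [κ, if_neg (nw b ab), if_neg (nw p ap), if_neg wa, if_true]
  have kU : ∀ x, r t x → x ≠ b → κ x = 5 + compCard r x := fun x h1 h2 => by
    simp only [κ, if_neg h2, if_neg (fun e : x = p => p2 (e ▸ h1)),
      if_neg (ne (h.trans _ _ _ at' h1)).symm, if_neg (nw x (h.trans _ _ _ at' h1)).symm,
      if_pos h1]
  have kN : ∀ x, ¬ (r t x ∧ x ≠ b) → κ x < 5 := fun x h1 => by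
    simp only [κ]
    split_ifs with c1 c2 c3 c4 c5
    exacts [by omega, by omega, by omega, by omega, absurd ⟨c5, c1⟩ h1, by omega]
  have k3 : ∀ x, x ≠ b → x ≠ p → x ≠ a → 2 < κ x ∧ (x ≠ w → 3 < κ x) := fun x h1 h2 h3 => by
    simp only [κ, if_neg h1, if_neg h2, if_neg h3]
    split_ifs with c1
    exacts [⟨by omega, fun c => absurd c1 c⟩, ⟨by omega, fun _ => by omega⟩,
      ⟨by omega, fun _ => by omega⟩]
  obtain ⟨τ, F, hκ⟩ := h.frame ⟨(ne hp).symm, fun e => p1 (e ▸ h.c3), pz,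
    fun e => sm (e ▸ hp)⟩ κ (if_pos rfl) (by simp only [κ, if_neg pb, if_true]) fun x h1 h2 => by
      simp only [κ, if_neg h1, if_neg h2]
      split_ifs <;> omega
  have b1 := F.hb
  have b2 := F.hp
  have b3 := F.posD h.c1
  have w0 : 0 ≤ τ w := F.fr.nonneg (nw s h.c1) (nw t at') (nw z az) (nw m am)
  have ta : τ a = 1 + 1 := F.fr.next (by omega)
    (by have : τ a ≠ τ p := fun e => ne ap (F.fr.inj _ _ e); omega) fun y h1 h2 =>
      hκ _ _ (by omega) (by omega) (by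
        have := (k3 y (fun e => by rw [e] at h1; omega) (fun e => by rw [e] at h1; omega) h2).1
        omega)
  have tw : τ w = 2 + 1 := F.fr.next (by omega)
    (by have := hκ a w (by omega) w0 (by omega); omega) fun y h1 h2 =>
      hκ _ _ w0 (by omega) (by
        have := (k3 y (fun e => by rw [e] at h1; omega) (fun e => by rw [e] at h1; omega)
          (fun e => by rw [e] at h1; omega)).2 h2
        omega)
  have odd : ∀ c y, Edge τ c y → c ≠ a := fun c y e c' => by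
    rw [c'] at e
    unfold Edge at e
    omega
  refine F.perp (fun c => absurd (c u hu) hub) (fun c y e _ _ h3 => ?_)
    (fun _ c y e _ h3 => odd c y e (hM c h3))
    (Or.inr fun c d e h1 => ⟨fun h2 => ?_, fun h2 => absurd h2 sm⟩)
    (Or.inr (Or.inr ⟨by omega, hD, hp, p2, fun y h1 h2 => ?_⟩)) (fun x => r t x ∧ x ≠ b)
    ⟨u, hu, hub⟩ (fun x y hx h1 h2 => hκ y x h1 (F.posU hx.1) ?_) (Or.inl fun _ => Iff.rfl)
    fun x y hx hy => h.sorted hκ (F.posU hx.1) (F.posU hy.1) (kU x hx.1 hx.2) (kU y hy.1 hy.2)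
  · obtain ⟨d1, -, -, d4⟩ := F.fr.ne_of_nonneg e.1
    rcases hz c h3 with c' | c' | c'
    exacts [odd c y e c', d1 c', d4 c']
  · rw [hD d h1] at e
    unfold Edge at e
    have : τ c = τ p ∨ τ c = τ w := by omega
    rcases this.imp (F.fr.inj _ _) (F.fr.inj _ _) with c' | c'
    · exact p1 (c' ▸ h2)
    · exact nw c (h.trans _ _ _ az h2) c'.symm
  · exact nw y (h.trans _ _ _ h.c1 h2) (F.fr.inj _ _ (by omega))
  · have := kN y h2
    rw [kU x hx.1 hx.2]
    omega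

end Pool.Agent.Lib.MP_04ca4f_co
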