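import Pool.Agent.Lib.MP_04ca4f_co.PureFrame

/-!
# The marker order in which the first place is not below one upper marker
-/

set_option autoImplicit false

namespace Pool.Agent.Lib.MP_04ca4f_co

variable {X : Type*}

/-- The pure order on places without the pair (0, -3). -/
def Sk (i j : ℤ) : Prop := Pk 1 i j ∧ ¬ (i = 0 ∧ j = -3)

/-- The relation pulled back to the points. -/
def SkR (τ : X → ℤ) (x y : X) : Prop := Sk (τ x) (τ y)

/-- A lower place and a neighbouring upper place. -/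
def Edge (τ : X → ℤ) (x y : X) : Prop :=
  0 ≤ τ x ∧ 0 ≤ τ y ∧ τ x % 2 = 1 ∧ (τ y = τ x + 1 ∨ τ x = τ y + 1)

/-- A chain a < s < z < t < b, a further middle point m, and a frame with lower markers s, t,
upper markers z, m, and first places b, p. -/
structure SF (r : X → X → Prop) (τ : X → ℤ) (a s z t b m p : X) : Prop where
  fr : PFrame s t z m 1 τ
  trans : ∀ x y z, r x y → r y z → r x z
  asymm : ∀ x y, r x y → ¬ r y x
  no6 : ∀ x₁ x₂ x₃ x₄ x₅ x₆, r x₁ x₂ → r x₂ x₃ → r x₃ x₄ → r x₄ x₅ → ¬ r x₅ x₆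
  c1 : r a s
  c2 : r s z
  c3 : r z t
  c4 : r t b
  hm : ∃ x, r x m
  h0 : ∃ y, r m y ∧ y ≠ b
  hb : τ b = 0
  hp : τ p = 1
  dia : ∀ c, r s c → r c t → c = z

variable {r : X → X → Prop} {τ : X → ℤ} {a s z t b m p : X} {f : X → X}

theorem SkR.asymm (x y : X) (h1 : SkR τ x y) : ¬ SkR τ y x := by
  unfold SkR Sk Pk at h1 ⊢
  omega

theorem SkR.trans (x y z : X) (h1 : SkR τ x y) (h2 : SkR τ y z) : SkR τ x z := by
  unfold SkR Sk Pk at h1 h2 ⊢
  omega

theorem Sk.below {i j : ℤ} (h : Sk i j) (hj : 0 ≤ j) :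
    i = -1 ∨ i = -2 ∨ (0 ≤ i ∧ i % 2 = 1 ∧ (j = i + 1 ∨ i = j + 1)) := by
  unfold Sk Pk at h
  omega

theorem Sk.up {i j : ℤ} (h : Sk i j) : j = -3 ∨ j = -4 ∨ 0 ≤ j := by
  unfold Sk Pk at h
  omega

theorem Sk.edge {i j : ℤ} (h : Sk i j) (hi : 0 ≤ i) (hj : 0 ≤ j) :
    0 ≤ i ∧ 0 ≤ j ∧ i % 2 = 1 ∧ (j = i + 1 ∨ i = j + 1) := by
  unfold Sk Pk at h
  omega

theorem Sk.three {i j k : ℤ} (h1 : Sk i j) (h2 : Sk j k) (a1 : i ≠ -1) (a2 : i ≠ -2) :
    (0 ≤ i ∧ 0 ≤ j ∧ i % 2 = 1 ∧ (j = i + 1 ∨ i = j + 1)) ∧ (k = -3 ∨ k = -4) := by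
  unfold Sk Pk at h1 h2
  omega

theorem Sk.two {i j k l : ℤ} (q3 : Sk i l) (q4 : i = k ∨ Sk i k) (q5 : j = l ∨ Sk j l)
    (e3 : 0 ≤ j ∧ 0 ≤ k ∧ j % 2 = 1 ∧ (k = j + 1 ∨ j = k + 1)) (e6 : 0 ≤ l) (b1 : k ≠ l)
    (b2 : i ≠ j) : i = -1 ∨ i = -2 := by
  have a1 := q3.below e6
  have a2 := q4.imp_right fun e => e.below e3.2.1
  have a3 := q5.imp_right fun e => e.below e6
  clear q3 q4 q5
  omega

theorem Sk.pin {i j : ℤ} (c2 : i = 2 ∨ Sk i 2) (q6 : i = j ∨ Sk i j) (u2 : 0 ≤ j)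
    (l1 : i ≠ -1 ∧ i ≠ -2) (c4 : i ≠ 2) (c5 : i ≠ 3) (c6 : j ≠ 1) (c7 : j ≠ 2) : j = 0 := by
  have a1 := c2.imp_right fun e => e.below (by omega)
  have a2 := q6.imp_right fun e => e.below u2
  clear c2 q6
  omega

theorem SkR.perp (hg : ∀ f, Mono r f → Mono (SkR τ) f → f = id ∨ ∃ c, ∀ x, f x = c) :
    PerpR r := by
  refine ⟨{ le := fun x y => x = y ∨ SkR τ x y
            le_refl := fun _ => Or.inl rfl
            le_trans := ?_
            le_antisymm := ?_ }, fun f h1 h2 => hg f h1 fun x y hxy => h2 x y (Or.inr hxy)⟩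
  · rintro x y z (rfl | h1) h2
    · exact h2
    · rcases h2 with rfl | h2
      · exact Or.inr h1
      · exact Or.inr (SkR.trans _ _ _ h1 h2)
  · rintro x y (rfl | h1) h2
    · rfl
    · rcases h2 with rfl | h2
      · rfl
      · exact absurd h2 (SkR.asymm _ _ h1)

namespace SF

theorem irr (h : SF r τ a s z t b m p) (x : X) : ¬ r x x := fun hx => h.asymm _ _ hx hx

theorem not_ms (h : SF r τ a s z t b m p) : ¬ r m s := fun e =>
  h.hm.elim fun _ hx => h.no6 _ _ _ _ _ _ hx e h.c2 h.c3 h.c4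

theorem not_tm (h : SF r τ a s z t b m p) : ¬ r t m := fun e =>
  h.h0.elim fun _ hy => h.no6 _ _ _ _ _ _ h.c1 h.c2 h.c3 e hy.1

theorem posU (h : SF r τ a s z t b m p) {u : X} (hu : r t u) : 0 ≤ τ u :=
  h.fr.nonneg (fun e => h.asymm _ _ (h.trans _ _ _ h.c2 h.c3) (e ▸ hu)) (fun e => h.irr t (e ▸ hu))
    (fun e => h.asymm _ _ h.c3 (e ▸ hu)) fun e => h.not_tm (e ▸ hu)

theorem posD (h : SF r τ a s z t b m p) {d : X} (hd : r d s) : 1 ≤ τ d := by
  have h1 : 0 ≤ τ d := h.fr.nonneg (fun e => h.irr s (e ▸ hd))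
    (fun e => h.asymm _ _ (h.trans _ _ _ h.c2 h.c3) (e ▸ hd)) (fun e => h.asymm _ _ h.c2 (e ▸ hd))
    fun e => h.not_ms (e ▸ hd)
  have h2 : τ d ≠ τ b := fun e => h.asymm _ _ (h.trans _ _ _ (h.trans _ _ _ h.c2 h.c3) h.c4)
    (h.fr.inj _ _ e ▸ hd)
  have := h.hb
  omega

theorem q_low (h : SF r τ a s z t b m p) {l x : X} (hl : l = s ∨ l = t) (hx : 0 ≤ τ x) :
    SkR τ l x := by
  have : τ l = -1 ∨ τ l = -2 :=
    hl.imp (fun e => by rw [e, h.fr.hl]) fun e => by rw [e, h.fr.hl']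
  unfold SkR Sk Pk
  omega

theorem q_z (h : SF r τ a s z t b m p) {x : X} (hx : x = s ∨ x = t ∨ 1 ≤ τ x) : SkR τ x z := by
  have : τ x = -1 ∨ τ x = -2 ∨ 1 ≤ τ x :=
    hx.imp (fun e => by rw [e, h.fr.hl]) (Or.imp_left fun e => by rw [e, h.fr.hl'])
  have := h.fr.hu
  unfold SkR Sk Pk
  omega

theorem q_m (h : SF r τ a s z t b m p) {x : X} (hx : x = s ∨ x = t ∨ 0 ≤ τ x) : SkR τ x m := by
  have : τ x = -1 ∨ τ x = -2 ∨ 0 ≤ τ x :=
    hx.imp (fun e => by rw [e, h.fr.hl]) (Or.imp_left fun e => by rw [e, h.fr.hl'])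
  have := h.fr.hu'
  unfold SkR Sk Pk
  omega

theorem q_pb (h : SF r τ a s z t b m p) : SkR τ p b := by
  have := h.hb
  have := h.hp
  unfold SkR Sk Pk
  omega

/-- A lower marker is not identified with m. -/
theorem n1 (h : SF r τ a s z t b m p) (hf : Mono r f) (hq : Mono (SkR τ) f)
    (hc : ¬ ∃ c, ∀ x, f x = c) {l : X} (hl : l = s ∨ l = t) : f l ≠ f m := by
  intro he
  have g : ∀ x, 0 ≤ τ x → f x = f l := fun x hx =>
    hq.between SkR.asymm (h.q_low hl hx) (h.q_m (Or.inr (Or.inr hx))) he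
  have ha := g a (by have := h.posD h.c1; omega)
  have hab : f a = f b := by rw [ha, g b h.hb.ge]
  have c13 := h.trans _ _ _ h.c1 h.c2
  have c35 := h.trans _ _ _ h.c3 h.c4
  refine hc ⟨f l, fun x => ?_⟩
  rcases h.fr.cases x with rfl | rfl | rfl | rfl | hx
  · rw [hf.between h.asymm h.c1 (h.trans _ _ _ h.c2 c35) hab, ha]
  · rw [hf.between h.asymm (h.trans _ _ _ c13 h.c3) h.c4 hab, ha]
  · rw [hf.between h.asymm c13 c35 hab, ha]
  · exact he.symm
  · exact g x hx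

/-- The points below m. -/
theorem below_m (h : SF r τ a s z t b m p) {x : X} (hx : r x m) : x = s ∨ x = z ∨ 1 ≤ τ x := by
  rcases h.fr.cases x with e | e | e | e | e
  · exact Or.inl e
  · exact absurd (e ▸ hx) h.not_tm
  · exact Or.inr (Or.inl e)
  · exact absurd (e ▸ hx) (h.irr m)
  · have h2 : τ x ≠ τ b := fun e' =>
      h.no6 _ _ _ _ _ _ h.c1 h.c2 h.c3 h.c4 (h.fr.inj _ _ e' ▸ hx)
    have := h.hb
    exact Or.inr (Or.inr (by omega))

/-- The points above m other than b. -/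
theorem above_m (h : SF r τ a s z t b m p) {y : X} (hy : r m y) (hb : y ≠ b) :
    y = t ∨ y = z ∨ 1 ≤ τ y := by
  rcases h.fr.cases y with e | e | e | e | e
  · exact absurd (e ▸ hy) h.not_ms
  · exact Or.inl e
  · exact Or.inr (Or.inl e)
  · exact absurd (e ▸ hy) (h.irr m)
  · have h2 : τ y ≠ τ b := fun e' => hb (h.fr.inj _ _ e')
    have := h.hb
    exact Or.inr (Or.inr (by omega))

theorem n2 (h : SF r τ a s z t b m p) (hf : Mono r f) (hq : Mono (SkR τ) f)
    (hc : ¬ ∃ c, ∀ x, f x = c) : f t ≠ f z := by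
  intro he
  have g : ∀ x, 1 ≤ τ x → f x = f t := fun x hx =>
    hq.between SkR.asymm (h.q_low (Or.inr rfl) (by omega)) (h.q_z (Or.inr (Or.inr hx))) he
  have ha := g a (h.posD h.c1)
  have hs : f s = f t := by
    rw [hf.between h.asymm h.c1 (h.trans _ _ _ h.c2 h.c3) ha, ha]
  obtain ⟨x, hx⟩ := h.hm
  obtain ⟨y, hy, hyb⟩ := h.h0
  have h1 : f x = f t := by
    rcases h.below_m hx with e | e | e
    exacts [e ▸ hs, e ▸ he.symm, g x e]
  have h2 : f y = f t := by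
    rcases h.above_m hy hyb with e | e | e
    exacts [e ▸ rfl, e ▸ he.symm, g y e]
  exact h.n1 hf hq hc (Or.inr rfl) (by rw [hf.between h.asymm hx hy (h1.trans h2.symm), h1])

theorem n3 (h : SF r τ a s z t b m p) (hf : Mono r f) (hq : Mono (SkR τ) f)
    (hc : ¬ ∃ c, ∀ x, f x = c) (SB : (∀ u, r t u → u = b) → ¬ r p t ∨ r s p) : f s ≠ f z := by
  intro he
  have g : ∀ x, 1 ≤ τ x → f x = f s := fun x hx =>
    hq.between SkR.asymm (h.q_low (Or.inl rfl) (by omega)) (h.q_z (Or.inr (Or.inr hx))) he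
  have a1 := h.fr.hl
  have a2 := h.fr.hl'
  have a3 := h.fr.hu
  have a4 := h.fr.hu'
  have a5 := h.hb
  have a6 := h.hp
  have n1 := h.n1 hf hq hc (Or.inl rfl)
  have n1' := h.n1 hf hq hc (Or.inr rfl)
  have n2 := h.n2 hf hq hc
  have hU : ∀ u, r t u → u = b := fun u hu => by
    by_contra hne
    have b1 := h.posU hu
    have b2 : τ u ≠ τ b := fun e => hne (h.fr.inj _ _ e)
    exact n2 (hf.between h.asymm h.c3 hu (he.symm.trans (g u (by omega)).symm))
  obtain ⟨x, hx⟩ := h.hm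
  obtain ⟨y, hy, hyb⟩ := h.h0
  have h1 : f x = f s := by
    rcases h.below_m hx with e | e | e
    exacts [e ▸ rfl, e ▸ he.symm, g x e]
  have hmt : r m t := by
    rcases h.above_m hy hyb with e | e | e
    · exact e ▸ hy
    · exact absurd (by rw [hf.between h.asymm hx hy (h1.trans (e ▸ he)), h1]) n1
    · exact absurd (by rw [hf.between h.asymm hx hy (h1.trans (g y e).symm), h1]) n1
  have p1 : r (f s) (f m) := h1 ▸ (hf _ _ hx).resolve_left fun e => n1 (h1.symm.trans e)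
  have p2 : r (f m) (f t) := (hf _ _ hmt).resolve_left n1'.symm
  have p3 : r (f m) (f b) := (hf _ _ h.c4).elim (fun e => e ▸ p2) (h.trans _ _ _ p2)
  have q1 : SkR τ (f t) (f s) := he ▸ (hq _ _ (h.q_z (Or.inr (Or.inl rfl)))).resolve_left n2
  have q2 : SkR τ (f s) (f b) := g p a6.ge ▸ (hq _ _ h.q_pb).resolve_left fun e =>
    h.asymm _ _ p1 (by rw [← g p a6.ge, e]; exact p3)
  have q3 : SkR τ (f b) (f m) := (hq _ _ (h.q_m (Or.inr (Or.inr a5.ge)))).resolve_left fun e =>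
    h.irr _ (e ▸ p3)
  have e1 : f t = t := by
    have : τ (f t) = τ s ∨ τ (f t) = τ t := by
      unfold SkR Sk Pk at q1 q2 q3
      omega
    refine (this.imp (h.fr.inj _ _) (h.fr.inj _ _)).resolve_left fun e => ?_
    exact h.no6 _ _ _ _ _ _ p1 (e ▸ p2) h.c2 h.c3 h.c4
  have e2 : f b = b := by
    refine hU _ ((e1 ▸ hf _ _ h.c4 : t = f b ∨ r t (f b)).resolve_left fun e => ?_)
    rw [← e] at q2
    unfold SkR Sk Pk at q2
    omega
  rw [e2] at q2 q3
  have e3 : f s = p := h.fr.inj _ _ (by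
    unfold SkR Sk Pk at q1 q2
    omega)
  have e4 : f m = m := h.fr.inj _ _ (by
    unfold SkR Sk Pk at q3
    omega)
  rw [e3, e4] at p1
  rcases SB hU with e | e
  · exact e (h.trans _ _ _ p1 hmt)
  · have := h.dia p e (h.trans _ _ _ p1 hmt)
    rw [this] at a6
    omega

/-- The three markers on the chain are fixed. -/
theorem core (h : SF r τ a s z t b m p) (hf : Mono r f) (hq : Mono (SkR τ) f)
    (hc : ¬ ∃ c, ∀ x, f x = c) (SB : (∀ u, r t u → u = b) → ¬ r p t ∨ r s p)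
    (S3 : ∀ c u, Edge τ c u → r t u → u ≠ b → ¬ r c z)
    (S6 : r m t → ∀ c u, Edge τ c u → r t u → ¬ r c m)
    (S4 : r p z ∨ ∀ c d, Edge τ c d → r d s → ¬ r z c ∧ (r s m → ¬ r m c)) :
    f s = s ∧ f z = z ∧ f t = t := by
  have a1 := h.fr.hl
  have a2 := h.fr.hl'
  have a3 := h.fr.hu
  have a4 := h.fr.hu'
  have a5 := h.hb
  have a6 := h.hp
  have a7 := h.posD h.c1
  have inj := h.fr.inj
  have n2 := h.n2 hf hq hc
  have n3 := h.n3 hf hq hc SB
  obtain ⟨x, hx⟩ := h.hm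
  obtain ⟨y, hy, -⟩ := h.h0
  have p1 : r (f s) (f z) := (hf _ _ h.c2).resolve_left n3
  have p2 : r (f z) (f t) := (hf _ _ h.c3).resolve_left n2.symm
  have p3 : r (f a) (f z) := (hf _ _ h.c1).elim (fun e => e ▸ p1) fun e => h.trans _ _ _ e p1
  have p4 : r (f z) (f b) := (hf _ _ h.c4).elim (fun e => e ▸ p2) (h.trans _ _ _ p2)
  have p5 := h.trans _ _ _ p3 p2
  have p6 := h.trans _ _ _ p1 p4
  have p7 := h.trans _ _ _ p3 p4
  have p8 := h.trans _ _ _ p1 p2
  have ne : ∀ {u v}, r u v → τ u ≠ τ v := fun e e' => h.irr _ (inj _ _ e' ▸ e)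
  have hq' : ∀ x y, SkR τ x y → τ (f x) = τ (f y) ∨ Sk (τ (f x)) (τ (f y)) :=
    fun x y hxy => (hq x y hxy).imp_left (congrArg τ)
  have q1 := (hq' _ _ (h.q_low (Or.inr rfl) (x := a) (by omega))).resolve_left (ne p5).symm
  have q2 := (hq' _ _ (h.q_z (Or.inr (Or.inr a7)))).resolve_left (ne p3)
  have q3 := (hq' _ _ (h.q_low (Or.inl rfl) a5.ge)).resolve_left (ne p6)
  have q4 := hq' _ _ (h.q_low (Or.inl rfl) (x := a) (by omega))
  have q5 := hq' _ _ (h.q_low (Or.inr rfl) a5.ge)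
  have q6 := hq' _ _ h.q_pb
  have q7 := hq' _ _ (h.q_low (Or.inr rfl) (x := p) (by omega))
  have q8 := (hq' _ _ (h.q_z (Or.inl rfl))).resolve_left (ne p1)
  have hts : τ (f t) ≠ τ s := fun e => h.no6 _ _ _ _ _ _ p1 (inj _ _ e ▸ p2) h.c2 h.c3 h.c4
  by_cases e1 : f t = t
  · rw [e1] at p2 p8 q5
    have u1 : r t (f b) := by
      refine (e1 ▸ hf _ _ h.c4 : t = f b ∨ r t (f b)).resolve_left fun e => ?_
      have := q3.up
      rw [← e] at this
      omega
    have u2 := h.posU u1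
    have u3 := ne p8
    have : τ (f s) = τ s ∨ Edge τ (f s) (f b) := by
      rcases q3.below u2 with e | e | e
      · exact Or.inl (e.trans a1.symm)
      · exact absurd (e.trans a2.symm) u3
      · exact Or.inr ⟨e.1, u2, e.2⟩
    rcases this with e2 | e2
    · have e3 := inj _ _ e2
      exact ⟨e3, h.dia _ (e3 ▸ p1) p2, e1⟩
    exfalso
    have hU : (∀ u, r t u → u = b) → ¬ r (f s) z ∧ ¬ (0 ≤ τ (f z)) := fun hU => by
      have e3 : f s = p := inj _ _ (by
        rw [hU _ u1] at e2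
        unfold Edge at e2
        omega)
      rw [e3] at p1 p8 ⊢
      have e4 := (SB hU).resolve_left (not_not.mpr p8)
      have := h.dia p e4 p8
      rw [this] at a6
      omega
    have hV : ∀ u, r t u → u ≠ b → r t (f u) ∧ Sk (τ (f s)) (τ (f u)) ∧
        Sk (τ (f u)) (τ (f z)) := fun u hu hub => by
      have b1 := h.posU hu
      have b2 : τ u ≠ τ b := fun e => hub (inj _ _ e)
      have b3 := hq' _ _ (h.q_low (Or.inl rfl) b1)
      have b4 := hq' _ _ (h.q_z (x := u) (Or.inr (Or.inr (by omega))))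
      have b5 : r t (f u) := by
        refine (e1 ▸ hf _ _ hu : t = f u ∨ r t (f u)).resolve_left fun e => ?_
        have b5 := b3.imp_right Sk.up
        have b6 := e2.1
        rw [← e] at b5
        omega
      exact ⟨b5, b3.resolve_left (ne (h.trans _ _ _ p8 b5)),
        b4.resolve_left (ne (h.trans _ _ _ p2 b5)).symm⟩
    have : τ (f z) = τ z ∨ τ (f z) = τ m ∨ 0 ≤ τ (f z) := by
      rw [a3, a4]
      exact q2.up
    rcases this with e3 | e3 | e3
    · have e4 := inj _ _ e3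
      rw [e4] at p1
      by_cases hu : ∀ u, r t u → u = b
      · exact (hU hu).1 p1
      · push Not at hu
        obtain ⟨u, hu, hub⟩ := hu
        obtain ⟨b1, b2, b3⟩ := hV u hu hub
        have b4 := h.posU b1
        refine S3 (f s) (f u) ?_ b1 (fun e => ?_) p1
        · exact b2.edge e2.1 b4
        · rw [e, e3] at b3
          exact b3.2 ⟨a5, a3⟩
    · have e4 := inj _ _ e3
      rw [e4] at p1 p2
      exact S6 p2 _ _ e2 u1 p1
    · by_cases hu : ∀ u, r t u → u = b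
      · exact (hU hu).2 e3
      · push Not at hu
        obtain ⟨u, hu, hub⟩ := hu
        obtain ⟨-, b2, b3⟩ := hV u hu hub
        have b4 := e2.1
        have := (b2.three b3 (by omega) (by omega)).2
        omega
  exfalso
  have e2 : τ (f t) ≠ τ t := fun e => e1 (inj _ _ e)
  have e3 : Edge τ (f t) (f a) ∧ (τ (f z) = τ z ∨ τ (f z) = τ m) := by
    rw [a3, a4]
    exact q1.three q2 (a1 ▸ hts) (a2 ▸ e2)
  obtain ⟨e3, e4⟩ := e3
  have e5 : f z = z ∨ f z = m := e4.imp (inj _ _) (inj _ _)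
  have pos : 0 ≤ τ (f t) := e3.1
  have p9 : τ (f b) = τ z ∨ τ (f b) = τ m → r (f t) (f b) := fun e =>
    (hf _ _ h.c4).resolve_left fun e' => by
      rw [← e'] at e
      omega
  have e6 : 0 ≤ τ (f b) := by
    by_contra hn
    have b1 : τ (f b) = τ z ∨ τ (f b) = τ m := by
      rw [a3, a4]
      exact q3.up.imp_right fun e => e.resolve_right hn
    have b2 := p9 b1
    rcases b1.imp (inj _ _) (inj _ _) with b3 | b3 <;> rcases e5 with b4 | b4 <;>
      rw [b3] at b2 <;> rw [b4] at p2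
    · exact h.asymm _ _ p2 b2
    · exact h.no6 _ _ _ _ _ _ hx p2 b2 h.c3 h.c4
    · exact h.no6 _ _ _ _ _ _ h.c1 h.c2 p2 b2 hy
    · exact h.asymm _ _ p2 b2
  have e7 : τ (f s) = τ s ∨ τ (f s) = τ t := by
    rw [a1, a2]
    exact Sk.two q3 q4 q5 e3 e6 (ne p7) (ne p8)
  have e8 : f s = s := by
    refine (e7.imp (inj _ _) (inj _ _)).resolve_right fun e => ?_
    rw [e] at p1
    rcases e5 with b | b <;> rw [b] at p1
    exacts [h.asymm _ _ p1 h.c3, h.not_tm p1]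
  rcases S4 with S4 | S4
  · have b1 : r (f p) (f t) := (hf _ _ S4).elim (fun e => e ▸ p2) fun e => h.trans _ _ _ e p2
    have b2 : r (f p) (f b) := (hf _ _ h.c4).elim (fun e => e ▸ b1) (h.trans _ _ _ b1)
    have := ((q7.resolve_left (ne b1).symm).three (q6.resolve_left (ne b2)) (by omega)
      (by omega)).2
    omega
  · have b1 : r (f a) s := by
      refine (e8 ▸ hf _ _ h.c1 : f a = s ∨ r (f a) s).resolve_left fun e => ?_
      rw [e] at e3
      unfold Edge at e3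
      omega
    obtain ⟨b2, b3⟩ := S4 _ _ e3 b1
    rcases e5 with b | b <;> rw [b] at p2
    · exact b2 p2
    · rw [e8, b] at p1
      exact b3 p1 p2

/-- The frame gives a perpendicular order. -/
theorem perp [Finite X] (h : SF r τ a s z t b m p) (SB : (∀ u, r t u → u = b) → ¬ r p t ∨ r s p)
    (S3 : ∀ c u, Edge τ c u → r t u → u ≠ b → ¬ r c z)
    (S6 : r m t → ∀ c u, Edge τ c u → r t u → ¬ r c m)
    (S4 : r p z ∨ ∀ c d, Edge τ c d → r d s → ¬ r z c ∧ (r s m → ¬ r m c))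
    (S8 : (∀ u, r t u → u = b) ∨ r p z ∨ (τ a = 2 ∧ (∀ d, r d s → d = a) ∧ r s p ∧ ¬ r t p ∧
      ∀ y, τ y = 3 → ¬ r s y))
    (E : X → Prop) (nE : ∃ x, E x) (eE : ∀ x y, E x → 0 ≤ τ y → ¬ E y → τ y < τ x)
    (hE : (∀ x, E x ↔ r t x ∧ x ≠ b) ∨ ∀ x, E x ↔ r x s)
    (sE : ∀ x y, E x → E y → τ y < τ x → ¬ Dom r x y) : PerpR r := by
  refine SkR.perp (τ := τ) fun f hf hq => ?_
  by_cases hc : ∃ c, ∀ x, f x = c
  · exact Or.inr hc
  left
  obtain ⟨e1, e2, e3⟩ := h.core hf hq hc SB S3 S6 S4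
  have a1 := h.fr.hl
  have a2 := h.fr.hl'
  have a3 := h.fr.hu
  have a4 := h.fr.hu'
  have a5 := h.hb
  have a6 := h.hp
  have inj := h.fr.inj
  have ne : ∀ {u v}, r u v → τ u ≠ τ v := fun e e' => h.irr _ (inj _ _ e' ▸ e)
  have hq' : ∀ x y, SkR τ x y → τ (f x) = τ (f y) ∨ Sk (τ (f x)) (τ (f y)) :=
    fun x y hxy => (hq x y hxy).imp_left (congrArg τ)
  have lo : ∀ x, 0 ≤ τ x → τ (f x) ≠ -1 ∧ τ (f x) ≠ -2 := fun x hx => by
    have b1 := hq' _ _ (h.q_low (Or.inl rfl) hx)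
    have b2 := hq' _ _ (h.q_low (Or.inr rfl) hx)
    rw [e1] at b1
    rw [e3] at b2
    unfold Sk Pk at b1 b2
    omega
  have hz : ∀ x, 1 ≤ τ x → τ (f x) ≠ 0 := fun x hx => by
    have b1 := hq' _ _ (h.q_z (Or.inr (Or.inr hx)))
    rw [e2] at b1
    unfold Sk Pk at b1
    omega
  have iU : ∀ u, r t u → r t (f u) := fun u hu =>
    (e3 ▸ hf _ _ hu : t = f u ∨ r t (f u)).resolve_left fun e =>
      (lo u (h.posU hu)).2 (by rw [← e, a2])
  have iD : ∀ d, r d s → r (f d) s := fun d hd =>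
    (e1 ▸ hf _ _ hd : f d = s ∨ r (f d) s).resolve_left fun e =>
      (lo d (by have := h.posD hd; omega)).1 (by rw [e, a1])
  have u1 := iU b h.c4
  have u2 := h.posU u1
  have q6 := hq' _ _ h.q_pb
  have l1 := lo p (by omega)
  have e5 : f b = b := by
    rcases S8 with S8 | S8 | ⟨b1, b2, b3, b4, b5⟩
    · exact S8 _ u1
    · have b1 : f p = z ∨ r (f p) z := e2 ▸ hf _ _ S8
      have b2 : r (f p) (f b) := b1.elim (fun e => e ▸ h.trans _ _ _ h.c3 u1)
        fun e => h.trans _ _ _ e (h.trans _ _ _ h.c3 u1)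
      have b3 := ne b2
      have b4 : Edge τ (f p) (f b) := by
        rcases (q6.resolve_left b3).below u2 with e | e | e
        exacts [absurd e l1.1, absurd e l1.2, ⟨e.1, u2, e.2⟩]
      by_contra hne
      refine S3 _ _ b4 u1 hne (b1.resolve_left fun e => ?_)
      rw [e] at b4
      unfold Edge at b4
      omega
    · have c1 : f a = a := b2 _ (iD a h.c1)
      have c2 := hq' p a (by unfold SkR Sk Pk; omega)
      rw [c1] at c2
      have c3 : r s (f p) := (e1 ▸ hf _ _ b3 : s = f p ∨ r s (f p)).resolve_left fun e =>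
        l1.1 (by rw [← e, a1])
      have c4 : τ (f p) ≠ τ a := fun e => h.asymm _ _ h.c1 (inj _ _ e ▸ c3)
      have c5 : τ (f p) ≠ 3 := fun e => b5 _ e c3
      have c6 : τ (f b) ≠ τ p := fun e => b4 (inj _ _ e ▸ u1)
      have c7 : τ (f b) ≠ τ a := fun e =>
        h.asymm _ _ (h.trans _ _ _ h.c1 (h.trans _ _ _ h.c2 h.c3)) (inj _ _ e ▸ u1)
      rw [b1] at c2 c4 c7
      rw [a6] at c6
      exact inj _ _ ((Sk.pin c2 q6 u2 l1 c4 c5 c6 c7).trans a5.symm)
  have e4 : f m = m := by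
    have b1 := hq' _ _ (h.q_m (Or.inr (Or.inr a5.ge)))
    rw [e5] at b1
    have b2 : τ b ≠ τ (f m) := fun e => by
      obtain ⟨y, hy, hyb⟩ := h.h0
      have b3 : f y = b := by
        have := hf _ _ hy
        rw [← inj _ _ e] at this
        exact (this.resolve_right (h.no6 _ _ _ _ _ _ h.c1 h.c2 h.c3 h.c4)).symm
      rcases h.above_m hy hyb with c | c | c
      · rw [c, e3] at b3
        rw [b3] at a2
        omega
      · rw [c, e2] at b3
        rw [b3] at a3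
        omega
      · exact hz y c (by rw [b3, a5])
    refine inj _ _ ?_
    unfold Sk Pk at b1
    omega
  have hq2 : Mono (PkR 1 τ) f := fun x y hxy => by
    by_cases c : τ x = 0 ∧ τ y = -3
    · rw [inj x b (by omega), inj y z (by omega), e5, e2]
      right
      unfold PkR Pk
      omega
    · exact (hq x y ⟨hxy, c⟩).imp_right And.left
  have zE : ∀ x, E x → 1 ≤ τ x := fun x hx => by
    rcases hE with c | c
    · have b1 := h.posU ((c x).mp hx).1
      have b2 : τ x ≠ τ b := fun e => ((c x).mp hx).2 (inj _ _ e)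
      omega
    · exact h.posD ((c x).mp hx)
  refine h.fr.fin h.asymm hf hq2 e1 e3 e2 e4 (fun x => x = b) E (fun x hx => hx ▸ a5.ge)
    (fun x hx => by have := zE x hx; omega) ⟨b, rfl⟩ nE
    (fun x hx c => by have := zE x c; rw [hx] at this; omega) (fun x y hx hy c => ?_) eE
    (fun x hx => by rw [hx, e5]) (fun x hx => ?_) (fun x y hx hy => by rw [hx, hy]; exact h.irr b)
    (fun x y hx hy => ?_) (fun x y hx hy c => ?_) sE (Or.inl fun x y hx hy => hx.trans hy.symm)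
  · have : τ y ≠ τ b := fun e => c (inj _ _ e)
    rw [hx]
    omega
  · rcases hE with c | c
    · exact (c _).mpr ⟨iU x ((c x).mp hx).1, fun e => hz x (zE x hx) (by rw [e, a5])⟩
    · exact (c _).mpr (iD x ((c x).mp hx))
  · rcases hE with c | c
    · exact h.no6 _ _ _ _ _ _ h.c1 h.c2 h.c3 ((c x).mp hx).1
    · exact fun e => h.no6 _ _ _ _ _ _ e ((c y).mp hy) h.c2 h.c3 h.c4
  · rw [hx, hy] at c
    exact absurd c (lt_irrefl _)

end SF

end Pool.Agent.Lib.MP_04ca4f_co
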