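import Pool.Agent.Lib.MP_04ca4f_co.StCore

/-!
# Trees described by blocks
-/

set_option autoImplicit false

namespace Pool.Agent.Lib.MP_04ca4f_co.St

variable {X : Type*} [PartialOrder X]

/-- What is used about the range of a nonconstant good map. -/
structure Img (on : X → Prop) (v : X) (blk : X → ℕ) (J : X → Prop) : Prop where
  foot : ∀ x, J x → ¬ on x → J v
  conv : ∀ x w y, J x → J w → on y → blk x < blk y → blk y < blk w → J y
  cut : ∀ (S : X → Prop) (a b : X), J a → J b → S a → ¬ S b →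
    ∃ x y, J x ∧ J y ∧ S x ∧ ¬ S y ∧ (x < y ∨ y < x)
  adj : ∀ x, J x → ∃ y, J y ∧ (x < y ∨ y < x)
  ne : ∃ x, J x

/-- What is used about a nonconstant idempotent good map. -/
structure Ret (on : X → Prop) (v : X) (blk : X → ℕ) (e : X → X) : Prop where
  mono : ∀ x y, x ≤ y → e x ≤ e y
  idem : ∀ x, e (e x) = e x
  img : Img on v blk fun x => e x = x
  loc : ∀ x, ¬ on x → e v = v → e x = x ∨ (on (e x) ∧ ∀ z, on z →
    ¬ (blk v < blk z ∧ blk z < blk (e x)) ∧ ¬ (blk (e x) < blk z ∧ blk z < blk v))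

/-- What is used about a kernel class of a good map. -/
structure Clo (on : X → Prop) (v : X) (blk : X → ℕ) (K : X → Prop) : Prop where
  grow : ∀ a m n, K a → on a → m ≤ blk a → blk a ≤ n →
    (∀ y, on y → m ≤ blk y → blk y ≤ n → K y ∨ ∃ w, K w ∧ (w < y ∨ y < w)) →
    ∀ y, on y → m ≤ blk y → blk y ≤ n → K y
  pend : ∀ x w, ¬ on x → K v → K w → (w < x ∨ x < w) → K x

theorem Ret.ub {on : X → Prop} {v : X} {blk : X → ℕ} {e : X → X} (h : Ret on v blk e)
    {x y b : X} (hx : e x = x) (hy : e y = y) (h1 : x ≤ b) (h2 : y ≤ b) :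
    ∃ w, e w = w ∧ x ≤ w ∧ y ≤ w :=
  ⟨e b, h.idem b, hx ▸ h.mono _ _ h1, hy ▸ h.mono _ _ h2⟩

theorem Ret.lb {on : X → Prop} {v : X} {blk : X → ℕ} {e : X → X} (h : Ret on v blk e)
    {x y a : X} (hx : e x = x) (hy : e y = y) (h1 : a ≤ x) (h2 : a ≤ y) :
    ∃ w, e w = w ∧ w ≤ x ∧ w ≤ y :=
  ⟨e a, h.idem a, hx ▸ h.mono _ _ h1, hy ▸ h.mono _ _ h2⟩

theorem three_of_chain {d s u : X} (h1 : d < s) (h2 : s < u) (x y : X) : ∃ z, z ≠ x ∧ z ≠ y := by
  by_contra h
  push Not at h
  by_cases a1 : d = x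
  · have a2 := h s (a1 ▸ h1.ne')
    have a3 := h u (a1 ▸ (h1.trans h2).ne')
    exact h2.ne (a2.trans a3.symm)
  · have a2 := h d a1
    by_cases a3 : s = x
    · exact (h1.trans h2).ne (a2.trans (h u (a3 ▸ h2.ne')).symm)
    · exact h1.ne (a2.trans (h s a3).symm)

theorem exists_pos {Y β : Type*} [Finite Y] [LinearOrder β] (ρ : Y → β)
    (hρ : Function.Injective ρ) :
    ∃ t : Y → ℤ, IsPath t ∧ ∀ x y, t x < t y ↔ ρ x < ρ y := by
  classical
  cases nonempty_fintype Y
  let _ : LinearOrder Y := LinearOrder.lift' ρ hρ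
  let φ : Fin (Fintype.card Y) ≃o Y := monoEquivOfFin Y rfl
  refine ⟨fun x => ((φ.symm x : ℕ) : ℤ), ⟨fun x y hxy => ?_, fun x y k h1 h2 => ?_⟩,
    fun x y => ?_⟩
  · exact φ.symm.injective (Fin.ext (by exact_mod_cast hxy))
  · have h3 := (φ.symm y).2
    refine ⟨φ ⟨k.toNat, by omega⟩, ?_⟩
    simp only [OrderIso.symm_apply_apply]
    omega
  · rw [Nat.cast_lt, Fin.val_fin_lt, φ.symm.lt_iff_lt]
    rfl

/-- A minimal point with at least as many upper points as another one is not dominated by it. -/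
theorem not_dom [Finite X] (hp : Pr X) (h3 : ∀ x y : X, ∃ z, z ≠ x ∧ z ≠ y) {d d' : X}
    (hd : ∀ x, ¬ x < d) (hd' : ∀ x, ¬ x < d') (hne : d ≠ d')
    (hc : {z | d' < z}.ncard ≤ {z | d < z}.ncard) : ∃ z, d < z ∧ ¬ d' < z := by
  by_contra h
  push Not at h
  have h1 : {z | d < z} = {z | d' < z} := Set.eq_of_subset_of_ncard_le h hc
  refine hne (Prime.not_twin hp h3 fun z _ _ => ⟨?_, ?_⟩)
  · exact Set.ext_iff.mp h1 z
  · exact iff_of_false (hd z) (hd' z)

theorem perp_of_blocks [Finite X] (hp : Pr X) (on : X → Prop) (σ v s t : X) (blk : X → ℕ)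
    (off_eq : ∀ x, ¬ on x → x = σ) (on_v : on v) (blk_off : ∀ x, ¬ on x → blk x = blk v)
    (sep : ∀ x y, on x → on y → x < y →
      ∃ z, on z ∧ (blk x < blk z ∧ blk z < blk y ∨ blk y < blk z ∧ blk z < blk x))
    (sepv : ∀ x, ¬ on x → ¬ x < v ∧ ¬ v < x) (off_mem : ∀ x, ¬ on x → s ≤ x ∧ x ≤ t)
    (st : s ≤ t) (exD : ∃ d, d < s) (exU : ∃ u, t < u)
    (loD : ∀ d x, d < s → ¬ x < d) (hiU : ∀ u x, t < u → ¬ u < x)
    (posD : ∀ d x, d < s → ¬ x < s → blk d < blk x)
    (posU : ∀ u x, t < u → ¬ t < x → blk x < blk u)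
    (domD : ∀ d d', d < s → d' < s → blk d < blk d' → ∃ z, d < z ∧ ¬ d' < z)
    (domU : ∀ u u', t < u → t < u' → blk u' < blk u → ∃ z, z < u ∧ ¬ z < u')
    (ret : ∀ e, Ret on v blk e →
      (∃ d, d < s ∧ e d = d) ∧ (∃ u, t < u ∧ e u = u) ∧ ∀ x, ¬ on x → e x = x)
    (nil : ∀ J K, Img on v blk J → (∀ x, J x → K x) → Clo on v blk K → ∀ x, K x) : Perp X := by
  classical
  obtain ⟨d0, hd0⟩ := exD
  obtain ⟨u0, hu0⟩ := exU
  have h3 := three_of_chain hd0 (st.trans_lt hu0)
  have hconn : Conn (fun x y : X => x < y) := Prime.conn hp h3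
  obtain ⟨τ, hτ⟩ := Countable.exists_injective_nat X
  let sec : X → ℕ := fun x => if x < s then Nat.card X - {z | x < z}.ncard else {z | z < x}.ncard
  let ρ : {x // on x} → ℕ ×ₗ ℕ ×ₗ ℕ := fun x => toLex (blk x.1, toLex (sec x.1, τ x.1))
  have hρ : Function.Injective ρ := fun x y h => by
    have h1 := congrArg (fun q : ℕ ×ₗ ℕ ×ₗ ℕ => (ofLex (ofLex q).2).2) h
    exact Subtype.ext (hτ h1)
  obtain ⟨q, hq, hq'⟩ := exists_pos ρ hρ
  let p : X → ℤ := fun x => if h : on x then q ⟨x, h⟩ else q ⟨v, on_v⟩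
  have p_on : ∀ x (h : on x), p x = q ⟨x, h⟩ := fun x h => dif_pos h
  have p_off : ∀ x, ¬ on x → p x = p v := fun x h => (dif_neg h).trans (p_on v on_v).symm
  have p_lt : ∀ x y, on x → on y → (p x < p y ↔
      blk x < blk y ∨ blk x = blk y ∧ (sec x < sec y ∨ sec x = sec y ∧ τ x < τ y)) := by
    intro x y hx hy
    rw [p_on x hx, p_on y hy, hq']
    simp only [ρ, Prod.Lex.toLex_lt_toLex]
  have rep : ∀ x, ∃ x', on x' ∧ p x' = p x ∧ blk x' = blk x := fun x => by
    by_cases h : on x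
    · exact ⟨x, h, rfl, rfl⟩
    · exact ⟨v, on_v, (p_off x h).symm, (blk_off x h).symm⟩
  have pm : ∀ x y, blk x < blk y → p x < p y := fun x y h => by
    obtain ⟨x', h1, h2, h3⟩ := rep x
    obtain ⟨y', h4, h5, h6⟩ := rep y
    rw [← h2, ← h5, p_lt x' y' h1 h4]
    omega
  have pm' : ∀ x y, p x ≤ p y → blk x ≤ blk y := fun x y h => by
    by_contra h1
    have := pm y x (by omega)
    omega
  have onD : ∀ d, d < s → on d := fun d h => by
    by_contra h1
    exact h.not_ge (off_mem d h1).1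
  have onU : ∀ u, t < u → on u := fun u h => by
    by_contra h1
    exact h.not_ge (off_mem u h1).2
  let C : Cat X :=
    { p := p, on := on, σ := σ, v := v, s := s, t := t, off_eq := off_eq, on_v := on_v
      p_off := p_off
      inj := fun x y hx hy h => by
        rw [p_on x hx, p_on y hy] at h
        exact congrArg Subtype.val (hq.inj _ _ h)
      conv := fun x y k h1 h2 => by
        obtain ⟨x', a1, a2, -⟩ := rep x
        obtain ⟨y', a4, a5, -⟩ := rep y
        obtain ⟨z, hz⟩ := hq.conv ⟨x', a1⟩ ⟨y', a4⟩ k (by rw [← p_on, a2]; exact h1)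
          (by rw [← p_on, a5]; exact h2)
        exact ⟨z.1, z.2, (p_on z.1 z.2).trans hz⟩
      sep := fun x y hx hy h => by
        obtain ⟨z, -, ⟨h1, h2⟩ | ⟨h1, h2⟩⟩ := sep x y hx hy h
        · have a1 := pm _ _ h1
          have a2 := pm _ _ h2
          omega
        · have a1 := pm _ _ h1
          have a2 := pm _ _ h2
          omega
      sepv := sepv, off_mem := off_mem, st := st, exD := ⟨d0, hd0⟩, exU := ⟨u0, hu0⟩
      loD := loD, hiU := hiU
      posD := fun d x h1 h2 => pm _ _ (posD d x h1 h2)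
      posU := fun u x h1 h2 => pm _ _ (posU u x h1 h2)
      domD := fun d d' h1 h2 h => by
        have hne : d ≠ d' := fun h' => by rw [h'] at h; exact lt_irrefl _ h
        rcases (p_lt d d' (onD d h1) (onD d' h2)).mp h with h4 | ⟨-, h4⟩
        · exact domD d d' h1 h2 h4
        · refine not_dom hp h3 (fun x => loD d x h1) (fun x => loD d' x h2) hne ?_
          have a1 : sec d ≤ sec d' := by omega
          simp only [sec, if_pos h1, if_pos h2] at a1
          have a2 := Set.ncard_le_card {z | d' < z}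
          omega
      domU := fun u u' h1 h2 h => by
        have hne : u ≠ u' := fun h' => by rw [h'] at h; exact lt_irrefl _ h
        rcases (p_lt u' u (onU u' h2) (onU u h1)).mp h with h4 | ⟨-, h4⟩
        · exact domU u u' h1 h2 h4
        · refine not_dom (X := Xᵒᵈ) hp.dual h3 (fun x => hiU u x h1) (fun x => hiU u' x h2) hne ?_
          have a1 : sec u' ≤ sec u := by omega
          have b1 : ¬ u < s := fun h => lt_irrefl _ ((h.trans_le st).trans h1)
          have b2 : ¬ u' < s := fun h => lt_irrefl _ ((h.trans_le st).trans h2)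
          simp only [sec, if_neg b1, if_neg b2] at a1
          exact a1 }
  have hmono : ∀ {f : X → X}, C.Gd f → Mono (fun x y : X => x < y) f :=
    fun hf x y h => (hf.mono x y h.le).eq_or_lt
  have himg : ∀ {g : X → X}, C.Gd g → (¬ ∃ c, ∀ x, g x = c) →
      Img on v blk fun x => x ∈ Set.range g := by
    intro g hg hn
    refine ⟨?_, ?_, ?_, fun x hx => ?_, ⟨g s, s, rfl⟩⟩
    · rintro _ ⟨a, rfl⟩ ha
      exact hg.foot hn ha
    · rintro _ _ y ⟨a, rfl⟩ ⟨b, rfl⟩ hy h1 h2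
      exact hg.convex hn hy (pm _ _ h1).le (pm _ _ h2).le
    · rintro S _ _ ⟨a, rfl⟩ ⟨b, rfl⟩ h1 h2
      obtain ⟨x, y, a1, a2, a3⟩ := (hmono hg).exit hconn {x | S x} (u := a) (v := b) h1 h2
      exact ⟨g x, g y, ⟨x, rfl⟩, ⟨y, rfl⟩, a1, a2, a3⟩
    · obtain ⟨z, hz, hz'⟩ := (hmono hg).exists_adj hconn hn hx
      exact ⟨z, hz, hz'⟩
  refine Cat.perp_of_gd (C := C) fun f hf => trivial_of_cases C.Gd (fun f g => Cat.Gd.comp)
    (fun f g hf hg hn c hc => ⟨c, ?_⟩) (fun e he hn hi => ?_)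
    (fun f hf hi => Cat.eq_id_of_inj hf hi) hf
  · refine nil _ (fun x => f x = c) (himg hg hn) (by rintro _ ⟨a, rfl⟩; exact hc a) ⟨?_, ?_⟩
    · intro a m n ha ha0 h1 h2 h y hy h4 h5
      have step : ∀ x z, on z → m ≤ blk z → blk z ≤ n → C.Nr x z → f x = c → f z = c := by
        intro x z b1 b2 b3 b4 b5
        rcases h z b1 b2 b3 with b6 | ⟨w, b6, b7⟩
        · exact b6
        · exact hf.closed b5 b6 b4 b7
      rcases le_total (p a) (p y) with h6 | h6
      · refine Cat.up (C := C) (W := fun z => p z ≤ p y → f z = c) ha0 (fun _ => ha)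
          (fun x z b1 b2 b3 b4 b5 b6 => ?_) y hy h6 le_rfl
        change p a ≤ p x at b3
        change p z = p x + 1 at b4
        exact step x z b2 (h1.trans (pm' _ _ (by omega))) ((pm' _ _ b6).trans h5)
          (Cat.nr_succ b1 b2 b4.symm) (b5 (by omega))
      · refine Cat.down (C := C) (W := fun z => p y ≤ p z → f z = c) ha0 (fun _ => ha)
          (fun x z b1 b2 b3 b4 b5 b6 => ?_) y hy h6 le_rfl
        change p x ≤ p a at b3
        change p z + 1 = p x at b4
        exact step x z b2 (h4.trans (pm' _ _ b6)) ((pm' _ _ (by omega)).trans h2)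
          (Cat.nr_succ b2 b1 b4).symm (b5 (by omega))
    · intro x w h1 h2 h4 h5
      exact hf.closed h2 h4 (Cat.nr_off (C := C) h1).symm h5
  · have hr : (fun x => e x = x) = fun x => x ∈ Set.range e := by
      funext x
      exact propext ⟨fun h => ⟨x, h⟩, by rintro ⟨a, rfl⟩; exact hi a⟩
    suffices hR : Ret on v blk e by
      obtain ⟨⟨d, a1, a2⟩, ⟨u, a3, a4⟩, a5⟩ := ret e hR
      exact Cat.eq_id_of_idem he hi hn a1 a2 a3 a4 a5
    refine ⟨he.mono, hi, hr ▸ himg he hn, ?_⟩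
    intro x hx hv
    have h1 := he.nr x v (Cat.nr_off (C := C) hx)
    rw [hv] at h1
    by_cases h2 : on (e x)
    · refine Or.inr ⟨h2, fun z _ => ?_⟩
      have h4 := h1.le
      change p (e x) ≤ p v + 1 ∧ p v ≤ p (e x) + 1 at h4
      constructor
      · rintro ⟨b1, b2⟩
        have c1 := pm _ _ b1
        have c2 := pm _ _ b2
        omega
      · rintro ⟨b1, b2⟩
        have c1 := pm _ _ b1
        have c2 := pm _ _ b2
        omega
    · exact Or.inl ((off_eq _ h2).trans (off_eq _ hx).symm)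

end Pool.Agent.Lib.MP_04ca4f_co.St
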