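import Pool.Agent.Lib.MP_04ca4f_co.PathLem

/-!
# A path of incomparable pairs from the points below s to the points above t, with one pendant point
-/

set_option autoImplicit false

namespace Pool.Agent.Lib.MP_04ca4f_co.St

variable {X : Type*}

/-- The order has a perpendicular. -/
def Perp (X : Type*) [P : PartialOrder X] : Prop :=
  ∃ Q : PartialOrder X, ∀ f : X → X, (∀ x y, P.le x y → P.le (f x) (f y)) →
    (∀ x y, Q.le x y → Q.le (f x) (f y)) → f = id ∨ ∃ c, ∀ x, f x = c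

theorem Perp.of_dual [PartialOrder X] (h : Perp Xᵒᵈ) : Perp X := by
  obtain ⟨Q, hQ⟩ := h
  exact ⟨Q, fun f h1 h2 => hQ f (fun x y hxy => h1 y x hxy) h2⟩

/-- No nontrivial autonomous set. -/
def Pr (X : Type*) [PartialOrder X] : Prop := Prime (fun x y : X => x < y)

theorem Pr.dual [PartialOrder X] (h : Pr X) : Pr Xᵒᵈ := Prime.flip h

/-- The data of the tree. -/
structure Cat (X : Type*) [PartialOrder X] where
  p : X → ℤ
  on : X → Prop
  σ : X
  v : X
  s : X
  t : X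
  off_eq : ∀ x, ¬ on x → x = σ
  on_v : on v
  p_off : ∀ x, ¬ on x → p x = p v
  inj : ∀ x y, on x → on y → p x = p y → x = y
  conv : ∀ x y k, p x ≤ k → k ≤ p y → ∃ z, on z ∧ p z = k
  sep : ∀ x y, on x → on y → x < y → p x + 1 < p y ∨ p y + 1 < p x
  sepv : ∀ x, ¬ on x → ¬ x < v ∧ ¬ v < x
  off_mem : ∀ x, ¬ on x → s ≤ x ∧ x ≤ t
  st : s ≤ t
  exD : ∃ d, d < s
  exU : ∃ u, t < u
  loD : ∀ d x, d < s → ¬ x < d
  hiU : ∀ u x, t < u → ¬ u < x
  posD : ∀ d x, d < s → ¬ x < s → p d < p x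
  posU : ∀ u x, t < u → ¬ t < x → p x < p u
  domD : ∀ d d', d < s → d' < s → p d < p d' → ∃ z, d < z ∧ ¬ d' < z
  domU : ∀ u u', t < u → t < u' → p u' < p u → ∃ z, z < u ∧ ¬ z < u'

variable [PartialOrder X]

namespace Cat

/-- The same tree for the dual order, read backwards. -/
def dual (C : Cat X) : Cat Xᵒᵈ where
  p := fun x => - C.p x
  on := C.on
  σ := C.σ
  v := C.v
  s := C.t
  t := C.s
  off_eq := C.off_eq
  on_v := C.on_v
  p_off := fun x h => congrArg Neg.neg (C.p_off x h)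
  inj := fun x y hx hy h => C.inj x y hx hy (neg_injective h)
  conv := fun x y k h1 h2 => by
    obtain ⟨z, hz, hz'⟩ := C.conv y x (-k) (by omega) (by omega)
    exact ⟨z, hz, by omega⟩
  sep := fun x y hx hy h => by
    have := C.sep y x hy hx h
    omega
  sepv := fun x h => (C.sepv x h).symm
  off_mem := fun x h => (C.off_mem x h).symm
  st := C.st
  exD := C.exU
  exU := C.exD
  loD := C.hiU
  hiU := C.loD
  posD := fun d x h1 h2 => neg_lt_neg (C.posU d x h1 h2)
  posU := fun d x h1 h2 => neg_lt_neg (C.posD d x h1 h2)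
  domD := fun d d' h1 h2 h3 => C.domU d d' h1 h2 (neg_lt_neg_iff.mp h3)
  domU := fun d d' h1 h2 h3 => C.domD d d' h1 h2 (neg_lt_neg_iff.mp h3)

variable (C : Cat X)

/-- Equal or neighbours in the tree. -/
def Nr (x y : X) : Prop :=
  x = y ∨ (C.on x ∧ C.on y ∧ (C.p x + 1 = C.p y ∨ C.p y + 1 = C.p x)) ∨
    (¬ C.on x ∧ y = C.v) ∨ (x = C.v ∧ ¬ C.on y)

/-- Maps that respect the order and the tree. -/
structure Gd (f : X → X) : Prop where
  mono : ∀ x y, x ≤ y → f x ≤ f y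
  nr : ∀ x y, C.Nr x y → C.Nr (f x) (f y)

variable {C}

theorem Nr.symm {x y : X} (h : C.Nr x y) : C.Nr y x := by
  rcases h with h | ⟨h1, h2, h3⟩ | ⟨h1, h2⟩ | ⟨h1, h2⟩
  · exact Or.inl h.symm
  · exact Or.inr (Or.inl ⟨h2, h1, h3.symm⟩)
  · exact Or.inr (Or.inr (Or.inr ⟨h2, h1⟩))
  · exact Or.inr (Or.inr (Or.inl ⟨h2, h1⟩))

theorem nr_dual {x y : X} : C.dual.Nr x y ↔ C.Nr x y := by
  have : (- C.p x + 1 = - C.p y ∨ - C.p y + 1 = - C.p x) ↔
      (C.p x + 1 = C.p y ∨ C.p y + 1 = C.p x) := by omega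
  exact or_congr Iff.rfl (or_congr (and_congr Iff.rfl (and_congr Iff.rfl this)) Iff.rfl)

theorem Gd.dual {f : X → X} (h : C.Gd f) : C.dual.Gd f :=
  ⟨fun x y hxy => h.mono y x hxy, fun x y hxy => nr_dual.mpr (h.nr x y (nr_dual.mp hxy))⟩

theorem Gd.comp {f g : X → X} (hf : C.Gd f) (hg : C.Gd g) : C.Gd (f ∘ g) :=
  ⟨fun x y h => hf.mono _ _ (hg.mono x y h), fun x y h => hf.nr _ _ (hg.nr x y h)⟩

theorem Gd.iterate {f : X → X} (hf : C.Gd f) (n : ℕ) : C.Gd f^[n] := by
  induction' n with n ih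
  · exact ⟨fun _ _ h => h, fun _ _ h => h⟩
  · rw [Function.iterate_succ']
    exact hf.comp ih

theorem Nr.le {x y : X} (h : C.Nr x y) : C.p x ≤ C.p y + 1 ∧ C.p y ≤ C.p x + 1 := by
  rcases h with rfl | ⟨-, -, h3⟩ | ⟨h1, rfl⟩ | ⟨rfl, h2⟩
  · omega
  · omega
  · have := C.p_off x h1
    omega
  · have := C.p_off y h2
    omega

theorem Nr.not_lt {x y : X} (h : C.Nr x y) : ¬ x < y := by
  intro hxy
  rcases h with rfl | ⟨h1, h2, h3⟩ | ⟨h1, rfl⟩ | ⟨rfl, h2⟩
  · exact lt_irrefl _ hxy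
  · have := C.sep x y h1 h2 hxy
    omega
  · exact (C.sepv x h1).1 hxy
  · exact (C.sepv y h2).2 hxy

theorem Nr.eq_of_le {x y : X} (h : C.Nr x y) (hxy : x ≤ y) : x = y :=
  hxy.eq_or_lt.resolve_right h.not_lt

theorem nr_succ {x y : X} (hx : C.on x) (hy : C.on y) (h : C.p x + 1 = C.p y) : C.Nr x y :=
  Or.inr (Or.inl ⟨hx, hy, Or.inl h⟩)

theorem nr_off {x : X} (hx : ¬ C.on x) : C.Nr x C.v := Or.inr (Or.inr (Or.inl ⟨hx, rfl⟩))

/-- Induction upwards along the path. -/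
theorem up {W : X → Prop} {u : X} (hu0 : C.on u) (hu : W u)
    (hs : ∀ x y, C.on x → C.on y → C.p u ≤ C.p x → C.p y = C.p x + 1 → W x → W y) (x : X)
    (hx0 : C.on x) (hx : C.p u ≤ C.p x) : W x := by
  obtain ⟨k, hk⟩ := Int.le.dest hx
  induction' k with k ih generalizing x
  · rwa [← C.inj u x hu0 hx0 (by simpa using hk)]
  · obtain ⟨z, hz0, hz⟩ := C.conv u x (C.p u + k) (by omega) (by push_cast at hk; omega)
    exact hs z x hz0 hx0 (by omega) (by push_cast at hk; omega) (ih z hz0 (by omega) hz.symm)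

/-- Induction downwards along the path. -/
theorem down {W : X → Prop} {u : X} (hu0 : C.on u) (hu : W u)
    (hs : ∀ x y, C.on x → C.on y → C.p x ≤ C.p u → C.p y + 1 = C.p x → W x → W y) (x : X)
    (hx0 : C.on x) (hx : C.p x ≤ C.p u) : W x :=
  up (C := C.dual) (W := W) hu0 hu (fun x y h1 h2 h3 h4 => hs x y h1 h2
    (by change - C.p u ≤ - C.p x at h3; omega) (by change - C.p y = - C.p x + 1 at h4; omega))
    x hx0 (by change - C.p u ≤ - C.p x; omega)

/-- The tree is connected. -/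
theorem tconn {W : X → Prop} {a : X} (ha : W a) (hs : ∀ x y, C.Nr x y → W x → W y) (x : X) :
    W x := by
  have h1 : ∀ a, C.on a → W a → ∀ x, C.on x → W x := by
    intro a ha0 ha x hx0
    rcases le_total (C.p a) (C.p x) with h | h
    · exact up ha0 ha (fun x y h1 h2 _ h4 => hs x y (nr_succ h1 h2 h4.symm)) x hx0 h
    · exact down ha0 ha (fun x y h1 h2 _ h4 => hs x y (nr_succ h2 h1 h4).symm) x hx0 h
  have hv : W C.v := by
    by_cases h : C.on a
    · exact h1 a h ha _ C.on_v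
    · exact hs _ _ (nr_off h) ha
  by_cases h : C.on x
  · exact h1 _ C.on_v hv x h
  · exact hs _ _ (nr_off h).symm hv

theorem Gd.lip {f : X → X} (hf : C.Gd f) {x y : X} (hx : C.on x) (hy : C.on y)
    (hxy : C.p x ≤ C.p y) : C.p (f y) - C.p (f x) ≤ C.p y - C.p x := by
  refine up (W := fun y => C.p (f y) - C.p (f x) ≤ C.p y - C.p x) hx (by simp)
    (fun a b h1 h2 _ h4 h5 => ?_) y hy hxy
  have := (hf.nr a b (nr_succ h1 h2 h4.symm)).le
  omega

theorem Gd.foot {g : X → X} (hg : C.Gd g) (hn : ¬ ∃ c, ∀ x, g x = c) {a : X}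
    (ha : ¬ C.on (g a)) : C.v ∈ Set.range g := by
  by_contra hv
  refine hn ⟨g a, tconn (C := C) (W := fun x => g x = g a) rfl fun x y hxy hx => ?_⟩
  have h := hg.nr x y hxy
  rw [hx] at h
  rcases h with h | ⟨h1, -⟩ | ⟨-, h2⟩ | ⟨h1, -⟩
  · exact h.symm
  · exact absurd h1 ha
  · exact absurd ⟨y, h2⟩ hv
  · exact absurd (h1 ▸ C.on_v) ha

theorem Gd.convex {g : X → X} (hg : C.Gd g) (hn : ¬ ∃ c, ∀ x, g x = c) {a b y : X}
    (hy : C.on y) (h1 : C.p (g a) ≤ C.p y) (h2 : C.p y ≤ C.p (g b)) : y ∈ Set.range g := by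
  by_contra hr
  have hne : ∀ w, C.p (g w) ≠ C.p y := by
    intro w hw
    by_cases h : C.on (g w)
    · exact hr ⟨w, C.inj _ _ h hy hw⟩
    · have h3 := C.p_off _ h
      exact hr (C.inj _ _ C.on_v hy (by omega) ▸ hg.foot hn h)
  have := tconn (C := C) (W := fun w => C.p (g w) < C.p y) (lt_of_le_of_ne h1 (hne a))
    (fun x z hxz hx => by
      have h3 := (hg.nr x z hxz).le
      have h4 := hne z
      omega) b
  omega

theorem Gd.closed {f : X → X} (hf : C.Gd f) {c x y z : X} (hx : f x = c) (hy : f y = c)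
    (h1 : C.Nr x z) (h2 : y < z ∨ z < y) : f z = c := by
  have h3 := hf.nr x z h1
  rw [hx] at h3
  rcases h2 with h2 | h2
  · exact (h3.eq_of_le (hy ▸ hf.mono _ _ h2.le)).symm
  · exact h3.symm.eq_of_le (hy ▸ hf.mono _ _ h2.le)

theorem on_D {d : X} (h : d < C.s) : C.on d := by
  by_contra h1
  exact h.not_ge (C.off_mem d h1).1

theorem not_D_of_U {u : X} (h : C.t < u) : ¬ u < C.s := fun h1 =>
  lt_irrefl _ ((h1.trans_le C.st).trans h)

/-- An idempotent map fixing one point below s and everything outside the two end blocks fixes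
all points below s. -/
theorem fix_D {e : X → X} (he : C.Gd e) (hfix : ∀ x, ¬ x < C.s → ¬ C.t < x → e x = x)
    (hi : ∀ x, e (e x) = e x) (hn : ¬ ∃ c, ∀ x, e x = c) {d : X} (hd : d < C.s) (hed : e d = d)
    {x : X} (hx : x < C.s) : e x = x := by
  have hs : e C.s = C.s := hfix _ (lt_irrefl _) C.st.not_gt
  have hr : ∀ y, C.on y → C.p d ≤ C.p y → C.p y ≤ C.p C.s → e y = y := by
    intro y hy h1 h2
    obtain ⟨w, rfl⟩ := he.convex hn (a := d) (b := C.s) hy (by rwa [hed]) (by rwa [hs])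
    exact hi w
  rcases le_total (C.p d) (C.p x) with h | h
  · exact hr x (on_D hx) h (C.posD x _ hx (lt_irrefl _)).le
  refine down (W := fun y => e y = y ∧ y < C.s) (on_D hd) ⟨hed, hd⟩ ?_ x (on_D hx) h |>.1
  rintro a b ha hb - h4 ⟨h5, h6⟩
  have hbs : b < C.s := by
    by_contra h7
    have := C.posD a b h6 h7
    omega
  refine ⟨?_, hbs⟩
  have h7 := he.nr b a (nr_succ hb ha h4)
  rw [h5] at h7
  have h8 : e b ≤ C.s := hs ▸ he.mono _ _ hbs.le
  have h9 : e b < C.s := h8.lt_of_ne fun h => (h ▸ h7).symm.not_lt h6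
  have h10 := h7.le
  by_contra hne
  have h11 : C.p b ≠ C.p (e b) := fun h => hne (C.inj _ _ hb (on_D h9) h).symm
  obtain ⟨z, hz1, hz2⟩ := C.domD b (e b) hbs h9 (by omega)
  have hz : e z = z := hfix z (fun h => C.loD z b h hz1) fun h =>
    hz2 ((h9.trans_le C.st).trans h)
  have h12 : e b ≤ z := hz ▸ he.mono _ _ hz1.le
  rcases h12.eq_or_lt with h13 | h13
  · exact C.loD _ b h9 (h13 ▸ hz1)
  · exact hz2 h13

theorem eq_id_of_idem {e : X → X} (he : C.Gd e) (hi : ∀ x, e (e x) = e x)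
    (hn : ¬ ∃ c, ∀ x, e x = c) {d u : X} (hd : d < C.s) (hed : e d = d) (hu : C.t < u)
    (heu : e u = u) (hoff : ∀ x, ¬ C.on x → e x = x) (x : X) : e x = x := by
  have hfix : ∀ x, ¬ x < C.s → ¬ C.t < x → e x = x := by
    intro x h1 h2
    by_cases h : C.on x
    · obtain ⟨w, rfl⟩ := he.convex hn (a := d) (b := u) h
        (by rw [hed]; exact (C.posD d x hd h1).le) (by rw [heu]; exact (C.posU u x hu h2).le)
      exact hi w
    · exact hoff x h
  by_cases h1 : x < C.s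
  · exact fix_D he hfix hi hn hd hed h1
  by_cases h2 : C.t < x
  · exact fix_D (C := C.dual) he.dual (fun x a b => hfix x b a) hi hn hu heu h2
  · exact hfix x h1 h2

/-- A bijective good map with a good inverse fixes the first point of the path. -/
theorem fix_first {f g : X → X} (hg : C.Gd g) (hgf : ∀ x, g (f x) = x)
    (hfg : ∀ x, f (g x) = x) {d : X} (hd : ∀ x, C.p d ≤ C.p x) (hd0 : C.on d) : f d = d := by
  obtain ⟨d', hd'⟩ := C.exD
  obtain ⟨u, hu⟩ := C.exU
  have hds : d < C.s := by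
    by_contra h
    have h1 := C.posD d' d hd' h
    have h2 := hd d'
    omega
  have hlo : ∀ w, ¬ w < f d := fun w hw => by
    have h1 : g w ≤ d := hgf d ▸ hg.mono _ _ hw.le
    rcases h1.eq_or_lt with h2 | h2
    · exact hw.ne (by rw [← h2, hfg])
    · exact C.loD d _ hds h2
  have hon : C.on (f d) := by
    by_contra h
    exact hlo d (hds.trans_le (C.off_mem _ h).1)
  have hnu : ¬ C.t < f d := hlo _
  have h1 := C.posU u _ hu hnu
  by_contra hne
  have h2 : C.p d ≠ C.p (f d) := fun h => hne (C.inj _ _ hd0 hon h).symm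
  have h3 := hd (f d)
  obtain ⟨a, ha0, ha⟩ := C.conv d u (C.p (f d) - 1) (by omega) (by omega)
  obtain ⟨b, hb0, hb⟩ := C.conv d u (C.p (f d) + 1) (by omega) (by omega)
  have hdv : d ≠ C.v ∨ ∀ y, C.on y := by
    by_contra h
    push Not at h
    obtain ⟨h4, y, hy⟩ := h
    exact (C.sepv y hy).2 (h4 ▸ hds.trans_le (C.off_mem y hy).1)
  have key : ∀ y, C.Nr y (f d) → y ≠ f d → C.on (g y) ∧ C.p (g y) = C.p d + 1 := by
    intro y hy hy'
    have h4 := hg.nr _ _ hy
    rw [hgf] at h4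
    rcases h4 with h4 | ⟨h4, -, h5⟩ | ⟨h4, h5⟩ | ⟨-, h5⟩
    · exact absurd (by rw [← h4, hfg]) hy'
    · have := hd (g y)
      exact ⟨h4, by omega⟩
    · exact absurd h4 (not_not.mpr ((hdv.resolve_left (not_not.mpr h5)) _))
    · exact absurd hd0 h5
  have h4 := key a (nr_succ ha0 hon (by omega)) (fun h => by rw [h] at ha; omega)
  have h5 := key b (nr_succ hon hb0 (by omega)).symm (fun h => by rw [h] at hb; omega)
  have h6 : a = b := by rw [← hfg a, C.inj _ _ h4.1 h5.1 (h4.2.trans h5.2.symm), hfg]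
  rw [h6] at ha
  omega

theorem eq_id_of_inj [Finite X] {f : X → X} (hf : C.Gd f) (hi : Function.Injective f) :
    f = id := by
  obtain ⟨k, hk, hk'⟩ := Lexi.exists_iterate_idem f
  obtain ⟨k, rfl⟩ := Nat.exists_eq_succ_of_ne_zero hk.ne'
  have hid : ∀ x, f^[k + 1] x = x := fun x => (hi.iterate (k + 1)) (hk' x)
  have hgf : ∀ x, f^[k] (f x) = x := fun x => by rw [← Function.iterate_succ_apply, hid]
  have hfg : ∀ x, f (f^[k] x) = x := fun x => by
    rw [← Function.iterate_succ_apply' f k, hid]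
  have ext : ∀ a : X, ∃ a', C.on a' ∧ C.p a' = C.p a := fun a => C.conv a a _ le_rfl le_rfl
  have : Nonempty X := ⟨C.s⟩
  obtain ⟨d0, hd0⟩ := Finite.exists_min C.p
  obtain ⟨u0, hu0⟩ := Finite.exists_max C.p
  obtain ⟨d, hd, hd'⟩ := ext d0
  obtain ⟨u, hu, hu'⟩ := ext u0
  have h1 : f d = d := fix_first (hf.iterate k) hgf hfg (fun x => hd' ▸ hd0 x) hd
  have h2 : f u = u := fix_first (C := C.dual) (hf.iterate k).dual hgf hfg
    (fun x => neg_le_neg (hu' ▸ hu0 x)) hu
  have h3 : ∀ y, C.on y → C.p (f y) = C.p y := by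
    intro y hy
    have a1 := hf.lip hd hy (hd' ▸ hd0 y)
    have a2 := hf.lip hy hu (hu' ▸ hu0 y)
    rw [h1] at a1
    rw [h2] at a2
    omega
  have h4 : ∀ y, C.on y → f y = y := by
    intro y hy
    by_cases h : C.on (f y)
    · exact C.inj _ _ h hy (h3 y hy)
    exfalso
    have a1 := C.p_off _ h
    have a2 := h3 y hy
    obtain ⟨w, hw⟩ := C.exU
    have a3 := C.posU w C.v hw fun h' => (C.sepv _ h).1 ((C.off_mem _ h).2.trans_lt h')
    obtain ⟨b, hb0, hb⟩ := C.conv y w (C.p y + 1) (by omega) (by omega)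
    have a4 := h3 b hb0
    rcases hf.nr y b (nr_succ hy hb0 hb.symm) with h5 | ⟨h5, -⟩ | ⟨-, h5⟩ | ⟨h5, -⟩
    · rw [← h5] at a4
      omega
    · exact h h5
    · rw [h5] at a4
      omega
    · exact h (h5 ▸ C.on_v)
  funext x
  by_cases h : C.on x
  · exact h4 x h
  · by_cases h' : C.on (f x)
    · exact absurd (hi (h4 _ h') ▸ h') h
    · exact (C.off_eq _ h').trans (C.off_eq _ h).symm

open Classical in
/-- The colour of a point. -/
noncomputable def col (C : Cat X) (x : X) : ℤ := (if C.on x then C.p x else C.p x + 1) % 2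

theorem col_ne {x y : X} (h : C.Nr x y) (hne : x ≠ y) : C.col x + C.col y = 1 := by
  unfold col
  rcases h with h | ⟨h1, h2, h3⟩ | ⟨h1, rfl⟩ | ⟨rfl, h2⟩
  · exact absurd h hne
  · rw [if_pos h1, if_pos h2]
    omega
  · rw [if_neg h1, if_pos C.on_v, C.p_off x h1]
    omega
  · rw [if_neg h2, if_pos C.on_v, C.p_off y h2]
    omega

/-- The tree as an order of height two. -/
@[reducible] def order (C : Cat X) : PartialOrder X where
  le x y := x = y ∨ (C.Nr x y ∧ C.col x = 0 ∧ C.col y = 1)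
  lt x y := (x = y ∨ (C.Nr x y ∧ C.col x = 0 ∧ C.col y = 1)) ∧
    ¬ (y = x ∨ (C.Nr y x ∧ C.col y = 0 ∧ C.col x = 1))
  lt_iff_le_not_ge _ _ := Iff.rfl
  le_refl _ := Or.inl rfl
  le_trans := by
    rintro x y z (rfl | h) h'
    · exact h'
    · rcases h' with rfl | h'
      · exact Or.inr h
      · omega
  le_antisymm := by
    rintro x y (rfl | h) h'
    · rfl
    · rcases h' with rfl | h'
      · rfl
      · omega

theorem perp_of_gd (h : ∀ f, C.Gd f → f = id ∨ ∃ c, ∀ x, f x = c) : Perp X := by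
  refine ⟨C.order, fun f h1 h2 => h f ⟨h1, fun x y hxy => ?_⟩⟩
  have key : ∀ x y, C.order.le x y → C.Nr (f x) (f y) := fun x y h =>
    (h2 x y h).elim Or.inl fun h => h.1
  by_cases he : x = y
  · exact Or.inl (congrArg f he)
  have h3 := col_ne hxy he
  have h4 : C.col x = 0 ∨ C.col x = 1 := by unfold col; omega
  rcases h4 with h4 | h4
  · exact key x y (Or.inr ⟨hxy, h4, by omega⟩)
  · exact (key y x (Or.inr ⟨hxy.symm, by omega, h4⟩)).symm

end Cat

end Pool.Agent.Lib.MP_04ca4f_co.St
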