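import Pool.Agent.Lib.MP_04ca4f_co.StDeltaB

/-!
# The chain s < z < t contains all middle points
-/

set_option autoImplicit false

namespace Pool.Agent.Lib.MP_04ca4f_co.St

variable {X : Type*} [PartialOrder X] {ty : X → ℕ} {s z t : X}

theorem DT.dII0 [Finite X] (T : DT ty s z t)
    (h0 : ∀ x, ty x ≠ 5 ∧ ty x ≠ 7 ∧ ty x ≠ 2 ∧ ty x ≠ 10) : Perp X := by
  obtain ⟨r, b, hr, hb, hrb⟩ := T.wr
  obtain ⟨c, a, hc, ha, hac⟩ := T.wc
  obtain ⟨x1, hx1⟩ := T.sp1
  obtain ⟨y1, hy1⟩ := T.sp2
  have hs := T.hs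
  have hz := T.hz
  have ht := T.ht
  replace hr : ty r = 3 := by have := h0 r; omega
  replace hc : ty c = 9 := by have := h0 c; omega
  replace hx1 : ty x1 = 1 := by have := h0 x1; omega
  replace hy1 : ty y1 = 11 := by have := h0 y1; omega
  obtain ⟨blk, hblk⟩ := exists_blk (fun x => if ty x ≤ 1 then ty x else if ty x = 4 then 2 else
    if ty x = 3 then 3 else if ty x = 6 then 5 else if ty x = 9 then 7 else if ty x = 8 then 8
    else ty x - 2) r c 4 6
  have B : ∀ x, ty x = 0 ∧ blk x = 0 ∨ ty x = 1 ∧ blk x = 1 ∨ ty x = 4 ∧ blk x = 2 ∨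
      ty x = 3 ∧ (blk x = 3 ∨ blk x = 4) ∨ ty x = 6 ∧ blk x = 5 ∨
      ty x = 9 ∧ (blk x = 6 ∨ blk x = 7) ∨ ty x = 8 ∧ blk x = 8 ∨ ty x = 11 ∧ blk x = 9 ∨
      ty x = 12 ∧ blk x = 10 := by
    intro x
    have h1 := T.le x
    have h2 := h0 x
    rcases hblk x with ⟨rfl, h⟩ | ⟨-, rfl, h⟩ | ⟨-, -, h⟩
    · simp [hr, h]
    · simp [hc, h]
    · rw [h]
      generalize ty x = k at h1 h2
      interval_cases k <;> simp at h2 ⊢
  have br : blk r = 4 := by rcases hblk r with h | h | h <;> simp_all
  have bc : blk c = 6 := by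
    rcases hblk c with ⟨rfl, h⟩ | h | h
    · omega
    · exact h.2.2
    · exact absurd rfl h.2.1
  clear hblk
  have bs : blk s = 2 := by have := B s; omega
  have bz : blk z = 5 := by have := B z; omega
  have bt : blk t = 8 := by have := B t; omega
  have b1 : blk x1 = 1 := by have := B x1; omega
  have b2 : blk y1 = 9 := by have := B y1; omega
  have on : ∀ x, ty x ≠ 13 := fun x => by have := T.le x; omega
  have hasz : ∀ J, Img (fun x => ty x ≠ 13) s blk J → J z := by
    intro J h
    have k1 : J x1 → J z := fun h1 => by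
      obtain ⟨w, h2, h3⟩ := h.adj x1 h1
      have := T.cmp h3
      have := B w
      by_cases h4 : ty w = 6
      · exact T.ez w h4 ▸ h2
      · exact h.conv x1 w z h1 h2 (on _) (by omega) (by omega)
    have k2 : J y1 → J z := fun h1 => by
      obtain ⟨w, h2, h3⟩ := h.adj y1 h1
      have := T.cmp h3
      have := B w
      by_cases h4 : ty w = 6
      · exact T.ez w h4 ▸ h2
      · exact h.conv w y1 z h2 h1 (on _) (by omega) (by omega)
    have k3 : ∀ x y, J x → J y → x < y → J z := fun x y h1 h2 h3 => by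
      have := T.lt h3
      have := B x
      have := B y
      by_cases h4 : ty x = 6
      · exact T.ez x h4 ▸ h1
      by_cases h5 : ty y = 6
      · exact T.ez y h5 ▸ h2
      by_cases h6 : ty y = 4
      · exact k1 (h.conv x y x1 h1 h2 (on _) (by omega) (by omega))
      by_cases h7 : ty x = 8
      · exact k2 (h.conv x y y1 h1 h2 (on _) (by omega) (by omega))
      exact h.conv x y z h1 h2 (on _) (by omega) (by omega)
    obtain ⟨x, hx⟩ := h.ne
    obtain ⟨y, hy, h1 | h1⟩ := h.adj x hx
    · exact k3 x y hx hy h1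
    · exact k3 y x hy hx h1
  refine T.perp 13 (by omega) s blk (on s) (fun x h => absurd h (on x)) (fun x y _ _ h => ?_)
    (fun x h => absurd h (on x)) (fun d x h1 h2 => ?_) (fun d x h1 h2 => ?_)
    (fun d x h1 h2 h3 => ?_) (fun d x h1 h2 => ?_) (fun e he => ?_) (fun J K hJ hJK hK => ?_)
  · have := T.lt h
    have := B x
    have := B y
    by_cases h1 : ty y = 4
    · exact ⟨x1, on _, by omega⟩
    by_cases h2 : ty x = 8
    · exact ⟨y1, on _, by omega⟩
    by_cases h3 : ty y = 6
    · exact ⟨r, on _, by omega⟩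
    by_cases h4 : ty x = 6
    · exact ⟨c, on _, by omega⟩
    exact ⟨z, on _, by omega⟩
  · have := B d; have := B x; omega
  · have := B d; have := B x; omega
  · have := B d; have := B x; omega
  · have := B d; have := B x; omega
  · have hz' := hasz _ he.img
    have cv := fun x w y h1 h2 => he.img.conv x w y h1 h2 (on y)
    have k1 : e r = r → e c = c ∧ e t = t := fun h1 => by
      obtain ⟨w, a1, a2, a3⟩ := he.sub h1 hz' hrb (T.g6 b (by omega)) (T.inc (by omega))
        (T.inc (by omega)) (ne_of_ty (ty := ty) (by omega))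
      have := T.lt a2
      have := T.lt a3
      have := B w
      exact ⟨cv z w c hz' a1 (by omega) (by omega), cv z w t hz' a1 (by omega) (by omega)⟩
    have k2 : e c = c → e r = r ∧ e s = s := fun h1 => by
      obtain ⟨w, a1, a2, a3⟩ := he.slb h1 hz' hac (T.l6 a (by omega)) (T.inc (by omega))
        (T.inc (by omega)) (ne_of_ty (ty := ty) (by omega))
      have := T.lt a2
      have := T.lt a3
      have := B w
      exact ⟨cv w z r a1 hz' (by omega) (by omega), cv w z s a1 hz' (by omega) (by omega)⟩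
    have k3 : e r = r ∧ e c = c := by
      obtain ⟨w, a1, a2⟩ := he.img.adj z hz'
      have := T.cmp a2
      have := B w
      by_cases h1 : blk w ≤ 2
      · have h2 := cv w z r a1 hz' (by omega) (by omega)
        exact ⟨h2, (k1 h2).1⟩
      · have h2 := cv z w c hz' a1 (by omega) (by omega)
        exact ⟨(k2 h2).1, h2⟩
    obtain ⟨d, a1, a2, -⟩ := he.slb (k2 k3.2).2 k3.2 (T.l4 a ha) hac (T.inc (by omega))
      (T.inc (by omega)) (ne_of_ty (ty := ty) (by omega))
    obtain ⟨u, a3, a4, -⟩ := he.sub (k1 k3.1).2 k3.1 (T.g8 b hb) hrb (T.inc (by omega))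
      (T.inc (by omega)) (ne_of_ty (ty := ty) (by omega))
    have := T.lt a2
    have := T.lt a4
    exact ⟨⟨d, by omega, a1⟩, ⟨u, by omega, a3⟩, fun x h => absurd h (on x)⟩
  · have hz' := hasz _ hJ
    obtain ⟨w, a1, a2⟩ := hJ.adj z hz'
    have := T.cmp a2
    have := B w
    refine T.all_of (n := 10) (by omega) hK (on s) (fun x => by have := B x; omega) ?_
    by_cases h1 : blk w ≤ 2
    · refine Or.inl fun x hx => hK.grow z 0 5 (hJK z hz') (on z) (by omega) (by omega)
        (fun y _ _ h => ?_) x (on x) (by omega) (by have := B x; omega)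
      have := B y
      by_cases h2 : ty y ≤ 1
      · exact Or.inr ⟨z, hJK z hz', Or.inr (T.l6 y h2)⟩
      by_cases h3 : ty y = 4
      · exact Or.inr ⟨z, hJK z hz', Or.inr (T.es y h3 ▸ T.sz)⟩
      by_cases h4 : ty y = 6
      · exact Or.inl (T.ez y h4 ▸ hJK z hz')
      exact Or.inl (hJK y (hJ.conv w z y a1 hz' (on y) (by omega) (by omega)))
    · refine Or.inr fun x hx => hK.grow z 5 10 (hJK z hz') (on z) (by omega) (by omega)
        (fun y _ h _ => ?_) x (on x) (by have := B x; omega) (by have := B x; omega)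
      have := B y
      by_cases h2 : 11 ≤ ty y
      · exact Or.inr ⟨z, hJK z hz', Or.inl (T.g6 y h2)⟩
      by_cases h3 : ty y = 8
      · exact Or.inr ⟨z, hJK z hz', Or.inl (T.et y h3 ▸ T.zt)⟩
      by_cases h4 : ty y = 6
      · exact Or.inl (T.ez y h4 ▸ hJK z hz')
      exact Or.inl (hJK y (hJ.conv z w y hz' a1 (on y) (by omega) (by omega)))

end Pool.Agent.Lib.MP_04ca4f_co.St
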