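import Pool.Agent.Lib.MP_04ca4f_co.StDeltaT

/-!
# Block layouts for a chain s < z < t of middle points
-/

set_option autoImplicit false

namespace Pool.Agent.Lib.MP_04ca4f_co.St

variable {X : Type*} [PartialOrder X] {ty : X → ℕ} {s z t : X}

omit [PartialOrder X] in
theorem exists_blk (g : X → ℕ) (p q : X) (np nq : ℕ) : ∃ blk : X → ℕ, ∀ x,
    (x = p ∧ blk x = np) ∨ (x ≠ p ∧ x = q ∧ blk x = nq) ∨ (x ≠ p ∧ x ≠ q ∧ blk x = g x) := by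
  classical
  refine ⟨fun x => if x = p then np else if x = q then nq else g x, fun x => ?_⟩
  by_cases h1 : x = p
  · exact Or.inl ⟨h1, if_pos h1⟩
  by_cases h2 : x = q
  · exact Or.inr (Or.inl ⟨h1, h2, (if_neg h1).trans (if_pos h2)⟩)
  · exact Or.inr (Or.inr ⟨h1, h2, (if_neg h1).trans (if_neg h2)⟩)

theorem DT.perp [Finite X] (T : DT ty s z t) (k : ℕ) (hk : k = 4 ∨ k = 6 ∨ k = 13) (v : X)
    (blk : X → ℕ) (on_v : ty v ≠ k) (blk_off : ∀ x, ty x = k → blk x = blk v)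
    (sep : ∀ x y, ty x ≠ k → ty y ≠ k → x < y →
      ∃ w, ty w ≠ k ∧ (blk x < blk w ∧ blk w < blk y ∨ blk y < blk w ∧ blk w < blk x))
    (sepv : ∀ x, ty x = k → ¬ x < v ∧ ¬ v < x)
    (posD : ∀ d x, ty d = 0 → ty x ≠ 0 → blk d < blk x)
    (posU : ∀ u x, ty u = 12 → ty x ≠ 12 → blk x < blk u)
    (domD : ∀ d d', ty d = 0 → ty d' = 0 → blk d < blk d' → ∃ w, d < w ∧ ¬ d' < w)
    (domU : ∀ u u', ty u = 12 → ty u' = 12 → blk u' = blk u)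
    (ret : ∀ e, Ret (fun x => ty x ≠ k) v blk e →
      (∃ d, ty d = 0 ∧ e d = d) ∧ (∃ u, ty u = 12 ∧ e u = u) ∧ ∀ x, ty x = k → e x = x)
    (nil : ∀ J K, Img (fun x => ty x ≠ k) v blk J → (∀ x, J x → K x) →
      Clo (fun x => ty x ≠ k) v blk K → ∀ x, K x) : Perp X := by
  have hs := T.hs
  have hz := T.hz
  have ht := T.ht
  have hD : ∀ d, d < s ↔ ty d = 0 := fun d => ⟨fun h => by have := T.lt h; omega, T.l4 d⟩
  have hU : ∀ d, t < d ↔ ty d = 12 := fun d => ⟨fun h => by have := T.lt h; omega, T.g8 d⟩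
  have st := (T.sz.trans T.zt).le
  refine perp_of_blocks T.pr (fun x => ty x ≠ k) (if k = 4 then s else z) v s t blk
    (fun x h => ?_) on_v (fun x h => blk_off x (not_not.mp h)) sep
    (fun x h => sepv x (not_not.mp h)) (fun x h => ?_) st ?_ ?_ (fun d x h1 h2 => ?_)
    (fun d x h1 h2 => ?_) (fun d x h1 h2 => posD d x ((hD d).mp h1) (mt (hD x).mpr h2))
    (fun d x h1 h2 => posU d x ((hU d).mp h1) (mt (hU x).mpr h2))
    (fun d d' h1 h2 => domD d d' ((hD d).mp h1) ((hD d').mp h2))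
    (fun d d' h1 h2 h3 => absurd (domU d d' ((hU d).mp h1) ((hU d').mp h2)) h3.ne)
    (fun e he => ?_) nil
  · have := T.le x
    split_ifs
    · exact T.es x (by omega)
    · exact T.ez x (by omega)
  · have := T.le x
    by_cases h4 : k = 4
    · rw [T.es x (by omega)]
      exact ⟨le_rfl, st⟩
    · rw [T.ez x (by omega)]
      exact ⟨T.sz.le, T.zt.le⟩
  · obtain ⟨c, a, -, h, -⟩ := T.wc
    exact ⟨a, T.l4 a h⟩
  · obtain ⟨c, a, -, h, -⟩ := T.wr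
    exact ⟨a, T.g8 a h⟩
  · have a1 := T.lt h1
    have a2 := T.lt h2
    omega
  · have a1 := T.lt h1
    have a2 := T.lt h2
    omega
  · obtain ⟨⟨d, a1, a2⟩, ⟨u, a3, a4⟩, a5⟩ := ret e he
    exact ⟨⟨d, T.l4 d a1, a2⟩, ⟨u, T.g8 u a3, a4⟩, fun x h => a5 x (not_not.mp h)⟩

variable {on : X → Prop} {v : X} {blk : X → ℕ} {e : X → X}

/-- Two fixed incomparable points with a common upper bound have a fixed strict upper bound. -/
theorem Ret.sub (h : Ret on v blk e) {x y b : X} (hx : e x = x) (hy : e y = y) (h1 : x < b)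
    (h2 : y < b) (h3 : ¬ x < y) (h4 : ¬ y < x) (h5 : x ≠ y) : ∃ w, e w = w ∧ x < w ∧ y < w := by
  obtain ⟨w, a1, a2, a3⟩ := h.ub hx hy h1.le h2.le
  refine ⟨w, a1, a2.lt_of_ne ?_, a3.lt_of_ne ?_⟩
  · rintro rfl
    exact h4 (a3.lt_of_ne h5.symm)
  · rintro rfl
    exact h3 (a2.lt_of_ne h5)

/-- Two fixed incomparable points with a common lower bound have a fixed strict lower bound. -/
theorem Ret.slb (h : Ret on v blk e) {x y a : X} (hx : e x = x) (hy : e y = y) (h1 : a < x)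
    (h2 : a < y) (h3 : ¬ x < y) (h4 : ¬ y < x) (h5 : x ≠ y) : ∃ w, e w = w ∧ w < x ∧ w < y := by
  obtain ⟨w, a1, a2, a3⟩ := h.lb hx hy h1.le h2.le
  refine ⟨w, a1, a2.lt_of_ne ?_, a3.lt_of_ne ?_⟩
  · rintro rfl
    exact h3 (a3.lt_of_ne h5)
  · rintro rfl
    exact h4 (a2.lt_of_ne h5.symm)

/-- Points whose types do not allow a comparability. -/
theorem DT.inc (T : DT ty s z t) {x y : X}
    (h : ¬ ((ty x ≤ 3 ∧ (ty y = 4 ∧ ty x = 0 ∨ ty y = 6 ∧ ty x ≤ 1 ∨ ty y = 8 ∧ ty x ≤ 2 ∨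
      ty y = 5 ∨ ty y = 7 ∨ 9 ≤ ty y)) ∨ (ty x = 4 ∧ (ty y = 6 ∨ ty y = 8 ∨ 10 ≤ ty y)) ∨
    (ty x = 6 ∧ (ty y = 8 ∨ 11 ≤ ty y)) ∨ (ty x = 8 ∧ ty y = 12) ∨
    ((ty x = 5 ∨ ty x = 7) ∧ 9 ≤ ty y))) : ¬ x < y := fun h1 => h (T.lt h1)

theorem DT.cmp (T : DT ty s z t) {x y : X} (h : x < y ∨ y < x) :
    ((ty x ≤ 3 ∧ (ty y = 4 ∧ ty x = 0 ∨ ty y = 6 ∧ ty x ≤ 1 ∨ ty y = 8 ∧ ty x ≤ 2 ∨
      ty y = 5 ∨ ty y = 7 ∨ 9 ≤ ty y)) ∨ (ty x = 4 ∧ (ty y = 6 ∨ ty y = 8 ∨ 10 ≤ ty y)) ∨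
    (ty x = 6 ∧ (ty y = 8 ∨ 11 ≤ ty y)) ∨ (ty x = 8 ∧ ty y = 12) ∨
    ((ty x = 5 ∨ ty x = 7) ∧ 9 ≤ ty y)) ∨
    ((ty y ≤ 3 ∧ (ty x = 4 ∧ ty y = 0 ∨ ty x = 6 ∧ ty y ≤ 1 ∨ ty x = 8 ∧ ty y ≤ 2 ∨
      ty x = 5 ∨ ty x = 7 ∨ 9 ≤ ty x)) ∨ (ty y = 4 ∧ (ty x = 6 ∨ ty x = 8 ∨ 10 ≤ ty x)) ∨
    (ty y = 6 ∧ (ty x = 8 ∨ 11 ≤ ty x)) ∨ (ty y = 8 ∧ ty x = 12) ∨
    ((ty y = 5 ∨ ty y = 7) ∧ 9 ≤ ty x)) := h.imp T.lt T.lt

theorem ne_of_ty {x y : X} (h : ty x ≠ ty y) : x ≠ y := fun h1 => h (h1 ▸ rfl)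

/-- A closed set containing all minimal points, or all maximal points, is everything. -/
theorem DT.all_of (T : DT ty s z t) {k : ℕ} (hk : k = 4 ∨ k = 6 ∨ k = 13) {K : X → Prop}
    (hK : Clo (fun x => ty x ≠ k) v blk K) (on_v : ty v ≠ k) {n : ℕ} (hn : ∀ x, blk x ≤ n)
    (h : (∀ x, ty x ≤ 3 → K x) ∨ ∀ x, 9 ≤ ty x → K x) (x : X) : K x := by
  obtain ⟨c, a, -, ha, -⟩ := T.wc
  obtain ⟨r, b, -, hb, -⟩ := T.wr
  have key : ∀ y, ty y ≠ k → K y := by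
    rcases h with h | h
    · refine fun y hy => hK.grow a 0 n (h a (by omega)) (by omega) (by omega) (hn a)
        (fun y _ _ _ => ?_) y hy (by omega) (hn y)
      by_cases h1 : ty y ≤ 3
      · exact Or.inl (h y h1)
      · obtain ⟨w, h2, h3⟩ := T.down y (by omega)
        exact Or.inr ⟨w, h w h3, Or.inl h2⟩
    · refine fun y hy => hK.grow b 0 n (h b (by omega)) (by omega) (by omega) (hn b)
        (fun y _ _ _ => ?_) y hy (by omega) (hn y)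
      by_cases h1 : 9 ≤ ty y
      · exact Or.inl (h y h1)
      · obtain ⟨w, h2, h3⟩ := T.up y (by omega)
        exact Or.inr ⟨w, h w h3, Or.inr h2⟩
  by_cases hx : ty x = k
  · have := T.le x
    obtain ⟨w, h2, h3⟩ := T.down x (by omega)
    exact hK.pend x w (not_not.mpr hx) (key v on_v) (key w (by omega)) (Or.inl h2)
  · exact key x hx

end Pool.Agent.Lib.MP_04ca4f_co.St
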