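import Pool.Agent.Lib.MP_04ca4f_co.StBlock

/-!
# Types of points when the only comparable middle points form a chain s < z < t
-/

set_option autoImplicit false

namespace Pool.Agent.Lib.MP_04ca4f_co.St

variable {X : Type*} [PartialOrder X]

theorem exists_mn [Finite X] (x : X) : ∃ a, a ≤ x ∧ ∀ y, ¬ y < a := by
  obtain ⟨a, h1, h2⟩ := exists_minimal_le_of_wellFoundedLT (fun _ : X => True) x trivial
  exact ⟨a, h1, fun y hy => hy.not_ge (h2.2 trivial hy.le)⟩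

theorem exists_mx [Finite X] (x : X) : ∃ b, x ≤ b ∧ ∀ y, ¬ b < y := exists_mn (X := Xᵒᵈ) x

theorem not_isolated (hp : Pr X) (h3 : ∀ x y : X, ∃ z, z ≠ x ∧ z ≠ y) (x : X) :
    ∃ y, x < y ∨ y < x := by
  by_contra h
  push Not at h
  have h1 := Prime.conn hp h3 {x} ⟨x, rfl⟩ (by
    rintro _ rfl y (hy | hy)
    · exact absurd hy (h y).1
    · exact absurd hy (h y).2)
  obtain ⟨y, hy, -⟩ := h3 x x
  exact hy (show y ∈ ({x} : Set X) from h1 ▸ Set.mem_univ y)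

/-- A point with only minimal points below has a partner with a common lower bound. -/
theorem exists_partner (hp : Pr X) {s t : X} (hst : s < t) (exD : ∃ d, d < s)
    (loD : ∀ d x, d < s → ¬ x < d) : ∃ c a, a < s ∧ a < c ∧ ¬ s ≤ c ∧ ¬ c ≤ s := by
  by_contra h
  push Not at h
  obtain ⟨d, hd⟩ := exD
  refine hp {x | x ≤ s} (fun h1 => hst.not_ge (show t ∈ {x | x ≤ s} from h1 ▸ Set.mem_univ t))
    ⟨d, hd.le, s, le_rfl, hd.ne⟩ fun x hx => ⟨?_, ?_⟩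
  · rintro ⟨a, ha, h1⟩
    exact absurd (h1.le.trans ha) hx
  · rintro ⟨a, ha, h1⟩ a' ha'
    have h2 : s ≤ x := by
      rcases ha.eq_or_lt with rfl | h2
      · exact h1.le
      · by_contra h3
        exact hx (h x a h2 h1 h3)
    exact lt_of_le_of_lt ha' (h2.lt_of_ne fun h3 => hx h3.ge)

theorem exists_partner' (hp : Pr X) {s t : X} (hst : s < t) (exU : ∃ u, t < u)
    (hiU : ∀ u x, t < u → ¬ u < x) : ∃ r b, t < b ∧ r < b ∧ ¬ r ≤ t ∧ ¬ t ≤ r :=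
  exists_partner (X := Xᵒᵈ) hp.dual (s := t) (t := s) hst exU hiU

/-- A cover has a splitter. -/
theorem exists_split (hp : Pr X) {d s t : X} (hd : d < s) (hst : s < t) :
    ∃ x, x ≠ s ∧ x ≠ t ∧ (x < t ∧ ¬ x < s ∨ s < x ∧ ¬ t < x) := by
  by_contra h
  push Not at h
  refine hst.ne (Prime.not_twin hp (three_of_chain hd hst) fun x h1 h2 => ⟨⟨?_, ?_⟩, ?_, ?_⟩)
  · exact (h x h1 h2).2
  · exact hst.trans
  · exact fun h3 => h3.trans hst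
  · exact (h x h1 h2).1

/-- Some non-minimal point that is not above all minimal points lies below a point that is. -/
theorem exists_nonfull (hp : Pr X) {d s t : X} (hd : ∀ y, ¬ y < d) (hst : s < t)
    (hs : ∀ a, (∀ y, ¬ y < a) → a < s) :
    ∃ m w a d' : X, a < m ∧ m < w ∧ (∀ a, (∀ y, ¬ y < a) → a < w) ∧ (∀ y, ¬ y < d') ∧ ¬ d' < m := by
  by_contra h
  push Not at h
  refine hp {x | ∀ a, (∀ y, ¬ y < a) → a < x}
    (fun h1 => lt_irrefl d ((show d ∈ {x | ∀ a, (∀ y, ¬ y < a) → a < x} from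
      h1 ▸ Set.mem_univ d) d hd))
    ⟨s, hs, t, fun a ha => (hs a ha).trans hst, hst.ne⟩ fun x hx => ⟨?_, ?_⟩
  · rintro ⟨w, hw, h1⟩ w' hw'
    by_cases h2 : ∀ y, ¬ y < x
    · exact hw' x h2
    · push Not at h2
      obtain ⟨a, ha⟩ := h2
      exact absurd (fun d' hd' => h x w a d' ha h1 hw hd') hx
  · rintro ⟨w, hw, h1⟩
    exact absurd (fun a ha => (hw a ha).trans h1) hx

/-- The types: 0 to 3 minimal points, 4 is s, 6 is z, 8 is t, 5 and 7 other middle points,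
9 to 12 maximal points. -/
structure DT (ty : X → ℕ) (s z t : X) : Prop where
  pr : Pr X
  le : ∀ x, ty x ≤ 12
  hs : ty s = 4
  hz : ty z = 6
  ht : ty t = 8
  es : ∀ x, ty x = 4 → x = s
  ez : ∀ x, ty x = 6 → x = z
  et : ∀ x, ty x = 8 → x = t
  sz : s < z
  zt : z < t
  lt : ∀ {x y}, x < y →
    (ty x ≤ 3 ∧ (ty y = 4 ∧ ty x = 0 ∨ ty y = 6 ∧ ty x ≤ 1 ∨ ty y = 8 ∧ ty x ≤ 2 ∨ ty y = 5 ∨
      ty y = 7 ∨ 9 ≤ ty y)) ∨ (ty x = 4 ∧ (ty y = 6 ∨ ty y = 8 ∨ 10 ≤ ty y)) ∨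
    (ty x = 6 ∧ (ty y = 8 ∨ 11 ≤ ty y)) ∨ (ty x = 8 ∧ ty y = 12) ∨
    ((ty x = 5 ∨ ty x = 7) ∧ 9 ≤ ty y)
  l4 : ∀ x, ty x = 0 → x < s
  l6 : ∀ x, ty x ≤ 1 → x < z
  l8 : ∀ x, ty x ≤ 2 → x < t
  g4 : ∀ x, 10 ≤ ty x → s < x
  g6 : ∀ x, 11 ≤ ty x → z < x
  g8 : ∀ x, ty x = 12 → t < x
  up : ∀ x, ty x ≤ 8 → ∃ y, x < y ∧ 9 ≤ ty y
  down : ∀ x, 4 ≤ ty x → ∃ y, y < x ∧ ty y ≤ 3
  wr : ∃ r b, (ty r = 3 ∨ ty r = 5 ∨ ty r = 7) ∧ ty b = 12 ∧ r < b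
  wc : ∃ c a, (ty c = 9 ∨ ty c = 5 ∨ ty c = 7) ∧ ty a = 0 ∧ a < c
  sp1 : ∃ x, ty x = 1 ∨ ty x = 10
  sp2 : ∃ x, ty x = 2 ∨ ty x = 11

variable {ty : X → ℕ} {s z t : X}

theorem DT.dual (T : DT ty s z t) : DT (X := Xᵒᵈ) (fun x => 12 - ty x) t z s where
  pr := T.pr.dual
  le := fun x => by omega
  hs := by have := T.ht; omega
  hz := by have := T.hz; omega
  ht := by have := T.hs; omega
  es := fun x h => T.et x (by omega)
  ez := fun x h => T.ez x (by omega)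
  et := fun x h => T.es x (by omega)
  sz := T.zt
  zt := T.sz
  lt := fun {x y} h => by
    have h1 := T.lt (x := y) (y := x) h
    have h2 := T.le x
    have h3 := T.le y
    omega
  l4 := fun x h => T.g8 x (by have := T.le x; omega)
  l6 := fun x h => T.g6 x (by omega)
  l8 := fun x h => T.g4 x (by omega)
  g4 := fun x h => T.l8 x (by omega)
  g6 := fun x h => T.l6 x (by omega)
  g8 := fun x h => T.l4 x (by omega)
  up := fun x h => by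
    obtain ⟨y, h1, h2⟩ := T.down x (by omega)
    exact ⟨y, h1, by omega⟩
  down := fun x h => by
    obtain ⟨y, h1, h2⟩ := T.up x (by omega)
    exact ⟨y, h1, by omega⟩
  wr := by
    obtain ⟨c, a, h1, h2, h3⟩ := T.wc
    exact ⟨c, a, by omega, by omega, h3⟩
  wc := by
    obtain ⟨c, a, h1, h2, h3⟩ := T.wr
    exact ⟨c, a, by omega, by omega, h3⟩
  sp1 := by
    obtain ⟨x, h⟩ := T.sp2
    exact ⟨x, by omega⟩
  sp2 := by
    obtain ⟨x, h⟩ := T.sp1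
    exact ⟨x, by omega⟩

/-- Minimal points. -/
def Mn (x : X) : Prop := ∀ y, ¬ y < x

/-- Maximal points. -/
def Mx (x : X) : Prop := ∀ y, ¬ x < y

theorem not_mn {x y : X} (h : x < y) : ¬ Mn y := fun h1 => h1 x h

theorem not_mx {x y : X} (h : x < y) : ¬ Mx x := fun h1 => h1 y h

theorem ex_lt {x : X} (h : ¬ Mn x) : ∃ y, y < x := by simpa [Mn] using h

theorem ex_gt {x : X} (h : ¬ Mx x) : ∃ y, x < y := by simpa [Mx] using h

theorem exists_DT [Finite X] (hp : Pr X) (sz : s < z) (zt : z < t) (exD : ∃ d, d < s)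
    (exU : ∃ u, t < u)
    (only : ∀ w x y w', w < x → x < y → y < w' → (x = s ∨ x = z) ∧ (y = z ∨ y = t)) :
    ∃ ty, DT ty s z t := by
  obtain ⟨d, hd⟩ := exD
  obtain ⟨u, hu⟩ := exU
  have h3 := three_of_chain hd sz
  have st := sz.trans zt
  have on' : ∀ x y, x < y → ¬ Mn x → ¬ Mx y → (x = s ∨ x = z) ∧ (y = z ∨ y = t) := by
    intro x y h h1 h2
    obtain ⟨w, hw⟩ := ex_lt h1
    obtain ⟨w', hw'⟩ := ex_gt h2
    exact only w x y w' hw h hw'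
  clear only
  have cls : ∀ x, ∃ n : ℕ, (Mn x ∧ ¬ Mx x ∧ (x < s ∧ n = 0 ∨
      ¬ x < s ∧ x < z ∧ n = 1 ∨ ¬ x < z ∧ x < t ∧ n = 2 ∨ ¬ x < t ∧ n = 3)) ∨
      (Mx x ∧ ¬ Mn x ∧ (t < x ∧ n = 12 ∨
      ¬ t < x ∧ z < x ∧ n = 11 ∨ ¬ z < x ∧ s < x ∧ n = 10 ∨ ¬ s < x ∧ n = 9)) ∨
      (¬ Mn x ∧ ¬ Mx x ∧ (x = s ∧ n = 4 ∨ x = z ∧ n = 6 ∨ x = t ∧ n = 8 ∨
        x ≠ s ∧ x ≠ z ∧ x ≠ t ∧ n = 5)) := by
    intro x
    obtain ⟨y, hy⟩ := not_isolated hp h3 x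
    by_cases h1 : Mn x
    · have h2 : ¬ Mx x := not_mx (hy.resolve_right (h1 y))
      by_cases a1 : x < s
      · exact ⟨0, Or.inl ⟨h1, h2, by simp [*]⟩⟩
      by_cases a2 : x < z
      · exact ⟨1, Or.inl ⟨h1, h2, by simp [*]⟩⟩
      by_cases a3 : x < t
      · exact ⟨2, Or.inl ⟨h1, h2, by simp [*]⟩⟩
      · exact ⟨3, Or.inl ⟨h1, h2, by simp [*]⟩⟩
    by_cases h2 : Mx x
    · by_cases a1 : t < x
      · exact ⟨12, Or.inr (Or.inl ⟨h2, h1, by simp [*]⟩)⟩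
      by_cases a2 : z < x
      · exact ⟨11, Or.inr (Or.inl ⟨h2, h1, by simp [*]⟩)⟩
      by_cases a3 : s < x
      · exact ⟨10, Or.inr (Or.inl ⟨h2, h1, by simp [*]⟩)⟩
      · exact ⟨9, Or.inr (Or.inl ⟨h2, h1, by simp [*]⟩)⟩
    by_cases a1 : x = s
    · exact ⟨4, Or.inr (Or.inr ⟨h1, h2, Or.inl ⟨a1, rfl⟩⟩)⟩
    by_cases a2 : x = z
    · exact ⟨6, Or.inr (Or.inr ⟨h1, h2, Or.inr (Or.inl ⟨a2, rfl⟩)⟩)⟩
    by_cases a3 : x = t
    · exact ⟨8, Or.inr (Or.inr ⟨h1, h2, Or.inr (Or.inr (Or.inl ⟨a3, rfl⟩))⟩)⟩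
    · exact ⟨5, Or.inr (Or.inr ⟨h1, h2, Or.inr (Or.inr (Or.inr ⟨a1, a2, a3, rfl⟩))⟩)⟩
  choose ty cls using cls
  have n1 := not_mn hd
  have n2 := not_mn sz
  have n3 := not_mn zt
  have n4 := not_mx sz
  have n5 := not_mx zt
  have n6 := not_mx hu
  have n7 := sz.ne
  have n8 := zt.ne
  have n9 := st.ne
  have hs : ty s = 4 := by have := cls s; grind
  have hz : ty z = 6 := by have := cls z; grind
  have ht : ty t = 8 := by have := cls t; grind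
  have loD : ∀ d x, d < s → ¬ x < d := fun d x h1 h2 => by
    have := (on' d s h1 (not_mn h2) n4).2
    grind
  have hiU : ∀ u x, t < u → ¬ u < x := fun u x h1 h2 => by
    have := (on' t u h1 n3 (not_mx h2)).1
    grind
  have hlt : ∀ {x y}, x < y →
    (ty x ≤ 3 ∧ (ty y = 4 ∧ ty x = 0 ∨ ty y = 6 ∧ ty x ≤ 1 ∨ ty y = 8 ∧ ty x ≤ 2 ∨ ty y = 5 ∨
      ty y = 7 ∨ 9 ≤ ty y)) ∨ (ty x = 4 ∧ (ty y = 6 ∨ ty y = 8 ∨ 10 ≤ ty y)) ∨
    (ty x = 6 ∧ (ty y = 8 ∨ 11 ≤ ty y)) ∨ (ty x = 8 ∧ ty y = 12) ∨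
    ((ty x = 5 ∨ ty x = 7) ∧ 9 ≤ ty y) := by
    intro x y h
    have h1 := cls x
    have h2 := cls y
    have h4 := on' x y h
    have h5 := not_mn h
    have h6 := not_mx h
    have h7 : x < s → x < z := fun h => h.trans sz
    have h8 : x < z → x < t := fun h => h.trans zt
    have h9 : t < y → z < y := fun h => zt.trans h
    have h10 : z < y → s < y := fun h => sz.trans h
    have h11 := h.ne
    clear cls on' loD hiU h3
    grind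
  have c2 : ∀ x, (ty x = 0 → x < s) ∧ (ty x ≤ 1 → x < z) ∧ (ty x ≤ 2 → x < t) ∧
      (10 ≤ ty x → s < x) ∧ (11 ≤ ty x → z < x) ∧ (ty x = 12 → t < x) ∧ ty x ≤ 12 ∧
      (ty x = 4 → x = s) ∧ (ty x = 6 → x = z) ∧ (ty x = 8 → x = t) ∧ (Mn x ↔ ty x ≤ 3) ∧
      (Mx x ↔ 9 ≤ ty x) := by
    intro x
    have h1 := cls x
    have h7 : x < s → x < z := fun h => h.trans sz
    have h8 : x < z → x < t := fun h => h.trans zt
    have h9 : t < x → z < x := fun h => zt.trans h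
    have h10 : z < x → s < x := fun h => sz.trans h
    clear cls on' loD hiU h3 hlt
    refine ⟨?_, ?_, ?_, ?_, ?_, ?_, ?_, ?_, ?_, ?_, ?_, ?_⟩ <;> grind
  clear cls on'
  refine ⟨ty, hp, fun x => (c2 x).2.2.2.2.2.2.1, hs, hz, ht, fun x => (c2 x).2.2.2.2.2.2.2.1,
    fun x => (c2 x).2.2.2.2.2.2.2.2.1, fun x => (c2 x).2.2.2.2.2.2.2.2.2.1, sz, zt, hlt,
    fun x => (c2 x).1, fun x => (c2 x).2.1, fun x => (c2 x).2.2.1, fun x => (c2 x).2.2.2.1,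
    fun x => (c2 x).2.2.2.2.1, fun x => (c2 x).2.2.2.2.2.1,
    fun x h => ?_, fun x h => ?_, ?_, ?_, ?_, ?_⟩
  · obtain ⟨b, h1, h2⟩ := exists_mx x
    have h4 := (c2 b).2.2.2.2.2.2.2.2.2.2.2.mp h2
    exact ⟨b, h1.lt_of_ne (by rintro rfl; omega), h4⟩
  · obtain ⟨b, h1, h2⟩ := exists_mn x
    have h4 := (c2 b).2.2.2.2.2.2.2.2.2.2.1.mp h2
    exact ⟨b, h1.lt_of_ne (by rintro rfl; omega), h4⟩
  · obtain ⟨r, b, h1, h2, h4, h5⟩ := exists_partner' hp zt ⟨u, hu⟩ hiU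
    have h6 := hlt h1
    have h7 := hlt h2
    obtain ⟨-, -, a1, -, -, -, -, a2, a3, a4, -⟩ := c2 r
    have b1 : ¬ ty r ≤ 2 := fun h => h4 (a1 h).le
    have b2 : ¬ ty r = 4 := fun h => h4 (a2 h ▸ st.le)
    have b3 : ¬ ty r = 6 := fun h => h4 (a3 h ▸ zt.le)
    have b4 : ¬ ty r = 8 := fun h => h4 (a4 h).le
    exact ⟨r, b, by omega, by omega, h2⟩
  · obtain ⟨c, a, h1, h2, h4, h5⟩ := exists_partner hp sz ⟨d, hd⟩ loD
    have h6 := hlt h1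
    have h7 := hlt h2
    obtain ⟨-, -, -, a1, -, -, -, a2, a3, a4, -⟩ := c2 c
    have b1 : ¬ 10 ≤ ty c := fun h => h4 (a1 h).le
    have b2 : ¬ ty c = 4 := fun h => h4 (a2 h).ge
    have b3 : ¬ ty c = 6 := fun h => h4 (a3 h ▸ sz.le)
    have b4 : ¬ ty c = 8 := fun h => h4 (a4 h ▸ st.le)
    exact ⟨c, a, by omega, by omega, h2⟩
  · obtain ⟨x, h1, h2, ⟨h4, h5⟩ | ⟨h4, h5⟩⟩ := exists_split hp hd sz
    · have h6 := hlt h4
      obtain ⟨a1, -, -, -, -, -, -, a2, -⟩ := c2 x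
      have b1 : ¬ ty x = 0 := fun h => h5 (a1 h)
      have b2 : ¬ ty x = 4 := fun h => h1 (a2 h)
      exact ⟨x, by omega⟩
    · have h6 := hlt h4
      obtain ⟨-, -, -, -, a1, -, -, -, a2, a3, -⟩ := c2 x
      have b1 : ¬ 11 ≤ ty x := fun h => h5 (a1 h)
      have b2 : ¬ ty x = 6 := fun h => h2 (a2 h)
      have b3 : ¬ ty x = 8 := fun h => h5 (a3 h ▸ zt)
      exact ⟨x, by omega⟩
  · obtain ⟨x, h1, h2, ⟨h4, h5⟩ | ⟨h4, h5⟩⟩ := exists_split hp sz zt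
    · have h6 := hlt h4
      obtain ⟨-, a1, -, -, -, -, -, a2, a3, -⟩ := c2 x
      have b1 : ¬ ty x ≤ 1 := fun h => h5 (a1 h)
      have b2 : ¬ ty x = 4 := fun h => h5 (a2 h ▸ sz)
      have b3 : ¬ ty x = 6 := fun h => h1 (a3 h)
      exact ⟨x, by omega⟩
    · have h6 := hlt h4
      obtain ⟨-, -, -, -, -, a1, a4, -, -, a3, -⟩ := c2 x
      have b1 : ¬ ty x = 12 := fun h => h5 (a1 h)
      have b3 : ¬ ty x = 8 := fun h => h2 (a3 h)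
      exact ⟨x, by omega⟩

end Pool.Agent.Lib.MP_04ca4f_co.St
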