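import Pool.Agent.Lib.MP_04ca4f_co.StZT

/-!
# All middle points are above or equal to s
-/

set_option autoImplicit false

namespace Pool.Agent.Lib.MP_04ca4f_co.St

variable {X : Type*} [PartialOrder X] {ty : X → ℕ} {s : X}

omit [PartialOrder X] in
theorem exists_pend (cd : X → ℕ) (k n : ℕ) :
    ∃ blk : X → ℕ, ∀ x, cd x = k ∧ blk x = n ∨ cd x ≠ k ∧ blk x = cd x := by
  refine ⟨fun x => if cd x = k then n else cd x, fun x => ?_⟩
  by_cases h : cd x = k
  · exact Or.inl ⟨h, if_pos h⟩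
  · exact Or.inr ⟨h, if_neg h⟩

theorem ZT.p2 [Finite X] (T : ZT ty s) (h0 : ∀ x, ty x ≠ 4)
    (Y : ∀ t, ty t = 3 → ∃ y, s < y ∧ y ≠ t ∧ ¬ t < y) : Perp X := by
  obtain ⟨t, r, b, ht, hr, htb, hrb, hrt⟩ := T.wit
  obtain ⟨c, a, hc, ha, hac⟩ := T.wc
  obtain ⟨y1, hy1, hy2, hy3⟩ := Y t ht
  have hs := T.hs
  have st := T.g2 t (Or.inl ht)
  replace hr : ty r = 1 := by have := h0 r; omega
  replace hc : ty c = 5 := by have := h0 c; omega
  have cls : ∀ x, ∃ n : ℕ, (ty x = 0 ∧ n = 0) ∨ (ty x = 1 ∧ x < t ∧ n = 1) ∨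
      (ty x = 1 ∧ ¬ x < t ∧ n = 2 ∧ x ≠ r) ∨ (x = r ∧ n = 3) ∨ (x = t ∧ n = 4) ∨
      (ty x = 3 ∧ x ≠ t ∧ n = 5) ∨ (ty x = 5 ∧ x ≠ c ∧ n = 6) ∨ (x = c ∧ n = 7) ∨
      (ty x = 6 ∧ ¬ t < x ∧ n = 8) ∨ (ty x = 6 ∧ t < x ∧ n = 9) ∨ (x = s ∧ n = 10) := by
    intro x
    have h1 := T.le x
    have h2 := h0 x
    have h3 := T.es x
    obtain h | h | h | h | h | h : ty x = 0 ∨ ty x = 1 ∨ ty x = 2 ∨ ty x = 3 ∨ ty x = 5 ∨
      ty x = 6 := by omega
    · exact ⟨0, by simp [h]⟩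
    · by_cases a1 : x < t
      · exact ⟨1, by simp [h, a1]⟩
      by_cases a2 : x = r
      · exact ⟨3, by simp [a2]⟩
      · exact ⟨2, by simp [h, a1, a2]⟩
    · exact ⟨10, by simp [h3 h]⟩
    · by_cases a1 : x = t
      · exact ⟨4, by simp [a1]⟩
      · exact ⟨5, by simp [h, a1]⟩
    · by_cases a1 : x = c
      · exact ⟨7, by simp [a1]⟩
      · exact ⟨6, by simp [h, a1]⟩
    · by_cases a1 : t < x
      · exact ⟨9, by simp [h, a1]⟩
      · exact ⟨8, by simp [h, a1]⟩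
  choose cd cls using cls
  have C : ∀ x, ty x = 0 ∧ cd x = 0 ∨ ty x = 1 ∧ 1 ≤ cd x ∧ cd x ≤ 3 ∨ ty x = 2 ∧ cd x = 10 ∨
      ty x = 3 ∧ (cd x = 4 ∨ cd x = 5) ∨ ty x = 5 ∧ (cd x = 6 ∨ cd x = 7) ∨
      ty x = 6 ∧ (cd x = 8 ∨ cd x = 9) := by
    intro x
    have h1 := cls x
    clear cls
    grind
  have E : ∀ x, (cd x = 3 → x = r) ∧ (cd x = 4 → x = t) ∧ (cd x = 7 → x = c) ∧
      (cd x = 10 → x = s) ∧ (cd x ≤ 1 → x < t) ∧ (cd x = 9 ↔ t < x) ∧
      (x < t → cd x ≤ 1 ∨ cd x = 10) := by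
    intro x
    have h1 := cls x
    have h2 : ty x = 0 → x < t := fun h => (T.l2 x h).trans st
    have h3 := fun h => T.lt (x := x) (y := t) h
    have h4 := fun h => T.lt (x := t) (y := x) h
    clear cls C
    refine ⟨?_, ?_, ?_, ?_, ?_, ?_, ?_⟩ <;> grind
  have cr : cd r = 3 := by have := cls r; grind
  have ct : cd t = 4 := by have := cls t; grind
  have cc : cd c = 7 := by have := cls c; grind
  have cs : cd s = 10 := by have := C s; omega
  have ca : cd a = 0 := by have := C a; omega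
  have cy : cd y1 = 5 ∨ cd y1 = 8 := by
    have h1 := C y1
    have h2 := T.lt hy1
    have h3 := mt (E y1).2.1 hy2
    have h4 := mt (E y1).2.2.2.2.2.1.mp hy3
    omega
  clear cls
  have LT : ∀ {x y}, x < y → cd x = 0 ∧ 4 ≤ cd y ∨ cd x = 1 ∧ 4 ≤ cd y ∧ cd y ≤ 9 ∨
      (cd x = 2 ∨ cd x = 3) ∧ 5 ≤ cd y ∧ cd y ≤ 9 ∨
      cd x = 10 ∧ (cd y = 4 ∨ cd y = 5 ∨ cd y = 8 ∨ cd y = 9) ∨ cd x = 4 ∧ cd y = 9 ∨
      cd x = 5 ∧ (cd y = 8 ∨ cd y = 9) := by
    intro x y h
    have h1 := T.lt h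
    have h2 : cd y = 4 → cd x ≤ 1 ∨ cd x = 10 := fun h' => (E x).2.2.2.2.2.2 ((E y).2.1 h' ▸ h)
    have h3 : cd x = 4 → cd y = 9 := fun h' => (E y).2.2.2.2.2.1.mpr ((E x).2.1 h' ▸ h)
    have h4 := C x
    have h5 := C y
    rcases h1 with h1 | h1 | h1 | h1 | h1
    · exact Or.inl ⟨by omega, by omega⟩
    · by_cases h6 : cd x = 1
      · exact Or.inr (Or.inl ⟨h6, by omega, by omega⟩)
      · exact Or.inr (Or.inr (Or.inl ⟨by omega, by omega, by omega⟩))
    · exact Or.inr (Or.inr (Or.inr (Or.inl ⟨by omega, by omega⟩)))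
    · by_cases h6 : cd x = 4
      · exact Or.inr (Or.inr (Or.inr (Or.inr (Or.inl ⟨h6, h3 h6⟩))))
      · exact Or.inr (Or.inr (Or.inr (Or.inr (Or.inr ⟨by omega, by omega⟩))))
    · omega
  have CM : ∀ {x y}, x < y ∨ y < x → _ := fun h => h.imp LT LT
  have gs : ∀ x, cd x = 4 ∨ cd x = 5 ∨ cd x = 8 ∨ cd x = 9 → s < x := fun x h =>
    T.g2 x (by have := C x; omega)
  have hD : ∀ x, x < s ↔ cd x = 0 := fun x =>
    ⟨fun h => by have := LT h; omega, fun h => T.l2 x (by have := C x; omega)⟩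
  have hU : ∀ x, t < x ↔ cd x = 9 := fun x => (E x).2.2.2.2.2.1.symm
  have le : ∀ x, cd x ≤ 10 := fun x => by have := C x; omega
  obtain ⟨blk, B⟩ := exists_pend cd 10 7
  have br : blk r = 3 := by have := B r; omega
  have bt : blk t = 4 := by have := B t; omega
  have bc : blk c = 7 := by have := B c; omega
  have by1 : blk y1 = cd y1 := by have := B y1; omega
  have hasz : ∀ J, Img (fun x => cd x ≠ 10) c blk J → J r ∧ J t := by
    intro J h
    have k1 : ∃ x, J x ∧ cd x ≤ 3 := by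
      by_contra h1
      push Not at h1
      have k2 : ¬ J c := fun h2 => by
        obtain ⟨w, h3, h4⟩ := h.adj c h2
        have := CM h4
        have := h1 w h3
        omega
      obtain ⟨x, y, h2, h3, h4⟩ := h.pair
      have := LT h4
      have := h1 x h2
      have : cd x ≠ 10 := fun h5 => k2 (h.foot x h2 (not_not.mpr h5))
      have := B x
      have := B y
      exact k2 (h.conv x y c h2 h3 (by omega) (by omega) (by omega))
    obtain ⟨x, hx, h1⟩ := k1
    have k2 : J r := by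
      obtain ⟨w, h2, h3⟩ := h.adj x hx
      have := CM h3
      have := B x
      have := B w
      by_cases h4 : cd x = 3
      · exact (E x).1 h4 ▸ hx
      · exact h.conv x w r hx h2 (by omega) (by omega) (by omega)
    obtain ⟨w, h2, h3⟩ := h.adj r k2
    have := CM h3
    have := B w
    exact ⟨k2, h.conv r w t k2 h2 (by omega) (by omega) (by omega)⟩
  have inc : ∀ {x y}, ¬ (cd x = 0 ∧ 4 ≤ cd y ∨ cd x = 1 ∧ 4 ≤ cd y ∧ cd y ≤ 9 ∨
      (cd x = 2 ∨ cd x = 3) ∧ 5 ≤ cd y ∧ cd y ≤ 9 ∨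
      cd x = 10 ∧ (cd y = 4 ∨ cd y = 5 ∨ cd y = 8 ∨ cd y = 9) ∨ cd x = 4 ∧ cd y = 9 ∨
      cd x = 5 ∧ (cd y = 8 ∨ cd y = 9)) → ¬ x < y := fun h h1 => h (LT h1)
  refine perp_of_blocks T.pr (fun x => cd x ≠ 10) s c s t blk
    (fun x h => (E x).2.2.2.1 (not_not.mp h)) (by omega) (fun x h => ?_) (fun x y _ _ h => ?_)
    (fun x h => ⟨inc (by omega), inc (by omega)⟩)
    (fun x h => by rw [(E x).2.2.2.1 (not_not.mp h)]; exact ⟨le_rfl, st.le⟩) st.le T.exD
    (T.exU ht) T.loD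
    (T.hiU ht) (fun d x h1 h2 => ?_) (fun d x h1 h2 => ?_)
    (fun d x h1 h2 h3 => ?_) (fun d x h1 h2 h3 => ?_) (fun e he => ?_) (fun J K hJ hJK hK => ?_)
  · have := B x; omega
  · have := LT h
    have := B x
    have := B y
    by_cases h2 : cd y = 4
    · exact ⟨r, by omega, by omega⟩
    by_cases h3 : cd x ≤ 3
    · exact ⟨t, by omega, by omega⟩
    exact ⟨c, by omega, by omega⟩
  · rw [hD] at h1 h2
    have := B d; have := B x; omega
  · rw [hU] at h1 h2
    have := B d; have := B x; have := le x; omega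
  · rw [hD] at h1 h2
    have := B d; have := B x; omega
  · rw [hU] at h1 h2
    have := B d; have := B x; omega
  · obtain ⟨hr', ht'⟩ := hasz _ he.img
    have cv := he.img.conv
    obtain ⟨u, a4, a5, -⟩ := he.sub ht' hr' htb hrb (inc (by omega)) hrt
      (ne_of_ty (ty := cd) (by omega))
    have k2 : blk u = 9 := by have := (hU u).mp a5; have := B u; omega
    have hc' := cv t u c ht' a4 (by omega) (by omega) (by omega)
    have hy' := cv t u y1 ht' a4 (by omega) (by omega) (by omega)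
    have hs' : e s = s := by
      rcases he.loc s (by omega) hc' with h | ⟨h1, h2⟩
      · exact h
      · have h3 : e s ≤ t := ht' ▸ he.mono _ _ st.le
        have h4 : e s ≤ y1 := hy' ▸ he.mono _ _ hy1.le
        rcases h3.eq_or_lt with h5 | h5
        · rw [h5] at h4
          exact absurd (h4.lt_of_ne hy2.symm) hy3
        · have := LT h5
          have := B (e s)
          exact absurd ⟨by omega, by omega⟩ (h2 t (by omega)).2
    obtain ⟨d, a6, a7, -⟩ := he.slb hs' hc' (T.l2 a ha) hac (inc (by omega))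
      (inc (by omega)) (ne_of_ty (ty := cd) (by omega))
    exact ⟨⟨d, a7, a6⟩, ⟨u, a5, a4⟩, fun x h => (E x).2.2.2.1 (not_not.mp h) ▸ hs'⟩
  · obtain ⟨hr', ht'⟩ := hasz _ hJ
    obtain ⟨w, a1, a2⟩ := hJ.adj t ht'
    have := CM a2
    have := B w
    refine T.all_of (n := 9) hK (fun x h => by have := C x; omega) (by omega)
      (fun x => by have := B x; have := le x; omega) ?_
    by_cases h1 : cd w ≤ 1
    · refine Or.inl fun x hx => hK.grow t 0 4 (hJK t ht') (by omega) (by omega) (by omega)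
        (fun y _ _ h => ?_) x (by have := C x; omega) (by omega)
        (by have := B x; have := C x; omega)
      have := B y
      by_cases h2 : cd y ≤ 1
      · exact Or.inr ⟨t, hJK t ht', Or.inr ((E y).2.2.2.2.1 h2)⟩
      by_cases h4 : cd y = 4
      · exact Or.inl ((E y).2.1 h4 ▸ hJK t ht')
      exact Or.inl (hJK y (hJ.conv w t y a1 ht' (by omega) (by omega) (by omega)))
    · have hc' : J c := by
        by_cases h2 : cd w = 10
        · exact hJ.foot w a1 (by omega)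
        · exact hJ.conv t w c ht' a1 (by omega) (by omega) (by omega)
      have hs' : K s := hK.pend s t (by omega) (hJK c hc') (hJK t ht') (Or.inr st)
      refine Or.inr fun x hx => hK.grow t 4 9 (hJK t ht') (by omega) (by omega) (by omega)
        (fun y h' h _ => ?_) x (by have := C x; omega) (by have := B x; have := C x; omega)
        (by have := B x; have := C x; omega)
      have := B y
      by_cases h2 : cd y = 4 ∨ cd y = 5 ∨ cd y = 8 ∨ cd y = 9
      · exact Or.inr ⟨s, hs', Or.inl (gs y h2)⟩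
      by_cases h5 : cd y = 7
      · exact Or.inl ((E y).2.2.1 h5 ▸ hJK c hc')
      exact Or.inl (hJK y (hJ.conv t c y ht' hc' h' (by omega) (by omega)))

end Pool.Agent.Lib.MP_04ca4f_co.St
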