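import Pool.Agent.Lib.MP_04ca4f_co.StDeltaB

/-!
# Types of points when s is the only middle point below a middle point
-/

set_option autoImplicit false

namespace Pool.Agent.Lib.MP_04ca4f_co.St

variable {X : Type*} [PartialOrder X]

/-- The types: 0 below s, 1 other minimal points, 2 is s, 3 middle points above s, 4 other middle
points, 5 maximal points not above s, 6 maximal points above s. -/
structure ZT (ty : X → ℕ) (s : X) : Prop where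
  pr : Pr X
  le : ∀ x, ty x ≤ 6
  hs : ty s = 2
  es : ∀ x, ty x = 2 → x = s
  lt : ∀ {x y}, x < y → ty x = 0 ∧ 2 ≤ ty y ∨ ty x = 1 ∧ 3 ≤ ty y ∨
    ty x = 2 ∧ (ty y = 3 ∨ ty y = 6) ∨ ty x = 3 ∧ ty y = 6 ∨ ty x = 4 ∧ 5 ≤ ty y
  l2 : ∀ x, ty x = 0 → x < s
  g2 : ∀ x, ty x = 3 ∨ ty x = 6 → s < x
  up : ∀ x, ty x ≤ 4 → ∃ y, x < y ∧ 5 ≤ ty y
  down : ∀ x, 2 ≤ ty x → ∃ y, y < x ∧ ty y ≤ 1
  exH : ∃ t, ty t = 3

variable {ty : X → ℕ} {s : X}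

theorem exists_ZT [Finite X] (hp : Pr X) {t : X} (st : s < t) (exD : ∃ d, d < s)
    (exU : ∃ u, t < u) (only : ∀ w x y w', w < x → x < y → y < w' → x = s) :
    ∃ ty, ZT ty s := by
  obtain ⟨d, hd⟩ := exD
  obtain ⟨u, hu⟩ := exU
  have h3 := three_of_chain hd st
  have on' : ∀ x y, x < y → ¬ Mn x → ¬ Mx y → x = s := by
    intro x y h h1 h2
    obtain ⟨w, hw⟩ := ex_lt h1
    obtain ⟨w', hw'⟩ := ex_gt h2
    exact only w x y w' hw h hw'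
  clear only
  have cls : ∀ x, ∃ n : ℕ, (Mn x ∧ ¬ Mx x ∧ (x < s ∧ n = 0 ∨ ¬ x < s ∧ n = 1)) ∨
      (Mx x ∧ ¬ Mn x ∧ (s < x ∧ n = 6 ∨ ¬ s < x ∧ n = 5)) ∨
      (¬ Mn x ∧ ¬ Mx x ∧ (x = s ∧ n = 2 ∨ s < x ∧ n = 3 ∨ x ≠ s ∧ ¬ s < x ∧ n = 4)) := by
    intro x
    obtain ⟨y, hy⟩ := not_isolated hp h3 x
    by_cases h1 : Mn x
    · have h2 : ¬ Mx x := not_mx (hy.resolve_right (h1 y))
      by_cases a1 : x < s
      · exact ⟨0, Or.inl ⟨h1, h2, by simp [*]⟩⟩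
      · exact ⟨1, Or.inl ⟨h1, h2, by simp [*]⟩⟩
    by_cases h2 : Mx x
    · by_cases a3 : s < x
      · exact ⟨6, Or.inr (Or.inl ⟨h2, h1, by simp [*]⟩)⟩
      · exact ⟨5, Or.inr (Or.inl ⟨h2, h1, by simp [*]⟩)⟩
    by_cases a1 : x = s
    · exact ⟨2, Or.inr (Or.inr ⟨h1, h2, Or.inl ⟨a1, rfl⟩⟩)⟩
    by_cases a2 : s < x
    · exact ⟨3, Or.inr (Or.inr ⟨h1, h2, Or.inr (Or.inl ⟨a2, rfl⟩)⟩)⟩
    · exact ⟨4, Or.inr (Or.inr ⟨h1, h2, Or.inr (Or.inr ⟨a1, a2, rfl⟩)⟩)⟩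
  choose ty cls using cls
  have n1 := not_mn hd
  have n3 := not_mn st
  have n4 := not_mx st
  have n6 := not_mx hu
  have n7 := lt_irrefl s
  have hs : ty s = 2 := by have := cls s; grind
  have ht : ty t = 3 := by have := cls t; grind
  have hlt : ∀ {x y}, x < y → ty x = 0 ∧ 2 ≤ ty y ∨ ty x = 1 ∧ 3 ≤ ty y ∨
      ty x = 2 ∧ (ty y = 3 ∨ ty y = 6) ∨ ty x = 3 ∧ ty y = 6 ∨ ty x = 4 ∧ 5 ≤ ty y := by
    intro x y h
    have h1 := cls x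
    have h2 := cls y
    have h4 := on' x y h
    have h5 := not_mn h
    have h6 := not_mx h
    have h10 : s < x → s < y := fun h' => h'.trans h
    have h11 := h.ne
    clear cls on' h3
    grind
  have c2 : ∀ x, (ty x = 0 → x < s) ∧ (ty x = 3 ∨ ty x = 6 → s < x) ∧ ty x ≤ 6 ∧
      (ty x = 2 → x = s) ∧ (Mn x ↔ ty x ≤ 1) ∧ (Mx x ↔ 5 ≤ ty x) := by
    intro x
    have h1 := cls x
    clear cls on' h3 hlt
    refine ⟨?_, ?_, ?_, ?_, ?_, ?_⟩ <;> grind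
  clear cls on'
  refine ⟨ty, hp, fun x => (c2 x).2.2.1, hs, fun x => (c2 x).2.2.2.1, hlt, fun x => (c2 x).1,
    fun x => (c2 x).2.1, fun x h => ?_, fun x h => ?_, t, ht⟩
  · obtain ⟨b, h1, h2⟩ := exists_mx x
    have h4 := (c2 b).2.2.2.2.2.mp h2
    exact ⟨b, h1.lt_of_ne (by rintro rfl; omega), h4⟩
  · obtain ⟨b, h1, h2⟩ := exists_mn x
    have h4 := (c2 b).2.2.2.2.1.mp h2
    exact ⟨b, h1.lt_of_ne (by rintro rfl; omega), h4⟩

namespace ZT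

theorem exD (T : ZT ty s) : ∃ d, d < s := by
  obtain ⟨d, h, -⟩ := T.down s T.hs.ge
  exact ⟨d, h⟩

theorem loD (T : ZT ty s) (d x : X) (h1 : d < s) : ¬ x < d := fun h2 => by
  have a1 := T.lt h1
  have a2 := T.lt h2
  have := T.hs
  omega

theorem exU (T : ZT ty s) {t : X} (ht : ty t = 3) : ∃ u, t < u := by
  obtain ⟨d, h, -⟩ := T.up t (by omega)
  exact ⟨d, h⟩

theorem hiU (T : ZT ty s) {t : X} (ht : ty t = 3) (u x : X) (h1 : t < u) : ¬ u < x := fun h2 => by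
  have a1 := T.lt h1
  have a2 := T.lt h2
  omega

theorem three (T : ZT ty s) (x y : X) : ∃ z, z ≠ x ∧ z ≠ y := by
  obtain ⟨d, hd⟩ := T.exD
  obtain ⟨t, ht⟩ := T.exH
  exact three_of_chain hd (T.g2 t (Or.inl ht)) x y

/-- The lower partner of s. -/
theorem wc (T : ZT ty s) : ∃ c a, (ty c = 4 ∨ ty c = 5) ∧ ty a = 0 ∧ a < c := by
  obtain ⟨t, ht⟩ := T.exH
  obtain ⟨c, a, h1, h2, h3, h4⟩ := exists_partner T.pr (T.g2 t (Or.inl ht)) T.exD T.loD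
  have a1 := T.lt h1
  have a2 := T.lt h2
  have a3 := T.hs
  have a4 := T.le c
  have b1 : ¬ ty c = 2 := fun h => h4 (T.es c h).le
  have b2 : ¬ (ty c = 3 ∨ ty c = 6) := fun h => h3 (T.g2 c h).le
  exact ⟨c, a, by omega, by omega, h2⟩

/-- The upper partner of a middle point above s. -/
theorem wr (T : ZT ty s) {t : X} (ht : ty t = 3) :
    ∃ r b, (ty r = 1 ∨ ty r = 3 ∨ ty r = 4) ∧ t < b ∧ r < b ∧ ¬ r < t ∧ r ≠ t := by
  have st := T.g2 t (Or.inl ht)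
  obtain ⟨r, b, h1, h2, h3, h4⟩ := exists_partner' T.pr st (T.exU ht) (T.hiU ht)
  have a2 := T.lt h2
  have b1 : ¬ ty r = 2 := fun h => h3 (T.es r h ▸ st.le)
  have b2 : ¬ ty r = 0 := fun h => h3 ((T.l2 r h).trans st).le
  exact ⟨r, b, by omega, h1, h2, fun h => h3 h.le, fun h => h3 h.le⟩

/-- Some middle point above s has an upper partner that is not above s. -/
theorem wit (T : ZT ty s) :
    ∃ t r b, ty t = 3 ∧ (ty r = 1 ∨ ty r = 4) ∧ t < b ∧ r < b ∧ ¬ r < t := by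
  by_contra h
  push Not at h
  obtain ⟨t, ht⟩ := T.exH
  obtain ⟨b, hb⟩ := T.exU ht
  have hs := T.hs
  have tr : ∀ x w a, ty x = 3 → x < w → ty a ≤ 1 → (a < x ↔ a < w) := by
    intro x w a h1 h2 h3
    refine ⟨fun h4 => h4.trans h2, fun h4 => ?_⟩
    by_cases h5 : ty a = 0
    · exact (T.l2 a h5).trans (T.g2 x (Or.inl h1))
    · exact h x a w h1 (by omega) h2 h4
  refine T.pr {x | (∃ h, ty h = 3 ∧ h ≤ x) ∧ ∀ a, ty a ≤ 1 → (a < x ↔ a < t)} (fun h1 => ?_)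
    ⟨t, ⟨⟨t, ht, le_rfl⟩, fun _ _ => Iff.rfl⟩, b,
      ⟨⟨t, ht, hb.le⟩, fun a ha => (tr t b a ht hb ha).symm⟩, hb.ne⟩ fun x hx => ⟨?_, ?_⟩
  · have : s ∈ {x | (∃ h, ty h = 3 ∧ h ≤ x) ∧ ∀ a, ty a ≤ 1 → (a < x ↔ a < t)} :=
      h1 ▸ Set.mem_univ s
    obtain ⟨⟨g, h2, h3⟩, -⟩ := this
    exact (T.g2 g (Or.inl h2)).not_ge h3
  · rintro ⟨w, ⟨⟨g, h1, h2⟩, h3⟩, h4⟩ w' ⟨⟨g', h5, h6⟩, h7⟩
    have a1 := T.lt h4
    by_cases b1 : ty x ≤ 1
    · exact (h7 x b1).mpr ((h3 x b1).mp h4)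
    by_cases b2 : ty x = 2
    · exact T.es x b2 ▸ (T.g2 g' (Or.inl h5)).trans_le h6
    by_cases b3 : ty x = 3
    · exact absurd ⟨⟨x, b3, le_rfl⟩, fun a ha => (tr x w a b3 h4 ha).trans (h3 a ha)⟩ hx
    · have a2 := T.lt (h g x w h1 (by omega) (h2.lt_of_ne (ne_of_ty (ty := ty) (by omega))) h4)
      omega
  · rintro ⟨w, ⟨⟨g, h1, h2⟩, h3⟩, h4⟩
    have a1 := T.lt h4
    have a2 : ty w = 3 := by
      rcases h2.eq_or_lt with rfl | h5
      · exact h1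
      · have := T.lt h5
        omega
    exact absurd ⟨⟨g, h1, h2.trans h4.le⟩, fun a ha => (tr w x a a2 h4 ha).symm.trans (h3 a ha)⟩ hx

/-- A closed set containing all minimal points, or all maximal points, is everything. -/
theorem all_of (T : ZT ty s) {on : X → Prop} {v : X} {blk : X → ℕ} {K : X → Prop}
    (hK : Clo on v blk K) (hon : ∀ x, ty x ≠ 2 → on x) (on_v : on v) {n : ℕ}
    (hn : ∀ x, blk x ≤ n) (h : (∀ x, ty x ≤ 1 → K x) ∨ ∀ x, 5 ≤ ty x → K x) (x : X) : K x := by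
  obtain ⟨a, -, ha⟩ := T.down s T.hs.ge
  obtain ⟨b, -, hb⟩ := T.up s (by have := T.hs; omega)
  have key : ∀ y, on y → K y := by
    rcases h with h | h
    · refine fun y hy => hK.grow a 0 n (h a ha) (hon a (by omega)) (by omega) (hn a)
        (fun y _ _ _ => ?_) y hy (by omega) (hn y)
      by_cases h1 : ty y ≤ 1
      · exact Or.inl (h y h1)
      · obtain ⟨w, h2, h3⟩ := T.down y (by omega)
        exact Or.inr ⟨w, h w h3, Or.inl h2⟩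
    · refine fun y hy => hK.grow b 0 n (h b hb) (hon b (by omega)) (by omega) (hn b)
        (fun y _ _ _ => ?_) y hy (by omega) (hn y)
      by_cases h1 : 5 ≤ ty y
      · exact Or.inl (h y h1)
      · obtain ⟨w, h2, h3⟩ := T.up y (by omega)
        exact Or.inr ⟨w, h w h3, Or.inr h2⟩
  by_cases hx : on x
  · exact key x hx
  · have h1 : ty x = 2 := by
      by_contra h1
      exact hx (hon x h1)
    obtain ⟨w, h2, h3⟩ := T.down x (by omega)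
    exact hK.pend x w hx (key v on_v) (key w (hon w (by omega))) (Or.inl h2)

end ZT

theorem Img.pair {on : X → Prop} {v : X} {blk : X → ℕ} {J : X → Prop} (h : Img on v blk J) :
    ∃ x y, J x ∧ J y ∧ x < y := by
  obtain ⟨x, hx⟩ := h.ne
  obtain ⟨y, hy, h2 | h2⟩ := h.adj x hx
  · exact ⟨x, y, hx, hy, h2⟩
  · exact ⟨y, x, hy, hx, h2⟩

end Pool.Agent.Lib.MP_04ca4f_co.St
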