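import Pool.Agent.Lib.MP_04ca4f_co.BlockLex

/-!
# Height three: the path through the minimal, middle and maximal points is rigid
-/

set_option autoImplicit false

namespace Pool.Agent.Lib.MP_04ca4f_co

variable {X : Type*}

/-- Minimal points. -/
def Lo (r : X → X → Prop) (x : X) : Prop := ∀ y, ¬ r y x

/-- Maximal points. -/
def Hi (r : X → X → Prop) (x : X) : Prop := ∀ y, ¬ r x y

/-- Points that are neither minimal nor maximal. -/
def Mid (r : X → X → Prop) (x : X) : Prop := (∃ y, r y x) ∧ ∃ y, r x y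

/-- The conditions on the minimal points; the maximal points satisfy the dual ones. -/
structure Half (r : X → X → Prop) (t : X → ℤ) (e : X → ℕ) (p q : X) : Prop where
  mid : Mid r p
  low : ∀ x, Lo r x → t x < t p
  le : ∀ x, ¬ Lo r x → t p ≤ t x
  te : ∀ x y, Lo r x → Lo r y → (t x < t y ↔ e y < e x)
  key1 : ∀ x y, Lo r x → Lo r y → e y < e x → r y p → r x p
  key2 : ∀ x y, Lo r x → Lo r y → e y < e x → (r x p ↔ r y p) → r y q → r x q
  lex : ∀ x y, Lo r x → Lo r y → e y < e x → ∃ z, r x z ∧ ¬ r y z ∧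
    (Mid r z ∨ ((∀ m, Mid r m → r y m → r x m) ∧ ∀ z', e z' < e z → (r x z' ↔ r y z')))
  up : ∃ a b, Lo r a ∧ ¬ r a p ∧ r a b ∧ r p b

/-- All the data for an order of height three. -/
structure Three (r : X → X → Prop) (t : X → ℤ) (e : X → ℕ) (p q : X) : Prop where
  irrefl : ∀ x, ¬ r x x
  trans : ∀ x y z, r x y → r y z → r x z
  no4 : ∀ x y z w, r x y → r y z → r z w → False
  prime : Prime r
  conn : Conn r
  path : IsPath t
  einj : ∀ x y, e x = e y → x = y
  lo : Half r t e p q
  hi : Half (fun x y => r y x) (fun x => - t x) e q p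

namespace Three

variable {r : X → X → Prop} {t : X → ℤ} {e : X → ℕ} {p q : X}

theorem dual (T : Three r t e p q) : Three (fun x y => r y x) (fun x => - t x) e q p where
  irrefl := T.irrefl
  trans := fun x y z h1 h2 => T.trans z y x h2 h1
  no4 := fun x y z w h1 h2 h3 => T.no4 w z y x h3 h2 h1
  prime := T.prime.flip
  conn := fun W h1 h2 => T.conn W h1 fun x hx y h => h2 x hx y h.symm
  path := T.path.neg
  einj := T.einj
  lo := T.hi
  hi := by simpa only [neg_neg] using T.lo

theorem q_mid (T : Three r t e p q) : Mid r q := T.hi.mid.symm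

theorem high (T : Three r t e p q) {x : X} (h : Hi r x) : t q < t x := by
  have := T.hi.low x h
  omega

theorem le_q (T : Three r t e p q) {x : X} (h : ¬ Hi r x) : t x ≤ t q := by
  have := T.hi.le x h
  omega

theorem not_lo {x y : X} (h : r x y) : ¬ Lo r y := fun h1 => h1 x h

theorem not_hi {x y : X} (h : r x y) : ¬ Hi r x := fun h1 => h1 y h

theorem mid_not_lo {x : X} (h : Mid r x) : ¬ Lo r x := fun h1 => h.1.elim h1

theorem mid_not_hi {x : X} (h : Mid r x) : ¬ Hi r x := fun h1 => h.2.elim h1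

theorem mid_of {x : X} (h1 : ¬ Lo r x) (h2 : ¬ Hi r x) : Mid r x :=
  ⟨by simpa [Lo] using h1, by simpa [Hi] using h2⟩

theorem lo_of_mid (T : Three r t e p q) {x m : X} (hm : Mid r m) (h : r x m) : Lo r x :=
  fun _ hy => hm.2.elim fun _ hz => T.no4 _ _ _ _ hy h hz

theorem hi_of_mid (T : Three r t e p q) {x m : X} (hm : Mid r m) (h : r m x) : Hi r x :=
  fun _ hy => hm.1.elim fun _ hz => T.no4 _ _ _ _ hz h hy

theorem mid_anti (T : Three r t e p q) {x y : X} (hx : Mid r x) (hy : Mid r y) : ¬ r x y :=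
  fun h => mid_not_lo hx (T.lo_of_mid hy h)

theorem p_le_q (T : Three r t e p q) : t p ≤ t q := T.lo.le q (mid_not_lo T.q_mid)

theorem lo_of_lt (T : Three r t e p q) {x : X} (h : t x < t p) : Lo r x := by
  by_contra h1
  have := T.lo.le x h1
  omega

theorem hi_of_lt (T : Three r t e p q) {x : X} (h : t q < t x) : Hi r x := by
  by_contra h1
  have := T.le_q h1
  omega

theorem t_lt (T : Three r t e p q) {x y : X} (h : r x y) : t x < t y := by
  by_cases h1 : Lo r x
  · have a1 := T.lo.low x h1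
    have a2 := T.lo.le y (not_lo h)
    omega
  · have a1 := T.le_q (not_hi h)
    have a2 := T.high (T.hi_of_mid (mid_of h1 (not_hi h)) h)
    omega

/-- Rows further from the centre stay below the first middle point. -/
theorem below_p (T : Three r t e p q) {x y : X} (h : r y p) (hxy : t x ≤ t y) : r x p := by
  have hy := T.lo_of_mid T.lo.mid h
  have h1 := T.lo.low y hy
  rcases hxy.eq_or_lt with h2 | h2
  · rwa [T.path.inj _ _ h2]
  · have hx := T.lo_of_lt (x := x) (by omega)
    exact T.lo.key1 x y hx hy ((T.lo.te x y hx hy).mp h2) h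

theorem above_q (T : Three r t e p q) {x y : X} (h : r q y) (hxy : t y ≤ t x) : r q x :=
  T.dual.below_p (x := x) (y := y) h (by omega)

theorem not_first (T : Three r t e p q) {x : X} (h : t x + 1 = t p) : ¬ r x p := by
  intro h1
  obtain ⟨a, -, ha, h2, -⟩ := T.lo.up
  have := T.lo.low a ha
  exact h2 (T.below_p h1 (by omega))

theorem inc (T : Three r t e p q) (x y : X) (h : Near t x y) : ¬ r x y := by
  intro h1
  have a1 := T.t_lt h1
  have a2 := h.2
  have a3 := T.p_le_q
  by_cases h2 : Lo r x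
  · have b1 := T.lo.low x h2
    have b2 := T.lo.le y (not_lo h1)
    have b3 : y = p := T.path.inj _ _ (by omega)
    exact T.not_first (by omega) (b3 ▸ h1)
  · have b1 := T.le_q (not_hi h1)
    have b2 := T.high (T.hi_of_mid (mid_of h2 (not_hi h1)) h1)
    have b3 : x = q := T.path.inj _ _ (by omega)
    exact T.dual.not_first (x := y) (by omega) (show r q y from b3 ▸ h1)

variable {f g : X → X}

/-- If the range has no maximal point, it contains a row below the first middle point. -/
theorem row_below (T : Three r t e p q) (hg : Good r t g) (hn : ¬ ∃ c, ∀ x, g x = c)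
    (hB : ∀ x, ¬ Hi r (g x)) : p ∈ Set.range g ∧ ∃ a ∈ Set.range g, r a p := by
  have h1 : ∀ u v, r (g u) (g v) → p ∈ Set.range g := fun u v h =>
    hg.convex T.path (u := u) (v := v)
      (T.lo.low _ (T.lo_of_mid (mid_of (not_lo h) (hB v)) h)).le (T.lo.le _ (not_lo h))
  have h2 : p ∈ Set.range g := by
    obtain ⟨_, ⟨v, rfl⟩, h | h⟩ := hg.mono.exists_adj T.conn hn ⟨p, rfl⟩
    · exact h1 _ _ h
    · exact h1 _ _ h
  obtain ⟨_, ⟨v, rfl⟩, h | h⟩ := hg.mono.exists_adj T.conn hn h2
  · exact absurd (T.hi_of_mid T.lo.mid h) (hB v)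
  · exact ⟨h2, _, ⟨v, rfl⟩, h⟩

/-- A class containing the first middle point absorbs the rows that have a neighbour in it. -/
theorem rows_const (T : Three r t e p q) (hf : Good r t f) {c : X} (hp : f p = c)
    (h : ∀ x, Lo r x → ∃ y, r x y ∧ f y = c) (x : X) (hx : Lo r x) : f x = c := by
  refine T.path.down (W := fun x => f x = c) hp (fun u v h1 h2 h3 => ?_) x (T.lo.low x hx).le
  obtain ⟨y, h4, h5⟩ := h v (T.lo_of_lt (by omega))
  exact hf.closed T.inc h3 h5 ⟨by omega, by omega⟩ (Or.inr h4)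

theorem nil_low (T : Three r t e p q) (hf : Good r t f) (hg : Good r t g)
    (hn : ¬ ∃ c, ∀ x, g x = c) (hB : ∀ x, ¬ Hi r (g x)) {c : X} (hc : ∀ x, f (g x) = c) (x : X) :
    f x = c := by
  have hR : ∀ y ∈ Set.range g, f y = c := by
    rintro _ ⟨u, rfl⟩
    exact hc u
  obtain ⟨hp, _, ⟨u, rfl⟩, ha⟩ := T.row_below hg hn hB
  have hlo : ∀ x, t x ≤ t p → f x = c := by
    intro x hx
    refine T.path.down (W := fun x => f x = c) (hR p hp) (fun a b h1 h2 h3 => ?_) x hx
    by_cases h4 : t b ≤ t (g u)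
    · exact hf.closed T.inc h3 (hR p hp) ⟨by omega, by omega⟩ (Or.inr (T.below_p ha h4))
    · obtain ⟨v, hv⟩ := hp
      exact hR b (hg.convex T.path (u := u) (v := v) (by omega) (by rw [hv]; omega))
  have hall : ∀ x, t p ≤ t x → ∀ y, t y ≤ t x → f y = c := by
    intro x hx
    refine T.path.up (W := fun x => ∀ y, t y ≤ t x → f y = c) hlo (fun a b h1 h2 h3 y hy => ?_) x hx
    by_cases h4 : t y ≤ t a
    · exact h3 y h4
    · have h5 : y = b := T.path.inj _ _ (by omega)
      subst h5
      obtain ⟨z, hz⟩ : ∃ z, r z y := by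
        by_contra h6
        have := T.lo.low y fun z hz => h6 ⟨z, hz⟩
        omega
      have h7 := T.t_lt hz
      exact hf.closed T.inc (h3 a le_rfl) (h3 z (by omega)) ⟨by omega, by omega⟩ (Or.inl hz)
  rcases le_total (t x) (t p) with h | h
  · exact hlo x h
  · exact hall x h x le_rfl

theorem mid_mem (T : Three r t e p q) (hg : Good r t g) {u v : X} (hu : Lo r (g u))
    (hv : Hi r (g v)) {x : X} (h1 : t p ≤ t x + 1) (h2 : t x ≤ t q + 1) : x ∈ Set.range g := by
  have a1 := T.lo.low _ hu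
  have a2 := T.high hv
  exact hg.convex T.path (u := u) (v := v) (by omega) (by omega)

theorem mid_mem' (T : Three r t e p q) (hg : Good r t g) {u v : X} (hu : Lo r (g u))
    (hv : Hi r (g v)) {x : X} (h : Mid r x) : x ∈ Set.range g := by
  have a1 := T.lo.le _ (mid_not_lo h)
  have a2 := T.le_q (mid_not_hi h)
  exact T.mid_mem hg hu hv (by omega) (by omega)

/-- If the range meets both ends, every row has an upper neighbour in the range. -/
theorem row_adj (T : Three r t e p q) (hg : Good r t g) (hn : ¬ ∃ c, ∀ x, g x = c) {u v : X}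
    (hu : Lo r (g u)) (hv : Hi r (g v)) (x : X) (hx : Lo r x) : ∃ y ∈ Set.range g, r x y := by
  have a1 := T.lo.low _ hu
  have a2 := T.lo.low _ hx
  have a3 := T.p_le_q
  obtain ⟨a, ha⟩ := T.path.conv (g u) p (t p - 1) (by omega) (by omega)
  have hal : Lo r a := T.lo_of_lt (by omega)
  obtain ⟨z, hz, h | h⟩ := hg.mono.exists_adj T.conn hn
    (T.mid_mem hg hu hv (x := a) (by omega) (by omega))
  swap
  · exact absurd h (hal z)
  by_cases h1 : t x = t a
  · exact ⟨z, hz, by rwa [T.path.inj _ _ h1]⟩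
  obtain ⟨w, h2, h3, h4 | ⟨h4, h5⟩⟩ := T.lo.lex x a hx hal ((T.lo.te x a hx hal).mp (by omega))
  · exact ⟨w, T.mid_mem' hg hu hv h4, h2⟩
  by_cases h6 : Hi r z
  swap
  · have h7 := mid_of (not_lo h) h6
    exact ⟨z, hz, h4 z h7 h⟩
  by_cases h7 : Hi r w
  swap
  · exact ⟨w, T.mid_mem' hg hu hv (mid_of (not_lo h2) h7), h2⟩
  by_cases h8 : e z < e w
  · exact ⟨z, hz, (h5 z h8).mpr h⟩
  · refine ⟨w, ?_, h2⟩
    obtain ⟨z', rfl⟩ := hz
    have h9 := T.hi.te w (g z') h7 h6
    have b1 := T.high h7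
    refine hg.convex T.path (u := u) (v := z') (by omega) ?_
    by_contra b2
    exact h8 (h9.mp (by omega))

theorem nil (T : Three r t e p q) (hf : Good r t f) (hg : Good r t g)
    (hn : ¬ ∃ c, ∀ x, g x = c) {c : X} (hc : ∀ x, f (g x) = c) (x : X) : f x = c := by
  by_cases hB : ∀ x, ¬ Hi r (g x)
  · exact T.nil_low hf hg hn hB hc x
  by_cases hA : ∀ x, ¬ Lo r (g x)
  · exact T.dual.nil_low hf.dual hg.dual hn hA hc x
  push Not at hA hB
  obtain ⟨u, hu⟩ := hA
  obtain ⟨v, hv⟩ := hB
  have hR : ∀ y ∈ Set.range g, f y = c := by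
    rintro _ ⟨u, rfl⟩
    exact hc u
  by_cases h1 : Lo r x
  · refine T.rows_const hf (hR p (T.mid_mem' hg hu hv T.lo.mid)) (fun y hy => ?_) x h1
    obtain ⟨z, hz, h⟩ := T.row_adj hg hn hu hv y hy
    exact ⟨z, h, hR z hz⟩
  by_cases h2 : Hi r x
  · refine T.dual.rows_const hf.dual (hR q (T.mid_mem' hg hu hv T.q_mid)) (fun y hy => ?_) x h2
    obtain ⟨z, hz, h⟩ := T.dual.row_adj hg.dual hn hv hu y hy
    exact ⟨z, h, hR z hz⟩
  · exact hR x (T.mid_mem' hg hu hv (mid_of h1 h2))

/-- The range of a nonconstant idempotent good map contains a maximal point. -/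
theorem idem_hi (T : Three r t e p q) (hg : Good r t g) (hn : ¬ ∃ c, ∀ x, g x = c)
    (hi : ∀ x, g (g x) = g x) : ∃ v, Hi r (g v) := by
  by_contra hB
  push Not at hB
  obtain ⟨⟨v, hv⟩, _, ⟨u, rfl⟩, ha⟩ := T.row_below hg hn hB
  obtain ⟨a, b, h1, h2, h3, h4⟩ := T.lo.up
  have h5 := T.lo.low a h1
  obtain ⟨a', rfl⟩ : a ∈ Set.range g := hg.convex T.path (u := u) (v := v)
    (by
      by_contra h6
      exact h2 (T.below_p ha (by omega))) (by rw [hv]; omega)
  have hp : g p = p := by rw [← hv, hi]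
  have h6 : p = g b := by
    rcases hg.mono _ _ h4 with h | h
    · rw [← h, hp]
    · rw [hp] at h
      exact absurd (T.hi_of_mid T.lo.mid h) (hB b)
  rcases hg.mono _ _ h3 with h | h
  · rw [hi, ← h6] at h
    rw [h] at h5
    omega
  · rw [hi, ← h6] at h
    exact h2 h

/-- A nonconstant idempotent good map sends minimal points to minimal points. -/
theorem idem_lo (T : Three r t e p q) (hg : Good r t g) (hn : ¬ ∃ c, ∀ x, g x = c)
    (hi : ∀ x, g (g x) = g x) {u v : X} (hu : Lo r (g u)) (hv : Hi r (g v)) (x : X)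
    (hx : Lo r x) : Lo r (g x) := by
  have hfix : ∀ y ∈ Set.range g, g y = y := by
    rintro _ ⟨u, rfl⟩
    exact hi u
  have hM : ∀ m, Mid r m → g m = m := fun m hm => hfix m (T.mid_mem' hg hu hv hm)
  have a0 := T.lo.low _ hu
  have a3 := T.p_le_q
  obtain ⟨a, ha⟩ := T.path.conv (g u) p (t p - 1) (by omega) (by omega)
  have hal : Lo r a := T.lo_of_lt (by omega)
  refine T.path.down (W := fun x => Lo r (g x)) (u := a)
    (by rwa [hfix a (T.mid_mem hg hu hv (by omega) (by omega))]) (fun y x h1 h2 h3 => ?_) x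
    (by have := T.lo.low x hx; omega)
  by_contra hx'
  have hx : Lo r x := T.lo_of_lt (by omega)
  have b1 := (hg.near y x ⟨by omega, by omega⟩).2
  have b2 := T.lo.low _ h3
  have b3 := T.lo.le _ hx'
  have hgx : g x = p := T.path.inj _ _ (by omega)
  have hxR : x ∉ Set.range g := fun h => hx' (by rwa [hfix x h])
  have hRow : ∀ w, t x < t (g w) := fun w => by
    by_contra h
    exact hxR (hg.convex T.path (u := w) (v := x) (by omega) (by omega))
  have hCol : ∀ c, Hi r c → c ∉ Set.range g → ∀ w, t (g w) < t c := fun c hc h w => by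
    by_contra h'
    have := T.high hc
    exact h (hg.convex T.path (u := x) (v := w) (by omega) (by omega))
  have hup : ∀ a m b, g a = m → r a b → m = g b ∨ r m (g b) := fun a m b h h' =>
    h ▸ hg.mono a b h'
  have hto : ∀ m, Mid r m → (∀ w, ¬ r (g w) m) → ∀ a, r a m → g a = m := fun m hm h a ham => by
    rcases hg.mono a m ham with h' | h'
    · rw [h', hM m hm]
    · rw [hM m hm] at h'
      exact absurd h' (h a)
  have hτ : ∀ a, g a = p → ∀ m, Mid r m → r a m → m = p := fun a h m hm ham => by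
    rcases hup a p m h ham with h' | h'
    · rw [h', hM m hm]
    · rw [hM m hm] at h'
      exact absurd h' (T.mid_anti T.lo.mid hm)
  by_cases hxp : r x p
  · have hyp : ¬ r y p := fun h => by
      rcases hg.mono y p h with h' | h'
      · rw [hM p T.lo.mid] at h'
        rw [h'] at b2
        omega
      · rw [hM p T.lo.mid] at h'
        exact T.not_first (by omega) h'
    have hnp : ∀ w, ¬ r (g w) p := fun w h => hyp (T.below_p h (by have := hRow w; omega))
    have hD := T.prime {z | z = p ∨ r z p} (fun h => by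
        obtain ⟨b, hb⟩ := T.lo.mid.2
        rcases (show b ∈ {z | z = p ∨ r z p} from h ▸ Set.mem_univ b) with h' | h'
        · exact T.irrefl p (h' ▸ hb)
        · exact T.irrefl p (T.trans _ _ _ hb h'))
      ⟨x, Or.inr hxp, p, Or.inl rfl, fun h => T.irrefl p (h ▸ hxp)⟩
    obtain ⟨c, a', hc1, hc2, hc3, hc4⟩ : ∃ c a', r a' p ∧ r a' c ∧ c ≠ p ∧ ¬ r p c := by
      by_contra hcon
      refine hD fun z hz => ⟨?_, ?_⟩
      · rintro ⟨w, rfl | hw, h⟩
        · exact absurd (Or.inr h) hz
        · exact absurd h (T.lo_of_mid T.lo.mid hw z)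
      · rintro ⟨w, hw, h⟩
        have h1 : r p z := by
          rcases hw with rfl | hw
          · exact h
          · by_contra h2
            exact hcon ⟨z, w, hw, h, fun h3 => hz (Or.inl h3), h2⟩
        rintro w' (rfl | hw')
        · exact h1
        · exact T.trans _ _ _ hw' h1
    have ha' := hto p T.lo.mid hnp a' hc1
    have hcH : Hi r c := by
      by_contra h
      exact hc3 (hτ a' ha' c (mid_of (not_lo hc2) h) hc2)
    have hpc := hup a' p c ha' hc2
    have hcR : c ∉ Set.range g := fun h => by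
      rw [hfix c h] at hpc
      exact hpc.elim (fun h' => hc3 h'.symm) hc4
    have hk : ∀ w, r p (g w) → ¬ r q (g w) ∧ r q c := fun w h => by
      have h1 := T.hi_of_mid T.lo.mid h
      have h2 := hCol c hcH hcR w
      have h3 := (T.hi.te c (g w) hcH h1).mp (by omega)
      have h4 : r q (g w) → r q c := T.hi.key1 c (g w) hcH h1 h3
      have h5 : (r q c ↔ r q (g w)) → r p (g w) → r p c := T.hi.key2 c (g w) hcH h1 h3
      have h6 : ¬ (r q c ↔ r q (g w)) := fun h7 => hc4 (h5 h7 h)
      tauto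
    obtain ⟨_, ⟨w, rfl⟩, h | h⟩ := hg.mono.exists_adj T.conn hn (T.mid_mem' hg hu hv T.lo.mid)
    swap
    · exact hnp w h
    have hqc := (hk w h).2
    have hpq : p ≠ q := fun h' => hc4 (h' ▸ hqc)
    rcases hup q q c (hM q T.q_mid) hqc with h1 | h1
    · rw [← h1] at hpc
      exact hpc.elim hpq (T.mid_anti T.lo.mid T.q_mid)
    · rcases hpc with h2 | h2
      · rw [← h2] at h1
        exact T.mid_anti T.q_mid T.lo.mid h1
      · exact (hk c h2).1 h1
  · have hxm : ∀ m, Mid r m → ¬ r x m := fun m hm h => hxp (hτ x hgx m hm h ▸ h)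
    have hnq : ∀ w, ¬ r (g w) q := fun w h => by
      have h1 := T.lo_of_mid T.q_mid h
      obtain ⟨z, h2, -, h4 | ⟨h4, -⟩⟩ :=
        T.lo.lex x (g w) hx h1 ((T.lo.te x (g w) hx h1).mp (hRow w))
      · exact hxm z h4 h2
      · exact hxm q T.q_mid (h4 q T.q_mid h)
    obtain ⟨c, a', hc1, hc2, hc3, hc4⟩ := T.hi.up
    have hcH : Hi r c := hc1
    have hqc := hup a' q c (hto q T.q_mid hnq a' hc4) hc3
    have hcR : c ∉ Set.range g := fun h => by
      rw [hfix c h] at hqc
      exact hqc.elim (fun h' => mid_not_hi T.q_mid (h' ▸ hcH)) hc2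
    obtain ⟨_, ⟨w, rfl⟩, h | h⟩ := hg.mono.exists_adj T.conn hn (T.mid_mem' hg hu hv T.q_mid)
    · exact hc2 (T.above_q h (hCol c hcH hcR w).le)
    · exact hnq w h

theorem regress (T : Three r t e p q) (hg : Good r t g) (hp : g p = p) {x : X} (hx : Lo r x)
    (hgx : Lo r (g x)) : e (g x) ≤ e x := by
  have h1 := T.lo.low x hx
  have h2 := (hg.lip T.path h1.le).1
  rw [hp] at h2
  by_contra h
  have := (T.lo.te (g x) x hgx hx).mpr (by omega)
  omega

theorem idem (T : Three r t e p q) (hg : Good r t g) (hn : ¬ ∃ c, ∀ x, g x = c)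
    (hi : ∀ x, g (g x) = g x) (x : X) : g x = x := by
  classical
  obtain ⟨v, hv⟩ := T.idem_hi hg hn hi
  obtain ⟨u, hu⟩ := T.dual.idem_hi hg.dual hn hi
  have hM : ∀ m, Mid r m → g m = m := fun m hm => by
    obtain ⟨w, rfl⟩ := T.mid_mem' hg hu hv hm
    exact hi w
  have hA := T.idem_lo hg hn hi hu hv
  have hB : ∀ x, Hi r x → Hi r (g x) := T.dual.idem_lo hg.dual hn hi hv hu
  have hLH : ∀ x, Lo r x → ¬ Hi r x := fun x h1 h2 => by
    have a1 := T.lo.low x h1
    have a2 := T.high h2
    have a3 := T.p_le_q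
    omega
  let β : X → Option (Option X) := fun x =>
    if Lo r x then none else if Hi r x then some none else some (some x)
  have hβ : ∀ x y, β x = β y → (Lo r x ∧ Lo r y) ∨ (Hi r x ∧ Hi r y) ∨ x = y := by
    intro x y h
    simp only [β] at h
    split_ifs at h <;> simp_all
  refine eq_of_lex β (fun x y h h' => ?_) e T.einj {m | Mid r m} (fun x y h h' => ?_) hg.mono hM
    (fun x => ?_) (fun x => ?_) x
  · rcases hβ x y h' with h1 | h1 | rfl
    exacts [h1.2 x h, h1.1 y h, T.irrefl x h]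
  · rcases hβ x y h with h1 | h1 | rfl
    · obtain ⟨z, h2, h3, h4⟩ := T.lo.lex x y h1.1 h1.2 h'
      exact ⟨z, Or.inl ⟨h2, h3⟩, h4.imp id fun h5 z' hz' =>
        ⟨h5.2 z' hz', iff_of_false (h1.1 z') (h1.2 z')⟩⟩
    · obtain ⟨z, h2, h3, h4⟩ := T.hi.lex x y h1.1 h1.2 h'
      exact ⟨z, Or.inr ⟨h2, h3⟩, h4.imp And.symm fun h5 z' hz' =>
        ⟨iff_of_false (h1.1 z') (h1.2 z'), h5.2 z' hz'⟩⟩
    · exact absurd h' (lt_irrefl _)
  · by_cases h1 : Lo r x
    · simp only [β, h1, hA x h1, if_true]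
    · by_cases h2 : Hi r x
      · simp only [β, h1, h2, hB x h2, if_true, if_false, if_neg fun h => hLH _ h (hB x h2)]
      · rw [hM x (mid_of h1 h2)]
  · by_cases h1 : Lo r x
    · exact T.regress hg (hM p T.lo.mid) h1 (hA x h1)
    · by_cases h2 : Hi r x
      · exact T.dual.regress hg.dual (hM q T.q_mid) h2 (hB x h2)
      · rw [hM x (mid_of h1 h2)]

theorem trivial [Finite X] (T : Three r t e p q) (hf : Good r t f) :
    f = id ∨ ∃ c, ∀ x, f x = c := by
  refine trivial_of_cases (Good r t) (fun _ _ => Good.comp)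
    (fun f g hf hg hn c hc => ⟨c, T.nil hf hg hn hc⟩) (fun g hg hn hi => T.idem hg hn hi)
    (fun f hf hi => ?_) hf
  refine (T.path.of_injective hf.near hi).resolve_right fun ⟨c, hc⟩ => ?_
  obtain ⟨b, hb⟩ := T.lo.mid.2
  have h1 := T.t_lt hb
  have h2 := hc p
  have h3 := hc b
  rcases hf.mono p b hb with h | h
  · rw [h] at h2
    omega
  · have := T.t_lt h
    omega

end Three

end Pool.Agent.Lib.MP_04ca4f_co
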